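import Mathlib

set_option autoImplicit false
open Finset

/-! The turning number of a closed meander is `±4` quarter turns.

`C` is a finite set of columns (crossing points of a closed curve with a straight row), `U` and `D`
are noncrossing perfect matchings of `C` (arcs above and below the row); the curve is a single
closed curve (no proper nonempty subset of `C` is stable under `U` and `D`). -/

namespace Pool.Agent.Q1.M6b.Meander

variable {α : Type*} [LinearOrder α]

/-- `1` if `x < y`, `-1` otherwise -/
def dir (x y : α) : ℤ := if x < y then 1 else -1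

lemma dir_lt {x y : α} (h : x < y) : dir x y = 1 := if_pos h
lemma dir_gt {x y : α} (h : y < x) : dir x y = -1 := if_neg (not_lt.2 h.le)

/-- `f` is a noncrossing perfect matching of `C` -/
structure Match (C : Finset α) (f : α → α) : Prop where
  mem : ∀ x ∈ C, f x ∈ C
  inv : ∀ x ∈ C, f (f x) = x
  ne : ∀ x ∈ C, f x ≠ x
  nc : ∀ x ∈ C, ∀ y ∈ C, x < y → y < f x → x < f y ∧ f y < f x

/-- the sign `(-1)^(number of points of C to the left of x)` -/
def sg (C : Finset α) (x : α) : ℤ := (-1) ^ (C.filter (· < x)).card

lemma sg_sq (C : Finset α) (x : α) : sg C x * sg C x = 1 := by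
  unfold sg
  rw [← pow_add, ← two_mul, pow_mul]; norm_num

lemma sg_or (C : Finset α) (x : α) : sg C x = 1 ∨ sg C x = -1 := by
  unfold sg
  exact neg_one_pow_eq_or ℤ _

omit [LinearOrder α] in
/-- a finset with a fixed point free involution is even -/
lemma even_of_inv {S : Finset α} {f : α → α} (hm : ∀ x ∈ S, f x ∈ S) (hi : ∀ x ∈ S, f (f x) = x)
    (hn : ∀ x ∈ S, f x ≠ x) : (-1 : ℤ) ^ S.card = 1 := by
  rw [← Finset.prod_const]
  refine Finset.prod_involution (fun a _ => f a) ?_ ?_ ?_ ?_
  · intro a ha; norm_num
  · intro a ha _; exact hn a ha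
  · intro a ha; exact hm a ha
  · intro a ha; exact hi a ha

lemma Match.sg_lt {C : Finset α} {f : α → α} (h : Match C f) {x : α} (hx : x ∈ C) (hlt : x < f x) :
    sg C (f x) = -sg C x := by
  have e : C.filter (· < f x) = (C.filter (· < x)) ∪ ({x} ∪ C.filter (fun z => x < z ∧ z < f x)) := by
    ext z
    simp only [mem_filter, mem_union, mem_singleton]
    constructor
    · rintro ⟨hz, h1⟩
      rcases lt_trichotomy z x with h2 | h2 | h2
      · exact Or.inl ⟨hz, h2⟩
      · exact Or.inr (Or.inl h2)
      · exact Or.inr (Or.inr ⟨hz, h2, h1⟩)
    · rintro (⟨hz, h1⟩ | rfl | ⟨hz, h1, h2⟩)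
      · exact ⟨hz, h1.trans hlt⟩
      · exact ⟨hx, hlt⟩
      · exact ⟨hz, h2⟩
  have ev : (-1 : ℤ) ^ (C.filter (fun z => x < z ∧ z < f x)).card = 1 := by
    apply even_of_inv (f := f)
    · intro z hz
      simp only [mem_filter] at hz ⊢
      have := h.nc x hx z hz.1 hz.2.1 hz.2.2
      exact ⟨h.mem z hz.1, this⟩
    · intro z hz
      simp only [mem_filter] at hz
      exact h.inv z hz.1
    · intro z hz
      simp only [mem_filter] at hz
      exact h.ne z hz.1
  unfold sg
  rw [e, card_union_of_disjoint, card_union_of_disjoint, pow_add, pow_add, ev]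
  · simp
  · rw [disjoint_singleton_left]; simp
  · rw [disjoint_left]
    intro z hz hz'
    simp only [mem_filter, mem_union, mem_singleton] at hz hz'
    rcases hz' with rfl | h2
    · exact lt_irrefl _ hz.2
    · exact lt_asymm hz.2 h2.2.1

lemma Match.sg {C : Finset α} {f : α → α} (h : Match C f) {x : α} (hx : x ∈ C) :
    sg C (f x) = -Meander.sg C x := by
  rcases lt_or_gt_of_ne (h.ne x hx) with h1 | h1
  · have := h.sg_lt (h.mem x hx) (by rw [h.inv x hx]; exact h1)
    rw [h.inv x hx] at this
    rw [this]; ring
  · exact h.sg_lt hx h1

/-- `S` is stable under `U` and `D` -/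
def Stable (U D : α → α) (S : Finset α) : Prop := ∀ x ∈ S, U x ∈ S ∧ D x ∈ S

/-- a single closed curve -/
structure Closed (U D : α → α) (C : Finset α) : Prop where
  mU : Match C U
  mD : Match C D
  ne : C.Nonempty
  single : ∀ S ⊆ C, S.Nonempty → Stable U D S → S = C

/-- total turning of the curve with arrows `n` (`+` = up), in quarter turns, anticlockwise -/
def turn (U D : α → α) (n : α → ℤ) (C : Finset α) : ℤ :=
  ∑ x ∈ C, -(n x * (dir x (U x) + dir x (D x)))

/-- an innermost arc -/
lemma Match.innermost {C : Finset α} {f : α → α} (h : Match C f) (hne : C.Nonempty) :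
    ∃ i ∈ C, i < f i ∧ ∀ z ∈ C, ¬ (i < z ∧ z < f i) := by
  classical
  have hP : (C.filter (fun x => x < f x)).Nonempty := by
    obtain ⟨x, hx⟩ := hne
    rcases lt_or_gt_of_ne (h.ne x hx) with h1 | h1
    · exact ⟨f x, by simp only [mem_filter]; exact ⟨h.mem x hx, by rw [h.inv x hx]; exact h1⟩⟩
    · exact ⟨x, by simp only [mem_filter]; exact ⟨hx, h1⟩⟩
  obtain ⟨i, hi, hmin⟩ := Finset.exists_min_image (C.filter (fun x => x < f x))
    (fun x => (C.filter (fun z => x < z ∧ z < f x)).card) hP
  simp only [mem_filter] at hi hmin
  refine ⟨i, hi.1, hi.2, ?_⟩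
  intro z hz hz2
  have key : ∀ w ∈ C, i < w → w < f w → f w < f i → False := by
    intro w hw h1 h2 h3
    have := hmin w ⟨hw, h2⟩
    have lt : (C.filter (fun z => w < z ∧ z < f w)).card < (C.filter (fun z => i < z ∧ z < f i)).card := by
      apply Finset.card_lt_card
      rw [Finset.ssubset_iff_of_subset]
      · refine ⟨w, ?_, ?_⟩
        · simp only [mem_filter]; exact ⟨hw, h1, h2.trans h3⟩
        · simp
      · intro t ht
        simp only [mem_filter] at ht ⊢
        exact ⟨ht.1, h1.trans ht.2.1, ht.2.2.trans h3⟩
    omega
  have hnc := h.nc i hi.1 z hz hz2.1 hz2.2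
  rcases lt_or_gt_of_ne (h.ne z hz) with h1 | h1
  · exact key (f z) (h.mem z hz) hnc.1 (by rw [h.inv z hz]; exact h1) (by rw [h.inv z hz]; exact hz2.2)
  · exact key z hz hz2.1 h1 hnc.2

/-- innermost removal -/
lemma umlauf_aux (m : ℕ) : ∀ (C : Finset α) (U D : α → α), C.card = m → Closed U D C →
    ∑ x ∈ C, sg C x * (dir x (U x) + dir x (D x)) = 4 := by
  classical
  induction m using Nat.strong_induction_on with
  | _ m ih =>
    intro C U D hm hC
    obtain ⟨i, hi, hij, hempty⟩ := hC.mU.innermost hC.ne
    set j := U i with hj
    have hjC : j ∈ C := hC.mU.mem i hi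
    have hUj : U j = i := hC.mU.inv i hi
    have sgi : sg C j = -sg C i := hC.mU.sg hi
    by_cases hD : D i = j
    · -- two points
      have hDj : D j = i := by rw [← hD]; exact hC.mD.inv i hi
      have hS : ({i, j} : Finset α) = C := by
        apply hC.single
        · intro x hx
          rcases mem_insert.1 hx with rfl | hx
          · exact hi
          · rw [mem_singleton.1 hx]; exact hjC
        · exact ⟨i, mem_insert_self _ _⟩
        · intro x hx
          rcases mem_insert.1 hx with rfl | hx
          · exact ⟨by simp [← hj], by simp [hD]⟩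
          · rw [mem_singleton.1 hx, hUj, hDj]; simp
      have sgi1 : sg C i = 1 := by
        unfold sg
        rw [← hS]
        have : (({i, j} : Finset α).filter (· < i)) = ∅ := by
          ext z
          simp only [mem_filter, mem_insert, mem_singleton, notMem_empty, iff_false]
          rintro ⟨rfl | rfl, h⟩
          · exact lt_irrefl _ h
          · exact lt_asymm h hij
        rw [this]; simp
      rw [← hS, sum_pair hij.ne, hS, sgi, sgi1, hUj, hDj, hD, ← hj, dir_lt hij, dir_gt hij]
      norm_num
    · set a := D i with ha
      set b := D j with hb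
      have haC : a ∈ C := hC.mD.mem i hi
      have hbC : b ∈ C := hC.mD.mem j hjC
      have hDa : D a = i := hC.mD.inv i hi
      have hDb : D b = j := hC.mD.inv j hjC
      have hai : a ≠ i := hC.mD.ne i hi
      have hbj : b ≠ j := hC.mD.ne j hjC
      have haj : a ≠ j := hD
      have hbi : b ≠ i := by
        intro h; apply hD; rw [ha, ← hDb, h]
      have hab : a ≠ b := by
        intro h; apply hij.ne; rw [← hDa, h, hDb]
      have sga : sg C a = -sg C i := hC.mD.sg hi
      have sgb : sg C b = -sg C j := hC.mD.sg hjC
      set C' := C \ {i, j} with hC'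
      have mC' : ∀ x, x ∈ C' ↔ x ∈ C ∧ x ≠ i ∧ x ≠ j := by
        intro x; rw [hC', mem_sdiff, mem_insert, mem_singleton, not_or]
      set D' : α → α := fun x => if x = a then b else if x = b then a else D x with hD'
      have D'a : D' a = b := by simp [hD']
      have D'b : D' b = a := by simp only [hD']; rw [if_neg hab.symm]; simp
      have D'x : ∀ x, x ≠ a → x ≠ b → D' x = D x := by
        intro x h1 h2; simp only [hD']; rw [if_neg h1, if_neg h2]
      have Dinj : ∀ x ∈ C, ∀ y ∈ C, D x = D y → x = y := by
        intro x hx y hy h; rw [← hC.mD.inv x hx, h, hC.mD.inv y hy]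
      have Uinj : ∀ x ∈ C, ∀ y ∈ C, U x = U y → x = y := by
        intro x hx y hy h; rw [← hC.mU.inv x hx, h, hC.mU.inv y hy]
      -- positions
      have side : ∀ z ∈ C, z ≠ i → z ≠ j → (z < i ∨ j < z) := by
        intro z hz h1 h2
        by_contra h
        rw [not_or, not_lt, not_lt] at h
        exact hempty z hz ⟨lt_of_le_of_ne h.1 (Ne.symm h1), lt_of_le_of_ne h.2 h2⟩
      have mU' : Match C' U := by
        refine ⟨?_, ?_, ?_, ?_⟩
        · intro x hx
          rw [mC'] at hx ⊢
          refine ⟨hC.mU.mem x hx.1, ?_, ?_⟩
          · intro h; apply hx.2.2; rw [hj, ← h]; exact (hC.mU.inv x hx.1).symm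
          · intro h; apply hx.2.1; exact Uinj x hx.1 i hi h
        · intro x hx; exact hC.mU.inv x ((mC' x).1 hx).1
        · intro x hx; exact hC.mU.ne x ((mC' x).1 hx).1
        · intro x hx y hy h1 h2; exact hC.mU.nc x ((mC' x).1 hx).1 y ((mC' y).1 hy).1 h1 h2
      have D'mem : ∀ x ∈ C', D' x ∈ C' := by
        intro x hx
        have hx' := (mC' x).1 hx
        by_cases h1 : x = a
        · rw [h1, D'a, mC']; exact ⟨hbC, hbi, hbj⟩
        by_cases h2 : x = b
        · rw [h2, D'b, mC']; exact ⟨haC, hai, haj⟩
        rw [D'x x h1 h2, mC']
        refine ⟨hC.mD.mem x hx'.1, ?_, ?_⟩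
        · intro h; apply h1; rw [ha, ← h, hC.mD.inv x hx'.1]
        · intro h; apply h2; rw [hb, ← h, hC.mD.inv x hx'.1]
      have D'inv : ∀ x ∈ C', D' (D' x) = x := by
        intro x hx
        have hx' := (mC' x).1 hx
        by_cases h1 : x = a
        · rw [h1, D'a, D'b]
        by_cases h2 : x = b
        · rw [h2, D'b, D'a]
        rw [D'x x h1 h2, D'x, hC.mD.inv x hx'.1]
        · intro h; apply hx'.2.1; rw [← hC.mD.inv x hx'.1, h, hDa]
        · intro h; apply hx'.2.2; rw [← hC.mD.inv x hx'.1, h, hDb]
      have D'ne : ∀ x ∈ C', D' x ≠ x := by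
        intro x hx
        have hx' := (mC' x).1 hx
        by_cases h1 : x = a
        · rw [h1, D'a]; exact hab.symm
        by_cases h2 : x = b
        · rw [h2, D'b]; exact hab
        rw [D'x x h1 h2]; exact hC.mD.ne x hx'.1
      -- the three possible positions
      have pos : (a < i ∧ j < b) ∨ (b < a ∧ a < i) ∨ (j < b ∧ b < a) := by
        rcases side a haC hai haj with h1 | h1 <;> rcases side b hbC hbi hbj with h2 | h2
        · right; left
          refine ⟨?_, h1⟩
          by_contra h
          have h3 : a < b := lt_of_le_of_ne (not_lt.1 h) hab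
          have := hC.mD.nc a haC b hbC h3 (by rw [hDa]; exact h2)
          rw [hDa, hDb] at this
          order
        · left; exact ⟨h1, h2⟩
        · exfalso
          have := hC.mD.nc i hi j hjC hij h1
          order
        · right; right
          refine ⟨h2, ?_⟩
          by_contra h
          have h3 : a < b := lt_of_le_of_ne (not_lt.1 h) hab
          have := hC.mD.nc j hjC a haC h1 h3
          rw [hDa] at this
          order
      have hcr : ∀ x ∈ C, ∀ y ∈ C, x < y → y < D x → ¬ D x < D y := by
        intro x hx y hy h1 h2 h3
        have := hC.mD.nc x hx y hy h1 h2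
        order
      have D'cr : ∀ x ∈ C', ∀ y ∈ C', x < y → y < D' x → ¬ D' x < D' y := by
        intro x hx y hy h1 h2 h3
        have hx' := (mC' x).1 hx
        have hy' := (mC' y).1 hy
        have sx := side x hx'.1 hx'.2.1 hx'.2.2
        have sy := side y hy'.1 hy'.2.1 hy'.2.2
        by_cases xab : x = a ∨ x = b
        · by_cases yab : y = a ∨ y = b
          · rcases xab with rfl | rfl <;> rcases yab with rfl | rfl
            · exact lt_irrefl _ h1
            · rw [D'a] at h2; exact lt_irrefl _ h2
            · rw [D'b] at h2; exact lt_irrefl _ h2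
            · exact lt_irrefl _ h1
          · rw [not_or] at yab
            rw [D'x y yab.1 yab.2] at h3
            have hDy : D y ∈ C := hC.mD.mem y hy'.1
            have hDyi : D y ≠ i := by
              intro h; apply yab.1; rw [ha, ← h, hC.mD.inv y hy'.1]
            have hDyj : D y ≠ j := by
              intro h; apply yab.2; rw [hb, ← h, hC.mD.inv y hy'.1]
            have sDy := side (D y) hDy hDyi hDyj
            rcases xab with rfl | rfl
            · rw [D'a] at h2 h3
              rcases pos with p | p | p
              · rcases sy with s | s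
                · exact hcr a haC y hy'.1 h1 (by rw [hDa]; exact s) (by rw [hDa]; order)
                · exact hcr j hjC y hy'.1 s (by rw [← hb]; exact h2) (by rw [← hb]; exact h3)
              · order
              · order
            · rw [D'b] at h2 h3
              rcases pos with p | p | p
              · order
              · rcases sDy with s | s
                · exact hcr y hy'.1 a haC h2 h3 (by rw [hDa]; exact s)
                · exact hcr b hbC y hy'.1 h1 (by rw [hDb]; order) (by rw [hDb]; exact s)
              · exact hcr i hi y hy'.1 (by order) (by rw [← ha]; exact h2) (by rw [← ha]; exact h3)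
        · rw [not_or] at xab
          rw [D'x x xab.1 xab.2] at h2 h3
          have hDx : D x ∈ C := hC.mD.mem x hx'.1
          have hDxi : D x ≠ i := by
            intro h; apply xab.1; rw [ha, ← h, hC.mD.inv x hx'.1]
          have hDxj : D x ≠ j := by
            intro h; apply xab.2; rw [hb, ← h, hC.mD.inv x hx'.1]
          have sDx := side (D x) hDx hDxi hDxj
          by_cases ya : y = a
          · rw [ya, D'a] at h3
            rw [ya] at h1 h2
            rcases pos with p | p | p
            · rcases sDx with s | s
              · exact hcr x hx'.1 a haC h1 h2 (by rw [hDa]; exact s)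
              · exact hcr x hx'.1 j hjC (by order) s (by rw [← hb]; exact h3)
            · order
            · order
          by_cases yb : y = b
          · rw [yb, D'b] at h3
            rw [yb] at h1 h2
            rcases pos with p | p | p
            · order
            · exact hcr x hx'.1 b hbC h1 h2 (by rw [hDb]; order)
            · rcases sx with s | s
              · exact hcr x hx'.1 i hi s (by order) (by rw [← ha]; exact h3)
              · exact hcr j hjC x hx'.1 s (by rw [← hb]; exact h1) (by rw [← hb]; exact h2)
          · rw [D'x y ya yb] at h3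
            exact hcr x hx'.1 y hy'.1 h1 h2 h3
      have mD' : Match C' D' := by
        refine ⟨D'mem, D'inv, D'ne, ?_⟩
        intro x hx y hy h1 h2
        have e1 : ¬ D' x < D' y := D'cr x hx y hy h1 h2
        have e2 : D' y ≠ D' x := by
          intro h
          apply h1.ne
          rw [← D'inv x hx, ← h, D'inv y hy]
        have e3 : D' y ≠ x := by
          intro h
          apply h2.ne
          rw [← h, D'inv y hy]
        refine ⟨?_, lt_of_le_of_ne (not_lt.1 e1) e2⟩
        by_contra h
        have h4 : D' y < x := lt_of_le_of_ne (not_lt.1 h) e3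
        exact D'cr (D' y) (D'mem y hy) x hx h4 (by rw [D'inv y hy]; exact h1)
          (by rw [D'inv y hy]; exact h2)
      have aC' : a ∈ C' := (mC' a).2 ⟨haC, hai, haj⟩
      have bC' : b ∈ C' := (mC' b).2 ⟨hbC, hbi, hbj⟩
      have hC'c : Closed U D' C' := by
        refine ⟨mU', mD', ⟨a, aC'⟩, ?_⟩
        intro S hS hne hst
        have hSC : S ⊆ C := fun x hx => ((mC' x).1 (hS hx)).1
        by_cases haS : a ∈ S
        · have hbS : b ∈ S := by have := (hst a haS).2; rwa [D'a] at this
          have : S ∪ {i, j} = C := by
            apply hC.single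
            · intro x hx
              rcases mem_union.1 hx with h | h
              · exact hSC h
              · rcases mem_insert.1 h with rfl | h
                · exact hi
                · rw [mem_singleton.1 h]; exact hjC
            · exact ⟨a, mem_union_left _ haS⟩
            · intro x hx
              rcases mem_union.1 hx with h | h
              · refine ⟨mem_union_left _ (hst x h).1, ?_⟩
                by_cases h1 : x = a
                · rw [h1, hDa]; simp
                by_cases h2 : x = b
                · rw [h2, hDb]; simp
                have := (hst x h).2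
                rw [D'x x h1 h2] at this
                exact mem_union_left _ this
              · rcases mem_insert.1 h with rfl | h
                · exact ⟨by simp [← hj], mem_union_left _ (by rw [← ha]; exact haS)⟩
                · rw [mem_singleton.1 h, hUj]
                  exact ⟨by simp, mem_union_left _ (by rw [← hb]; exact hbS)⟩
          rw [hC', ← this]
          ext x
          simp only [mem_sdiff, mem_union, mem_insert, mem_singleton]
          constructor
          · intro hx
            have := (mC' x).1 (hS hx)
            exact ⟨Or.inl hx, by rw [not_or]; exact this.2⟩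
          · rintro ⟨h | h, h2⟩
            · exact h
            · exact absurd h h2
        · have hbS : b ∉ S := by
            intro h; apply haS; have := (hst b h).2; rwa [D'b] at this
          have : S = C := by
            apply hC.single S hSC hne
            intro x hx
            have h1 : x ≠ a := by rintro rfl; exact haS hx
            have h2 : x ≠ b := by rintro rfl; exact hbS hx
            have := hst x hx
            rwa [D'x x h1 h2] at this
          exact absurd (hS (by rw [this]; exact hi)) (by rw [mC']; simp)
      have hcard : C'.card < m := by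
        rw [← hm, hC']
        apply card_lt_card
        rw [ssubset_iff_of_subset sdiff_subset]
        exact ⟨i, hi, by simp⟩
      have IH := ih _ hcard C' U D' rfl hC'c
      -- signs
      have sgC : ∀ x ∈ C', sg C x = sg C' x := by
        intro x hx
        have hx' := (mC' x).1 hx
        have sx := side x hx'.1 hx'.2.1 hx'.2.2
        unfold sg
        rcases sx with s | s
        · have : C.filter (· < x) = C'.filter (· < x) := by
            ext z
            simp only [mem_filter, mC']
            constructor
            · rintro ⟨h1, h2⟩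
              exact ⟨⟨h1, by order, by order⟩, h2⟩
            · rintro ⟨h1, h2⟩; exact ⟨h1.1, h2⟩
          rw [this]
        · have : C.filter (· < x) = C'.filter (· < x) ∪ {i, j} := by
            ext z
            simp only [mem_filter, mC', mem_union, mem_insert, mem_singleton]
            constructor
            · rintro ⟨h1, h2⟩
              by_cases h3 : z = i
              · right; left; exact h3
              by_cases h4 : z = j
              · right; right; exact h4
              left; exact ⟨⟨h1, h3, h4⟩, h2⟩
            · rintro (⟨h1, h2⟩ | rfl | rfl)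
              · exact ⟨h1.1, h2⟩
              · exact ⟨hi, by order⟩
              · exact ⟨hjC, s⟩
          rw [this, card_union_of_disjoint, card_pair hij.ne, pow_add]
          · norm_num
          · rw [disjoint_left]
            intro z hz hz'
            simp only [mem_filter, mC', mem_insert, mem_singleton] at hz hz'
            rcases hz' with h | h
            · exact hz.1.2.1 h
            · exact hz.1.2.2 h
      -- the sum
      have hCsplit : C = insert i (insert j (insert a (insert b (C' \ {a, b})))) := by
        ext x
        simp only [mem_insert, mem_sdiff, mC', mem_singleton]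
        constructor
        · intro hx
          by_cases h1 : x = i
          · exact Or.inl h1
          by_cases h2 : x = j
          · exact Or.inr (Or.inl h2)
          by_cases h3 : x = a
          · exact Or.inr (Or.inr (Or.inl h3))
          by_cases h4 : x = b
          · exact Or.inr (Or.inr (Or.inr (Or.inl h4)))
          · exact Or.inr (Or.inr (Or.inr (Or.inr ⟨⟨hx, h1, h2⟩, by rw [not_or]; exact ⟨h3, h4⟩⟩)))
        · rintro (rfl | rfl | rfl | rfl | h)
          · exact hi
          · exact hjC
          · exact haC
          · exact hbC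
          · exact h.1.1
      have hC'split : C' = insert a (insert b (C' \ {a, b})) := by
        ext x
        simp only [mem_insert, mem_sdiff, mem_singleton]
        constructor
        · intro hx
          by_cases h3 : x = a
          · exact Or.inl h3
          by_cases h4 : x = b
          · exact Or.inr (Or.inl h4)
          · exact Or.inr (Or.inr ⟨hx, by rw [not_or]; exact ⟨h3, h4⟩⟩)
        · rintro (rfl | rfl | h)
          · exact aC'
          · exact bC'
          · exact h.1
      have hrest : ∑ x ∈ C' \ {a, b}, sg C x * (dir x (U x) + dir x (D x))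
          = ∑ x ∈ C' \ {a, b}, sg C' x * (dir x (U x) + dir x (D' x)) := by
        apply sum_congr rfl
        intro x hx
        simp only [mem_sdiff, mem_insert, mem_singleton, not_or] at hx
        rw [sgC x hx.1, D'x x hx.2.1 hx.2.2]
      have n1 : i ∉ insert j (insert a (insert b (C' \ {a, b}))) := by
        simp only [mem_insert, mem_sdiff, mC', mem_singleton, not_or]
        exact ⟨hij.ne, hai.symm, hbi.symm, by simp⟩
      have n2 : j ∉ insert a (insert b (C' \ {a, b})) := by
        simp only [mem_insert, mem_sdiff, mC', mem_singleton, not_or]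
        exact ⟨haj.symm, hbj.symm, by simp⟩
      have n3 : a ∉ insert b (C' \ {a, b}) := by
        simp only [mem_insert, mem_sdiff, mem_singleton, not_or]
        exact ⟨hab, by simp⟩
      have n4 : b ∉ C' \ {a, b} := by simp
      have IH2 : sg C' a * (dir a (U a) + dir a b) + (sg C' b * (dir b (U b) + dir b a)
          + ∑ x ∈ C' \ {a, b}, sg C' x * (dir x (U x) + dir x (D' x))) = 4 := by
        have := IH
        rw [hC'split, sum_insert n3, sum_insert n4, ← hC'split, D'a, D'b] at this
        exact this
      have goal : ∑ x ∈ C, sg C x * (dir x (U x) + dir x (D x))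
          = sg C i * (dir i j + dir i a) + (sg C j * (dir j i + dir j b)
          + (sg C a * (dir a (U a) + dir a i) + (sg C b * (dir b (U b) + dir b j)
          + ∑ x ∈ C' \ {a, b}, sg C x * (dir x (U x) + dir x (D x))))) := by
        conv_lhs => rw [hCsplit]
        rw [sum_insert n1, sum_insert n2, sum_insert n3, sum_insert n4, ← hCsplit, hUj, hDa, hDb]
      rw [goal, hrest, ← IH2, ← sgC a aC', ← sgC b bC', sga, sgb, sgi, dir_lt hij, dir_gt hij]
      rcases pos with p | p | p
      · rw [dir_gt p.1, dir_lt p.1, dir_lt p.2, dir_gt p.2, dir_lt (by order : a < b),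
          dir_gt (by order : a < b)]
        ring
      · rw [dir_gt p.2, dir_lt p.2, dir_gt (by order : b < j), dir_lt (by order : b < j),
          dir_gt p.1, dir_lt p.1]
        ring
      · rw [dir_lt (by order : i < a), dir_gt (by order : i < a), dir_lt p.1, dir_gt p.1,
          dir_gt p.2, dir_lt p.2]
        ring

/-- **the Umlaufsatz for meanders**, reference orientation (up at the leftmost point) -/
theorem umlauf {C : Finset α} {U D : α → α} (h : Closed U D C) :
    ∑ x ∈ C, sg C x * (dir x (U x) + dir x (D x)) = 4 := umlauf_aux _ C U D rfl h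

/-- an orientation of the curve alternates -/
theorem alternate {C : Finset α} {U D : α → α} (h : Closed U D C) {n : α → ℤ}
    (n1 : ∀ x ∈ C, n x = 1 ∨ n x = -1) (nU : ∀ x ∈ C, n (U x) = -n x)
    (nD : ∀ x ∈ C, n (D x) = -n x) :
    ∃ e : ℤ, (e = 1 ∨ e = -1) ∧ ∀ x ∈ C, n x = e * sg C x := by
  classical
  obtain ⟨x0, hx0⟩ := h.ne
  have key : C.filter (fun x => n x * sg C x = n x0 * sg C x0) = C := by
    apply h.single
    · exact filter_subset _ _
    · exact ⟨x0, by simp [hx0]⟩
    · intro x hx
      simp only [mem_filter] at hx ⊢
      refine ⟨⟨h.mU.mem x hx.1, ?_⟩, ⟨h.mD.mem x hx.1, ?_⟩⟩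
      · rw [nU x hx.1, h.mU.sg hx.1, neg_mul_neg]; exact hx.2
      · rw [nD x hx.1, h.mD.sg hx.1, neg_mul_neg]; exact hx.2
  refine ⟨n x0 * sg C x0, ?_, ?_⟩
  · rcases n1 x0 hx0 with h1 | h1 <;> rcases sg_or C x0 with h2 | h2 <;> rw [h1, h2] <;> norm_num
  · intro x hx
    rw [← key] at hx
    have := (mem_filter.1 hx).2
    calc n x = n x * (sg C x * sg C x) := by rw [sg_sq]; ring
      _ = n x * sg C x * sg C x := by ring
      _ = n x0 * sg C x0 * sg C x := by rw [this]

/-- sums of the alternating signs over initial segments -/
lemma initSum (P : Finset α) :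
    ∑ x ∈ P, sg P x = if (-1 : ℤ) ^ P.card = 1 then 0 else 1 := by
  classical
  induction P using Finset.induction_on_max with
  | empty => simp
  | insert a s hs ih =>
    have ha : a ∉ s := fun h => lt_irrefl _ (hs a h)
    have e1 : (insert a s).filter (· < a) = s := by
      ext z
      simp only [mem_filter, mem_insert]
      constructor
      · rintro ⟨rfl | h, h2⟩
        · exact absurd h2 (lt_irrefl _)
        · exact h
      · intro h; exact ⟨Or.inr h, hs z h⟩
    have e2 : ∀ x ∈ s, sg (insert a s) x = sg s x := by
      intro x hx
      unfold sg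
      congr 2
      ext z
      simp only [mem_filter, mem_insert]
      constructor
      · rintro ⟨rfl | h, h2⟩
        · exact absurd (h2.trans (hs x hx)) (lt_irrefl _)
        · exact ⟨h, h2⟩
      · rintro ⟨h, h2⟩; exact ⟨Or.inr h, h2⟩
    rw [sum_insert ha, sum_congr rfl e2, ih, card_insert_of_notMem ha]
    have : sg (insert a s) a = (-1) ^ s.card := by unfold sg; rw [e1]
    rw [this, pow_succ]
    rcases neg_one_pow_eq_or ℤ s.card with h | h <;> rw [h] <;> norm_num

/-- the side function (winding number of the curve `C` at the gap whose left columns are those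
satisfying `P`) -/
def side (C : Finset α) (n : α → ℤ) (P : α → Prop) [DecidablePred P] : ℤ := -∑ x ∈ C.filter P, n x

/-- **closed meander**: turning `4 k`, winding number `k` at the gaps which have an odd number of points
of `C` on their left, `0` at the others, `k = ±1` -/
theorem closed {C : Finset α} {U D : α → α} (h : Closed U D C) {n : α → ℤ}
    (n1 : ∀ x ∈ C, n x = 1 ∨ n x = -1) (nU : ∀ x ∈ C, n (U x) = -n x)
    (nD : ∀ x ∈ C, n (D x) = -n x) :
    ∃ k : ℤ, (k = 1 ∨ k = -1) ∧ turn U D n C = 4 * k ∧
      ∀ (P : α → Prop) [DecidablePred P], (∀ x y, y < x → P x → P y) →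
        side C n P = if Odd (C.filter P).card then k else 0 := by
  obtain ⟨e, he, hn⟩ := alternate h n1 nU nD
  refine ⟨-e, ?_, ?_, ?_⟩
  · rcases he with rfl | rfl <;> norm_num
  · unfold turn
    have : ∑ x ∈ C, -(n x * (dir x (U x) + dir x (D x)))
        = -e * ∑ x ∈ C, sg C x * (dir x (U x) + dir x (D x)) := by
      rw [mul_sum]
      apply sum_congr rfl
      intro x hx
      rw [hn x hx]; ring
    rw [this, umlauf h]; ring
  · intro P _ hP
    unfold side
    have e1 : ∑ x ∈ C.filter P, n x = e * ∑ x ∈ C.filter P, sg (C.filter P) x := by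
      rw [mul_sum]
      apply sum_congr rfl
      intro x hx
      have hx' := mem_filter.1 hx
      rw [hn x hx'.1]
      congr 1
      unfold sg
      congr 2
      ext z
      simp only [mem_filter]
      constructor
      · rintro ⟨h1, h2⟩; exact ⟨⟨h1, hP x z h2 hx'.2⟩, h2⟩
      · rintro ⟨h1, h2⟩; exact ⟨h1.1, h2⟩
    rw [e1, initSum]
    rcases Nat.even_or_odd (C.filter P).card with h1 | h1
    · rw [if_pos h1.neg_one_pow, if_neg (Nat.not_odd_iff_even.2 h1)]; ring
    · rw [if_neg (by rw [h1.neg_one_pow]; norm_num), if_pos h1]; ring

/-- an arc of a noncrossing matching does not change the side: the sum of the arrows of the columns of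
`C` strictly between the feet of an arc vanishes -/
theorem between {C : Finset α} {f : α → α} {n : α → ℤ} (hm : ∀ x ∈ C, f x ∈ C)
    (hi : ∀ x ∈ C, f (f x) = x) (hne : ∀ x ∈ C, f x ≠ x) (hn : ∀ x ∈ C, n (f x) = -n x)
    {a b : α} (hab : ∀ x ∈ C, a < x → x < b → a < f x ∧ f x < b) :
    ∑ x ∈ C.filter (fun z => a < z ∧ z < b), n x = 0 := by
  refine Finset.sum_involution (fun x _ => f x) ?_ ?_ ?_ ?_
  · intro x hx
    rw [hn x (mem_filter.1 hx).1]; ring
  · intro x hx _
    exact hne x (mem_filter.1 hx).1
  · intro x hx
    have hx' := mem_filter.1 hx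
    exact mem_filter.2 ⟨hm x hx'.1, hab x hx'.1 hx'.2.1 hx'.2.2⟩
  · intro x hx
    exact hi x (mem_filter.1 hx).1

omit [LinearOrder α] in
/-- the whole sum of the arrows vanishes -/
theorem total {C : Finset α} {f : α → α} {n : α → ℤ} (hm : ∀ x ∈ C, f x ∈ C)
    (hi : ∀ x ∈ C, f (f x) = x) (hne : ∀ x ∈ C, f x ≠ x) (hn : ∀ x ∈ C, n (f x) = -n x) :
    ∑ x ∈ C, n x = 0 := by
  refine Finset.sum_involution (fun x _ => f x) ?_ ?_ ?_ ?_
  · intro x hx
    rw [hn x hx]; ring
  · intro x hx _
    exact hne x hx
  · intro x hx
    exact hm x hx
  · intro x hx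
    exact hi x hx

end Pool.Agent.Q1.M6b.Meander
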