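import Mathlib
import Pool.Agent.Q1.Env
import Pool.Agent.Q1.ExC
import Pool.Agent.H75.TwoArm.Strand

set_option autoImplicit false
open Finset

/-! Removal of a row: the labels on one side of the row are translated by a vector `v` with odd components.
This exchanges primal and dual on this side: open labels become closed, the strands are traversed
backwards, the turnings change their sign. -/

namespace Pool.Agent.Q1.M6b.Gl

open Pool.Agent.H75.Perc Pool.Agent.H99.NC Pool.Agent.H75.TwoArm Pool.Agent.Q1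

set_option linter.unusedSectionVars false
set_option linter.unnecessarySeqFocus false

/-- both components are odd -/
def OddV (v : ℤ × ℤ) : Prop := v.1 % 2 = 1 ∧ v.2 % 2 = 1

variable {v : ℤ × ℤ}

lemma OddV.neg (h : OddV v) : OddV (-v) := by
  unfold OddV at *
  simp only [Prod.fst_neg, Prod.snd_neg]
  omega

lemma lab_add (hv : OddV v) (c : ℤ × ℤ) : lab (c + v) = plab c + v := by
  obtain ⟨h1, h2⟩ := hv
  unfold lab plab
  simp only [Prod.fst_add, Prod.snd_add]
  rcases Int.emod_two_eq_zero_or_one c.1 with a1 | a1 <;>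
    rcases Int.emod_two_eq_zero_or_one c.2 with a2 | a2
  · rw [if_neg (by omega), if_neg (by omega), if_pos a2, if_pos a1]
    refine Prod.ext ?_ ?_ <;> simp <;> ring
  · rw [if_pos (by omega), if_neg (by omega), if_neg (by omega), if_pos a1]
    refine Prod.ext ?_ ?_ <;> simp
  · rw [if_neg (by omega), if_pos (by omega), if_pos a2, if_neg (by omega)]
    refine Prod.ext ?_ ?_ <;> simp <;> ring
  · rw [if_pos (by omega), if_pos (by omega), if_neg (by omega), if_neg (by omega)]
    refine Prod.ext ?_ ?_ <;> simp <;> ring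

lemma plab_add (hv : OddV v) (c : ℤ × ℤ) : plab (c + v) = lab c + v := by
  have h := lab_add hv.neg (c + v)
  rw [add_neg_cancel_right] at h
  rw [h, neg_add_cancel_right]

/-- the step map on the translated side -/
lemma nx_add (hv : OddV v) {ω ω' : Finset (ℤ × ℤ)} {c : ℤ × ℤ}
    (h : lab (c + v) ∈ ω' ↔ plab c ∉ ω) : nx ω' (c + v) = pv ω c + v := by
  have hp : plab c ∈ ω ↔ lab (c + v) ∉ ω' := by rw [h, not_not]
  obtain ⟨h1, h2⟩ := hv
  unfold nx nxO nxC
  by_cases hm : lab (c + v) ∈ ω'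
  · have hm' : plab c ∉ ω := h.1 hm
    rw [if_pos hm]
    unfold plab at hm'
    unfold pv
    simp only [Prod.fst_add, Prod.snd_add]
    rcases Int.emod_two_eq_zero_or_one c.1 with a1 | a1 <;>
      rcases Int.emod_two_eq_zero_or_one c.2 with a2 | a2
    · rw [if_pos a2, if_pos a1] at hm'
      rw [if_neg (by omega), if_neg (by omega), if_pos a2, if_pos a1, if_neg hm']
      refine Prod.ext ?_ ?_ <;> simp <;> ring
    · rw [if_neg (by omega), if_pos a1] at hm'
      rw [if_pos (by omega), if_neg (by omega), if_neg (by omega), if_pos a1, if_neg hm']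
      refine Prod.ext ?_ ?_ <;> simp <;> ring
    · rw [if_pos a2, if_neg (by omega)] at hm'
      rw [if_neg (by omega), if_pos (by omega), if_pos a2, if_neg (by omega), if_neg hm']
      refine Prod.ext ?_ ?_ <;> simp <;> ring
    · rw [if_neg (by omega), if_neg (by omega)] at hm'
      rw [if_pos (by omega), if_pos (by omega), if_neg (by omega), if_neg (by omega), if_neg hm']
      refine Prod.ext ?_ ?_ <;> simp <;> ring
  · have hm' : plab c ∈ ω := hp.2 hm
    rw [if_neg hm]
    unfold plab at hm'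
    unfold pv
    simp only [Prod.fst_add, Prod.snd_add]
    rcases Int.emod_two_eq_zero_or_one c.1 with a1 | a1 <;>
      rcases Int.emod_two_eq_zero_or_one c.2 with a2 | a2
    · rw [if_pos a2, if_pos a1] at hm'
      rw [if_neg (by omega), if_neg (by omega), if_pos a2, if_pos a1, if_pos hm']
      refine Prod.ext ?_ ?_ <;> simp <;> ring
    · rw [if_neg (by omega), if_pos a1] at hm'
      rw [if_pos (by omega), if_neg (by omega), if_neg (by omega), if_pos a1, if_pos hm']
      refine Prod.ext ?_ ?_ <;> simp <;> ring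
    · rw [if_pos a2, if_neg (by omega)] at hm'
      rw [if_neg (by omega), if_pos (by omega), if_pos a2, if_neg (by omega), if_pos hm']
      refine Prod.ext ?_ ?_ <;> simp <;> ring
    · rw [if_neg (by omega), if_neg (by omega)] at hm'
      rw [if_pos (by omega), if_pos (by omega), if_neg (by omega), if_neg (by omega), if_pos hm']
      refine Prod.ext ?_ ?_ <;> simp <;> ring

/-- turning on the translated side -/
lemma del_add {ω ω' : Finset (ℤ × ℤ)} {c : ℤ × ℤ}
    (h : lab (c + v) ∈ ω' ↔ plab c ∉ ω) : del ω' (c + v) = -del ω (pv ω c) := by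
  unfold del
  rw [lab_pv]
  by_cases hm : plab c ∈ ω
  · rw [if_pos hm, if_neg (fun hh => h.1 hh hm)]; norm_num
  · rw [if_neg hm, if_pos (h.2 hm)]

/-! ### The glued step map -/

open Classical in
/-- the glued step map: on the corners with `U` the translated inverse of `f` -/
noncomputable def gf (U : ℤ × ℤ → Prop) (f g : ℤ × ℤ → ℤ × ℤ) (v c : ℤ × ℤ) : ℤ × ℤ :=
  if U c then g (c - v) + v else f c

open Classical in
/-- the glued turning -/
noncomputable def gd (U : ℤ × ℤ → Prop) (g : ℤ × ℤ → ℤ × ℤ) (d : ℤ × ℤ → ℤ) (v c : ℤ × ℤ) : ℤ :=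
  if U c then -d (g (c - v)) else d c

section

variable {U : ℤ × ℤ → Prop} {f g : ℤ × ℤ → ℤ × ℤ} {d : ℤ × ℤ → ℤ}

lemma gf_low {c : ℤ × ℤ} (h : ¬ U c) : gf U f g v c = f c := by unfold gf; rw [if_neg h]

lemma gf_up {c : ℤ × ℤ} (h : U (c + v)) : gf U f g v (c + v) = g c + v := by
  unfold gf; rw [if_pos h, add_sub_cancel_right]

/-- a path on the lower side -/
lemma gf_path_low {c : ℤ × ℤ} {n : ℕ} (h : ∀ i < n, ¬ U (f^[i] c)) : ∀ i ≤ n,
    (gf U f g v)^[i] c = f^[i] c ∧ ∑ j ∈ range i, gd U g d v ((gf U f g v)^[j] c) =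
      ∑ j ∈ range i, d (f^[j] c) := by
  intro i
  induction i with
  | zero => intro _; exact ⟨rfl, by simp⟩
  | succ i ih =>
    intro hi
    obtain ⟨h1, h2⟩ := ih (by omega)
    refine ⟨?_, ?_⟩
    · rw [Function.iterate_succ_apply', Function.iterate_succ_apply', h1, gf_low (h i (by omega))]
    · rw [sum_range_succ, sum_range_succ, h2, h1]
      unfold gd
      rw [if_neg (h i (by omega))]

/-- a path on the upper side, traversed backwards -/
lemma gf_path_up (hg : ∀ c, g (f c) = c) {c : ℤ × ℤ} {n : ℕ} (h : ∀ i, 0 < i → i ≤ n → U (f^[i] c + v)) :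
    ∀ i ≤ n, (gf U f g v)^[i] (f^[n] c + v) = f^[n - i] c + v ∧
      ∑ j ∈ range i, gd U g d v ((gf U f g v)^[j] (f^[n] c + v)) =
        -∑ j ∈ Finset.Ico (n - i) n, d (f^[j] c) := by
  intro i
  induction i with
  | zero => intro _; exact ⟨rfl, by simp⟩
  | succ i ih =>
    intro hi
    obtain ⟨h1, h2⟩ := ih (by omega)
    have e : n - i = n - (i + 1) + 1 := by omega
    refine ⟨?_, ?_⟩
    · rw [Function.iterate_succ_apply', h1, gf_up (h (n - i) (by omega) (by omega)), e,
        Function.iterate_succ_apply', hg]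
    · rw [sum_range_succ, h2, h1]
      unfold gd
      rw [if_pos (h (n - i) (by omega) (by omega)), add_sub_cancel_right,
        Finset.sum_eq_sum_Ico_succ_bot (show n - (i + 1) < n by omega), ← e]
      have : g (f^[n - i] c) = f^[n - (i + 1)] c := by rw [e, Function.iterate_succ_apply', hg]
      rw [this]
      ring

end

/-! ### The glued configuration -/

/-- translation by `v` -/
def tr (v : ℤ × ℤ) : (ℤ × ℤ) ↪ (ℤ × ℤ) := ⟨fun e => e + v, add_left_injective v⟩

/-- the random labels after the removal of the row -/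
def gE (EL EU : Finset (ℤ × ℤ)) (v : ℤ × ℤ) : Finset (ℤ × ℤ) := EL ∪ EU.map (tr v)

/-- the configuration after the removal of the row -/
def gc (EL EU : Finset (ℤ × ℤ)) (v : ℤ × ℤ) (ω : Finset (ℤ × ℤ)) : Finset (ℤ × ℤ) :=
  (ω ∩ EL) ∪ (EU \ ω).map (tr v)

lemma mem_tr {e : ℤ × ℤ} {A : Finset (ℤ × ℤ)} : e ∈ A.map (tr v) ↔ e - v ∈ A := by
  rw [mem_map]
  constructor
  · rintro ⟨a, ha, rfl⟩
    have : tr v a - v = a := add_sub_cancel_right a v
    rwa [this]
  · intro h
    exact ⟨e - v, h, sub_add_cancel e v⟩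

lemma gc_sub {EL EU ω : Finset (ℤ × ℤ)} : gc EL EU v ω ⊆ gE EL EU v :=
  union_subset_union inter_subset_right (map_subset_map.2 sdiff_subset)

lemma Ec_compl {E : Finset (ℤ × ℤ)} (F : Finset (ℤ × ℤ) → ℂ) :
    Ec (fun _ => (1 / 2 : ℂ)) E (fun ω => F (E \ ω)) = Ec (fun _ => (1 / 2 : ℂ)) E F := by
  rw [Ec_half, Ec_half]
  congr 1
  refine sum_bij' (fun ω _ => E \ ω) (fun ω _ => E \ ω) ?_ ?_ ?_ ?_ ?_
  · intro ω _; exact mem_powerset.2 sdiff_subset
  · intro ω _; exact mem_powerset.2 sdiff_subset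
  · intro ω hω; exact Finset.sdiff_sdiff_eq_self (mem_powerset.1 hω)
  · intro ω hω; exact Finset.sdiff_sdiff_eq_self (mem_powerset.1 hω)
  · intro ω _; rfl

lemma Ec_tr {E : Finset (ℤ × ℤ)} (F : Finset (ℤ × ℤ) → ℂ) :
    Ec (fun _ => (1 / 2 : ℂ)) (E.map (tr v)) F =
      Ec (fun _ => (1 / 2 : ℂ)) E (fun ω => F (ω.map (tr v))) := by
  rw [Ec_half, Ec_half, card_map]
  congr 1
  symm
  refine sum_bij (fun ω _ => ω.map (tr v)) ?_ ?_ ?_ ?_
  · intro ω hω; exact mem_powerset.2 (map_subset_map.2 (mem_powerset.1 hω))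
  · intro a _ b _ h; exact map_injective _ h
  · intro ω hω
    rw [mem_powerset] at hω
    refine ⟨E.filter (fun e => e + v ∈ ω), mem_powerset.2 (filter_subset _ _), ?_⟩
    ext e
    rw [mem_tr, mem_filter, sub_add_cancel]
    constructor
    · exact fun h => h.2
    · intro h
      exact ⟨mem_tr.1 (hω h), h⟩
  · intro ω _; rfl

/-- **Averages after the removal of the row.** -/
theorem Ec_glue {EL EU : Finset (ℤ × ℤ)} (hd : Disjoint EL EU) (hd' : Disjoint EL (EU.map (tr v)))
    (F : Finset (ℤ × ℤ) → ℂ) : Ec (fun _ => (1 / 2 : ℂ)) (EL ∪ EU) (fun ω => F (gc EL EU v ω)) =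
      Ec (fun _ => (1 / 2 : ℂ)) (gE EL EU v) F := by
  unfold gE
  rw [Ec_union _ hd, Ec_union _ hd']
  refine Ec_congr fun ω1 h1 => ?_
  rw [Ec_tr, ← Ec_compl]
  refine Ec_congr fun ω2 h2 => ?_
  congr 1
  unfold gc
  have e1 : (ω1 ∪ EU \ ω2) ∩ EL = ω1 := by
    ext e
    rw [mem_inter, mem_union, mem_sdiff]
    constructor
    · rintro ⟨h | h, h3⟩
      · exact h
      · exact absurd h.1 (disjoint_left.1 hd h3)
    · intro h; exact ⟨Or.inl h, h1 h⟩
  have e2 : EU \ (ω1 ∪ EU \ ω2) = ω2 := by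
    ext e
    rw [mem_sdiff, mem_union, mem_sdiff]
    constructor
    · rintro ⟨h3, h4⟩
      by_contra h5
      exact h4 (Or.inr ⟨h3, h5⟩)
    · intro h
      refine ⟨h2 h, ?_⟩
      rintro (h5 | h5)
      · exact disjoint_left.1 hd (h1 h5) (h2 h)
      · exact h5.2 h
  rw [e1, e2]

/-- the natural step map of the glued configuration is the glued step map -/
theorem nx_glue (hv : OddV v) {EL EU W : Finset (ℤ × ℤ)} (hd' : Disjoint EL (EU.map (tr v)))
    {ω : Finset (ℤ × ℤ)} {U : ℤ × ℤ → Prop} {f g : ℤ × ℤ → ℤ × ℤ} {d : ℤ × ℤ → ℤ}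
    (hf : ∀ c, lab c ∈ EL → f c = nx (ω ∪ W) c ∧ d c = del (ω ∪ W) c)
    (hg : ∀ c, plab c ∈ EU → g c = pv (ω ∪ W) c ∧ d (g c) = del (ω ∪ W) (g c))
    (hW : ∀ e ∈ W, e ∉ EL ∧ e ∉ EU) (hUL : ∀ c, lab c ∈ EL → ¬ U c)
    (hUU : ∀ c, lab c ∈ EU.map (tr v) → U c) {c : ℤ × ℤ} (hc : lab c ∈ gE EL EU v) :
    gf U f g v c = nx (gc EL EU v ω) c ∧ gd U g d v c = del (gc EL EU v ω) c := by
  unfold gE at hc
  rcases mem_union.1 hc with h | h
  · have h0 := hUL c h
    have h1 : lab c ∈ ω ∪ W ↔ lab c ∈ gc EL EU v ω := by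
      unfold gc
      rw [mem_union, mem_union, mem_inter]
      constructor
      · rintro (h2 | h2)
        · exact Or.inl ⟨h2, h⟩
        · exact absurd h (hW _ h2).1
      · rintro (h2 | h2)
        · exact Or.inl h2.1
        · exact absurd (map_subset_map.2 sdiff_subset h2) (disjoint_left.1 hd' h)
    obtain ⟨e1, e2⟩ := hf c h
    rw [gf_low h0, e1]
    unfold gd
    rw [if_neg h0, e2]
    unfold nx del
    by_cases h3 : lab c ∈ ω ∪ W
    · rw [if_pos h3, if_pos (h1.1 h3), if_pos h3, if_pos (h1.1 h3)]; exact ⟨rfl, rfl⟩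
    · have h4 : lab c ∉ gc EL EU v ω := fun hh => h3 (h1.2 hh)
      rw [if_neg h3, if_neg h4, if_neg h3, if_neg h4]; exact ⟨rfl, rfl⟩
  · have h0 := hUU c h
    obtain ⟨c', rfl⟩ : ∃ c', c = c' + v := ⟨c - v, (sub_add_cancel c v).symm⟩
    rw [lab_add hv, mem_tr, add_sub_cancel_right] at h
    have h1 : lab (c' + v) ∈ gc EL EU v ω ↔ plab c' ∉ ω ∪ W := by
      unfold gc
      rw [lab_add hv, mem_union, mem_tr, add_sub_cancel_right, mem_sdiff, mem_union, not_or]
      constructor
      · rintro (h2 | h2)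
        · exfalso
          exact disjoint_left.1 hd' (mem_inter.1 h2).2 (mem_tr.2 (by rw [add_sub_cancel_right]; exact h))
        · exact ⟨h2.2, fun h3 => (hW _ h3).2 h⟩
      · rintro ⟨h2, _⟩
        exact Or.inr ⟨h, h2⟩
    obtain ⟨e1, e2⟩ := hg c' h
    refine ⟨?_, ?_⟩
    · rw [gf_up h0, nx_add hv h1, e1]
    · unfold gd
      rw [if_pos h0, add_sub_cancel_right, del_add h1, e2, e1]

end Pool.Agent.Q1.M6b.Gl
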