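import Mathlib

set_option autoImplicit false
open Finset

/-! Whitney cells. The set of the `m`-tuples of points of `ℤ` is partitioned into products of `b`-adic
intervals `I_1 × ... × I_m`; `I_i` is either a point or it is separated by at least `(K - 1) |I_i|` from
the other intervals and from the fixed points `z ∈ Z`, and the distance of `I_i` to the others is at most
a constant times `|I_i|`. -/

namespace Pool.Agent.Q1.M6b

variable {m : ℕ}

/-- the `b`-adic interval of level `s` with number `y` -/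
noncomputable def dy (b : ℤ) (s : ℕ) (y : ℤ) : Finset ℤ := Finset.Ico (b ^ s * y) (b ^ s * y + b ^ s)

lemma mem_dy {b : ℤ} (hb : 2 ≤ b) {s : ℕ} {y x : ℤ} : x ∈ dy b s y ↔ x / b ^ s = y := by
  have hp : 0 < b ^ s := by positivity
  unfold dy
  rw [Finset.mem_Ico]
  constructor
  · rintro ⟨h1, h2⟩
    apply le_antisymm
    · have : x < b ^ s * (y + 1) := by linarith
      have := Int.ediv_lt_of_lt_mul hp (by linarith [mul_comm (b ^ s) (y + 1)] : x < (y + 1) * b ^ s)
      omega
    · exact (Int.le_ediv_iff_mul_le hp).2 (by linarith [mul_comm (b ^ s) y])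
  · intro h
    have h1 := Int.mul_ediv_add_emod x (b ^ s)
    have h2 := Int.emod_nonneg x hp.ne'
    have h3 := Int.emod_lt_of_pos x hp
    rw [h] at h1
    constructor <;> linarith

lemma card_dy (b : ℤ) (s : ℕ) (y : ℤ) : (dy b s y).card = (b ^ s).toNat := by
  unfold dy
  rw [Int.card_Ico]
  congr 1
  ring

/-- separated at level `s` -/
def Sep (b K : ℤ) (s : ℕ) (x y : ℤ) : Prop := K ≤ |x / b ^ s - y / b ^ s|

lemma Sep.symm {b K : ℤ} {s : ℕ} {x y : ℤ} (h : Sep b K s x y) : Sep b K s y x := by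
  unfold Sep at *; rwa [abs_sub_comm]

lemma div_succ {b : ℤ} (hb : 2 ≤ b) (s t : ℕ) (x : ℤ) : x / b ^ (s + t) = x / b ^ s / b ^ t := by
  rw [pow_add, Int.ediv_ediv_of_nonneg (by positivity)]

lemma Sep.pred {b K : ℤ} (hb : 2 ≤ b) (hK : 1 ≤ K) {s : ℕ} {x y : ℤ} (h : Sep b K (s + 1) x y) :
    Sep b K s x y := by
  unfold Sep at *
  rw [div_succ hb, div_succ hb, pow_one] at h
  set u := x / b ^ s
  set v := y / b ^ s
  have hb0 : 0 < b := by linarith
  have key : ∀ u v : ℤ, K ≤ u / b - v / b → K ≤ u - v := by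
    intro u v h
    have h1 := Int.mul_ediv_add_emod u b
    have h2 := Int.emod_nonneg u hb0.ne'
    have h3 := Int.mul_ediv_add_emod v b
    have h4 := Int.emod_lt_of_pos v hb0
    have h5 : (K - 1) * 1 ≤ (u / b - v / b - 1) * b :=
      mul_le_mul (by linarith) (by linarith) (by norm_num) (by linarith)
    nlinarith
  rcases le_abs.1 h with h | h
  · exact (key u v h).trans (le_abs_self _)
  · exact (key v u (by linarith)).trans ((by linarith : v - u ≤ -(u - v)).trans (neg_le_abs _))

lemma Sep.mono {b K : ℤ} (hb : 2 ≤ b) (hK : 1 ≤ K) {s t : ℕ} (hst : s ≤ t) {x y : ℤ}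
    (h : Sep b K t x y) : Sep b K s x y := by
  induction t, hst using Nat.le_induction with
  | base => exact h
  | succ t _ ih => exact ih (h.pred hb hK)

/-- `j i` is separated at level `s` from all other points -/
def SepI (b K : ℤ) (Z : Finset ℤ) (s : ℕ) (j : Fin m → ℤ) (i : Fin m) : Prop :=
  (∀ l, l ≠ i → Sep b K s (j i) (j l)) ∧ ∀ z ∈ Z, Sep b K s (j i) z

lemma SepI.mono {b K : ℤ} (hb : 2 ≤ b) (hK : 1 ≤ K) {Z : Finset ℤ} {s t : ℕ} (hst : s ≤ t)
    {j : Fin m → ℤ} {i : Fin m} (h : SepI b K Z t j i) : SepI b K Z s j i :=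
  ⟨fun l hl => (h.1 l hl).mono hb hK hst, fun z hz => (h.2 z hz).mono hb hK hst⟩

open Classical in
/-- number of the levels `≤ S` at which `j i` is separated -/
noncomputable def lvt (b K : ℤ) (Z : Finset ℤ) (S : ℕ) (j : Fin m → ℤ) (i : Fin m) : ℕ :=
  ((Finset.range (S + 1)).filter (fun s => SepI b K Z s j i)).card

lemma lvt_le (b K : ℤ) (Z : Finset ℤ) (S : ℕ) (j : Fin m → ℤ) (i : Fin m) :
    lvt b K Z S j i ≤ S + 1 := by
  classical
  unfold lvt
  exact (card_filter_le _ _).trans (by simp)

lemma lt_lvt {b K : ℤ} (hb : 2 ≤ b) (hK : 1 ≤ K) {Z : Finset ℤ} {S : ℕ} {j : Fin m → ℤ}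
    {i : Fin m} {s : ℕ} : s < lvt b K Z S j i ↔ s ≤ S ∧ SepI b K Z s j i := by
  classical
  unfold lvt
  set A := (Finset.range (S + 1)).filter (fun s => SepI b K Z s j i) with hA
  -- `A` is an initial segment
  have hdown : ∀ t ∈ A, ∀ s ≤ t, s ∈ A := by
    intro t ht s hs
    rw [hA, mem_filter, mem_range] at *
    exact ⟨by omega, ht.2.mono hb hK hs⟩
  have hAr : A = Finset.range A.card := by
    by_cases hne : A.Nonempty
    · have hM := A.max'_mem hne
      set M := A.max' hne
      have : A = Finset.range (M + 1) := by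
        ext s
        rw [mem_range]
        constructor
        · intro h; exact Nat.lt_succ_of_le (A.le_max' s h)
        · intro h; exact hdown M hM s (by omega)
      rw [this]; simp
    · rw [not_nonempty_iff_eq_empty.1 hne]; simp
  constructor
  · intro h
    have : s ∈ A := by rw [hAr]; exact mem_range.2 h
    rw [hA, mem_filter, mem_range] at this
    exact ⟨by omega, this.2⟩
  · rintro ⟨h1, h2⟩
    have : s ∈ A := by rw [hA, mem_filter, mem_range]; exact ⟨by omega, h2⟩
    rw [hAr] at this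
    exact mem_range.1 this

/-- the level of the window of `j i` -/
noncomputable def lev (b K : ℤ) (Z : Finset ℤ) (S : ℕ) (j : Fin m → ℤ) (i : Fin m) : ℕ :=
  lvt b K Z S j i - 1

lemma lev_le (b K : ℤ) (Z : Finset ℤ) (S : ℕ) (j : Fin m → ℤ) (i : Fin m) :
    lev b K Z S j i ≤ S := by
  have := lvt_le b K Z S j i
  unfold lev; omega

/-- level and number of the window -/
noncomputable def key (b K : ℤ) (Z : Finset ℤ) (S : ℕ) (j : Fin m → ℤ) (i : Fin m) : ℕ × ℤ :=
  (lev b K Z S j i, j i / b ^ lev b K Z S j i)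

/-- `j'` is in the cell of `j` -/
def InCell (b K : ℤ) (Z : Finset ℤ) (S : ℕ) (j j' : Fin m → ℤ) : Prop :=
  ∀ i, j' i / b ^ lev b K Z S j i = j i / b ^ lev b K Z S j i

lemma div_of_le {b : ℤ} (hb : 2 ≤ b) {s t : ℕ} (hst : s ≤ t) {x y : ℤ}
    (h : x / b ^ s = y / b ^ s) : x / b ^ t = y / b ^ t := by
  obtain ⟨r, rfl⟩ := Nat.exists_eq_add_of_le hst
  rw [div_succ hb, div_succ hb, h]

lemma sep_of_cell {b K : ℤ} (hb : 2 ≤ b) (hK : 1 ≤ K) {Z : Finset ℤ} {S : ℕ} {j j' : Fin m → ℤ}
    (h : InCell b K Z S j j') (i : Fin m) : lvt b K Z S j i ≤ lvt b K Z S j' i := by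
  rcases Nat.eq_zero_or_pos (lvt b K Z S j i) with h0 | hpos
  · rw [h0]; exact Nat.zero_le _
  obtain ⟨s, hs⟩ : ∃ s, lvt b K Z S j i = s + 1 := ⟨_, (Nat.succ_pred_eq_of_pos hpos).symm⟩
  have hlev : lev b K Z S j i = s := by unfold lev; omega
  have h1 := (lt_lvt hb hK (Z := Z) (S := S) (j := j) (i := i) (s := s)).1 (by omega)
  rw [hs]
  refine (lt_lvt hb hK).2 ⟨h1.1, fun l hl => ?_, fun z hz => ?_⟩
  · by_cases hls : lev b K Z S j l ≤ s
    · have e1 := h i
      rw [hlev] at e1
      have e2 := div_of_le hb hls (h l)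
      unfold Sep
      rw [e1, e2]
      exact h1.2.1 l hl
    · push Not at hls
      -- the level of `l` is larger
      set t := lev b K Z S j l with ht
      have htl : t < lvt b K Z S j l := by unfold lev at ht; omega
      have h2 := ((lt_lvt hb hK).1 htl).2.1 i (Ne.symm hl)
      have e2 := h l
      rw [← ht] at e2
      have e1 := h i
      rw [hlev] at e1
      have e3 := div_of_le hb hls.le e1
      have h3 : Sep b K t (j' i) (j' l) := by
        unfold Sep at h2 ⊢
        rw [e2, e3, abs_sub_comm]; exact h2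
      exact h3.mono hb hK hls.le
  · have e1 := h i
    rw [hlev] at e1
    have h2 := h1.2.2 z hz
    unfold Sep at h2 ⊢
    rw [e1]; exact h2

lemma cell_symm {b K : ℤ} (hb : 2 ≤ b) (hK : 1 ≤ K) {Z : Finset ℤ} {S : ℕ} {j j' : Fin m → ℤ}
    (h : InCell b K Z S j j') : InCell b K Z S j' j := by
  intro i
  have h1 := sep_of_cell hb hK h i
  have h2 : lev b K Z S j i ≤ lev b K Z S j' i := by unfold lev; omega
  exact div_of_le hb h2 (h i).symm

lemma lvt_eq {b K : ℤ} (hb : 2 ≤ b) (hK : 1 ≤ K) {Z : Finset ℤ} {S : ℕ} {j j' : Fin m → ℤ}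
    (h : InCell b K Z S j j') (i : Fin m) : lvt b K Z S j' i = lvt b K Z S j i :=
  le_antisymm (sep_of_cell hb hK (cell_symm hb hK h) i) (sep_of_cell hb hK h i)

/-- **The cells form a partition.** -/
theorem key_eq_iff {b K : ℤ} (hb : 2 ≤ b) (hK : 1 ≤ K) {Z : Finset ℤ} {S : ℕ}
    {j j' : Fin m → ℤ} : key b K Z S j' = key b K Z S j ↔ InCell b K Z S j j' := by
  constructor
  · intro h i
    have h1 := congrFun h i
    unfold key at h1
    rw [Prod.mk.injEq] at h1
    rw [h1.1] at h1
    exact h1.2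
  · intro h
    funext i
    unfold key
    have e1 : lev b K Z S j' i = lev b K Z S j i := by
      unfold lev; rw [lvt_eq hb hK h i]
    rw [e1, h i]

/-- the cell with key `k` -/
noncomputable def cell (b : ℤ) (k : Fin m → ℕ × ℤ) : Finset (Fin m → ℤ) :=
  Fintype.piFinset (fun i => dy b (k i).1 (k i).2)

theorem mem_cell {b K : ℤ} (hb : 2 ≤ b) (hK : 1 ≤ K) {Z : Finset ℤ} {S : ℕ}
    {j j' : Fin m → ℤ} : j' ∈ cell b (key b K Z S j) ↔ key b K Z S j' = key b K Z S j := by
  rw [key_eq_iff hb hK]
  unfold cell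
  rw [Fintype.mem_piFinset]
  unfold InCell
  refine forall_congr' fun i => ?_
  rw [mem_dy hb]
  rfl

/-- separation of the windows: the window of `i` is separated at its own level, for `i` with a
positive level number -/
lemma key_sep {b K : ℤ} (hb : 2 ≤ b) (hK : 1 ≤ K) {Z : Finset ℤ} {S : ℕ} {j : Fin m → ℤ}
    {i : Fin m} (h : lvt b K Z S j i ≠ 0) : SepI b K Z (lev b K Z S j i) j i :=
  ((lt_lvt hb hK (Z := Z) (S := S) (j := j) (i := i) (s := lev b K Z S j i)).1
    (by unfold lev; omega)).2

/-- the window is not too small -/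
lemma key_near {b K : ℤ} (hb : 2 ≤ b) (hK : 1 ≤ K) {Z : Finset ℤ} {S : ℕ} {j : Fin m → ℤ}
    {i : Fin m} (h : lev b K Z S j i < S) :
    (∃ l, l ≠ i ∧ |j i - j l| ≤ (K + 1) * b ^ (lev b K Z S j i + 1)) ∨
      ∃ z ∈ Z, |j i - z| ≤ (K + 1) * b ^ (lev b K Z S j i + 1) := by
  have hnot : ¬ SepI b K Z (lvt b K Z S j i) j i := by
    intro h1
    have hle : lvt b K Z S j i ≤ S := by unfold lev at h; omega
    have := (lt_lvt hb hK (Z := Z) (S := S) (j := j) (i := i)).2 ⟨hle, h1⟩
    omega
  have hlt : lvt b K Z S j i ≤ lev b K Z S j i + 1 := by unfold lev; omega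
  have key2 : ∀ x y : ℤ, ¬ Sep b K (lvt b K Z S j i) x y →
      |x - y| ≤ (K + 1) * b ^ (lev b K Z S j i + 1) := by
    intro x y hxy
    set s := lvt b K Z S j i
    unfold Sep at hxy
    push Not at hxy
    have hp : 0 < b ^ s := by positivity
    have hps : b ^ s ≤ b ^ (lev b K Z S j i + 1) := pow_le_pow_right₀ (by linarith) hlt
    have a1 := Int.mul_ediv_add_emod x (b ^ s)
    have a2 := Int.emod_nonneg x hp.ne'
    have a3 := Int.emod_lt_of_pos x hp
    have b1 := Int.mul_ediv_add_emod y (b ^ s)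
    have b2 := Int.emod_nonneg y hp.ne'
    have b3 := Int.emod_lt_of_pos y hp
    set u := x / b ^ s
    set v := y / b ^ s
    have h4 : |x - y| ≤ (K + 1) * b ^ s := by
      have h5 := abs_lt.1 hxy
      rw [abs_le]
      constructor <;> nlinarith
    exact h4.trans (mul_le_mul_of_nonneg_left hps (by linarith))
  unfold SepI at hnot
  rw [not_and_or] at hnot
  rcases hnot with h1 | h1
  · push Not at h1
    obtain ⟨l, hl, h2⟩ := h1
    exact Or.inl ⟨l, hl, key2 _ _ h2⟩
  · push Not at h1
    obtain ⟨z, hz, h2⟩ := h1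
    exact Or.inr ⟨z, hz, key2 _ _ h2⟩

/-- the order of two points is the same in the whole cell -/
lemma cell_order {b K : ℤ} (hb : 2 ≤ b) (hK : 1 ≤ K) {Z : Finset ℤ} {S : ℕ} {j j' : Fin m → ℤ}
    (h : InCell b K Z S j j') {i l : Fin m} (hil : j i < j l) : j' i < j' l := by
  have hne : i ≠ l := fun h => by rw [h] at hil; exact lt_irrefl _ hil
  -- by symmetry let `l` have the larger level
  have main : ∀ i l : Fin m, i ≠ l → lev b K Z S j i ≤ lev b K Z S j l →
      (j i < j l → j' i < j' l) ∧ (j l < j i → j' l < j' i) := by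
    intro i l hne hle
    rcases Nat.eq_zero_or_pos (lvt b K Z S j l) with h0 | hpos
    · have e1 : lev b K Z S j l = 0 := by unfold lev; omega
      have e2 : lev b K Z S j i = 0 := by omega
      have e3 := h i
      have e4 := h l
      rw [e1] at e4
      rw [e2] at e3
      simp only [pow_zero, Int.ediv_one] at e3 e4
      rw [e3, e4]
      exact ⟨fun h => h, fun h => h⟩
    · have hs := (key_sep hb hK (Z := Z) (S := S) (j := j) (i := l) (by omega)).1 i hne
      set t := lev b K Z S j l
      have e1 := div_of_le hb hle (h i)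
      have e2 : j' l / b ^ t = j l / b ^ t := h l
      have hp : 0 < b ^ t := by positivity
      unfold Sep at hs
      constructor
      · intro hlt
        by_contra hcon
        push Not at hcon
        have h1 := Int.ediv_le_ediv hp hlt.le
        have h2 := Int.ediv_le_ediv hp hcon
        rw [e1, e2] at h2
        have : j l / b ^ t - j i / b ^ t = 0 := by omega
        rw [this] at hs
        simp at hs
        omega
      · intro hlt
        by_contra hcon
        push Not at hcon
        have h1 := Int.ediv_le_ediv hp hlt.le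
        have h2 := Int.ediv_le_ediv hp hcon
        rw [e1, e2] at h2
        have : j l / b ^ t - j i / b ^ t = 0 := by omega
        rw [this] at hs
        simp at hs
        omega
  rcases le_total (lev b K Z S j i) (lev b K Z S j l) with h1 | h1
  · exact (main i l hne h1).1 hil
  · exact (main l i (Ne.symm hne) h1).2 hil

/-- a window does not jump over a fixed point -/
lemma cell_side {b K : ℤ} (hb : 2 ≤ b) (hK : 1 ≤ K) {Z : Finset ℤ} {S : ℕ} {j j' : Fin m → ℤ}
    (h : InCell b K Z S j j') {i : Fin m} {z : ℤ} (hz : z ∈ Z) :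
    (z < j i → z < j' i) ∧ (j i < z → j' i < z) := by
  rcases Nat.eq_zero_or_pos (lvt b K Z S j i) with h0 | hpos
  · have e2 : lev b K Z S j i = 0 := by unfold lev; omega
    have e3 := h i
    rw [e2] at e3
    simp only [pow_zero, Int.ediv_one] at e3
    rw [e3]
    exact ⟨fun h => h, fun h => h⟩
  · have hs := (key_sep hb hK (Z := Z) (S := S) (j := j) (i := i) (by omega)).2 z hz
    set t := lev b K Z S j i
    have e2 : j' i / b ^ t = j i / b ^ t := h i
    have hp : 0 < b ^ t := by positivity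
    unfold Sep at hs
    constructor
    · intro hlt
      by_contra hcon
      push Not at hcon
      have h1 := Int.ediv_le_ediv hp hlt.le
      have h2 := Int.ediv_le_ediv hp hcon
      rw [e2] at h2
      have : j i / b ^ t - z / b ^ t = 0 := by omega
      rw [this] at hs
      simp at hs
      omega
    · intro hlt
      by_contra hcon
      push Not at hcon
      have h1 := Int.ediv_le_ediv hp hlt.le
      have h2 := Int.ediv_le_ediv hp hcon
      rw [e2] at h2
      have : j i / b ^ t - z / b ^ t = 0 := by omega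
      rw [this] at hs
      simp at hs
      omega

/-- **Summation over cells**, for a finite set `X` of tuples which is a union of cells. -/
theorem sum_cells {A : Type*} [AddCommMonoid A] {b K : ℤ} (hb : 2 ≤ b) (hK : 1 ≤ K)
    {Z : Finset ℤ} {S : ℕ} (X : Finset (Fin m → ℤ))
    (hX : ∀ j ∈ X, ∀ j', InCell b K Z S j j' → j' ∈ X) (f : (Fin m → ℤ) → A) :
    ∑ j ∈ X, f j = ∑ k ∈ X.image (key b K Z S), ∑ j ∈ cell b k, f j := by
  classical
  rw [← Finset.sum_fiberwise_of_maps_to (g := key b K Z S) (t := X.image (key b K Z S))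
    (fun j hj => mem_image_of_mem _ hj)]
  refine sum_congr rfl fun k hk => ?_
  obtain ⟨j, hj, rfl⟩ := mem_image.1 hk
  refine sum_congr ?_ fun _ _ => rfl
  ext j'
  rw [mem_filter, mem_cell hb hK]
  constructor
  · exact fun h => h.2
  · exact fun h => ⟨hX j hj j' ((key_eq_iff hb hK).1 h), h⟩

end Pool.Agent.Q1.M6b
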