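import Mathlib
import Pool.Agent.Q1.M6b.Cells

set_option autoImplicit false
open Finset

/-! The sum over the Whitney cells of the product of the `2/3`-powers of the lengths of the windows. -/

namespace Pool.Agent.Q1.M6b

/-- cube root -/
noncomputable def cr (x : ℝ) : ℝ := x ^ (1 / 3 : ℝ)

lemma cr_nonneg {x : ℝ} (hx : 0 ≤ x) : 0 ≤ cr x := Real.rpow_nonneg hx _

lemma cr_pos {x : ℝ} (hx : 0 < x) : 0 < cr x := Real.rpow_pos_of_pos hx _

lemma cr_cube {x : ℝ} (hx : 0 ≤ x) : cr x ^ 3 = x := by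
  unfold cr
  rw [← Real.rpow_natCast, ← Real.rpow_mul hx]
  norm_num

lemma cr_mul {x y : ℝ} (hx : 0 ≤ x) (hy : 0 ≤ y) : cr (x * y) = cr x * cr y :=
  Real.mul_rpow hx hy

lemma cr_mono {x y : ℝ} (hx : 0 ≤ x) (h : x ≤ y) : cr x ≤ cr y :=
  Real.rpow_le_rpow hx h (by norm_num)

lemma cr_one : cr 1 = 1 := Real.one_rpow _

lemma cr_zero : cr 0 = 0 := Real.zero_rpow (by norm_num)

/-- `∑_{g ≤ M} g^{-2/3} ≤ 3 M^{1/3}` -/
lemma sum_u2 (M : ℕ) : ∑ g ∈ Finset.Icc 1 M, ((cr (g : ℝ))⁻¹) ^ 2 ≤ 3 * cr (M : ℝ) := by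
  induction M with
  | zero => simp [cr_zero]
  | succ M ih =>
    rw [Finset.sum_Icc_succ_top (by omega)]
    set y := cr (M : ℝ) with hy
    set x := cr ((M + 1 : ℕ) : ℝ) with hx
    have hx0 : 0 < x := cr_pos (by positivity)
    have hy0 : 0 ≤ y := cr_nonneg (by positivity)
    have hyx : y ≤ x := cr_mono (by positivity) (by push_cast; linarith)
    have h1 : x ^ 3 - y ^ 3 = 1 := by
      rw [hx, hy, cr_cube (by positivity), cr_cube (by positivity)]; push_cast; ring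
    have h2 : 1 ≤ 3 * (x - y) * x ^ 2 := by
      nlinarith [mul_nonneg (sub_nonneg.2 hyx) (mul_nonneg hx0.le (sub_nonneg.2 hyx)),
        mul_nonneg (sub_nonneg.2 hyx) (mul_nonneg hy0 (sub_nonneg.2 hyx))]
    have h3 : (x⁻¹) ^ 2 ≤ 3 * (x - y) := by
      rw [inv_pow, inv_le_iff_one_le_mul₀ (by positivity)]
      exact h2
    linarith

/-- `∑_{g ≤ M} g^{-1/3} ≤ 3 M^{2/3}` -/
lemma sum_u1 (M : ℕ) : ∑ g ∈ Finset.Icc 1 M, (cr (g : ℝ))⁻¹ ≤ 3 / 2 * cr (M : ℝ) ^ 2 := by
  induction M with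
  | zero => simp [cr_zero]
  | succ M ih =>
    rw [Finset.sum_Icc_succ_top (by omega)]
    set y := cr (M : ℝ) with hy
    set x := cr ((M + 1 : ℕ) : ℝ) with hx
    have hx0 : 0 < x := cr_pos (by positivity)
    have hy0 : 0 ≤ y := cr_nonneg (by positivity)
    have hyx : y ≤ x := cr_mono (by positivity) (by push_cast; linarith)
    have h1 : x ^ 3 - y ^ 3 = 1 := by
      rw [hx, hy, cr_cube (by positivity), cr_cube (by positivity)]; push_cast; ring
    have h2 : 1 ≤ (3 / 2 * (x ^ 2 - y ^ 2)) * x := by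
      have h4 : 0 ≤ (x - y) * ((x - y) * (x + 2 * y)) :=
        mul_nonneg (sub_nonneg.2 hyx) (mul_nonneg (sub_nonneg.2 hyx) (by linarith))
      nlinarith
    have h3 : x⁻¹ ≤ 3 / 2 * (x ^ 2 - y ^ 2) := by
      rw [inv_le_iff_one_le_mul₀ hx0]
      exact h2
    linarith

/-- all three cases together -/
lemma sum_u (M a : ℕ) (ha : a ≤ 2) :
    ∑ g ∈ Finset.Icc 1 M, ((cr (g : ℝ))⁻¹) ^ a ≤ 3 * M * ((cr (M : ℝ))⁻¹) ^ a := by
  rcases Nat.eq_zero_or_pos M with h0 | hM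
  · subst h0; simp
  have hM' : (0 : ℝ) < M := by exact_mod_cast hM
  have hc := cr_pos hM'
  have hcc : (M : ℝ) = cr (M : ℝ) ^ 3 := (cr_cube hM'.le).symm
  interval_cases a
  · simp only [pow_zero, sum_const, Nat.card_Icc, nsmul_eq_mul, mul_one]
    have : ((M + 1 - 1 : ℕ) : ℝ) = M := by simp
    rw [this]; linarith
  · simp only [pow_one]
    refine (sum_u1 M).trans ?_
    have : 3 * (M : ℝ) * (cr (M : ℝ))⁻¹ = 3 * cr (M : ℝ) ^ 2 := by
      rw [mul_assoc]
      nth_rewrite 1 [hcc]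
      field_simp
    rw [this]
    nlinarith [sq_nonneg (cr (M : ℝ))]
  · refine (sum_u2 M).trans (le_of_eq ?_)
    rw [mul_assoc]
    nth_rewrite 2 [hcc]
    field_simp

/-! ### Gaps -/

variable {m : ℕ}

/-- the points with the two end points `-1`, `N` -/
def pt (N : ℤ) (j : Fin m → ℤ) (k : ℕ) : ℤ :=
  if k = 0 then -1 else if h : k - 1 < m then j ⟨k - 1, h⟩ else N

/-- the gaps -/
def gp (N : ℤ) (j : Fin m → ℤ) (k : ℕ) : ℤ := pt N j (k + 1) - pt N j k

lemma pt_zero (N : ℤ) (j : Fin m → ℤ) : pt N j 0 = -1 := by simp [pt]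

lemma pt_succ (N : ℤ) (j : Fin m → ℤ) (i : Fin m) : pt N j (i + 1) = j i := by
  unfold pt
  rw [if_neg (by omega), dif_pos (by simp)]
  congr 1

lemma pt_last (N : ℤ) (j : Fin m → ℤ) : pt N j (m + 1) = N := by
  unfold pt
  rw [if_neg (by omega), dif_neg (by omega)]

/-- strictly increasing `m`-tuples in `[0, N)` -/
noncomputable def inc (m : ℕ) (N : ℤ) : Finset (Fin m → ℤ) := by
  classical
  exact (Fintype.piFinset (fun _ => Finset.Ico 0 N)).filter StrictMono

lemma mem_inc {N : ℤ} {j : Fin m → ℤ} : j ∈ inc m N ↔ (∀ i, 0 ≤ j i ∧ j i < N) ∧ StrictMono j := by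
  classical
  unfold inc
  rw [mem_filter, Fintype.mem_piFinset]
  simp only [Finset.mem_Ico]

lemma gp_pos {N : ℤ} (hN : 0 ≤ N) {j : Fin m → ℤ} (hj : j ∈ inc m N) {k : ℕ} (hk : k ≤ m) :
    1 ≤ gp N j k := by
  obtain ⟨h1, h2⟩ := mem_inc.1 hj
  unfold gp
  rcases Nat.eq_zero_or_pos k with h0 | hpos
  · subst h0
    rw [pt_zero]
    rcases Nat.eq_zero_or_pos m with hm | hm
    · subst hm
      rw [pt_last]; omega
    · have := pt_succ N j ⟨0, hm⟩
      simp only [zero_add] at this ⊢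
      rw [this]
      have := (h1 ⟨0, hm⟩).1
      omega
  · obtain ⟨k', rfl⟩ : ∃ k', k = k' + 1 := ⟨k - 1, by omega⟩
    have e1 := pt_succ N j ⟨k', by omega⟩
    simp only at e1
    rw [e1]
    rcases Nat.lt_or_ge (k' + 1) m with h3 | h3
    · have e2 := pt_succ N j ⟨k' + 1, h3⟩
      simp only at e2
      rw [e2]
      have := h2 (show (⟨k', by omega⟩ : Fin m) < ⟨k' + 1, h3⟩ by simp)
      omega
    · have : k' + 1 = m := by omega
      have e2 : pt N j (k' + 1 + 1) = N := by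
        rw [this]; exact pt_last N j
      rw [e2]
      have := (h1 ⟨k', by omega⟩).2
      omega

lemma pt_le {N : ℤ} (hN : 0 ≤ N) {j : Fin m → ℤ} (hj : j ∈ inc m N) {k l : ℕ} (hkl : k ≤ l)
    (hl : l ≤ m + 1) : pt N j k ≤ pt N j l := by
  induction l, hkl using Nat.le_induction with
  | base => exact le_refl _
  | succ l h ih =>
    have := gp_pos hN hj (k := l) (by omega)
    unfold gp at this
    linarith [ih (by omega)]

lemma gp_le {N : ℤ} (hN : 0 ≤ N) {j : Fin m → ℤ} (hj : j ∈ inc m N) {k : ℕ} (hk : k ≤ m) :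
    gp N j k ≤ N + 1 := by
  have h1 := pt_le hN hj (Nat.zero_le k) (by omega)
  have h2 := pt_le hN hj (show k + 1 ≤ m + 1 by omega) (le_refl _)
  rw [pt_zero] at h1
  rw [pt_last] at h2
  unfold gp
  linarith

/-- a tuple is determined by all gaps but one -/
lemma gp_inj {N : ℤ} {j j' : Fin m → ℤ} {k0 : ℕ} (hk0 : k0 ≤ m)
    (h : ∀ k ≤ m, k ≠ k0 → gp N j k = gp N j' k) : j = j' := by
  have low : ∀ k, k ≤ k0 → pt N j k = pt N j' k := by
    intro k
    induction k with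
    | zero => intro _; rw [pt_zero, pt_zero]
    | succ k ih =>
      intro hk
      have h1 := h k (by omega) (by omega)
      have h2 := ih (by omega)
      unfold gp at h1
      linarith
  have high : ∀ r, ∀ k, k + r = m + 1 → k0 < k → pt N j k = pt N j' k := by
    intro r
    induction r with
    | zero =>
      intro k hk _
      have : k = m + 1 := by omega
      rw [this, pt_last, pt_last]
    | succ r ih =>
      intro k hk hlt
      have h1 := h k (by omega) (by omega)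
      have h2 := ih (k + 1) (by omega) (by omega)
      unfold gp at h1
      linarith
  funext i
  rw [← pt_succ N j i, ← pt_succ N j' i]
  rcases Nat.lt_or_ge k0 (i + 1) with h1 | h1
  · exact high (m - i) _ (by have := i.2; omega) h1
  · exact low _ h1

/-- the nearest neighbour is at least at the distance of the smaller adjacent gap -/
lemma near_gp {N : ℤ} (hN : 0 ≤ N) {j : Fin m → ℤ} (hj : j ∈ inc m N) (i : Fin m) {D : ℤ}
    (h : (∃ l, l ≠ i ∧ |j i - j l| ≤ D) ∨ ∃ z ∈ ({-1, N} : Finset ℤ), |j i - z| ≤ D) :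
    gp N j i ≤ D ∨ gp N j (i + 1) ≤ D := by
  have e0 := pt_succ N j i
  have key1 : ∀ k : ℕ, k ≤ i → |j i - pt N j k| ≤ D → gp N j i ≤ D := by
    intro k hk h1
    have h2 := pt_le hN hj hk (by have := i.2; omega)
    unfold gp
    rw [e0]
    have := (abs_le.1 h1).2
    linarith
  have key2 : ∀ k : ℕ, (i : ℕ) + 2 ≤ k → k ≤ m + 1 → |j i - pt N j k| ≤ D →
      gp N j (i + 1) ≤ D := by
    intro k hk hk' h1
    have h2 := pt_le hN hj hk hk'
    unfold gp
    rw [e0]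
    have := (abs_le.1 h1).1
    linarith
  rcases h with ⟨l, hl, h1⟩ | ⟨z, hz, h1⟩
  · rw [← pt_succ N j l] at h1
    rcases Nat.lt_or_ge l i with h2 | h2
    · exact Or.inl (key1 (l + 1) (by omega) h1)
    · have : (l : ℕ) ≠ i := fun h => hl (Fin.ext h)
      exact Or.inr (key2 (l + 1) (by omega) (by have := l.2; omega) h1)
  · rw [mem_insert, mem_singleton] at hz
    rcases hz with rfl | rfl
    · rw [← pt_zero N j] at h1
      exact Or.inl (key1 0 (by omega) h1)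
    · rw [show |j i - z| = |j i - pt z j (m + 1)| by rw [pt_last]] at h1
      exact Or.inr (key2 (m + 1) (by have := i.2; omega) (le_refl _) h1)

/-- **Gap sum** for one choice of the gaps. -/
lemma gap_sum {N : ℕ} (c : Fin m → Fin (m + 1))
    (hc : ∀ i, (c i : ℕ) = i ∨ (c i : ℕ) = i + 1) :
    ∑ j ∈ inc m (N : ℤ), ∏ i, (cr (gp (N : ℤ) j (c i) : ℝ))⁻¹ ≤
      (3 * (N + 1 : ℕ)) ^ m * ((cr ((N + 1 : ℕ) : ℝ))⁻¹) ^ m := by
  classical
  have hN : (0 : ℤ) ≤ (N : ℤ) := by positivity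
  -- a gap which is not chosen
  obtain ⟨k0, hk0⟩ : ∃ k0, ∀ i, c i ≠ k0 := by
    by_contra hcon
    push Not at hcon
    have := Fintype.card_le_of_surjective c hcon
    simp at this
  obtain ⟨d, hd⟩ : ∃ d : Fin m → Fin m, ∀ i, k0.succAbove (d i) = c i := by
    have : ∀ i, ∃ x, k0.succAbove x = c i := fun i => Fin.exists_succAbove_eq (hk0 i)
    choose d hd using this
    exact ⟨d, hd⟩
  -- the injection
  set φ : (Fin m → ℤ) → (Fin m → ℕ) := fun j i => (gp (N : ℤ) j (k0.succAbove i)).toNat with hφ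
  have hval : ∀ j ∈ inc m (N : ℤ), ∀ k : Fin (m + 1),
      ((gp (N : ℤ) j k).toNat : ℤ) = gp (N : ℤ) j k := by
    intro j hj k
    have := gp_pos hN hj (k := k) (by have := k.2; omega)
    rw [Int.toNat_of_nonneg (by omega)]
  have hmaps : ∀ j ∈ inc m (N : ℤ), φ j ∈ Fintype.piFinset (fun _ : Fin m => Finset.Icc 1 (N + 1)) := by
    intro j hj
    rw [Fintype.mem_piFinset]
    intro i
    rw [Finset.mem_Icc]
    have h1 := gp_pos hN hj (k := k0.succAbove i) (by have := (k0.succAbove i).2; omega)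
    have h2 := gp_le hN hj (k := k0.succAbove i) (by have := (k0.succAbove i).2; omega)
    simp only [hφ]
    omega
  have hinj : Set.InjOn φ (inc m (N : ℤ) : Set (Fin m → ℤ)) := by
    intro j hj j' hj' h
    refine gp_inj (N := (N : ℤ)) (k0 := k0) (by have := k0.2; omega) fun k hk hne => ?_
    have hk' : k < m + 1 := by omega
    have hne' : (⟨k, hk'⟩ : Fin (m + 1)) ≠ k0 := fun h => hne (congrArg Fin.val h)
    obtain ⟨x, hx⟩ := Fin.exists_succAbove_eq hne'
    have h1 := congrFun h x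
    simp only [hφ] at h1
    rw [hx] at h1
    have h2 := hval j hj ⟨k, hk'⟩
    have h3 := hval j' hj' ⟨k, hk'⟩
    simp only at h1 h2 h3
    rw [← h2, ← h3, h1]
  have hterm : ∀ j ∈ inc m (N : ℤ), ∏ i, (cr (gp (N : ℤ) j (c i) : ℝ))⁻¹ =
      ∏ i, (cr ((φ j (d i) : ℕ) : ℝ))⁻¹ := by
    intro j hj
    refine prod_congr rfl fun i _ => ?_
    simp only [hφ]
    rw [hd i]
    have h1 := hval j hj (c i)
    have h2 : ((gp (N : ℤ) j (c i)).toNat : ℝ) = ((gp (N : ℤ) j (c i) : ℤ) : ℝ) := by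
      exact_mod_cast h1
    rw [h2]
  rw [sum_congr rfl hterm]
  have hpos : ∀ ψ : Fin m → ℕ, 0 ≤ ∏ i, (cr ((ψ (d i) : ℕ) : ℝ))⁻¹ := fun ψ =>
    prod_nonneg fun i _ => inv_nonneg.2 (cr_nonneg (by positivity))
  have step1 : ∑ j ∈ inc m (N : ℤ), ∏ i, (cr ((φ j (d i) : ℕ) : ℝ))⁻¹ ≤
      ∑ ψ ∈ Fintype.piFinset (fun _ : Fin m => Finset.Icc 1 (N + 1)),
        ∏ i, (cr ((ψ (d i) : ℕ) : ℝ))⁻¹ := by
    rw [← sum_image (f := fun ψ : Fin m → ℕ => ∏ i, (cr ((ψ (d i) : ℕ) : ℝ))⁻¹) hinj]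
    refine sum_le_sum_of_subset_of_nonneg ?_ fun ψ _ _ => hpos ψ
    intro ψ hψ
    obtain ⟨j, hj, rfl⟩ := mem_image.1 hψ
    exact hmaps j hj
  refine step1.trans ?_
  -- fibres of `d`
  set a : Fin m → ℕ := fun k => (univ.filter (fun i => d i = k)).card with ha
  have hprod : ∀ ψ : Fin m → ℕ, ∏ i, (cr ((ψ (d i) : ℕ) : ℝ))⁻¹ =
      ∏ k, ((cr ((ψ k : ℕ) : ℝ))⁻¹) ^ a k := by
    intro ψ
    rw [← Finset.prod_fiberwise_of_maps_to (g := d) (t := univ) (fun i _ => mem_univ _)]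
    refine prod_congr rfl fun k _ => ?_
    rw [ha]
    simp only
    rw [← prod_const]
    refine prod_congr rfl fun i hi => ?_
    rw [(mem_filter.1 hi).2]
  simp only [hprod]
  rw [← Finset.prod_univ_sum (fun _ : Fin m => Finset.Icc 1 (N + 1))
    (fun k g => ((cr ((g : ℕ) : ℝ))⁻¹) ^ a k)]
  have ha2 : ∀ k, a k ≤ 2 := by
    intro k
    have hsub : (univ.filter (fun i => d i = k)).image (fun i : Fin m => (i : ℕ)) ⊆
        ({((k0.succAbove k : Fin (m + 1)) : ℕ), ((k0.succAbove k : Fin (m + 1)) : ℕ) - 1} :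
          Finset ℕ) := by
      intro x hx
      obtain ⟨i, hi, rfl⟩ := mem_image.1 hx
      have h1 := (mem_filter.1 hi).2
      have h2 := hd i
      rw [h1] at h2
      rw [h2]
      rw [mem_insert, mem_singleton]
      rcases hc i with h3 | h3 <;> omega
    have hcard : a k = ((univ.filter (fun i => d i = k)).image (fun i : Fin m => (i : ℕ))).card := by
      rw [card_image_of_injective _ Fin.val_injective]
    rw [hcard]
    exact (card_le_card hsub).trans (card_le_two)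
  have hsum : ∑ k, a k = m := by
    have := Finset.card_eq_sum_card_fiberwise (s := (univ : Finset (Fin m))) (t := univ) (f := d)
      (fun i _ => mem_univ _)
    simp only [card_univ, Fintype.card_fin] at this
    rw [ha]
    exact this.symm
  calc ∏ k, ∑ g ∈ Finset.Icc 1 (N + 1), ((cr ((g : ℕ) : ℝ))⁻¹) ^ a k
      ≤ ∏ k : Fin m, (3 * ((N + 1 : ℕ) : ℝ) * ((cr ((N + 1 : ℕ) : ℝ))⁻¹) ^ a k) := by
        refine prod_le_prod (fun k _ => sum_nonneg fun g _ => ?_) fun k _ => sum_u _ _ (ha2 k)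
        exact pow_nonneg (inv_nonneg.2 (cr_nonneg (by positivity))) _
    _ = (3 * ((N + 1 : ℕ) : ℝ)) ^ m * ((cr ((N + 1 : ℕ) : ℝ))⁻¹) ^ m := by
        rw [prod_mul_distrib, prod_const, prod_pow_eq_pow_sum, hsum]
        simp

/-- `inc m N` is a union of cells -/
lemma inc_cells {b K : ℤ} (hb : 2 ≤ b) (hK : 1 ≤ K) {N : ℕ} {S : ℕ} :
    ∀ j ∈ inc m (N : ℤ), ∀ j', InCell b K {-1, (N : ℤ)} S j j' → j' ∈ inc m (N : ℤ) := by
  intro j hj j' h
  obtain ⟨h1, h2⟩ := mem_inc.1 hj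
  refine mem_inc.2 ⟨fun i => ⟨?_, ?_⟩, fun i l hil => cell_order hb hK h (h2 hil)⟩
  · have := (cell_side hb hK h (i := i) (z := -1) (by simp)).1 (by have := (h1 i).1; omega)
    omega
  · exact (cell_side hb hK h (i := i) (z := (N : ℤ)) (by simp)).2 (h1 i).2

/-- **Sum over the cells of the products of the `2/3`-powers of the lengths of the windows.** -/
theorem cells_bound {b K : ℤ} (hb : 2 ≤ b) (hK : 1 ≤ K) {N S : ℕ} {D : ℝ}
    (hD : ((N + 1 : ℕ) : ℝ) ≤ D * (b : ℝ) ^ S) (hD' : ((K + 1) * b : ℝ) ≤ D) :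
    ∑ k ∈ (inc m (N : ℤ)).image (key b K {-1, (N : ℤ)} S), ∏ i, cr ((b : ℝ) ^ (k i).1) ^ 2 ≤
      (cr D * 2) ^ m * ((3 * (N + 1 : ℕ)) ^ m * ((cr ((N + 1 : ℕ) : ℝ))⁻¹) ^ m) := by
  classical
  have hN : (0 : ℤ) ≤ (N : ℤ) := by positivity
  have hbR : (2 : ℝ) ≤ (b : ℝ) := by exact_mod_cast hb
  have hKR : (1 : ℝ) ≤ (K : ℝ) := by exact_mod_cast hK
  have hD0 : 0 < D := lt_of_lt_of_le (by positivity) hD'
  set Z : Finset ℤ := {-1, (N : ℤ)} with hZ
  set F : (Fin m → ℤ) → ℝ := fun j => ∏ i, (cr ((b : ℝ) ^ lev b K Z S j i))⁻¹ with hF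
  have hpw : ∀ s : ℕ, (0 : ℝ) < (b : ℝ) ^ s := fun s => by positivity
  have e1 : ∑ k ∈ (inc m (N : ℤ)).image (key b K Z S), ∏ i, cr ((b : ℝ) ^ (k i).1) ^ 2 =
      ∑ j ∈ inc m (N : ℤ), F j := by
    rw [sum_cells hb hK (inc m (N : ℤ)) (inc_cells hb hK) F]
    refine sum_congr rfl fun k hk => ?_
    obtain ⟨j, hj, rfl⟩ := mem_image.1 hk
    have e2 : ∀ j' ∈ cell b (key b K Z S j), F j' = ∏ i, (cr ((b : ℝ) ^ (key b K Z S j i).1))⁻¹ := by
      intro j' hj'
      have h1 := (mem_cell hb hK).1 hj'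
      simp only [hF]
      refine prod_congr rfl fun i _ => ?_
      rw [← h1]
      rfl
    rw [sum_congr rfl e2, sum_const, nsmul_eq_mul]
    have e3 : ((cell b (key b K Z S j)).card : ℝ) = ∏ i, (b : ℝ) ^ (key b K Z S j i).1 := by
      unfold cell
      rw [Fintype.card_piFinset]
      push_cast
      refine prod_congr rfl fun i _ => ?_
      rw [card_dy]
      have h2 : ((b ^ (key b K Z S j i).1).toNat : ℤ) = b ^ (key b K Z S j i).1 :=
        Int.toNat_of_nonneg (by positivity)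
      have h3 : (((b ^ (key b K Z S j i).1).toNat : ℤ) : ℝ) = (b : ℝ) ^ (key b K Z S j i).1 := by
        rw [h2]; push_cast; rfl
      exact_mod_cast h3
    rw [e3, ← prod_mul_distrib]
    refine prod_congr rfl fun i _ => ?_
    have h4 := cr_pos (hpw (key b K Z S j i).1)
    have h5 := cr_cube (hpw (key b K Z S j i).1).le
    nth_rewrite 2 [← h5]
    field_simp
    rfl
  rw [e1]
  -- pointwise bound
  have hpt : ∀ j ∈ inc m (N : ℤ), F j ≤ ∏ i : Fin m, (cr D *
      ∑ β : Bool, (cr (gp (N : ℤ) j (if β then (i : ℕ) + 1 else (i : ℕ)) : ℝ))⁻¹) := by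
    intro j hj
    simp only [hF]
    refine prod_le_prod (fun i _ => inv_nonneg.2 (cr_nonneg (hpw _).le)) fun i _ => ?_
    rw [Fintype.sum_bool]
    simp only [if_true, Bool.false_eq_true, if_false]
    set s := lev b K Z S j i with hs
    have g1 := gp_pos hN hj (k := i) (by have := i.2; omega)
    have g2 := gp_pos hN hj (k := i + 1) (by have := i.2; omega)
    have g1R : (1 : ℝ) ≤ (gp (N : ℤ) j i : ℝ) := by exact_mod_cast g1
    have g2R : (1 : ℝ) ≤ (gp (N : ℤ) j (i + 1) : ℝ) := by exact_mod_cast g2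
    have hmain : (gp (N : ℤ) j i : ℝ) ≤ D * (b : ℝ) ^ s ∨
        (gp (N : ℤ) j (i + 1) : ℝ) ≤ D * (b : ℝ) ^ s := by
      rcases Nat.lt_or_ge s S with hlt | hge
      · have h1 := key_near hb hK (Z := Z) (S := S) (j := j) (i := i) hlt
        rw [← hs] at h1
        have h3 : (((K + 1) * b ^ (s + 1) : ℤ) : ℝ) ≤ D * (b : ℝ) ^ s := by
          push_cast
          rw [pow_succ]
          calc ((K : ℝ) + 1) * ((b : ℝ) ^ s * b) = ((K + 1) * b) * (b : ℝ) ^ s := by ring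
            _ ≤ D * (b : ℝ) ^ s := mul_le_mul_of_nonneg_right hD' (hpw s).le
        rcases near_gp hN hj i h1 with h2 | h2
        · left
          exact (by exact_mod_cast h2 : (gp (N : ℤ) j i : ℝ) ≤ (((K + 1) * b ^ (s + 1) : ℤ) : ℝ)).trans h3
        · right
          exact (by exact_mod_cast h2 :
            (gp (N : ℤ) j (i + 1) : ℝ) ≤ (((K + 1) * b ^ (s + 1) : ℤ) : ℝ)).trans h3
      · left
        have hsS : s = S := le_antisymm (lev_le b K Z S j i) hge
        have h1 := gp_le hN hj (k := i) (by have := i.2; omega)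
        have h2 : (gp (N : ℤ) j i : ℝ) ≤ ((N + 1 : ℕ) : ℝ) := by exact_mod_cast h1
        rw [hsS]
        exact h2.trans hD
    have key3 : ∀ g : ℝ, 1 ≤ g → g ≤ D * (b : ℝ) ^ s → (cr ((b : ℝ) ^ s))⁻¹ ≤ cr D * (cr g)⁻¹ := by
      intro g hg1 hg2
      have h1 := cr_mono (by linarith) hg2
      rw [cr_mul hD0.le (hpw s).le] at h1
      have h2 := cr_pos (show (0 : ℝ) < g by linarith)
      have h3 := cr_pos (hpw s)
      rw [← div_eq_mul_inv, inv_eq_one_div, div_le_div_iff₀ h3 h2]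
      linarith
    have p1 : 0 ≤ (cr (gp (N : ℤ) j i : ℝ))⁻¹ := inv_nonneg.2 (cr_nonneg (by linarith))
    have p2 : 0 ≤ (cr (gp (N : ℤ) j (i + 1) : ℝ))⁻¹ := inv_nonneg.2 (cr_nonneg (by linarith))
    have hc := cr_pos hD0
    rcases hmain with h | h
    · refine (key3 _ g1R h).trans (mul_le_mul_of_nonneg_left (by linarith) hc.le)
    · refine (key3 _ g2R h).trans (mul_le_mul_of_nonneg_left (by linarith) hc.le)
  refine (sum_le_sum hpt).trans ?_
  have e4 : ∀ j : Fin m → ℤ, ∏ i : Fin m, (cr D *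
      ∑ β : Bool, (cr (gp (N : ℤ) j (if β then (i : ℕ) + 1 else (i : ℕ)) : ℝ))⁻¹) =
      cr D ^ m * ∑ p ∈ Fintype.piFinset (fun _ : Fin m => (univ : Finset Bool)),
        ∏ i : Fin m, (cr (gp (N : ℤ) j (if p i then (i : ℕ) + 1 else (i : ℕ)) : ℝ))⁻¹ := by
    intro j
    rw [prod_mul_distrib, prod_const, Finset.prod_univ_sum (fun _ : Fin m => (univ : Finset Bool))
      (fun i β => (cr (gp (N : ℤ) j (if β then (i : ℕ) + 1 else (i : ℕ)) : ℝ))⁻¹)]
    simp
  simp only [e4]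
  rw [← mul_sum, sum_comm, mul_pow, mul_assoc]
  refine mul_le_mul_of_nonneg_left ?_ (pow_nonneg (cr_nonneg hD0.le) _)
  have hp : ∀ p ∈ Fintype.piFinset (fun _ : Fin m => (univ : Finset Bool)),
      ∑ j ∈ inc m (N : ℤ), ∏ i : Fin m, (cr (gp (N : ℤ) j (if p i then (i : ℕ) + 1 else (i : ℕ)) : ℝ))⁻¹
        ≤ (3 * (N + 1 : ℕ)) ^ m * ((cr ((N + 1 : ℕ) : ℝ))⁻¹) ^ m := by
    intro p _
    have h1 := gap_sum (N := N) (fun i : Fin m => if p i then i.succ else i.castSucc) (by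
      intro i
      by_cases hpi : p i = true
      · right; simp [hpi]
      · left; simp [hpi])
    refine le_trans (le_of_eq ?_) h1
    refine sum_congr rfl fun j _ => prod_congr rfl fun i _ => ?_
    by_cases hpi : p i = true
    · simp [hpi]
    · simp [hpi]
  refine (sum_le_sum hp).trans ?_
  rw [sum_const, nsmul_eq_mul, Fintype.card_piFinset]
  simp

end Pool.Agent.Q1.M6b
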