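import Mathlib
import Pool.Agent.Q1.ExC
import Pool.Agent.Q1.M6b.CellSum

set_option autoImplicit false
open Finset

/-! Stopping intervals. In a window (a `b`-adic interval of level `n`) every point `x` is contained in
one `b`-adic interval of each level `l ≤ n`. The interval of level `l` is bad in the configuration `ω` if
`bad l y ω`; the stopping interval of `x` is the largest one which is not bad (or the point `x`).
The probability that a given interval is a stopping interval is at most `θ ^ (n - l - 1)`, by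
independence. -/

namespace Pool.Agent.Q1.M6b.Gd

open Pool.Agent.H75.Perc Pool.Agent.H99.NC

set_option linter.unusedSectionVars false

variable {α : Type*} [DecidableEq α]

/-- `(l, y)` is a stopping interval of a window of level `n`. -/
def Stop (b : ℤ) (n : ℕ) (bad : ℕ → ℤ → Finset α → Prop) (l : ℕ) (y : ℤ) (ω : Finset α) : Prop :=
  (l = 0 ∨ ¬ bad l y ω) ∧ ∀ l', l < l' → l' ≤ n → bad l' (y / b ^ (l' - l)) ω

lemma div_lev {b : ℤ} (hb : 2 ≤ b) {l l' : ℕ} (h : l ≤ l') (x : ℤ) :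
    x / b ^ l / b ^ (l' - l) = x / b ^ l' := by
  have := div_succ hb l (l' - l) x
  rw [Nat.add_sub_cancel' h] at this
  exact this.symm

/-- existence of the stopping interval -/
lemma stop_exists {b : ℤ} (hb : 2 ≤ b) (n : ℕ) (bad : ℕ → ℤ → Finset α → Prop) (x : ℤ)
    (ω : Finset α) : ∃ l, l ≤ n ∧ Stop b n bad l (x / b ^ l) ω := by
  classical
  set P : ℕ → Prop := fun l => l = 0 ∨ ¬ bad l (x / b ^ l) ω with hP
  have h0 : P 0 := Or.inl rfl
  refine ⟨Nat.findGreatest P n, Nat.findGreatest_le n, ?_, ?_⟩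
  · exact Nat.findGreatest_spec (P := P) (Nat.zero_le n) h0
  · intro l' h1 h2
    have h3 := Nat.findGreatest_is_greatest (P := P) h1 h2
    rw [div_lev hb h1.le]
    by_contra h4
    exact h3 (Or.inr h4)

/-- uniqueness of the stopping interval -/
lemma stop_unique {b : ℤ} (hb : 2 ≤ b) {n : ℕ} {bad : ℕ → ℤ → Finset α → Prop} {x : ℤ}
    {ω : Finset α} {l l' : ℕ} (hl : l ≤ n) (hl' : l' ≤ n) (h : Stop b n bad l (x / b ^ l) ω)
    (h' : Stop b n bad l' (x / b ^ l') ω) : l = l' := by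
  rcases lt_trichotomy l l' with h1 | h1 | h1
  · exfalso
    have h2 := h.2 l' h1 hl'
    rw [div_lev hb h1.le] at h2
    rcases h'.1 with h3 | h3
    · omega
    · exact h3 h2
  · exact h1
  · exfalso
    have h2 := h'.2 l h1 hl
    rw [div_lev hb h1.le] at h2
    rcases h.1 with h3 | h3
    · omega
    · exact h3 h2

lemma dy_sub {b : ℤ} (hb : 2 ≤ b) {n l : ℕ} (hl : l ≤ n) {y0 y x : ℤ} (hy : y ∈ dy b (n - l) y0)
    (hx : x ∈ dy b l y) : x ∈ dy b n y0 := by
  rw [mem_dy hb] at *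
  rw [← div_lev hb hl x, hx, hy]

lemma dy_par {b : ℤ} (hb : 2 ≤ b) {n l : ℕ} (hl : l ≤ n) {y0 x : ℤ} (hx : x ∈ dy b n y0) :
    x / b ^ l ∈ dy b (n - l) y0 := by
  rw [mem_dy hb] at *
  rw [div_lev hb hl x, hx]

section multi

variable {ι : Type*} [Fintype ι] [DecidableEq ι]

/-- `(L i, y i)` is a stopping interval of the window `i` for every `i` -/
def Stops (b : ℤ) (n : ι → ℕ) (bad : ι → ℕ → ℤ → Finset α → Prop) (L : ι → ℕ) (y : ι → ℤ)
    (ω : Finset α) : Prop := ∀ i, Stop b (n i) (bad i) (L i) (y i) ω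

/-- the levels -/
def Lev (n : ι → ℕ) : Finset (ι → ℕ) := Fintype.piFinset (fun i => Finset.range (n i + 1))

/-- the numbers of the intervals of levels `L` in the windows -/
noncomputable def Num (b : ℤ) (n : ι → ℕ) (y0 : ι → ℤ) (L : ι → ℕ) : Finset (ι → ℤ) :=
  Fintype.piFinset (fun i => dy b (n i - L i) (y0 i))

/-- the product of intervals -/
noncomputable def Bo (b : ℤ) (L : ι → ℕ) (y : ι → ℤ) : Finset (ι → ℤ) :=
  Fintype.piFinset (fun i => dy b (L i) (y i))

lemma mem_Lev {n L : ι → ℕ} : L ∈ Lev n ↔ ∀ i, L i ≤ n i := by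
  unfold Lev
  rw [Fintype.mem_piFinset]
  refine forall_congr' fun i => ?_
  rw [mem_range]; omega

lemma mem_Num {b : ℤ} {n L : ι → ℕ} {y0 y : ι → ℤ} :
    y ∈ Num b n y0 L ↔ ∀ i, y i ∈ dy b (n i - L i) (y0 i) := by
  unfold Num
  rw [Fintype.mem_piFinset]

lemma mem_Bo {b : ℤ} {L : ι → ℕ} {y x : ι → ℤ} : x ∈ Bo b L y ↔ ∀ i, x i ∈ dy b (L i) (y i) := by
  unfold Bo
  rw [Fintype.mem_piFinset]

open Classical in
/-- **Partition of a cell into products of stopping intervals.** -/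
theorem sum_stops {A : Type*} [AddCommMonoid A] {b : ℤ} (hb : 2 ≤ b) (n : ι → ℕ) (y0 : ι → ℤ)
    (bad : ι → ℕ → ℤ → Finset α → Prop) (ω : Finset α) (F : (ι → ℤ) → A) :
    ∑ x ∈ Bo b n y0, F x = ∑ L ∈ Lev n, ∑ y ∈ Num b n y0 L,
      if Stops b n bad L y ω then ∑ x ∈ Bo b L y, F x else 0 := by
  have e1 : ∀ L ∈ Lev n, ∀ y ∈ Num b n y0 L,
      (if Stops b n bad L y ω then ∑ x ∈ Bo b L y, F x else 0) =
      ∑ x ∈ Bo b n y0, if Stops b n bad L y ω ∧ x ∈ Bo b L y then F x else 0 := by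
    intro L hL y hy
    rw [mem_Lev] at hL
    rw [mem_Num] at hy
    by_cases hs : Stops b n bad L y ω
    · rw [if_pos hs]
      simp only [hs, true_and]
      rw [← sum_filter]
      refine sum_congr ?_ fun _ _ => rfl
      ext x
      rw [mem_filter]
      constructor
      · intro hx
        refine ⟨?_, hx⟩
        rw [mem_Bo] at hx ⊢
        exact fun i => dy_sub hb (hL i) (hy i) (hx i)
      · exact fun h => h.2
    · rw [if_neg hs]
      symm
      apply sum_eq_zero
      intro x _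
      rw [if_neg (fun h => hs h.1)]
  rw [sum_congr rfl fun L hL => sum_congr rfl fun y hy => e1 L hL y hy]
  have e2 : ∀ L ∈ Lev n, ∑ y ∈ Num b n y0 L, ∑ x ∈ Bo b n y0,
      (if Stops b n bad L y ω ∧ x ∈ Bo b L y then F x else 0) =
      ∑ x ∈ Bo b n y0, ∑ y ∈ Num b n y0 L,
        (if Stops b n bad L y ω ∧ x ∈ Bo b L y then F x else 0) := fun L _ => sum_comm
  rw [sum_congr rfl e2, sum_comm]
  refine sum_congr rfl fun x hx => ?_
  rw [mem_Bo] at hx
  choose l hl1 hl2 using fun i => stop_exists hb (n i) (bad i) (x i) ω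
  have hlL : l ∈ Lev n := mem_Lev.2 hl1
  rw [sum_eq_single_of_mem l hlL]
  · have hy : (fun i => x i / b ^ l i) ∈ Num b n y0 l := mem_Num.2 fun i => dy_par hb (hl1 i) (hx i)
    rw [sum_eq_single_of_mem _ hy]
    · rw [if_pos]
      exact ⟨hl2, mem_Bo.2 fun i => (mem_dy hb).2 rfl⟩
    · intro y _ hne
      rw [if_neg]
      rintro ⟨_, h2⟩
      apply hne
      funext i
      exact ((mem_dy hb).1 (mem_Bo.1 h2 i)).symm
  · intro L hL hne
    apply sum_eq_zero
    intro y _
    rw [if_neg]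
    rintro ⟨h1, h2⟩
    apply hne
    funext i
    have h3 := (mem_dy hb).1 (mem_Bo.1 h2 i)
    have h4 := h1 i
    rw [← h3] at h4
    exact (stop_unique hb (hl1 i) (mem_Lev.1 hL i) (hl2 i) h4).symm

/-- independence of finitely many events on disjoint sets of labels -/
lemma PrP_all {κ : Type*} (q : α → ℝ) {E : Finset α} (s : Finset κ)
    (A : κ → Finset α → Prop) (U : κ → Finset α) (hU : ∀ x ∈ s, U x ⊆ E)
    (hloc : ∀ x ∈ s, ∀ ω, A x ω ↔ A x (ω ∩ U x))
    (hd : ∀ x ∈ s, ∀ y ∈ s, x ≠ y → Disjoint (U x) (U y)) :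
    PrP q E (fun ω => ∀ x ∈ s, A x ω) = ∏ x ∈ s, PrP q E (A x) := by
  classical
  induction s using Finset.induction_on with
  | empty =>
    simp
  | insert a s ha ih =>
    rw [prod_insert ha, ← ih (fun x hx => hU x (mem_insert_of_mem hx))
      (fun x hx => hloc x (mem_insert_of_mem hx))
      (fun x hx y hy => hd x (mem_insert_of_mem hx) y (mem_insert_of_mem hy))]
    set W : Finset α := s.biUnion U with hW
    have hWE : W ⊆ E := by
      rw [hW, biUnion_subset]
      exact fun x hx => hU x (mem_insert_of_mem hx)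
    have haW : Disjoint (U a) W := by
      rw [hW, disjoint_biUnion_right]
      intro x hx
      exact hd a (mem_insert_self _ _) x (mem_insert_of_mem hx) (fun h => ha (h ▸ hx))
    have hl : ∀ ω, (∀ x ∈ s, A x ω) ↔ ∀ x ∈ s, A x (ω ∩ W) := by
      intro ω
      refine forall_congr' fun x => forall_congr' fun hx => ?_
      rw [hloc x (mem_insert_of_mem hx) ω, hloc x (mem_insert_of_mem hx) (ω ∩ W)]
      have : ω ∩ W ∩ U x = ω ∩ U x := by
        rw [inter_assoc]
        congr 1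
        exact inter_eq_right.2 (subset_biUnion_of_mem U hx)
      rw [this]
    have e1 : PrP q E (fun ω => ∀ x ∈ insert a s, A x ω) =
        PrP q E (fun ω => A a (ω ∩ U a) ∧ ∀ x ∈ s, A x (ω ∩ W)) := by
      refine PrP_congr fun ω _ => ?_
      rw [← hl ω, ← hloc a (mem_insert_self _ _) ω]
      exact ⟨fun h => ⟨h a (mem_insert_self _ _), fun x hx => h x (mem_insert_of_mem hx)⟩,
        fun h x hx => by
          rcases mem_insert.1 hx with rfl | hx
          · exact h.1
          · exact h.2 x hx⟩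
    rw [e1, PrP_indep q (hU a (mem_insert_self _ _)) hWE haW (A a) (fun ω => ∀ x ∈ s, A x ω)]
    congr 1
    · exact (PrP_local (hU a (mem_insert_self _ _)) fun ω _ => hloc a (mem_insert_self _ _) ω).symm
    · exact (PrP_local hWE fun ω _ => hl ω).symm

/-- **The probability of a tuple of stopping intervals.** -/
theorem PrP_stops {b : ℤ} (hb : 2 ≤ b) {q : α → ℝ} (hq : Pb q) {E : Finset α} {n : ι → ℕ}
    {y0 : ι → ℤ} {bad : ι → ℕ → ℤ → Finset α → Prop} {U : ι → ℕ → ℤ → Finset α} {θ : ℝ}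
    (hU : ∀ i l y, 0 < l → l < n i → y ∈ dy b (n i - l) (y0 i) → U i l y ⊆ E)
    (hloc : ∀ i l y ω, 0 < l → l < n i → y ∈ dy b (n i - l) (y0 i) →
      (bad i l y ω ↔ bad i l y (ω ∩ U i l y)))
    (hd1 : ∀ i l l' y, 0 < l → l < l' → l' < n i → y ∈ dy b (n i - l) (y0 i) →
      Disjoint (U i l y) (U i l' (y / b ^ (l' - l))))
    (hd2 : ∀ i i' l l' y y', i ≠ i' → 0 < l → l < n i → 0 < l' → l' < n i' →
      y ∈ dy b (n i - l) (y0 i) → y' ∈ dy b (n i' - l') (y0 i') → Disjoint (U i l y) (U i' l' y'))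
    (hP : ∀ i l y, 0 < l → l < n i → y ∈ dy b (n i - l) (y0 i) → PrP q E (bad i l y) ≤ θ)
    {L : ι → ℕ} {y : ι → ℤ} (hy : y ∈ Num b n y0 L) :
    PrP q E (Stops b n bad L y) ≤ ∏ i, θ ^ (n i - L i - 1) := by
  rw [mem_Num] at hy
  set s : Finset (Σ _ : ι, ℕ) := univ.sigma (fun i => Finset.Ioo (L i) (n i)) with hs
  have hms : ∀ x : (Σ _ : ι, ℕ), x ∈ s ↔ L x.1 < x.2 ∧ x.2 < n x.1 := by
    intro x
    rw [hs, mem_sigma, mem_Ioo]
    simp
  set Y : (Σ _ : ι, ℕ) → ℤ := fun x => y x.1 / b ^ (x.2 - L x.1) with hY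
  have hYm : ∀ x ∈ s, Y x ∈ dy b (n x.1 - x.2) (y0 x.1) := by
    intro x hx
    rw [hms] at hx
    have h1 := hy x.1
    have h2 := dy_par hb (l := x.2 - L x.1) (n := n x.1 - L x.1) (by omega) h1
    have e : n x.1 - L x.1 - (x.2 - L x.1) = n x.1 - x.2 := by omega
    rw [e] at h2
    exact h2
  have hmon : PrP q E (Stops b n bad L y) ≤
      PrP q E (fun ω => ∀ x ∈ s, bad x.1 x.2 (Y x) ω) := by
    refine PrP_mono hq fun ω _ h x hx => ?_
    rw [hms] at hx
    exact (h x.1).2 x.2 hx.1 hx.2.le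
  refine hmon.trans ?_
  rw [PrP_all q s (fun x ω => bad x.1 x.2 (Y x) ω) (fun x => U x.1 x.2 (Y x))]
  · have e1 : ∏ i, θ ^ (n i - L i - 1) = ∏ x ∈ s, θ := by
      rw [hs, prod_sigma]
      refine prod_congr rfl fun i _ => ?_
      simp only [prod_const, Nat.card_Ioo]
    rw [e1]
    refine prod_le_prod (fun x _ => PrP_nonneg hq _ _) fun x hx => ?_
    have h1 := (hms x).1 hx
    exact hP x.1 x.2 (Y x) (by omega) h1.2 (hYm x hx)
  · intro x hx
    have h1 := (hms x).1 hx
    exact hU _ _ _ (by omega) h1.2 (hYm x hx)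
  · intro x hx ω
    have h1 := (hms x).1 hx
    exact hloc _ _ _ _ (by omega) h1.2 (hYm x hx)
  · rintro ⟨i, l⟩ hx ⟨i', l'⟩ hx' hne
    have h1 := (hms _).1 hx
    have h1' := (hms _).1 hx'
    simp only at h1 h1'
    by_cases hi : i = i'
    · subst hi
      have key : ∀ l l' : ℕ, L i < l → l < l' → l' < n i →
          Disjoint (U i l (Y ⟨i, l⟩)) (U i l' (Y ⟨i, l'⟩)) := by
        intro l l' h2 h3 h4
        have h5 := hd1 i l l' (Y ⟨i, l⟩) (by omega) h3 h4
          (hYm ⟨i, l⟩ ((hms _).2 ⟨h2, by simp only; omega⟩))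
        have e : Y ⟨i, l⟩ / b ^ (l' - l) = Y ⟨i, l'⟩ := by
          simp only [hY]
          have := div_lev hb (l := l - L i) (l' := l' - L i) (by omega) (y i)
          rw [← this]
          congr 2
          omega
        rw [e] at h5
        exact h5
      rcases lt_trichotomy l l' with h2 | h2 | h2
      · exact key l l' h1.1 h2 h1'.2
      · subst h2; exact absurd rfl hne
      · exact (key l' l h1'.1 h2 h1.2).symm
    · have a1 : 0 < l := by omega
      have a2 : 0 < l' := by omega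
      have h5 : Y ⟨i, l⟩ ∈ dy b (n i - l) (y0 i) := hYm ⟨i, l⟩ hx
      have h6 : Y ⟨i', l'⟩ ∈ dy b (n i' - l') (y0 i') := hYm ⟨i', l'⟩ hx'
      exact hd2 i i' l l' (Y ⟨i, l⟩) (Y ⟨i', l'⟩) hi a1 h1.2 a2 h1'.2 h5 h6

end multi

end Pool.Agent.Q1.M6b.Gd
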