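import Mathlib
import Pool.Agent.Q1.ExC

set_option autoImplicit false
open Finset

/-! Hölder's and Jensen's inequalities for the expectations over the subsets of a finite set. -/

namespace Pool.Agent.Q1.M6b.Gd

open Pool.Agent.H75.Perc Pool.Agent.H99.NC

set_option linter.unusedSectionVars false

variable {α : Type*} [DecidableEq α]

lemma Ex_holder {q : α → ℝ} (hq : Pb q) {E : Finset α} {p p' : ℝ} (hpp : p.HolderConjugate p')
    {f g : Finset α → ℝ} (hf : ∀ ω, ω ⊆ E → 0 ≤ f ω) (hg : ∀ ω, ω ⊆ E → 0 ≤ g ω) :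
    Ex q E (fun ω => f ω * g ω) ≤
      (Ex q E (fun ω => f ω ^ p)) ^ (1 / p) * (Ex q E (fun ω => g ω ^ p')) ^ (1 / p') := by
  have h := Real.inner_le_Lp_mul_Lq_of_nonneg E.powerset hpp
    (f := fun ω => wt q E ω ^ (1 / p) * f ω) (g := fun ω => wt q E ω ^ (1 / p') * g ω)
    (fun ω hω => mul_nonneg (Real.rpow_nonneg (wt_nonneg hq _ _) _) (hf ω (mem_powerset.1 hω)))
    (fun ω hω => mul_nonneg (Real.rpow_nonneg (wt_nonneg hq _ _) _) (hg ω (mem_powerset.1 hω)))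
  have hp := hpp.pos
  have hp' := hpp.symm.pos
  have key : ∀ r : ℝ, 0 < r → ∀ f : Finset α → ℝ, (∀ ω, ω ⊆ E → 0 ≤ f ω) →
      ∑ ω ∈ E.powerset, (wt q E ω ^ (1 / r) * f ω) ^ r = Ex q E (fun ω => f ω ^ r) := by
    intro r hr f hf
    unfold Ex
    refine sum_congr rfl fun ω hω => ?_
    rw [Real.mul_rpow (Real.rpow_nonneg (wt_nonneg hq _ _) _) (hf ω (mem_powerset.1 hω)),
      ← Real.rpow_mul (wt_nonneg hq _ _), one_div_mul_cancel hr.ne', Real.rpow_one]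
  rw [key p hp f hf, key p' hp' g hg] at h
  refine le_trans (le_of_eq ?_) h
  unfold Ex
  refine sum_congr rfl fun ω _ => ?_
  have h1 : wt q E ω = wt q E ω ^ (1 / p) * wt q E ω ^ (1 / p') := by
    rw [← Real.rpow_add_of_nonneg (wt_nonneg hq _ _) (by positivity) (by positivity)]
    have : 1 / p + 1 / p' = 1 := by
      rw [one_div, one_div]; exact hpp.inv_add_inv_eq_one
    rw [this, Real.rpow_one]
  nth_rewrite 1 [h1]
  ring

/-- Jensen's inequality -/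
lemma Ex_pow_le {q : α → ℝ} (hq : Pb q) {E : Finset α} {f : Finset α → ℝ}
    (hf : ∀ ω, ω ⊆ E → 0 ≤ f ω) (r : ℕ) : (Ex q E f) ^ r ≤ Ex q E (fun ω => f ω ^ r) := by
  unfold Ex
  refine Real.pow_arith_mean_le_arith_mean_pow E.powerset (fun ω => wt q E ω) f
    (fun ω _ => wt_nonneg hq _ _) ?_ (fun ω hω => hf ω (mem_powerset.1 hω)) r
  have h := Ex_const q E 1
  unfold Ex at h
  simpa using h

/-- three factors: an event, a function in `L^2` and a function in `L^10` -/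
theorem Ex_three {q : α → ℝ} (hq : Pb q) {E : Finset α} (A : Finset α → Prop)
    {f g : Finset α → ℝ} (hf : ∀ ω, ω ⊆ E → 0 ≤ f ω) (hg : ∀ ω, ω ⊆ E → 0 ≤ g ω) :
    Ex q E (fun ω => ind (A ω) * (f ω * g ω)) ≤ (PrP q E A) ^ (2 / 5 : ℝ) *
      ((Ex q E (fun ω => f ω ^ 2)) ^ (1 / 2 : ℝ) * (Ex q E (fun ω => g ω ^ 10)) ^ (1 / 10 : ℝ)) := by
  have c1 : (5 / 2 : ℝ).HolderConjugate (5 / 3) := by
    rw [Real.holderConjugate_iff]; norm_num
  have c2 : (6 / 5 : ℝ).HolderConjugate 6 := by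
    rw [Real.holderConjugate_iff]; norm_num
  have hfg : ∀ ω, ω ⊆ E → 0 ≤ f ω * g ω := fun ω h => mul_nonneg (hf ω h) (hg ω h)
  have h1 := Ex_holder hq (E := E) c1 (f := fun ω => ind (A ω)) (g := fun ω => f ω * g ω)
    (fun ω _ => ind_nonneg _) hfg
  have h2 := Ex_holder hq (E := E) c2 (f := fun ω => f ω ^ (5 / 3 : ℝ))
    (g := fun ω => g ω ^ (5 / 3 : ℝ)) (fun ω h => Real.rpow_nonneg (hf ω h) _)
    (fun ω h => Real.rpow_nonneg (hg ω h) _)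
  have e1 : Ex q E (fun ω => ind (A ω) ^ (5 / 2 : ℝ)) = PrP q E A := by
    unfold PrP
    refine Ex_congr fun ω _ => ?_
    by_cases h : A ω
    · rw [ind_true h, Real.one_rpow]
    · rw [ind_false h, Real.zero_rpow (by norm_num)]
  have e2 : Ex q E (fun ω => (f ω * g ω) ^ (5 / 3 : ℝ)) =
      Ex q E (fun ω => f ω ^ (5 / 3 : ℝ) * g ω ^ (5 / 3 : ℝ)) :=
    Ex_congr fun ω h => Real.mul_rpow (hf ω h) (hg ω h)
  have e3 : Ex q E (fun ω => (f ω ^ (5 / 3 : ℝ)) ^ (6 / 5 : ℝ)) = Ex q E (fun ω => f ω ^ 2) := by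
    refine Ex_congr fun ω h => ?_
    rw [← Real.rpow_mul (hf ω h), ← Real.rpow_natCast]
    norm_num
  have e4 : Ex q E (fun ω => (g ω ^ (5 / 3 : ℝ)) ^ (6 : ℝ)) = Ex q E (fun ω => g ω ^ 10) := by
    refine Ex_congr fun ω h => ?_
    rw [← Real.rpow_mul (hg ω h), ← Real.rpow_natCast]
    norm_num
  rw [e1] at h1
  rw [e3, e4, ← e2] at h2
  have n1 : 0 ≤ Ex q E (fun ω => f ω ^ 2) := Ex_nonneg hq fun ω h => pow_nonneg (hf ω h) 2
  have n2 : 0 ≤ Ex q E (fun ω => g ω ^ 10) := Ex_nonneg hq fun ω h => pow_nonneg (hg ω h) 10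
  have n3 : 0 ≤ Ex q E (fun ω => (f ω * g ω) ^ (5 / 3 : ℝ)) :=
    Ex_nonneg hq fun ω h => Real.rpow_nonneg (hfg ω h) _
  have h3 := Real.rpow_le_rpow n3 h2 (show (0 : ℝ) ≤ 3 / 5 by norm_num)
  rw [Real.mul_rpow (Real.rpow_nonneg n1 _) (Real.rpow_nonneg n2 _), ← Real.rpow_mul n1,
    ← Real.rpow_mul n2] at h3
  norm_num at h1 h3 ⊢
  exact h1.trans (mul_le_mul_of_nonneg_left h3 (Real.rpow_nonneg (PrP_nonneg hq _ _) _))

/-- moments of a maximum -/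
theorem Ex_max {q : α → ℝ} (hq : Pb q) {E : Finset α} {κ : Type*} (W : Finset κ)
    (f : κ → Finset α → ℝ) (hf : ∀ w ∈ W, ∀ ω, ω ⊆ E → 0 ≤ f w ω) (M : Finset α → ℝ)
    (hM0 : ∀ ω, ω ⊆ E → 0 ≤ M ω) (hM : ∀ ω, ω ⊆ E → ∃ w ∈ W, M ω ≤ f w ω) (p r : ℕ) (hr : r ≠ 0)
    {C : ℝ} (hC : ∀ w ∈ W, Ex q E (fun ω => f w ω ^ (p * r)) ≤ C) :
    Ex q E (fun ω => M ω ^ p) ≤ (W.card * C) ^ (1 / r : ℝ) := by
  have h1 := Ex_pow_le hq (E := E) (f := fun ω => M ω ^ p) (fun ω h => pow_nonneg (hM0 ω h) p) r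
  have h2 : Ex q E (fun ω => (M ω ^ p) ^ r) ≤ W.card * C := by
    calc Ex q E (fun ω => (M ω ^ p) ^ r) ≤ Ex q E (fun ω => ∑ w ∈ W, f w ω ^ (p * r)) := by
          refine Ex_mono hq fun ω h => ?_
          obtain ⟨w, hw, hle⟩ := hM ω h
          rw [← pow_mul]
          exact (pow_le_pow_left₀ (hM0 ω h) hle _).trans
            (single_le_sum (f := fun w => f w ω ^ (p * r))
              (fun w hw => pow_nonneg (hf w hw ω h) _) hw)
      _ = ∑ w ∈ W, Ex q E (fun ω => f w ω ^ (p * r)) := Ex_sum q E W (fun w ω => f w ω ^ (p * r))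
      _ ≤ ∑ _w ∈ W, C := sum_le_sum hC
      _ = W.card * C := by rw [sum_const, nsmul_eq_mul]
  have n1 : 0 ≤ Ex q E (fun ω => M ω ^ p) := Ex_nonneg hq fun ω h => pow_nonneg (hM0 ω h) p
  have h3 := h1.trans h2
  have hr' : (0 : ℝ) < r := by exact_mod_cast Nat.pos_of_ne_zero hr
  calc Ex q E (fun ω => M ω ^ p) = ((Ex q E (fun ω => M ω ^ p)) ^ r) ^ (1 / r : ℝ) := by
        rw [← Real.rpow_natCast, ← Real.rpow_mul n1, mul_one_div_cancel hr'.ne', Real.rpow_one]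
    _ ≤ (W.card * C) ^ (1 / r : ℝ) := Real.rpow_le_rpow (pow_nonneg n1 _) h3 (by positivity)

end Pool.Agent.Q1.M6b.Gd
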