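import Mathlib
import Pool.Agent.Q1.M6b.Good
import Pool.Agent.Q1.M6b.Holder

set_option autoImplicit false
open Finset

/-! Assembly: the sum over a cell of the expectations of the amplitudes, from the bound for each product
of stopping intervals. -/

namespace Pool.Agent.Q1.M6b.Gd

open Pool.Agent.H75.Perc Pool.Agent.H99.NC

set_option linter.unusedSectionVars false

variable {α : Type*} [DecidableEq α]

lemma cr_pow {x : ℝ} (hx : 0 ≤ x) (n : ℕ) : cr (x ^ n) = cr x ^ n := by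
  induction n with
  | zero => simp [cr_one]
  | succ n ih => rw [pow_succ, cr_mul (pow_nonneg hx n) hx, ih, pow_succ]

/-- the series of one window -/
lemma window_sum {b : ℝ} (hb : 1 ≤ b) {t : ℝ} (ht : 0 ≤ t) (h : cr b * t ≤ 1 / 2) (n : ℕ) :
    ∑ l ∈ Finset.range (n + 1), b ^ (n - l) * (cr (b ^ l) ^ 2 * t ^ (n - l - 1)) ≤
      3 * cr b * cr (b ^ n) ^ 2 := by
  have hb0 : 0 ≤ b := by linarith
  have hc1 : 1 ≤ cr b := by
    have := cr_mono (by norm_num) hb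
    rwa [cr_one] at this
  have e1 : ∀ l ∈ Finset.range (n + 1), b ^ (n - l) * (cr (b ^ l) ^ 2 * t ^ (n - l - 1)) =
      cr (b ^ n) ^ 2 * (cr b ^ (n - l) * t ^ (n - l - 1)) := by
    intro l hl
    rw [mem_range] at hl
    have h1 : b ^ n = b ^ (n - l) * b ^ l := by rw [← pow_add]; congr 1; omega
    have h2 : b ^ (n - l) = cr (b ^ (n - l)) ^ 3 := (cr_cube (pow_nonneg hb0 _)).symm
    rw [h1, cr_mul (pow_nonneg hb0 _) (pow_nonneg hb0 _)]
    nth_rewrite 1 [h2]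
    rw [cr_pow hb0 (n - l)]
    ring
  rw [sum_congr rfl e1, ← mul_sum]
  have e2 : ∑ l ∈ Finset.range (n + 1), cr b ^ (n - l) * t ^ (n - l - 1) =
      ∑ k ∈ Finset.range (n + 1), cr b ^ k * t ^ (k - 1) := by
    rw [← Finset.sum_range_reflect]
    refine sum_congr rfl fun k hk => ?_
    rw [mem_range] at hk
    have : n - (n + 1 - 1 - k) = k := by omega
    rw [this]
  rw [e2]
  have e3 : ∑ k ∈ Finset.range (n + 1), cr b ^ k * t ^ (k - 1) ≤ 1 + 2 * cr b := by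
    rw [Finset.sum_range_succ']
    simp only [pow_zero, Nat.zero_sub, mul_one]
    have e4 : ∑ k ∈ Finset.range n, cr b ^ (k + 1) * t ^ (k + 1 - 1) ≤
        ∑ k ∈ Finset.range n, cr b * (1 / 2) ^ k := by
      refine sum_le_sum fun k _ => ?_
      rw [Nat.add_sub_cancel, pow_succ]
      calc cr b ^ k * cr b * t ^ k = cr b * (cr b * t) ^ k := by rw [mul_pow]; ring
        _ ≤ cr b * (1 / 2) ^ k := mul_le_mul_of_nonneg_left
            (pow_le_pow_left₀ (mul_nonneg (by linarith) ht) h k) (by linarith)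
    have e5 : ∑ k ∈ Finset.range n, cr b * (1 / 2 : ℝ) ^ k ≤ cr b * 2 := by
      rw [← mul_sum]
      refine mul_le_mul_of_nonneg_left ?_ (by linarith)
      have := Summable.sum_le_tsum (Finset.range n) (fun i _ => by positivity) summable_geometric_two
      rwa [tsum_geometric_two] at this
    linarith
  calc cr (b ^ n) ^ 2 * ∑ k ∈ Finset.range (n + 1), cr b ^ k * t ^ (k - 1)
      ≤ cr (b ^ n) ^ 2 * (3 * cr b) := mul_le_mul_of_nonneg_left (by linarith) (sq_nonneg _)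
    _ = 3 * cr b * cr (b ^ n) ^ 2 := by ring

variable {ι : Type*} [Fintype ι] [DecidableEq ι]

lemma card_Num {b : ℤ} (hb : 2 ≤ b) (n : ι → ℕ) (y0 : ι → ℤ) (L : ι → ℕ) :
    ((Num b n y0 L).card : ℝ) = ∏ i, (b : ℝ) ^ (n i - L i) := by
  unfold Num
  rw [Fintype.card_piFinset]
  push_cast
  refine prod_congr rfl fun i _ => ?_
  rw [card_dy]
  have h2 : ((b ^ (n i - L i)).toNat : ℤ) = b ^ (n i - L i) := Int.toNat_of_nonneg (by positivity)
  have h3 : (((b ^ (n i - L i)).toNat : ℤ) : ℝ) = (b : ℝ) ^ (n i - L i) := by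
    rw [h2]; push_cast; rfl
  exact_mod_cast h3

open Classical in
/-- **Sum over a cell.** -/
theorem cell_bound {b : ℤ} (hb : 2 ≤ b) {q : α → ℝ} (hq : Pb q) {E : Finset α} {n : ι → ℕ}
    {y0 : ι → ℤ} {bad : ι → ℕ → ℤ → Finset α → Prop} {U : ι → ℕ → ℤ → Finset α} {θ : ℝ}
    (hθ : 0 ≤ θ) (hθ2 : cr b * θ ^ (2 / 5 : ℝ) ≤ 1 / 2)
    (hU : ∀ i l y, 0 < l → l < n i → y ∈ dy b (n i - l) (y0 i) → U i l y ⊆ E)
    (hloc : ∀ i l y ω, 0 < l → l < n i → y ∈ dy b (n i - l) (y0 i) →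
      (bad i l y ω ↔ bad i l y (ω ∩ U i l y)))
    (hd1 : ∀ i l l' y, 0 < l → l < l' → l' < n i → y ∈ dy b (n i - l) (y0 i) →
      Disjoint (U i l y) (U i l' (y / b ^ (l' - l))))
    (hd2 : ∀ i i' l l' y y', i ≠ i' → 0 < l → l < n i → 0 < l' → l' < n i' →
      y ∈ dy b (n i - l) (y0 i) → y' ∈ dy b (n i' - l') (y0 i') → Disjoint (U i l y) (U i' l' y'))
    (hP : ∀ i l y, 0 < l → l < n i → y ∈ dy b (n i - l) (y0 i) → PrP q E (bad i l y) ≤ θ)
    {f g : Finset α → ℝ} (hf : ∀ ω, ω ⊆ E → 0 ≤ f ω) (hg : ∀ ω, ω ⊆ E → 0 ≤ g ω)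
    (Amp : (ι → ℤ) → Finset α → ℂ)
    (hA : ∀ L ∈ Lev n, ∀ y ∈ Num b n y0 L,
      ‖Ec (fun e => (q e : ℂ)) E
          (fun ω => if Stops b n bad L y ω then ∑ x ∈ Bo b L y, Amp x ω else 0)‖ ≤
        (∏ i, cr ((b : ℝ) ^ L i) ^ 2) * Ex q E (fun ω => ind (Stops b n bad L y ω) * (f ω * g ω))) :
    ‖∑ x ∈ Bo b n y0, Ec (fun e => (q e : ℂ)) E (Amp x)‖ ≤
      (∏ i, cr ((b : ℝ) ^ n i) ^ 2) * ((3 * cr b) ^ Fintype.card ι *
        ((Ex q E (fun ω => f ω ^ 2)) ^ (1 / 2 : ℝ) * (Ex q E (fun ω => g ω ^ 10)) ^ (1 / 10 : ℝ))) := by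
  have hb1 : (1 : ℝ) ≤ (b : ℝ) := by exact_mod_cast (by omega : (1 : ℤ) ≤ b)
  have hb0 : (0 : ℝ) ≤ (b : ℝ) := by linarith
  set G := (Ex q E (fun ω => f ω ^ 2)) ^ (1 / 2 : ℝ) *
    (Ex q E (fun ω => g ω ^ 10)) ^ (1 / 10 : ℝ) with hG
  have hG0 : 0 ≤ G := mul_nonneg
    (Real.rpow_nonneg (Ex_nonneg hq fun ω h => pow_nonneg (hf ω h) 2) _)
    (Real.rpow_nonneg (Ex_nonneg hq fun ω h => pow_nonneg (hg ω h) 10) _)
  set t := θ ^ (2 / 5 : ℝ) with ht
  have ht0 : 0 ≤ t := Real.rpow_nonneg hθ _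
  have e1 : ∑ x ∈ Bo b n y0, Ec (fun e => (q e : ℂ)) E (Amp x) =
      ∑ L ∈ Lev n, ∑ y ∈ Num b n y0 L, Ec (fun e => (q e : ℂ)) E
        (fun ω => if Stops b n bad L y ω then ∑ x ∈ Bo b L y, Amp x ω else 0) := by
    rw [← Ec_sum]
    simp only [← Ec_sum]
    refine Ec_congr fun ω _ => ?_
    exact sum_stops hb n y0 bad ω (fun x => Amp x ω)
  rw [e1]
  have hterm : ∀ L ∈ Lev n, ∀ y ∈ Num b n y0 L,
      ‖Ec (fun e => (q e : ℂ)) E
          (fun ω => if Stops b n bad L y ω then ∑ x ∈ Bo b L y, Amp x ω else 0)‖ ≤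
        (∏ i, (cr ((b : ℝ) ^ L i) ^ 2 * t ^ (n i - L i - 1))) * G := by
    intro L hL y hy
    refine (hA L hL y hy).trans ?_
    rw [prod_mul_distrib, mul_assoc]
    refine mul_le_mul_of_nonneg_left ?_ (prod_nonneg fun i _ => sq_nonneg _)
    refine (Ex_three hq (Stops b n bad L y) hf hg).trans ?_
    refine mul_le_mul_of_nonneg_right ?_ hG0
    have h1 := PrP_stops hb hq (L := L) hU hloc hd1 hd2 hP hy
    have h2 := Real.rpow_le_rpow (PrP_nonneg hq _ _) h1 (show (0 : ℝ) ≤ 2 / 5 by norm_num)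
    refine h2.trans (le_of_eq ?_)
    rw [← Real.finsetProd_rpow _ _ (fun i _ => pow_nonneg hθ _)]
    refine prod_congr rfl fun i _ => ?_
    rw [ht, ← Real.rpow_natCast, ← Real.rpow_natCast, ← Real.rpow_mul hθ, ← Real.rpow_mul hθ,
      mul_comm]
  calc _ ≤ ∑ L ∈ Lev n, ∑ y ∈ Num b n y0 L,
        (∏ i, (cr ((b : ℝ) ^ L i) ^ 2 * t ^ (n i - L i - 1))) * G :=
        (norm_sum_le _ _).trans (sum_le_sum fun L hL => (norm_sum_le _ _).trans
          (sum_le_sum fun y hy => hterm L hL y hy))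
    _ = (∑ L ∈ Lev n, ∏ i, ((b : ℝ) ^ (n i - L i) *
          (cr ((b : ℝ) ^ L i) ^ 2 * t ^ (n i - L i - 1)))) * G := by
        rw [sum_mul]
        refine sum_congr rfl fun L _ => ?_
        rw [sum_const, nsmul_eq_mul, card_Num hb, ← mul_assoc, ← prod_mul_distrib]
    _ = (∏ i, ∑ l ∈ Finset.range (n i + 1), ((b : ℝ) ^ (n i - l) *
          (cr ((b : ℝ) ^ l) ^ 2 * t ^ (n i - l - 1)))) * G := by
        unfold Lev
        rw [Finset.prod_univ_sum]
    _ ≤ (∏ i, (3 * cr (b : ℝ) * cr ((b : ℝ) ^ n i) ^ 2)) * G := by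
        refine mul_le_mul_of_nonneg_right ?_ hG0
        refine prod_le_prod (fun i _ => sum_nonneg fun l _ => ?_) fun i _ =>
          window_sum hb1 ht0 hθ2 (n i)
        exact mul_nonneg (pow_nonneg hb0 _) (mul_nonneg (sq_nonneg _) (pow_nonneg ht0 _))
    _ = _ := by
        rw [prod_mul_distrib, prod_const, card_univ]
        ring

/-- splitting off the labels of a set `V` -/
lemma Ec_ite_split {q : α → ℝ} (hq : Pb q) {E V : Finset α} (hV : V ⊆ E) (S : Finset α → Prop)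
    (hS : ∀ ω, S ω ↔ S (ω \ V)) [DecidablePred S] (F : Finset α → ℂ) {c : ℝ} {G : Finset α → ℝ}
    (h : ∀ ω, ω ⊆ E → S ω → ‖Ec (fun e => (q e : ℂ)) V (fun η => F (ω \ V ∪ η))‖ ≤ c * G ω) :
    ‖Ec (fun e => (q e : ℂ)) E (fun ω => if S ω then F ω else 0)‖ ≤
      c * Ex q E (fun ω => ind (S ω) * G ω) := by
  have hsub : E \ V ⊆ E := sdiff_subset
  have hVe : E \ (E \ V) = V := by
    exact Finset.sdiff_sdiff_eq_self hV
  rw [Ec_split _ hsub, Ex_split q hsub, hVe, ← Ex_smul]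
  refine (Ec_norm hq (g := fun ω1 => c * Ex q V (fun ω2 => ind (S (ω1 ∪ ω2)) * G (ω1 ∪ ω2))) ?_)
  intro ω1 h1
  have hun : ∀ ω2, ω2 ⊆ V → (ω1 ∪ ω2) \ V = ω1 := by
    intro ω2 h2
    ext x
    rw [mem_sdiff, mem_union]
    constructor
    · rintro ⟨h3 | h3, h4⟩
      · exact h3
      · exact absurd (h2 h3) h4
    · intro h3
      exact ⟨Or.inl h3, (mem_sdiff.1 (h1 h3)).2⟩
  have hSc : ∀ ω2, ω2 ⊆ V → (S (ω1 ∪ ω2) ↔ S ω1) := by
    intro ω2 h2
    rw [hS (ω1 ∪ ω2), hun ω2 h2]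
  by_cases hs : S ω1
  · have e1 : Ec (fun e => (q e : ℂ)) V (fun ω2 => if S (ω1 ∪ ω2) then F (ω1 ∪ ω2) else 0) =
        Ec (fun e => (q e : ℂ)) V (fun ω2 => F (ω1 ∪ ω2)) := by
      refine Ec_congr fun ω2 h2 => ?_
      rw [if_pos ((hSc ω2 h2).2 hs)]
    have e2 : Ex q V (fun ω2 => ind (S (ω1 ∪ ω2)) * G (ω1 ∪ ω2)) =
        Ex q V (fun ω2 => G (ω1 ∪ ω2)) := by
      refine Ex_congr fun ω2 h2 => ?_
      rw [ind_true ((hSc ω2 h2).2 hs), one_mul]
    rw [e1, e2]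
    set N := ‖Ec (fun e => (q e : ℂ)) V (fun ω2 => F (ω1 ∪ ω2))‖ with hN
    rw [← Ex_const q V N, ← Ex_smul]
    refine Ex_mono hq fun ω2 h2 => ?_
    have h3 := h (ω1 ∪ ω2) (union_subset (h1.trans hsub) (h2.trans hV)) ((hSc ω2 h2).2 hs)
    rw [hun ω2 h2] at h3
    exact h3
  · have e1 : Ec (fun e => (q e : ℂ)) V (fun ω2 => if S (ω1 ∪ ω2) then F (ω1 ∪ ω2) else 0) =
        Ec (fun e => (q e : ℂ)) V (fun _ => 0) := by
      refine Ec_congr fun ω2 h2 => ?_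
      rw [if_neg (fun h => hs ((hSc ω2 h2).1 h))]
    have e2 : Ex q V (fun ω2 => ind (S (ω1 ∪ ω2)) * G (ω1 ∪ ω2)) = Ex q V (fun _ => 0) := by
      refine Ex_congr fun ω2 h2 => ?_
      rw [ind_false (fun h => hs ((hSc ω2 h2).1 h)), zero_mul]
    rw [e1, e2, Ec_const, Ex_const]
    simp

/-- The data of one cell: boxes `In i l y ⊆ Out i l y` (sets of labels) of the intervals, bad events which
depend on the annulus `Out` minus `In`, and the bound of the amplitude for given stopping intervals. -/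
structure CellOK (b : ℤ) (q : α → ℝ) (E : Finset α) (θ : ℝ) (G : Finset α → ℝ) (n : ι → ℕ)
    (y0 : ι → ℤ) (Amp : (ι → ℤ) → Finset α → ℂ) where
  bad : ι → ℕ → ℤ → Finset α → Prop
  In : ι → ℕ → ℤ → Finset α
  Out : ι → ℕ → ℤ → Finset α
  in_out : ∀ i l y, 0 < l → l ≤ n i → y ∈ dy b (n i - l) (y0 i) → In i l y ⊆ Out i l y
  nest : ∀ i l l' y, 0 < l → l < l' → l' ≤ n i → y ∈ dy b (n i - l) (y0 i) →
    Out i l y ⊆ In i l' (y / b ^ (l' - l))
  top : ∀ i, 0 < n i → Out i (n i) (y0 i) ⊆ E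
  disj : ∀ i i', i ≠ i' → 0 < n i → 0 < n i' → Disjoint (Out i (n i) (y0 i)) (Out i' (n i') (y0 i'))
  loc : ∀ i l y ω, 0 < l → l ≤ n i → y ∈ dy b (n i - l) (y0 i) →
    (bad i l y ω ↔ bad i l y (ω ∩ (Out i l y \ In i l y)))
  prob : ∀ i l y, 0 < l → l < n i → y ∈ dy b (n i - l) (y0 i) → PrP q E (bad i l y) ≤ θ
  amp : ∀ L ∈ Lev n, ∀ y ∈ Num b n y0 L, ∀ ω, ω ⊆ E → Stops b n bad L y ω →
    ‖Ec (fun e => (q e : ℂ)) (univ.biUnion fun i => if L i = 0 then ∅ else In i (L i) (y i))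
      (fun η => ∑ x ∈ Bo b L y, Amp x
        (ω \ (univ.biUnion fun i => if L i = 0 then ∅ else In i (L i) (y i)) ∪ η))‖ ≤
      (∏ i, cr ((b : ℝ) ^ L i) ^ 2) * G ω

namespace CellOK

variable {b : ℤ} {q : α → ℝ} {E : Finset α} {θ : ℝ} {G : Finset α → ℝ} {n : ι → ℕ} {y0 : ι → ℤ}
  {Amp : (ι → ℤ) → Finset α → ℂ}

lemma out_top (hb : 2 ≤ b) (D : CellOK b q E θ G n y0 Amp) {i : ι} {l : ℕ} {y : ℤ} (h0 : 0 < l)
    (hl : l ≤ n i) (hy : y ∈ dy b (n i - l) (y0 i)) : D.Out i l y ⊆ D.Out i (n i) (y0 i) := by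
  rcases Nat.lt_or_ge l (n i) with h | h
  · have h1 := D.nest i l (n i) y h0 h le_rfl hy
    have e : y / b ^ (n i - l) = y0 i := (mem_dy hb).1 hy
    rw [e] at h1
    refine h1.trans (D.in_out i (n i) (y0 i) (by omega) le_rfl ?_)
    rw [Nat.sub_self, mem_dy hb]
    simp
  · have e : l = n i := le_antisymm hl h
    subst e
    rw [Nat.sub_self, mem_dy hb] at hy
    simp only [pow_zero, Int.ediv_one] at hy
    rw [hy]

lemma in_top (hb : 2 ≤ b) (D : CellOK b q E θ G n y0 Amp) {i : ι} {l : ℕ} {y : ℤ} (h0 : 0 < l)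
    (hl : l ≤ n i) (hy : y ∈ dy b (n i - l) (y0 i)) : D.In i l y ⊆ D.Out i (n i) (y0 i) :=
  (D.in_out i l y h0 hl hy).trans (D.out_top hb h0 hl hy)

/-- the random labels of the boxes of the stopping intervals -/
def V (D : CellOK b q E θ G n y0 Amp) (L : ι → ℕ) (y : ι → ℤ) : Finset α :=
  univ.biUnion fun i => if L i = 0 then ∅ else D.In i (L i) (y i)

lemma V_sub (hb : 2 ≤ b) (D : CellOK b q E θ G n y0 Amp) {L : ι → ℕ} {y : ι → ℤ} (hL : L ∈ Lev n)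
    (hy : y ∈ Num b n y0 L) : D.V L y ⊆ E := by
  unfold V
  rw [biUnion_subset]
  intro i _
  by_cases h : L i = 0
  · rw [if_pos h]; exact empty_subset _
  · rw [if_neg h]
    exact (D.in_top hb (Nat.pos_of_ne_zero h) (mem_Lev.1 hL i) (mem_Num.1 hy i)).trans
      (D.top i (by have := mem_Lev.1 hL i; omega))

lemma V_disj (hb : 2 ≤ b) (D : CellOK b q E θ G n y0 Amp) {L : ι → ℕ} {y : ι → ℤ} (hL : L ∈ Lev n)
    (hy : y ∈ Num b n y0 L) {i : ι} {l : ℕ} (h0 : 0 < l) (h1 : L i ≤ l) (h2 : l ≤ n i) :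
    Disjoint (D.Out i l (y i / b ^ (l - L i)) \ D.In i l (y i / b ^ (l - L i))) (D.V L y) := by
  unfold V
  rw [disjoint_biUnion_right]
  intro i' _
  by_cases h : L i' = 0
  · rw [if_pos h]; exact disjoint_empty_right _
  rw [if_neg h]
  have hLi := mem_Lev.1 hL
  have hyi := mem_Num.1 hy
  have hpar : y i / b ^ (l - L i) ∈ dy b (n i - l) (y0 i) := by
    have h3 := dy_par hb (l := l - L i) (n := n i - L i) (by omega) (hyi i)
    have e : n i - L i - (l - L i) = n i - l := by omega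
    rwa [e] at h3
  by_cases hi : i = i'
  · subst hi
    rcases Nat.lt_or_ge (L i) l with h3 | h3
    · have h4 := D.nest i (L i) l (y i) (by omega) h3 h2 (hyi i)
      have h5 := D.in_out i (L i) (y i) (by omega) (hLi i) (hyi i)
      refine disjoint_left.2 fun x hx hx' => ?_
      exact (mem_sdiff.1 hx).2 (h4 (h5 hx'))
    · have e : l = L i := le_antisymm h3 h1
      subst e
      rw [Nat.sub_self, pow_zero, Int.ediv_one]
      exact sdiff_disjoint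
  · have h3 := D.disj i i' hi (by omega) (by have := hLi i'; omega)
    have h4 := D.out_top hb h0 h2 hpar
    have h5 := D.in_top hb (Nat.pos_of_ne_zero h) (hLi i') (hyi i')
    exact (h3.mono (sdiff_subset.trans h4) h5)

lemma stops_V (hb : 2 ≤ b) (D : CellOK b q E θ G n y0 Amp) {L : ι → ℕ} {y : ι → ℤ}
    (hL : L ∈ Lev n) (hy : y ∈ Num b n y0 L) (ω : Finset α) :
    Stops b n D.bad L y ω ↔ Stops b n D.bad L y (ω \ D.V L y) := by
  have key : ∀ i l, 0 < l → L i ≤ l → l ≤ n i → (D.bad i l (y i / b ^ (l - L i)) ω ↔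
      D.bad i l (y i / b ^ (l - L i)) (ω \ D.V L y)) := by
    intro i l h0 h1 h2
    have hpar : y i / b ^ (l - L i) ∈ dy b (n i - l) (y0 i) := by
      have h3 := dy_par hb (l := l - L i) (n := n i - L i) (by omega) (mem_Num.1 hy i)
      have e : n i - L i - (l - L i) = n i - l := by omega
      rwa [e] at h3
    have hd := D.V_disj hb hL hy h0 h1 h2
    rw [D.loc i l _ ω h0 h2 hpar, D.loc i l _ (ω \ D.V L y) h0 h2 hpar]
    have e : ω \ D.V L y ∩ (D.Out i l (y i / b ^ (l - L i)) \ D.In i l (y i / b ^ (l - L i))) =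
        ω ∩ (D.Out i l (y i / b ^ (l - L i)) \ D.In i l (y i / b ^ (l - L i))) := by
      ext x
      rw [mem_inter, mem_inter, mem_sdiff (s := ω)]
      exact ⟨fun h => ⟨h.1.1, h.2⟩, fun h => ⟨⟨h.1, disjoint_left.1 hd h.2⟩, h.2⟩⟩
    rw [e]
  unfold Stops Stop
  refine forall_congr' fun i => ?_
  have hLi := mem_Lev.1 hL i
  refine and_congr ?_ ?_
  · by_cases h0 : L i = 0
    · simp [h0]
    · have h1 := key i (L i) (Nat.pos_of_ne_zero h0) le_rfl hLi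
      rw [Nat.sub_self, pow_zero, Int.ediv_one] at h1
      rw [h1]
  · refine forall_congr' fun l' => forall_congr' fun h1 => forall_congr' fun h2 => ?_
    exact key i l' (by omega) h1.le h2

/-- **Bound of a cell.** -/
theorem bound (hb : 2 ≤ b) (hq : Pb q) (hθ : 0 ≤ θ) (hθ2 : cr b * θ ^ (2 / 5 : ℝ) ≤ 1 / 2)
    {f g : Finset α → ℝ} (hf : ∀ ω, ω ⊆ E → 0 ≤ f ω) (hg : ∀ ω, ω ⊆ E → 0 ≤ g ω)
    (D : CellOK b q E θ (fun ω => f ω * g ω) n y0 Amp) :
    ‖∑ x ∈ Bo b n y0, Ec (fun e => (q e : ℂ)) E (Amp x)‖ ≤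
      (∏ i, cr ((b : ℝ) ^ n i) ^ 2) * ((3 * cr b) ^ Fintype.card ι *
        ((Ex q E (fun ω => f ω ^ 2)) ^ (1 / 2 : ℝ) * (Ex q E (fun ω => g ω ^ 10)) ^ (1 / 10 : ℝ))) := by
  classical
  refine cell_bound hb hq (U := fun i l y => D.Out i l y \ D.In i l y) (bad := D.bad) hθ hθ2
    ?_ ?_ ?_ ?_ D.prob hf hg Amp ?_
  · intro i l y h0 h1 h2
    exact sdiff_subset.trans ((D.out_top hb h0 h1.le h2).trans (D.top i (by omega)))
  · intro i l y ω h0 h1 h2
    exact D.loc i l y ω h0 h1.le h2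
  · intro i l l' y h0 h1 h2 h3
    have h4 := D.nest i l l' y h0 h1 h2.le h3
    refine disjoint_left.2 fun x hx hx' => ?_
    exact (mem_sdiff.1 hx').2 (h4 (mem_sdiff.1 hx).1)
  · intro i i' l l' y y' hi h0 h1 h2 h3 h4 h5
    exact (D.disj i i' hi (by omega) (by omega)).mono
      (sdiff_subset.trans (D.out_top hb h0 h1.le h4)) (sdiff_subset.trans (D.out_top hb h2 h3.le h5))
  · intro L hL y hy
    refine Ec_ite_split hq (D.V_sub hb hL hy) (Stops b n D.bad L y) (D.stops_V hb hL hy)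
      (fun ω => ∑ x ∈ Bo b L y, Amp x ω) ?_
    intro ω hω hs
    exact D.amp L hL y hy ω hω hs

end CellOK

end Pool.Agent.Q1.M6b.Gd
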