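import Pool.Agent.Q1.M6b.CellSum

set_option autoImplicit false
open Finset

/-! Sums over the sets of `m` columns of a row with a marked point inside: reduction to the Whitney cells.
The row has the columns `-N₁, ..., -1` (left of the marked point) and `0, ..., N₂ - 1` (right of it). -/

namespace Pool.Agent.Q1.M6b

variable {m : ℕ}

/-- the cells of the increasing `m`-tuples in `[0, N)` -/
noncomputable def cells (b K : ℤ) (S m N : ℕ) : Finset (Fin m → ℕ × ℤ) := by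
  classical
  exact (inc m (N : ℤ)).image (key b K {-1, (N : ℤ)} S)

/-- the weight of a cell: the product of the `2/3`-powers of the lengths of the windows -/
noncomputable def wt (b : ℤ) (k : Fin m → ℕ × ℤ) : ℝ := ∏ i, cr ((b : ℝ) ^ (k i).1) ^ 2

lemma sum_inc {A : Type*} [AddCommMonoid A] {b K : ℤ} (hb : 2 ≤ b) (hK : 1 ≤ K) {N S : ℕ}
    (f : (Fin m → ℤ) → A) :
    ∑ j ∈ inc m (N : ℤ), f j = ∑ k ∈ cells b K S m N, ∑ j ∈ cell b k, f j := by
  classical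
  unfold cells
  exact sum_cells hb hK _ (inc_cells hb hK) f

lemma wt_nonneg (b : ℤ) (k : Fin m → ℕ × ℤ) : 0 ≤ wt b k :=
  prod_nonneg fun i _ => by positivity

/-- the constant -/
noncomputable def Cc (b K : ℤ) : ℝ := cr ((K + 1) * b : ℝ) * 6

lemma Cc_nonneg {b K : ℤ} (hb : 2 ≤ b) (hK : 1 ≤ K) : 0 ≤ Cc b K := by
  have hbR : (2 : ℝ) ≤ (b : ℝ) := by exact_mod_cast hb
  have hKR : (1 : ℝ) ≤ (K : ℝ) := by exact_mod_cast hK
  unfold Cc
  exact mul_nonneg (cr_nonneg (by positivity)) (by norm_num)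

theorem sum_wt {b K : ℤ} (hb : 2 ≤ b) (hK : 1 ≤ K) {N S : ℕ}
    (hS : ((N + 1 : ℕ) : ℝ) ≤ (K + 1) * b * (b : ℝ) ^ S) :
    ∑ k ∈ cells b K S m N, wt b k ≤ Cc b K ^ m * (cr ((N + 1 : ℕ) : ℝ) ^ 2) ^ m := by
  classical
  have h := cells_bound (m := m) hb hK (N := N) (S := S) (D := (K + 1) * b) hS le_rfl
  unfold cells wt
  refine h.trans (le_of_eq ?_)
  have hN : (0 : ℝ) < ((N + 1 : ℕ) : ℝ) := by positivity
  have hc := cr_pos hN
  have hcc : ((N + 1 : ℕ) : ℝ) = cr ((N + 1 : ℕ) : ℝ) ^ 3 := (cr_cube hN.le).symm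
  set c := cr ((N + 1 : ℕ) : ℝ) with hcdef
  rw [← mul_pow, ← mul_pow, ← mul_pow]
  congr 1
  unfold Cc
  rw [hcc]
  field_simp
  ring

/-- two tuples -/
theorem sum_two {m₁ m₂ : ℕ} {b K : ℤ} (hb : 2 ≤ b) (hK : 1 ≤ K) {N₁ N₂ S : ℕ}
    (h₁ : ((N₁ + 1 : ℕ) : ℝ) ≤ (K + 1) * b * (b : ℝ) ^ S)
    (h₂ : ((N₂ + 1 : ℕ) : ℝ) ≤ (K + 1) * b * (b : ℝ) ^ S) {T : ℝ} (hT : 0 ≤ T)
    (A : (Fin m₁ → ℤ) → (Fin m₂ → ℤ) → ℂ)
    (hA : ∀ k₁ ∈ cells b K S m₁ N₁, ∀ k₂ ∈ cells b K S m₂ N₂,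
      ‖∑ j₁ ∈ cell b k₁, ∑ j₂ ∈ cell b k₂, A j₁ j₂‖ ≤ T * (wt b k₁ * wt b k₂)) :
    ‖∑ j₁ ∈ inc m₁ (N₁ : ℤ), ∑ j₂ ∈ inc m₂ (N₂ : ℤ), A j₁ j₂‖ ≤
      T * (Cc b K ^ (m₁ + m₂) * ((cr ((N₁ + 1 : ℕ) : ℝ) ^ 2) ^ m₁ *
        (cr ((N₂ + 1 : ℕ) : ℝ) ^ 2) ^ m₂)) := by
  classical
  have e1 : ∑ j₁ ∈ inc m₁ (N₁ : ℤ), ∑ j₂ ∈ inc m₂ (N₂ : ℤ), A j₁ j₂ =
      ∑ k₁ ∈ cells b K S m₁ N₁, ∑ k₂ ∈ cells b K S m₂ N₂,
        ∑ j₁ ∈ cell b k₁, ∑ j₂ ∈ cell b k₂, A j₁ j₂ := by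
    rw [sum_inc hb hK (S := S)]
    refine sum_congr rfl fun k₁ _ => ?_
    rw [sum_comm]
    rw [sum_inc hb hK (S := S)]
    refine sum_congr rfl fun k₂ _ => ?_
    rw [sum_comm]
  rw [e1]
  calc _ ≤ ∑ k₁ ∈ cells b K S m₁ N₁, ∑ k₂ ∈ cells b K S m₂ N₂, T * (wt b k₁ * wt b k₂) :=
        (norm_sum_le _ _).trans (sum_le_sum fun k₁ hk₁ => (norm_sum_le _ _).trans
          (sum_le_sum fun k₂ hk₂ => hA k₁ hk₁ k₂ hk₂))
    _ = T * ((∑ k₁ ∈ cells b K S m₁ N₁, wt b k₁) * ∑ k₂ ∈ cells b K S m₂ N₂, wt b k₂) := by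
        rw [sum_mul_sum, mul_sum]
        refine sum_congr rfl fun k₁ _ => ?_
        rw [mul_sum]
    _ ≤ _ := by
        refine mul_le_mul_of_nonneg_left ?_ hT
        have s1 := sum_wt (m := m₁) hb hK h₁
        have s2 := sum_wt (m := m₂) hb hK h₂
        have n1 : 0 ≤ ∑ k₁ ∈ cells b K S m₁ N₁, wt b k₁ :=
          sum_nonneg fun k _ => wt_nonneg b k
        have n2 : 0 ≤ ∑ k₂ ∈ cells b K S m₂ N₂, wt b k₂ :=
          sum_nonneg fun k _ => wt_nonneg b k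
        calc _ ≤ (Cc b K ^ m₁ * (cr ((N₁ + 1 : ℕ) : ℝ) ^ 2) ^ m₁) *
              (Cc b K ^ m₂ * (cr ((N₂ + 1 : ℕ) : ℝ) ^ 2) ^ m₂) :=
              mul_le_mul s1 s2 n2 (n1.trans s1)
          _ = _ := by ring

/-- increasing tuples and sets of columns -/
theorem sum_powerset {A : Type*} [AddCommMonoid A] {N m : ℕ} (f : Finset ℤ → A) :
    ∑ s ∈ powersetCard m (Finset.Ico (0 : ℤ) N), f s =
      ∑ j ∈ inc m (N : ℤ), f (univ.image j) := by
  classical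
  symm
  refine sum_bij (fun j _ => univ.image j) ?_ ?_ ?_ (fun _ _ => rfl)
  · intro j hj
    obtain ⟨h1, h2⟩ := mem_inc.1 hj
    rw [mem_powersetCard]
    refine ⟨fun x hx => ?_, ?_⟩
    · obtain ⟨i, _, rfl⟩ := mem_image.1 hx
      exact Finset.mem_Ico.2 (h1 i)
    · rw [card_image_of_injective _ h2.injective]; simp
  · intro j hj j' hj' h
    obtain ⟨_, h2⟩ := mem_inc.1 hj
    obtain ⟨_, h2'⟩ := mem_inc.1 hj'
    have hc : (univ.image j).card = m := by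
      rw [card_image_of_injective _ h2.injective]; simp
    have e1 := Finset.orderEmbOfFin_unique hc (f := j) (fun x => mem_image_of_mem _ (mem_univ _)) h2
    have e2 := Finset.orderEmbOfFin_unique hc (f := j')
      (fun x => by rw [h]; exact mem_image_of_mem _ (mem_univ _)) h2'
    rw [e1, e2]
  · intro s hs
    rw [mem_powersetCard] at hs
    refine ⟨s.orderEmbOfFin hs.2, mem_inc.2 ⟨fun i => ?_, (s.orderEmbOfFin hs.2).strictMono⟩, ?_⟩
    · exact Finset.mem_Ico.1 (hs.1 (s.orderEmbOfFin_mem hs.2 i))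
    · ext x
      rw [mem_image]
      constructor
      · rintro ⟨i, _, rfl⟩; exact s.orderEmbOfFin_mem hs.2 i
      · intro hx
        have : x ∈ Set.range (s.orderEmbOfFin hs.2) := by
          rw [Finset.range_orderEmbOfFin]; exact hx
        obtain ⟨i, hi⟩ := this
        exact ⟨i, mem_univ _, hi⟩

/-- the set of columns of two tuples: the left one is counted from the marked point to the left -/
noncomputable def cols {m₁ m₂ : ℕ} (j₁ : Fin m₁ → ℤ) (j₂ : Fin m₂ → ℤ) : Finset ℤ := by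
  classical
  exact univ.image (fun i => -1 - j₁ i) ∪ univ.image j₂

theorem sum_split {A : Type*} [AddCommMonoid A] {N₁ N₂ m : ℕ} (f : Finset ℤ → A) :
    ∑ s ∈ powersetCard m (Finset.Ico (-(N₁ : ℤ)) N₂), f s =
      ∑ p ∈ antidiagonal m, ∑ j₁ ∈ inc p.1 (N₁ : ℤ), ∑ j₂ ∈ inc p.2 (N₂ : ℤ), f (cols j₁ j₂) := by
  classical
  -- right-hand side as a sum over pairs of sets
  have e1 : ∀ p : ℕ × ℕ, ∑ j₁ ∈ inc p.1 (N₁ : ℤ), ∑ j₂ ∈ inc p.2 (N₂ : ℤ), f (cols j₁ j₂) =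
      ∑ s₁ ∈ powersetCard p.1 (Finset.Ico (0 : ℤ) N₁), ∑ s₂ ∈ powersetCard p.2 (Finset.Ico (0 : ℤ) N₂),
        f (s₁.image (fun x => -1 - x) ∪ s₂) := by
    intro p
    rw [sum_powerset]
    refine sum_congr rfl fun j₁ _ => ?_
    rw [sum_powerset]
    refine sum_congr rfl fun j₂ _ => ?_
    unfold cols
    rw [image_image]
    rfl
  simp only [e1]
  simp only [← sum_product']
  rw [sum_sigma']
  symm
  refine sum_bij (fun q _ => q.2.1.image (fun x => -1 - x) ∪ q.2.2) ?_ ?_ ?_ (fun _ _ => rfl)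
  · rintro ⟨p, s₁, s₂⟩ h
    simp only [mem_sigma, mem_product, mem_powersetCard, HasAntidiagonal.mem_antidiagonal] at h ⊢
    obtain ⟨hp, ⟨h1, h2⟩, h3, h4⟩ := h
    refine ⟨?_, ?_⟩
    · intro x hx
      rw [Finset.mem_Ico]
      rcases mem_union.1 hx with hx | hx
      · obtain ⟨y, hy, rfl⟩ := mem_image.1 hx
        have := Finset.mem_Ico.1 (h1 hy)
        omega
      · have := Finset.mem_Ico.1 (h3 hx)
        omega
    · rw [card_union_of_disjoint, card_image_of_injective, h2, h4, hp]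
      · intro a b h; simpa using h
      · rw [disjoint_left]
        intro x hx hx'
        obtain ⟨y, hy, rfl⟩ := mem_image.1 hx
        have := Finset.mem_Ico.1 (h1 hy)
        have := Finset.mem_Ico.1 (h3 hx')
        omega
  · rintro ⟨p, s₁, s₂⟩ h ⟨p', s₁', s₂'⟩ h' heq
    simp only [mem_sigma, mem_product, mem_powersetCard, HasAntidiagonal.mem_antidiagonal] at h h' heq
    obtain ⟨hp, ⟨h1, h2⟩, h3, h4⟩ := h
    obtain ⟨hp', ⟨h1', h2'⟩, h3', h4'⟩ := h'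
    have k1 : s₁ = s₁' := by
      ext x
      have hx := Finset.ext_iff.1 heq (-1 - x)
      simp only [mem_union, mem_image] at hx
      constructor
      · intro hxs
        have hr := Finset.mem_Ico.1 (h1 hxs)
        rcases hx.1 (Or.inl ⟨x, hxs, rfl⟩) with ⟨y, hy, hyx⟩ | hy
        · have : y = x := by omega
          exact this ▸ hy
        · have := Finset.mem_Ico.1 (h3' hy); omega
      · intro hxs
        have hr := Finset.mem_Ico.1 (h1' hxs)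
        rcases hx.2 (Or.inl ⟨x, hxs, rfl⟩) with ⟨y, hy, hyx⟩ | hy
        · have : y = x := by omega
          exact this ▸ hy
        · have := Finset.mem_Ico.1 (h3 hy); omega
    have k2 : s₂ = s₂' := by
      ext x
      have hx := Finset.ext_iff.1 heq x
      simp only [mem_union, mem_image] at hx
      constructor
      · intro hxs
        have hr := Finset.mem_Ico.1 (h3 hxs)
        rcases hx.1 (Or.inr hxs) with ⟨y, hy, hyx⟩ | hy
        · have := Finset.mem_Ico.1 (h1' hy); omega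
        · exact hy
      · intro hxs
        have hr := Finset.mem_Ico.1 (h3' hxs)
        rcases hx.2 (Or.inr hxs) with ⟨y, hy, hyx⟩ | hy
        · have := Finset.mem_Ico.1 (h1 hy); omega
        · exact hy
    subst k1 k2
    have k3 : p = p' := by
      ext
      · rw [← h2, ← h2']
      · rw [← h4, ← h4']
    subst k3
    rfl
  · intro s hs
    rw [mem_powersetCard] at hs
    set s₁ := (s.filter (fun x => x < 0)).image (fun x => -1 - x) with hs₁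
    set s₂ := s.filter (fun x => 0 ≤ x) with hs₂
    have hu : s₁.image (fun x => -1 - x) ∪ s₂ = s := by
      ext x
      simp only [hs₁, hs₂, mem_union, mem_image, mem_filter]
      constructor
      · rintro (⟨y, ⟨z, hz, rfl⟩, rfl⟩ | h)
        · have : -1 - (-1 - z) = z := by ring
          rw [this]; exact hz.1
        · exact h.1
      · intro hx
        by_cases h0 : x < 0
        · exact Or.inl ⟨-1 - x, ⟨x, ⟨hx, h0⟩, rfl⟩, by ring⟩
        · exact Or.inr ⟨hx, by omega⟩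
    refine ⟨⟨(s₁.card, s₂.card), s₁, s₂⟩, ?_, hu⟩
    simp only [mem_sigma, mem_product, mem_powersetCard, HasAntidiagonal.mem_antidiagonal]
    refine ⟨?_, ⟨?_, trivial⟩, ?_, trivial⟩
    · rw [hs₁, hs₂, card_image_of_injective _ (fun a b h => by simpa using h)]
      have := Finset.card_filter_add_card_filter_not (s := s) (fun x : ℤ => x < 0)
      have e : s.filter (fun x : ℤ => 0 ≤ x) = s.filter (fun x : ℤ => ¬ x < 0) := by
        refine filter_congr fun x _ => ?_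
        omega
      rw [e, ← hs.2]
      exact this
    · intro x hx
      simp only [hs₁, mem_image, mem_filter] at hx
      obtain ⟨y, ⟨hy, hy0⟩, rfl⟩ := hx
      have := Finset.mem_Ico.1 (hs.1 hy)
      rw [Finset.mem_Ico]; omega
    · intro x hx
      simp only [hs₂, mem_filter] at hx
      have := Finset.mem_Ico.1 (hs.1 hx.1)
      rw [Finset.mem_Ico]; omega

/-- **Sum over all sets of `m` columns.** If the sum over every pair of cells is at most `T` times the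
product of the `2/3`-powers of the lengths of the windows, then the sum over all `m`-sets of columns is at
most `(m + 1) T C ^ m N ^ (2 m / 3)`. -/
theorem sum_sets {m : ℕ} {b K : ℤ} (hb : 2 ≤ b) (hK : 1 ≤ K) {N₁ N₂ N S : ℕ}
    (h₁ : N₁ ≤ N) (h₂ : N₂ ≤ N)
    (hS : ((N + 1 : ℕ) : ℝ) ≤ (K + 1) * b * (b : ℝ) ^ S) {T : ℝ} (hT : 0 ≤ T)
    (f : Finset ℤ → ℂ)
    (hA : ∀ p ∈ antidiagonal m, ∀ k₁ ∈ cells b K S p.1 N₁, ∀ k₂ ∈ cells b K S p.2 N₂,
      ‖∑ j₁ ∈ cell b k₁, ∑ j₂ ∈ cell b k₂, f (cols j₁ j₂)‖ ≤ T * (wt b k₁ * wt b k₂)) :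
    ‖∑ s ∈ powersetCard m (Finset.Ico (-(N₁ : ℤ)) N₂), f s‖ ≤
      (m + 1) * (T * (Cc b K * cr ((N + 1 : ℕ) : ℝ) ^ 2) ^ m) := by
  classical
  rw [sum_split]
  have hC := Cc_nonneg hb hK
  have main : ∀ p ∈ antidiagonal m, ‖∑ j₁ ∈ inc p.1 (N₁ : ℤ), ∑ j₂ ∈ inc p.2 (N₂ : ℤ),
      f (cols j₁ j₂)‖ ≤ T * (Cc b K * cr ((N + 1 : ℕ) : ℝ) ^ 2) ^ m := by
    intro p hp
    have hpm : p.1 + p.2 = m := mem_antidiagonal.1 hp
    have hN1 : ((N₁ + 1 : ℕ) : ℝ) ≤ ((N + 1 : ℕ) : ℝ) := by exact_mod_cast by omega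
    have hN2 : ((N₂ + 1 : ℕ) : ℝ) ≤ ((N + 1 : ℕ) : ℝ) := by exact_mod_cast by omega
    refine (sum_two hb hK (hN1.trans hS) (hN2.trans hS) hT (fun j₁ j₂ => f (cols j₁ j₂))
      (hA p hp)).trans ?_
    refine mul_le_mul_of_nonneg_left ?_ hT
    rw [hpm]
    set c := cr ((N + 1 : ℕ) : ℝ) with hc
    have hc0 : 0 ≤ c := cr_nonneg (by positivity)
    have c1 : cr ((N₁ + 1 : ℕ) : ℝ) ≤ c := cr_mono (by positivity) hN1
    have c2 : cr ((N₂ + 1 : ℕ) : ℝ) ≤ c := cr_mono (by positivity) hN2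
    have d1 : 0 ≤ cr ((N₁ + 1 : ℕ) : ℝ) := cr_nonneg (by positivity)
    have d2 : 0 ≤ cr ((N₂ + 1 : ℕ) : ℝ) := cr_nonneg (by positivity)
    calc Cc b K ^ m * ((cr ((N₁ + 1 : ℕ) : ℝ) ^ 2) ^ p.1 * (cr ((N₂ + 1 : ℕ) : ℝ) ^ 2) ^ p.2)
        ≤ Cc b K ^ m * ((c ^ 2) ^ p.1 * (c ^ 2) ^ p.2) := by gcongr
      _ = (Cc b K * c ^ 2) ^ m := by rw [← pow_add, hpm, mul_pow]
  calc _ ≤ ∑ p ∈ antidiagonal m, T * (Cc b K * cr ((N + 1 : ℕ) : ℝ) ^ 2) ^ m :=
        (norm_sum_le _ _).trans (sum_le_sum main)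
    _ = _ := by
        rw [sum_const, Nat.card_antidiagonal, nsmul_eq_mul]
        push_cast
        ring

end Pool.Agent.Q1.M6b
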