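import Mathlib
import Pool.Agent.Q1.M6b.Assem
import Pool.Agent.Q1.M6b.Pos

set_option autoImplicit false
open Finset

/-! The sum over all sets of `m` columns. -/

namespace Pool.Agent.Q1.M6b.Gd

open Pool.Agent.H75.Perc Pool.Agent.H99.NC

set_option linter.unusedSectionVars false

variable {α : Type*} [DecidableEq α]

/-- levels of the windows of a pair of cells -/
def lv2 {m₁ m₂ : ℕ} (k₁ : Fin m₁ → ℕ × ℤ) (k₂ : Fin m₂ → ℕ × ℤ) : Fin m₁ ⊕ Fin m₂ → ℕ :=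
  Sum.elim (fun i => (k₁ i).1) (fun i => (k₂ i).1)

/-- numbers of the windows of a pair of cells -/
def nu2 {m₁ m₂ : ℕ} (k₁ : Fin m₁ → ℕ × ℤ) (k₂ : Fin m₂ → ℕ × ℤ) : Fin m₁ ⊕ Fin m₂ → ℤ :=
  Sum.elim (fun i => (k₁ i).2) (fun i => (k₂ i).2)

/-- the columns of a joint tuple -/
noncomputable def cols2 {m₁ m₂ : ℕ} (x : Fin m₁ ⊕ Fin m₂ → ℤ) : Finset ℤ :=
  cols (fun i => x (Sum.inl i)) (fun i => x (Sum.inr i))

lemma sum_two_cells {A : Type*} [AddCommMonoid A] {m₁ m₂ : ℕ} {b : ℤ} (k₁ : Fin m₁ → ℕ × ℤ)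
    (k₂ : Fin m₂ → ℕ × ℤ) (f : Finset ℤ → A) :
    ∑ j₁ ∈ cell b k₁, ∑ j₂ ∈ cell b k₂, f (cols j₁ j₂) =
      ∑ x ∈ Bo b (lv2 k₁ k₂) (nu2 k₁ k₂), f (cols2 x) := by
  rw [← sum_product']
  refine sum_bij (fun p _ => Sum.elim p.1 p.2) ?_ ?_ ?_ ?_
  · rintro ⟨j₁, j₂⟩ h
    rw [mem_product] at h
    unfold cell at h
    rw [Fintype.mem_piFinset, Fintype.mem_piFinset] at h
    rw [mem_Bo]
    rintro (i | i)
    · exact h.1 i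
    · exact h.2 i
  · rintro ⟨j₁, j₂⟩ _ ⟨j₁', j₂'⟩ _ h
    simp only at h
    have h1 : j₁ = j₁' := funext fun i => congrFun h (Sum.inl i)
    have h2 : j₂ = j₂' := funext fun i => congrFun h (Sum.inr i)
    rw [h1, h2]
  · intro x hx
    rw [mem_Bo] at hx
    refine ⟨(fun i => x (Sum.inl i), fun i => x (Sum.inr i)), ?_, ?_⟩
    · rw [mem_product]
      unfold cell
      rw [Fintype.mem_piFinset, Fintype.mem_piFinset]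
      exact ⟨fun i => hx (Sum.inl i), fun i => hx (Sum.inr i)⟩
    · funext i
      rcases i with i | i <;> rfl
  · rintro ⟨j₁, j₂⟩ _
    rfl

lemma wt_two {m₁ m₂ : ℕ} {b : ℤ} (k₁ : Fin m₁ → ℕ × ℤ) (k₂ : Fin m₂ → ℕ × ℤ) :
    ∏ i, cr ((b : ℝ) ^ lv2 k₁ k₂ i) ^ 2 = wt b k₁ * wt b k₂ := by
  rw [Fintype.prod_sum_type]
  rfl

/-- **The sum over all `m`-sets of columns.** If for every pair of cells the data `CellOK` exist, then the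
sum of the expectations of the amplitudes over all `m`-sets of columns is at most
`C N ^ (2 m / 3) (E f ^ 2) ^ (1 / 2) (E g ^ 10) ^ (1 / 10)`. -/
theorem total_bound {m : ℕ} {b K : ℤ} (hb : 2 ≤ b) (hK : 1 ≤ K) {q : α → ℝ} (hq : Pb q)
    {E : Finset α} {N₁ N₂ N S : ℕ} (h₁ : N₁ ≤ N) (h₂ : N₂ ≤ N)
    (hS : ((N + 1 : ℕ) : ℝ) ≤ (K + 1) * b * (b : ℝ) ^ S) {θ : ℝ} (hθ : 0 ≤ θ)
    (hθ2 : cr b * θ ^ (2 / 5 : ℝ) ≤ 1 / 2) {f g : Finset α → ℝ} (hf : ∀ ω, ω ⊆ E → 0 ≤ f ω)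
    (hg : ∀ ω, ω ⊆ E → 0 ≤ g ω) (Amp : Finset ℤ → Finset α → ℂ)
    (H : ∀ p ∈ antidiagonal m, ∀ k₁ ∈ cells b K S p.1 N₁, ∀ k₂ ∈ cells b K S p.2 N₂,
      Nonempty (CellOK b q E θ (fun ω => f ω * g ω) (lv2 k₁ k₂) (nu2 k₁ k₂)
        (fun x ω => Amp (cols2 x) ω))) :
    ‖∑ s ∈ powersetCard m (Finset.Ico (-(N₁ : ℤ)) N₂), Ec (fun e => (q e : ℂ)) E (Amp s)‖ ≤
      (m + 1) * ((3 * cr b) ^ m * ((Ex q E (fun ω => f ω ^ 2)) ^ (1 / 2 : ℝ) *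
        (Ex q E (fun ω => g ω ^ 10)) ^ (1 / 10 : ℝ)) * (Cc b K * cr ((N + 1 : ℕ) : ℝ) ^ 2) ^ m) := by
  classical
  have n1 : 0 ≤ (Ex q E (fun ω => f ω ^ 2)) ^ (1 / 2 : ℝ) :=
    Real.rpow_nonneg (Ex_nonneg hq fun ω h => pow_nonneg (hf ω h) 2) _
  have n2 : 0 ≤ (Ex q E (fun ω => g ω ^ 10)) ^ (1 / 10 : ℝ) :=
    Real.rpow_nonneg (Ex_nonneg hq fun ω h => pow_nonneg (hg ω h) 10) _
  have hc : 0 ≤ cr (b : ℝ) := cr_nonneg (by exact_mod_cast (by omega : (0 : ℤ) ≤ b))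
  refine sum_sets hb hK h₁ h₂ hS (mul_nonneg (pow_nonneg (mul_nonneg (by norm_num) hc) _)
    (mul_nonneg n1 n2)) _ ?_
  intro p hp k₁ hk₁ k₂ hk₂
  obtain ⟨D⟩ := H p hp k₁ hk₁ k₂ hk₂
  rw [sum_two_cells k₁ k₂ (fun s => Ec (fun e => (q e : ℂ)) E (Amp s)), ← wt_two]
  have h := D.bound hb hq hθ hθ2 hf hg
  have hcard : Fintype.card (Fin p.1 ⊕ Fin p.2) = m := by
    rw [Fintype.card_sum, Fintype.card_fin, Fintype.card_fin]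
    exact mem_antidiagonal.1 hp
  rw [hcard] at h
  refine h.trans (le_of_eq ?_)
  ring

end Pool.Agent.Q1.M6b.Gd
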