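import Mathlib
import Pool.Agent.Q1.M6b.Total
import Pool.Agent.H47.NC.Basic

set_option autoImplicit false
open Finset

/-! The boxes of the intervals of columns of a straight row. `z j` is the position of the column `j` (label
coordinates, sup distance `|j - j'|` between the columns `j` and `j'`). -/

namespace Pool.Agent.Q1.M6b.Gd

open Pool.Agent.H75.Perc Pool.Agent.H99.NC Pool.Agent.H47.NC

set_option linter.unusedSectionVars false

/-- vertex next to the position `z` -/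
def ctr (z : ℤ × ℤ) : ℤ × ℤ := (z.1 / 2, z.2 / 2)

/-- inner box of the interval `(l, y)` -/
noncomputable def InB (b : ℤ) (z : ℤ → ℤ × ℤ) (l : ℕ) (y : ℤ) : Finset (ℤ × ℤ) :=
  Bq (ctr (z (b ^ l * y))) (4 * b ^ l)

/-- outer box of the interval `(l, y)` -/
noncomputable def OutB (b : ℤ) (z : ℤ → ℤ × ℤ) (l : ℕ) (y : ℤ) : Finset (ℤ × ℤ) :=
  Bq (ctr (z (b ^ l * y))) (b ^ (l + 1) + 1)

/-- sup distance at most `d` -/
def Nr (d : ℤ) (u v : ℤ × ℤ) : Prop := |u.1 - v.1| ≤ d ∧ |u.2 - v.2| ≤ d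

/-- the positions are isometric -/
structure Iso (z : ℤ → ℤ × ℤ) : Prop where
  le : ∀ j j', Nr |j - j'| (z j) (z j')
  ge : ∀ j j' d, Nr d (z j) (z j') → |j - j'| ≤ d

lemma Iso.refl {z : ℤ → ℤ × ℤ} (h : Iso z) : Iso (fun j => z (-1 - j)) := by
  constructor
  · intro j j'
    have := h.le (-1 - j) (-1 - j')
    rwa [show -1 - j - (-1 - j') = -(j - j') by ring, abs_neg] at this
  · intro j j' d h1
    have := h.ge _ _ _ h1
    rwa [show -1 - j - (-1 - j') = -(j - j') by ring, abs_neg] at this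

/-- the box of radius `R` around the position `z` contains all the labels at distance `≤ 2 R - 1` -/
lemma mem_box {z e : ℤ × ℤ} {R d : ℤ} (h : Nr d e z) (he : (e.1 + e.2) % 2 = 1) (hd : d + 1 ≤ 2 * R) :
    e ∈ Bq (ctr z) R := by
  unfold Nr at h
  rw [abs_le, abs_le] at h
  rw [mem_Bq]
  unfold ctr
  simp only
  omega

lemma box_near {z e : ℤ × ℤ} {R : ℤ} (h : e ∈ Bq (ctr z) R) :
    Nr (2 * R + 1) e z ∧ (e.1 + e.2) % 2 = 1 := by
  rw [mem_Bq] at h
  unfold ctr at h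
  simp only at h
  unfold Nr
  rw [abs_le, abs_le]
  omega

lemma in_out_B {b : ℤ} (hb : 4 ≤ b) (z : ℤ → ℤ × ℤ) (l : ℕ) (y : ℤ) : InB b z l y ⊆ OutB b z l y := by
  intro e he
  unfold InB at he
  unfold OutB
  rw [mem_Bq] at *
  have h1 : 4 * b ^ l ≤ b ^ (l + 1) := by
    rw [pow_succ]
    have : 0 < b ^ l := by positivity
    nlinarith
  omega

lemma nest_B {b : ℤ} (hb : 2 ≤ b) {z : ℤ → ℤ × ℤ} (hz : Iso z) {l l' : ℕ} (h : l < l')
    (h0 : 0 < l) (y : ℤ) : OutB b z l y ⊆ InB b z l' (y / b ^ (l' - l)) := by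
  intro e he
  obtain ⟨h1, h2⟩ := box_near he
  have hp : 0 < b ^ l' := by positivity
  have hp2 : b ^ (l + 1) ≤ b ^ l' := pow_le_pow_right₀ (by omega) h
  have hp3 : 4 ≤ b ^ l' := by
    calc (4 : ℤ) = 2 ^ 2 := by norm_num
      _ ≤ b ^ 2 := pow_le_pow_left₀ (by norm_num) hb 2
      _ ≤ b ^ l' := pow_le_pow_right₀ (by omega) (by omega)
  have h3 : |b ^ l * y - b ^ l' * (y / b ^ (l' - l))| ≤ b ^ l' - 1 := by
    have e1 : b ^ l' = b ^ l * b ^ (l' - l) := by rw [← pow_add]; congr 1; omega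
    have e2 := Int.mul_ediv_add_emod y (b ^ (l' - l))
    have e3 := Int.emod_nonneg y (show (b ^ (l' - l)) ≠ 0 by positivity)
    have e4 := Int.emod_lt_of_pos y (show 0 < (b ^ (l' - l)) by positivity)
    have e5 : b ^ l * y - b ^ l' * (y / b ^ (l' - l)) = b ^ l * (y % b ^ (l' - l)) := by
      rw [e1]
      nth_rewrite 1 [← e2]
      ring
    have hl : 0 < b ^ l := by positivity
    rw [e5, abs_of_nonneg (mul_nonneg hl.le e3), e1]
    nlinarith
  have h4 := hz.le (b ^ l * y) (b ^ l' * (y / b ^ (l' - l)))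
  unfold InB
  refine mem_box (d := 2 * (b ^ (l + 1) + 1) + 1 + (b ^ l' - 1)) ?_ h2 (by linarith)
  unfold Nr at *
  constructor
  · have := abs_sub_le e.1 (z (b ^ l * y)).1 (z (b ^ l' * (y / b ^ (l' - l)))).1
    linarith [h1.1, h4.1]
  · have := abs_sub_le e.2 (z (b ^ l * y)).2 (z (b ^ l' * (y / b ^ (l' - l)))).2
    linarith [h1.2, h4.2]

lemma disj_B {z z' : ℤ × ℤ} {R R' d : ℤ} (h : ∀ d', Nr d' z z' → d ≤ d') (hd : 2 * R + 2 * R' + 2 < d) :
    Disjoint (Bq (ctr z) R) (Bq (ctr z') R') := by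
  rw [disjoint_left]
  intro e he he'
  obtain ⟨h1, -⟩ := box_near he
  obtain ⟨h2, -⟩ := box_near he'
  have := h (2 * R + 1 + (2 * R' + 1)) (by
    unfold Nr at *
    constructor
    · have := abs_sub_le z.1 e.1 z'.1
      have h3 := h1.1
      rw [abs_sub_comm] at h3
      linarith [h2.1]
    · have := abs_sub_le z.2 e.2 z'.2
      have h3 := h1.2
      rw [abs_sub_comm] at h3
      linarith [h2.2])
  omega

/-! ### Separation of the windows -/

section cells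

variable {m : ℕ} {b K : ℤ} {S N : ℕ}

lemma cells_key {k : Fin m → ℕ × ℤ} (hk : k ∈ cells b K S m N) :
    ∃ j ∈ inc m (N : ℤ), key b K {-1, (N : ℤ)} S j = k := by
  classical
  unfold cells at hk
  exact mem_image.1 hk

/-- the windows have large distance from the ends of the row -/
lemma cells_ends (hb : 2 ≤ b) (hK : 1 ≤ K) {k : Fin m → ℕ × ℤ} (hk : k ∈ cells b K S m N) {i : Fin m}
    (hi : 0 < (k i).1) : (K - 1) * b ^ (k i).1 ≤ b ^ (k i).1 * (k i).2 ∧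
      b ^ (k i).1 * (k i).2 + K * b ^ (k i).1 ≤ N := by
  obtain ⟨j, hj, rfl⟩ := cells_key hk
  obtain ⟨h1, h2⟩ := mem_inc.1 hj
  have hlev : 0 < lev b K {-1, (N : ℤ)} S j i := hi
  have h3 := key_sep hb hK (Z := {-1, (N : ℤ)}) (S := S) (j := j) (i := i) (by unfold lev at hlev; omega)
  have s1 := h3.2 (-1) (by simp)
  have s2 := h3.2 N (by simp)
  unfold key
  simp only
  unfold Sep at s1 s2
  set n := lev b K {-1, (N : ℤ)} S j i
  have hp : 0 < b ^ n := by positivity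
  have hp1 : 1 ≤ b ^ n := hp
  have e1 : (-1 : ℤ) / b ^ n = -1 := by
    rw [Int.ediv_eq_iff_of_pos hp]; constructor <;> linarith
  have e2 : 0 ≤ j i / b ^ n := Int.ediv_nonneg (h1 i).1 hp.le
  have e3 : j i / b ^ n ≤ N / b ^ n := Int.ediv_le_ediv hp (h1 i).2.le
  rw [e1, abs_of_nonneg (by linarith)] at s1
  rw [abs_sub_comm, abs_of_nonneg (by linarith)] at s2
  have e4 := Int.mul_ediv_self_le (x := (N : ℤ)) hp.ne'
  constructor
  · nlinarith
  · nlinarith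

/-- the windows have large distance from each other -/
lemma cells_sepa (hb : 2 ≤ b) (hK : 1 ≤ K) {k : Fin m → ℕ × ℤ} (hk : k ∈ cells b K S m N) {i i' : Fin m}
    (hne : i ≠ i') (hi : 0 < (k i).1) (hle : (k i').1 ≤ (k i).1) :
    (K - 1) * b ^ (k i).1 ≤ |b ^ (k i).1 * (k i).2 - b ^ (k i').1 * (k i').2| := by
  obtain ⟨j, hj, rfl⟩ := cells_key hk
  have hlev : 0 < lev b K {-1, (N : ℤ)} S j i := hi
  have h3 := key_sep hb hK (Z := {-1, (N : ℤ)}) (S := S) (j := j) (i := i) (by unfold lev at hlev; omega)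
  have s1 := h3.1 i' (Ne.symm hne)
  unfold key at *
  simp only at *
  unfold Sep at s1
  set n := lev b K {-1, (N : ℤ)} S j i
  set n' := lev b K {-1, (N : ℤ)} S j i'
  have hp : 0 < b ^ n := by positivity
  have hp' : 0 < b ^ n' := by positivity
  have hq : 0 < b ^ (n - n') := by positivity
  have e0 : b ^ n = b ^ n' * b ^ (n - n') := by rw [← pow_add]; congr 1; omega
  rw [← div_lev hb hle (j i')] at s1
  set y := j i / b ^ n
  set y' := j i' / b ^ n'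
  have e2 := Int.mul_ediv_add_emod y' (b ^ (n - n'))
  have e3 := Int.emod_nonneg y' hq.ne'
  have e4 := Int.emod_lt_of_pos y' hq
  have e5 : b ^ n' * y' = b ^ n * (y' / b ^ (n - n')) + b ^ n' * (y' % b ^ (n - n')) := by
    rw [e0]
    nth_rewrite 1 [← e2]
    ring
  have e6 : b ^ n' * (y' % b ^ (n - n')) < b ^ n := by rw [e0]; exact mul_lt_mul_of_pos_left e4 hp'
  have e7 : 0 ≤ b ^ n' * (y' % b ^ (n - n')) := mul_nonneg hp'.le e3
  rw [e5]
  rcases le_abs.1 s1 with h | h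
  · refine le_trans ?_ (le_abs_self _)
    nlinarith
  · refine le_trans ?_ (neg_le_abs _)
    nlinarith

end cells

/-! ### The geometric data of a row -/

/-- A straight row with the columns `-N₁, …, N₂ - 1`, whose position is `z`: all labels whose distance from
a column is at most `1 / K0` times the distance of the column from the marked point and from the end of the
row belong to `E`. -/
structure RowGeo (E : Finset (ℤ × ℤ)) (z : ℤ → ℤ × ℤ) (K0 : ℤ) (N₁ N₂ : ℕ) : Prop where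
  iso : Iso z
  right : ∀ j d : ℤ, 0 ≤ j → K0 * d ≤ j + 1 → K0 * d ≤ N₂ - j → ∀ e : ℤ × ℤ, (e.1 + e.2) % 2 = 1 →
    Nr d e (z j) → e ∈ E
  left : ∀ j d : ℤ, 0 ≤ j → K0 * d ≤ j + 1 → K0 * d ≤ N₁ - j → ∀ e : ℤ × ℤ, (e.1 + e.2) % 2 = 1 →
    Nr d e (z (-1 - j)) → e ∈ E

/-- the positions, counted from the marked point -/
def zz {m₁ m₂ : ℕ} (z : ℤ → ℤ × ℤ) : Fin m₁ ⊕ Fin m₂ → ℤ → ℤ × ℤ :=
  Sum.elim (fun _ j => z (-1 - j)) (fun _ => z)

section geo

variable {E : Finset (ℤ × ℤ)} {z : ℤ → ℤ × ℤ} {K0 : ℤ} {N₁ N₂ : ℕ}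

lemma RowGeo.zz_iso (h : RowGeo E z K0 N₁ N₂) {m₁ m₂ : ℕ} (i : Fin m₁ ⊕ Fin m₂) : Iso (zz z i) := by
  rcases i with i | i
  · exact h.iso.refl
  · exact h.iso

/-- the outer boxes of the windows consist of random labels -/
lemma RowGeo.top {b K : ℤ} {S : ℕ} (hb : 2 ≤ b) (h : RowGeo E z K0 N₁ N₂) (hK0 : 1 ≤ K0)
    (hK : K0 * (2 * b + 2) + 1 ≤ K) {m₁ m₂ : ℕ} {k₁ : Fin m₁ → ℕ × ℤ} {k₂ : Fin m₂ → ℕ × ℤ}
    (hk₁ : k₁ ∈ cells b K S m₁ N₁) (hk₂ : k₂ ∈ cells b K S m₂ N₂) (i : Fin m₁ ⊕ Fin m₂)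
    (hi : 0 < lv2 k₁ k₂ i) : OutB b (zz z i) (lv2 k₁ k₂ i) (nu2 k₁ k₂ i) ⊆ E := by
  have hK1 : 1 ≤ K := by nlinarith
  have key : ∀ {m : ℕ} {k : Fin m → ℕ × ℤ} {N : ℕ}, k ∈ cells b K S m N → ∀ i, 0 < (k i).1 →
      0 ≤ b ^ (k i).1 * (k i).2 ∧
      K0 * (2 * (b ^ ((k i).1 + 1) + 1) + 1) ≤ b ^ (k i).1 * (k i).2 + 1 ∧
      K0 * (2 * (b ^ ((k i).1 + 1) + 1) + 1) ≤ N - b ^ (k i).1 * (k i).2 := by
    intro m k N hk i hi
    obtain ⟨h1, h2⟩ := cells_ends hb hK1 hk hi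
    have hp : 0 < b ^ (k i).1 := by positivity
    have hp2 : b ≤ b ^ (k i).1 := by
      calc b = b ^ 1 := (pow_one b).symm
        _ ≤ b ^ (k i).1 := pow_le_pow_right₀ (by omega) hi
    have h3 : K0 * (2 * (b ^ ((k i).1 + 1) + 1) + 1) ≤ (K - 1) * b ^ (k i).1 := by
      have h4 : K0 * (2 * b + 2) * b ^ (k i).1 ≤ (K - 1) * b ^ (k i).1 :=
        mul_le_mul_of_nonneg_right (by linarith) hp.le
      refine le_trans ?_ h4
      rw [pow_succ]
      have h5 : 2 * (b ^ (k i).1 * b + 1) + 1 ≤ (2 * b + 2) * b ^ (k i).1 := by nlinarith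
      calc _ ≤ K0 * ((2 * b + 2) * b ^ (k i).1) := mul_le_mul_of_nonneg_left h5 (by omega)
        _ = _ := by ring
    have h6 : 0 ≤ (K - 1) * b ^ (k i).1 := mul_nonneg (by omega) hp.le
    refine ⟨h6.trans h1, by linarith, by nlinarith⟩
  intro e he
  obtain ⟨h1, h2⟩ := box_near he
  rcases i with i | i
  · obtain ⟨g1, g2, g3⟩ := key hk₁ i hi
    exact h.left _ _ g1 g2 g3 e h2 h1
  · obtain ⟨g1, g2, g3⟩ := key hk₂ i hi
    exact h.right _ _ g1 g2 g3 e h2 h1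

/-- the outer boxes of different windows are disjoint -/
lemma RowGeo.disj {b K : ℤ} {S : ℕ} (hb : 2 ≤ b) (h : RowGeo E z K0 N₁ N₂)
    (hK : 4 * b + 8 ≤ K) {m₁ m₂ : ℕ} {k₁ : Fin m₁ → ℕ × ℤ} {k₂ : Fin m₂ → ℕ × ℤ}
    (hk₁ : k₁ ∈ cells b K S m₁ N₁) (hk₂ : k₂ ∈ cells b K S m₂ N₂) (i i' : Fin m₁ ⊕ Fin m₂) (hne : i ≠ i')
    (hi : 0 < lv2 k₁ k₂ i) (hi' : 0 < lv2 k₁ k₂ i') :
    Disjoint (OutB b (zz z i) (lv2 k₁ k₂ i) (nu2 k₁ k₂ i))
      (OutB b (zz z i') (lv2 k₁ k₂ i') (nu2 k₁ k₂ i')) := by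
  have hK1 : 1 ≤ K := by omega
  -- one side
  have side : ∀ {m : ℕ} {k : Fin m → ℕ × ℤ} {N : ℕ} {w : ℤ → ℤ × ℤ}, Iso w → k ∈ cells b K S m N →
      ∀ i i', i ≠ i' → 0 < (k i).1 → (k i').1 ≤ (k i).1 →
      Disjoint (OutB b w (k i).1 (k i).2) (OutB b w (k i').1 (k i').2) := by
    intro m k N w hw hk i i' hne hi hle
    have h1 := cells_sepa hb hK1 hk hne hi hle
    unfold OutB
    refine disj_B (fun d' hd' => hw.ge _ _ _ hd') ?_
    refine lt_of_lt_of_le ?_ h1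
    have hp : 1 ≤ b ^ (k i).1 := by
      have : 0 < b ^ (k i).1 := by positivity
      omega
    have hp' : b ^ ((k i').1 + 1) ≤ b ^ ((k i).1 + 1) := pow_le_pow_right₀ (by omega) (by omega)
    rw [pow_succ b (k i).1] at hp' ⊢
    nlinarith
  -- the two sides
  have two : ∀ (i : Fin m₁) (i' : Fin m₂), 0 < (k₁ i).1 → 0 < (k₂ i').1 →
      Disjoint (OutB b (fun j => z (-1 - j)) (k₁ i).1 (k₁ i).2) (OutB b z (k₂ i').1 (k₂ i').2) := by
    intro i i' hi hi'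
    obtain ⟨h1, -⟩ := cells_ends hb hK1 hk₁ hi
    obtain ⟨h2, -⟩ := cells_ends hb hK1 hk₂ hi'
    unfold OutB
    refine disj_B (fun d' hd' => h.iso.ge _ _ _ hd') ?_
    have hp : 1 ≤ b ^ (k₁ i).1 := by
      have : 0 < b ^ (k₁ i).1 := by positivity
      omega
    have hp' : 1 ≤ b ^ (k₂ i').1 := by
      have : 0 < b ^ (k₂ i').1 := by positivity
      omega
    rw [abs_sub_comm]
    refine lt_of_lt_of_le ?_ (le_abs_self _)
    rw [pow_succ, pow_succ]
    nlinarith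
  rcases i with i | i <;> rcases i' with i' | i'
  · have hne' : i ≠ i' := fun hh => hne (by rw [hh])
    rcases le_total (k₁ i').1 (k₁ i).1 with hle | hle
    · exact side h.iso.refl hk₁ i i' hne' hi hle
    · exact (side h.iso.refl hk₁ i' i hne'.symm hi' hle).symm
  · exact two i i' hi hi'
  · exact (two i' i hi' hi).symm
  · have hne' : i ≠ i' := fun hh => hne (by rw [hh])
    rcases le_total (k₂ i').1 (k₂ i).1 with hle | hle
    · exact side h.iso hk₂ i i' hne' hi hle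
    · exact (side h.iso hk₂ i' i hne'.symm hi' hle).symm

end geo

end Pool.Agent.Q1.M6b.Gd
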