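import Mathlib
import Pool.Agent.Q1.M6b.Boxes
import Pool.Agent.H65.Four2.Pub

set_option autoImplicit false
open Finset

/-! Bad intervals of a straight row: four arms (in one of the two colours) between the inner and the outer
box. Locality and probability; the bound of the sum over all sets of `m` columns from the bound of the
amplitudes for given stopping intervals. -/

namespace Pool.Agent.Q1.M6b.Gd

open Pool.Agent.H75.Perc Pool.Agent.H99.NC Pool.Agent.H75.TwoArm Pool.Agent.H47.NC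
  Pool.Agent.H65.Four2

set_option linter.unusedSectionVars false

/-- the interval `(l, y)` is bad: four arms between the inner and the outer box -/
def badB (b : ℤ) (z : ℤ → ℤ × ℤ) (E : Finset (ℤ × ℤ)) (l : ℕ) (y : ℤ) (ω : Finset (ℤ × ℤ)) : Prop :=
  Four (ctr (z (b ^ l * y))) (4 * b ^ l + 1) (b ^ (l + 1)) ω ∨
    Four (ctr (z (b ^ l * y))) (4 * b ^ l + 1) (b ^ (l + 1)) (du E ω)

lemma four_congr {x : ℤ × ℤ} {r R : ℤ} {ω ω' : Finset (ℤ × ℤ)} (h : ω ∩ An x r R = ω' ∩ An x r R) :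
    Four x r R ω ↔ Four x r R ω' := by
  unfold Four
  rw [h]

lemma badB_loc (b : ℤ) (z : ℤ → ℤ × ℤ) (E : Finset (ℤ × ℤ)) (l : ℕ) (y : ℤ) (ω : Finset (ℤ × ℤ)) :
    badB b z E l y ω ↔ badB b z E l y (ω ∩ (OutB b z l y \ InB b z l y)) := by
  set x := ctr (z (b ^ l * y)) with hx
  have hA : ∀ e ∈ An x (4 * b ^ l + 1) (b ^ (l + 1)), e ∈ OutB b z l y \ InB b z l y := by
    intro e he
    rw [mem_An, mem_Bq, mem_Bq] at he
    unfold OutB InB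
    rw [mem_sdiff, mem_Bq, mem_Bq, ← hx]
    omega
  have hA' : ∀ e ∈ An x (4 * b ^ l + 1) (b ^ (l + 1)), e - (1, 1) ∈ OutB b z l y \ InB b z l y := by
    intro e he
    rw [mem_An, mem_Bq, mem_Bq] at he
    unfold OutB InB
    rw [mem_sdiff, mem_Bq, mem_Bq, ← hx]
    simp only [Prod.fst_sub, Prod.snd_sub]
    omega
  unfold badB
  refine or_congr (four_congr ?_) (four_congr ?_)
  · ext e
    rw [mem_inter, mem_inter, mem_inter]
    exact ⟨fun h => ⟨⟨h.1, hA e h.2⟩, h.2⟩, fun h => ⟨h.1.1, h.2⟩⟩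
  · have hdu : ∀ (η : Finset (ℤ × ℤ)) (e : ℤ × ℤ), e ∈ du E η ↔ e - (1, 1) ∈ E ∧ e - (1, 1) ∉ η := by
      intro η e
      unfold du
      rw [mem_map]
      constructor
      · rintro ⟨a, ha, rfl⟩
        have : sh1 a - (1, 1) = a := add_sub_cancel_right a (1, 1)
        rw [this]
        exact mem_sdiff.1 ha
      · intro h
        exact ⟨e - (1, 1), mem_sdiff.2 h, sub_add_cancel e (1, 1)⟩
    ext e
    rw [mem_inter, mem_inter, hdu, hdu, mem_inter]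
    constructor
    · rintro ⟨⟨h1, h2⟩, h3⟩
      exact ⟨⟨h1, fun h => h2 h.1⟩, h3⟩
    · rintro ⟨⟨h1, h2⟩, h3⟩
      exact ⟨⟨h1, fun h => h2 ⟨h, hA' e h3⟩⟩, h3⟩

/-- probability of a bad interval -/
theorem badB_prob : ∃ C : ℝ, 0 < C ∧ ∀ (b : ℤ) (z : ℤ → ℤ × ℤ) (E : Finset (ℤ × ℤ)) (l : ℕ) (y : ℤ),
    5 ≤ b → OutB b z l y ⊆ E →
    PrP (cp (1 / 2)) E (badB b z E l y) ≤ C * (5 / (b : ℝ)) ^ (5 / 4 : ℝ) := by
  obtain ⟨C1, hC1, h1⟩ := four_annulus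
  obtain ⟨C2, hC2, h2⟩ := four_annulus_dual
  refine ⟨C1 + C2, by linarith, fun b z E l y hb hE => ?_⟩
  have hp : 1 ≤ b ^ l := by
    have : 0 < b ^ l := by positivity
    omega
  have hR : 4 * b ^ l + 1 ≤ b ^ (l + 1) := by rw [pow_succ]; nlinarith
  have hbR : (0 : ℝ) < (b : ℝ) := by exact_mod_cast (by omega : (0 : ℤ) < b)
  have hq : (((4 * b ^ l + 1 : ℤ) : ℝ) / ((b ^ (l + 1) : ℤ) : ℝ)) ≤ 5 / (b : ℝ) := by
    rw [div_le_div_iff₀ (by push_cast; positivity) hbR]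
    have : (4 * b ^ l + 1) * b ≤ 5 * b ^ (l + 1) := by rw [pow_succ]; nlinarith
    exact_mod_cast this
  have hq0 : 0 ≤ (((4 * b ^ l + 1 : ℤ) : ℝ) / ((b ^ (l + 1) : ℤ) : ℝ)) := by
    push_cast; positivity
  have hq2 := Real.rpow_le_rpow hq0 hq (show (0 : ℝ) ≤ 5 / 4 by norm_num)
  have g1 := h1 (ctr (z (b ^ l * y))) (4 * b ^ l + 1) (b ^ (l + 1)) E (by omega) hR (by
    refine Subset.trans ?_ hE
    intro e he
    unfold OutB
    rw [mem_Bq] at *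
    omega)
  have g2 := h2 (ctr (z (b ^ l * y))) (4 * b ^ l + 1) (b ^ (l + 1)) E (by omega) hR hE
  have e0 : PrP (cp (1 / 2)) E (badB b z E l y) = Pr E (badB b z E l y) := PrP_half _ _
  rw [e0]
  unfold badB
  refine (Pr_or_le _ _ _).trans ?_
  have g3 := mul_le_mul_of_nonneg_left hq2 hC1.le
  have g4 := mul_le_mul_of_nonneg_left hq2 hC2.le
  rw [add_mul]
  linarith

/-- choice of the base -/
lemma exists_base (C : ℝ) (hC : 0 < C) : ∃ b0 : ℤ, 6 ≤ b0 ∧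
    cr (b0 : ℝ) * (C * (5 / (b0 : ℝ)) ^ (5 / 4 : ℝ)) ^ (2 / 5 : ℝ) ≤ 1 / 2 := by
  have h1 : Filter.Tendsto (fun x : ℝ => C ^ (2 / 5 : ℝ) * 5 ^ (1 / 2 : ℝ) * x ^ (-(1 / 6 : ℝ)))
      Filter.atTop (nhds 0) := by
    have := (tendsto_rpow_neg_atTop (show (0 : ℝ) < 1 / 6 by norm_num)).const_mul
      (C ^ (2 / 5 : ℝ) * 5 ^ (1 / 2 : ℝ))
    rwa [mul_zero] at this
  have h2 := h1.eventually (gt_mem_nhds (show (0 : ℝ) < 1 / 2 by norm_num))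
  obtain ⟨M, hM⟩ := Filter.eventually_atTop.1 h2
  refine ⟨max 6 ⌈M⌉, le_max_left _ _, ?_⟩
  set b0 : ℤ := max 6 ⌈M⌉ with hb0
  have hb3 : (6 : ℝ) ≤ (b0 : ℝ) := by exact_mod_cast (le_max_left 6 ⌈M⌉ : (6 : ℤ) ≤ b0)
  have hbM : M ≤ (b0 : ℝ) := (Int.le_ceil M).trans (by exact_mod_cast le_max_right 6 ⌈M⌉)
  have hpos : (0 : ℝ) < (b0 : ℝ) := by linarith
  have h3 := (hM _ hbM).le
  refine le_trans (le_of_eq ?_) h3
  unfold cr
  rw [Real.mul_rpow hC.le (by positivity), ← Real.rpow_mul (by positivity),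
    Real.div_rpow (by norm_num) hpos.le]
  have e1 : (5 / 4 : ℝ) * (2 / 5) = 1 / 2 := by norm_num
  rw [e1, show (-(1 / 6 : ℝ)) = 1 / 3 - 1 / 2 by norm_num, Real.rpow_sub hpos]
  ring

/-- **What remains**: the bound of the amplitude for given stopping intervals of a pair of cells. -/
def AmpOK {ι : Type*} [Fintype ι] [DecidableEq ι] (b : ℤ) (E : Finset (ℤ × ℤ))
    (zi : ι → ℤ → ℤ × ℤ) (G : Finset (ℤ × ℤ) → ℝ) (n : ι → ℕ) (y0 : ι → ℤ)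
    (Amp : (ι → ℤ) → Finset (ℤ × ℤ) → ℂ) : Prop :=
  ∀ L ∈ Lev n, ∀ y ∈ Num b n y0 L, ∀ ω, ω ⊆ E → Stops b n (fun i => badB b (zi i) E) L y ω →
    ‖Ec (fun _ => (1 / 2 : ℂ))
      (univ.biUnion fun i => if L i = 0 then ∅ else InB b (zi i) (L i) (y i))
      (fun η => ∑ x ∈ Bo b L y, Amp x
        (ω \ (univ.biUnion fun i => if L i = 0 then ∅ else InB b (zi i) (L i) (y i)) ∪ η))‖ ≤
      (∏ i, cr ((b : ℝ) ^ L i) ^ 2) * G ω

/-- **Reduction of (G1) for a straight row to the bound of the amplitudes.** -/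
theorem row_bound : ∃ b : ℤ, 6 ≤ b ∧ ∀ (m : ℕ) (K K0 : ℤ) (E : Finset (ℤ × ℤ)) (z : ℤ → ℤ × ℤ)
    (N₁ N₂ N : ℕ), 1 ≤ K0 → K0 * (2 * b + 2) + 8 * b + 32 ≤ K → RowGeo E z K0 N₁ N₂ → N₁ ≤ N → N₂ ≤ N →
    ∀ f g : Finset (ℤ × ℤ) → ℝ, (∀ ω, ω ⊆ E → 0 ≤ f ω) → (∀ ω, ω ⊆ E → 0 ≤ g ω) →
    ∀ Amp : Finset ℤ → Finset (ℤ × ℤ) → ℂ,
    (∀ S : ℕ, ∀ p ∈ antidiagonal m, ∀ k₁ ∈ cells b K S p.1 N₁, ∀ k₂ ∈ cells b K S p.2 N₂,
      AmpOK b E (zz z) (fun ω => f ω * g ω) (lv2 k₁ k₂) (nu2 k₁ k₂) (fun x ω => Amp (cols2 x) ω)) →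
    ‖∑ s ∈ powersetCard m (Finset.Ico (-(N₁ : ℤ)) N₂),
        Ec (fun _ => (1 / 2 : ℂ)) E (Amp s)‖ ≤
      (m + 1) * ((3 * cr b) ^ m * ((Ex (cp (1 / 2)) E (fun ω => f ω ^ 2)) ^ (1 / 2 : ℝ) *
        (Ex (cp (1 / 2)) E (fun ω => g ω ^ 10)) ^ (1 / 10 : ℝ)) *
          (Cc b K * cr ((N + 1 : ℕ) : ℝ) ^ 2) ^ m) := by
  obtain ⟨C, hC, hP⟩ := badB_prob
  obtain ⟨b, hb3, hb⟩ := exists_base C hC
  refine ⟨b, hb3, ?_⟩
  intro m K K0 E z N₁ N₂ N hK0 hK hgeo h₁ h₂ f g hf hg Amp hA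
  have hb2 : 2 ≤ b := by omega
  have hb20 : 0 ≤ 2 * b + 2 := by omega
  have hKK : 0 ≤ K0 * (2 * b + 2) := mul_nonneg (by omega) hb20
  have hK1 : 1 ≤ K := by omega
  have hbR : (1 : ℝ) < (b : ℝ) := by exact_mod_cast (by omega : (1 : ℤ) < b)
  obtain ⟨S, hS⟩ := pow_unbounded_of_one_lt ((N + 1 : ℕ) : ℝ) hbR
  have hS' : ((N + 1 : ℕ) : ℝ) ≤ (K + 1) * b * (b : ℝ) ^ S := by
    refine hS.le.trans ?_
    have h3 : (1 : ℝ) ≤ (K + 1) * b := by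
      have : (1 : ℤ) ≤ (K + 1) * b := by nlinarith
      exact_mod_cast this
    have h4 : (0 : ℝ) ≤ (b : ℝ) ^ S := by positivity
    nlinarith
  have ecp : (fun _ : ℤ × ℤ => (1 / 2 : ℂ)) = fun e => ((cp (1 / 2) e : ℝ) : ℂ) := by
    funext e
    unfold cp
    push_cast
    rfl
  unfold AmpOK at hA
  rw [ecp] at hA ⊢
  refine total_bound hb2 hK1 (cp_Pb (by norm_num) (by norm_num)) h₁ h₂ hS'
    (θ := C * (5 / (b : ℝ)) ^ (5 / 4 : ℝ)) (by positivity) hb hf hg Amp ?_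
  intro p hp k₁ hk₁ k₂ hk₂
  have htop : ∀ i l y, 0 < l → l ≤ lv2 k₁ k₂ i → y ∈ dy b (lv2 k₁ k₂ i - l) (nu2 k₁ k₂ i) →
      OutB b (zz z i) l y ⊆ E := by
    intro i l y h0 hl hy
    have ht := hgeo.top hb2 hK0 (by omega) hk₁ hk₂ i (by omega)
    rw [mem_dy hb2] at hy
    rcases eq_or_lt_of_le hl with h3 | h3
    · rw [h3, Nat.sub_self, pow_zero, Int.ediv_one] at hy
      rw [h3, hy]; exact ht
    · refine (nest_B hb2 (hgeo.zz_iso i) h3 h0 y).trans ?_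
      rw [hy]
      exact (in_out_B (by omega) _ _ _).trans ht
  exact ⟨{
    bad := fun i => badB b (zz z i) E
    In := fun i => InB b (zz z i)
    Out := fun i => OutB b (zz z i)
    in_out := fun i l y _ _ _ => in_out_B (by omega) _ _ _
    nest := fun i l l' y h0 hl _ _ => nest_B hb2 (hgeo.zz_iso i) hl h0 y
    top := fun i hi => hgeo.top hb2 hK0 (by omega) hk₁ hk₂ i hi
    disj := fun i i' hne hi hi' => hgeo.disj hb2 (by omega) hk₁ hk₂ i i' hne hi hi'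
    loc := fun i l y ω _ _ _ => badB_loc b _ E l y ω
    prob := fun i l y h0 hl hy => hP b _ E l y (by omega) (htop i l y h0 hl.le hy)
    amp := hA S p hp k₁ hk₁ k₂ hk₂ }⟩

end Pool.Agent.Q1.M6b.Gd
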