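import Mathlib
import Pool.Agent.Q1.M6b.Total

set_option autoImplicit false
open Finset

/-! The bound of the amplitudes for given stopping intervals follows from a factorization: for fixed labels
outside the boxes the amplitude is `A * ∏ i, h i (x i) (labels in the box i)`. -/

namespace Pool.Agent.Q1.M6b.Gd

open Pool.Agent.H75.Perc Pool.Agent.H99.NC

set_option linter.unusedSectionVars false

variable {α : Type*} [DecidableEq α] {ι : Type*} [DecidableEq ι]

/-- independence of disjoint sets -/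
theorem Ec_prod (q : α → ℂ) (s : Finset ι) (W : ι → Finset α)
    (hd : ∀ i ∈ s, ∀ j ∈ s, i ≠ j → Disjoint (W i) (W j)) (g : ι → Finset α → ℂ) :
    Ec q (s.biUnion W) (fun η => ∏ i ∈ s, g i (η ∩ W i)) = ∏ i ∈ s, Ec q (W i) (g i) := by
  induction s using Finset.induction_on with
  | empty => simp
  | insert i s hi ih =>
    have hdi : Disjoint (W i) (s.biUnion W) := by
      rw [disjoint_biUnion_right]
      intro j hj
      exact hd i (mem_insert_self _ _) j (mem_insert_of_mem hj) (fun h => hi (h ▸ hj))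
    rw [biUnion_insert, Ec_union q hdi, prod_insert hi,
      ← ih (fun a ha b hb => hd a (mem_insert_of_mem ha) b (mem_insert_of_mem hb))]
    have e1 : ∀ ω1 ⊆ W i, Ec q (s.biUnion W)
        (fun ω2 => ∏ j ∈ insert i s, g j ((ω1 ∪ ω2) ∩ W j)) =
        Ec q (s.biUnion W) (fun ω2 => ∏ j ∈ s, g j (ω2 ∩ W j)) * g i ω1 := by
      intro ω1 h1
      have e2 : ∀ ω2 ⊆ s.biUnion W, ∏ j ∈ insert i s, g j ((ω1 ∪ ω2) ∩ W j) =
          g i ω1 * ∏ j ∈ s, g j (ω2 ∩ W j) := by
        intro ω2 h2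
        rw [prod_insert hi]
        have e3 : (ω1 ∪ ω2) ∩ W i = ω1 := by
          ext x
          rw [mem_inter, mem_union]
          constructor
          · rintro ⟨h3 | h3, h4⟩
            · exact h3
            · exact absurd (h2 h3) (disjoint_left.1 hdi h4)
          · intro h3; exact ⟨Or.inl h3, h1 h3⟩
        rw [e3]
        congr 1
        refine prod_congr rfl fun j hj => ?_
        congr 1
        ext x
        rw [mem_inter, mem_union, mem_inter]
        constructor
        · rintro ⟨h3 | h3, h4⟩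
          · exact absurd h4 (disjoint_left.1 (hd i (mem_insert_self _ _) j (mem_insert_of_mem hj)
              (fun h => hi (h ▸ hj))) (h1 h3))
          · exact ⟨h3, h4⟩
        · rintro ⟨h3, h4⟩; exact ⟨Or.inr h3, h4⟩
      rw [Ec_congr e2, Ec_smul, mul_comm]
    rw [Ec_congr e1]
    have e4 : Ec q (W i) (fun ω1 => Ec q (s.biUnion W) (fun ω2 => ∏ j ∈ s, g j (ω2 ∩ W j)) * g i ω1) =
        Ec q (s.biUnion W) (fun ω2 => ∏ j ∈ s, g j (ω2 ∩ W j)) * Ec q (W i) (g i) := Ec_smul _ _ _ _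
    rw [e4, mul_comm]

variable [Fintype ι]

/-- **From the factorization to the bound.** -/
theorem bound_of_fact {b : ℤ} (q : α → ℂ) {L : ι → ℕ} {y : ι → ℤ} {W : ι → Finset α}
    (hd : ∀ i j, i ≠ j → Disjoint (W i) (W j)) {F : (ι → ℤ) → Finset α → ℂ} {A : ℂ}
    {h : ι → ℤ → Finset α → ℂ}
    (hF : ∀ x ∈ Bo b L y, ∀ η, η ⊆ univ.biUnion W → F x η = A * ∏ i, h i (x i) (η ∩ W i))
    {C : ι → ℝ} (hh : ∀ i, ‖∑ x ∈ dy b (L i) (y i), Ec q (W i) (h i x)‖ ≤ C i) :
    ‖Ec q (univ.biUnion W) (fun η => ∑ x ∈ Bo b L y, F x η)‖ ≤ ‖A‖ * ∏ i, C i := by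
  have e1 : Ec q (univ.biUnion W) (fun η => ∑ x ∈ Bo b L y, F x η) =
      A * ∏ i, ∑ x ∈ dy b (L i) (y i), Ec q (W i) (h i x) := by
    rw [Ec_sum, Finset.prod_univ_sum, mul_sum]
    refine sum_congr rfl fun x hx => ?_
    rw [Ec_congr (hF x hx), Ec_smul]
    congr 1
    exact Ec_prod q univ W (fun i _ j _ hij => hd i j hij) (fun i => h i (x i))
  rw [e1, norm_mul, norm_prod]
  exact mul_le_mul_of_nonneg_left (prod_le_prod (fun i _ => norm_nonneg _) fun i _ => hh i)
    (norm_nonneg _)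

end Pool.Agent.Q1.M6b.Gd
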