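import Mathlib
import Pool.Agent.Q1.Prim
import Pool.Agent.Q1.M4.Inputs
import Pool.Agent.Q1.M6c.Dob
import Pool.Agent.Q1.M6b.Boxes

set_option autoImplicit false
open Finset

/-! The seam: a diagonal line of corners. Alternating sums of increments along the seam are differences of
the primitive; with the a priori bound they are at most `C n ^ (2/3)`. -/

namespace Pool.Agent.Q1.M6b.Gd

open Pool.Agent.H75.Perc Pool.Agent.H75.TwoArm Pool.Agent.H99.NC Pool.Agent.H75.TwoArm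
  Pool.Agent.Q1

/-- corners of the seam in the direction `(1, 1)` (`up = true`) or `(1, -1)` (`up = false`) -/
def sm (up : Bool) (s t : ℤ) : ℤ × ℤ := if up then (t, t + 2 * s) else (t, 2 * s + 1 - t)

/-- vertex of a corner of the seam -/
def smv (up : Bool) (s t : ℤ) : ℤ × ℤ := if up then (t / 2, t / 2 + s) else (t / 2, s - t / 2)

lemma vx_sm (up : Bool) (s t : ℤ) : vx (sm up s t) = smv up s t := by
  unfold vx sm smv
  cases up
  · simp only [Bool.false_eq_true, if_false]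
    refine Prod.ext rfl ?_
    simp only; omega
  · simp only [if_true]
    refine Prod.ext rfl ?_
    simp only; omega

/-- sign of a column -/
def sgt (t : ℤ) : ℂ := if t % 2 = 0 then 1 else -1

/-- the value of the primitive to the left of the corner `t` -/
noncomputable def phi (up : Bool) (s : ℤ) (Hv Hf : ℤ × ℤ → ℂ) (t : ℤ) : ℂ :=
  if t % 2 = 0 then Hf (fi (sm up s t)) else Hv (smv up s t)

lemma corner_of_lab (c : ℤ × ℤ) : c = in1 (lab c) ∨ c = in2 (lab c) := by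
  rcases ty_cases c with ⟨h0, h1, h2, h3, h4, h5⟩ | ⟨h0, h1, h2, h3, h4, h5⟩ |
    ⟨h0, h1, h2, h3, h4, h5⟩ | ⟨h0, h1, h2, h3, h4, h5⟩ <;> rw [h3] <;> unfold in1 in2 <;> simp only
  · left
    rw [if_neg (by omega)]
    ext <;> simp
  · left
    rw [if_pos h1]
  · right
    rw [if_neg (by omega)]
    ext <;> simp
  · right
    rw [if_pos (by omega)]
    ext <;> simp

lemma prim_corner {X : Env} {a b c d : ℤ} {Hv Hf : ℤ × ℤ → ℂ} (h : X.Prim a b c d Hv Hf) {z : ℤ × ℤ}
    (hz : lab z ∈ Bx a b c d) : Hv (vx z) - Hf (fi z) = X.inc z := by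
  refine h (lab z) hz z ?_
  rcases corner_of_lab z with h1 | h1
  · exact Or.inl h1
  · exact Or.inr (Or.inl h1)

lemma phi_step {X : Env} {a b c d : ℤ} {Hv Hf : ℤ × ℤ → ℂ} (h : X.Prim a b c d Hv Hf) {up : Bool}
    {s t : ℤ} (hz : lab (sm up s t) ∈ Bx a b c d) :
    sgt t * X.inc (sm up s t) = phi up s Hv Hf (t + 1) - phi up s Hv Hf t := by
  have h1 := prim_corner h hz
  rw [vx_sm] at h1
  unfold sgt phi
  by_cases ht : t % 2 = 0
  · rw [if_pos ht, if_neg (by omega), if_pos ht, one_mul, ← h1]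
    congr 2
    unfold smv
    have : (t + 1) / 2 = t / 2 := by omega
    rw [this]
  · rw [if_neg ht, if_pos (by omega), if_neg ht, ← h1]
    have : fi (sm up s (t + 1)) = fi (sm up s t) := by
      unfold fi sm
      cases up
      · simp only [Bool.false_eq_true, if_false]
        refine Prod.ext ?_ ?_ <;> simp only <;> omega
      · simp only [if_true]
        refine Prod.ext ?_ ?_ <;> simp only <;> omega
    rw [this]
    ring

/-- telescoping -/
lemma seam_sum {X : Env} {a b c d : ℤ} {Hv Hf : ℤ × ℤ → ℂ} (h : X.Prim a b c d Hv Hf) {up : Bool}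
    {s t0 : ℤ} (n : ℕ) (hz : ∀ t, t0 ≤ t → t < t0 + n → lab (sm up s t) ∈ Bx a b c d) :
    ∑ t ∈ Finset.Ico t0 (t0 + n), sgt t * X.inc (sm up s t) =
      phi up s Hv Hf (t0 + n) - phi up s Hv Hf t0 := by
  induction n with
  | zero => simp
  | succ n ih =>
    have e : t0 + ((n + 1 : ℕ) : ℤ) = t0 + n + 1 := by push_cast; ring
    rw [e, sum_Ico_int _ (show t0 ≤ t0 + (n : ℤ) by omega), ih (fun t h1 h2 => hz t h1 (by push_cast; omega)),
      phi_step h (hz (t0 + n) (by omega) (by push_cast; omega))]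
    ring

lemma phi_near {X : Env} {a b c d : ℤ} {Hv Hf : ℤ × ℤ → ℂ} (h : X.Prim a b c d Hv Hf) {up : Bool}
    {s t : ℤ} (hz : lab (sm up s t) ∈ Bx a b c d) : ‖phi up s Hv Hf t - Hv (smv up s t)‖ ≤ 1 := by
  unfold phi
  by_cases ht : t % 2 = 0
  · rw [if_pos ht]
    have h1 := prim_corner h hz
    rw [vx_sm] at h1
    rw [← norm_neg, neg_sub, h1]
    exact X.inc_norm_le_one _
  · rw [if_neg ht, sub_self, norm_zero]
    norm_num

/-- **Sums along the seam**, from the a priori bound. -/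
theorem seam_bound (hAP : AP M6c.PlaneK) : ∃ C : ℝ, 0 < C ∧ ∀ X, M6c.PlaneK X → ∀ (p : ℤ × ℤ) (N : ℕ),
    4 ≤ N → Bx (p.1 - N) (p.1 + N) (p.2 - N) (p.2 + N) ⊆ X.E → ∀ (up : Bool) (s t0 : ℤ) (n : ℕ),
    (∀ t, t0 ≤ t → t ≤ t0 + n → Qt p.1 N (smv up s t).1 ∧ Qt p.2 N (smv up s t).2) →
    ‖∑ t ∈ Finset.Ico t0 (t0 + n), sgt t * X.inc (sm up s t)‖ ≤ C * (N : ℝ) ^ (2 / 3 : ℝ) := by
  obtain ⟨C, hC, h⟩ := hAP
  refine ⟨C + 2, by linarith, ?_⟩
  intro X hX p N hN hB up s t0 n ht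
  obtain ⟨Hv, Hf, hP⟩ := X.exists_prim hB
  have hlab : ∀ t, t0 ≤ t → t ≤ t0 + n →
      lab (sm up s t) ∈ Bx (p.1 - N) (p.1 + N) (p.2 - N) (p.2 + N) := by
    intro t h1 h2
    obtain ⟨q1, q2⟩ := ht t h1 h2
    unfold Qt at q1 q2
    rw [← vx_sm] at q1 q2
    have a1 := abs_le.1 (show |(vx (sm up s t)).1 - p.1| ≤ ((vx (sm up s t)).1 - p.1).natAbs by
      rw [Int.natCast_natAbs])
    have hodd := lab_odd (sm up s t)
    rw [mem_Bx]
    generalize sm up s t = z at *
    have b1 : |(vx z).1 - p.1| ≤ (N : ℤ) / 4 := by omega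
    have b2 : |(vx z).2 - p.2| ≤ (N : ℤ) / 4 := by omega
    rw [abs_le] at b1 b2
    rcases ty_cases z with ⟨h0, h1, h2, h3, h4, h5⟩ | ⟨h0, h1, h2, h3, h4, h5⟩ |
      ⟨h0, h1, h2, h3, h4, h5⟩ | ⟨h0, h1, h2, h3, h4, h5⟩ <;> rw [h3] at hodd ⊢ <;>
      unfold vx at b1 b2 <;> simp only at b1 b2 hodd ⊢ <;> omega
  rw [seam_sum hP n (fun t h1 h2 => hlab t h1 h2.le)]
  have n1 := phi_near hP (hlab (t0 + n) (by omega) le_rfl)
  have n2 := phi_near hP (hlab t0 le_rfl (by omega))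
  obtain ⟨q1, q2⟩ := ht (t0 + n) (by omega) le_rfl
  obtain ⟨q3, q4⟩ := ht t0 le_rfl (by omega)
  have n3 := h X hX p.1 p.2 N hB Hv Hf hP _ _ q1 q2 q3 q4
  have hN1 : (1 : ℝ) ≤ (N : ℝ) ^ (2 / 3 : ℝ) := Real.one_le_rpow
    (by exact_mod_cast (by omega : 1 ≤ N)) (by norm_num)
  have e : phi up s Hv Hf (t0 + n) - phi up s Hv Hf t0 =
      (phi up s Hv Hf (t0 + n) - Hv (smv up s (t0 + n))) +
      ((Hv (smv up s (t0 + n)) - Hv (smv up s t0)) - (phi up s Hv Hf t0 - Hv (smv up s t0))) := by ring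
  rw [e]
  have := norm_add_le (phi up s Hv Hf (t0 + n) - Hv (smv up s (t0 + n)))
    ((Hv (smv up s (t0 + n)) - Hv (smv up s t0)) - (phi up s Hv Hf t0 - Hv (smv up s t0)))
  have h2 := norm_sub_le (Hv (smv up s (t0 + n)) - Hv (smv up s t0))
    (phi up s Hv Hf t0 - Hv (smv up s t0))
  nlinarith

/-- positions of the columns: to the right (`rt = true`) or to the left of the marked point -/
def cl (rt : Bool) (j0 x : ℤ) : ℤ := if rt then j0 + x else j0 - 1 - x

lemma iso_sm (up rt : Bool) (s j0 : ℤ) : Iso (fun x => sm up s (cl rt j0 x)) := by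
  constructor
  · intro j j'
    unfold Nr sm cl
    rcases up with _ | _ <;> rcases rt with _ | _ <;> simp only [if_true, Bool.false_eq_true, if_false] <;>
      constructor <;> rw [abs_le] <;> rcases abs_cases (j - j') with h | h <;> omega
  · intro j j' d h
    unfold Nr sm cl at h
    rcases up with _ | _ <;> rcases rt with _ | _ <;>
      simp only [if_true, Bool.false_eq_true, if_false] at h <;>
      have h1 := h.1 <;> rw [abs_le] at h1 <;> rw [abs_le] <;> omega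

lemma cr_sq_eq {x : ℝ} (hx : 0 ≤ x) : cr x ^ 2 = x ^ (2 / 3 : ℝ) := by
  unfold cr
  rw [← Real.rpow_natCast, ← Real.rpow_mul hx]
  norm_num

/-- **The sum over a window.** -/
theorem theta_bound (hAP : AP M6c.PlaneK) : ∃ C : ℝ, 0 < C ∧ ∀ X, M6c.PlaneK X → ∀ (b : ℤ) (l : ℕ)
    (y : ℤ) (up rt : Bool) (s j0 : ℤ), 2 ≤ b → InB b (fun x => sm up s (cl rt j0 x)) l y ⊆ X.E →
    ‖∑ x ∈ dy b l y, sgt (cl rt j0 x) * X.inc (sm up s (cl rt j0 x))‖ ≤ C * cr ((b : ℝ) ^ l) ^ 2 := by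
  obtain ⟨C, hC, h⟩ := seam_bound hAP
  refine ⟨C * 4 ^ (2 / 3 : ℝ), by positivity, ?_⟩
  intro X hX b l y up rt s j0 hb hE
  have hp : 1 ≤ b ^ l := by
    have : 0 < b ^ l := by positivity
    omega
  set M : ℕ := (b ^ l).toNat with hM
  have hMz : (M : ℤ) = b ^ l := Int.toNat_of_nonneg (by omega)
  have hM1 : 1 ≤ M := by omega
  set t0 : ℤ := if rt then j0 + b ^ l * y else j0 - b ^ l * y - b ^ l with ht0
  have hsum : ∑ x ∈ dy b l y, sgt (cl rt j0 x) * X.inc (sm up s (cl rt j0 x)) =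
      ∑ t ∈ Finset.Ico t0 (t0 + M), sgt t * X.inc (sm up s t) := by
    refine sum_bij (fun x _ => cl rt j0 x) ?_ ?_ ?_ (fun _ _ => rfl)
    · intro x hx
      unfold dy at hx
      rw [Finset.mem_Ico] at hx ⊢
      unfold cl
      rw [ht0, hMz]
      rcases rt with _ | _ <;> simp only [if_true, Bool.false_eq_true, if_false] <;> omega
    · intro x _ x' _ hh
      unfold cl at hh
      rcases rt with _ | _ <;> simp only [if_true, Bool.false_eq_true, if_false] at hh <;> omega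
    · intro t ht
      rw [Finset.mem_Ico, ht0, hMz] at ht
      refine ⟨if rt then t - j0 else j0 - 1 - t, ?_, ?_⟩
      · unfold dy
        rw [Finset.mem_Ico]
        rcases rt with _ | _ <;> simp only [if_true, Bool.false_eq_true, if_false] at ht ⊢ <;> omega
      · unfold cl
        rcases rt with _ | _ <;> simp only [if_true, Bool.false_eq_true, if_false] <;> ring
  have hctr : ctr (sm up s (cl rt j0 (b ^ l * y))) = smv up s (cl rt j0 (b ^ l * y)) := by
    rw [← vx_sm]; rfl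
  have key := h X hX (smv up s (cl rt j0 (b ^ l * y))) (4 * M) (by omega) (by
    unfold InB Pool.Agent.H47.NC.Bq at hE
    rw [hctr] at hE
    have e : ((4 * M : ℕ) : ℤ) = 4 * b ^ l := by push_cast; rw [hMz]
    rw [e]
    exact hE) up s t0 M (by
    intro t h1 h2
    have e : ((4 * M : ℕ) : ℤ) = 4 * b ^ l := by push_cast; rw [hMz]
    unfold Qt
    rw [e]
    have h3 : |t - cl rt j0 (b ^ l * y)| ≤ b ^ l := by
      unfold cl
      rw [abs_le]
      rw [ht0] at h1 h2
      rw [hMz] at h2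
      rcases rt with _ | _ <;> simp only [if_true, Bool.false_eq_true, if_false] at h1 h2 ⊢ <;> omega
    generalize cl rt j0 (b ^ l * y) = t' at h3
    rw [abs_le] at h3
    have key4 : ∀ B w : ℤ, -B ≤ w → w ≤ B → 4 * |w| ≤ 4 * B := by
      intro B w h5 h6
      have := abs_le.2 ⟨h5, h6⟩
      omega
    generalize b ^ l = B at h3 hp
    unfold smv
    rcases up with _ | _ <;> simp only [if_true, Bool.false_eq_true, if_false] <;>
      refine ⟨key4 _ _ ?_ ?_, key4 _ _ ?_ ?_⟩ <;> omega)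
  rw [hsum]
  refine key.trans (le_of_eq ?_)
  have hbl : (0 : ℝ) ≤ (b : ℝ) ^ l := by
    have : (0 : ℝ) ≤ (b : ℝ) := by exact_mod_cast (by omega : (0 : ℤ) ≤ b)
    positivity
  have e2 : ((4 * M : ℕ) : ℝ) = 4 * (b : ℝ) ^ l := by
    push_cast
    congr 1
    have := congrArg (fun z : ℤ => (z : ℝ)) hMz
    simpa using this
  rw [e2, Real.mul_rpow (by norm_num) hbl, cr_sq_eq hbl]
  ring

end Pool.Agent.Q1.M6b.Gd
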