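import Mathlib
import Pool.Agent.Q1.M6b.Seam

set_option autoImplicit false
open Finset

/-! The plane environment of a strand which enters an inner box from outside of the outer box. -/

namespace Pool.Agent.Q1.M6b.Gd

open Pool.Agent.H75.Perc Pool.Agent.H99.NC Pool.Agent.H75.TwoArm Pool.Agent.Q1 Pool.Agent.Q1.M6c
  Pool.Agent.H69.Q1

set_option linter.unusedSectionVars false

/-- outer faces of a box -/
def OutF (a b c d : ℤ) (f : ℤ × ℤ) : Prop := f.1 ≤ a ∨ b + 1 ≤ f.1 ∨ f.2 ≤ c ∨ d + 1 ≤ f.2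

lemma dco_vert' {w : Finset (ℤ × ℤ)} {i : ℤ} (h : ∀ k : ℤ, ((2 * i - 1, 2 * k) : ℤ × ℤ) ∉ w)
    (j j' : ℤ) : DCo w (i, j) (i, j') := by
  rcases le_total j j' with h1 | h1
  · obtain ⟨n, hn⟩ := Int.le.dest h1
    rw [← hn]; exact dco_vert n (fun k _ _ => h k)
  · obtain ⟨n, hn⟩ := Int.le.dest h1
    rw [← hn]; exact (dco_vert n (fun k _ _ => h k)).symm

/-- all outer faces of a box are joined to the same low face -/
lemma dco_outer {A : Finset (ℤ × ℤ)} {a b c d : ℤ} (hA : A ⊆ Bx a b c d) {f : ℤ × ℤ}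
    (hf : OutF a b c d f) : DCo A f (a, c - 1) := by
  have hn : ∀ e : ℤ × ℤ, e ∉ Bx a b c d → e ∉ A := fun e he h => he (hA h)
  have hcol : ∀ i, i ≤ a ∨ b + 1 ≤ i → ∀ k : ℤ, ((2 * i - 1, 2 * k) : ℤ × ℤ) ∉ A := by
    intro i hi k
    refine hn _ ?_
    rw [mem_Bx]; simp only; omega
  have hrow : ∀ j, j ≤ c ∨ d + 1 ≤ j → ∀ k : ℤ, ((2 * k, 2 * j - 1) : ℤ × ℤ) ∉ A := by
    intro j hj k
    refine hn _ ?_
    rw [mem_Bx]; simp only; omega
  have hlast : ∀ i, i ≤ a ∨ b + 1 ≤ i → ∀ j, DCo A (i, j) (a, c - 1) := by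
    intro i hi j
    exact (dco_vert' (hcol i hi) j (c - 1)).trans (dco_horiz' (hrow (c - 1) (by omega)))
  obtain ⟨i, j⟩ := f
  unfold OutF at hf
  simp only at hf
  rcases hf with h | h | h | h
  · exact hlast i (Or.inl h) j
  · exact hlast i (Or.inr h) j
  · exact (dco_horiz' (i' := a) (hrow j (Or.inl h))).trans (hlast a (Or.inl le_rfl) j)
  · exact (dco_horiz' (i' := a) (hrow j (Or.inr h))).trans (hlast a (Or.inl le_rfl) j)

/-- the face of a corner whose previous label is outside of the box is an outer face -/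
lemma outF_of_plab {a b c d : ℤ} {z : ℤ × ℤ} (h : plab z ∉ Bx a b c d) : OutF a b c d (fi z) := by
  rw [mem_Bx] at h
  unfold plab at h
  unfold OutF fi
  split_ifs at h with h1 h2 h2 <;> simp only at h ⊢ <;> omega

lemma outF_of_lab {a b c d : ℤ} {z : ℤ × ℤ} (h : lab z ∉ Bx a b c d) : OutF a b c d (fi z) := by
  rw [mem_Bx] at h
  unfold lab at h
  unfold OutF fi
  split_ifs at h with h1 h2 h2 <;> simp only at h ⊢ <;> omega

/-- `z` enters the set `In` of labels, coming from outside of `Out` -/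
def FarIn (In Out ω : Finset (ℤ × ℤ)) (z : ℤ × ℤ) : Prop :=
  lab z ∈ In ∧ ∃ (c : ℤ × ℤ) (n : ℕ), plab c ∉ Out ∧ (nx ω)^[n] c = z ∧
    ∀ i < n, lab ((nx ω)^[i] c) ∈ Out \ In

lemma iter_congr {ω ω' : Finset (ℤ × ℤ)} {c : ℤ × ℤ} {n : ℕ}
    (h : ∀ i < n, (lab ((nx ω)^[i] c) ∈ ω' ↔ lab ((nx ω)^[i] c) ∈ ω)) :
    ∀ i ≤ n, (nx ω')^[i] c = (nx ω)^[i] c ∧ ∀ k0, KK (nx ω') (del ω') c k0 i = KK (nx ω) (del ω) c k0 i := by
  intro i
  induction i with
  | zero => intro _; exact ⟨rfl, fun k0 => by rw [KK_zero, KK_zero]⟩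
  | succ i ih =>
    intro hi
    obtain ⟨h1, h2⟩ := ih (by omega)
    have h3 := h i (by omega)
    refine ⟨?_, fun k0 => ?_⟩
    · rw [Function.iterate_succ_apply', Function.iterate_succ_apply', h1]
      unfold nx
      by_cases hl : lab ((nx ω)^[i] c) ∈ ω
      · have hl' := h3.2 hl
        unfold nx at hl hl'
        rw [if_pos hl, if_pos hl']
      · have hl' : lab ((nx ω)^[i] c) ∉ ω' := fun h4 => hl (h3.1 h4)
        unfold nx at hl hl'
        rw [if_neg hl, if_neg hl']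
    · rw [KK_succ, KK_succ, h2, h1]
      congr 1
      unfold del
      by_cases hl : lab ((nx ω)^[i] c) ∈ ω
      · rw [if_pos hl, if_pos (h3.2 hl)]
      · rw [if_neg hl, if_neg (fun h4 => hl (h3.1 h4))]

/-- being a far entrance depends only on the labels between the boxes -/
lemma FarIn.congr {In Out ω ω' : Finset (ℤ × ℤ)} (h : ω ∩ (Out \ In) = ω' ∩ (Out \ In)) {z : ℤ × ℤ}
    (hz : FarIn In Out ω z) : FarIn In Out ω' z := by
  obtain ⟨h1, c, n, h2, h3, h4⟩ := hz
  have h5 : ∀ i ≤ n, (nx ω')^[i] c = (nx ω)^[i] c ∧ ∀ k0, KK (nx ω') (del ω') c k0 i =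
      KK (nx ω) (del ω) c k0 i := by
    refine iter_congr fun i hi => ?_
    have h6 := h4 i hi
    have h7 := Finset.ext_iff.1 h (lab ((nx ω)^[i] c))
    rw [mem_inter, mem_inter] at h7
    tauto
  refine ⟨h1, c, n, h2, ?_, fun i hi => ?_⟩
  · rw [(h5 n le_rfl).1]; exact h3
  · rw [(h5 i hi.le).1]; exact h4 i hi

/-- **The plane environment of a far entrance.** -/
theorem FarIn.env {In ω : Finset (ℤ × ℤ)} {a b c d : ℤ} (hIn : In ⊆ Bx a b c d) {z : ℤ × ℤ}
    (hz : FarIn In (Bx a b c d) ω z) {k0 : ℤ} (hk : k0 % 4 = ty z) :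
    ∃ X : Env, PlaneEnv X (ω ∩ (Bx a b c d \ In)) ∧ X.E = In ∧ X.c0 = z ∧ X.k0 = k0 ∧ X.T = 4 := by
  obtain ⟨h1, c', n, h2, h3, h4⟩ := hz
  set W := ω ∩ (Bx a b c d \ In) with hW
  have hA : In ∪ W ⊆ Bx a b c d := by
    intro e he
    rcases mem_union.1 he with h | h
    · exact hIn h
    · exact (mem_sdiff.1 (mem_inter.1 h).2).1
  have hd : Disjoint In W := by
    rw [disjoint_left]
    intro e he h
    exact (mem_sdiff.1 (mem_inter.1 h).2).2 he
  have hodd : ∀ e ∈ Bx a b c d, (e.1 + e.2) % 2 = 1 := fun e he => (mem_Bx.1 he).2.2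
  have hpl : plab z ∉ In := by
    rcases Nat.eq_zero_or_pos n with h0 | h0
    · subst h0
      rw [Function.iterate_zero_apply] at h3
      rw [← h3]
      exact fun h => h2 (hIn h)
    · obtain ⟨k, rfl⟩ : ∃ k, n = k + 1 := ⟨n - 1, by omega⟩
      rw [Function.iterate_succ_apply'] at h3
      rw [← h3, plab_nx]
      exact (mem_sdiff.1 (h4 k (by omega))).2
  -- the root face is an outer face
  have hdco : ∀ i ≤ n, DCo (In ∪ W) (fi ((nx ω)^[i] c')) (a, c - 1) := by
    intro i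
    induction i with
    | zero => intro _; exact dco_outer hA (outF_of_plab h2)
    | succ i ih =>
      intro hi
      rw [Function.iterate_succ_apply']
      refine DCo.trans (DCo.symm (dco_nx_step fun hl => ?_)) (ih (by omega))
      have h5 := h4 i (by omega)
      rw [mem_union, not_or]
      exact ⟨(mem_sdiff.1 h5).2, fun h => hl (mem_inter.1 h).1⟩
  have hg := hdco n le_rfl
  rw [h3] at hg
  have hlow : ∀ v, Co (In ∪ W) (vx z) v → ((a, c - 1) : ℤ × ℤ).2 < v.2 := by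
    intro v hv
    have hin : inB a b c d (vx z) := by
      have h5 := hIn h1
      rw [mem_Bx] at h5
      unfold inB vx
      unfold lab at h5
      split_ifs at h5 with h6 h7 h7 <;> simp only at h5 ⊢ <;> omega
    have := hv.inB hA hin
    unfold inB at this
    simp only
    omega
  exact ⟨Env.plane In W z k0 (a, c - 1) (fun e he => hodd e (hIn he)) hd hk hpl hg hlow,
    planeEnv_plane (fun e he => hodd e (hA (mem_union_right _ he))), rfl, rfl, rfl, rfl⟩

section visit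

variable {In Out ω : Finset (ℤ × ℤ)} {X : Env}

lemma union_sdiff_inter {η : Finset (ℤ × ℤ)} (hη : η ⊆ In) :
    (η ∪ ω ∩ (Out \ In)) ∩ (Out \ In) = ω ∩ (Out \ In) := by
  ext e
  simp only [mem_inter, mem_union, mem_sdiff]
  constructor
  · rintro ⟨h1 | h1, h2⟩
    · exact absurd (hη h1) h2.2
    · exact h1
  · rintro ⟨h1, h2⟩
    exact ⟨Or.inr ⟨h1, h2⟩, h2⟩

/-- **The path returns to `In` only through far entrances**: if the far entrance is unique, the path has
not left `Out` before it visits a label of `In`. -/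
theorem visit_in (hIO : In ⊆ Out) (hX : PlaneEnv X (ω ∩ (Out \ In))) (hE : X.E = In)
    (hU : ∀ z', FarIn In Out ω z' → z' = X.c0) {η : Finset (ℤ × ℤ)} (hη : η ⊆ In) {i : ℕ}
    (hi : i < X.len η) (hz : lab (X.z η i) ∈ In) : ∀ j ≤ i, lab (X.z η j) ∈ Out := by
  classical
  by_contra hcon
  push Not at hcon
  obtain ⟨j0, hj0, hj0'⟩ := hcon
  -- the last time outside
  set A := (Finset.range (i + 1)).filter (fun j => lab (X.z η j) ∉ Out) with hA
  have hne : A.Nonempty := ⟨j0, mem_filter.2 ⟨mem_range.2 (by omega), hj0'⟩⟩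
  set j := A.max' hne with hj
  have hjA := A.max'_mem hne
  rw [← hj, hA, mem_filter, mem_range] at hjA
  have hji : j < i := by
    rcases Nat.lt_or_ge j i with h | h
    · exact h
    · exfalso
      have : j = i := by omega
      rw [this] at hjA
      exact hjA.2 (hIO hz)
  have hlast : ∀ k, j < k → k ≤ i → lab (X.z η k) ∈ Out := by
    intro k h1 h2
    by_contra h3
    have := A.le_max' k (mem_filter.2 ⟨mem_range.2 (by omega), h3⟩)
    omega
  -- the first entrance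
  have hex : ∃ k, j < k ∧ lab (X.z η k) ∈ In := ⟨i, hji, hz⟩
  set m := Nat.find hex with hm
  obtain ⟨hm1, hm2⟩ := Nat.find_spec hex
  rw [← hm] at hm1 hm2
  have hmi : m ≤ i := Nat.find_min' hex ⟨hji, hz⟩
  have hηX : η ⊆ X.E := by rw [hE]; exact hη
  have hit : ∀ k, (nx (η ∪ ω ∩ (Out \ In)))^[k] (X.z η (j + 1)) = X.z η (j + 1 + k) := by
    intro k
    rw [hX.zz η hηX, hX.zz η hηX, ← Function.iterate_add_apply, Nat.add_comm k]
  have hfar : FarIn In Out (η ∪ ω ∩ (Out \ In)) (X.z η m) := by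
    refine ⟨hm2, X.z η (j + 1), m - (j + 1), ?_, ?_, ?_⟩
    · have : plab (X.z η (j + 1)) = lab (X.z η j) := by
        rw [hX.zz η hηX, Function.iterate_succ_apply', plab_nx, hX.zz η hηX]
      rw [this]; exact hjA.2
    · rw [hit]; congr 1; omega
    · intro k hk
      rw [hit, mem_sdiff]
      refine ⟨hlast _ (by omega) (by omega), fun h => ?_⟩
      exact Nat.find_min hex (show j + 1 + k < m by omega) ⟨by omega, h⟩
  have h1 := hU _ (hfar.congr (union_sdiff_inter hη))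
  have h2 : X.z η m = X.z η 0 := h1
  have := Env.z_inj hηX (by omega : m < X.len η) (by omega : 0 < X.len η) h2
  omega

variable (hIO : In ⊆ Out) (hX : PlaneEnv X (ω ∩ (Out \ In))) (hE : X.E = In)
  (hU : ∀ z', FarIn In Out ω z' → z' = X.c0) {ζ : Finset (ℤ × ℤ)}
  (hζ : ζ ∩ (Out \ In) = ω ∩ (Out \ In)) {n : ℕ}
  (hmin : ∀ j < n, lab ((nx ζ)^[j] X.c0) ∈ Out)

include hIO hX hE hζ hmin

/-- before it leaves `Out`, the path of the configuration `ζ` is the path of the plane environment -/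
lemma far_iter : ∀ i ≤ n, X.z (ζ ∩ In) i = (nx ζ)^[i] X.c0 ∧
    X.K (ζ ∩ In) i = KK (nx ζ) (del ζ) X.c0 X.k0 i := by
  have hs : ζ ∩ In ⊆ X.E := by rw [hE]; exact inter_subset_right
  have h1 := iter_congr (ω := ζ) (ω' := ζ ∩ In ∪ ω ∩ (Out \ In)) (c := X.c0) (n := n) (by
    intro i hi
    have h2 := hmin i hi
    have h3 := Finset.ext_iff.1 hζ (lab ((nx ζ)^[i] X.c0))
    simp only [mem_inter, mem_union, mem_sdiff] at h3 ⊢
    tauto)
  intro i hi
  obtain ⟨h2, h3⟩ := h1 i hi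
  exact ⟨by rw [hX.zz _ hs, h2], by rw [hX.KK' _ hs, h3]⟩

variable (hn : lab ((nx ζ)^[n] X.c0) ∉ Out)

include hn

lemma far_len : n < X.len (ζ ∩ In) := by
  have hs : ζ ∩ In ⊆ X.E := by rw [hE]; exact inter_subset_right
  have hpos := Env.len_pos (X := X) hs
  by_contra hcon
  rw [not_lt] at hcon
  set L := X.len (ζ ∩ In) with hL
  have h1 : (nx ζ)^[L] X.c0 = X.c0 := by
    rw [← (far_iter hIO hX hE hζ hmin L hcon).1]; exact Env.z_len hs
  have h2 : (nx ζ)^[n] X.c0 = (nx ζ)^[n - L] X.c0 := by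
    have e : n = n - L + L := by omega
    nth_rewrite 1 [e]
    rw [Function.iterate_add_apply, h1]
  rw [h2] at hn
  exact hn (hmin (n - L) (by omega))

/-- a visited corner -/
theorem incO_far_of {i : ℕ} (hi : i < n) : X.incO (ζ ∩ In) ((nx ζ)^[i] X.c0) =
    ph (KK (nx ζ) (del ζ) X.c0 X.k0 i) := by
  have hs : ζ ∩ In ⊆ X.E := by rw [hE]; exact inter_subset_right
  obtain ⟨h1, h2⟩ := far_iter hIO hX hE hζ hmin i hi.le
  have h3 := far_len hIO hX hE hζ hmin hn
  rw [← h1, ← h2]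
  exact Env.incO_of hs (by omega) rfl

include hU

/-- a corner which is not visited -/
theorem incO_far_zero {c : ℤ × ℤ} (hc : lab c ∈ In) (h : ∀ i < n, (nx ζ)^[i] X.c0 ≠ c) :
    X.incO (ζ ∩ In) c = 0 := by
  have hs : ζ ∩ In ⊆ X.E := by rw [hE]; exact inter_subset_right
  refine Env.incO_zero fun i hi hh => ?_
  have h1 := visit_in hIO hX hE hU (η := ζ ∩ In) inter_subset_right hi (by rw [hh]; exact hc)
  rcases Nat.lt_or_ge i n with h2 | h2
  · exact h i h2 (by rw [← (far_iter hIO hX hE hζ hmin i h2.le).1]; exact hh)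
  · have h3 := h1 n h2
    rw [(far_iter hIO hX hE hζ hmin n le_rfl).1] at h3
    exact hn h3

end visit

end Pool.Agent.Q1.M6b.Gd
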