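import Mathlib
import Pool.Agent.Q1.M6b.FarEnv
import Pool.Agent.H81.G1.Net

set_option autoImplicit false
open Finset

/-! The factor of a window: the expectation of the sum over the columns of the window of the phases of the
visits of the strand which enters the inner box. -/

namespace Pool.Agent.Q1.M6b.Gd

open Pool.Agent.H75.Perc Pool.Agent.H99.NC Pool.Agent.H75.TwoArm Pool.Agent.Q1 Pool.Agent.Q1.M6c
  Pool.Agent.H69.Q1 Pool.Agent.H47.NC
open Pool.Agent.H81.G1 (zt zt_ne zt_four zt_twelve)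

set_option linter.unusedSectionVars false

lemma zt_six : zt ^ 6 = Complex.I := by
  rw [Pool.Agent.H81.G1.zt_pow]
  have : (((6 : ℕ) : ℝ) * (Real.pi / 12)) = Real.pi / 2 := by push_cast; ring
  rw [this, Complex.exp_mul_I, ← Complex.ofReal_cos, ← Complex.ofReal_sin, Real.cos_pi_div_two,
    Real.sin_pi_div_two]
  simp

lemma zt_ph (K : ℤ) : ph K = zt ^ (4 * K) := by
  unfold ph
  rw [zpow_mul]
  congr 1
  have : zt ^ (4 : ℤ) = zt ^ 4 := by norm_cast
  rw [this, zt_four]
  rfl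

lemma zt_24z (k : ℤ) : zt ^ (24 * k) = 1 := by
  rw [zpow_mul]
  have : zt ^ (24 : ℤ) = (zt ^ 12) ^ 2 := by
    rw [← pow_mul]; norm_cast
  rw [this, zt_twelve]
  norm_num

/-- the phases of the state sums and of the increments at the corners of the seam -/
lemma phase_seam {up : Bool} {s t K : ℤ} (h : K % 4 = ty (sm up s t)) :
    zt ^ (-2 * K) = (if up then 1 else Complex.I) * (sgt t * ph K) := by
  have hz := zt_ne
  rw [zt_ph]
  -- `zt ^ (-6 K)`
  have e1 : zt ^ (-2 * K) = zt ^ (-6 * K) * zt ^ (4 * K) := by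
    rw [← zpow_add₀ hz]; congr 1; ring
  have key : ∀ r q : ℤ, K = 4 * q + r → zt ^ (-6 * K) = zt ^ (-6 * r) := by
    intro r q hq
    rw [hq, show -6 * (4 * q + r) = 24 * (-q) + -6 * r by ring, zpow_add₀ hz, zt_24z, one_mul]
  have hI : zt ^ (6 : ℤ) = Complex.I := by
    have : zt ^ (6 : ℤ) = zt ^ 6 := by norm_cast
    rw [this, zt_six]
  have hK := key (K % 4) (K / 4) (by omega)
  rw [e1, hK]
  have fin : zt ^ (-6 * (K % 4)) = (if up then 1 else Complex.I) * sgt t := by
    rw [h]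
    unfold ty sm sgt
    have i1 : zt ^ (-6 : ℤ) = -Complex.I := by
      rw [zpow_neg, hI, Complex.inv_I]
    have z12 : zt ^ (-12 : ℤ) = -1 := by
      rw [show (-12 : ℤ) = -6 + -6 by norm_num, zpow_add₀ hz, i1]
      have := Complex.I_mul_I
      linear_combination this
    have z18 : zt ^ (-18 : ℤ) = Complex.I := by
      rw [show (-18 : ℤ) = -12 + -6 by norm_num, zpow_add₀ hz, i1, z12]
      ring
    rcases up with _ | _ <;> simp only [if_true, Bool.false_eq_true, if_false] <;>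
      by_cases ht : t % 2 = 0
    · rw [if_neg (by omega), if_pos ht, if_pos ht, show (-6 * 3 : ℤ) = -18 by norm_num, z18, mul_one]
    · rw [if_pos (by omega), if_neg ht, if_neg ht, show (-6 * 1 : ℤ) = -6 by norm_num, i1]
      ring
    · rw [if_pos (by omega), if_pos ht, if_pos ht]
      simp
    · rw [if_neg (by omega), if_neg ht, if_neg ht, show (-6 * 2 : ℤ) = -12 by norm_num, z12]
      ring
  rw [fin]
  ring

/-- the label of a corner of the window is in the inner box -/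
lemma lab_in {b : ℤ} {l : ℕ} {y : ℤ} {up rt : Bool} {s j0 x : ℤ} (hb : 2 ≤ b) (hx : x ∈ dy b l y) :
    lab (sm up s (cl rt j0 x)) ∈ InB b (fun x => sm up s (cl rt j0 x)) l y := by
  have hp : 1 ≤ b ^ l := by
    have : 0 < b ^ l := by positivity
    omega
  unfold dy at hx
  rw [Finset.mem_Ico] at hx
  have h1 := (iso_sm up rt s j0).le x (b ^ l * y)
  unfold InB
  refine mem_box (d := |x - b ^ l * y| + 1) ?_ (lab_odd _) ?_
  · change Nr _ _ (sm up s (cl rt j0 (b ^ l * y)))
    unfold Nr at *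
    generalize sm up s (cl rt j0 x) = z at *
    generalize sm up s (cl rt j0 (b ^ l * y)) = z' at *
    generalize |x - b ^ l * y| = d at *
    have h2 : |(lab z).1 - z.1| ≤ 1 ∧ |(lab z).2 - z.2| ≤ 1 := by
      rcases ty_cases z with ⟨h0, h1, h2, h3, h4, h5⟩ | ⟨h0, h1, h2, h3, h4, h5⟩ |
        ⟨h0, h1, h2, h3, h4, h5⟩ | ⟨h0, h1, h2, h3, h4, h5⟩ <;> rw [h3] <;> constructor <;>
        rw [abs_le] <;> simp only <;> constructor <;> omega
    constructor
    · have := abs_sub_le (lab z).1 z.1 z'.1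
      linarith [h1.1, h2.1]
    · have := abs_sub_le (lab z).2 z.2 z'.2
      linarith [h1.2, h2.2]
  · have : |x - b ^ l * y| ≤ b ^ l - 1 := by
      rw [abs_le]; omega
    omega

/-- **The factor of a window.** `a` is the unique far entrance of the boxes of the interval `(l, y)`;
`h x η` is the sum of the phases of the visits of the corner of the column `x`, before the exit from the
outer box, in the configuration `η` in the inner box. -/
theorem theta_far (hAP : AP M6c.PlaneK) : ∃ C : ℝ, 0 < C ∧ ∀ (b : ℤ) (l : ℕ) (y : ℤ) (up rt : Bool)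
    (s j0 : ℤ) (ω : Finset (ℤ × ℤ)) (a : ℤ × ℤ) (h : ℤ → Finset (ℤ × ℤ) → ℂ) (u : ℂ), 4 ≤ b →
    FarIn (InB b (fun x => sm up s (cl rt j0 x)) l y) (OutB b (fun x => sm up s (cl rt j0 x)) l y) ω a →
    (∀ a', FarIn (InB b (fun x => sm up s (cl rt j0 x)) l y)
      (OutB b (fun x => sm up s (cl rt j0 x)) l y) ω a' → a' = a) →
    (∀ η, η ⊆ InB b (fun x => sm up s (cl rt j0 x)) l y → ∃ (ζ : Finset (ℤ × ℤ)) (n : ℕ),
      ζ ∩ InB b (fun x => sm up s (cl rt j0 x)) l y = η ∧
      ζ ∩ (OutB b (fun x => sm up s (cl rt j0 x)) l y \ InB b (fun x => sm up s (cl rt j0 x)) l y) =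
        ω ∩ (OutB b (fun x => sm up s (cl rt j0 x)) l y \ InB b (fun x => sm up s (cl rt j0 x)) l y) ∧
      (∀ k < n, lab ((nx ζ)^[k] a) ∈ OutB b (fun x => sm up s (cl rt j0 x)) l y) ∧
      lab ((nx ζ)^[n] a) ∉ OutB b (fun x => sm up s (cl rt j0 x)) l y ∧
      ∀ x ∈ dy b l y, h x η = u * ∑ k ∈ range n, if (nx ζ)^[k] a = sm up s (cl rt j0 x) then
        zt ^ (-2 * KK (nx ζ) (del ζ) a (ty a) k) else 0) →
    ‖∑ x ∈ dy b l y, Ec (fun _ => (1 / 2 : ℂ)) (InB b (fun x => sm up s (cl rt j0 x)) l y) (h x)‖ ≤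
      ‖u‖ * (C * cr ((b : ℝ) ^ l) ^ 2) := by
  obtain ⟨C, hC, hT⟩ := theta_bound hAP
  refine ⟨C, hC, ?_⟩
  intro b l y up rt s j0 ω a h u hb ha hU hh
  set In := InB b (fun x => sm up s (cl rt j0 x)) l y with hIn
  set Out := OutB b (fun x => sm up s (cl rt j0 x)) l y with hOut
  have hIO : In ⊆ Out := in_out_B hb _ _ _
  have hOB : ∃ a1 b1 c1 d1 : ℤ, Out = Bx a1 b1 c1 d1 := by
    rw [hOut]; unfold OutB Bq; exact ⟨_, _, _, _, rfl⟩
  obtain ⟨X, hX, hE, hc0, hk0, -⟩ : ∃ X : Env, PlaneEnv X (ω ∩ (Out \ In)) ∧ X.E = In ∧ X.c0 = a ∧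
      X.k0 = ty a ∧ X.T = 4 := by
    obtain ⟨a1, b1, c1, d1, hO⟩ := hOB
    rw [hO] at ha hIO ⊢
    exact ha.env hIO (ty_mod a)
  have key : ∀ x ∈ dy b l y, ∀ η, η ⊆ In → h x η =
      (u * (if up then 1 else Complex.I) * sgt (cl rt j0 x)) * X.incO η (sm up s (cl rt j0 x)) := by
    intro x hx η hη
    obtain ⟨ζ, n, hζ1, hζ2, hmin, hn, hval⟩ := hh η hη
    rw [hval x hx]
    have hmin' : ∀ k < n, lab ((nx ζ)^[k] X.c0) ∈ Out := by rw [hc0]; exact hmin
    have hn' : lab ((nx ζ)^[n] X.c0) ∉ Out := by rw [hc0]; exact hn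
    have hU' : ∀ z', FarIn In Out ω z' → z' = X.c0 := by rw [hc0]; exact hU
    have hs : ζ ∩ In ⊆ X.E := by rw [hE]; exact inter_subset_right
    have hlen := far_len hIO hX hE hζ2 hmin' hn'
    have hlab : lab (sm up s (cl rt j0 x)) ∈ In := lab_in (by omega) hx
    by_cases hv : ∃ i, i < n ∧ (nx ζ)^[i] a = sm up s (cl rt j0 x)
    · obtain ⟨i, hi, hi'⟩ := hv
      have h1 := incO_far_of hIO hX hE hζ2 hmin' hn' hi
      rw [hc0, hi', hζ1, hk0] at h1
      rw [h1, Finset.sum_eq_single i]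
      · rw [if_pos hi']
        have hmod : KK (nx ζ) (del ζ) a (ty a) i % 4 = ty (sm up s (cl rt j0 x)) := by
          have h2 := (far_iter hIO hX hE hζ2 hmin' i hi.le)
          have h3 := Env.K_mod (X := X) hs i
          rw [h2.1, h2.2, hc0, hk0, hi'] at h3
          exact h3
        rw [phase_seam hmod]
        ring
      · intro j hj hji
        rw [if_neg]
        intro hj'
        have h2 := (far_iter hIO hX hE hζ2 hmin' i hi.le).1
        have h3 := (far_iter hIO hX hE hζ2 hmin' j (mem_range.1 hj).le).1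
        rw [hc0, hi'] at h2
        rw [hc0, hj'] at h3
        exact hji (Env.z_inj hs (by have := mem_range.1 hj; omega) (by omega) (h3.trans h2.symm))
      · intro hni
        exact absurd (mem_range.2 hi) hni
    · push Not at hv
      have h1 := incO_far_zero hIO hX hE hU' hζ2 hmin' hn' hlab (by rw [hc0]; exact hv)
      rw [hζ1] at h1
      rw [h1, mul_zero, Finset.sum_eq_zero, mul_zero]
      intro k hk
      rw [if_neg (hv k (mem_range.1 hk))]
  have e1 : ∑ x ∈ dy b l y, Ec (fun _ => (1 / 2 : ℂ)) In (h x) =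
      (u * (if up then 1 else Complex.I)) * ∑ x ∈ dy b l y, sgt (cl rt j0 x) *
        X.inc (sm up s (cl rt j0 x)) := by
    rw [mul_sum]
    refine sum_congr rfl fun x hx => ?_
    rw [Ec_congr (key x hx), Ec_smul, Env.inc_eq, hE]
    ring
  rw [e1, norm_mul, norm_mul]
  have e2 : ‖(if up then (1 : ℂ) else Complex.I)‖ = 1 := by cases up <;> simp
  rw [e2, mul_one]
  refine mul_le_mul_of_nonneg_left (hT X ⟨_, hX⟩ b l y up rt s j0 (by omega) ?_) (norm_nonneg _)
  rw [hE]

end Pool.Agent.Q1.M6b.Gd
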