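import Mathlib
import Pool.Agent.Q1.M6b.Theta
import Pool.Agent.Q1.M6b.Fact
import Pool.Agent.Q1.M6b.BoxProb

set_option autoImplicit false
open Finset

/-! The bound of the amplitudes (`AmpOK`) from the factorization of the amplitudes and the bound of the
outer factor. -/

namespace Pool.Agent.Q1.M6b.Gd

open Pool.Agent.H75.Perc Pool.Agent.H99.NC Pool.Agent.H75.TwoArm Pool.Agent.Q1 Pool.Agent.Q1.M6c
  Pool.Agent.H69.Q1 Pool.Agent.H47.NC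
open Pool.Agent.H81.G1 (zt)

set_option linter.unusedSectionVars false

variable {ι : Type*} [Fintype ι] [DecidableEq ι]

/-- One window: `h x η` = `u` times the sum of the phases of the visits of the corner `cr x`, by the path of
the configuration `ζ` which is `η` in `In` and `ω` between the boxes, from the far entrance `a` until it
leaves `Out`. -/
structure FarData (cr : ℤ → ℤ × ℤ) (I : Finset ℤ) (In Out ω : Finset (ℤ × ℤ)) (u : ℂ) (a : ℤ × ℤ)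
    (h : ℤ → Finset (ℤ × ℤ) → ℂ) : Prop where
  unit : ‖u‖ ≤ 1
  far : FarIn In Out ω a
  uniq : ∀ a', FarIn In Out ω a' → a' = a
  val : ∀ η, η ⊆ In → ∃ (ζ : Finset (ℤ × ℤ)) (n : ℕ), ζ ∩ In = η ∧
    ζ ∩ (Out \ In) = ω ∩ (Out \ In) ∧ (∀ k < n, lab ((nx ζ)^[k] a) ∈ Out) ∧
    lab ((nx ζ)^[n] a) ∉ Out ∧ ∀ x ∈ I, h x η = u * ∑ k ∈ range n,
      if (nx ζ)^[k] a = cr x then zt ^ (-2 * KK (nx ζ) (del ζ) a (ty a) k) else 0

/-- the labels of the boxes of the stopping intervals -/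
noncomputable def Wi (b : ℤ) (zi : ι → ℤ → ℤ × ℤ) (L : ι → ℕ) (y : ι → ℤ) (i : ι) : Finset (ℤ × ℤ) :=
  if L i = 0 then ∅ else InB b (zi i) (L i) (y i)

/-- **The factorization** of the amplitudes for given stopping intervals, with the outer factor `A`. -/
structure AmpData (b : ℤ) (zi : ι → ℤ → ℤ × ℤ) (L : ι → ℕ) (y : ι → ℤ) (ω : Finset (ℤ × ℤ))
    (Amp : (ι → ℤ) → Finset (ℤ × ℤ) → ℂ) (A : ℂ) (h : ι → ℤ → Finset (ℤ × ℤ) → ℂ) : Prop where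
  fac : ∀ x ∈ Bo b L y, ∀ η, η ⊆ univ.biUnion (Wi b zi L y) →
    Amp x (ω \ (univ.biUnion (Wi b zi L y)) ∪ η) = A * ∏ i, h i (x i) (η ∩ Wi b zi L y i)
  pt : ∀ i, L i = 0 → ‖h i (y i) ∅‖ ≤ 1
  box : ∀ i, L i ≠ 0 → (∀ x ∈ dy b (L i) (y i), ∀ η, η ⊆ InB b (zi i) (L i) (y i) → h i x η = 0) ∨
    (∃ u a, FarData (zi i) (dy b (L i) (y i)) (InB b (zi i) (L i) (y i)) (OutB b (zi i) (L i) (y i)) ω
      u a (h i)) ∨
    ∃ u a, FarData (zi i) (dy b (L i) (y i)) (InB b (zi i) (L i) (y i)) (OutB b (zi i) (L i) (y i)) ω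
      u a (fun x η => (starRingEnd ℂ) (h i x η))

lemma Ec_half_conj {α : Type*} [DecidableEq α] (W : Finset α) (F : Finset α → ℂ) :
    Ec (fun _ => (1 / 2 : ℂ)) W (fun η => (starRingEnd ℂ) (F η)) =
      (starRingEnd ℂ) (Ec (fun _ => (1 / 2 : ℂ)) W F) := by
  rw [Ec_half, Ec_half, map_mul, map_sum, map_pow]
  congr 2
  rw [map_div₀, map_one, map_ofNat]

/-- straight positions: the seam in one of the two directions -/
def Straight (zi : ι → ℤ → ℤ × ℤ) (up : Bool) (s j0 : ℤ) : Prop :=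
  ∀ i, ∃ rt : Bool, zi i = fun x => sm up s (cl rt j0 x)

/-- **`AmpOK` from the factorization.** -/
theorem ampOK_of_data (hAP : AP M6c.PlaneK) : ∃ C : ℝ, 1 ≤ C ∧ ∀ (ι : Type) [Fintype ι] [DecidableEq ι]
    (b : ℤ) (E : Finset (ℤ × ℤ)) (zi : ι → ℤ → ℤ × ℤ) (up : Bool) (s j0 : ℤ)
    (G : Finset (ℤ × ℤ) → ℝ) (n : ι → ℕ) (y0 : ι → ℤ) (Amp : (ι → ℤ) → Finset (ℤ × ℤ) → ℂ),
    4 ≤ b → Straight zi up s j0 →
    (∀ L ∈ Lev n, ∀ y ∈ Num b n y0 L, ∀ i j, i ≠ j → Disjoint (Wi b zi L y i) (Wi b zi L y j)) →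
    (∀ L ∈ Lev n, ∀ y ∈ Num b n y0 L, ∀ ω, ω ⊆ E → Stops b n (fun i => badB b (zi i) E) L y ω →
      ∃ A h, AmpData b zi L y ω Amp A h ∧ ‖A‖ * C ^ Fintype.card ι ≤ G ω) →
    AmpOK b E zi G n y0 Amp := by
  obtain ⟨C0, hC0, hT⟩ := theta_far hAP
  refine ⟨max C0 1, le_max_right _ _, ?_⟩
  intro ι _ _ b E zi up s j0 G n y0 Amp hb hst hdis hdata L hL y hy ω hω hS
  obtain ⟨A, h, hD, hA⟩ := hdata L hL y hy ω hω hS
  set C := max C0 1 with hC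
  have hbR : (0 : ℝ) ≤ (b : ℝ) := by exact_mod_cast (by omega : (0 : ℤ) ≤ b)
  have hwin : ∀ i, ‖∑ x ∈ dy b (L i) (y i), Ec (fun _ => (1 / 2 : ℂ)) (Wi b zi L y i) (h i x)‖ ≤
      C * cr ((b : ℝ) ^ L i) ^ 2 := by
    intro i
    have hcr0 : 0 ≤ cr ((b : ℝ) ^ L i) ^ 2 := sq_nonneg _
    by_cases h0 : L i = 0
    · have e1 : dy b (L i) (y i) = {y i} := by
        ext x
        rw [h0, mem_dy (by omega), pow_zero, Int.ediv_one, mem_singleton]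
      have e2 : Wi b zi L y i = ∅ := by unfold Wi; rw [if_pos h0]
      rw [e1, e2, sum_singleton, Ec_empty, h0, pow_zero, cr_one, one_pow, mul_one]
      exact (hD.pt i h0).trans (le_max_right _ _)
    · have e2 : Wi b zi L y i = InB b (zi i) (L i) (y i) := by unfold Wi; rw [if_neg h0]
      rw [e2]
      rcases hD.box i h0 with h1 | ⟨u, a, h1⟩ | ⟨u, a, h1⟩
      · have : ∑ x ∈ dy b (L i) (y i), Ec (fun _ => (1 / 2 : ℂ)) (InB b (zi i) (L i) (y i)) (h i x) = 0 := by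
          refine sum_eq_zero fun x hx => ?_
          rw [Ec_congr (G := fun _ => 0) (fun η hη => h1 x hx η hη), Ec_const]
        rw [this, norm_zero]
        exact mul_nonneg (by positivity) hcr0
      · obtain ⟨rt, hrt⟩ := hst i
        rw [hrt] at h1 ⊢
        have h2 := hT b (L i) (y i) up rt s j0 ω a (h i) u hb h1.far h1.uniq h1.val
        refine h2.trans ?_
        calc ‖u‖ * (C0 * cr ((b : ℝ) ^ L i) ^ 2) ≤ 1 * (C * cr ((b : ℝ) ^ L i) ^ 2) :=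
              mul_le_mul h1.unit (mul_le_mul_of_nonneg_right (le_max_left _ _) hcr0)
                (mul_nonneg hC0.le hcr0) zero_le_one
          _ = _ := one_mul _
      · obtain ⟨rt, hrt⟩ := hst i
        rw [hrt] at h1 ⊢
        have h2 := hT b (L i) (y i) up rt s j0 ω a (fun x η => (starRingEnd ℂ) (h i x η)) u hb h1.far
          h1.uniq h1.val
        have e3 : ∑ x ∈ dy b (L i) (y i), Ec (fun _ => (1 / 2 : ℂ))
            (InB b (fun x => sm up s (cl rt j0 x)) (L i) (y i)) (fun η => (starRingEnd ℂ) (h i x η)) =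
            (starRingEnd ℂ) (∑ x ∈ dy b (L i) (y i), Ec (fun _ => (1 / 2 : ℂ))
              (InB b (fun x => sm up s (cl rt j0 x)) (L i) (y i)) (h i x)) := by
          rw [map_sum]
          exact sum_congr rfl fun x _ => Ec_half_conj _ _
        have h3 : ‖∑ x ∈ dy b (L i) (y i), Ec (fun _ => (1 / 2 : ℂ))
              (InB b (fun x => sm up s (cl rt j0 x)) (L i) (y i)) (h i x)‖ ≤
            ‖u‖ * (C0 * cr ((b : ℝ) ^ L i) ^ 2) := by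
          rw [← RCLike.norm_conj, ← e3]
          exact h2
        refine h3.trans ?_
        calc ‖u‖ * (C0 * cr ((b : ℝ) ^ L i) ^ 2) ≤ 1 * (C * cr ((b : ℝ) ^ L i) ^ 2) :=
              mul_le_mul h1.unit (mul_le_mul_of_nonneg_right (le_max_left _ _) hcr0)
                (mul_nonneg hC0.le hcr0) zero_le_one
          _ = _ := one_mul _
  have hV : (univ.biUnion fun i => if L i = 0 then ∅ else InB b (zi i) (L i) (y i)) =
      univ.biUnion (Wi b zi L y) := rfl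
  rw [hV]
  have key := bound_of_fact (b := b) (fun _ => (1 / 2 : ℂ)) (L := L) (y := y) (W := Wi b zi L y)
    (hdis L hL y hy) (F := fun x η => Amp x (ω \ (univ.biUnion (Wi b zi L y)) ∪ η)) (A := A) (h := h)
    hD.fac hwin
  refine key.trans ?_
  rw [prod_mul_distrib, prod_const, card_univ, ← mul_assoc, mul_comm]
  exact mul_le_mul_of_nonneg_left hA (prod_nonneg fun i _ => sq_nonneg _)

lemma zz_straight {m₁ m₂ : ℕ} (up : Bool) (s j0 : ℤ) :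
    Straight (zz (m₁ := m₁) (m₂ := m₂) (fun j => sm up s (j0 + j))) up s j0 := by
  rintro (i | i)
  · refine ⟨false, ?_⟩
    funext x
    unfold zz cl
    simp only [Sum.elim_inl, Bool.false_eq_true, if_false]
    congr 1
    ring
  · refine ⟨true, ?_⟩
    funext x
    unfold zz cl
    simp only [Sum.elim_inr, if_true]

lemma RowGeo.in_top {E : Finset (ℤ × ℤ)} {z : ℤ → ℤ × ℤ} {K0 : ℤ} {N₁ N₂ : ℕ} {b : ℤ} (hb : 4 ≤ b)
    (h : RowGeo E z K0 N₁ N₂) {m₁ m₂ : ℕ} (i : Fin m₁ ⊕ Fin m₂) {l n : ℕ} {y y0 : ℤ} (h0 : 0 < l)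
    (hl : l ≤ n) (hy : y ∈ dy b (n - l) y0) : InB b (zz z i) l y ⊆ OutB b (zz z i) n y0 := by
  rw [mem_dy (by omega)] at hy
  rcases eq_or_lt_of_le hl with h3 | h3
  · rw [h3, Nat.sub_self, pow_zero, Int.ediv_one] at hy
    rw [h3, hy]
    exact in_out_B hb _ _ _
  · refine (in_out_B hb _ _ _).trans ((nest_B (by omega) (h.zz_iso i) h3 h0 y).trans ?_)
    rw [hy]
    exact in_out_B hb _ _ _

lemma RowGeo.wi_disj {E : Finset (ℤ × ℤ)} {z : ℤ → ℤ × ℤ} {K0 : ℤ} {N₁ N₂ : ℕ} {b K : ℤ} {S : ℕ}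
    (hb : 4 ≤ b) (h : RowGeo E z K0 N₁ N₂) (hK : 4 * b + 8 ≤ K) {m₁ m₂ : ℕ}
    {k₁ : Fin m₁ → ℕ × ℤ} {k₂ : Fin m₂ → ℕ × ℤ} (hk₁ : k₁ ∈ cells b K S m₁ N₁)
    (hk₂ : k₂ ∈ cells b K S m₂ N₂) {L : Fin m₁ ⊕ Fin m₂ → ℕ} (hL : L ∈ Lev (lv2 k₁ k₂))
    {y : Fin m₁ ⊕ Fin m₂ → ℤ} (hy : y ∈ Num b (lv2 k₁ k₂) (nu2 k₁ k₂) L) (i j : Fin m₁ ⊕ Fin m₂)
    (hij : i ≠ j) : Disjoint (Wi b (zz z) L y i) (Wi b (zz z) L y j) := by
  unfold Wi
  by_cases hi : L i = 0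
  · rw [if_pos hi]; exact disjoint_empty_left _
  by_cases hj : L j = 0
  · rw [if_pos hj]; exact disjoint_empty_right _
  rw [if_neg hi, if_neg hj]
  have hLi := mem_Lev.1 hL
  have hyi := mem_Num.1 hy
  have h1 := hLi i
  have h2 := hLi j
  exact (h.disj (by omega) hK hk₁ hk₂ i j hij (by omega) (by omega)).mono
    (h.in_top hb i (Nat.pos_of_ne_zero hi) h1 (hyi i)) (h.in_top hb j (Nat.pos_of_ne_zero hj) h2 (hyi j))

/-- **(G1) for a straight row**, from the a priori bound, the factorization of the amplitudes and the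
bound of the outer factors. -/
theorem g1_row (hAP : AP M6c.PlaneK) : ∃ b : ℤ, 6 ≤ b ∧ ∃ C : ℝ, 1 ≤ C ∧ ∀ (m : ℕ) (K K0 : ℤ)
    (E : Finset (ℤ × ℤ)) (up : Bool) (s j0 : ℤ) (N₁ N₂ N : ℕ), 1 ≤ K0 →
    K0 * (2 * b + 2) + 8 * b + 32 ≤ K → RowGeo E (fun j => sm up s (j0 + j)) K0 N₁ N₂ → N₁ ≤ N →
    N₂ ≤ N → ∀ f g : Finset (ℤ × ℤ) → ℝ, (∀ ω, ω ⊆ E → 0 ≤ f ω) → (∀ ω, ω ⊆ E → 0 ≤ g ω) →
    ∀ Amp : Finset ℤ → Finset (ℤ × ℤ) → ℂ,
    (∀ S : ℕ, ∀ p ∈ antidiagonal m, ∀ k₁ ∈ cells b K S p.1 N₁, ∀ k₂ ∈ cells b K S p.2 N₂,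
      ∀ L ∈ Lev (lv2 k₁ k₂), ∀ y ∈ Num b (lv2 k₁ k₂) (nu2 k₁ k₂) L, ∀ ω, ω ⊆ E →
      Stops b (lv2 k₁ k₂) (fun i => badB b (zz (fun j => sm up s (j0 + j)) i) E) L y ω →
      ∃ A h, AmpData b (zz (fun j => sm up s (j0 + j))) L y ω (fun x ω => Amp (cols2 x) ω) A h ∧
        ‖A‖ * C ^ m ≤ f ω * g ω) →
    ‖∑ s ∈ powersetCard m (Finset.Ico (-(N₁ : ℤ)) N₂), Ec (fun _ => (1 / 2 : ℂ)) E (Amp s)‖ ≤
      (m + 1) * ((3 * cr b) ^ m * ((Ex (cp (1 / 2)) E (fun ω => f ω ^ 2)) ^ (1 / 2 : ℝ) *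
        (Ex (cp (1 / 2)) E (fun ω => g ω ^ 10)) ^ (1 / 10 : ℝ)) *
          (Cc b K * cr ((N + 1 : ℕ) : ℝ) ^ 2) ^ m) := by
  obtain ⟨C, hC, hA⟩ := ampOK_of_data hAP
  obtain ⟨b, hb, hR⟩ := row_bound
  refine ⟨b, hb, C, hC, ?_⟩
  intro m K K0 E up s j0 N₁ N₂ N hK0 hK hgeo h₁ h₂ f g hf hg Amp hdata
  have hKK : 0 ≤ K0 * (2 * b + 2) := mul_nonneg (by omega) (by omega)
  refine hR m K K0 E _ N₁ N₂ N hK0 hK hgeo h₁ h₂ f g hf hg Amp ?_
  intro S p hp k₁ hk₁ k₂ hk₂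
  refine hA _ b E _ up s j0 _ _ _ _ (by omega) (zz_straight up s j0)
    (fun L hL y hy i j hij => hgeo.wi_disj (by omega) (by omega) hk₁ hk₂ hL hy i j hij) ?_
  intro L hL y hy ω hω hS
  obtain ⟨A, h, h1, h2⟩ := hdata S p hp k₁ hk₁ k₂ hk₂ L hL y hy ω hω hS
  refine ⟨A, h, h1, ?_⟩
  have hcard : Fintype.card (Fin p.1 ⊕ Fin p.2) = m := by
    rw [Fintype.card_sum, Fintype.card_fin, Fintype.card_fin]
    exact mem_antidiagonal.1 hp
  rw [hcard]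
  exact h2

end Pool.Agent.Q1.M6b.Gd
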