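import Mathlib
import Pool.Agent.Q1.M6b.Amp
import Pool.Agent.H81.NC.ProbB

set_option autoImplicit false
open Finset

/-! Conditioning on the labels near finitely many wall points. -/

namespace Pool.Agent.Q1.M6b.Gd

open Pool.Agent.H75.Perc Pool.Agent.H99.NC Pool.Agent.H81

section gen
variable {α : Type*} [DecidableEq α]


/-- **Conditioning lemma**: the expectation over the outer labels vanishes off an event of the inner
labels, and is bounded by `M` on it. -/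
theorem cond_norm {B E' : Finset α} (hd : Disjoint B E') {P1 : Finset α → Prop}
    {F : Finset α → ℂ} {M : ℝ}
    (h0 : ∀ ξ, ξ ⊆ B → ¬ P1 ξ → Ec (fun _ => (1 / 2 : ℂ)) E' (fun ω => F (ξ ∪ ω)) = 0)
    (h1 : ∀ ξ, ξ ⊆ B → P1 ξ → ‖Ec (fun _ => (1 / 2 : ℂ)) E' (fun ω => F (ξ ∪ ω))‖ ≤ M) :
    ‖Ec (fun _ => (1 / 2 : ℂ)) (B ∪ E') F‖ ≤ PrP (fun _ => (1 / 2 : ℝ)) B P1 * M := by
  rw [Ec_union _ hd]
  have h2 := Ec_half_norm (E := B)
    (F := fun ξ => Ec (fun _ => (1 / 2 : ℂ)) E' (fun ω => F (ξ ∪ ω)))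
    (g := fun ξ => ind (P1 ξ) * M) (by
      intro ξ hξ
      by_cases h : P1 ξ
      · rw [ind_true h, one_mul]; exact h1 ξ hξ h
      · rw [ind_false h, zero_mul]
        simp only [h0 ξ hξ h, norm_zero, le_refl])
  refine h2.trans (le_of_eq ?_)
  unfold PrP
  rw [mul_comm, ← Ex_smul]
  exact Ex_congr fun ω _ => mul_comm _ _

end gen

end Pool.Agent.Q1.M6b.Gd
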