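import Mathlib
import Pool.Agent.Q1.M6b.Wall

set_option autoImplicit false
open Finset

/-! # The alternating sum over the ties at a set of wall points

`G T ω` : a function of the set `T` of the open ties and of the bulk labels `ω`. If the tie at `x` matters
only on an event `P1 x` of the labels in the box `B x` (the wall cluster of `x` is large), then the
alternating sum over the subsets `T` of `w` gains the factor `P (P1 x)` for every `x ∈ w`. -/

namespace Pool.Agent.Q1.M6b.Gd

open Pool.Agent.H75.Perc Pool.Agent.H99.NC Pool.Agent.H81.NC Pool.Agent.H81.NC.ProbB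

variable {α : Type*} [DecidableEq α] {ι : Type*} [DecidableEq ι]

/-- alternating sum over the subsets of `w` -/
noncomputable def alt (w : Finset ι) (G : Finset ι → ℂ) : ℂ :=
  ∑ T ∈ w.powerset, (-1) ^ (w.card - T.card) * G T

lemma alt_zero {w : Finset ι} {x : ι} (hx : x ∈ w) {G : Finset ι → ℂ}
    (h : ∀ T, T ⊆ w → x ∉ T → G T = G (insert x T)) : alt w G = 0 := by
  obtain ⟨v, hv, rfl⟩ : ∃ v, x ∉ v ∧ w = insert x v :=
    ⟨w.erase x, notMem_erase x w, (insert_erase hx).symm⟩
  unfold alt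
  rw [sum_powerset_insert hv, ← sum_add_distrib]
  refine sum_eq_zero fun T hT => ?_
  have hTv := mem_powerset.1 hT
  have hxT : x ∉ T := fun h1 => hv (hTv h1)
  rw [← h T (hTv.trans (subset_insert _ _)) hxT, card_insert_of_notMem hv,
    card_insert_of_notMem hxT]
  have h1 : T.card ≤ v.card := card_le_card hTv
  have e1 : v.card + 1 - T.card = (v.card - T.card) + 1 := by omega
  have e2 : v.card + 1 - (T.card + 1) = v.card - T.card := by omega
  rw [e1, e2, pow_succ]
  ring

lemma alt_norm (w : Finset ι) (G : Finset ι → ℂ) {M : ℝ} (h : ∀ T, T ⊆ w → ‖G T‖ ≤ M) :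
    ‖alt w G‖ ≤ 2 ^ w.card * M := by
  unfold alt
  refine (norm_sum_le _ _).trans ((sum_le_sum (g := fun _ => M) fun T hT => ?_).trans (le_of_eq ?_))
  · rw [norm_mul, norm_pow, norm_neg, norm_one, one_pow, one_mul]
    exact h T (mem_powerset.1 hT)
  · rw [sum_const, card_powerset, nsmul_eq_mul]; push_cast; rfl

lemma alt_Ec (q : α → ℂ) (E : Finset α) (w : Finset ι) (G : Finset ι → Finset α → ℂ) :
    Ec q E (fun ω => alt w (fun T => G T ω)) = alt w (fun T => Ec q E (G T)) := by
  unfold alt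
  rw [Ec_sum]
  exact sum_congr rfl fun T _ => Ec_smul _ _ _ _

/-- **The gain from the ties.** -/
theorem wall_bound {Bk : Finset α} {w : Finset ι} {B : ι → Finset α} {P1 : ι → Finset α → Prop}
    {G : Finset ι → Finset α → ℂ} {M : ℝ} (hB : ∀ x ∈ w, B x ⊆ Bk)
    (hd : ∀ x ∈ w, ∀ y ∈ w, x ≠ y → Disjoint (B x) (B y))
    (h0 : ∀ x ∈ w, ∀ T, T ⊆ w → x ∉ T → ∀ ω, ω ⊆ Bk → ¬ P1 x (ω ∩ B x) →
      G T ω = G (insert x T) ω)
    (h1 : ∀ ξ, ξ ⊆ w.biUnion B → (∀ x ∈ w, P1 x (ξ ∩ B x)) → ∀ T, T ⊆ w →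
      ‖Ec (fun _ => (1 / 2 : ℂ)) (Bk \ w.biUnion B) (fun ω => G T (ξ ∪ ω))‖ ≤ M) :
    ‖alt w (fun T => Ec (fun _ => (1 / 2 : ℂ)) Bk (G T))‖ ≤
      (∏ x ∈ w, PrP (fun _ => (1 / 2 : ℝ)) (B x) (P1 x)) * (2 ^ w.card * M) := by
  have hsub : w.biUnion B ⊆ Bk := biUnion_subset.2 hB
  have hU : Bk = w.biUnion B ∪ (Bk \ w.biUnion B) := (union_sdiff_of_subset hsub).symm
  have hcut : ∀ ξ, ξ ⊆ w.biUnion B → ∀ ω, ω ⊆ Bk \ w.biUnion B → ∀ x ∈ w,
      (ξ ∪ ω) ∩ B x = ξ ∩ B x := by
    intro ξ _ ω hω x hx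
    rw [union_inter_distrib_right]
    have : ω ∩ B x = ∅ := by
      rw [← disjoint_iff_inter_eq_empty, disjoint_left]
      intro a ha hb
      exact (mem_sdiff.1 (hω ha)).2 (mem_biUnion.2 ⟨x, hx, hb⟩)
    rw [this, union_empty]
  rw [← alt_Ec, hU, ← PrP_indep_fin (fun _ => (1 / 2 : ℝ)) w B P1
    (E := w.biUnion B) (fun x hx => subset_biUnion_of_mem B hx) hd]
  refine cond_norm disjoint_sdiff ?_ ?_
  · intro ξ hξ hP
    push Not at hP
    obtain ⟨x, hx, hP⟩ := hP
    have h2 : ∀ ω, ω ⊆ Bk \ w.biUnion B → alt w (fun T => G T (ξ ∪ ω)) = 0 := by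
      intro ω hω
      refine alt_zero hx fun T hT hxT => h0 x hx T hT hxT _ ?_ ?_
      · exact union_subset (hξ.trans hsub) (hω.trans sdiff_subset)
      · rw [hcut ξ hξ ω hω x hx]; exact hP
    rw [Ec_congr h2, Ec_const]
  · intro ξ hξ hP
    have e1 : Ec (fun _ => (1 / 2 : ℂ)) (Bk \ w.biUnion B)
        (fun ω => alt w (fun T => G T (ξ ∪ ω))) =
        alt w (fun T => Ec (fun _ => (1 / 2 : ℂ)) (Bk \ w.biUnion B) (fun ω => G T (ξ ∪ ω))) :=
      alt_Ec _ _ w (fun T ω => G T (ξ ∪ ω))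
    rw [e1]
    exact alt_norm w _ fun T hT => h1 ξ hξ hP T hT

/-- **Expansion in the weights of the ties**: the weight of the label `e` is `q0 e + dq e`. -/
theorem Ec_expand (q0 dq : α → ℂ) (A : Finset α) (F : Finset α → ℂ) :
    Ec (fun e => q0 e + dq e) A F = ∑ w ∈ A.powerset, (∏ e ∈ w, dq e) *
      Ec q0 (A \ w) (fun ω => alt w (fun T => F (ω ∪ T))) := by
  induction A using Finset.induction_on generalizing F with
  | empty => simp [alt]
  | insert e A he ih =>
    rw [Ec_insert _ he, sum_powerset_insert he, ih, ih, mul_sum, mul_sum, ← sum_add_distrib,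
      ← sum_add_distrib]
    refine sum_congr rfl fun w hw => ?_
    have hwA := mem_powerset.1 hw
    have hew : e ∉ w := fun h => he (hwA h)
    have h1 : insert e A \ w = insert e (A \ w) := insert_sdiff_of_notMem _ hew
    have h2 : insert e A \ insert e w = A \ w := by
      ext x
      simp only [mem_sdiff, mem_insert]
      constructor
      · rintro ⟨h3 | h3, h4⟩
        · exact absurd (Or.inl h3) h4
        · exact ⟨h3, fun h => h4 (Or.inr h)⟩
      · rintro ⟨h3, h4⟩
        refine ⟨Or.inr h3, ?_⟩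
        rintro (h | h)
        · rw [h] at h3; exact he h3
        · exact h4 h
    have h3 : e ∉ A \ w := fun h => he (mem_sdiff.1 h).1
    rw [h1, h2, prod_insert hew, Ec_insert _ h3]
    have h4 : ∀ ω, ω ⊆ A \ w → alt (insert e w) (fun T => F (ω ∪ T)) =
        alt w (fun T => F (insert e ω ∪ T)) - alt w (fun T => F (ω ∪ T)) := by
      intro ω _
      unfold alt
      rw [sum_powerset_insert hew, ← sum_sub_distrib, ← sum_add_distrib]
      refine sum_congr rfl fun T hT => ?_
      have hTw := mem_powerset.1 hT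
      have heT : e ∉ T := fun h => hew (hTw h)
      rw [card_insert_of_notMem hew, card_insert_of_notMem heT]
      have h5 : T.card ≤ w.card := card_le_card hTw
      have e1 : w.card + 1 - T.card = (w.card - T.card) + 1 := by omega
      have e2 : w.card + 1 - (T.card + 1) = w.card - T.card := by omega
      simp only []
      rw [e1, e2, pow_succ, union_insert, insert_union]
      ring
    rw [Ec_congr h4, Ec_sub]
    have h5 : Ec q0 (A \ w) (fun ω => alt w (fun T => F (insert e (ω ∪ T)))) =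
        Ec q0 (A \ w) (fun ω => alt w (fun T => F (insert e ω ∪ T))) :=
      Ec_congr fun ω _ => by simp only [insert_union]
    rw [h5]
    ring

end Pool.Agent.Q1.M6b.Gd
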