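import Mathlib

set_option autoImplicit false
open Finset

/-! # Taylor coefficients at `0` of the amplitude of a row -/

namespace Pool.Agent.Q1.M6b.Tay

open Filter Topology Metric

/-- a function which is `O(z ^ (m + 1))` has vanishing `m`-th derivative at `0` -/
lemma iteratedDeriv_zero_of_bound {f : ℂ → ℂ} {m : ℕ} {D : ℝ}
    (hd : DifferentiableOn ℂ f (ball 0 2)) (hb : ∀ z ∈ ball (0 : ℂ) 2, ‖f z‖ ≤ D * ‖z‖ ^ (m + 1)) :
    iteratedDeriv m f 0 = 0 := by
  have key : ∀ r : ℝ, 0 < r → r < 1 → ‖iteratedDeriv m f 0‖ ≤ m.factorial * |D| * r := by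
    intro r hr hr1
    have hcl : DiffContOnCl ℂ f (ball 0 r) :=
      hd.diffContOnCl_ball (closedBall_subset_ball (by linarith))
    have h1 := Complex.norm_iteratedDeriv_le_of_forall_mem_sphere_norm_le m hr hcl
      (C := |D| * r ^ (m + 1)) (by
        intro z hz
        have hz' : ‖z‖ = r := by simpa using hz
        have h2 := hb z (by rw [mem_ball_zero_iff, hz']; linarith)
        rw [hz'] at h2
        exact h2.trans (mul_le_mul_of_nonneg_right (le_abs_self D) (by positivity)))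
    refine h1.trans (le_of_eq ?_)
    rw [pow_succ]
    field_simp
  by_contra hne
  have hpos : 0 < ‖iteratedDeriv m f 0‖ := norm_pos_iff.2 hne
  set B : ℝ := m.factorial * |D| + 1 with hB
  have hB1 : 0 < B := by positivity
  set r : ℝ := min (1 / 2) (‖iteratedDeriv m f 0‖ / (2 * B)) with hr
  have hr0 : 0 < r := lt_min (by norm_num) (by positivity)
  have hr1 : r < 1 := (min_le_left _ _).trans_lt (by norm_num)
  have h1 := key r hr0 hr1
  have h2 : m.factorial * |D| * r ≤ B * r := mul_le_mul_of_nonneg_right (by linarith) hr0.le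
  have h3 : B * r ≤ ‖iteratedDeriv m f 0‖ / 2 := by
    have h4 : r ≤ ‖iteratedDeriv m f 0‖ / (2 * B) := min_le_right _ _
    calc B * r ≤ B * (‖iteratedDeriv m f 0‖ / (2 * B)) := mul_le_mul_of_nonneg_left h4 hB1.le
      _ = _ := by field_simp
  linarith

/-- Taylor coefficients of a sum of a small function and a function which vanishes of high order -/
lemma taylor_bound {V P Q : ℂ → ℂ} {m : ℕ} {C D : ℝ} (hV : V =ᶠ[𝓝 0] fun z => P z + Q z)
    (hP : DifferentiableOn ℂ P (ball 0 2)) (hPb : ∀ z ∈ ball (0 : ℂ) 2, ‖P z‖ ≤ C)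
    (hQ : DifferentiableOn ℂ Q (ball 0 2))
    (hQb : ∀ z ∈ ball (0 : ℂ) 2, ‖Q z‖ ≤ D * ‖z‖ ^ (m + 1)) :
    ‖iteratedDeriv m V 0‖ ≤ m.factorial * C := by
  have hmem : (0 : ℂ) ∈ ball (0 : ℂ) 2 := mem_ball_self (by norm_num)
  have aP : AnalyticAt ℂ P 0 := hP.analyticAt (isOpen_ball.mem_nhds hmem)
  have aQ : AnalyticAt ℂ Q 0 := hQ.analyticAt (isOpen_ball.mem_nhds hmem)
  have h1 : iteratedDeriv m V 0 = iteratedDeriv m (fun z => P z + Q z) 0 :=
    hV.iteratedDeriv_eq m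
  have h2 : iteratedDeriv m (fun z => P z + Q z) 0 = iteratedDeriv m P 0 + iteratedDeriv m Q 0 :=
    iteratedDeriv_fun_add aP.contDiffAt aQ.contDiffAt
  rw [h1, h2, iteratedDeriv_zero_of_bound hQ hQb, add_zero]
  have hcl : DiffContOnCl ℂ P (ball 0 1) :=
    hP.diffContOnCl_ball (closedBall_subset_ball (by norm_num))
  have h3 := Complex.norm_iteratedDeriv_le_of_forall_mem_sphere_norm_le m (R := 1) one_pos hcl
    (C := C) (fun z hz => hPb z (by
      have hz' : ‖z‖ = 1 := by simpa using hz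
      rw [mem_ball_zero_iff, hz']; norm_num))
  simpa using h3

/-- **Taylor coefficients of the amplitudes of the rows.** `mn n` : a function of the small parameter
which vanishes of order `deg n`, `H j v n` : its coefficient, at most `R ^ (2/3 deg n + s)`, `s < 2/3`. -/
theorem taylor_zero {Idx : Type*} {deg : Idx → ℕ} (hfin : ∀ m, {n | deg n ≤ m}.Finite)
    {mn : Idx → ℂ → ℂ} {ρ : ℝ} (hρ : 0 < ρ) {B : Idx → ℝ}
    (hd : ∀ n, DifferentiableOn ℂ (mn n) (ball 0 ρ))
    (hB : ∀ n, ∀ z ∈ ball (0 : ℂ) ρ, ‖mn n z‖ ≤ B n * ‖z‖ ^ deg n)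
    {ι : Type*} {R : ℕ → ℝ} (hR : Tendsto R atTop atTop) {S : ℕ → Set ι} {s : ℝ} (hs : s < 2 / 3)
    {I : ℕ → ι → Finset Idx} {H : ℕ → ι → Idx → ℂ}
    (hH : ∀ n, ∃ C : ℝ, ∀ᶠ j in atTop, ∀ v ∈ S j, ‖H j v n‖ ≤ C * R j ^ ((2 / 3 : ℝ) * deg n + s))
    {V : ℕ → ι → ℂ → ℂ}
    (hV : ∀ᶠ j in atTop, ∀ v ∈ S j, ∀ᶠ z in 𝓝 (0 : ℂ), V j v z =
      (R j ^ (-(2 / 3) : ℝ) : ℝ) * ∑ n ∈ I j v, mn n (z * (R j ^ (-(2 / 3) : ℝ) : ℝ)) * H j v n) :
    ∀ m : ℕ, ∀ ε > 0, ∀ᶠ j in atTop, ∀ v ∈ S j, ‖iteratedDeriv m (V j v) 0‖ ≤ ε := by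
  classical
  intro m ε hε
  choose C hC using hH
  set Dm : Finset Idx := (hfin m).toFinset with hDm
  have hmem : ∀ n, n ∈ Dm ↔ deg n ≤ m := fun n => by rw [hDm, Set.Finite.mem_toFinset]; rfl
  set K : ℝ := ∑ n ∈ Dm, |B n| * 2 ^ deg n * |C n| with hK
  have hK0 : 0 ≤ K := sum_nonneg fun n _ => by positivity
  -- the error tends to zero
  have hlim : Tendsto (fun j => (m.factorial : ℝ) * (K * R j ^ (s - 2 / 3))) atTop (𝓝 0) := by
    have h1 : Tendsto (fun j => R j ^ (s - 2 / 3)) atTop (𝓝 0) := by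
      have h2 := (tendsto_rpow_neg_atTop (show (0 : ℝ) < 2 / 3 - s by linarith)).comp hR
      refine h2.congr fun j => ?_
      simp only [Function.comp]
      congr 1
      ring
    have h3 := (h1.const_mul K).const_mul (m.factorial : ℝ)
    simpa using h3
  have hsmall := hlim.eventually (gt_mem_nhds hε)
  have hall : ∀ᶠ j in atTop, ∀ n ∈ Dm, ∀ v ∈ S j,
      ‖H j v n‖ ≤ C n * R j ^ ((2 / 3 : ℝ) * deg n + s) := by
    rw [Filter.eventually_all_finset]
    exact fun n _ => hC n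
  have heps : ∀ᶠ j in atTop, R j ^ (-(2 / 3) : ℝ) < ρ / 2 := by
    have h2 := (tendsto_rpow_neg_atTop (show (0 : ℝ) < 2 / 3 by norm_num)).comp hR
    exact h2.eventually (gt_mem_nhds (by positivity))
  have hR1 : ∀ᶠ j in atTop, 1 ≤ R j := hR.eventually (eventually_ge_atTop 1)
  filter_upwards [hsmall, hall, heps, hR1, hV] with j h1 h2 h3 h4 h5 v hv
  have hRp : 0 < R j := by linarith
  set e : ℝ := R j ^ (-(2 / 3) : ℝ) with he
  have he0 : 0 < e := Real.rpow_pos_of_pos hRp _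
  have hball : ∀ z ∈ ball (0 : ℂ) 2, z * (e : ℂ) ∈ ball (0 : ℂ) ρ := by
    intro z hz
    rw [mem_ball_zero_iff] at hz ⊢
    rw [norm_mul, Complex.norm_real, Real.norm_eq_abs, abs_of_pos he0]
    calc ‖z‖ * e ≤ 2 * e := mul_le_mul_of_nonneg_right hz.le he0.le
      _ < ρ := by linarith
  have hnorm : ∀ (z : ℂ), ‖z * (e : ℂ)‖ = ‖z‖ * e := by
    intro z
    rw [norm_mul, Complex.norm_real, Real.norm_eq_abs, abs_of_pos he0]
  have hterm : ∀ n, ∀ z ∈ ball (0 : ℂ) 2, ‖mn n (z * (e : ℂ)) * H j v n‖ ≤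
      |B n| * (‖z‖ ^ deg n * e ^ deg n) * ‖H j v n‖ := by
    intro n z hz
    rw [norm_mul]
    refine mul_le_mul_of_nonneg_right ?_ (norm_nonneg _)
    refine (hB n _ (hball z hz)).trans ?_
    rw [hnorm, mul_pow]
    exact mul_le_mul_of_nonneg_right (le_abs_self _) (by positivity)
  have hdiff : ∀ T : Finset Idx, DifferentiableOn ℂ
      (fun z => (e : ℂ) * ∑ n ∈ T, mn n (z * (e : ℂ)) * H j v n) (ball 0 2) := by
    intro T
    refine (DifferentiableOn.fun_sum fun n _ => ?_).const_mul _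
    refine DifferentiableOn.mul_const ?_ _
    exact (hd n).comp ((differentiable_id.mul_const _).differentiableOn) fun z hz => hball z hz
  set I1 := (I j v).filter (fun n => deg n ≤ m) with hI1
  set I2 := (I j v).filter (fun n => ¬ deg n ≤ m) with hI2
  have key := taylor_bound (V := V j v) (m := m) (C := K * R j ^ (s - 2 / 3))
    (D := e * ∑ n ∈ I2, |B n| * (2 ^ (deg n - (m + 1)) * e ^ deg n) * ‖H j v n‖)
    (P := fun z => (e : ℂ) * ∑ n ∈ I1, mn n (z * (e : ℂ)) * H j v n)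
    (Q := fun z => (e : ℂ) * ∑ n ∈ I2, mn n (z * (e : ℂ)) * H j v n) ?_ (hdiff I1) ?_ (hdiff I2) ?_
  · exact key.trans h1.le
  · filter_upwards [h5 v hv] with z hz
    rw [hz, ← mul_add, sum_filter_add_sum_filter_not]
  · intro z hz
    rw [norm_mul, Complex.norm_real, Real.norm_eq_abs, abs_of_pos he0]
    have hz2 : ‖z‖ ≤ 2 := (mem_ball_zero_iff.1 hz).le
    have a1 : ‖∑ n ∈ I1, mn n (z * (e : ℂ)) * H j v n‖ ≤
        ∑ n ∈ Dm, |B n| * 2 ^ deg n * |C n| * R j ^ s := by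
      refine (norm_sum_le _ _).trans ((sum_le_sum fun n hn => ?_).trans
        (sum_le_sum_of_subset_of_nonneg (s := I1) (t := Dm) (fun n hn => ?_) fun n _ _ => ?_))
      · have hn' := (mem_filter.1 hn).2
        refine (hterm n z hz).trans ?_
        have b1 : ‖H j v n‖ ≤ |C n| * (R j ^ ((2 / 3 : ℝ) * deg n) * R j ^ s) := by
          rw [← Real.rpow_add hRp]
          exact (h2 n ((hmem n).2 hn') v hv).trans
            (mul_le_mul_of_nonneg_right (le_abs_self _) (Real.rpow_nonneg hRp.le _))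
        have b2 : e ^ deg n * R j ^ ((2 / 3 : ℝ) * deg n) = 1 := by
          rw [he, ← Real.rpow_natCast, ← Real.rpow_mul hRp.le, ← Real.rpow_add hRp]
          have : -(2 / 3 : ℝ) * (deg n : ℝ) + 2 / 3 * (deg n : ℝ) = 0 := by ring
          rw [this, Real.rpow_zero]
        have b3 : ‖z‖ ^ deg n ≤ 2 ^ deg n := pow_le_pow_left₀ (norm_nonneg _) hz2 _
        calc |B n| * (‖z‖ ^ deg n * e ^ deg n) * ‖H j v n‖
            ≤ |B n| * (2 ^ deg n * e ^ deg n) *
              (|C n| * (R j ^ ((2 / 3 : ℝ) * deg n) * R j ^ s)) := by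
              refine mul_le_mul ?_ b1 (norm_nonneg _) (by positivity)
              exact mul_le_mul_of_nonneg_left (mul_le_mul_of_nonneg_right b3 (by positivity))
                (abs_nonneg _)
          _ = |B n| * 2 ^ deg n * |C n| * R j ^ s *
              (e ^ deg n * R j ^ ((2 / 3 : ℝ) * deg n)) := by ring
          _ = _ := by rw [b2, mul_one]
      · exact (hmem n).2 (mem_filter.1 hn).2
      · positivity
    calc e * ‖∑ n ∈ I1, mn n (z * (e : ℂ)) * H j v n‖
        ≤ e * ∑ n ∈ Dm, |B n| * 2 ^ deg n * |C n| * R j ^ s :=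
          mul_le_mul_of_nonneg_left a1 he0.le
      _ = K * (e * R j ^ s) := by rw [← sum_mul, hK]; ring
      _ = K * R j ^ (s - 2 / 3) := by
          rw [he, ← Real.rpow_add hRp]
          congr 2
          ring
  · intro z hz
    rw [norm_mul, Complex.norm_real, Real.norm_eq_abs, abs_of_pos he0]
    have hz2 : ‖z‖ ≤ 2 := (mem_ball_zero_iff.1 hz).le
    rw [mul_assoc e]
    refine mul_le_mul_of_nonneg_left ?_ he0.le
    rw [sum_mul]
    refine (norm_sum_le _ _).trans (sum_le_sum fun n hn => ?_)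
    have hn' := (mem_filter.1 hn).2
    refine (hterm n z hz).trans ?_
    have b4 : ‖z‖ ^ deg n ≤ 2 ^ (deg n - (m + 1)) * ‖z‖ ^ (m + 1) := by
      have b5 : deg n = (deg n - (m + 1)) + (m + 1) := by omega
      conv_lhs => rw [b5, pow_add]
      exact mul_le_mul_of_nonneg_right (pow_le_pow_left₀ (norm_nonneg _) hz2 _) (by positivity)
    calc |B n| * (‖z‖ ^ deg n * e ^ deg n) * ‖H j v n‖
        ≤ |B n| * (2 ^ (deg n - (m + 1)) * ‖z‖ ^ (m + 1) * e ^ deg n) * ‖H j v n‖ := by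
          refine mul_le_mul_of_nonneg_right ?_ (norm_nonneg _)
          exact mul_le_mul_of_nonneg_left (mul_le_mul_of_nonneg_right b4 (by positivity))
            (abs_nonneg _)
      _ = _ := by ring

end Pool.Agent.Q1.M6b.Tay
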