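import Mathlib
import Pool.Agent.H95.R45.Stmt
import Pool.Agent.H40.R45.Vz

set_option autoImplicit false
open Finset

/-! # Chapter B (R45): the statements behind `AB45`

`VV` (helper40) : the increments of the difference of the potentials as a function of
`z = t R ^ (2/3)`, `t = exp (2 i u / 3)`, divided by `R ^ (2/3)`. `BD45` : a priori bound on every disc.
`Tay45` : the Taylor coefficients at `0` tend to `0`. -/

namespace Pool.Agent.Q1.M6b.AB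

open Pool.Agent.Q1 Pool.Agent.H74.R45 Pool.Agent.H40.R45 Pool.Agent.H95.R45
open Pool.Agent.Q1.M6e (OFar Inn inc2)
open Pool.Agent.H33.Q1

/-- a priori bound of the potentials at the weights `aT (z R ^ (-2/3))`, `bT (z R ^ (-2/3))` -/
def BD45 : Prop :=
  ∀ η : ℝ, 0 < η → ∀ Z : ℝ, ∃ M : ℝ, ∃ R0 : ℕ, ∀ R : ℕ, R0 ≤ R → ∀ (w h : ℤ) (O : Out w h),
    Sc η R O → ∀ top : Bool, ∀ z : ℂ, ‖z‖ ≤ Z → ∀ H : ℤ → ℤ → ℂ,
    PotJ O top (aT (z * (((R : ℝ) ^ (-(2 / 3) : ℝ) : ℝ) : ℂ)))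
      (bT (z * (((R : ℝ) ^ (-(2 / 3) : ℝ) : ℝ) : ℂ))) H →
    ∀ p q : ℤ × ℤ, Inn w h (η * R) p → Inn w h (η * R) q →
    ‖inc2 H p q‖ ≤ M * (R : ℝ) ^ (2 / 3 : ℝ)

/-- the Taylor coefficients tend to zero -/
def Tay45 : Prop :=
  ∀ η : ℝ, 0 < η → ∀ m : ℕ, ∀ ε : ℝ, 0 < ε → ∃ R0 : ℕ, ∀ R : ℕ, R0 ≤ R → ∀ (w h : ℤ)
    (O : Out w h), Sc η R O → ∀ p q : ℤ × ℤ, p.2 % 2 = 0 → q.2 % 2 = 0 → Inn w h (η * R) p →
    Inn w h (η * R) q → ‖iteratedDeriv m (VV O (R : ℝ) p.2 p.1 q.2 q.1) 0‖ ≤ ε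

/-- the comparison of the environments of the rows (chapter A) -/
def Same45 : Prop :=
  ∀ (w h : ℤ) (O : Out w h), RootOut O → ∀ u : ℂ, 1 ≤ u.im → Same O (Pool.Agent.H64.Q1.wa u)
    (Pool.Agent.H64.Q1.wa (u + Real.pi / 2))

end Pool.Agent.Q1.M6b.AB
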