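import Mathlib
import Pool.Agent.Q1.M6b.ABdef
import Pool.Agent.Q1.M6f.Vitali

set_option autoImplicit false
open Finset Filter Topology

/-! # `AB45` from the Taylor coefficients, the a priori bound and the comparison of the rows -/

namespace Pool.Agent.Q1.M6b.AB

open Pool.Agent.H75.Perc Pool.Agent.H75.TwoArm
open Pool.Agent.Q1 Pool.Agent.H74.R45 Pool.Agent.H40.R45 Pool.Agent.H95.R45
open Pool.Agent.Q1.M6e (OFar Inn inc2)
open Pool.Agent.H33.Q1 Pool.Agent.H64.Q1 Pool.Agent.Q1.M6f Pool.Agent.Q1.M6f.Glue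
open Pool.Agent.H25.Q1.Close Metric

/-! ### Differentiability -/

lemma Ec_diff {α : Type*} [DecidableEq α] {q : α → ℂ → ℂ} {D : Set ℂ}
    (hq : ∀ e, DifferentiableOn ℂ (q e) D) (E : Finset α) (F : Finset α → ℂ) :
    DifferentiableOn ℂ (fun z => Ec (fun e => q e z) E F) D := by
  unfold Ec
  refine DifferentiableOn.fun_sum fun ω _ => ?_
  refine DifferentiableOn.mul_const ?_ _
  unfold wtc
  refine DifferentiableOn.fun_mul ?_ ?_
  · exact DifferentiableOn.fun_finsetProd fun e _ => hq e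
  · exact DifferentiableOn.fun_finsetProd fun e _ => (hq e).const_sub 1

lemma FJ_diff {w h : ℤ} (O : Out w h) {a b : ℂ → ℂ} {D : Set ℂ} (ha : DifferentiableOn ℂ a D)
    (hb : DifferentiableOn ℂ b D) (j : ℤ) (c : ℤ × ℤ) :
    DifferentiableOn ℂ (fun z => FJ O (a z) (b z) j c) D := by
  unfold FJ
  by_cases H : 0 ≤ j ∧ j ≤ h
  · simp only [dif_pos H]
    unfold Env.incW
    refine Ec_diff (q := fun e z => qJ w h j (a z) (b z) e) (fun e => ?_) _ _
    unfold qJ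
    by_cases h1 : (tt e).1 = -1 ∨ (tt e).1 = w
    · simp only [if_pos h1]
      by_cases h2 : ((tt e).1 + (tt e).2) % 2 = 1
      · simp only [if_pos h2]; exact hb
      · simp only [if_neg h2]; exact hb.const_sub 1
    · simp only [if_neg h1]
      by_cases h3 : (tt e).2 = j - 1
      · simp only [if_pos h3]
        by_cases h2 : ((tt e).1 + (tt e).2) % 2 = 0
        · simp only [if_pos h2]; exact ha
        · simp only [if_neg h2]; exact ha.const_sub 1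
      · simp only [if_neg h3]; exact differentiableOn_const _
  · simp only [dif_neg H]; exact differentiableOn_const _

lemma VV_diff {w h : ℤ} (O : Out w h) {R : ℕ} {Z : ℝ} (hR : ((R : ℝ) ^ (-(2 / 3) : ℝ)) * Z ≤ 1 / 2)
    (hR0 : 0 < R) (j x j' x' : ℤ) : DifferentiableOn ℂ (VV O (R : ℝ) j x j' x') (ball 0 Z) := by
  set e : ℝ := (R : ℝ) ^ (-(2 / 3) : ℝ) with he
  have he0 : 0 < e := Real.rpow_pos_of_pos (by exact_mod_cast hR0) _
  have hm : ∀ z ∈ ball (0 : ℂ) Z, z * (e : ℂ) ∈ ball (0 : ℂ) (1 / 2) := by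
    intro z hz
    rw [mem_ball_zero_iff] at hz ⊢
    rw [norm_mul, Complex.norm_real, Real.norm_eq_abs, abs_of_pos he0]
    nlinarith
  have hl : DifferentiableOn ℂ (fun z : ℂ => z * (e : ℂ)) (ball 0 Z) :=
    (differentiable_id.mul_const _).differentiableOn
  have ha : DifferentiableOn ℂ (fun z : ℂ => aT (z * (e : ℂ))) (ball 0 Z) := aT_diff.comp hl hm
  have hb : DifferentiableOn ℂ (fun z : ℂ => bT (z * (e : ℂ))) (ball 0 Z) := bT_diff.comp hl hm
  have hr : DifferentiableOn ℂ (fun z : ℂ => rT (z * (e : ℂ))) (ball 0 Z) := rT_diff.comp hl hm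
  unfold Pool.Agent.H40.R45.VV
  rw [← he]
  refine DifferentiableOn.const_mul ?_ _
  refine hr.fun_mul ?_
  exact ((FJ_diff O ha hb _ _).const_mul _).fun_sub ((FJ_diff O ha hb _ _).const_mul _)

/-! ### The parameter -/

/-- a rapidity with given `t` -/
lemma exists_rap {t : ℂ} (ht : t ≠ 0) (h1 : ‖t‖ < 1 / 4) : ∃ u : ℂ, 1 ≤ u.im ∧
    t = Complex.exp (2 * Complex.I * u / 3) := by
  refine ⟨-(3 / 2) * Complex.I * Complex.log t, ?_, ?_⟩
  · have e1 : (-(3 / 2) * Complex.I * Complex.log t).im = -(3 / 2) * Real.log ‖t‖ := by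
      simp [Complex.mul_im, Complex.mul_re, Complex.log_re]
    rw [e1]
    have h0 : 0 < ‖t‖ := norm_pos_iff.2 ht
    have h2 : Real.log ‖t‖ ≤ Real.log (1 / 4) := Real.log_le_log h0 h1.le
    have h3 : Real.log (1 / 4) ≤ -1 := by
      rw [one_div, Real.log_inv]
      have : 1 ≤ Real.log 4 := by
        rw [Real.le_log_iff_exp_le (by norm_num)]
        exact (Real.exp_one_lt_d9.le).trans (by norm_num)
      linarith
    linarith
  · have e2 : 2 * Complex.I * (-(3 / 2) * Complex.I * Complex.log t) / 3 = Complex.log t := by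
      ring_nf
      rw [Complex.I_sq]
      ring
    rw [e2, Complex.exp_log ht]

lemma sin_ne {z : ℂ} (h : z.im ≠ 0) : Complex.sin z ≠ 0 := by
  intro h0
  obtain ⟨k, hk⟩ := Complex.sin_eq_zero_iff.1 h0
  apply h
  rw [hk]
  simp

lemma sins {u : ℂ} (h : 1 ≤ u.im) : Complex.sin ((u + Real.pi) / 3) ≠ 0 ∧
    Complex.sin ((u + Real.pi / 2 + Real.pi) / 3) ≠ 0 := by
  have h1 : ((u + Real.pi) / 3).im = u.im / 3 := by
    simp [Complex.div_ofNat_im]
  have h2 : ((u + Real.pi / 2 + Real.pi) / 3).im = u.im / 3 := by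
    have h3 : ((Real.pi : ℂ) / 2).im = 0 := by
      rw [Complex.div_ofNat_im]; simp
    rw [Complex.div_ofNat_im, Complex.add_im, Complex.add_im, h3]
    simp
  refine ⟨sin_ne (by rw [h1]; linarith), sin_ne (by rw [h2]; linarith)⟩

/-- the value of `VV` through the potentials -/
lemma VV_eq (hS : Same45) {η : ℝ} {R : ℕ} {w h : ℤ} {O : Out w h} (hO : Sc η R O) (hη : 0 < η)
    {p q : ℤ × ℤ} (hp2 : p.2 % 2 = 0) (hq2 : q.2 % 2 = 0) (hp : Inn w h (η * R) p)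
    (hq : Inn w h (η * R) q) {z : ℂ} {t u : ℂ} (hu : 1 ≤ u.im)
    (ht : z * (((R : ℝ) ^ (-(2 / 3) : ℝ) : ℝ) : ℂ) = t)
    (htu : t = Complex.exp (2 * Complex.I * u / 3)) {Hl Hu : ℤ → ℤ → ℂ}
    (hl : PotJ O false (wa u) (wa (u + Real.pi / 2)) Hl)
    (hh : PotJ O true (wa u) (wa (u + Real.pi / 2)) Hu) :
    VV O (R : ℝ) p.2 p.1 q.2 q.1 z = (((R : ℝ) ^ (-(2 / 3) : ℝ) : ℝ) : ℂ) *
      (inc2 Hl p q - inc2 Hu (p.1, p.2 - 1) (q.1, q.2 - 1)) := by
  obtain ⟨s1, s2⟩ := sins hu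
  have hpos : (0 : ℝ) ≤ η * R := by positivity
  have cast0 : ∀ {x : ℤ}, η * R ≤ (x : ℝ) → 0 ≤ x := by
    intro x hx
    have : (0 : ℝ) ≤ (x : ℝ) := hpos.trans hx
    exact_mod_cast this
  have castle : ∀ {x y : ℤ}, (x : ℝ) + η * R ≤ (y : ℝ) → x ≤ y := by
    intro x y hxy
    have : (x : ℝ) ≤ (y : ℝ) := by linarith
    exact_mod_cast this
  obtain ⟨p1, p2, p3, p4⟩ := hp
  obtain ⟨q1, q2, q3, q4⟩ := hq
  have key := VV_pot (O := O) u s1 s2 (hS w h O hO.root u hu) (Hl := Hl) (Hu := Hu)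
    (by unfold PotJ at hl; simpa using hl) (by unfold PotJ at hh; simpa using hh)
    (R := (R : ℝ)) (z := z) (ht.trans htu)
    (j := p.2) (x := p.1) (j' := q.2) (x' := q.1) ⟨cast0 p3, castle p4, hp2⟩ ⟨cast0 p1, castle p2⟩
    ⟨cast0 q3, castle q4, hq2⟩ ⟨cast0 q1, castle q2⟩
  rw [key]
  congr 1
  unfold inc2
  ring

lemma Sc_half {η : ℝ} (hη : 0 < η) {R : ℕ} {w h : ℤ} {O : Out w h} (hO : Sc η R O) :
    Sc (η / 2) R O := by
  have hR : (0 : ℝ) ≤ R := Nat.cast_nonneg R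
  have h1 : η / 2 * R ≤ η * R := by nlinarith
  have h2 : (R : ℝ) / η ≤ R / (η / 2) := by
    rw [div_le_div_iff₀ hη (by positivity)]
    nlinarith
  have h3 : ⌊η / 2 * (R : ℝ)⌋ ≤ ⌊η * (R : ℝ)⌋ := Int.floor_mono h1
  refine ⟨h1.trans hO.w1, hO.w2.trans h2, h1.trans hO.h1, hO.h2.trans h2, hO.root, ?_⟩
  refine ⟨fun x y hxy => ?_, fun x y hxy => ?_⟩
  · rcases hO.far.wo x y hxy with h | h
    · exact Or.inl h
    · right; omega
  · have := hO.far.root x y hxy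
    omega

/-- **`AB45`.** -/
theorem AB45_of (hS : Same45) (hB : BD45) (hT : Tay45) : AB45 := by
  intro η hη
  refine ⟨1, one_pos, ?_⟩
  intro ρ hρ _ ε hε
  set Z : ℝ := (2 / ρ) ^ (2 / 3 : ℝ) * Real.exp 1 with hZ
  have hZ0 : 0 < Z := by positivity
  obtain ⟨M, RB, hM⟩ := hB (η / 2) (by positivity) (Z + 1)
  -- the family
  let ι := Σ w : ℤ, Σ h : ℤ, Out w h × (ℤ × ℤ) × (ℤ × ℤ)
  let S : ℕ → Set ι := fun R => {i | Sc η R i.2.2.1 ∧ i.2.2.2.1.2 % 2 = 0 ∧ i.2.2.2.2.2 % 2 = 0 ∧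
    Inn i.1 i.2.1 (η * R) i.2.2.2.1 ∧ Inn i.1 i.2.1 (η * R) i.2.2.2.2}
  let V : ℕ → ι → ℂ → ℂ := fun R i =>
    VV i.2.2.1 (R : ℝ) i.2.2.2.1.2 i.2.2.2.1.1 i.2.2.2.2.2 i.2.2.2.2.1
  have hcast : Tendsto (fun R : ℕ => (R : ℝ)) atTop atTop := tendsto_natCast_atTop_atTop
  have he0 : Tendsto (fun R : ℕ => (R : ℝ) ^ (-(2 / 3) : ℝ)) atTop (𝓝 0) :=
    (tendsto_rpow_neg_atTop (show (0 : ℝ) < 2 / 3 by norm_num)).comp hcast
  have hsm : ∀ᶠ R : ℕ in atTop, (R : ℝ) ^ (-(2 / 3) : ℝ) * (Z + 1) < 1 / 4 := by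
    have h1 := he0.mul_const (Z + 1)
    rw [zero_mul] at h1
    exact h1.eventually (gt_mem_nhds (by norm_num))
  have hd : ∀ᶠ R : ℕ in atTop, ∀ v ∈ S R, DifferentiableOn ℂ (V R v) (ball 0 (Z + 1)) := by
    filter_upwards [hsm, eventually_gt_atTop 0] with R h1 h2 v _
    exact VV_diff _ (by linarith) h2 _ _ _ _
  have hηR : ∀ᶠ R : ℕ in atTop, 1 ≤ η / 2 * R := by
    have h1 := hcast.const_mul_atTop (show 0 < η / 2 by positivity)
    exact h1.eventually (eventually_ge_atTop 1)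
  have hb : ∀ K ⊆ ball (0 : ℂ) (Z + 1), IsCompact K → ∃ M : ℝ, ∀ᶠ R : ℕ in atTop, ∀ v ∈ S R,
      ∀ z ∈ K, ‖V R v z‖ ≤ M := by
    intro K hK _
    refine ⟨2 * |M|, ?_⟩
    filter_upwards [hsm, hηR, eventually_ge_atTop RB, eventually_gt_atTop 0] with R h1 h2 h3 h4 v hv
      z hz
    obtain ⟨w, h, O, p, q⟩ := v
    obtain ⟨hO, hp2, hq2, hp, hq⟩ := hv
    simp only at hO hp2 hq2 hp hq
    show ‖VV O (R : ℝ) p.2 p.1 q.2 q.1 z‖ ≤ 2 * |M|
    have hzn : ‖z‖ < Z + 1 := by simpa using hK hz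
    have hR0 : (0 : ℝ) < R := by exact_mod_cast h4
    set e : ℝ := (R : ℝ) ^ (-(2 / 3) : ℝ) with he
    have hep : 0 < e := Real.rpow_pos_of_pos hR0 _
    have htn : ‖z * (e : ℂ)‖ < 1 / 4 := by
      rw [norm_mul, Complex.norm_real, Real.norm_eq_abs, abs_of_pos hep]
      nlinarith
    by_cases ht0 : z * (e : ℂ) = 0
    · have : VV O (R : ℝ) p.2 p.1 q.2 q.1 z = 0 := by
        unfold Pool.Agent.H40.R45.VV
        rw [← he, ht0]
        unfold rT
        ring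
      rw [this, norm_zero]
      positivity
    · obtain ⟨u, hu, htu⟩ := exists_rap ht0 htn
      obtain ⟨s1, s2⟩ := sins hu
      obtain ⟨Hl, hHl⟩ := exists_low O (wa u) (wa (u + Real.pi / 2))
      obtain ⟨Hu, hHu⟩ := exists_up O (wa u) (wa (u + Real.pi / 2))
      have pl : PotJ O false (wa u) (wa (u + Real.pi / 2)) Hl := by
        unfold PotJ; simpa using hHl
      have pu : PotJ O true (wa u) (wa (u + Real.pi / 2)) Hu := by
        unfold PotJ; simpa using hHu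
      rw [VV_eq hS hO hη hp2 hq2 hp hq hu (by rw [← he]) htu pl pu, ← he]
      have hSc := Sc_half hη hO
      have ea : wa u = aT (z * (e : ℂ)) := by rw [wa_aT u s1, ← htu]
      have eb : wa (u + Real.pi / 2) = bT (z * (e : ℂ)) := by rw [wa_bT u s2, ← htu]
      have hin : ∀ r : ℤ × ℤ, Inn w h (η * R) r → Inn w h (η / 2 * R) r ∧
          Inn w h (η / 2 * R) (r.1, r.2 - 1) := by
        intro r hr
        obtain ⟨r1, r2, r3, r4⟩ := hr
        refine ⟨⟨?_, ?_, ?_, ?_⟩, ⟨?_, ?_, ?_, ?_⟩⟩ <;> push_cast <;> linarith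
      rw [ea, eb] at pl pu
      have b1 := hM R h3 w h O hSc false z hzn.le Hl (by rw [← he]; exact pl) p q (hin p hp).1
        (hin q hq).1
      have b2 := hM R h3 w h O hSc true z hzn.le Hu (by rw [← he]; exact pu) (p.1, p.2 - 1)
        (q.1, q.2 - 1) (hin p hp).2 (hin q hq).2
      have e1 : e * (R : ℝ) ^ (2 / 3 : ℝ) = 1 := by
        rw [he, ← Real.rpow_add hR0]; norm_num
      rw [norm_mul, Complex.norm_real, Real.norm_eq_abs, abs_of_pos hep]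
      have b3 : ‖inc2 Hl p q - inc2 Hu (p.1, p.2 - 1) (q.1, q.2 - 1)‖ ≤
          2 * |M| * (R : ℝ) ^ (2 / 3 : ℝ) := by
        have b4 := norm_sub_le (inc2 Hl p q) (inc2 Hu (p.1, p.2 - 1) (q.1, q.2 - 1))
        have b5 : M * (R : ℝ) ^ (2 / 3 : ℝ) ≤ |M| * (R : ℝ) ^ (2 / 3 : ℝ) :=
          mul_le_mul_of_nonneg_right (le_abs_self M) (by positivity)
        linarith
      calc e * ‖inc2 Hl p q - inc2 Hu (p.1, p.2 - 1) (q.1, q.2 - 1)‖
          ≤ e * (2 * |M| * (R : ℝ) ^ (2 / 3 : ℝ)) := mul_le_mul_of_nonneg_left b3 hep.le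
        _ = 2 * |M| * (e * (R : ℝ) ^ (2 / 3 : ℝ)) := by ring
        _ = 2 * |M| := by rw [e1, mul_one]
  have ht : ∀ m : ℕ, ∀ ε > 0, ∀ᶠ R : ℕ in atTop, ∀ v ∈ S R, ‖iteratedDeriv m (V R v) 0‖ ≤ ε := by
    intro m ε' hε'
    obtain ⟨R1, hR1⟩ := hT η hη m ε' hε'
    filter_upwards [eventually_ge_atTop R1] with R hR v hv
    obtain ⟨w, h, O, p, q⟩ := v
    obtain ⟨hO, hp2, hq2, hp, hq⟩ := hv
    exact hR1 R hR w h O hO p q hp2 hq2 hp hq
  have hvit := vitali_zero (Δ := ball (0 : ℂ) (Z + 1)) isOpen_ball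
    (convex_ball (0 : ℂ) (Z + 1)).isPreconnected (z0 := 0) (mem_ball_self (by positivity)) hd hb ht
    (K := closedBall 0 Z) (closedBall_subset_ball (by linarith)) (isCompact_closedBall 0 Z) hε
  -- the rapidities
  have hn : ∀ᶠ R : ℕ in atTop, 8 ≤ ⌊ρ * R⌋₊ := by
    have h1 := hcast.const_mul_atTop hρ
    have h2 := h1.eventually (eventually_ge_atTop 8)
    filter_upwards [h2] with R hR
    exact Nat.le_floor (by exact_mod_cast hR)
  obtain ⟨R0, hR0⟩ := eventually_atTop.1 ((hvit.and hn).and (eventually_gt_atTop 0))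
  refine ⟨R0, ?_⟩
  intro R hR w h O hO t' ht' Hl Hu hHl hHu p q hp2 hq2 hp hq
  obtain ⟨⟨h1, h2⟩, h3⟩ := hR0 R hR
  set n : ℕ := ⌊ρ * R⌋₊ with hnn
  set u : ℂ := rap n t' with hu
  have hRr : (0 : ℝ) < R := by exact_mod_cast h3
  have him : u.im = t' + Real.log n := by
    rw [hu]
    unfold rap pt
    simp [-Complex.natCast_log]
  have hn8 : (8 : ℝ) ≤ n := by exact_mod_cast h2
  have hlog : 2 ≤ Real.log n := by
    rw [Real.le_log_iff_exp_le (by linarith)]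
    have h4 : Real.exp 2 = Real.exp 1 * Real.exp 1 := by rw [← Real.exp_add]; norm_num
    have h5 := Real.exp_one_lt_d9
    rw [h4]
    nlinarith [Real.exp_pos 1]
  have hab := abs_le.1 ht'
  have hu1 : 1 ≤ u.im := by rw [him]; linarith
  set e : ℝ := (R : ℝ) ^ (-(2 / 3) : ℝ) with he
  have hep : 0 < e := Real.rpow_pos_of_pos hRr _
  have hec : (e : ℂ) ≠ 0 := by exact_mod_cast hep.ne'
  set z : ℂ := Complex.exp (2 * Complex.I * u / 3) / (e : ℂ) with hz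
  have hze : z * (e : ℂ) = Complex.exp (2 * Complex.I * u / 3) := div_mul_cancel₀ _ hec
  have hzn : ‖z‖ ≤ Z := by
    rw [hz, norm_div, Complex.norm_real, Real.norm_eq_abs, abs_of_pos hep, Complex.norm_exp]
    have e1 : (2 * Complex.I * u / 3).re = -(2 / 3) * u.im := by
      simp [Complex.div_ofNat_re]
      ring
    rw [e1, him]
    have e2 : Real.exp (-(2 / 3) * (t' + Real.log n)) =
        Real.exp (-(2 / 3) * t') * (n : ℝ) ^ (-(2 / 3) : ℝ) := by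
      rw [mul_add, Real.exp_add, Real.rpow_def_of_pos (by linarith), mul_comm (Real.log n)]
    rw [e2, div_le_iff₀ hep]
    have e3 : Real.exp (-(2 / 3) * t') ≤ Real.exp 1 := Real.exp_le_exp.2 (by linarith)
    have hnR : ρ * R / 2 ≤ n := by
      have h4 := Nat.lt_floor_add_one (ρ * R)
      rw [← hnn] at h4
      linarith
    have hp0 : 0 < ρ * R / 2 := by positivity
    have e4 : (n : ℝ) ^ (-(2 / 3) : ℝ) ≤ (ρ * R / 2) ^ (-(2 / 3) : ℝ) :=
      Real.rpow_le_rpow_of_nonpos hp0 hnR (by norm_num)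
    have e5 : (ρ * R / 2) ^ (-(2 / 3) : ℝ) = (2 / ρ) ^ (2 / 3 : ℝ) * e := by
      rw [he, Real.rpow_neg hp0.le, Real.rpow_neg hRr.le, ← Real.inv_rpow hp0.le,
        ← Real.inv_rpow hRr.le, ← Real.mul_rpow (by positivity) (by positivity)]
      congr 1
      field_simp
    calc Real.exp (-(2 / 3) * t') * (n : ℝ) ^ (-(2 / 3) : ℝ)
        ≤ Real.exp 1 * ((2 / ρ) ^ (2 / 3 : ℝ) * e) :=
          mul_le_mul e3 (e4.trans e5.le) (by positivity) (by positivity)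
      _ = Z * e := by rw [hZ]; ring
  have h4 := h1 ⟨w, h, O, p, q⟩ ⟨hO, hp2, hq2, hp, hq⟩ z (by simpa using hzn)
  have h5 : VV O (R : ℝ) p.2 p.1 q.2 q.1 z = (e : ℂ) * (inc2 Hl p q - inc2 Hu (p.1, p.2 - 1) (q.1, q.2 - 1)) :=
    VV_eq hS hO hη hp2 hq2 hp hq hu1 (by rw [← he]; exact hze) rfl hHl hHu
  change ‖VV O (R : ℝ) p.2 p.1 q.2 q.1 z‖ ≤ ε at h4
  rw [h5, norm_mul, Complex.norm_real, Real.norm_eq_abs, abs_of_pos hep] at h4
  have e6 : (R : ℝ) ^ (2 / 3 : ℝ) * e = 1 := by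
    rw [he, ← Real.rpow_add hRr]; norm_num
  calc ‖inc2 Hl p q - inc2 Hu (p.1, p.2 - 1) (q.1, q.2 - 1)‖
      = ((R : ℝ) ^ (2 / 3 : ℝ) * e) * ‖inc2 Hl p q - inc2 Hu (p.1, p.2 - 1) (q.1, q.2 - 1)‖ := by
        rw [e6, one_mul]
    _ = (R : ℝ) ^ (2 / 3 : ℝ) * (e * ‖inc2 Hl p q - inc2 Hu (p.1, p.2 - 1) (q.1, q.2 - 1)‖) := by
        ring
    _ ≤ (R : ℝ) ^ (2 / 3 : ℝ) * ε := mul_le_mul_of_nonneg_left h4 (by positivity)
    _ = _ := by ring

end Pool.Agent.Q1.M6b.AB
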