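import Mathlib
import Pool.Agent.H95.R45.Stmt
import Pool.Agent.Q1.M6f.Vitali

set_option autoImplicit false
open Finset Filter Topology Metric

/-! # Chapters A and B: the analytic argument for any family

`F R v t` : increments as functions of `t = exp (2 i u / 3)`; analytic near `0`, bounded by
`M R ^ (2/3)` on the discs of radius `Z R ^ (-2/3)`, with small Taylor coefficients at `0`. Then they are
`o (R ^ (2/3))` at the rapidities `log (ρ R)`. -/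

namespace Pool.Agent.Q1.M6b.AB

open Pool.Agent.Q1 Pool.Agent.H95.R45 Pool.Agent.Q1.M6f Pool.Agent.Q1.M6f.Glue
open Pool.Agent.H25.Q1.Close

/-- the size of `t = exp (2 i u / 3)` at the rapidities `log (ρ R)` -/
theorem rap_small {ρ : ℝ} (hρ : 0 < ρ) : ∀ᶠ R : ℕ in atTop, ∀ u : ℂ,
    |u.im - Real.log ⌊ρ * R⌋₊| ≤ 1 → 1 ≤ u.im ∧ ∃ z : ℂ, ‖z‖ ≤ (2 / ρ) ^ (2 / 3 : ℝ) * Real.exp 1 ∧
      z * (((R : ℝ) ^ (-(2 / 3) : ℝ) : ℝ) : ℂ) = Complex.exp (2 * Complex.I * u / 3) := by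
  set Z : ℝ := (2 / ρ) ^ (2 / 3 : ℝ) * Real.exp 1 with hZ
  have hcast : Tendsto (fun R : ℕ => (R : ℝ)) atTop atTop := tendsto_natCast_atTop_atTop
  have hn : ∀ᶠ R : ℕ in atTop, 8 ≤ ⌊ρ * R⌋₊ := by
    have h1 := hcast.const_mul_atTop hρ
    have h2 := h1.eventually (eventually_ge_atTop 8)
    filter_upwards [h2] with R hR
    exact Nat.le_floor (by exact_mod_cast hR)
  filter_upwards [hn, eventually_gt_atTop 0] with R h2 h3 u ht'
  set n : ℕ := ⌊ρ * R⌋₊ with hnn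
  obtain ⟨t', him⟩ : ∃ t' : ℝ, u.im = t' + Real.log n := ⟨u.im - Real.log n, by ring⟩
  rw [him, add_sub_cancel_right] at ht'
  have hRr : (0 : ℝ) < R := by exact_mod_cast h3
  have hn8 : (8 : ℝ) ≤ n := by exact_mod_cast h2
  have hlog : 2 ≤ Real.log n := by
    rw [Real.le_log_iff_exp_le (by linarith)]
    have h4 : Real.exp 2 = Real.exp 1 * Real.exp 1 := by rw [← Real.exp_add]; norm_num
    have h5 := Real.exp_one_lt_d9
    rw [h4]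
    nlinarith [Real.exp_pos 1]
  have hab := abs_le.1 ht'
  have hu1 : 1 ≤ u.im := by rw [him]; linarith
  refine ⟨hu1, ?_⟩
  set e : ℝ := (R : ℝ) ^ (-(2 / 3) : ℝ) with he
  have hep : 0 < e := Real.rpow_pos_of_pos hRr _
  have hec : (e : ℂ) ≠ 0 := by exact_mod_cast hep.ne'
  set z : ℂ := Complex.exp (2 * Complex.I * u / 3) / (e : ℂ) with hz
  have hze : z * (e : ℂ) = Complex.exp (2 * Complex.I * u / 3) := div_mul_cancel₀ _ hec
  have hzn : ‖z‖ ≤ Z := by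
    rw [hz, norm_div, Complex.norm_real, Real.norm_eq_abs, abs_of_pos hep, Complex.norm_exp]
    have e1 : (2 * Complex.I * u / 3).re = -(2 / 3) * u.im := by
      simp [Complex.div_ofNat_re]
      ring
    rw [e1, him]
    have e2 : Real.exp (-(2 / 3) * (t' + Real.log n)) =
        Real.exp (-(2 / 3) * t') * (n : ℝ) ^ (-(2 / 3) : ℝ) := by
      rw [mul_add, Real.exp_add, Real.rpow_def_of_pos (by linarith), mul_comm (Real.log n)]
    rw [e2, div_le_iff₀ hep]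
    have e3 : Real.exp (-(2 / 3) * t') ≤ Real.exp 1 := Real.exp_le_exp.2 (by linarith)
    have hnR : ρ * R / 2 ≤ n := by
      have h4 := Nat.lt_floor_add_one (ρ * R)
      rw [← hnn] at h4
      linarith
    have hp0 : 0 < ρ * R / 2 := by positivity
    have e4 : (n : ℝ) ^ (-(2 / 3) : ℝ) ≤ (ρ * R / 2) ^ (-(2 / 3) : ℝ) :=
      Real.rpow_le_rpow_of_nonpos hp0 hnR (by norm_num)
    have e5 : (ρ * R / 2) ^ (-(2 / 3) : ℝ) = (2 / ρ) ^ (2 / 3 : ℝ) * e := by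
      rw [he, Real.rpow_neg hp0.le, Real.rpow_neg hRr.le, ← Real.inv_rpow hp0.le,
        ← Real.inv_rpow hRr.le, ← Real.mul_rpow (by positivity) (by positivity)]
      congr 1
      field_simp
    calc Real.exp (-(2 / 3) * t') * (n : ℝ) ^ (-(2 / 3) : ℝ)
        ≤ Real.exp 1 * ((2 / ρ) ^ (2 / 3 : ℝ) * e) :=
          mul_le_mul e3 (e4.trans e5.le) (by positivity) (by positivity)
      _ = Z * e := by rw [hZ]; ring
  exact ⟨z, hzn, hze⟩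

/-- **The analytic argument.** -/
theorem ab_abs {ι : Type*} {S : ℕ → Set ι} {F : ℕ → ι → ℂ → ℂ}
    (hd : ∀ R v, v ∈ S R → DifferentiableOn ℂ (F R v) (ball 0 (1 / 2)))
    (hb : ∀ Z : ℝ, 0 < Z → ∃ M : ℝ, ∀ᶠ R : ℕ in atTop, ∀ v ∈ S R, ∀ z : ℂ, ‖z‖ ≤ Z →
      ‖F R v (z * (((R : ℝ) ^ (-(2 / 3) : ℝ) : ℝ) : ℂ))‖ ≤ M * (R : ℝ) ^ (2 / 3 : ℝ))
    (ht : ∀ m : ℕ, ∀ ε : ℝ, 0 < ε → ∀ᶠ R : ℕ in atTop, ∀ v ∈ S R,
      ‖iteratedDeriv m (fun z : ℂ => (((R : ℝ) ^ (-(2 / 3) : ℝ) : ℝ) : ℂ) *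
        F R v (z * (((R : ℝ) ^ (-(2 / 3) : ℝ) : ℝ) : ℂ))) 0‖ ≤ ε)
    {ρ : ℝ} (hρ : 0 < ρ) {ε : ℝ} (hε : 0 < ε) :
    ∀ᶠ R : ℕ in atTop, ∀ v ∈ S R, ∀ u : ℂ, |u.im - Real.log ⌊ρ * R⌋₊| ≤ 1 → 1 ≤ u.im ∧
      ‖F R v (Complex.exp (2 * Complex.I * u / 3))‖ ≤ ε * (R : ℝ) ^ (2 / 3 : ℝ) := by
  set Z : ℝ := (2 / ρ) ^ (2 / 3 : ℝ) * Real.exp 1 with hZ
  have hZ0 : 0 < Z := by positivity
  obtain ⟨M, hM⟩ := hb (Z + 1) (by positivity)
  set V : ℕ → ι → ℂ → ℂ := fun R v z => (((R : ℝ) ^ (-(2 / 3) : ℝ) : ℝ) : ℂ) *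
    F R v (z * (((R : ℝ) ^ (-(2 / 3) : ℝ) : ℝ) : ℂ)) with hV
  have hcast : Tendsto (fun R : ℕ => (R : ℝ)) atTop atTop := tendsto_natCast_atTop_atTop
  have he0 : Tendsto (fun R : ℕ => (R : ℝ) ^ (-(2 / 3) : ℝ)) atTop (𝓝 0) :=
    (tendsto_rpow_neg_atTop (show (0 : ℝ) < 2 / 3 by norm_num)).comp hcast
  have hsm : ∀ᶠ R : ℕ in atTop, (R : ℝ) ^ (-(2 / 3) : ℝ) * (Z + 1) < 1 / 4 := by
    have h1 := he0.mul_const (Z + 1)
    rw [zero_mul] at h1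
    exact h1.eventually (gt_mem_nhds (by norm_num))
  have hdV : ∀ᶠ R : ℕ in atTop, ∀ v ∈ S R, DifferentiableOn ℂ (V R v) (ball 0 (Z + 1)) := by
    filter_upwards [hsm, eventually_gt_atTop 0] with R h1 h2 v hv
    have hep : 0 < (R : ℝ) ^ (-(2 / 3) : ℝ) := Real.rpow_pos_of_pos (by exact_mod_cast h2) _
    rw [hV]
    refine DifferentiableOn.const_mul ?_ _
    refine (hd R v hv).comp ((differentiable_id.mul_const _).differentiableOn) fun z hz => ?_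
    rw [mem_ball_zero_iff] at hz ⊢
    rw [norm_mul, Complex.norm_real, Real.norm_eq_abs, abs_of_pos hep]
    nlinarith
  have hbV : ∀ K ⊆ ball (0 : ℂ) (Z + 1), IsCompact K → ∃ M : ℝ, ∀ᶠ R : ℕ in atTop, ∀ v ∈ S R,
      ∀ z ∈ K, ‖V R v z‖ ≤ M := by
    intro K hK _
    refine ⟨M, ?_⟩
    filter_upwards [hM, eventually_gt_atTop 0] with R h1 h2 v hv z hz
    have hRp : (0 : ℝ) < R := by exact_mod_cast h2
    have hep : 0 < (R : ℝ) ^ (-(2 / 3) : ℝ) := Real.rpow_pos_of_pos hRp _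
    have hzn : ‖z‖ ≤ Z + 1 := by
      have := hK hz
      rw [mem_ball_zero_iff] at this
      exact this.le
    rw [hV]
    simp only
    rw [norm_mul, Complex.norm_real, Real.norm_eq_abs, abs_of_pos hep]
    have e1 : (R : ℝ) ^ (-(2 / 3) : ℝ) * (R : ℝ) ^ (2 / 3 : ℝ) = 1 := by
      rw [← Real.rpow_add hRp]; norm_num
    calc (R : ℝ) ^ (-(2 / 3) : ℝ) * ‖F R v (z * (((R : ℝ) ^ (-(2 / 3) : ℝ) : ℝ) : ℂ))‖
        ≤ (R : ℝ) ^ (-(2 / 3) : ℝ) * (M * (R : ℝ) ^ (2 / 3 : ℝ)) :=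
          mul_le_mul_of_nonneg_left (h1 v hv z hzn) hep.le
      _ = M * ((R : ℝ) ^ (-(2 / 3) : ℝ) * (R : ℝ) ^ (2 / 3 : ℝ)) := by ring
      _ = M := by rw [e1, mul_one]
  have hvit := vitali_zero (Δ := ball (0 : ℂ) (Z + 1)) isOpen_ball
    (convex_ball (0 : ℂ) (Z + 1)).isPreconnected (z0 := 0) (mem_ball_self (by positivity)) hdV hbV
    (fun m ε' hε' => ht m ε' hε')
    (K := closedBall 0 Z) (closedBall_subset_ball (by linarith)) (isCompact_closedBall 0 Z) hε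
  filter_upwards [hvit, rap_small hρ, eventually_gt_atTop 0] with R h1 h2 h3 v hv u ht'
  obtain ⟨hu1, z, hzn, hze⟩ := h2 u ht'
  refine ⟨hu1, ?_⟩
  have hRr : (0 : ℝ) < R := by exact_mod_cast h3
  set e : ℝ := (R : ℝ) ^ (-(2 / 3) : ℝ) with he
  have hep : 0 < e := Real.rpow_pos_of_pos hRr _
  have h4 := h1 v hv z (by simpa using hzn)
  rw [hV] at h4
  simp only at h4
  rw [hze, norm_mul, Complex.norm_real, Real.norm_eq_abs, abs_of_pos hep] at h4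
  have e6 : (R : ℝ) ^ (2 / 3 : ℝ) * e = 1 := by
    rw [he, ← Real.rpow_add hRr]; norm_num
  calc ‖F R v (Complex.exp (2 * Complex.I * u / 3))‖
      = ((R : ℝ) ^ (2 / 3 : ℝ) * e) * ‖F R v (Complex.exp (2 * Complex.I * u / 3))‖ := by
        rw [e6, one_mul]
    _ = (R : ℝ) ^ (2 / 3 : ℝ) * (e * ‖F R v (Complex.exp (2 * Complex.I * u / 3))‖) := by ring
    _ ≤ (R : ℝ) ^ (2 / 3 : ℝ) * ε := mul_le_mul_of_nonneg_left h4 (by positivity)
    _ = _ := by ring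

end Pool.Agent.Q1.M6b.AB
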