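import Mathlib
import Pool.Agent.H81.G1.Net
import Pool.Agent.Q1.M6b.Meander

set_option autoImplicit false
set_option linter.unusedSectionVars false
open Finset

/-! Closed strands without coupon in the vertex form of an over-line: exact factors `1` / `-2`
(flow conservation inside the strand). -/

namespace Pool.Agent.Q1.M6b.Strand

open Pool.Agent.H81.G1

/-! ### Vertices -/

lemma vert_cons {a b : ℂ} {w n e s : ℤˣ} (h : vert a b w n e s ≠ 0) :
    (w : ℤ) + (n : ℤ) + (e : ℤ) + (s : ℤ) = 0 := by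
  unfold vert at h
  by_cases h1 : n = -w ∧ s = -e
  · rw [h1.1, h1.2]; push_cast; ring
  · by_cases h2 : s = -w ∧ n = -e
    · rw [h2.1, h2.2]; push_cast; ring
    · rw [if_neg h1, if_neg h2, add_zero] at h
      exact absurd rfl h

lemma zt6 : zt ^ (6 : ℤ) + zt ^ (-6 : ℤ) = 0 := by
  have h := zt_twelve
  have h0 := zt_ne
  have e1 : zt ^ (6 : ℤ) = zt ^ 6 := by norm_cast
  have e2 : zt ^ (-6 : ℤ) = (zt ^ 6)⁻¹ := by
    rw [zpow_neg, e1]
  rw [e1, e2]
  have h6 : zt ^ 6 ≠ 0 := pow_ne_zero _ h0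
  field_simp
  linear_combination h

/-- vertex weights of an over-tile: straight, or (row in-in, column out-out) -/
lemma vert_over {w n e s : ℤˣ} (h : vert (zt ^ (4 : ℤ)) (zt ^ (-4 : ℤ)) w n e s ≠ 0) :
    (e = -w ∧ s = -n) ∨ (n = 1 ∧ s = 1 ∧ w = -1 ∧ e = -1) := by
  have h0 := zt_ne
  have h6 : zt ^ 4 * zt ^ 2 + (zt ^ 4)⁻¹ * (zt ^ 2)⁻¹ = 0 := by
    have := zt_twelve
    field_simp
    linear_combination this
  rcases Int.units_eq_one_or w with rfl | rfl <;> rcases Int.units_eq_one_or n with rfl | rfl <;>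
    rcases Int.units_eq_one_or e with rfl | rfl <;> rcases Int.units_eq_one_or s with rfl | rfl <;>
    first
    | (left; decide)
    | (right; decide)
    | (exfalso; apply h; unfold vert; simp <;> done)
    | (exfalso; apply h; unfold vert; norm_num; exact h6)

lemma vert_over_val {w n e s : ℤˣ} (h1 : e = -w) (h2 : s = -n) :
    vert (zt ^ (4 : ℤ)) (zt ^ (-4 : ℤ)) w n e s = zt ^ (4 * ((e : ℤ) * (n : ℤ))) := by
  have h0 := zt_ne
  subst h1 h2
  rcases Int.units_eq_one_or w with rfl | rfl <;> rcases Int.units_eq_one_or n with rfl | rfl <;>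
    unfold vert <;> norm_num

/-- powers of a sum -/
lemma map_sum_zpow {z : ℂ} (hz : z ≠ 0) {β : Type*} (S : Finset β) (f : β → ℤ) :
    z ^ (∑ i ∈ S, f i) = ∏ i ∈ S, z ^ (f i) := by
  classical
  induction S using Finset.induction_on with
  | empty => simp
  | insert a s ha ih => rw [sum_insert ha, prod_insert ha, zpow_add₀ hz, ih]

variable {ι : Type*} [Fintype ι] [DecidableEq ι]

/-! ### Closed strands -/

omit [Fintype ι] [DecidableEq ι] in
/-- the vertical ends of the tiles of `K` -/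
def VE (K : Finset ι) : Finset (ι × Dir) := K ×ˢ {Dir.N, Dir.S}

omit [Fintype ι] [DecidableEq ι] in
lemma mem_VE {K : Finset ι} {i : ι} {d : Dir} : (i, d) ∈ VE K ↔ i ∈ K ∧ (d = .N ∨ d = .S) := by
  simp [VE]

lemma mem_VE_union {K C : Finset ι} {x : ι × Dir} : x ∈ VE (K ∪ C) ↔ x ∈ VE K ∨ x ∈ VE C := by
  obtain ⟨i, d⟩ := x
  simp only [mem_VE, mem_union]; tauto

/-- `K` is a union of closed strands: the wires at the vertical ends of `K` join vertical ends of `K`;
root and mark are not on them -/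
structure Str (X : Net ι) (K : Finset ι) : Prop where
  mem : ∀ x ∈ VE K, X.π x ∈ VE K
  x0 : X.x0 ∉ VE K
  y0 : X.y0 ∉ VE K

/-- an orientation of the strands of `K` -/
structure Ori (X : Net ι) (K : Finset ι) (n : ι × Dir → ℤˣ) : Prop where
  wire : ∀ x ∈ VE K, n (X.π x) = -n x
  vert : ∀ i ∈ K, n (i, .S) = -n (i, .N)

/-- one closed strand -/
structure Single (X : Net ι) (C : Finset ι) : Prop where
  str : Str X C
  ne : C.Nonempty
  single : ∀ S ⊆ C, S.Nonempty → Str X S → S = C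

/-- `s` = winding number of the strand `C` (with orientation `n`) at the ends of the tiles -/
structure Wind (X : Net ι) (C : Finset ι) (n : ι × Dir → ℤˣ) (s : ι × Dir → ℤ) : Prop where
  rest : ∀ i ∉ C, ∀ d, s (i, d) = s (i, .W)
  cross : ∀ i ∈ C, s (i, .E) = s (i, .W) - (n (i, .N) : ℤ)
  wire : ∀ x ∉ VE C, s (X.π x) = s x
  root : s X.x0 = 0

/-- turning of the strand `C` -/
def tot (X : Net ι) (C : Finset ι) (n : ι × Dir → ℤˣ) : ℤ := ∑ x ∈ VE C, if n x = 1 then X.t x else 0

/-- the factor of a closed strand -/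
noncomputable def fac (X : Net ι) (C : Finset ι) (n : ι × Dir → ℤˣ) (s : ι × Dir → ℤ) : ℂ :=
  zt ^ (tot X C n + 8 * s X.y0) + zt ^ (-(tot X C n + 8 * s X.y0))

/-- weight of the arrows `o` with the tiles of `K` transparent and without the wires of `K` -/
noncomputable def wtR (X : Net ι) (a b : ι → ℂ) (K : Finset ι) (o : ι × Dir → ℤˣ) : ℂ :=
  (∏ i, if i ∈ K then (if o (i, .E) = -o (i, .W) then 1 else 0)
      else vert (a i) (b i) (o (i, .W)) (o (i, .N)) (o (i, .E)) (o (i, .S))) *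
    ∏ x, (if x ∈ VE K then 1 else if o x = 1 then zt ^ (-X.t x) else 1)

lemma wtR_empty (X : Net ι) (a b : ι → ℂ) (o : ι × Dir → ℤˣ) : wtR X a b ∅ o = X.wt a b o := by
  simp [wtR, Net.wt, VE]

lemma wtR_ne {X : Net ι} {a b : ι → ℂ} {K : Finset ι} {o : ι × Dir → ℤˣ} (h : wtR X a b K o ≠ 0) :
    (∀ i ∈ K, o (i, .E) = -o (i, .W)) ∧
      ∀ i ∉ K, vert (a i) (b i) (o (i, .W)) (o (i, .N)) (o (i, .E)) (o (i, .S)) ≠ 0 := by
  have h1 := left_ne_zero_of_mul h
  rw [Finset.prod_ne_zero_iff] at h1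
  constructor
  · intro i hi
    have := h1 i (mem_univ i)
    rw [if_pos hi] at this
    by_contra h2
    rw [if_neg h2] at this
    exact this rfl
  · intro i hi
    have := h1 i (mem_univ i)
    rwa [if_neg hi] at this

omit [Fintype ι] in
lemma Str.x1 {X : Net ι} (hinv : ∀ x, X.π (X.π x) = x) {K : Finset ι} (h : Str X K) :
    X.π X.x0 ∉ VE K := fun hh => h.x0 (by have := h.mem _ hh; rwa [hinv] at this)

omit [Fintype ι] in
lemma Str.y1 {X : Net ι} (hinv : ∀ x, X.π (X.π x) = x) {K : Finset ι} (h : Str X K) :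
    X.π X.y0 ∉ VE K := fun hh => h.y0 (by have := h.mem _ hh; rwa [hinv] at this)

omit [Fintype ι] in
lemma Str.mem_iff {X : Net ι} (hinv : ∀ x, X.π (X.π x) = x) {K : Finset ι} (h : Str X K)
    (x : ι × Dir) : X.π x ∈ VE K ↔ x ∈ VE K :=
  ⟨fun hh => by have := h.mem _ hh; rwa [hinv] at this, h.mem x⟩

omit [Fintype ι] in
/-- consistent arrows are opposite at the two ends of a wire of a closed strand -/
lemma cons_wire {X : Net ι} (hinv : ∀ x, X.π (X.π x) = x) {K : Finset ι} (h : Str X K)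
    {o : ι × Dir → ℤˣ} (ho : X.Cons o) {x : ι × Dir} (hx : x ∈ VE K) : o (X.π x) = -o x := by
  apply ho.2.2.2.2 x
  · rintro rfl; exact h.x0 hx
  · rintro rfl; exact h.x1 hinv hx
  · rintro rfl; exact h.y0 hx
  · rintro rfl; exact h.y1 hinv hx

omit [Fintype ι] in
/-- a strand has only two orientations -/
lemma two {X : Net ι} {C : Finset ι} (h : Single X C) {n o : ι × Dir → ℤˣ} (hn : Ori X C n)
    (ho : Ori X C o) : (∀ x ∈ VE C, o x = n x) ∨ (∀ x ∈ VE C, o x = -n x) := by
  classical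
  have hS : Str X (C.filter (fun i => o (i, .N) = n (i, .N))) := by
    have hsub : ∀ x, x ∈ VE (C.filter (fun i => o (i, .N) = n (i, .N))) → x ∈ VE C := by
      rintro ⟨i, d⟩ hx
      rw [mem_VE] at hx ⊢
      exact ⟨(mem_filter.1 hx.1).1, hx.2⟩
    refine ⟨?_, fun hh => h.str.x0 (hsub _ hh), fun hh => h.str.y0 (hsub _ hh)⟩
    rintro ⟨i, d⟩ hx
    have hx' := hsub _ hx
    have e1 : o (i, d) = n (i, d) := by
      rw [mem_VE] at hx
      have h1 := mem_filter.1 hx.1
      rcases hx.2 with rfl | rfl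
      · exact h1.2
      · rw [ho.vert i h1.1, hn.vert i h1.1, h1.2]
    have h2 := h.str.mem _ hx'
    have e2 : o (X.π (i, d)) = n (X.π (i, d)) := by
      rw [ho.wire _ hx', hn.wire _ hx', e1]
    generalize X.π (i, d) = y at h2 e2 ⊢
    obtain ⟨j, d'⟩ := y
    rw [mem_VE] at h2 ⊢
    refine ⟨mem_filter.2 ⟨h2.1, ?_⟩, h2.2⟩
    rcases h2.2 with rfl | rfl
    · exact e2
    · rw [ho.vert j h2.1, hn.vert j h2.1] at e2
      exact neg_injective e2
  by_cases hne : (C.filter (fun i => o (i, .N) = n (i, .N))).Nonempty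
  · left
    have := h.single _ (filter_subset _ _) hne hS
    rintro ⟨i, d⟩ hx
    rw [mem_VE] at hx
    have h1 : i ∈ C.filter (fun i => o (i, .N) = n (i, .N)) := by rw [this]; exact hx.1
    have h2 := (mem_filter.1 h1).2
    rcases hx.2 with rfl | rfl
    · exact h2
    · rw [ho.vert i hx.1, hn.vert i hx.1, h2]
  · right
    rw [not_nonempty_iff_eq_empty] at hne
    rintro ⟨i, d⟩ hx
    rw [mem_VE] at hx
    have h2 : o (i, .N) = -n (i, .N) := by
      have : i ∉ C.filter (fun i => o (i, .N) = n (i, .N)) := by rw [hne]; simp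
      have h3 : o (i, .N) ≠ n (i, .N) := fun hh => this (mem_filter.2 ⟨hx.1, hh⟩)
      rcases Int.units_eq_one_or (o (i, .N)) with h4 | h4 <;>
        rcases Int.units_eq_one_or (n (i, .N)) with h5 | h5 <;> rw [h4, h5] at h3 ⊢ <;>
        first
        | exact absurd rfl h3
        | simp
    rcases hx.2 with rfl | rfl
    · exact h2
    · rw [ho.vert i hx.1, hn.vert i hx.1, h2]

omit [Fintype ι] in
/-- no exchange on a closed strand of over-tiles -/
lemma noflip {X : Net ι} (hinv : ∀ x, X.π (X.π x) = x) (hne : ∀ x, X.π x ≠ x) {C : Finset ι}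
    (h : Str X C) {o : ι × Dir → ℤˣ} (ho : X.Cons o)
    (hv : ∀ i ∈ C, vert (zt ^ (4 : ℤ)) (zt ^ (-4 : ℤ)) (o (i, .W)) (o (i, .N)) (o (i, .E)) (o (i, .S)) ≠ 0) :
    ∀ i ∈ C, o (i, .E) = -o (i, .W) ∧ o (i, .S) = -o (i, .N) := by
  have hsum : ∑ i ∈ C, ((o (i, .N) : ℤ) + (o (i, .S) : ℤ)) = 0 := by
    have e1 : ∑ x ∈ VE C, (o x : ℤ) = ∑ i ∈ C, ((o (i, .N) : ℤ) + (o (i, .S) : ℤ)) := by
      unfold VE
      rw [sum_product]
      apply sum_congr rfl
      intro i _
      rw [sum_pair (by decide)]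
    rw [← e1]
    refine Finset.sum_involution (fun x _ => X.π x) ?_ ?_ ?_ ?_
    · intro x hx
      rw [cons_wire hinv h ho hx]; push_cast; ring
    · intro x _ _
      exact hne x
    · intro x hx
      exact h.mem x hx
    · intro x _
      exact hinv x
  have hnn : ∀ i ∈ C, 0 ≤ ((o (i, .N) : ℤ) + (o (i, .S) : ℤ)) := by
    intro i hi
    rcases vert_over (hv i hi) with h1 | h1
    · rw [h1.2]; simp
    · rw [h1.1, h1.2.1]; norm_num
  have hz := (sum_eq_zero_iff_of_nonneg hnn).1 hsum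
  intro i hi
  rcases vert_over (hv i hi) with h1 | h1
  · exact h1
  · have := hz i hi
    rw [h1.1, h1.2.1] at this
    norm_num at this

/-- **flow conservation inside a closed strand** -/
lemma flow {X : Net ι} (hinv : ∀ x, X.π (X.π x) = x) (hne : ∀ x, X.π x ≠ x) {C : Finset ι}
    {n : ι × Dir → ℤˣ} {s : ι × Dir → ℤ} (h : Str X C) (hW : Wind X C n s) {o : ι × Dir → ℤˣ}
    (ho : X.Cons o)
    (hv : ∀ i ∉ C, (o (i, .W) : ℤ) + (o (i, .N) : ℤ) + (o (i, .E) : ℤ) + (o (i, .S) : ℤ) = 0)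
    (hs : ∀ i ∈ C, o (i, .E) = -o (i, .W)) :
    ∑ i ∈ C, (o (i, .E) : ℤ) * (n (i, .N) : ℤ) = -2 * s X.y0 := by
  classical
  -- sum over the ends outside the strand
  set S : Finset (ι × Dir) := univ \ VE C with hS
  have mS : ∀ x, x ∈ S ↔ x ∉ VE C := by intro x; simp [hS]
  have pt : ∀ x, (o x : ℤ) + (o (X.π x) : ℤ) =
      ((if x = X.y0 then 2 else 0) + (if x = X.π X.y0 then 2 else 0))
      - ((if x = X.x0 then 2 else 0) + (if x = X.π X.x0 then 2 else 0)) := by
    intro x
    obtain ⟨h1, h2, h3, h4, h5⟩ := ho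
    have c1 : ∀ z w, o z = -1 → o w = 1 → z ≠ w := by
      intro z w hz hw hzw
      rw [hzw, hw] at hz
      exact absurd hz (by decide)
    by_cases e1 : x = X.x0
    · rw [e1, if_neg (c1 _ _ h1 h3), if_neg (c1 _ _ h1 h4), if_pos rfl, if_neg (hne X.x0).symm, h1, h2]
      norm_num
    by_cases e2 : x = X.π X.x0
    · rw [e2, if_neg (c1 _ _ h2 h3), if_neg (c1 _ _ h2 h4), if_neg (hne X.x0), if_pos rfl, hinv, h1, h2]
      norm_num
    by_cases e3 : x = X.y0
    · rw [e3, if_pos rfl, if_neg (hne X.y0).symm, if_neg (c1 _ _ h1 h3).symm,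
        if_neg (c1 _ _ h2 h3).symm, h3, h4]
      norm_num
    by_cases e4 : x = X.π X.y0
    · rw [e4, if_neg (hne X.y0), if_pos rfl, if_neg (c1 _ _ h1 h4).symm,
        if_neg (c1 _ _ h2 h4).symm, hinv, h3, h4]
      norm_num
    rw [h5 x e1 e2 e3 e4, if_neg e1, if_neg e2, if_neg e3, if_neg e4]
    push_cast; ring
  have hbij : ∑ x ∈ S, (o (X.π x) : ℤ) * s (X.π x) = ∑ x ∈ S, (o x : ℤ) * s x := by
    refine Finset.sum_bij' (fun x _ => X.π x) (fun x _ => X.π x) ?_ ?_ ?_ ?_ ?_
    · intro x hx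
      rw [mS] at hx ⊢
      rwa [h.mem_iff hinv]
    · intro x hx
      rw [mS] at hx ⊢
      rwa [h.mem_iff hinv]
    · intro x _; exact hinv x
    · intro x _; exact hinv x
    · intro x _; rfl
  have h2S : 2 * ∑ x ∈ S, (o x : ℤ) * s x = 4 * s X.y0 := by
    have e1 : 2 * ∑ x ∈ S, (o x : ℤ) * s x = ∑ x ∈ S, ((o x : ℤ) + (o (X.π x) : ℤ)) * s x := by
      have e2 : ∑ x ∈ S, ((o x : ℤ) + (o (X.π x) : ℤ)) * s x
          = ∑ x ∈ S, (o x : ℤ) * s x + ∑ x ∈ S, (o (X.π x) : ℤ) * s (X.π x) := by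
        rw [← sum_add_distrib]
        apply sum_congr rfl
        intro x hx
        rw [hW.wire x ((mS x).1 hx)]
        ring
      rw [e2, hbij]; ring
    have e3 : ∑ x ∈ S, ((o x : ℤ) + (o (X.π x) : ℤ)) * s x
        = ∑ x ∈ S, ((if x = X.y0 then 2 * s x else 0) + (if x = X.π X.y0 then 2 * s x else 0)
          - ((if x = X.x0 then 2 * s x else 0) + (if x = X.π X.x0 then 2 * s x else 0))) := by
      apply sum_congr rfl
      intro x _
      rw [pt x]
      split_ifs <;> ring
    rw [e1, e3, sum_sub_distrib, sum_add_distrib, sum_add_distrib, sum_ite_eq', sum_ite_eq',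
      sum_ite_eq', sum_ite_eq', if_pos ((mS _).2 h.y0), if_pos ((mS _).2 (h.y1 hinv)),
      if_pos ((mS _).2 h.x0), if_pos ((mS _).2 (h.x1 hinv)), hW.wire _ h.y0, hW.wire _ h.x0, hW.root]
    ring
  have hS2 : ∑ x ∈ S, (o x : ℤ) * s x = -∑ i ∈ C, (o (i, .E) : ℤ) * (n (i, .N) : ℤ) := by
    have e1 : ∑ x ∈ S, (o x : ℤ) * s x = ∑ x, if x ∈ VE C then 0 else (o x : ℤ) * s x := by
      rw [← sum_filter_add_sum_filter_not univ (fun x => x ∈ VE C)]
      rw [sum_eq_zero (s := univ.filter (fun x => x ∈ VE C))]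
      · rw [zero_add]
        rw [sum_filter]
        rw [← sum_filter, hS]
        have : univ \ VE C = univ.filter (fun x => x ∉ VE C) := by ext x; simp
        rw [this]
        apply sum_congr rfl
        intro x hx
        rw [if_neg (mem_filter.1 hx).2]
      · intro x hx
        rw [if_pos (mem_filter.1 hx).2]
    rw [e1, Fintype.sum_prod_type, ← sum_neg_distrib, ← Finset.sum_filter_add_sum_filter_not univ (fun i => i ∈ C)]
    have e2 : ∑ i ∈ univ.filter (fun i => i ∉ C), ∑ d : Dir, (if (i, d) ∈ VE C then 0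
        else (o (i, d) : ℤ) * s (i, d)) = 0 := by
      apply sum_eq_zero
      intro i hi
      have hi' := (mem_filter.1 hi).2
      have hd : ∀ d : Dir, (if (i, d) ∈ VE C then 0 else (o (i, d) : ℤ) * s (i, d))
          = (o (i, d) : ℤ) * s (i, .W) := by
        intro d
        rw [if_neg (by rw [mem_VE]; tauto), hW.rest i hi' d]
      rw [sum_congr rfl (fun d _ => hd d), ← sum_mul]
      have : ∑ d : Dir, (o (i, d) : ℤ) = 0 := by
        have := hv i hi'
        have hu : (univ : Finset Dir) = {Dir.W, Dir.N, Dir.E, Dir.S} := by decide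
        rw [hu, sum_insert (by decide), sum_insert (by decide), sum_insert (by decide), sum_singleton]
        linarith
      rw [this, zero_mul]
    rw [e2, add_zero]
    have hf : univ.filter (fun i => i ∈ C) = C := by ext i; simp
    rw [hf]
    apply sum_congr rfl
    intro i hi
    have hu : (univ : Finset Dir) = {Dir.W, Dir.N, Dir.E, Dir.S} := by decide
    rw [hu, sum_insert (by decide), sum_insert (by decide), sum_insert (by decide), sum_singleton,
      if_neg (by rw [mem_VE]; simp), if_pos (by rw [mem_VE]; simp [hi]),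
      if_neg (by rw [mem_VE]; simp), if_pos (by rw [mem_VE]; simp [hi]), hW.cross i hi, hs i hi]
    push_cast; ring
  linarith

/-- reversal of the arrows on the vertical ends of `C` -/
def rev (C : Finset ι) (o : ι × Dir → ℤˣ) : ι × Dir → ℤˣ := fun x => if x ∈ VE C then -o x else o x

lemma rev_rev (C : Finset ι) (o : ι × Dir → ℤˣ) : rev C (rev C o) = o := by
  funext x
  unfold rev
  split_ifs <;> simp

lemma rev_in {C : Finset ι} {o : ι × Dir → ℤˣ} {x : ι × Dir} (h : x ∈ VE C) : rev C o x = -o x := by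
  unfold rev; rw [if_pos h]

lemma rev_out {C : Finset ι} {o : ι × Dir → ℤˣ} {x : ι × Dir} (h : x ∉ VE C) : rev C o x = o x := by
  unfold rev; rw [if_neg h]

lemma rev_E {C : Finset ι} {o : ι × Dir → ℤˣ} {i : ι} : rev C o (i, .E) = o (i, .E) :=
  rev_out (by rw [mem_VE]; simp)

lemma rev_W {C : Finset ι} {o : ι × Dir → ℤˣ} {i : ι} : rev C o (i, .W) = o (i, .W) :=
  rev_out (by rw [mem_VE]; simp)

lemma cons_rev {X : Net ι} (hinv : ∀ x, X.π (X.π x) = x) {C : Finset ι} (h : Str X C)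
    {o : ι × Dir → ℤˣ} (ho : X.Cons o) : X.Cons (rev C o) := by
  have h1 := h.x1 hinv
  have h2 := h.y1 hinv
  refine ⟨?_, ?_, ?_, ?_, ?_⟩
  · rw [rev_out h.x0]; exact ho.1
  · rw [rev_out h1]; exact ho.2.1
  · rw [rev_out h.y0]; exact ho.2.2.1
  · rw [rev_out h2]; exact ho.2.2.2.1
  · intro x e1 e2 e3 e4
    have := ho.2.2.2.2 x e1 e2 e3 e4
    by_cases hx : x ∈ VE C
    · rw [rev_in hx, rev_in (h.mem x hx), this]
    · rw [rev_out hx, rev_out (by rwa [h.mem_iff hinv]), this]

lemma wtR_rev {X : Net ι} {a b : ι → ℂ} {K : Finset ι} (o : ι × Dir → ℤˣ) :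
    wtR X a b K (rev K o) = wtR X a b K o := by
  unfold wtR
  congr 1
  · apply prod_congr rfl
    intro i _
    by_cases hi : i ∈ K
    · rw [if_pos hi, if_pos hi, rev_E, rev_W]
    · rw [if_neg hi, if_neg hi, rev_E, rev_W, rev_out (by rw [mem_VE]; tauto),
        rev_out (by rw [mem_VE]; tauto)]
  · apply prod_congr rfl
    intro x _
    by_cases hx : x ∈ VE K
    · rw [if_pos hx, if_pos hx]
    · rw [if_neg hx, if_neg hx, rev_out hx]

/-- `wtR` does not depend on the arrows on the vertical ends of `K` -/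
lemma wtR_congr {X : Net ι} {a b : ι → ℂ} {K : Finset ι} {o o' : ι × Dir → ℤˣ}
    (h : ∀ x, x ∉ VE K → o x = o' x) : wtR X a b K o = wtR X a b K o' := by
  unfold wtR
  congr 1
  · apply prod_congr rfl
    intro i _
    by_cases hi : i ∈ K
    · rw [if_pos hi, if_pos hi, h _ (by rw [mem_VE]; simp), h _ (by rw [mem_VE]; simp)]
    · rw [if_neg hi, if_neg hi, h _ (by rw [mem_VE]; tauto), h _ (by rw [mem_VE]; tauto),
        h _ (by rw [mem_VE]; tauto), h _ (by rw [mem_VE]; tauto)]
  · apply prod_congr rfl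
    intro x _
    by_cases hx : x ∈ VE K
    · rw [if_pos hx, if_pos hx]
    · rw [if_neg hx, if_neg hx, h x hx]

lemma tot_neg {X : Net ι} (hinv : ∀ x, X.π (X.π x) = x) (htn : ∀ x, X.t (X.π x) = -X.t x)
    {C : Finset ι} {n : ι × Dir → ℤˣ} (h : Str X C) (hn : Ori X C n) :
    tot X C (fun x => -n x) = -tot X C n := by
  unfold tot
  rw [← sum_neg_distrib]
  refine Finset.sum_bij' (fun x _ => X.π x) (fun x _ => X.π x) ?_ ?_ ?_ ?_ ?_
  · intro x hx; exact h.mem x hx
  · intro x hx; exact h.mem x hx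
  · intro x _; exact hinv x
  · intro x _; exact hinv x
  · intro x hx
    simp only
    rw [hn.wire x hx, htn x]
    split_ifs <;> ring

/-- removal of one strand from the weight -/
lemma wtR_split {X : Net ι} {a b : ι → ℂ} {K C : Finset ι} (hd : Disjoint K C)
    (hov : ∀ i ∈ C, a i = zt ^ (4 : ℤ) ∧ b i = zt ^ (-4 : ℤ)) {o : ι × Dir → ℤˣ}
    (ho : ∀ i ∈ C, o (i, .S) = -o (i, .N)) :
    wtR X a b K o = wtR X a b (K ∪ C) o *
      zt ^ (-tot X C o + 4 * ∑ i ∈ C, (o (i, .E) : ℤ) * (o (i, .N) : ℤ)) := by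
  have h0 := zt_ne
  have e1 : (∏ i, if i ∈ K then (if o (i, .E) = -o (i, .W) then (1 : ℂ) else 0)
      else vert (a i) (b i) (o (i, .W)) (o (i, .N)) (o (i, .E)) (o (i, .S)))
      = (∏ i, if i ∈ K ∪ C then (if o (i, .E) = -o (i, .W) then (1 : ℂ) else 0)
      else vert (a i) (b i) (o (i, .W)) (o (i, .N)) (o (i, .E)) (o (i, .S))) *
      zt ^ (4 * ∑ i ∈ C, (o (i, .E) : ℤ) * (o (i, .N) : ℤ)) := by
    have e2 : zt ^ (4 * ∑ i ∈ C, (o (i, .E) : ℤ) * (o (i, .N) : ℤ))
        = ∏ i, if i ∈ C then zt ^ (4 * ((o (i, .E) : ℤ) * (o (i, .N) : ℤ))) else 1 := by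
      rw [prod_ite_mem, univ_inter, mul_sum]
      exact (map_sum_zpow h0 _ _)
    rw [e2, ← prod_mul_distrib]
    apply prod_congr rfl
    intro i _
    by_cases hK : i ∈ K
    · have hC : i ∉ C := fun hh => (disjoint_left.1 hd) hK hh
      rw [if_pos hK, if_pos (mem_union_left _ hK), if_neg hC, mul_one]
    · by_cases hC : i ∈ C
      · rw [if_neg hK, if_pos (mem_union_right _ hC), if_pos hC, (hov i hC).1, (hov i hC).2]
        by_cases h1 : o (i, .E) = -o (i, .W)
        · rw [if_pos h1, one_mul, vert_over_val h1 (ho i hC)]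
        · rw [if_neg h1, zero_mul]
          by_contra h2
          rcases vert_over h2 with h3 | h3
          · exact h1 h3.1
          · have := ho i hC
            rw [h3.1, h3.2.1] at this
            exact absurd this (by decide)
      · rw [if_neg hK, if_neg (by rw [mem_union]; tauto), if_neg hC, mul_one]
  have e3 : (∏ x, (if x ∈ VE K then (1 : ℂ) else if o x = 1 then zt ^ (-X.t x) else 1))
      = (∏ x, (if x ∈ VE (K ∪ C) then (1 : ℂ) else if o x = 1 then zt ^ (-X.t x) else 1)) *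
        zt ^ (-tot X C o) := by
    have e2 : zt ^ (-tot X C o) = ∏ x, if x ∈ VE C then (if o x = 1 then zt ^ (-X.t x) else 1) else 1 := by
      rw [prod_ite_mem, univ_inter, tot, ← sum_neg_distrib]
      rw [map_sum_zpow h0]
      apply prod_congr rfl
      intro x _
      split_ifs <;> simp
    rw [e2, ← prod_mul_distrib]
    apply prod_congr rfl
    intro x _
    by_cases hK : x ∈ VE K
    · have hC : x ∉ VE C := by
        obtain ⟨i, d⟩ := x
        rw [mem_VE] at hK ⊢
        intro hh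
        exact (disjoint_left.1 hd) hK.1 hh.1
      rw [if_pos hK, if_pos (mem_VE_union.2 (Or.inl hK)), if_neg hC, mul_one]
    · by_cases hC : x ∈ VE C
      · rw [if_neg hK, if_pos (mem_VE_union.2 (Or.inr hC)), if_pos hC, one_mul]
      · have hKC : x ∉ VE (K ∪ C) := by rw [mem_VE_union]; tauto
        rw [if_neg hK, if_neg hKC, if_neg hC, mul_one]
  unfold wtR
  rw [e1, e3, zpow_add₀ h0]
  ring

/-- the term of the reduced sum -/
noncomputable def term (X : Net ι) (a b : ι → ℂ) (n : ι × Dir → ℤˣ) (F : (ι × Dir → ℤˣ) → ℂ)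
    (K : Finset ι) (o : ι × Dir → ℤˣ) : ℂ := by
  classical
  exact if X.Cons o ∧ ∀ x ∈ VE K, o x = n x then F o * wtR X a b K o else 0

/-- the sum over the arrows which are `n` on the strands of `K`, with the strands of `K` removed
from the weight -/
noncomputable def VR (X : Net ι) (a b : ι → ℂ) (n : ι × Dir → ℤˣ) (F : (ι × Dir → ℤˣ) → ℂ)
    (K : Finset ι) : ℂ := ∑ o, term X a b n F K o

/-- `F` does not depend on the arrows on the vertical ends of `K` -/
def Indep (K : Finset ι) (F : (ι × Dir → ℤˣ) → ℂ) : Prop :=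
  ∀ o o' : ι × Dir → ℤˣ, (∀ x, x ∉ VE K → o x = o' x) → F o = F o'

/-- **one strand** -/
theorem VR_step {X : Net ι} (hinv : ∀ x, X.π (X.π x) = x) (hne : ∀ x, X.π x ≠ x)
    (htn : ∀ x, X.t (X.π x) = -X.t x) {a b : ι → ℂ} {n : ι × Dir → ℤˣ} {F : (ι × Dir → ℤˣ) → ℂ}
    {K C : Finset ι} (hd : Disjoint K C) (hC : Single X C) (hn : Ori X (K ∪ C) n)
    (hov : ∀ i ∈ C, a i = zt ^ (4 : ℤ) ∧ b i = zt ^ (-4 : ℤ)) {s : ι × Dir → ℤ}
    (hW : Wind X C n s) (hF : Indep C F) :
    VR X a b n F K = fac X C n s * VR X a b n F (K ∪ C) := by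
  classical
  have h0 := zt_ne
  have hnC : Ori X C n := ⟨fun x hx => hn.wire x (mem_VE_union.2 (Or.inr hx)),
    fun i hi => hn.vert i (mem_union_right _ hi)⟩
  have hKC : ∀ x ∈ VE K, x ∉ VE C := by
    rintro ⟨i, d⟩ hx hx'
    rw [mem_VE] at hx hx'
    exact (disjoint_left.1 hd) hx.1 hx'.1
  -- the arrows of a nonzero term
  have key : ∀ o, term X a b n F K o ≠ 0 →
      (∀ x ∈ VE C, o x = n x) ∨ (∀ x ∈ VE C, o x = -n x) := by
    intro o ho
    unfold term at ho
    split_ifs at ho with hc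
    · have hw := wtR_ne (right_ne_zero_of_mul ho)
      have hnf : ∀ i ∈ C, o (i, .E) = -o (i, .W) ∧ o (i, .S) = -o (i, .N) := by
        apply noflip hinv hne hC.str hc.1
        intro i hi
        have := hw.2 i (fun hh => (disjoint_left.1 hd) hh hi)
        rwa [(hov i hi).1, (hov i hi).2] at this
      exact two hC hnC ⟨fun x hx => cons_wire hinv hC.str hc.1 hx, fun i hi => (hnf i hi).2⟩
    · exact absurd rfl ho
  -- split the sum
  have split : ∀ o, term X a b n F K o
      = (if ∀ x ∈ VE C, o x = n x then term X a b n F K o else 0)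
      + (if ∀ x ∈ VE C, o x = -n x then term X a b n F K o else 0) := by
    intro o
    by_cases ho : term X a b n F K o = 0
    · rw [ho]; simp
    · obtain ⟨i, hi⟩ := hC.ne
      have hx : (i, Dir.N) ∈ VE C := by rw [mem_VE]; exact ⟨hi, Or.inl rfl⟩
      have hnn : ∀ u : ℤˣ, u ≠ -u := by decide
      rcases key o ho with h1 | h1
      · have h2 : ¬ ∀ x ∈ VE C, o x = -n x := by
          intro h2
          have := h2 _ hx
          rw [h1 _ hx] at this
          exact hnn _ this
        rw [if_pos h1, if_neg h2, add_zero]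
      · have h2 : ¬ ∀ x ∈ VE C, o x = n x := by
          intro h2
          have := h2 _ hx
          rw [h1 _ hx] at this
          exact hnn _ this.symm
        rw [if_neg h2, if_pos h1, zero_add]
  have hrev : ∑ o, (if ∀ x ∈ VE C, o x = -n x then term X a b n F K o else 0)
      = ∑ o, (if ∀ x ∈ VE C, o x = n x then term X a b n F K (rev C o) else 0) := by
    refine Finset.sum_bij' (fun o _ => rev C o) (fun o _ => rev C o) ?_ ?_ ?_ ?_ ?_
    · intro o _; exact mem_univ _
    · intro o _; exact mem_univ _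
    · intro o _; exact rev_rev C o
    · intro o _; exact rev_rev C o
    · intro o _
      rw [rev_rev]
      congr 1
      apply propext
      constructor
      · intro h x hx
        rw [rev_in hx, h x hx, neg_neg]
      · intro h x hx
        have := h x hx
        rw [rev_in hx] at this
        rw [← this, neg_neg]
  unfold VR
  rw [sum_congr rfl (fun o _ => split o), sum_add_distrib, hrev, ← sum_add_distrib, mul_sum]
  apply sum_congr rfl
  intro o _
  by_cases hon : ∀ x ∈ VE C, o x = n x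
  · rw [if_pos hon, if_pos hon]
    by_cases hc : X.Cons o ∧ ∀ x ∈ VE K, o x = n x
    · have hc2 : X.Cons o ∧ ∀ x ∈ VE (K ∪ C), o x = n x := by
        refine ⟨hc.1, ?_⟩
        intro x hx
        rcases mem_VE_union.1 hx with h | h
        · exact hc.2 x h
        · exact hon x h
      have hc3 : X.Cons (rev C o) ∧ ∀ x ∈ VE K, rev C o x = n x := by
        refine ⟨cons_rev hinv hC.str hc.1, ?_⟩
        intro x hx
        rw [rev_out (hKC x hx)]; exact hc.2 x hx
      have hNS : ∀ i ∈ C, o (i, .S) = -o (i, .N) := by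
        intro i hi
        rw [hon _ (by rw [mem_VE]; exact ⟨hi, Or.inr rfl⟩),
          hon _ (by rw [mem_VE]; exact ⟨hi, Or.inl rfl⟩), hnC.vert i hi]
      have hNS' : ∀ i ∈ C, rev C o (i, .S) = -rev C o (i, .N) := by
        intro i hi
        rw [rev_in (by rw [mem_VE]; exact ⟨hi, Or.inr rfl⟩),
          rev_in (by rw [mem_VE]; exact ⟨hi, Or.inl rfl⟩), hNS i hi]
      have w1 : wtR X a b (K ∪ C) (rev C o) = wtR X a b (K ∪ C) o := by
        apply wtR_congr
        intro x hx
        rw [rev_out]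
        intro hh; exact hx (mem_VE_union.2 (Or.inr hh))
      have F1 : F (rev C o) = F o := hF _ _ (fun x hx => rev_out hx)
      have t1 : tot X C o = tot X C n := by
        unfold tot
        apply sum_congr rfl
        intro x hx
        rw [hon x hx]
      have t2 : tot X C (rev C o) = -tot X C n := by
        rw [← tot_neg hinv htn hC.str hnC]
        unfold tot
        apply sum_congr rfl
        intro x hx
        rw [rev_in hx, hon x hx]
      unfold term
      rw [if_pos hc, if_pos hc2, if_pos hc3, wtR_split hd hov hNS, wtR_split hd hov hNS', w1, F1, t1, t2]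
      by_cases hw : wtR X a b (K ∪ C) o = 0
      · rw [hw]; ring
      · have hw' := wtR_ne hw
        have hq : ∑ i ∈ C, (o (i, .E) : ℤ) * (n (i, .N) : ℤ) = -2 * s X.y0 := by
          apply flow hinv hne hC.str hW hc.1
          · intro i hi
            by_cases hK : i ∈ K
            · have e1 := hw'.1 i (mem_union_left _ hK)
              have e2 : o (i, .S) = -o (i, .N) := by
                rw [hc2.2 _ (by rw [mem_VE]; exact ⟨mem_union_left _ hK, Or.inr rfl⟩),
                  hc2.2 _ (by rw [mem_VE]; exact ⟨mem_union_left _ hK, Or.inl rfl⟩),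
                  hn.vert i (mem_union_left _ hK)]
              rw [e1, e2]; push_cast; ring
            · exact vert_cons (hw'.2 i (by rw [mem_union]; tauto))
          · intro i hi
            exact hw'.1 i (mem_union_right _ hi)
        have q1 : ∑ i ∈ C, (o (i, .E) : ℤ) * (o (i, .N) : ℤ) = -2 * s X.y0 := by
          rw [← hq]
          apply sum_congr rfl
          intro i hi
          rw [hon (i, .N) (by rw [mem_VE]; exact ⟨hi, Or.inl rfl⟩)]
        have q2 : ∑ i ∈ C, (rev C o (i, .E) : ℤ) * (rev C o (i, .N) : ℤ) = 2 * s X.y0 := by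
          have : ∑ i ∈ C, (rev C o (i, .E) : ℤ) * (rev C o (i, .N) : ℤ)
              = -∑ i ∈ C, (o (i, .E) : ℤ) * (o (i, .N) : ℤ) := by
            rw [← sum_neg_distrib]
            apply sum_congr rfl
            intro i hi
            rw [rev_E, rev_in (by rw [mem_VE]; exact ⟨hi, Or.inl rfl⟩)]
            push_cast; ring
          rw [this, q1]; ring
        rw [q1, q2]
        unfold fac
        have e1 : -tot X C n + 4 * (-2 * s X.y0) = -(tot X C n + 8 * s X.y0) := by ring
        have e2 : -(-tot X C n) + 4 * (2 * s X.y0) = tot X C n + 8 * s X.y0 := by ring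
        rw [e1, e2]; ring
    · have hc2 : ¬ (X.Cons o ∧ ∀ x ∈ VE (K ∪ C), o x = n x) := by
        intro hh
        exact hc ⟨hh.1, fun x hx => hh.2 x (mem_VE_union.2 (Or.inl hx))⟩
      have hc3 : ¬ (X.Cons (rev C o) ∧ ∀ x ∈ VE K, rev C o x = n x) := by
        intro hh
        apply hc
        refine ⟨?_, ?_⟩
        · have := cons_rev hinv hC.str hh.1
          rwa [rev_rev] at this
        · intro x hx
          have := hh.2 x hx
          rwa [rev_out (hKC x hx)] at this
      unfold term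
      rw [if_neg hc, if_neg hc2, if_neg hc3]; ring
  · rw [if_neg hon, if_neg hon]
    have hc2 : ¬ (X.Cons o ∧ ∀ x ∈ VE (K ∪ C), o x = n x) := by
      intro hh
      exact hon (fun x hx => hh.2 x (mem_VE_union.2 (Or.inr hx)))
    unfold term
    rw [if_neg hc2]; ring

/-- **all strands of a family** -/
theorem VR_family {X : Net ι} (hinv : ∀ x, X.π (X.π x) = x) (hne : ∀ x, X.π x ≠ x)
    (htn : ∀ x, X.t (X.π x) = -X.t x) {a b : ι → ℂ} {n : ι × Dir → ℤˣ} {F : (ι × Dir → ℤˣ) → ℂ}
    (s : Finset ι → ι × Dir → ℤ) (𝒞 : Finset (Finset ι))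
    (hdis : ∀ C ∈ 𝒞, ∀ C' ∈ 𝒞, C ≠ C' → Disjoint C C') (hC : ∀ C ∈ 𝒞, Single X C)
    (hn : Ori X (𝒞.biUnion id) n)
    (hov : ∀ C ∈ 𝒞, ∀ i ∈ C, a i = zt ^ (4 : ℤ) ∧ b i = zt ^ (-4 : ℤ))
    (hW : ∀ C ∈ 𝒞, Wind X C n (s C)) (hF : Indep (𝒞.biUnion id) F) :
    VR X a b n F ∅ = (∏ C ∈ 𝒞, fac X C n (s C)) * VR X a b n F (𝒞.biUnion id) := by
  classical
  induction 𝒞 using Finset.induction_on with
  | empty => simp
  | insert C 𝒟 hCD ih =>
    have hsub : 𝒟.biUnion id ⊆ (insert C 𝒟).biUnion id := biUnion_subset_biUnion_of_subset_left _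
      (subset_insert _ _)
    have hunion : (insert C 𝒟).biUnion id = 𝒟.biUnion id ∪ C := by
      rw [biUnion_insert, union_comm]; rfl
    have hVE : ∀ {K K' : Finset ι}, K ⊆ K' → ∀ x, x ∈ VE K → x ∈ VE K' := by
      rintro K K' h ⟨i, d⟩ hx
      rw [mem_VE] at hx ⊢
      exact ⟨h hx.1, hx.2⟩
    have hd : Disjoint (𝒟.biUnion id) C := by
      rw [disjoint_biUnion_left]
      intro C' hC'
      apply hdis C' (mem_insert_of_mem hC') C (mem_insert_self _ _)
      rintro rfl; exact hCD hC'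
    have ih' := ih (fun C hC C' hC' => hdis C (mem_insert_of_mem hC) C' (mem_insert_of_mem hC'))
      (fun C h => hC C (mem_insert_of_mem h))
      ⟨fun x hx => hn.wire x (hVE hsub x hx), fun i hi => hn.vert i (hsub hi)⟩
      (fun C h => hov C (mem_insert_of_mem h)) (fun C h => hW C (mem_insert_of_mem h))
      (fun o o' h => hF o o' (fun x hx => h x (fun hh => hx (hVE hsub x hh))))
    rw [ih', prod_insert hCD, hunion, VR_step hinv hne htn hd (hC C (mem_insert_self _ _))
      (by rw [← hunion]; exact hn) (hov C (mem_insert_self _ _)) (hW C (mem_insert_self _ _))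
      (fun o o' h => hF o o' (fun x hx => h x (fun hh => hx (by
        rw [hunion]; exact mem_VE_union.2 (Or.inr hh)))))]
    ring

/-! ### The closed strands of a stable set -/

/-- the closed strands of `K` -/
noncomputable def orbs (X : Net ι) (K : Finset ι) : Finset (Finset ι) := by
  classical
  exact K.powerset.filter (fun C => Single X C)

lemma mem_orbs {X : Net ι} {K C : Finset ι} : C ∈ orbs X K ↔ C ⊆ K ∧ Single X C := by
  classical
  unfold orbs
  rw [mem_filter, mem_powerset]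

lemma VE_mono {K K' : Finset ι} (h : K ⊆ K') {x : ι × Dir} (hx : x ∈ VE K) : x ∈ VE K' := by
  obtain ⟨i, d⟩ := x
  rw [mem_VE] at hx ⊢
  exact ⟨h hx.1, hx.2⟩

lemma Str.inter {X : Net ι} {K C : Finset ι} (hK : Str X K) (hC : Str X C) : Str X (K ∩ C) := by
  have hs : ∀ x, x ∈ VE (K ∩ C) ↔ x ∈ VE K ∧ x ∈ VE C := by
    rintro ⟨i, d⟩
    simp only [mem_VE, mem_inter]; tauto
  refine ⟨?_, fun h => hK.x0 ((hs _).1 h).1, fun h => hK.y0 ((hs _).1 h).1⟩
  intro x hx
  rw [hs] at hx ⊢
  exact ⟨hK.mem x hx.1, hC.mem x hx.2⟩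

lemma Str.sdiff {X : Net ι} (hinv : ∀ x, X.π (X.π x) = x) {K C : Finset ι} (hK : Str X K)
    (hC : Str X C) : Str X (K \ C) := by
  have hs : ∀ x, x ∈ VE (K \ C) ↔ x ∈ VE K ∧ x ∉ VE C := by
    rintro ⟨i, d⟩
    simp only [mem_VE, mem_sdiff]; tauto
  refine ⟨?_, fun h => hK.x0 ((hs _).1 h).1, fun h => hK.y0 ((hs _).1 h).1⟩
  intro x hx
  rw [hs] at hx ⊢
  refine ⟨hK.mem x hx.1, ?_⟩
  rw [hC.mem_iff hinv]; exact hx.2

/-- two closed strands are equal or disjoint -/
lemma Single.disj {X : Net ι} {C C' : Finset ι} (h : Single X C) (h' : Single X C') (hne : C ≠ C') :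
    Disjoint C C' := by
  rw [disjoint_iff_inter_eq_empty]
  by_contra hh
  have hn : (C ∩ C').Nonempty := nonempty_iff_ne_empty.2 hh
  have h1 := h.single _ inter_subset_left hn (h.str.inter h'.str)
  have h2 := h'.single _ inter_subset_right hn (h.str.inter h'.str)
  exact hne (h1.symm.trans h2)

/-- a stable set is the union of its closed strands -/
lemma orbs_union {X : Net ι} (hinv : ∀ x, X.π (X.π x) = x) :
    ∀ (m : ℕ) (K : Finset ι), K.card = m → Str X K → (orbs X K).biUnion id = K := by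
  classical
  intro m
  induction m using Nat.strong_induction_on with
  | _ m ih =>
    intro K hm hK
    apply Finset.Subset.antisymm
    · intro x hx
      rw [mem_biUnion] at hx
      obtain ⟨C, hC, hx⟩ := hx
      exact (mem_orbs.1 hC).1 hx
    · intro x hx
      -- minimal stable subset containing `x`
      by_cases hS : Single X K
      · rw [mem_biUnion]
        exact ⟨K, mem_orbs.2 ⟨Subset.refl _, hS⟩, hx⟩
      · have : ∃ S, S ⊆ K ∧ S.Nonempty ∧ Str X S ∧ S ≠ K := by
          by_contra hh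
          push Not at hh
          exact hS ⟨hK, ⟨x, hx⟩, fun S h1 h2 h3 => hh S h1 h2 h3⟩
        obtain ⟨S, h1, h2, h3, h4⟩ := this
        have hlt : S.card < K.card := card_lt_card (ssubset_of_subset_of_ne h1 h4)
        have hlt2 : (K \ S).card < K.card := by
          apply card_lt_card
          rw [ssubset_iff_of_subset sdiff_subset]
          obtain ⟨y, hy⟩ := h2
          exact ⟨y, h1 hy, by simp [hy]⟩
        by_cases hxS : x ∈ S
        · have := ih _ (hm ▸ hlt) S rfl h3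
          rw [← this, mem_biUnion] at hxS
          obtain ⟨C, hC, hxC⟩ := hxS
          rw [mem_biUnion]
          exact ⟨C, mem_orbs.2 ⟨(mem_orbs.1 hC).1.trans h1, (mem_orbs.1 hC).2⟩, hxC⟩
        · have hxS' : x ∈ K \ S := mem_sdiff.2 ⟨hx, hxS⟩
          have := ih _ (hm ▸ hlt2) (K \ S) rfl (hK.sdiff hinv h3)
          rw [← this, mem_biUnion] at hxS'
          obtain ⟨C, hC, hxC⟩ := hxS'
          rw [mem_biUnion]
          exact ⟨C, mem_orbs.2 ⟨(mem_orbs.1 hC).1.trans sdiff_subset, (mem_orbs.1 hC).2⟩, hxC⟩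

/-- **closed strands** (L2): the sum over all arrows is the product of the factors of the closed
strands of `K` times the reduced sum -/
theorem strands {X : Net ι} (hinv : ∀ x, X.π (X.π x) = x) (hne : ∀ x, X.π x ≠ x)
    (htn : ∀ x, X.t (X.π x) = -X.t x) {a b : ι → ℂ} {n : ι × Dir → ℤˣ} {F : (ι × Dir → ℤˣ) → ℂ}
    {K : Finset ι} (hK : Str X K) (hn : Ori X K n)
    (hov : ∀ i ∈ K, a i = zt ^ (4 : ℤ) ∧ b i = zt ^ (-4 : ℤ))
    (s : Finset ι → ι × Dir → ℤ) (hW : ∀ C ∈ orbs X K, Wind X C n (s C)) (hF : Indep K F) :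
    (∑ o : ι × Dir → ℤˣ, if X.Cons o then F o * X.wt a b o else 0) =
      (∏ C ∈ orbs X K, fac X C n (s C)) * VR X a b n F K := by
  classical
  have hu := orbs_union hinv _ K rfl hK
  have h := VR_family hinv hne htn (a := a) (b := b) (n := n) (F := F) s (orbs X K)
    (fun C hC C' hC' hne => (mem_orbs.1 hC).2.disj (mem_orbs.1 hC').2 hne)
    (fun C hC => (mem_orbs.1 hC).2) (by rw [hu]; exact hn)
    (fun C hC i hi => hov i ((mem_orbs.1 hC).1 hi)) hW (by rw [hu]; exact hF)
  rw [hu] at h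
  rw [← h]
  unfold VR
  apply sum_congr rfl
  intro o _
  unfold term
  rw [wtR_empty]
  by_cases hc : X.Cons o
  · rw [if_pos hc, if_pos ⟨hc, by simp [VE]⟩]
  · rw [if_neg hc, if_neg (fun hh => hc hh.1)]

/-! ### Values of the factors -/

lemma zt_24 (k : ℤ) : zt ^ (24 * k) = 1 := by
  have h : zt ^ (24 : ℤ) = 1 := by
    have : zt ^ (24 : ℤ) = (zt ^ 12) ^ 2 := by
      rw [← pow_mul]; norm_cast
    rw [this, zt_twelve]; norm_num
  rw [zpow_mul, h, one_zpow]

lemma zt_sum4 : zt ^ (4 : ℤ) + zt ^ (-4 : ℤ) = 1 := by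
  have h0 := zt_ne
  have h8 := zt_eight
  have e : zt ^ (-4 : ℤ) = (zt ^ 4)⁻¹ := by rw [zpow_neg]; norm_cast
  have e2 : zt ^ (4 : ℤ) = zt ^ 4 := by norm_cast
  rw [e, e2]
  have h4 : zt ^ 4 ≠ 0 := pow_ne_zero _ h0
  field_simp
  linear_combination h8

lemma zt_sum12 : zt ^ (12 : ℤ) + zt ^ (-12 : ℤ) = -2 := by
  have h12 := zt_twelve
  have e : zt ^ (-12 : ℤ) = (zt ^ 12)⁻¹ := by rw [zpow_neg]; norm_cast
  have e2 : zt ^ (12 : ℤ) = zt ^ 12 := by norm_cast
  rw [e, e2, h12]; norm_num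

lemma zt_per (x y k : ℤ) (h : x = y + 24 * k) : zt ^ x = zt ^ y := by
  rw [h, zpow_add₀ zt_ne, zt_24, mul_one]

/-- a closed strand of turning `± 4` has the factor `1` or `-2` -/
lemma fac_or {X : Net ι} {C : Finset ι} {n : ι × Dir → ℤˣ} {s : ι × Dir → ℤ}
    (h : tot X C n = 4 ∨ tot X C n = -4) : fac X C n s = 1 ∨ fac X C n s = -2 := by
  unfold fac
  have h4 := zt_sum4
  have h12 := zt_sum12
  obtain ⟨q, r, hr, hr3⟩ : ∃ q r : ℤ, s X.y0 = 3 * q + r ∧ (r = 0 ∨ r = 1 ∨ r = 2) :=
    ⟨s X.y0 / 3, s X.y0 % 3, by omega, by omega⟩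
  rw [hr]
  rcases h with h | h <;> rw [h] <;> rcases hr3 with rfl | rfl | rfl
  · left
    rw [zt_per (4 + 8 * (3 * q + 0)) 4 q (by ring), zt_per (-(4 + 8 * (3 * q + 0))) (-4) (-q) (by ring)]
    exact h4
  · right
    rw [zt_per (4 + 8 * (3 * q + 1)) 12 q (by ring), zt_per (-(4 + 8 * (3 * q + 1))) (-12) (-q) (by ring)]
    exact h12
  · left
    rw [zt_per (4 + 8 * (3 * q + 2)) (-4) (q + 1) (by ring),
      zt_per (-(4 + 8 * (3 * q + 2))) 4 (-q - 1) (by ring), add_comm]
    exact h4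
  · left
    rw [zt_per (-4 + 8 * (3 * q + 0)) (-4) q (by ring), zt_per (-(-4 + 8 * (3 * q + 0))) 4 (-q) (by ring),
      add_comm]
    exact h4
  · left
    rw [zt_per (-4 + 8 * (3 * q + 1)) 4 q (by ring), zt_per (-(-4 + 8 * (3 * q + 1))) (-4) (-q) (by ring)]
    exact h4
  · right
    rw [zt_per (-4 + 8 * (3 * q + 2)) 12 q (by ring),
      zt_per (-(-4 + 8 * (3 * q + 2))) (-12) (-q) (by ring)]
    exact h12

/-- a closed strand which does not surround the mark has the factor `1` -/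
lemma fac_one {X : Net ι} {C : Finset ι} {n : ι × Dir → ℤˣ} {s : ι × Dir → ℤ}
    (h : tot X C n = 4 ∨ tot X C n = -4) (hs : s X.y0 = 0) : fac X C n s = 1 := by
  unfold fac
  have h4 := zt_sum4
  rw [hs]
  rcases h with h | h <;> rw [h]
  · norm_num; exact h4
  · norm_num; rw [add_comm]; exact h4

/-- a closed strand which surrounds the mark has the factor `-2` -/
lemma fac_two {X : Net ι} {C : Finset ι} {n : ι × Dir → ℤˣ} {s : ι × Dir → ℤ} {k : ℤ}
    (hk : k = 1 ∨ k = -1) (h : tot X C n = 4 * k) (hs : s X.y0 = k) : fac X C n s = -2 := by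
  unfold fac
  have h12 := zt_sum12
  rw [hs, h]
  rcases hk with rfl | rfl
  · norm_num; exact h12
  · norm_num; rw [add_comm]; exact h12

lemma fac_norm {X : Net ι} {C : Finset ι} {n : ι × Dir → ℤˣ} {s : ι × Dir → ℤ}
    (h : tot X C n = 4 ∨ tot X C n = -4) : ‖fac X C n s‖ ≤ if s X.y0 = 0 then 1 else 2 := by
  split_ifs with hs
  · rw [fac_one h hs]; simp
  · rcases fac_or (s := s) h with h1 | h1 <;> rw [h1] <;> norm_num

end Pool.Agent.Q1.M6b.Strand
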