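import Mathlib
import Pool.Agent.Q1.M6b.Strand

set_option autoImplicit false
set_option linter.unusedSectionVars false
open Finset

/-! Closed strands of one planar row: the factor of a strand is `-2` if it surrounds the mark (odd
number of its columns to the left of the mark) and `1` otherwise. -/

namespace Pool.Agent.Q1.M6b.Strand

open Pool.Agent.H81.G1 Meander

variable {N : ℕ}

/-- position of an end along the row: number of columns to the left -/
def pos : Fin N × Dir → ℕ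
  | (c, .E) => c + 1
  | (c, .W) => c
  | (c, .N) => c
  | (c, .S) => c

/-- `f` preserves the columns of `K` in `[p, q)` -/
def Pres (K : Finset (Fin N)) (f : Fin N → Fin N) (p q : ℕ) : Prop :=
  ∀ z ∈ K, p ≤ (z : ℕ) → (z : ℕ) < q → p ≤ (f z : ℕ) ∧ (f z : ℕ) < q

/-- `U` or `D` preserves the columns of `K` in `[p, q)` -/
def Pr (K : Finset (Fin N)) (U D : Fin N → Fin N) (p q : ℕ) : Prop := Pres K U p q ∨ Pres K D p q

/-- two positions which are on the same side of every strand of `K` -/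
def Same (K : Finset (Fin N)) (U D : Fin N → Fin N) (p q : ℕ) : Prop :=
  (p ≤ q ∧ Pr K U D p q) ∨ (q ≤ p ∧ Pr K U D q p) ∨ (Pr K U D 0 p ∧ Pr K U D 0 q)

/-- the planar structure of the row around the closed strands of `K` -/
structure Planar (X : Net (Fin N)) (K : Finset (Fin N)) (U D : Fin N → Fin N) (θ : Fin N → ℤ) :
    Prop where
  up : ∀ c ∈ K, X.π (c, .N) = (U c, .N)
  dn : ∀ c ∈ K, X.π (c, .S) = (D c, .S)
  ncU : ∀ x ∈ K, ∀ y ∈ K, x < y → y < U x → x < U y ∧ U y < U x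
  ncD : ∀ x ∈ K, ∀ y ∈ K, x < y → y < D x → x < D y ∧ D y < D x
  tU : ∀ c ∈ K, X.t (c, .N) = -2 * dir c (U c) + θ (U c) - θ c
  tD : ∀ c ∈ K, X.t (c, .S) = 2 * dir c (D c) + θ (D c) - θ c
  out : ∀ x, x ∉ VE K → Same K U D (pos x) (pos (X.π x))
  root : Pr K U D 0 (pos X.x0)

/-- alternating orientation of the columns of `K` -/
def eps (K : Finset (Fin N)) (c : Fin N) : ℤˣ := (-1) ^ (K.filter (· < c)).card

lemma eps_sg (K : Finset (Fin N)) (c : Fin N) : ((eps K c : ℤˣ) : ℤ) = sg K c := by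
  unfold eps sg; push_cast; rfl

/-- the alternating orientation on the ends -/
def alt (K : Finset (Fin N)) : Fin N × Dir → ℤˣ
  | (c, .S) => -eps K c
  | (c, .N) => eps K c
  | (_, .W) => 1
  | (_, .E) => 1

variable {X : Net (Fin N)} {K : Finset (Fin N)} {U D : Fin N → Fin N} {θ : Fin N → ℤ}

lemma Planar.memU (h : Planar X K U D θ) {C : Finset (Fin N)} (hCK : C ⊆ K) (hC : Str X C)
    {c : Fin N} (hc : c ∈ C) : U c ∈ C := by
  have := hC.mem (c, .N) (by rw [mem_VE]; exact ⟨hc, Or.inl rfl⟩)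
  rw [h.up c (hCK hc), mem_VE] at this
  exact this.1

lemma Planar.memD (h : Planar X K U D θ) {C : Finset (Fin N)} (hCK : C ⊆ K) (hC : Str X C)
    {c : Fin N} (hc : c ∈ C) : D c ∈ C := by
  have := hC.mem (c, .S) (by rw [mem_VE]; exact ⟨hc, Or.inr rfl⟩)
  rw [h.dn c (hCK hc), mem_VE] at this
  exact this.1

lemma Planar.matchU (hinv : ∀ x, X.π (X.π x) = x) (hne : ∀ x, X.π x ≠ x) (h : Planar X K U D θ)
    {C : Finset (Fin N)} (hCK : C ⊆ K) (hC : Str X C) : Match C U where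
  mem x hx := h.memU hCK hC hx
  inv x hx := by
    have := hinv (x, .N)
    rw [h.up x (hCK hx), h.up _ (hCK (h.memU hCK hC hx))] at this
    exact congrArg Prod.fst this
  ne x hx hh := by
    apply hne (x, .N)
    rw [h.up x (hCK hx), hh]
  nc x hx y hy := h.ncU x (hCK hx) y (hCK hy)

lemma Planar.matchD (hinv : ∀ x, X.π (X.π x) = x) (hne : ∀ x, X.π x ≠ x) (h : Planar X K U D θ)
    {C : Finset (Fin N)} (hCK : C ⊆ K) (hC : Str X C) : Match C D where
  mem x hx := h.memD hCK hC hx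
  inv x hx := by
    have := hinv (x, .S)
    rw [h.dn x (hCK hx), h.dn _ (hCK (h.memD hCK hC hx))] at this
    exact congrArg Prod.fst this
  ne x hx hh := by
    apply hne (x, .S)
    rw [h.dn x (hCK hx), hh]
  nc x hx y hy := h.ncD x (hCK hx) y (hCK hy)

lemma Planar.ori (hinv : ∀ x, X.π (X.π x) = x) (hne : ∀ x, X.π x ≠ x) (h : Planar X K U D θ)
    (hK : Str X K) : Ori X K (alt K) where
  wire := by
    rintro ⟨c, d⟩ hx
    rw [mem_VE] at hx
    rcases hx with ⟨hc, rfl | rfl⟩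
    · rw [h.up c hc]
      show eps K (U c) = -eps K c
      apply Units.ext
      push_cast
      rw [eps_sg, eps_sg, (h.matchU hinv hne (Subset.refl _) hK).sg hc]
    · rw [h.dn c hc]
      show -eps K (D c) = -(-eps K c)
      apply Units.ext
      push_cast
      rw [eps_sg, eps_sg, (h.matchD hinv hne (Subset.refl _) hK).sg hc]
  vert := by
    intro i _
    rfl

lemma Planar.closed (hinv : ∀ x, X.π (X.π x) = x) (hne : ∀ x, X.π x ≠ x) (h : Planar X K U D θ)
    {C : Finset (Fin N)} (hCK : C ⊆ K) (hC : Single X C) : Closed U D C where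
  mU := h.matchU hinv hne hCK hC.str
  mD := h.matchD hinv hne hCK hC.str
  ne := hC.ne
  single S hS hSn hst := by
    apply hC.single S hS hSn
    have hsub : ∀ x, x ∈ VE S → x ∈ VE C := fun x hx => VE_mono hS hx
    refine ⟨?_, fun hh => hC.str.x0 (hsub _ hh), fun hh => hC.str.y0 (hsub _ hh)⟩
    rintro ⟨c, d⟩ hx
    rw [mem_VE] at hx
    rcases hx with ⟨hc, rfl | rfl⟩
    · rw [h.up c (hCK (hS hc)), mem_VE]; exact ⟨(hst c hc).1, Or.inl rfl⟩
    · rw [h.dn c (hCK (hS hc)), mem_VE]; exact ⟨(hst c hc).2, Or.inr rfl⟩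

/-- the winding number of the strand `C` -/
def wn (C : Finset (Fin N)) (n : Fin N × Dir → ℤˣ) (x : Fin N × Dir) : ℤ :=
  side C (fun c => (n (c, .N) : ℤ)) (fun z : Fin N => (z : ℕ) < pos x)

lemma side_range {C : Finset (Fin N)} {ν : Fin N → ℤ} {p q : ℕ} (hpq : p ≤ q) :
    side C ν (fun z : Fin N => (z : ℕ) < q) = side C ν (fun z : Fin N => (z : ℕ) < p)
      - ∑ z ∈ C.filter (fun z : Fin N => p ≤ (z : ℕ) ∧ (z : ℕ) < q), ν z := by
  unfold side
  have : C.filter (fun z : Fin N => (z : ℕ) < q) = C.filter (fun z : Fin N => (z : ℕ) < p) ∪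
      C.filter (fun z : Fin N => p ≤ (z : ℕ) ∧ (z : ℕ) < q) := by
    ext z
    simp only [mem_filter, mem_union]
    constructor
    · rintro ⟨h1, h2⟩
      by_cases h3 : (z : ℕ) < p
      · exact Or.inl ⟨h1, h3⟩
      · exact Or.inr ⟨h1, not_lt.1 h3, h2⟩
    · rintro (⟨h1, h2⟩ | ⟨h1, h2, h3⟩)
      · exact ⟨h1, lt_of_lt_of_le h2 hpq⟩
      · exact ⟨h1, h3⟩
  rw [this, sum_union]
  · ring
  · rw [disjoint_left]
    intro z h1 h2
    have := (mem_filter.1 h1).2
    have := (mem_filter.1 h2).2.1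
    omega

lemma pres_sum {C : Finset (Fin N)} {ν : Fin N → ℤ} {f : Fin N → Fin N} {p q : ℕ} (hm : Match C f)
    (hν : ∀ x ∈ C, ν (f x) = -ν x) (hp : Pres C f p q) :
    ∑ z ∈ C.filter (fun z : Fin N => p ≤ (z : ℕ) ∧ (z : ℕ) < q), ν z = 0 := by
  refine Finset.sum_involution (fun x _ => f x) ?_ ?_ ?_ ?_
  · intro x hx
    rw [hν x (mem_filter.1 hx).1]; ring
  · intro x hx _
    exact hm.ne x (mem_filter.1 hx).1
  · intro x hx
    have hx' := mem_filter.1 hx
    exact mem_filter.2 ⟨hm.mem x hx'.1, hp x hx'.1 hx'.2.1 hx'.2.2⟩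
  · intro x hx
    exact hm.inv x (mem_filter.1 hx).1

lemma Pr.mono {C : Finset (Fin N)} {p q : ℕ} (h : Pr K U D p q) (hCK : C ⊆ K) : Pr C U D p q :=
  h.imp (fun h z hz => h z (hCK hz)) (fun h z hz => h z (hCK hz))

lemma Same.mono {C : Finset (Fin N)} {p q : ℕ} (h : Same K U D p q) (hCK : C ⊆ K) :
    Same C U D p q := by
  rcases h with ⟨h1, h2⟩ | ⟨h1, h2⟩ | ⟨h1, h2⟩
  · exact Or.inl ⟨h1, h2.mono hCK⟩
  · exact Or.inr (Or.inl ⟨h1, h2.mono hCK⟩)
  · exact Or.inr (Or.inr ⟨h1.mono hCK, h2.mono hCK⟩)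

lemma side_zero {C : Finset (Fin N)} {ν : Fin N → ℤ} :
    side C ν (fun z : Fin N => (z : ℕ) < 0) = 0 := by
  unfold side; simp

/-- the orientation is alternating along `U` and `D` -/
lemma ori_U {C : Finset (Fin N)} {n : Fin N × Dir → ℤˣ} (hC : C ⊆ K) (hO : Ori X C n)
    (hpl : Planar X K U D θ) : ∀ x ∈ C, ((n (U x, .N) : ℤˣ) : ℤ) = -((n (x, .N) : ℤˣ) : ℤ) := by
  intro x hx
  have := hO.wire (x, .N) (by rw [mem_VE]; exact ⟨hx, Or.inl rfl⟩)
  rw [hpl.up x (hC hx)] at this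
  rw [this]; push_cast; rfl

lemma ori_D {C : Finset (Fin N)} {n : Fin N × Dir → ℤˣ} (hC : C ⊆ K) (hO : Ori X C n)
    (hpl : Planar X K U D θ) (hD : Match C D) :
    ∀ x ∈ C, ((n (D x, .N) : ℤˣ) : ℤ) = -((n (x, .N) : ℤˣ) : ℤ) := by
  intro x hx
  have := hO.wire (x, .S) (by rw [mem_VE]; exact ⟨hx, Or.inr rfl⟩)
  rw [hpl.dn x (hC hx)] at this
  rw [hO.vert x hx, hO.vert (D x) (hD.mem x hx)] at this
  rw [neg_injective this]; push_cast; rfl

/-- the side does not change across `[p, q)` -/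
lemma Pr.side {C : Finset (Fin N)} {n : Fin N × Dir → ℤˣ} (hC : C ⊆ K) (hO : Ori X C n)
    (hpl : Planar X K U D θ) (hU : Match C U) (hD : Match C D) {p q : ℕ} (hpq : p ≤ q)
    (h : Pr C U D p q) : side C (fun c => (n (c, .N) : ℤ)) (fun z : Fin N => (z : ℕ) < q)
      = side C (fun c => (n (c, .N) : ℤ)) (fun z : Fin N => (z : ℕ) < p) := by
  rw [side_range hpq]
  have : ∑ z ∈ C.filter (fun z : Fin N => p ≤ (z : ℕ) ∧ (z : ℕ) < q), (n (z, .N) : ℤ) = 0 := by
    rcases h with h | h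
    · exact pres_sum hU (ori_U hC hO hpl) h
    · exact pres_sum hD (ori_D hC hO hpl hD) h
  rw [this]; ring

lemma Same.side {C : Finset (Fin N)} {n : Fin N × Dir → ℤˣ} (hC : C ⊆ K) (hO : Ori X C n)
    (hpl : Planar X K U D θ) (hU : Match C U) (hD : Match C D) {p q : ℕ}
    (h : Same C U D p q) : side C (fun c => (n (c, .N) : ℤ)) (fun z : Fin N => (z : ℕ) < q)
      = side C (fun c => (n (c, .N) : ℤ)) (fun z : Fin N => (z : ℕ) < p) := by
  rcases h with ⟨h1, h2⟩ | ⟨h1, h2⟩ | ⟨h1, h2⟩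
  · exact h2.side hC hO hpl hU hD h1
  · exact (h2.side hC hO hpl hU hD h1).symm
  · rw [h1.side hC hO hpl hU hD (Nat.zero_le _), h2.side hC hO hpl hU hD (Nat.zero_le _)]

lemma arc_pres {C : Finset (Fin N)} {f : Fin N → Fin N} (hm : Match K f) (hCK : C ⊆ K) {c : Fin N}
    (hc : c ∈ K) (hcC : c ∉ C) (hfC : f c ∉ C) :
    ((c : ℕ) ≤ f c ∧ Pres C f c (f c)) ∨ ((f c : ℕ) ≤ c ∧ Pres C f (f c) c) := by
  rcases le_total (c : ℕ) (f c : ℕ) with h1 | h1
  · left
    refine ⟨h1, ?_⟩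
    intro z hz h2 h3
    have hzc : z ≠ c := fun hh => hcC (hh ▸ hz)
    have h4 : c < z := Fin.lt_def.2 (lt_of_le_of_ne h2 (fun hh => hzc (Fin.ext hh.symm)))
    have := hm.nc c hc z (hCK hz) h4 (Fin.lt_def.2 h3)
    exact ⟨(Fin.lt_def.1 this.1).le, Fin.lt_def.1 this.2⟩
  · right
    refine ⟨h1, ?_⟩
    intro z hz h2 h3
    have hzc : z ≠ f c := fun hh => hfC (hh ▸ hz)
    have h4 : f c < z := Fin.lt_def.2 (lt_of_le_of_ne h2 (fun hh => hzc (Fin.ext hh.symm)))
    have := hm.nc (f c) (hm.mem c hc) z (hCK hz) h4 (by rw [hm.inv c hc]; exact Fin.lt_def.2 h3)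
    rw [hm.inv c hc] at this
    exact ⟨(Fin.lt_def.1 this.1).le, Fin.lt_def.1 this.2⟩

/-- the winding numbers -/
theorem Planar.wind (hinv : ∀ x, X.π (X.π x) = x) (hne : ∀ x, X.π x ≠ x)
    (h : Planar X K U D θ) (hK : Str X K) {C : Finset (Fin N)} (hCK : C ⊆ K) (hC : Str X C)
    {n : Fin N × Dir → ℤˣ} (hO : Ori X C n) : Wind X C n (wn C n) := by
  have hU := h.matchU hinv hne hCK hC
  have hD := h.matchD hinv hne hCK hC
  refine ⟨?_, ?_, ?_, ?_⟩
  · intro i hi d
    unfold wn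
    have key : side C (fun c => (n (c, .N) : ℤ)) (fun z : Fin N => (z : ℕ) < i + 1)
        = side C (fun c => (n (c, .N) : ℤ)) (fun z : Fin N => (z : ℕ) < i) := by
      rw [side_range (Nat.le_succ _)]
      have : C.filter (fun z : Fin N => (i : ℕ) ≤ (z : ℕ) ∧ (z : ℕ) < i + 1) = ∅ := by
        ext z
        simp only [mem_filter, notMem_empty, iff_false, not_and]
        intro hz h1 h2
        have : z = i := Fin.ext (by omega)
        exact hi (this ▸ hz)
      rw [this]; simp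
    cases d
    · rfl
    · rfl
    · exact key
    · rfl
  · intro i hi
    unfold wn
    show side C (fun c => (n (c, .N) : ℤ)) (fun z : Fin N => (z : ℕ) < i + 1)
        = side C (fun c => (n (c, .N) : ℤ)) (fun z : Fin N => (z : ℕ) < i) - (n (i, .N) : ℤ)
    rw [side_range (Nat.le_succ _)]
    have : C.filter (fun z : Fin N => (i : ℕ) ≤ (z : ℕ) ∧ (z : ℕ) < i + 1) = {i} := by
      ext z
      simp only [mem_filter, mem_singleton]
      constructor
      · rintro ⟨hz, h1, h2⟩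
        exact Fin.ext (by omega)
      · rintro rfl
        exact ⟨hi, le_rfl, Nat.lt_succ_self _⟩
    rw [this]; simp
  · intro x hx
    unfold wn
    by_cases hxK : x ∈ VE K
    · obtain ⟨c, d⟩ := x
      rw [mem_VE] at hx hxK
      have hcC : c ∉ C := fun hh => hx ⟨hh, hxK.2⟩
      apply Same.side hCK hO h hU hD
      rcases hxK with ⟨hc, rfl | rfl⟩
      · rw [h.up c hc]
        show Same C U D c (U c)
        have hUc : U c ∉ C := by
          intro hh
          apply hcC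
          have := hC.mem (U c, .N) (by rw [mem_VE]; exact ⟨hh, Or.inl rfl⟩)
          rw [← h.up c hc, hinv, mem_VE] at this
          exact this.1
        rcases arc_pres (h.matchU hinv hne (Subset.refl _) hK) hCK hc hcC hUc with h1 | h1
        · exact Or.inl ⟨h1.1, Or.inl h1.2⟩
        · exact Or.inr (Or.inl ⟨h1.1, Or.inl h1.2⟩)
      · rw [h.dn c hc]
        show Same C U D c (D c)
        have hDc : D c ∉ C := by
          intro hh
          apply hcC
          have := hC.mem (D c, .S) (by rw [mem_VE]; exact ⟨hh, Or.inr rfl⟩)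
          rw [← h.dn c hc, hinv, mem_VE] at this
          exact this.1
        rcases arc_pres (h.matchD hinv hne (Subset.refl _) hK) hCK hc hcC hDc with h1 | h1
        · exact Or.inl ⟨h1.1, Or.inr h1.2⟩
        · exact Or.inr (Or.inl ⟨h1.1, Or.inr h1.2⟩)
    · exact Same.side hCK hO h hU hD ((h.out x hxK).mono hCK)
  · unfold wn
    rw [((h.root).mono hCK).side hCK hO h hU hD (Nat.zero_le _), side_zero]

/-! ### Turning -/

lemma sum_half {C : Finset (Fin N)} {f : Fin N → Fin N} (hm : Match C f) {ν : Fin N → ℤ}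
    (h1 : ∀ c ∈ C, ν c = 1 ∨ ν c = -1) (hν : ∀ c ∈ C, ν (f c) = -ν c) (g : Fin N → ℤ) (e : ℤ)
    (he : e = 1 ∨ e = -1) :
    ∑ c ∈ C, (if ν c = e then g (f c) else 0) = ∑ c ∈ C, (if ν c = -e then g c else 0) := by
  refine Finset.sum_bij' (fun x _ => f x) (fun x _ => f x) ?_ ?_ ?_ ?_ ?_
  · intro x hx; exact hm.mem x hx
  · intro x hx; exact hm.mem x hx
  · intro x hx; exact hm.inv x hx
  · intro x hx; exact hm.inv x hx
  · intro x hx
    rw [hν x hx]
    rcases h1 x hx with h | h <;> rcases he with rfl | rfl <;> rw [h] <;> norm_num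

theorem Planar.turning (hinv : ∀ x, X.π (X.π x) = x) (hne : ∀ x, X.π x ≠ x)
    (h : Planar X K U D θ) {C : Finset (Fin N)} (hCK : C ⊆ K) (hC : Str X C)
    {n : Fin N × Dir → ℤˣ} (hO : Ori X C n) :
    tot X C n = turn U D (fun c => (n (c, .N) : ℤ)) C := by
  have hU := h.matchU hinv hne hCK hC
  have hD := h.matchD hinv hne hCK hC
  set ν : Fin N → ℤ := fun c => (n (c, .N) : ℤ) with hν
  have ν1 : ∀ c ∈ C, ν c = 1 ∨ ν c = -1 := by
    intro c _
    rcases Int.units_eq_one_or (n (c, .N)) with h1 | h1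
    · left; simp [hν, h1]
    · right; simp [hν, h1]
  have νU : ∀ c ∈ C, ν (U c) = -ν c := ori_U hCK hO h
  have νD : ∀ c ∈ C, ν (D c) = -ν c := ori_D hCK hO h hD
  have e1 : tot X C n = ∑ c ∈ C, ((if ν c = 1 then -2 * dir c (U c) + θ (U c) - θ c else 0)
      + (if ν c = -1 then 2 * dir c (D c) + θ (D c) - θ c else 0)) := by
    unfold Strand.tot VE
    rw [sum_product]
    apply sum_congr rfl
    intro c hc
    rw [sum_pair (by decide), h.tU c (hCK hc), h.tD c (hCK hc), hO.vert c hc]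
    rcases Int.units_eq_one_or (n (c, .N)) with h1 | h1
    · have : ν c = 1 := by simp [hν, h1]
      rw [this, h1]; norm_num
    · have : ν c = -1 := by simp [hν, h1]
      rw [this, h1]; norm_num
  -- the terms with `θ` cancel, the arcs are counted at both feet
  have a1 := sum_half hU ν1 νU θ 1 (Or.inl rfl)
  have a2 := sum_half hD ν1 νD θ (-1) (Or.inr rfl)
  have a3 := sum_half hU ν1 νU (fun c => dir c (U c)) 1 (Or.inl rfl)
  have a4 := sum_half hD ν1 νD (fun c => dir c (D c)) (-1) (Or.inr rfl)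
  have dirs : ∀ x y : Fin N, x ≠ y → dir x y = -dir y x := by
    intro x y hxy
    rcases lt_or_gt_of_ne hxy with h1 | h1
    · rw [dir_lt h1, dir_gt h1]; norm_num
    · rw [dir_lt h1, dir_gt h1]
  have a3' : ∑ c ∈ C, (if ν c = 1 then dir c (U c) else 0)
      = -∑ c ∈ C, (if ν c = -1 then dir c (U c) else 0) := by
    rw [← a3, ← sum_neg_distrib]
    apply sum_congr rfl
    intro c hc
    split_ifs
    · rw [hU.inv c hc, dirs _ _ (hU.ne c hc)]; ring
    · ring
  have a4' : ∑ c ∈ C, (if ν c = -1 then dir c (D c) else 0)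
      = -∑ c ∈ C, (if ν c = 1 then dir c (D c) else 0) := by
    have e : (- -1 : ℤ) = 1 := by norm_num
    rw [e] at a4
    rw [← a4, ← sum_neg_distrib]
    apply sum_congr rfl
    intro c hc
    split_ifs
    · rw [hD.inv c hc, dirs _ _ (hD.ne c hc)]; ring
    · ring
  have e2 : turn U D ν C = -(∑ c ∈ C, (if ν c = 1 then dir c (U c) else 0)
      - ∑ c ∈ C, (if ν c = -1 then dir c (U c) else 0)
      + ∑ c ∈ C, (if ν c = 1 then dir c (D c) else 0)
      - ∑ c ∈ C, (if ν c = -1 then dir c (D c) else 0)) := by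
    unfold turn
    rw [← sum_sub_distrib, ← sum_add_distrib, ← sum_sub_distrib, ← sum_neg_distrib]
    apply sum_congr rfl
    intro c hc
    rcases ν1 c hc with h1 | h1
    · rw [h1]; norm_num
    · rw [h1]; norm_num; ring
  have e3 : tot X C n = -2 * (∑ c ∈ C, (if ν c = 1 then dir c (U c) else 0))
      + 2 * (∑ c ∈ C, (if ν c = -1 then dir c (D c) else 0))
      + (∑ c ∈ C, (if ν c = 1 then θ (U c) else 0) - ∑ c ∈ C, (if ν c = 1 then θ c else 0))
      + (∑ c ∈ C, (if ν c = -1 then θ (D c) else 0) - ∑ c ∈ C, (if ν c = -1 then θ c else 0)) := by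
    rw [e1, mul_sum, mul_sum, ← sum_sub_distrib, ← sum_sub_distrib, ← sum_add_distrib,
      ← sum_add_distrib, ← sum_add_distrib]
    apply sum_congr rfl
    intro c hc
    rcases ν1 c hc with h1 | h1
    · rw [h1]; norm_num; ring
    · rw [h1]; norm_num; ring
  have e : (- -1 : ℤ) = 1 := by norm_num
  rw [e] at a2
  rw [e3, e2, a1, a2]
  linarith

/-! ### The theorem -/

/-- number of closed strands of `K` which surround the mark -/
noncomputable def Ne (X : Net (Fin N)) (K : Finset (Fin N)) : ℕ :=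
  ((orbs X K).filter (fun C => Odd (C.filter (fun z : Fin N => (z : ℕ) < pos X.y0)).card)).card

lemma Ori.mono {C : Finset (Fin N)} {n : Fin N × Dir → ℤˣ} (h : Ori X K n) (hCK : C ⊆ K) :
    Ori X C n :=
  ⟨fun x hx => h.wire x (VE_mono hCK hx), fun i hi => h.vert i (hCK hi)⟩

/-- turning and winding number of a closed strand -/
theorem Planar.data (hinv : ∀ x, X.π (X.π x) = x) (hne : ∀ x, X.π x ≠ x)
    (h : Planar X K U D θ) {C : Finset (Fin N)} (hCK : C ⊆ K) (hC : Single X C)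
    {n : Fin N × Dir → ℤˣ} (hO : Ori X C n) :
    ∃ k : ℤ, (k = 1 ∨ k = -1) ∧ tot X C n = 4 * k ∧
      ∀ x, wn C n x = if Odd (C.filter (fun z : Fin N => (z : ℕ) < pos x)).card then k else 0 := by
  have hD := h.matchD hinv hne hCK hC.str
  obtain ⟨k, hk, h1, h2⟩ := Meander.closed (h.closed hinv hne hCK hC)
    (n := fun c => ((n (c, .N) : ℤˣ) : ℤ)) (by
      intro c _
      rcases Int.units_eq_one_or (n (c, .N)) with h1 | h1
      · left; simp [h1]
      · right; simp [h1]) (ori_U hCK hO h) (ori_D hCK hO h hD)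
  refine ⟨k, hk, ?_, ?_⟩
  · rw [h.turning hinv hne hCK hC.str hO, h1]
  · intro x
    unfold wn
    exact h2 (fun z : Fin N => (z : ℕ) < pos x) (fun a b hab ha => lt_trans (Fin.lt_def.1 hab) ha)

lemma Planar.fac (hinv : ∀ x, X.π (X.π x) = x) (hne : ∀ x, X.π x ≠ x)
    (h : Planar X K U D θ) {C : Finset (Fin N)} (hCK : C ⊆ K) (hC : Single X C)
    {n : Fin N × Dir → ℤˣ} (hO : Ori X C n) :
    Strand.fac X C n (wn C n) =
      if Odd (C.filter (fun z : Fin N => (z : ℕ) < pos X.y0)).card then -2 else 1 := by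
  obtain ⟨k, hk, h1, h2⟩ := h.data hinv hne hCK hC hO
  have h3 := h2 X.y0
  split_ifs with ho
  · rw [if_pos ho] at h3
    exact fac_two hk h1 h3
  · rw [if_neg ho] at h3
    apply fac_one _ h3
    rcases hk with rfl | rfl
    · left; rw [h1]; norm_num
    · right; rw [h1]; norm_num

/-- **closed strands of a row** (L2) -/
theorem Planar.sum (hinv : ∀ x, X.π (X.π x) = x) (hne : ∀ x, X.π x ≠ x)
    (htn : ∀ x, X.t (X.π x) = -X.t x) (h : Planar X K U D θ) (hK : Str X K) {a b : Fin N → ℂ}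
    (hov : ∀ i ∈ K, a i = zt ^ (4 : ℤ) ∧ b i = zt ^ (-4 : ℤ)) {F : (Fin N × Dir → ℤˣ) → ℂ}
    (hF : Indep K F) :
    (∑ o : Fin N × Dir → ℤˣ, if X.Cons o then F o * X.wt a b o else 0) =
      (-2) ^ Ne X K * VR X a b (alt K) F K := by
  classical
  have hn := h.ori hinv hne hK
  rw [strands hinv hne htn hK hn hov (fun C => wn C (alt K))
    (fun C hC => h.wind hinv hne hK (mem_orbs.1 hC).1 (mem_orbs.1 hC).2.str
      (hn.mono (mem_orbs.1 hC).1)) hF]
  congr 1
  rw [prod_congr rfl (fun C hC => h.fac hinv hne (mem_orbs.1 hC).1 (mem_orbs.1 hC).2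
    (hn.mono (mem_orbs.1 hC).1)), prod_ite]
  simp [Ne]

/-- the sum over the arrows which agree with `o₀` outside the closed strands -/
theorem Planar.class_sum (hinv : ∀ x, X.π (X.π x) = x) (hne : ∀ x, X.π x ≠ x)
    (htn : ∀ x, X.t (X.π x) = -X.t x) (h : Planar X K U D θ) (hK : Str X K) {a b : Fin N → ℂ}
    (hov : ∀ i ∈ K, a i = zt ^ (4 : ℤ) ∧ b i = zt ^ (-4 : ℤ)) (o₀ : Fin N × Dir → ℤˣ)
    [DecidablePred fun o : Fin N × Dir → ℤˣ => X.Cons o ∧ ∀ x, x ∉ VE K → o x = o₀ x] :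
    ‖∑ o : Fin N × Dir → ℤˣ, if X.Cons o ∧ ∀ x, x ∉ VE K → o x = o₀ x then X.wt a b o else 0‖ ≤
      2 ^ Ne X K * ‖wtR X a b K o₀‖ := by
  classical
  have hF : Indep K (fun o : Fin N × Dir → ℤˣ => if ∀ x, x ∉ VE K → o x = o₀ x then (1 : ℂ) else 0) := by
    intro o o' hoo
    have : (∀ x, x ∉ VE K → o x = o₀ x) ↔ (∀ x, x ∉ VE K → o' x = o₀ x) := by
      constructor
      · intro hh x hx; rw [← hoo x hx, hh x hx]
      · intro hh x hx; rw [hoo x hx, hh x hx]
    simp only [this]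
  have e := h.sum hinv hne htn hK hov hF
  have e1 : (∑ o : Fin N × Dir → ℤˣ, if X.Cons o ∧ ∀ x, x ∉ VE K → o x = o₀ x then X.wt a b o else 0)
      = ∑ o : Fin N × Dir → ℤˣ, if X.Cons o then
        (if ∀ x, x ∉ VE K → o x = o₀ x then (1 : ℂ) else 0) * X.wt a b o else 0 := by
    apply sum_congr rfl
    intro o _
    by_cases h1 : X.Cons o
    · by_cases h2 : ∀ x, x ∉ VE K → o x = o₀ x
      · rw [if_pos ⟨h1, h2⟩, if_pos h1, if_pos h2, one_mul]
      · rw [if_neg (fun hh => h2 hh.2), if_pos h1, if_neg h2, zero_mul]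
    · rw [if_neg (fun hh => h1 hh.1), if_neg h1]
  rw [e1, e, norm_mul, norm_pow]
  have e2 : ‖(-2 : ℂ)‖ = 2 := by norm_num
  rw [e2]
  apply mul_le_mul_of_nonneg_left _ (by positivity)
  -- at most one term
  set o₁ : Fin N × Dir → ℤˣ := fun x => if x ∈ VE K then alt K x else o₀ x with ho₁
  unfold VR
  rw [Finset.sum_eq_single o₁]
  · unfold term
    split_ifs with hc
    · rw [norm_mul]
      have : wtR X a b K o₁ = wtR X a b K o₀ := by
        apply wtR_congr
        intro x hx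
        rw [ho₁]; simp only [if_neg hx]
      rw [this]
      apply mul_le_of_le_one_left (norm_nonneg _)
      beta_reduce
      split_ifs <;> simp
    · rw [norm_zero]; exact norm_nonneg _
  · intro o _ hne'
    unfold term
    split_ifs with hc
    · have : ¬ ∀ x, x ∉ VE K → o x = o₀ x := by
        intro hh
        apply hne'
        funext x
        rw [ho₁]
        by_cases hx : x ∈ VE K
        · simp only [if_pos hx]; exact hc.2 x hx
        · simp only [if_neg hx]; exact hh x hx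
      beta_reduce
      rw [if_neg this, zero_mul]
    · rfl
  · intro hh; exact absurd (mem_univ _) hh

/-! ### The standard track: two perfect matchings and the two ends of the row joined by the root wire -/

/-- a row from leg to leg with the upper matching `U` and the lower matching `D` -/
structure Track (X : Net (Fin N)) (U D : Fin N → Fin N) (θ : Fin N → ℤ) : Prop where
  row : X.IsRow
  up : ∀ c, X.π (c, .N) = (U c, .N)
  dn : ∀ c, X.π (c, .S) = (D c, .S)
  ends : ∀ c c' : Fin N, (c : ℕ) = 0 → (c' : ℕ) + 1 = N → X.π (c, .W) = (c', .E)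
  ncU : ∀ x y, x < y → y < U x → x < U y ∧ U y < U x
  ncD : ∀ x y, x < y → y < D x → x < D y ∧ D y < D x
  tU : ∀ c, X.t (c, .N) = -2 * dir c (U c) + θ (U c) - θ c
  tD : ∀ c, X.t (c, .S) = 2 * dir c (D c) + θ (D c) - θ c
  root : (pos X.x0 = 0 ∨ pos X.x0 = N)

theorem Track.planar (hinv : ∀ x, X.π (X.π x) = x) (h : Track X U D θ) (hK : Str X K) :
    Planar X K U D θ := by
  have UU : ∀ c, U (U c) = c := by
    intro c
    have := hinv (c, .N)
    rw [h.up, h.up] at this
    exact congrArg Prod.fst this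
  have DD : ∀ c, D (D c) = c := by
    intro c
    have := hinv (c, .S)
    rw [h.dn, h.dn] at this
    exact congrArg Prod.fst this
  have all : ∀ p : ℕ, (p = 0 ∨ p = N) → Pr K U D 0 p := by
    intro p hp
    left
    intro z _ _ hz
    rcases hp with rfl | rfl
    · exact absurd hz (Nat.not_lt_zero _)
    · exact ⟨Nat.zero_le _, (U z).2⟩
  have arc : ∀ (f : Fin N → Fin N), (∀ c, f (f c) = c) →
      (∀ x y, x < y → y < f x → x < f y ∧ f y < f x) → ∀ c ∉ K, f c ∉ K →
      ((c : ℕ) ≤ f c ∧ Pres K f c (f c)) ∨ ((f c : ℕ) ≤ c ∧ Pres K f (f c) c) := by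
    intro f ff hnc c hc hfc
    rcases le_total (c : ℕ) (f c : ℕ) with h1 | h1
    · left
      refine ⟨h1, ?_⟩
      intro z hz h2 h3
      have hzc : z ≠ c := fun hh => hc (hh ▸ hz)
      have h4 : c < z := Fin.lt_def.2 (lt_of_le_of_ne h2 (fun hh => hzc (Fin.ext hh.symm)))
      have := hnc c z h4 (Fin.lt_def.2 h3)
      exact ⟨(Fin.lt_def.1 this.1).le, Fin.lt_def.1 this.2⟩
    · right
      refine ⟨h1, ?_⟩
      intro z hz h2 h3
      have hzc : z ≠ f c := fun hh => hfc (hh ▸ hz)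
      have h4 : f c < z := Fin.lt_def.2 (lt_of_le_of_ne h2 (fun hh => hzc (Fin.ext hh.symm)))
      have := hnc (f c) z h4 (by rw [ff]; exact Fin.lt_def.2 h3)
      rw [ff] at this
      exact ⟨(Fin.lt_def.1 this.1).le, Fin.lt_def.1 this.2⟩
  refine ⟨fun c _ => h.up c, fun c _ => h.dn c, fun x _ y _ => h.ncU x y, fun x _ y _ => h.ncD x y,
    fun c _ => h.tU c, fun c _ => h.tD c, ?_, all _ h.root⟩
  rintro ⟨c, d⟩ hx
  cases d
  · -- W
    rcases Nat.eq_zero_or_pos (c : ℕ) with h0 | h0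
    · have hN : 0 < N := lt_of_le_of_lt (Nat.zero_le _) c.2
      have e := h.ends c ⟨N - 1, by omega⟩ h0 (by simp; omega)
      rw [e]
      refine Or.inr (Or.inr ⟨all _ (Or.inl h0), all _ (Or.inr ?_)⟩)
      show N - 1 + 1 = N
      omega
    · have e := h.row ⟨(c : ℕ) - 1, by omega⟩ c (by simp; omega)
      have e' : X.π (c, .W) = (⟨(c : ℕ) - 1, by omega⟩, .E) := by rw [← e, hinv]
      rw [e']
      refine Or.inl ⟨?_, Or.inl ?_⟩
      · show (c : ℕ) ≤ (c : ℕ) - 1 + 1
        omega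
      · intro z _ h1 h2
        have h1' : (c : ℕ) ≤ z := h1
        have h2' : (z : ℕ) < (c : ℕ) - 1 + 1 := h2
        omega
  · -- N
    rw [h.up c]
    have hc : c ∉ K := fun hh => hx (by rw [mem_VE]; exact ⟨hh, Or.inl rfl⟩)
    have hc' : U c ∉ K := by
      intro hh
      have := hK.mem (U c, .N) (by rw [mem_VE]; exact ⟨hh, Or.inl rfl⟩)
      rw [← h.up c, hinv, mem_VE] at this
      exact hc this.1
    rcases arc U UU h.ncU c hc hc' with h1 | h1
    · exact Or.inl ⟨h1.1, Or.inl h1.2⟩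
    · exact Or.inr (Or.inl ⟨h1.1, Or.inl h1.2⟩)
  · -- E
    rcases Nat.lt_or_ge ((c : ℕ) + 1) N with h0 | h0
    · have e := h.row c ⟨(c : ℕ) + 1, h0⟩ rfl
      rw [e]
      refine Or.inl ⟨le_refl _, Or.inl ?_⟩
      intro z _ h1 h2
      have h1' : (c : ℕ) + 1 ≤ z := h1
      have h2' : (z : ℕ) < (c : ℕ) + 1 := h2
      omega
    · have hN : 0 < N := lt_of_le_of_lt (Nat.zero_le _) c.2
      have hcN : (c : ℕ) + 1 = N := by have := c.2; omega
      have e := h.ends ⟨0, hN⟩ c rfl hcN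
      have e' : X.π (c, .E) = (⟨0, hN⟩, .W) := by rw [← e, hinv]
      rw [e']
      exact Or.inr (Or.inr ⟨all _ (Or.inr hcN), all _ (Or.inl rfl)⟩)
  · -- S
    rw [h.dn c]
    have hc : c ∉ K := fun hh => hx (by rw [mem_VE]; exact ⟨hh, Or.inr rfl⟩)
    have hc' : D c ∉ K := by
      intro hh
      have := hK.mem (D c, .S) (by rw [mem_VE]; exact ⟨hh, Or.inr rfl⟩)
      rw [← h.dn c, hinv, mem_VE] at this
      exact hc this.1
    rcases arc D DD h.ncD c hc hc' with h1 | h1
    · exact Or.inl ⟨h1.1, Or.inr h1.2⟩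
    · exact Or.inr (Or.inl ⟨h1.1, Or.inr h1.2⟩)

end Pool.Agent.Q1.M6b.Strand
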