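import Pool.Agent.Q1.M6b.Count
import Pool.Agent.Q1.M6b.StrandRow
import Pool.Agent.H81.G1.Loops

set_option autoImplicit false
open Finset

/-! Pointwise bound of the vertex sum (and of the state sum) of one row network with few special
columns: `‖V‖ ≤ 2 ^ Ne * M ^ |sp| * 2 ^ (4 |sp|) * 2 ^ m * ∏ k (1 + |Ex k|)`.

`sp` = special columns (arbitrary weights), all other columns are over-tiles; `Ne` = number of closed
strands without special column around the mark; `Ex k`, `k < m` = the possible exchange columns in the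
`k`-th interval between special columns; all other columns outside `sp` are feet of inner arcs or lie on
closed strands. -/

namespace Pool.Agent.Q1.M6b.PB

open Pool.Agent.H81.G1 Pool.Agent.Q1.M6b.ExN Pool.Agent.Q1.M6b.Strand

variable {N : ℕ} {X : Net (Fin N)} {a b : Fin N → ℂ} {sp : Finset (Fin N)}

open Classical in
/-- the columns on closed plain strands -/
noncomputable def Kn (X : Net (Fin N)) (sp : Finset (Fin N)) : Finset (Fin N) :=
  univ.filter (fun c => ¬ Anch X sp (c, .N))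

lemma mem_Kn {c : Fin N} : c ∈ Kn X sp ↔ ¬ Anch X sp (c, .N) := by
  unfold Kn; simp

/-- the ends on closed plain strands -/
lemma mem_VE_Kn (hA : ∀ z : Fin N, Anch X sp (z, .W) ∧ Anch X sp (z, .E)) (x : Fin N × Dir) :
    x ∈ VE (Kn X sp) ↔ ¬ Anch X sp x := by
  obtain ⟨c, d⟩ := x
  rw [mem_VE, mem_Kn]
  constructor
  · rintro ⟨h1, rfl | rfl⟩
    · exact h1
    · exact fun h => h1 (Anch.opp _ h)
  · intro h
    cases d
    · exact absurd (hA c).1 h
    · exact ⟨h, Or.inl rfl⟩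
    · exact absurd (hA c).2 h
    · exact ⟨fun h' => h (Anch.opp _ h'), Or.inr rfl⟩

lemma Kn_sp {c : Fin N} (h : c ∈ Kn X sp) : c ∉ sp := fun hs => mem_Kn.1 h (Anch.col _ hs)

lemma Kn_str (hA : ∀ z : Fin N, Anch X sp (z, .W) ∧ Anch X sp (z, .E)) : Str X (Kn X sp) where
  mem x hx := by
    rw [mem_VE_Kn hA] at hx ⊢
    exact fun h => hx (Anch.wire _ h)
  x0 := by
    rw [mem_VE_Kn hA, not_not]
    exact Anch.spc _ (Or.inl rfl)
  y0 := by
    rw [mem_VE_Kn hA, not_not]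
    exact Anch.spc _ (Or.inr (Or.inr (Or.inl rfl)))

lemma norm_zpow_zt (k : ℤ) : ‖zt ^ k‖ = 1 := by rw [norm_zpow, zt_norm, one_zpow]

lemma sq3_norm : ‖sq3‖ ≤ 2 := by
  unfold sq3
  calc ‖zt ^ 2 + (zt ^ 2)⁻¹‖ ≤ ‖zt ^ 2‖ + ‖(zt ^ 2)⁻¹‖ := norm_add_le _ _
    _ = 2 := by rw [norm_inv, norm_pow, zt_norm]; norm_num

lemma vert_norm (w n e s : ℤˣ) :
    ‖vert (zt ^ (4 : ℤ)) (zt ^ (-4 : ℤ)) w n e s‖ ≤ if s = n then 2 else 1 := by
  rw [ExN.vert_over]
  split_ifs with h1 h2 h3 h4 h5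
  · rw [norm_zpow_zt]; norm_num
  · rw [norm_zpow_zt]
  · exact sq3_norm
  · exfalso; exact h4 (h3.2.2.2.trans h3.2.2.1.symm)
  · rw [norm_zero]; norm_num
  · rw [norm_zero]; norm_num

/-- the norm of the reduced weight -/
lemma wtR_norm {M : ℝ} (hM : ∀ c ∈ sp, ∀ w n e s, ‖vert (a c) (b c) w n e s‖ ≤ M)
    (hov : ∀ c, c ∉ sp → a c = zt ^ (4 : ℤ) ∧ b c = zt ^ (-4 : ℤ)) {K : Finset (Fin N)}
    (hK : ∀ c ∈ K, c ∉ sp) (o : Fin N × Dir → ℤˣ) :
    ‖wtR X a b K o‖ ≤ M ^ sp.card * 2 ^ (univ.filter (fun c => c ∉ sp ∧ c ∉ K ∧ ex o c)).card := by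
  classical
  have h2 : ‖∏ x : Fin N × Dir, (if x ∈ VE K then (1 : ℂ) else if o x = 1 then zt ^ (-X.t x) else 1)‖
      = 1 := by
    rw [norm_prod]
    refine Finset.prod_eq_one fun x _ => ?_
    split_ifs
    · exact norm_one
    · exact norm_zpow_zt _
    · exact norm_one
  have h3 : ∏ c : Fin N, (if c ∈ sp then M else if c ∉ K ∧ ex o c then (2 : ℝ) else 1) =
      M ^ sp.card * 2 ^ (univ.filter (fun c => c ∉ sp ∧ c ∉ K ∧ ex o c)).card := by
    rw [Finset.prod_ite, Finset.prod_const, Finset.prod_ite, Finset.prod_const, Finset.prod_const_one,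
      mul_one, Finset.filter_filter]
    have e1 : univ.filter (fun c => c ∈ sp) = sp := by ext c; simp
    rw [e1]
  unfold wtR
  rw [norm_mul, h2, mul_one, norm_prod, ← h3]
  refine Finset.prod_le_prod (fun _ _ => norm_nonneg _) fun c _ => ?_
  by_cases hc : c ∈ sp
  · rw [if_pos hc, if_neg (fun h => hK c h hc)]
    exact hM c hc _ _ _ _
  · rw [if_neg hc]
    by_cases hk : c ∈ K
    · rw [if_pos hk, if_neg (fun h : c ∉ K ∧ ex o c => h.1 hk)]
      split_ifs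
      · rw [norm_one]
      · rw [norm_zero]; norm_num
    · rw [if_neg hk, (hov c hc).1, (hov c hc).2]
      refine (vert_norm _ _ _ _).trans ?_
      by_cases he : o (c, Dir.S) = o (c, Dir.N)
      · rw [if_pos he, if_pos (show c ∉ K ∧ ex o c from ⟨hk, he⟩)]
      · rw [if_neg he, if_neg (fun h : c ∉ K ∧ ex o c => he h.2)]

/-- the geometric hypotheses on a row network -/
structure RowData (X : Net (Fin N)) (sp : Finset (Fin N)) (a b : Fin N → ℂ)
    (L : Finset (Fin N × Fin N)) {m : ℕ} (Ex : Fin m → Finset (Fin N)) : Prop where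
  ov : ∀ c, c ∉ sp → a c = zt ^ (4 : ℤ) ∧ b c = zt ^ (-4 : ℤ)
  anc : ∀ z : Fin N, Anch X sp (z, .W) ∧ Anch X sp (z, .E)
  inn : ∀ p ∈ L, Inner X a b p.1 p.2
  cov : ∀ c, c ∉ sp → Anch X sp (c, .N) → (∃ p ∈ L, c = p.1 ∨ c = p.2) ∨ ∃ k, c ∈ Ex k
  gap : ∀ k, ∀ c ∈ Ex k, ∀ c' ∈ Ex k, c < c' → (∀ z, c ≤ z → z ≤ c' → z ∉ sp) ∧
    ∀ z z' : Fin N, c ≤ z → z' ≤ c' → (z' : ℕ) = z + 1 →
      X.π (z, .E) = (z', .W) ∧ ¬ Sp X (z, .E)

variable {L : Finset (Fin N × Fin N)} {m : ℕ} {Ex : Fin m → Finset (Fin N)}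

lemma RowData.one (h : RowData X sp a b L Ex) {o : Fin N × Dir → ℤˣ} (ho : Adm X sp o) (k : Fin m)
    {c c' : Fin N} (hc : c ∈ Ex k) (hc' : c' ∈ Ex k) (h1 : ex o c) (h2 : ex o c') : c = c' := by
  rcases lt_trichotomy c c' with h3 | h3 | h3
  · exact (one_ex ho h3 (h.gap k c hc c' hc' h3).1 (h.gap k c hc c' hc' h3).2 h1 h2).elim
  · exact h3
  · exact (one_ex ho h3 (h.gap k c' hc' c hc h3).1 (h.gap k c' hc' c hc h3).2 h2 h1).elim

/-- **Pointwise bound of the vertex sum of a row.** -/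
theorem V_bound (hinv : ∀ x, X.π (X.π x) = x) (hne : ∀ x, X.π x ≠ x)
    (htn : ∀ x, X.t (X.π x) = -X.t x) (h : RowData X sp a b L Ex) {U D : Fin N → Fin N}
    {θ : Fin N → ℤ} (hP : Planar X (Kn X sp) U D θ) {M : ℝ} (hM0 : 0 ≤ M)
    (hM : ∀ c ∈ sp, ∀ w n e s, ‖vert (a c) (b c) w n e s‖ ≤ M) :
    ‖X.V a b‖ ≤ 2 ^ Ne X (Kn X sp) * M ^ sp.card * 2 ^ (4 * sp.card) * 2 ^ m *
      ∏ k, (1 + ((Ex k).card : ℝ)) := by
  classical
  set K := Kn X sp with hKdef
  have hK : Str X K := Kn_str h.anc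
  have hKsp : ∀ c ∈ K, c ∉ sp := fun c hc => Kn_sp hc
  have hn := hP.ori hinv hne hK
  have hovK : ∀ c ∈ K, a c = zt ^ (4 : ℤ) ∧ b c = zt ^ (-4 : ℤ) := fun c hc => h.ov c (hKsp c hc)
  -- the configurations
  set A : Finset (Fin N × Dir → ℤˣ) := univ.filter (fun o =>
    X.Cons o ∧ (∀ p ∈ L, ¬ ex o p.1 ∧ ¬ ex o p.2) ∧ X.wt a b o ≠ 0) with hA
  have mA : ∀ o, o ∈ A ↔ X.Cons o ∧ (∀ p ∈ L, ¬ ex o p.1 ∧ ¬ ex o p.2) ∧ X.wt a b o ≠ 0 := by
    intro o; simp [hA]
  have eV : X.V a b = ∑ o ∈ A, X.wt a b o := by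
    rw [V_eq X a b hinv htn L h.inn, ← Finset.sum_filter_ne_zero, Finset.filter_filter]
    refine Finset.sum_congr ?_ fun _ _ => rfl
    ext o
    simp only [mem_filter, mem_univ, true_and, mA]
    tauto
  -- facts about a configuration of nonzero weight
  have plain : ∀ o, X.Cons o → X.wt a b o ≠ 0 → ∀ c, c ∉ sp →
      (o (c, .E) = -o (c, .W) ∧ o (c, .S) = -o (c, .N)) ∨
      (o (c, .W) = -1 ∧ o (c, .E) = -1 ∧ o (c, .N) = 1 ∧ o (c, .S) = 1) := by
    intro o _ hw c hc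
    have hv := vert_ne hw c
    rw [(h.ov c hc).1, (h.ov c hc).2] at hv
    rcases Strand.vert_over hv with h1 | h1
    · exact Or.inl h1
    · exact Or.inr ⟨h1.2.2.1, h1.2.2.2, h1.1, h1.2.1⟩
  have strK : ∀ o, X.Cons o → X.wt a b o ≠ 0 → ∀ c ∈ K, o (c, .E) = -o (c, .W) ∧
      o (c, .S) = -o (c, .N) := by
    intro o ho hw
    refine noflip hinv hne hK ho fun i hi => ?_
    have hv := vert_ne hw i
    rwa [(hovK i hi).1, (hovK i hi).2] at hv
  -- the representatives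
  set rep : (Fin N × Dir → ℤˣ) → Fin N × Dir → ℤˣ := fun o x => if x ∈ VE K then alt K x else o x
    with hrep
  have rep_in : ∀ o x, x ∈ VE K → rep o x = alt K x := fun o x hx => if_pos hx
  have rep_out : ∀ o x, x ∉ VE K → rep o x = o x := fun o x hx => if_neg hx
  have hrow : ∀ c : Fin N, (c, Dir.W) ∉ VE K ∧ (c, Dir.E) ∉ VE K := by
    intro c; constructor <;> (rw [mem_VE]; simp)
  have repAdm : ∀ o ∈ A, Adm X sp (rep o) := by
    intro o ho
    obtain ⟨hc, _, hw⟩ := (mA o).1 ho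
    refine ⟨?_, ?_⟩
    · have q0 : X.x0 ∉ VE K := hK.x0
      have q1 : X.π X.x0 ∉ VE K := hK.x1 hinv
      have q2 : X.y0 ∉ VE K := hK.y0
      have q3 : X.π X.y0 ∉ VE K := hK.y1 hinv
      refine ⟨?_, ?_, ?_, ?_, fun x h1 h2 h3 h4 => ?_⟩
      · rw [rep_out _ _ q0]; exact hc.1
      · rw [rep_out _ _ q1]; exact hc.2.1
      · rw [rep_out _ _ q2]; exact hc.2.2.1
      · rw [rep_out _ _ q3]; exact hc.2.2.2.1
      · by_cases hx : x ∈ VE K
        · rw [rep_in _ _ hx, rep_in _ _ (hK.mem x hx), hn.wire x hx]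
        · rw [rep_out _ _ hx, rep_out _ _ (by rwa [hK.mem_iff hinv]), hc.2.2.2.2 x h1 h2 h3 h4]
    · intro c hcs
      by_cases hcK : c ∈ K
      · left
        have vN : (c, Dir.N) ∈ VE K := by rw [mem_VE]; exact ⟨hcK, Or.inl rfl⟩
        have vS : (c, Dir.S) ∈ VE K := by rw [mem_VE]; exact ⟨hcK, Or.inr rfl⟩
        rw [rep_out _ _ (hrow c).1, rep_out _ _ (hrow c).2, rep_in _ _ vN, rep_in _ _ vS,
          hn.vert c hcK]
        exact ⟨(strK o hc hw c hcK).1, rfl⟩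
      · have vN : (c, Dir.N) ∉ VE K := by rw [mem_VE]; tauto
        have vS : (c, Dir.S) ∉ VE K := by rw [mem_VE]; tauto
        rw [rep_out _ _ (hrow c).1, rep_out _ _ (hrow c).2, rep_out _ _ vN, rep_out _ _ vS]
        exact plain o hc hw c hcs
  have repEx : ∀ o ∈ A, ∀ c, (ex (rep o) c ↔ (c ∉ K ∧ ex o c)) := by
    intro o ho c
    obtain ⟨hc, _, hw⟩ := (mA o).1 ho
    by_cases hcK : c ∈ K
    · have vN : (c, Dir.N) ∈ VE K := by rw [mem_VE]; exact ⟨hcK, Or.inl rfl⟩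
      have vS : (c, Dir.S) ∈ VE K := by rw [mem_VE]; exact ⟨hcK, Or.inr rfl⟩
      constructor
      · intro he
        unfold ex at he
        rw [rep_in _ _ vN, rep_in _ _ vS, hn.vert c hcK] at he
        exact absurd he.symm (ne_self_neg _)
      · exact fun he => absurd hcK he.1
    · have vN : (c, Dir.N) ∉ VE K := by rw [mem_VE]; tauto
      have vS : (c, Dir.S) ∉ VE K := by rw [mem_VE]; tauto
      unfold ex
      rw [rep_out _ _ vN, rep_out _ _ vS]
      exact ⟨fun he => ⟨hcK, he⟩, fun he => he.2⟩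
  set S := A.image rep with hS
  -- number of classes
  have inEx : ∀ o ∈ A, ∀ c, c ∉ sp → c ∉ K → ex o c → ∃ k, c ∈ Ex k := by
    intro o ho c hcs hcK he
    have hN : Anch X sp (c, .N) := by
      by_contra hh; exact hcK (mem_Kn.2 hh)
    rcases h.cov c hcs hN with ⟨p, hp, hp1 | hp1⟩ | hk
    · exact absurd (hp1 ▸ he) (((mA o).1 ho).2.1 p hp).1
    · exact absurd (hp1 ▸ he) (((mA o).1 ho).2.1 p hp).2
    · exact hk
  have hcard : S.card ≤ 2 ^ (4 * sp.card) * ∏ k, (1 + (Ex k).card) := by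
    refine card_le (X := X) (sp := sp) Ex (alt K) S ?_ ?_ ?_ ?_
    · intro o ho
      obtain ⟨o', ho', rfl⟩ := mem_image.1 ho
      exact repAdm o' ho'
    · intro o ho p hp
      obtain ⟨o', ho', rfl⟩ := mem_image.1 ho
      exact rep_in _ _ ((mem_VE_Kn h.anc p).2 hp)
    · intro o ho c hcs he
      obtain ⟨o', ho', rfl⟩ := mem_image.1 ho
      have h1 := (repEx o' ho' c).1 he
      exact inEx o' ho' c hcs h1.1 h1.2
    · intro o ho k c hc c' hc' h1 h2
      obtain ⟨o', ho', rfl⟩ := mem_image.1 ho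
      exact h.one (repAdm o' ho') k hc hc' h1 h2
  -- number of exchanges of a configuration
  have hexc : ∀ o ∈ A, (univ.filter (fun c => c ∉ sp ∧ c ∉ K ∧ ex o c)).card ≤ m := by
    intro o ho
    have hm : (Finset.univ : Finset (Fin m)).card = m := by simp
    rw [← hm]
    refine Finset.card_le_card_of_forall_subsingleton (fun c k => c ∈ Ex k) ?_ ?_
    · intro c hc
      have hc1 := (mem_filter.1 hc).2
      obtain ⟨k, hk⟩ := inEx o ho c hc1.1 hc1.2.1 hc1.2.2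
      exact ⟨k, mem_univ _, hk⟩
    · rintro k _ c ⟨hc, hck⟩ c' ⟨hc', hck'⟩
      have hc1 := (mem_filter.1 hc).2
      have hc2 := (mem_filter.1 hc').2
      exact h.one (repAdm o ho) k hck hck' ((repEx o ho c).2 hc1.2) ((repEx o ho c').2 hc2.2)
  -- the sum over a class
  have hclass : ∀ s ∈ S, ‖∑ o ∈ A with rep o = s, X.wt a b o‖ ≤
      2 ^ Ne X K * (M ^ sp.card * 2 ^ m) := by
    intro s hs
    obtain ⟨o₀, ho₀, rfl⟩ := mem_image.1 hs
    obtain ⟨hc₀, hL₀, hw₀⟩ := (mA o₀).1 ho₀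
    have e1 : ∑ o ∈ A with rep o = rep o₀, X.wt a b o = ∑ o : Fin N × Dir → ℤˣ,
        if X.Cons o ∧ ∀ x, x ∉ VE K → o x = o₀ x then X.wt a b o else 0 := by
      rw [← Finset.sum_filter, ← Finset.sum_filter_ne_zero (s := univ.filter _)]
      refine Finset.sum_congr ?_ fun _ _ => rfl
      ext o
      simp only [mem_filter, mem_univ, true_and, mA]
      constructor
      · rintro ⟨⟨h1, h2, h3⟩, h4⟩
        refine ⟨⟨h1, fun x hx => ?_⟩, h3⟩
        have := congrFun h4 x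
        rwa [rep_out _ _ hx, rep_out _ _ hx] at this
      · rintro ⟨⟨h1, h2⟩, h3⟩
        have hexo : ∀ c, ¬ ex o₀ c → ¬ ex o c := by
          intro c hne' he
          by_cases hcK : c ∈ K
          · have := (strK o h1 h3 c hcK).2
            unfold ex at he
            exact ne_self_neg _ (he.symm.trans this)
          · apply hne'
            unfold ex at he ⊢
            have vN : (c, Dir.N) ∉ VE K := by rw [mem_VE]; tauto
            have vS : (c, Dir.S) ∉ VE K := by rw [mem_VE]; tauto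
            rw [← h2 _ vN, ← h2 _ vS]
            exact he
        refine ⟨⟨h1, fun p hp => ⟨hexo _ (hL₀ p hp).1, hexo _ (hL₀ p hp).2⟩, h3⟩, ?_⟩
        funext x
        by_cases hx : x ∈ VE K
        · rw [rep_in _ _ hx, rep_in _ _ hx]
        · rw [rep_out _ _ hx, rep_out _ _ hx, h2 x hx]
    rw [e1]
    refine (hP.class_sum hinv hne htn hK hovK o₀).trans ?_
    refine mul_le_mul_of_nonneg_left ?_ (by positivity)
    refine (wtR_norm hM h.ov hKsp o₀).trans ?_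
    refine mul_le_mul_of_nonneg_left ?_ (by positivity)
    exact pow_le_pow_right₀ (by norm_num) (hexc o₀ ho₀)
  have hsum : ∑ o ∈ A, X.wt a b o = ∑ s ∈ S, ∑ o ∈ A with rep o = s, X.wt a b o :=
    (Finset.sum_fiberwise_of_maps_to (fun o ho => mem_image_of_mem rep ho) _).symm
  rw [eV, hsum]
  calc ‖∑ s ∈ S, ∑ o ∈ A with rep o = s, X.wt a b o‖
      ≤ ∑ s ∈ S, ‖∑ o ∈ A with rep o = s, X.wt a b o‖ := norm_sum_le _ _
    _ ≤ ∑ _s ∈ S, 2 ^ Ne X K * (M ^ sp.card * 2 ^ m) := Finset.sum_le_sum hclass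
    _ = (S.card : ℝ) * (2 ^ Ne X K * (M ^ sp.card * 2 ^ m)) := by rw [sum_const, nsmul_eq_mul]
    _ ≤ ((2 ^ (4 * sp.card) * ∏ k, (1 + (Ex k).card) : ℕ) : ℝ) *
        (2 ^ Ne X K * (M ^ sp.card * 2 ^ m)) := by
      refine mul_le_mul_of_nonneg_right ?_ (by positivity)
      exact_mod_cast hcard
    _ = _ := by push_cast; ring

/-- the vertex weights of a coupon `(1, -1)` -/
lemma coupon_norm (w n e s : ℤˣ) : ‖vert 1 (-1) w n e s‖ ≤ 2 := by
  unfold vert
  refine (norm_add_le _ _).trans ?_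
  have h1 : ∀ (P : Prop) [Decidable P] (c : ℂ) (k : ℤ), ‖c‖ = 1 →
      ‖(if P then c * zt ^ k else 0 : ℂ)‖ ≤ 1 := by
    intro P _ c k hc
    split_ifs
    · rw [norm_mul, hc, norm_zpow_zt, mul_one]
    · rw [norm_zero]; norm_num
  have h2 := h1 (n = -w ∧ s = -e) 1 ((e : ℤ) - (n : ℤ)) norm_one
  have h3 := h1 (s = -w ∧ n = -e) (-1) ((s : ℤ) - (e : ℤ)) (by rw [norm_neg, norm_one])
  linarith

/-- **The state sum of a row with coupons `(1, -1)` at the columns of `sp` and over-tiles elsewhere.** -/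
theorem Z_bound {p : Fin N → Bool} (hX : X.Good p) (hrow : X.IsRow) {T0 : ℤ}
    (h0 : ∀ s, X.KT s X.x0 (X.ln s X.x0) = T0) (h : RowData X sp a b L Ex) {U D : Fin N → Fin N}
    {θ : Fin N → ℤ} (hP : Planar X (Kn X sp) U D θ) (hcp : ∀ c ∈ sp, a c = 1 ∧ b c = -1) :
    ‖X.Z a b‖ ≤ 2 ^ Ne X (Kn X sp) * 2 ^ (5 * sp.card + m) * ∏ k, (1 + ((Ex k).card : ℝ)) := by
  have h1 := congrArg norm (vertex_eq' hX (row_connected hrow hX.inv) a b T0 h0)
  rw [norm_mul, norm_mul, norm_zpow_zt, norm_zpow_zt, one_mul, one_mul] at h1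
  rw [h1]
  refine (V_bound hX.inv hX.ne hX.t_neg h hP (M := 2) (by norm_num) ?_).trans (le_of_eq ?_)
  · intro c hc w n e s
    rw [(hcp c hc).1, (hcp c hc).2]
    exact coupon_norm w n e s
  · have e : (2 : ℝ) ^ (5 * sp.card + m) = 2 ^ sp.card * 2 ^ (4 * sp.card) * 2 ^ m := by
      rw [← pow_add, ← pow_add]
      congr 1
      ring
    rw [e]; ring

/-- the row ends are anchored if there is a special column -/
lemma anc_sp (hinv : ∀ x, X.π (X.π x) = x) (hrow : X.IsRow) (hs : sp.Nonempty) (z : Fin N) :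
    Anch X sp (z, .W) ∧ Anch X sp (z, .E) := by
  obtain ⟨c, hc⟩ := hs
  exact row_anch hinv hrow (Or.inl (Anch.col (c, .W) hc)) z

/-- the row ends are anchored if the root or the mark is a wire of the row -/
lemma anc_end (hinv : ∀ x, X.π (X.π x) = x) (hrow : X.IsRow) {x : Fin N × Dir} (hx : Sp X x)
    (hd : x.2 = .W ∨ x.2 = .E) (z : Fin N) : Anch X sp (z, .W) ∧ Anch X sp (z, .E) := by
  obtain ⟨c, d⟩ := x
  rcases hd with rfl | rfl
  · exact row_anch hinv hrow (Or.inl (Anch.spc _ hx)) z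
  · exact row_anch hinv hrow (Or.inr (Anch.spc _ hx)) z

/-- the bound for a track from leg to leg -/
theorem Z_bound_track {p : Fin N → Bool} (hX : X.Good p) {T0 : ℤ}
    (h0 : ∀ s, X.KT s X.x0 (X.ln s X.x0) = T0) (h : RowData X sp a b L Ex) {U D : Fin N → Fin N}
    {θ : Fin N → ℤ} (hT : Track X U D θ) (hcp : ∀ c ∈ sp, a c = 1 ∧ b c = -1) :
    ‖X.Z a b‖ ≤ 2 ^ Ne X (Kn X sp) * 2 ^ (5 * sp.card + m) * ∏ k, (1 + ((Ex k).card : ℝ)) :=
  Z_bound hX hT.row h0 h (hT.planar hX.inv (Kn_str h.anc)) hcp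

end Pool.Agent.Q1.M6b.PB
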