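import Mathlib
import Pool.Agent.H74.Win.Pot
import Pool.Agent.H30.Sp.Geo
import Pool.Agent.H46.Sp.Lev
import Pool.Agent.H95.R45.Stmt
import Pool.Agent.H40.R45.Wts

set_option autoImplicit false
open Finset

/-! # Chapters A and B for windows: statements

`InnW D d p` : the box of half side `d` around `p` is inside the window. `Lnk D d p q` : the bounding box
of `p`, `q` enlarged by `d` is inside the window. `Ch D d n p q` : a chain of `n + 1` links. `SzW` : size of the window (at most `n` rows where the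
boundary changes). `GoodW D r j` : the boundary does not change within `r` of the row. `LBW` : local a
priori bound of the potentials. `ABW` : chapters A and B. -/

namespace Pool.Agent.Q1.M6b.ABW

open Pool.Agent.Q1 Pool.Agent.H74.R45 Pool.Agent.H40.R45 Pool.Agent.H64.Q1
open Pool.Agent.H46.Sp (Win)
open Pool.Agent.H74.Win (FW PotL PotU SameW)
open Pool.Agent.H30.Sp (Few)

/-- the weight `c = wa (u - π / 2)` as a function of `t = exp (2 i u / 3)` -/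
noncomputable def cT (t : ℂ) : ℂ := aT (w6⁻¹ * t)

/-- the box of half side `d` around `p` is inside the window -/
def InnW (D : Win) (d : ℝ) (p : ℤ × ℤ) : Prop :=
  ∀ x y : ℤ, |(x : ℝ) - p.1| ≤ d → |(y : ℝ) - p.2| ≤ d → 0 ≤ y ∧ y < D.h ∧ D.a y ≤ x ∧ x < D.b y

/-- the bounding box of `p` and `q`, enlarged by `d`, is inside the window -/
def Lnk (D : Win) (d : ℝ) (p q : ℤ × ℤ) : Prop :=
  ∀ x y : ℤ, min (p.1 : ℝ) q.1 - d ≤ x → (x : ℝ) ≤ max (p.1 : ℝ) q.1 + d →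
    min (p.2 : ℝ) q.2 - d ≤ y → (y : ℝ) ≤ max (p.2 : ℝ) q.2 + d →
    0 ≤ y ∧ y < D.h ∧ D.a y ≤ x ∧ x < D.b y

/-- a chain of links from `p` to `q` -/
def Ch (D : Win) (d : ℝ) (n : ℕ) (p q : ℤ × ℤ) : Prop :=
  ∃ z : ℕ → ℤ × ℤ, z 0 = p ∧ z (n + 1) = q ∧ ∀ i ≤ n, Lnk D d (z i) (z (i + 1))

/-- the row `j` is good: the boundary does not change within `r` -/
def GoodW (D : Win) (r : ℝ) (j : ℤ) : Prop :=
  ∃ r' : ℤ, r ≤ r' ∧ Pool.Agent.H30.Sp.Flat D j r'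

/-- the size of a window and its outside -/
structure SzW (η : ℝ) (n R : ℕ) {D : Win} (O : Pool.Agent.H46.Sp.Out D) : Prop where
  few : ∃ F : Finset ℤ, F.card ≤ n ∧ Few D F
  h2 : (D.h : ℝ) ≤ R / η
  w2 : ((D.b D.yQ - D.a (D.yP - 1) : ℤ) : ℝ) ≤ R / η
  fat : ∃ L : ℤ, η * R ≤ L ∧ D.Fat L

/-- the potentials of the environments `0` (`top = false`) and `h` (`top = true`) -/
def PotT {D : Win} (O : Pool.Agent.H46.Sp.Out D) (top : Bool) (a b c : ℂ) (H : ℤ → ℤ → ℂ) : Prop :=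
  if top then PotU D (FW O a b c D.h) H else PotL D (FW O a b c 0) H

/-- shift of the heights -/
def shT (top : Bool) : ℤ := if top then 1 else 0

/-- **Local a priori bound of the potentials** for a class `S` of windows, at the weights
`aT (z R ^ (-2/3))`, `bT`, `cT`, `‖z‖ ≤ Z` -/
def LBW (S : ℕ → Set (Σ D : Win, Pool.Agent.H46.Sp.Out D)) (η : ℝ) : Prop :=
  ∀ Z : ℝ, ∃ M : ℝ, ∃ R0 : ℕ, ∀ R : ℕ, R0 ≤ R → ∀ v ∈ S R, ∀ top : Bool, ∀ z : ℂ, ‖z‖ ≤ Z →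
    ∀ H : ℤ → ℤ → ℂ, PotT v.2 top (aT (z * (((R : ℝ) ^ (-(2 / 3) : ℝ) : ℝ) : ℂ)))
      (bT (z * (((R : ℝ) ^ (-(2 / 3) : ℝ) : ℝ) : ℂ))) (cT (z * (((R : ℝ) ^ (-(2 / 3) : ℝ) : ℝ) : ℂ))) H →
    ∀ p q : ℤ × ℤ, Lnk v.1 (η * R) p q →
      ‖H p.1 (p.2 - shT top) - H q.1 (q.2 - shT top)‖ ≤
        M * (max 1 (|(p.1 : ℝ) - q.1| + |(p.2 : ℝ) - q.2|)) ^ (2 / 3 : ℝ)

/-- the increments of the environments of the rows do not depend on the row -/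
def SameC (S : ℕ → Set (Σ D : Win, Pool.Agent.H46.Sp.Out D)) : Prop :=
  ∀ R v, v ∈ S R → ∀ u : ℂ, 1 ≤ u.im →
    SameW v.2 (wa u) (wa (u + Real.pi / 2)) (wa (u - Real.pi / 2))

/-- the normalised increment in the row `p.2` at the column `p.1`, as a function of `z` -/
noncomputable def V1 {D : Win} (O : Pool.Agent.H46.Sp.Out D) (R : ℝ) (p : ℤ × ℤ) (z : ℂ) : ℂ :=
  ((R ^ (-(2 / 3) : ℝ) : ℝ) : ℂ) * (rT (z * ((R ^ (-(2 / 3) : ℝ) : ℝ) : ℂ)) *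
    (sg (p.1 + p.2) * FW O (aT (z * ((R ^ (-(2 / 3) : ℝ) : ℝ) : ℂ)))
      (bT (z * ((R ^ (-(2 / 3) : ℝ) : ℝ) : ℂ))) (cT (z * ((R ^ (-(2 / 3) : ℝ) : ℝ) : ℂ))) p.2
        (ve (p.1, p.2 - 1))))

/-- **The Taylor coefficients of the increments in the good rows tend to zero.** -/
def TayW : Prop :=
  ∀ η : ℝ, 0 < η → ∀ n : ℕ, ∀ η' : ℝ, 0 < η' → ∀ m : ℕ, ∀ ε : ℝ, 0 < ε → ∃ R0 : ℕ, ∀ R : ℕ,
    R0 ≤ R → ∀ (D : Win) (O : Pool.Agent.H46.Sp.Out D), SzW η n R O → ∀ p : ℤ × ℤ,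
    InnW D (η * R) p → GoodW D (η' * R) p.2 → ‖iteratedDeriv m (V1 O (R : ℝ) p) 0‖ ≤ ε

/-- **Chapters A and B for a class of windows, good rows.** -/
def ABG (S : ℕ → Set (Σ D : Win, Pool.Agent.H46.Sp.Out D)) (η : ℝ) : Prop :=
  ∀ (n : ℕ) (η' : ℝ), 0 < η' → ∀ ρ : ℝ, 0 < ρ → ∀ ε : ℝ, 0 < ε → ∃ R0 : ℕ, ∀ R : ℕ, R0 ≤ R →
    ∀ v ∈ S R, ∀ u : ℂ, |u.im - Real.log ⌊ρ * R⌋₊| ≤ 1 → ∀ Hl Hu : ℤ → ℤ → ℂ,
    PotT v.2 false (wa u) (wa (u + Real.pi / 2)) (wa (u - Real.pi / 2)) Hl →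
    PotT v.2 true (wa u) (wa (u + Real.pi / 2)) (wa (u - Real.pi / 2)) Hu →
    ∀ p q : ℤ × ℤ, GoodW v.1 (η' * R) p.2 → GoodW v.1 (η' * R) q.2 → Ch v.1 (η * R) n p q →
      ‖(Hl p.1 p.2 - Hu p.1 (p.2 - 1)) - (Hl q.1 q.2 - Hu q.1 (q.2 - 1))‖ ≤
        ε * (R : ℝ) ^ (2 / 3 : ℝ)

end Pool.Agent.Q1.M6b.ABW
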