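import Mathlib
import Pool.Agent.Q1.M6b.ABWdef

set_option autoImplicit false
open Finset Metric

/-! # The weights of the windows as functions of `t = exp (2 i u / 3)` -/

namespace Pool.Agent.Q1.M6b.ABW

open Pool.Agent.Q1 Pool.Agent.H74.R45 Pool.Agent.H40.R45 Pool.Agent.H64.Q1

/-- `1 - w (1 - w)` for `w = a` -/
noncomputable def laT (t : ℂ) : ℂ := 1 - aT t * (1 - aT t)

lemma w6i_mem {t : ℂ} (ht : t ∈ ball (0 : ℂ) (1 / 2)) : w6⁻¹ * t ∈ ball (0 : ℂ) (1 / 2) := by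
  rw [mem_ball_zero_iff] at ht ⊢
  rwa [norm_mul, norm_w6_inv, one_mul]

theorem cT_diff : DifferentiableOn ℂ cT (ball 0 (1 / 2)) :=
  aT_diff.comp (differentiable_id.const_mul _).differentiableOn fun _ ht => w6i_mem ht

theorem norm_cT {t : ℂ} (ht : t ∈ ball (0 : ℂ) (1 / 2)) : ‖cT t‖ ≤ 4 :=
  (norm_aT (w6i_mem ht)).trans (by norm_num)

lemma laT_eq (t : ℂ) : laT t = lamT (w6⁻¹ * t) := by
  unfold laT lamT bT
  rw [← mul_assoc, mul_inv_cancel₀ w6_ne, one_mul]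

theorem laT_diff : DifferentiableOn ℂ laT (ball 0 (1 / 2)) :=
  (aT_diff.fun_mul (aT_diff.const_sub 1)).const_sub 1

theorem norm_laT {t : ℂ} (ht : t ∈ ball (0 : ℂ) (1 / 2)) : ‖laT t‖ ≤ 16 * ‖t‖ := by
  rw [laT_eq]
  have := norm_lamT (w6i_mem ht)
  rwa [norm_mul, norm_w6_inv, one_mul] at this

/-- `1 - w (1 - w)` for `w = c` -/
noncomputable def lcT (t : ℂ) : ℂ := 1 - cT t * (1 - cT t)

theorem lcT_diff : DifferentiableOn ℂ lcT (ball 0 (1 / 2)) :=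
  (cT_diff.fun_mul (cT_diff.const_sub 1)).const_sub 1

theorem norm_lcT {t : ℂ} (ht : t ∈ ball (0 : ℂ) (1 / 2)) : ‖lcT t‖ ≤ 16 * ‖t‖ := by
  have h1 : lcT t = laT (w6⁻¹ * t) := rfl
  rw [h1]
  have := norm_laT (w6i_mem ht)
  rwa [norm_mul, norm_w6_inv, one_mul] at this

/-- the weight `c` -/
theorem wa_cT (u : ℂ) (h : Complex.sin ((u - Real.pi / 2 + Real.pi) / 3) ≠ 0) :
    wa (u - Real.pi / 2) = cT (Complex.exp (2 * Complex.I * u / 3)) := by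
  rw [(wa_eq _ h).2, cT]
  congr 1
  rw [Pool.Agent.H74.R45.w6_exp, ← Complex.exp_neg, ← Complex.exp_add]
  congr 1
  push_cast
  ring

end Pool.Agent.Q1.M6b.ABW
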