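import Mathlib
import Pool.Agent.Q1.M6b.Amp

set_option autoImplicit false
open Finset

/-! # The final form of `(G1)` for a straight row: powers of the size -/

namespace Pool.Agent.Q1.M6b.Gd

open Pool.Agent.H75.Perc Pool.Agent.H99.NC Pool.Agent.H81.NC Pool.Agent.Q1 Pool.Agent.Q1.M6c

/-- arithmetic of the final bound -/
lemma final_arith {m : ℕ} {c1 c2 A Cf Cg F G n R : ℝ} (hc1 : 0 ≤ c1) (hc2 : 0 ≤ c2) (hA : 0 ≤ A)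
    (hCf : 0 ≤ Cf) (hF0 : 0 ≤ F) (hG0 : 0 ≤ G) (hn : 0 ≤ n) (hR : 1 ≤ R) (hnA : n ≤ A * R)
    (hF : F ≤ Cf * R ^ (25 / 32 : ℝ)) (hG : G ≤ Cg * R ^ (1 / 160 : ℝ)) :
    (m + 1) * (c1 ^ m * (F ^ (1 / 2 : ℝ) * G) * (c2 * cr n ^ 2) ^ m) ≤
      ((m + 1) * (c1 ^ m * (Cf ^ (1 / 2 : ℝ) * Cg) * (c2 * cr A ^ 2) ^ m)) *
        R ^ ((2 / 3 : ℝ) * m + 2 / 5) := by
  have hR0 : 0 < R := by linarith
  have e1 : F ^ (1 / 2 : ℝ) ≤ Cf ^ (1 / 2 : ℝ) * R ^ (25 / 64 : ℝ) := by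
    refine (Real.rpow_le_rpow hF0 hF (by norm_num)).trans (le_of_eq ?_)
    rw [Real.mul_rpow hCf (by positivity), ← Real.rpow_mul hR0.le]
    norm_num
  have e2 : F ^ (1 / 2 : ℝ) * G ≤ (Cf ^ (1 / 2 : ℝ) * Cg) * R ^ (2 / 5 : ℝ) := by
    have hCfp : 0 ≤ Cf ^ (1 / 2 : ℝ) := Real.rpow_nonneg hCf _
    have hCg' : 0 ≤ Cg := by
      by_contra h
      have h1 : Cg * R ^ (1 / 160 : ℝ) < 0 := mul_neg_of_neg_of_pos (not_le.1 h) (Real.rpow_pos_of_pos hR0 _)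
      linarith
    calc F ^ (1 / 2 : ℝ) * G
        ≤ (Cf ^ (1 / 2 : ℝ) * R ^ (25 / 64 : ℝ)) * (Cg * R ^ (1 / 160 : ℝ)) :=
          mul_le_mul e1 hG hG0 (by positivity)
      _ = (Cf ^ (1 / 2 : ℝ) * Cg) * (R ^ (25 / 64 : ℝ) * R ^ (1 / 160 : ℝ)) := by ring
      _ = (Cf ^ (1 / 2 : ℝ) * Cg) * R ^ (25 / 64 + 1 / 160 : ℝ) := by rw [Real.rpow_add hR0]
      _ ≤ _ := mul_le_mul_of_nonneg_left
          (Real.rpow_le_rpow_of_exponent_le hR (by norm_num)) (mul_nonneg hCfp hCg')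
  have e3 : cr n ^ 2 ≤ cr A ^ 2 * R ^ (2 / 3 : ℝ) := by
    have h1 : cr n ≤ cr A * cr R := by
      rw [← cr_mul hA hR0.le]; exact cr_mono hn hnA
    calc cr n ^ 2 ≤ (cr A * cr R) ^ 2 := pow_le_pow_left₀ (cr_nonneg hn) h1 2
      _ = cr A ^ 2 * cr R ^ 2 := mul_pow _ _ _
      _ = _ := by
        congr 1
        unfold cr
        rw [← Real.rpow_natCast, ← Real.rpow_mul hR0.le]
        norm_num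
  have hn2 : 0 ≤ cr n ^ 2 := sq_nonneg _
  have e4 : (c2 * cr n ^ 2) ^ m ≤ (c2 * cr A ^ 2) ^ m * R ^ ((2 / 3 : ℝ) * m) := by
    calc (c2 * cr n ^ 2) ^ m ≤ (c2 * (cr A ^ 2 * R ^ (2 / 3 : ℝ))) ^ m :=
          pow_le_pow_left₀ (mul_nonneg hc2 hn2) (mul_le_mul_of_nonneg_left e3 hc2) m
      _ = (c2 * cr A ^ 2) ^ m * (R ^ (2 / 3 : ℝ)) ^ m := by rw [← mul_assoc, mul_pow]
      _ = _ := by rw [← Real.rpow_natCast (R ^ (2 / 3 : ℝ)) m, ← Real.rpow_mul hR0.le]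
  have hFG0 : 0 ≤ F ^ (1 / 2 : ℝ) * G := mul_nonneg (Real.rpow_nonneg hF0 _) hG0
  have hm : (0 : ℝ) ≤ m + 1 := by positivity
  calc (m + 1) * (c1 ^ m * (F ^ (1 / 2 : ℝ) * G) * (c2 * cr n ^ 2) ^ m)
      ≤ (m + 1) * (c1 ^ m * ((Cf ^ (1 / 2 : ℝ) * Cg) * R ^ (2 / 5 : ℝ)) *
          ((c2 * cr A ^ 2) ^ m * R ^ ((2 / 3 : ℝ) * m))) := by
        refine mul_le_mul_of_nonneg_left ?_ hm
        refine mul_le_mul (mul_le_mul_of_nonneg_left e2 (pow_nonneg hc1 m)) e4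
          (pow_nonneg (mul_nonneg hc2 hn2) m) ?_
        exact mul_nonneg (pow_nonneg hc1 m) (hFG0.trans e2)
    _ = ((m + 1) * (c1 ^ m * (Cf ^ (1 / 2 : ℝ) * Cg) * (c2 * cr A ^ 2) ^ m)) *
          (R ^ ((2 / 3 : ℝ) * m) * R ^ (2 / 5 : ℝ)) := by ring
    _ = _ := by rw [← Real.rpow_add hR0]

/-- **`(G1)` for a straight row, final form.** -/
theorem g1_final (hAP : AP M6c.PlaneK) : ∃ b : ℤ, 6 ≤ b ∧ ∃ C : ℝ, 1 ≤ C ∧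
    ∀ (m : ℕ) (K K0 : ℤ) (A Cf Cg : ℝ), 0 ≤ A → 0 ≤ Cf → 1 ≤ K0 →
    K0 * (2 * b + 2) + 8 * b + 32 ≤ K → ∃ D : ℝ, ∀ (E : Finset (ℤ × ℤ)) (up : Bool) (s j0 : ℤ)
    (N₁ N₂ N : ℕ) (R : ℝ), RowGeo E (fun j => sm up s (j0 + j)) K0 N₁ N₂ → N₁ ≤ N → N₂ ≤ N →
    1 ≤ R → ((N + 1 : ℕ) : ℝ) ≤ A * R →
    ∀ f g : Finset (ℤ × ℤ) → ℝ, (∀ ω, ω ⊆ E → 0 ≤ f ω) → (∀ ω, ω ⊆ E → 0 ≤ g ω) →
    Ex (cp (1 / 2)) E (fun ω => f ω ^ 2) ≤ Cf * R ^ (25 / 32 : ℝ) →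
    (Ex (cp (1 / 2)) E (fun ω => g ω ^ 10)) ^ (1 / 10 : ℝ) ≤ Cg * R ^ (1 / 160 : ℝ) →
    ∀ Amp : Finset ℤ → Finset (ℤ × ℤ) → ℂ,
    (∀ S : ℕ, ∀ p ∈ antidiagonal m, ∀ k₁ ∈ cells b K S p.1 N₁, ∀ k₂ ∈ cells b K S p.2 N₂,
      ∀ L ∈ Lev (lv2 k₁ k₂), ∀ y ∈ Num b (lv2 k₁ k₂) (nu2 k₁ k₂) L, ∀ ω, ω ⊆ E →
      Stops b (lv2 k₁ k₂) (fun i => badB b (zz (fun j => sm up s (j0 + j)) i) E) L y ω →
      ∃ A h, AmpData b (zz (fun j => sm up s (j0 + j))) L y ω (fun x ω => Amp (cols2 x) ω) A h ∧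
        ‖A‖ * C ^ m ≤ f ω * g ω) →
    ‖∑ s ∈ powersetCard m (Finset.Ico (-(N₁ : ℤ)) N₂), Ec (fun _ => (1 / 2 : ℂ)) E (Amp s)‖ ≤
      D * R ^ ((2 / 3 : ℝ) * m + 2 / 5) := by
  obtain ⟨b, hb, C, hC, h⟩ := g1_row hAP
  refine ⟨b, hb, C, hC, ?_⟩
  intro m K K0 A Cf Cg hA hCf hK0 hK
  refine ⟨(m + 1) * ((3 * cr b) ^ m * (Cf ^ (1 / 2 : ℝ) * Cg) * (Cc b K * cr A ^ 2) ^ m), ?_⟩
  intro E up s j0 N₁ N₂ N R hgeo h₁ h₂ hR hNA f g hf hg hf2 hg10 Amp hdata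
  have hKK : 0 ≤ K0 * (2 * b + 2) := mul_nonneg (by omega) (by omega)
  refine (h m K K0 E up s j0 N₁ N₂ N hK0 hK hgeo h₁ h₂ f g hf hg Amp hdata).trans ?_
  have hq : Pb (cp (1 / 2)) := cp_Pb (by norm_num) (by norm_num)
  have hbp : (0 : ℝ) ≤ 3 * cr b := mul_nonneg (by norm_num)
    (cr_nonneg (by exact_mod_cast (by omega : (0 : ℤ) ≤ b)))
  have h1 : 0 ≤ Ex (cp (1 / 2)) E (fun ω => f ω ^ 2) := Ex_nonneg hq fun ω _ => sq_nonneg _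
  have h2 : 0 ≤ (Ex (cp (1 / 2)) E (fun ω => g ω ^ 10)) ^ (1 / 10 : ℝ) :=
    Real.rpow_nonneg (Ex_nonneg hq fun ω hω => pow_nonneg (hg ω hω) _) _
  exact final_arith hbp (Cc_nonneg (by omega) (by omega)) hA hCf h1 h2 (by positivity) hR hNA
    hf2 hg10

end Pool.Agent.Q1.M6b.Gd
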