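import Mathlib
import Pool.Agent.Q1.M6b.Wall2
import Pool.Agent.Q1.M6b.Asm2
import Pool.Agent.H30.Mid.MidXT
import Pool.Agent.H46.G1.WTie

set_option autoImplicit false
open Finset

/-! # The coefficients of the expansion in coupons and ties (R45): bound from the frozen bound -/

namespace Pool.Agent.Q1.M6b.Gd

open Pool.Agent.H75.Perc hiding AR VV
open Pool.Agent.H75.TwoArm hiding EF
open Pool.Agent.H99.NC
open Pool.Agent.Q1 Pool.Agent.H81.G1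
open Pool.Agent.H30.Mid Pool.Agent.H46.G1 Pool.Agent.H13.R45 Pool.Agent.H74.R45
open Pool.Agent.H33.Q1
open Pool.Agent.Q1.M6b.Gl

/-- **The sum over the ties**, general weights. -/
theorem ties_sum' {ι : Type*} [DecidableEq ι] {Bk : Finset (ℤ × ℤ)} {Wt : Finset ι} {l : ℕ}
    {B : Finset ι → ι → Finset (ℤ × ℤ)}
    {P1 : Finset ι → ι → Finset (ℤ × ℤ) → Prop}
    {G : Finset ι → Finset (ℤ × ℤ) → ℂ} {M : ℝ} {ρ : Finset ι → ι → ℝ}
    (hM0 : 0 ≤ M)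
    (hB : ∀ v ∈ powersetCard l Wt, ∀ x ∈ v, B v x ⊆ Bk)
    (hd : ∀ v ∈ powersetCard l Wt, ∀ x ∈ v, ∀ y ∈ v, x ≠ y → Disjoint (B v x) (B v y))
    (hP : ∀ v ∈ powersetCard l Wt, ∀ x ∈ v,
      PrP (fun _ => (1 / 2 : ℝ)) (B v x) (P1 v x) ≤ ρ v x)
    (h0 : ∀ v ∈ powersetCard l Wt, ∀ x ∈ v, ∀ T, T ⊆ v → x ∉ T → ∀ ω, ω ⊆ Bk →
      ¬ P1 v x (ω ∩ B v x) → G T ω = G (insert x T) ω)
    (h1 : ∀ v ∈ powersetCard l Wt, ∀ ξ, ξ ⊆ v.biUnion (B v) → (∀ x ∈ v, P1 v x (ξ ∩ B v x)) →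
      ∀ T, T ⊆ v → ‖Ec (fun _ => (1 / 2 : ℂ)) (Bk \ v.biUnion (B v)) (fun ω => G T (ξ ∪ ω))‖ ≤ M) :
    ‖∑ v ∈ powersetCard l Wt, alt v (fun T => Ec (fun _ => (1 / 2 : ℂ)) Bk (G T))‖ ≤
      2 ^ l * M * ∑ v ∈ powersetCard l Wt, ∏ x ∈ v, ρ v x := by
  refine (norm_sum_le _ _).trans ?_
  rw [mul_sum]
  refine sum_le_sum fun v hv => ?_
  have hcard := (mem_powersetCard.1 hv).2
  have h2 := wall_bound (B := B v) (P1 := P1 v) (G := G) (M := M) (hB v hv) (hd v hv)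
    (h0 v hv) (h1 v hv)
  refine h2.trans ?_
  have h3 : ∏ x ∈ v, PrP (fun _ => (1 / 2 : ℝ)) (B v x) (P1 v x) ≤ ∏ x ∈ v, ρ v x := by
    refine prod_le_prod (fun x _ => ?_) fun x hx => hP v hv x hx
    exact PrP_nonneg (Pb.const (by norm_num) (by norm_num)) _ _
  calc (∏ x ∈ v, PrP (fun _ => (1 / 2 : ℝ)) (B v x) (P1 v x)) * (2 ^ v.card * M)
      ≤ (∏ x ∈ v, ρ v x) * (2 ^ v.card * M) :=
        mul_le_mul_of_nonneg_right h3 (by positivity)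
    _ = _ := by rw [hcard]; ring

variable {N : ℕ}

lemma osn_subR {x0 y0 : ℤ} (s : Fin N → Bool) : osn (rl x0 y0) (rp x0 y0) s ⊆ RS N x0 y0 := by
  unfold osn RS
  exact image_subset_image (filter_subset _ _)

/-- amplitudes after freezing -/
lemma AR_freeze {X : Env} {x0 y0 : ℤ} (y : Fin N × Dir) (a b : Fin N → ℂ)
    {E' t ω : Finset (ℤ × ℤ)} (hrow : HasRow X N x0 y0) (hE' : RS N x0 y0 ⊆ E')
    (hω : ω ⊆ (X.E ∩ E') \ RS N x0 y0) :
    AR (X.freeze E' t) x0 y0 y a b ω = AR X x0 y0 y a b (ω ∪ (t ∩ (X.E \ E'))) := by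
  unfold AR
  refine sum_congr rfl fun s _ => ?_
  congr 1
  have hs := osn_subR (x0 := x0) (y0 := y0) s
  rw [Env.freeze_incO (by
      rw [Env.freeze_E]
      exact subset_inter (subset_inter (hs.trans hrow) (hs.trans hE')) hs),
    Env.freeze_incO (by
      rw [Env.freeze_E]
      intro e he
      rcases mem_union.1 he with h | h
      · exact mem_inter.2 ⟨hrow (hs h), hE' (hs h)⟩
      · exact (mem_sdiff.1 (mem_inter.1 h).2).1),
    Env.freeze_incO (subset_inter (hs.trans hrow) hs)]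
  congr 1
  rw [Env.freeze_E]
  have e1 : ω ∩ ((X.E ∩ E') \ RS N x0 y0) = ω := inter_eq_left.2 hω
  have e2 : (ω ∪ t ∩ (X.E \ E')) ∩ (X.E \ RS N x0 y0) = ω ∪ t ∩ (X.E \ E') := by
    refine inter_eq_left.2 (union_subset ?_ ?_)
    · intro e he
      have h1 := mem_sdiff.1 (hω he)
      exact mem_sdiff.2 ⟨(mem_inter.1 h1.1).1, h1.2⟩
    · intro e he
      have h1 := mem_sdiff.1 (mem_inter.1 he).2
      exact mem_sdiff.2 ⟨h1.1, fun h => h1.2 (hE' h)⟩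
  rw [e1, e2, union_assoc]

/-! ### The coefficients -/

variable {w h j : ℤ}

/-- coefficient of `κ ^ m λ ^ l`, corner tiles in the state `σ` -/
noncomputable def HH (O : Out w h) (h0 : 0 ≤ j) (h1 : j ≤ h) (j2 : j % 2 = 0) {N : ℕ}
    (y : Fin N × Dir) (m l : ℕ) (σ : Finset (ℤ × ℤ)) : ℂ :=
  ∑ v ∈ powersetCard l (Ti w h j), alt v (fun T => Ec (fun _ => (1 / 2 : ℂ))
    (BL w j ∅ ∪ BU w h j ∅) (fun ω => ∑ S ∈ powersetCard m (univ : Finset (Fin N)),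
      AR (XT O j h0 h1 j2) 0 (j - 1) y (cA S (zt ^ (4 : ℤ))) (cB S (zt ^ (-4 : ℤ))) (ω ∪ T ∪ σ)))

lemma bulk_eq : (BL w j ∅ ∪ BU w h j ∅ : Finset (ℤ × ℤ)) =
    RT 0 w j h ∪ RT 0 w (-1) (j - 1) := by
  unfold BL BU
  rw [sdiff_empty, sdiff_empty, union_comm]

lemma BLBU_sdiff (B : Finset (ℤ × ℤ)) : (BL w j ∅ ∪ BU w h j ∅ : Finset (ℤ × ℤ)) \ B =
    BL w j B ∪ BU w h j B := by
  unfold BL BU
  rw [sdiff_empty, sdiff_empty, union_sdiff_distrib]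

/-- **The frozen sum over the coupons.** -/
lemma frozen_sum (O : Out w h) (h0 : 0 ≤ j) (h1 : j ≤ h) (j2 : j % 2 = 0) (hN : (N : ℤ) = w)
    (g0 : 0 < j) (g1 : j < h) (y : Fin N × Dir) (a b : ℂ) (m : ℕ) (k : ℤ) {B t : Finset (ℤ × ℤ)}
    (ht : t ⊆ ET w h j \ EF N w h j B) :
    Ec (fun _ => (1 / 2 : ℂ)) (BL w j B ∪ BU w h j B)
      (fun ω => ∑ S ∈ powersetCard m (univ : Finset (Fin N)),
        AR (XT O j h0 h1 j2) 0 (j - 1) y (cA S a) (cB S b) (ω ∪ t)) =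
      ∑ s ∈ powersetCard m (Finset.Ico (-k) ((N : ℤ) - k)), Ec (fun _ => (1 / 2 : ℂ))
        (gE (BL w j B) (BU w h j B) (1, -1))
        (Amp (XF O h0 h1 j2 N B t) 0 (j - 1) y a b (BL w j B) (BU w h j B) k s) := by
  have hX : HasRow (XT O j h0 h1 j2) N 0 (j - 1) := by
    unfold HasRow
    rw [XT_E]
    refine Subset.trans ?_ (EF_sub (B := ∅) O h0 h1 j2 hN g0 g1)
    unfold EF
    exact subset_union_right
  have hR : RS N 0 (j - 1) ⊆ EF N w h j B := by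
    unfold EF
    exact subset_union_right
  have hE : ((XT O j h0 h1 j2).E ∩ EF N w h j B) \ RS N 0 (j - 1) = BL w j B ∪ BU w h j B := by
    have := XF_sdiff (B := B) (t := t) O h0 h1 j2 hN g0 g1
    unfold XF at this
    rw [Env.freeze_E] at this
    exact this
  rw [← coupon_sum _ 0 (j - 1) y a b disj_LU disj_LU' k m, Ec_sum']
  refine sum_congr rfl fun S _ => Ec_congr fun ω hω => ?_
  unfold XF
  rw [AR_freeze y _ _ hX hR (by rw [hE]; exact hω)]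
  congr 2
  rw [XT_E]
  exact (inter_eq_left.2 ht).symm

/-- the amplitudes do not see a tie with a small wall cluster -/
lemma AR_toggle (O : Out w h) (h0 : 0 ≤ j) (h1 : j ≤ h) (j2 : j % 2 = 0) (hN : (N : ℤ) = w)
    (g0 : 0 < j) (g1 : j < h) (y : Fin N × Dir) (a b : Fin N → ℂ) {K : ℤ}
    {v T σ ω : Finset (ℤ × ℤ)} {e : ℤ × ℤ} (hv : v ⊆ Ti w h j) (hK : 4 ≤ K) (hKw : h ≤ K * w)
    (he : e ∈ v) (hT : T ⊆ v) (heT : e ∉ T) (hω : ω ⊆ BL w j ∅ ∪ BU w h j ∅)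
    (hσ : σ ⊆ ET w h j) (hσ' : ∀ e ∈ σ, e ∉ Ti w h j ∧ e ∉ BL w j ∅ ∪ BU w h j ∅)
    (hQ : ¬ H46.G1.Qt K h j v e (ω ∩ Bt K h j v e))
    (hm0 : j - 1 ≤ (vx (rcr 0 (j - 1) y)).2 - (vx (rcr 0 (j - 1) y)).1)
    (hm1 : (vx (rcr 0 (j - 1) y)).2 - (vx (rcr 0 (j - 1) y)).1 ≤ j) :
    AR (XT O j h0 h1 j2) 0 (j - 1) y a b (ω ∪ T ∪ σ) =
      AR (XT O j h0 h1 j2) 0 (j - 1) y a b (ω ∪ insert e T ∪ σ) := by
  have hw := O.hw
  have w2 := O.w2
  have h2 := O.h2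
  have hX : RS N 0 (j - 1) ⊆ (XT O j h0 h1 j2).E := by
    rw [XT_E]
    refine Subset.trans ?_ (EF_sub (B := ∅) O h0 h1 j2 hN g0 g1)
    unfold EF
    exact subset_union_right
  have hbulk : (BL w j ∅ ∪ BU w h j ∅ : Finset (ℤ × ℤ)) ⊆ ET w h j := by
    refine Subset.trans ?_ (EF_sub (B := ∅) O h0 h1 j2 hN g0 g1)
    unfold EF
    exact subset_union_left
  have hTi : Ti w h j ⊆ ET w h j := by
    unfold Ti
    exact union_subset (TiL_sub O h0 h1 j2) (TiR_sub O h0 h1 j2)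
  have hTib : ∀ e ∈ Ti w h j, e ∉ (BL w j ∅ ∪ BU w h j ∅ : Finset (ℤ × ℤ)) ∧ e ∉ RS N 0 (j - 1) := by
    intro e he
    rcases Ti_cases he with ⟨y, rfl, h3, h4, h5⟩ | ⟨y, rfl, h3, h4, h5⟩
    · rw [← lbt_lt, mem_union, Pool.Agent.H30.Mid.mem_BL, mem_BU, mem_RSx hN]
      omega
    · rw [← lbt_lt, mem_union, Pool.Agent.H30.Mid.mem_BL, mem_BU, mem_RSx hN]
      omega
  have hbR : ∀ e ∈ (BL w j ∅ ∪ BU w h j ∅ : Finset (ℤ × ℤ)), e ∉ RS N 0 (j - 1) := by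
    intro e he hr
    obtain ⟨c, rfl⟩ := mem_RS.1 hr
    unfold rl at he
    have hc := c.2
    rw [mem_union, Pool.Agent.H30.Mid.mem_BL, mem_BU] at he
    omega
  have heTi := hv he
  have heb := hTib e heTi
  have heE := hTi heTi
  unfold AR
  refine sum_congr rfl fun s _ => ?_
  congr 1
  have hs := osn_subR (x0 := 0) (y0 := j - 1) s
  rw [Env.freeze_incO (subset_inter (hs.trans hX) hs), Env.freeze_incO (subset_inter (hs.trans hX) hs)]
  have e1 : osn (rl 0 (j - 1)) (rp 0 (j - 1)) s ∪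
      (ω ∪ insert e T ∪ σ) ∩ ((XT O j h0 h1 j2).E \ RS N 0 (j - 1)) =
      insert e (osn (rl 0 (j - 1)) (rp 0 (j - 1)) s ∪
        (ω ∪ T ∪ σ) ∩ ((XT O j h0 h1 j2).E \ RS N 0 (j - 1))) := by
    ext a
    simp only [mem_union, mem_inter, mem_insert, mem_sdiff, XT_E]
    constructor
    · rintro (h3 | ⟨((h3 | h3 | h3) | h3), h4⟩)
      · exact Or.inr (Or.inl h3)
      · exact Or.inr (Or.inr ⟨Or.inl (Or.inl h3), h4⟩)
      · exact Or.inl h3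
      · exact Or.inr (Or.inr ⟨Or.inl (Or.inr h3), h4⟩)
      · exact Or.inr (Or.inr ⟨Or.inr h3, h4⟩)
    · rintro (h3 | h3 | ⟨((h3 | h3) | h3), h4⟩)
      · subst h3
        exact Or.inr ⟨Or.inl (Or.inr (Or.inl rfl)), heE, heb.2⟩
      · exact Or.inl h3
      · exact Or.inr ⟨Or.inl (Or.inl h3), h4⟩
      · exact Or.inr ⟨Or.inl (Or.inr (Or.inr h3)), h4⟩
      · exact Or.inr ⟨Or.inr h3, h4⟩
  rw [e1]
  set om := osn (rl 0 (j - 1)) (rp 0 (j - 1)) s ∪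
    (ω ∪ T ∪ σ) ∩ ((XT O j h0 h1 j2).E \ RS N 0 (j - 1)) with hom
  have hmem : ∀ a ∈ om, a ∈ RS N 0 (j - 1) ∨ a ∈ ω ∨ a ∈ T ∨ a ∈ σ := by
    intro a ha
    rw [hom, mem_union, mem_inter, mem_union, mem_union] at ha
    rcases ha with h3 | ⟨(h3 | h3) | h3, _⟩
    · exact Or.inl (hs h3)
    · exact Or.inr (Or.inl h3)
    · exact Or.inr (Or.inr (Or.inl h3))
    · exact Or.inr (Or.inr (Or.inr h3))
  have homE : om ⊆ ET w h j := by
    intro a ha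
    rcases hmem a ha with h3 | h3 | h3 | h3
    · have := hX h3; rwa [XT_E] at this
    · exact hbulk (hω h3)
    · exact hTi (hv (hT h3))
    · exact hσ h3
  have heom : e ∉ om := by
    intro ha
    rcases hmem e ha with h3 | h3 | h3 | h3
    · exact heb.2 h3
    · exact heb.1 (hω h3)
    · exact heT h3
    · exact (hσ' e h3).1 heTi
  refine toggle_XT hv hK hKw he homE heom ?_ ?_ hm0 hm1
  · intro a ha haT
    rcases hmem a ha with h3 | h3 | h3 | h3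
    · exact absurd h3 (hTib a haT).2
    · exact absurd (hω h3) (hTib a haT).1
    · exact hT h3
    · exact absurd haT (hσ' a h3).1
  · rw [Qt_local]
    have hBt : Bt K h j v e ⊆ (BL w j ∅ ∪ BU w h j ∅ : Finset (ℤ × ℤ)) := by
      rw [bulk_eq]
      exact Bt_sub hw w2 h2 j2 hv hK h0 h1 hKw he
    have e2 : om ∩ Bt K h j v e = ω ∩ Bt K h j v e := by
      ext a
      rw [mem_inter, mem_inter]
      constructor
      · rintro ⟨h3, h4⟩
        refine ⟨?_, h4⟩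
        rcases hmem a h3 with h5 | h5 | h5 | h5
        · exact absurd h5 (hbR a (hBt h4))
        · exact h5
        · exact absurd (hBt h4) (hTib a (hv (hT h5))).1
        · exact absurd (hBt h4) (hσ' a h5).2
      · rintro ⟨h3, h4⟩
        refine ⟨?_, h4⟩
        rw [hom, mem_union, mem_inter, mem_union, mem_union]
        refine Or.inr ⟨Or.inl (Or.inl h3), ?_⟩
        rw [mem_sdiff, XT_E]
        exact ⟨hbulk (hω h3), hbR a (hω h3)⟩
    rw [e2]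
    exact hQ

/-- **The coefficients from the frozen bound.** -/
theorem HH_bound : ∃ C : ℝ, 1 ≤ C ∧ ∀ {w h j : ℤ} (O : Out w h) (h0 : 0 ≤ j) (h1 : j ≤ h)
    (j2 : j % 2 = 0) {N : ℕ} (y : Fin N × Dir) (m l : ℕ) {K k : ℤ} {σ : Finset (ℤ × ℤ)} {M : ℝ},
    (N : ℤ) = w → 0 < j → j < h → 4 ≤ K → h ≤ K * w → σ ⊆ ET w h j →
    (∀ e ∈ σ, e ∉ Ti w h j ∧ e ∉ EF N w h j ∅) →
    j - 1 ≤ (vx (rcr 0 (j - 1) y)).2 - (vx (rcr 0 (j - 1) y)).1 →
    (vx (rcr 0 (j - 1) y)).2 - (vx (rcr 0 (j - 1) y)).1 ≤ j → 0 ≤ M →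
    (∀ v ∈ powersetCard l (Ti w h j), ∀ t, t ⊆ v.biUnion (Bt K h j v) ∪ v ∪ σ →
      ‖∑ s ∈ powersetCard m (Finset.Ico (-k) ((N : ℤ) - k)), Ec (fun _ => (1 / 2 : ℂ))
        (gE (BL w j (v.biUnion (Bt K h j v))) (BU w h j (v.biUnion (Bt K h j v))) (1, -1))
        (Amp (XF O h0 h1 j2 N (v.biUnion (Bt K h j v)) t) 0 (j - 1) y (zt ^ (4 : ℤ))
          (zt ^ (-4 : ℤ)) (BL w j (v.biUnion (Bt K h j v))) (BU w h j (v.biUnion (Bt K h j v)))
          k s)‖ ≤ M) →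
    ‖HH O h0 h1 j2 y m l σ‖ ≤
      2 ^ l * M * ((C * K) ^ l * (((l + 1) * 6 ^ l) ^ 2 * (cr (h + 1 : ℝ) ^ 2) ^ l)) := by
  obtain ⟨C, hC, hP⟩ := Qt_le
  refine ⟨C, hC, ?_⟩
  intro w h j O h0 h1 j2 N y m l K k σ M hN g0 g1 hK hKw hσ hσ' hm0 hm1 hM FB
  have hw := O.hw
  have w2 := O.w2
  have h2 := O.h2
  have hEF : (BL w j ∅ ∪ BU w h j ∅ : Finset (ℤ × ℤ)) ⊆ EF N w h j ∅ := by
    unfold EF; exact subset_union_left
  have hRS : ∀ B, RS N 0 (j - 1) ⊆ EF N w h j B := by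
    intro B; unfold EF; exact subset_union_right
  have hbulk : (BL w j ∅ ∪ BU w h j ∅ : Finset (ℤ × ℤ)) ⊆ ET w h j :=
    hEF.trans (EF_sub (B := ∅) O h0 h1 j2 hN g0 g1)
  have hTi : Ti w h j ⊆ ET w h j := by
    unfold Ti
    exact union_subset (TiL_sub O h0 h1 j2) (TiR_sub O h0 h1 j2)
  have hTib : ∀ e ∈ Ti w h j, e ∉ EF N w h j ∅ := by
    intro e he
    unfold EF
    rcases Ti_cases he with ⟨y, rfl, h3, h4, h5⟩ | ⟨y, rfl, h3, h4, h5⟩
    · rw [← lbt_lt, mem_union, mem_union, Pool.Agent.H30.Mid.mem_BL, mem_BU, mem_RSx hN]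
      omega
    · rw [← lbt_lt, mem_union, mem_union, Pool.Agent.H30.Mid.mem_BL, mem_BU, mem_RSx hN]
      omega
  have hEFB : ∀ B, EF N w h j B ⊆ EF N w h j ∅ := by
    intro B
    unfold EF BL BU
    rw [sdiff_empty, sdiff_empty]
    exact union_subset_union_left (union_subset_union sdiff_subset sdiff_subset)
  have key := ties_sum' (Bk := (BL w j ∅ ∪ BU w h j ∅ : Finset (ℤ × ℤ))) (Wt := Ti w h j) (l := l)
    (B := fun v => Bt K h j v) (P1 := fun v => H46.G1.Qt K h j v)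
    (G := fun T ω => ∑ S ∈ powersetCard m (univ : Finset (Fin N)),
      AR (XT O j h0 h1 j2) 0 (j - 1) y (cA S (zt ^ (4 : ℤ))) (cB S (zt ^ (-4 : ℤ))) (ω ∪ T ∪ σ))
    (M := M) (ρ := fun v x => C * K * (cr (gD h j v x : ℝ))⁻¹) hM ?_ ?_ ?_ ?_ ?_
  · refine key.trans (mul_le_mul_of_nonneg_left ?_ (by positivity))
    have e1 : ∀ v ∈ powersetCard l (Ti w h j), ∏ x ∈ v, (C * K * (cr (gD h j v x : ℝ))⁻¹) =
        (C * K) ^ l * ∏ x ∈ v, (cr (gD h j v x : ℝ))⁻¹ := by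
      intro v hv
      rw [prod_mul_distrib, prod_const, (mem_powersetCard.1 hv).2]
    rw [sum_congr rfl e1, ← mul_sum]
    refine mul_le_mul_of_nonneg_left (sum_ties (by omega) h2 j2 h0 h1 l) ?_
    have hKR : (0 : ℝ) ≤ K := by exact_mod_cast (by omega : (0 : ℤ) ≤ K)
    exact pow_nonneg (mul_nonneg (by linarith) hKR) l
  · intro v hv x hx
    rw [bulk_eq]
    exact Bt_sub hw w2 h2 j2 (mem_powersetCard.1 hv).1 hK h0 h1 hKw hx
  · intro v hv x hx x' hx' hne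
    exact Bt_disj hw w2 h2 j2 (mem_powersetCard.1 hv).1 hK hx hx' hne
  · intro v hv x hx
    exact hP K h j v x (by omega) (gD_pos (by omega) h2 j2 (mem_powersetCard.1 hv).1 hx)
  · intro v hv x hx T hT hxT ω hω hQ
    refine sum_congr rfl fun S _ => ?_
    exact AR_toggle O h0 h1 j2 hN g0 g1 y _ _ (mem_powersetCard.1 hv).1 hK hKw hx hT hxT hω hσ
      (fun e he => ⟨(hσ' e he).1, fun h3 => (hσ' e he).2 (hEF h3)⟩) hQ hm0 hm1
  · intro v hv ξ hξ _ T hT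
    have hvT := (mem_powersetCard.1 hv).1
    rw [BLBU_sdiff]
    have hBb : v.biUnion (Bt K h j v) ⊆ (BL w j ∅ ∪ BU w h j ∅ : Finset (ℤ × ℤ)) := by
      refine biUnion_subset.2 fun x hx => ?_
      rw [bulk_eq]
      exact Bt_sub hw w2 h2 j2 hvT hK h0 h1 hKw hx
    have hBEF : ∀ e ∈ v.biUnion (Bt K h j v), e ∉ EF N w h j (v.biUnion (Bt K h j v)) := by
      intro e he he'
      unfold EF BL BU at he'
      rw [mem_union, mem_union, mem_sdiff, mem_sdiff] at he'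
      rcases he' with (h3 | h3) | h3
      · exact h3.2 he
      · exact h3.2 he
      · have h4 := hBb he
        obtain ⟨c, rfl⟩ := mem_RS.1 h3
        unfold rl at h4
        have hc := c.2
        rw [mem_union, Pool.Agent.H30.Mid.mem_BL, mem_BU] at h4
        omega
    have ht : ξ ∪ T ∪ σ ⊆ ET w h j \ EF N w h j (v.biUnion (Bt K h j v)) := by
      intro e he
      rw [mem_union, mem_union] at he
      rw [mem_sdiff]
      rcases he with (h3 | h3) | h3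
      · exact ⟨hbulk (hBb (hξ h3)), hBEF e (hξ h3)⟩
      · have h4 := hvT (hT h3)
        exact ⟨hTi h4, fun h5 => hTib e h4 (hEFB _ h5)⟩
      · exact ⟨hσ h3, fun h5 => (hσ' e h3).2 (hEFB _ h5)⟩
    have h3 := FB v hv (ξ ∪ T ∪ σ) (union_subset_union_left (union_subset_union hξ hT))
    rw [← frozen_sum O h0 h1 j2 hN g0 g1 y _ _ m k ht] at h3
    have e5 : ∀ ω : Finset (ℤ × ℤ), ξ ∪ ω ∪ T ∪ σ = ω ∪ (ξ ∪ T ∪ σ) := by
      intro ω
      ext e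
      simp only [mem_union]
      tauto
    simp only [e5]
    exact h3

end Pool.Agent.Q1.M6b.Gd
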