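import Mathlib
import Pool.Agent.Q1.M6b.Asm3
import Pool.Agent.H76.Sp.RowK

set_option autoImplicit false
open Finset

/-! # The coefficients of the expansion of any row with ties: bound from the frozen bound -/

namespace Pool.Agent.Q1.M6b.Gd

open Pool.Agent.H75.Perc hiding AR VV
open Pool.Agent.H75.TwoArm hiding EF
open Pool.Agent.H99.NC
open Pool.Agent.Q1 Pool.Agent.H81.G1
open Pool.Agent.H30.Mid
open Pool.Agent.H33.Q1
open Pool.Agent.Q1.M6b.Gl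
open Pool.Agent.H76.Sp

variable {N : ℕ} {X : Env} {x0 y0 : ℤ}

/-- **The frozen sum over the coupons**, any row. -/
lemma frozen_sumG (hX : HasRow X N x0 y0) {EL EU t : Finset (ℤ × ℤ)}
    (hsub : EL ∪ EU ⊆ X.E \ RS N x0 y0) (hd : Disjoint EL EU)
    (hd' : Disjoint EL (EU.map (tr (1, -1)))) (y : Fin N × Dir) (a b : ℂ) (m : ℕ) (k : ℤ)
    (ht : t ⊆ X.E \ (EL ∪ EU ∪ RS N x0 y0)) :
    Ec (fun _ => (1 / 2 : ℂ)) (EL ∪ EU)
      (fun ω => ∑ S ∈ powersetCard m (univ : Finset (Fin N)),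
        AR X x0 y0 y (cA S a) (cB S b) (ω ∪ t)) =
      ∑ s ∈ powersetCard m (Finset.Ico (-k) ((N : ℤ) - k)), Ec (fun _ => (1 / 2 : ℂ))
        (gE EL EU (1, -1))
        (Amp (X.freeze (EL ∪ EU ∪ RS N x0 y0) t) x0 y0 y a b EL EU k s) := by
  have hR : RS N x0 y0 ⊆ EL ∪ EU ∪ RS N x0 y0 := subset_union_right
  have hE : (X.E ∩ (EL ∪ EU ∪ RS N x0 y0)) \ RS N x0 y0 = EL ∪ EU := by
    ext e
    rw [mem_sdiff, mem_inter, mem_union (s := EL ∪ EU)]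
    constructor
    · rintro ⟨⟨h1, h2 | h2⟩, h3⟩
      · exact h2
      · exact absurd h2 h3
    · intro h1
      have h2 := mem_sdiff.1 (hsub h1)
      exact ⟨⟨h2.1, Or.inl h1⟩, h2.2⟩
  rw [← coupon_sum _ x0 y0 y a b hd hd' k m, Ec_sum']
  refine sum_congr rfl fun S _ => Ec_congr fun ω hω => ?_
  rw [AR_freeze y _ _ hX hR (by rw [hE]; exact hω)]
  congr 2
  exact (inter_eq_left.2 ht).symm

/-- the amplitudes do not see a label without influence -/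
lemma AR_toggleG (hX : HasRow X N x0 y0) (y : Fin N × Dir) (a b : Fin N → ℂ) {e : ℤ × ℤ}
    {ζ : Finset (ℤ × ℤ)} (he : e ∈ X.E \ RS N x0 y0) (hζ : ζ ⊆ X.E \ RS N x0 y0)
    (h : ∀ r, r ⊆ RS N x0 y0 →
      X.incO (r ∪ ζ) (rcr x0 y0 y) = X.incO (insert e (r ∪ ζ)) (rcr x0 y0 y)) :
    AR X x0 y0 y a b ζ = AR X x0 y0 y a b (insert e ζ) := by
  unfold AR
  refine sum_congr rfl fun s _ => ?_
  congr 1
  have hs := osn_subR (x0 := x0) (y0 := y0) s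
  rw [Env.freeze_incO (subset_inter (hs.trans hX) hs), Env.freeze_incO (subset_inter (hs.trans hX) hs)]
  rw [inter_eq_left.2 hζ, inter_eq_left.2 (insert_subset he hζ), union_insert]
  exact h _ hs

/-- **The coefficients from the frozen bound**, any row. -/
theorem HK_bound {κ : Type*} [Fintype κ] [DecidableEq κ] (hX : HasRow X N x0 y0)
    {EL EU A σ : Finset (ℤ × ℤ)} {kd : ℤ × ℤ → κ} {l : κ → ℕ} (y : Fin N × Dir) (m : ℕ) {k : ℤ}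
    {M : ℝ} (hM : 0 ≤ M) (hsub : EL ∪ EU ⊆ X.E \ RS N x0 y0) (hd : Disjoint EL EU)
    (hd' : Disjoint EL (EU.map (tr (1, -1)))) (hA : A ⊆ X.E \ RS N x0 y0)
    (hσ : σ ⊆ X.E \ RS N x0 y0) (hAE : Disjoint A (EL ∪ EU)) (hσE : Disjoint σ (EL ∪ EU))
    {Bx : Finset (ℤ × ℤ) → ℤ × ℤ → Finset (ℤ × ℤ)}
    {P1 : Finset (ℤ × ℤ) → ℤ × ℤ → Finset (ℤ × ℤ) → Prop} {ρ : Finset (ℤ × ℤ) → ℤ × ℤ → ℝ}
    (hB : ∀ v ∈ PK A kd l, ∀ x ∈ v, Bx v x ⊆ EL ∪ EU)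
    (hBd : ∀ v ∈ PK A kd l, ∀ x ∈ v, ∀ x' ∈ v, x ≠ x' → Disjoint (Bx v x) (Bx v x'))
    (hρ : ∀ v ∈ powersetCard (∑ i, l i) A, ∀ x ∈ v, 0 ≤ ρ v x)
    (hP : ∀ v ∈ PK A kd l, ∀ x ∈ v, PrP (fun _ => (1 / 2 : ℝ)) (Bx v x) (P1 v x) ≤ ρ v x)
    (htog : ∀ v ∈ PK A kd l, ∀ x ∈ v, ∀ T, T ⊆ v → x ∉ T → ∀ ω, ω ⊆ EL ∪ EU →
      ¬ P1 v x (ω ∩ Bx v x) → ∀ r, r ⊆ RS N x0 y0 →
      X.incO (r ∪ (ω ∪ T ∪ σ)) (rcr x0 y0 y) =
        X.incO (insert x (r ∪ (ω ∪ T ∪ σ))) (rcr x0 y0 y))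
    (hF : ∀ v ∈ PK A kd l, ∀ t, t ⊆ v.biUnion (Bx v) ∪ v ∪ σ →
      ‖∑ s ∈ powersetCard m (Finset.Ico (-k) ((N : ℤ) - k)), Ec (fun _ => (1 / 2 : ℂ))
        (gE (EL \ v.biUnion (Bx v)) (EU \ v.biUnion (Bx v)) (1, -1))
        (Amp (X.freeze ((EL \ v.biUnion (Bx v)) ∪ (EU \ v.biUnion (Bx v)) ∪ RS N x0 y0) t) x0 y0 y
          (zt ^ (4 : ℤ)) (zt ^ (-4 : ℤ)) (EL \ v.biUnion (Bx v)) (EU \ v.biUnion (Bx v)) k s)‖ ≤ M) :
    ‖HK X x0 y0 y A kd (EL ∪ EU) m l σ‖ ≤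
      2 ^ (∑ i, l i) * M * ∑ v ∈ powersetCard (∑ i, l i) A, ∏ x ∈ v, ρ v x := by
  unfold HK
  refine ties_sumV (V := PK A kd l) (Wt := A) (PK_sub _ _ _) (B := Bx) (P1 := P1) hM hB hBd hρ hP ?_ ?_
  · intro v hv x hx T hT hxT ω hω hQ
    have hvA : v ⊆ A := (mem_powersetCard.1 (PK_sub _ _ _ hv)).1
    refine sum_congr rfl fun S _ => ?_
    have e1 : ω ∪ insert x T ∪ σ = insert x (ω ∪ T ∪ σ) := by
      rw [union_insert, insert_union]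
    rw [e1]
    refine AR_toggleG hX y _ _ (hA (hvA hx)) ?_ fun r hr => htog v hv x hx T hT hxT ω hω hQ r hr
    exact union_subset (union_subset (hω.trans hsub) ((hT.trans hvA).trans hA)) hσ
  · intro v hv ξ hξ _ T hT
    have hvA : v ⊆ A := (mem_powersetCard.1 (PK_sub _ _ _ hv)).1
    have hBE : v.biUnion (Bx v) ⊆ EL ∪ EU := biUnion_subset.2 fun x hx => hB v hv x hx
    rw [union_sdiff_distrib]
    have hss : (EL \ v.biUnion (Bx v)) ∪ (EU \ v.biUnion (Bx v)) ⊆ EL ∪ EU :=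
      union_subset_union sdiff_subset sdiff_subset
    have ht : ξ ∪ T ∪ σ ⊆
        X.E \ ((EL \ v.biUnion (Bx v)) ∪ (EU \ v.biUnion (Bx v)) ∪ RS N x0 y0) := by
      intro e he
      rw [mem_union, mem_union] at he
      rw [mem_sdiff, mem_union, not_or]
      rcases he with (h3 | h3) | h3
      · have h4 := mem_sdiff.1 (hsub (hBE (hξ h3)))
        refine ⟨h4.1, ?_, h4.2⟩
        rw [mem_union, mem_sdiff, mem_sdiff]
        rintro (h5 | h5)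
        · exact h5.2 (hξ h3)
        · exact h5.2 (hξ h3)
      · have h4 := mem_sdiff.1 (hA (hvA (hT h3)))
        exact ⟨h4.1, fun h5 => disjoint_left.1 hAE (hvA (hT h3)) (hss h5), h4.2⟩
      · have h4 := mem_sdiff.1 (hσ h3)
        exact ⟨h4.1, fun h5 => disjoint_left.1 hσE h3 (hss h5), h4.2⟩
    have h3 := hF v hv (ξ ∪ T ∪ σ) (union_subset_union_left (union_subset_union hξ hT))
    rw [← frozen_sumG hX (hss.trans hsub) (hd.mono sdiff_subset sdiff_subset)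
      (hd'.mono sdiff_subset (map_subset_map.2 sdiff_subset)) y _ _ m k ht] at h3
    have e5 : ∀ ω : Finset (ℤ × ℤ), ξ ∪ ω ∪ T ∪ σ = ω ∪ (ξ ∪ T ∪ σ) := by
      intro ω
      ext e
      simp only [mem_union]
      tauto
    simp only [e5]
    exact h3

end Pool.Agent.Q1.M6b.Gd
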