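import Mathlib
import Pool.Agent.H34.Q1.Kap

set_option autoImplicit false
open Finset

/-! Exponential moments of the number of strands crossing an annulus of large ratio. -/

namespace Pool.Agent.Q1.M6b.Gd

open Pool.Agent.H57.Flow Pool.Agent.H57.Q1 Pool.Agent.H34.Q1
open Pool.Agent.H75.Perc Pool.Agent.H75.TwoArm Pool.Agent.H49.Perc Pool.Agent.H99.NC Pool.Agent.H65.G1

/-- `kap_arms` for an annulus of ratio `4 ^ k` -/
lemma kap_arms_k {f lb lb' : ℤ × ℤ → ℤ × ℤ} (hf : Function.Injective f)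
    (hl : ∀ c, lb' (f c) = lb c) (hlb : ∀ c, |(lb c).1 - c.1| ≤ 1 ∧ |(lb c).2 - c.2| ≤ 1)
    {E W ω : Finset (ℤ × ℤ)} {G : Set (ℤ × ℤ)}
    (hopen : ∀ {I : Finset (ℤ × ℤ)} {n : ℤ × ℤ → ℕ} {x : ℤ × ℤ} {ρ M : ℤ},
      (∀ i ∈ I, Nr x ρ (vx i) ∧ Fr x M (vx (f^[n i] i))) →
      (∀ i ∈ I, ∀ t < n i, lb (f^[t] i) ∈ ω ∪ W → lb (f^[t] i) ∈ ω) →
      (∀ i ∈ I, ∀ j ∈ I, ∀ s < n i, ∀ t < n j, f^[s] i = f^[t] j → i = j ∧ s = t) →
      Arms I.card (Arm1 x ρ M) ω)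
    (hdual : ∀ {I : Finset (ℤ × ℤ)} {n : ℤ × ℤ → ℕ} {x : ℤ × ℤ} {ρ M : ℤ},
      (∀ i ∈ I, Nr x ρ (fi i) ∧ Fr x M (fi (f^[n i] i))) →
      (∀ i ∈ I, ∀ t < n i, lb (f^[t] i) ∉ ω ∪ W → lb (f^[t] i) ∈ E) →
      (∀ i ∈ I, ∀ j ∈ I, ∀ s < n i, ∀ t < n j, f^[s] i = f^[t] j → i = j ∧ s = t) →
      Arms I.card (Arm1 x ρ M) (du E ω))
    {x : ℤ × ℤ} {r M : ℤ} {k : ℕ} (hr : 0 ≤ r) (hM : 4 ^ k * (r + 2) + r + 8 ≤ M)
    (hT : OneType E W G x M)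
    {S : Finset (ℤ × ℤ)} (hSx : ∀ c ∈ S, |c.1 - x.1| ≤ r ∧ |c.2 - x.2| ≤ r)
    (hS : ∀ c ∈ S, Kst f lb lb' G M c) :
    Arms S.card (Arm1 (x.1 / 2, x.2 / 2) (r / 2 + 1) (4 ^ k * (r / 2 + 1))) ω ∨
    Arms S.card (Arm1 (x.1 / 2, x.2 / 2) (r / 2 + 1) (4 ^ k * (r / 2 + 1))) (du E ω) := by
  classical
  obtain ⟨T, hT1, hT2⟩ : ∃ T : ℤ, 2 * (4 ^ k * (r / 2 + 1)) + 4 ≤ T ∧ T + r + 4 ≤ M := by
    refine ⟨2 * (4 ^ k * (r / 2 + 1)) + 4, le_rfl, ?_⟩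
    have h1 : 2 * (4 ^ k * (r / 2 + 1)) ≤ 4 ^ k * (r + 2) := by
      have h2 : (0 : ℤ) ≤ 4 ^ k := by positivity
      have h3 : 2 * (r / 2 + 1) ≤ r + 2 := by omega
      nlinarith
    omega
  set Q : ℤ := 4 ^ k * (r / 2 + 1) with hQ
  have hex : ∀ c, ∃ n : ℕ, c ∈ S → (∀ t < n, lb (f^[t] c) ∈ G) ∧ FarC x T (f^[n] c) ∧
      ∀ t < n, ¬ FarC x T (f^[t] c) := by
    intro c
    by_cases hc : c ∈ S
    · obtain ⟨n, hn⟩ := Kst_trunc (hS c hc) (hSx c hc) (M' := T) (by omega)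
      exact ⟨n, fun _ => hn⟩
    · exact ⟨0, fun h => absurd h hc⟩
  choose n hn using hex
  have hinj := Kst_inj hf hl (I := S) (n := n) (fun c hc => (hS c hc).1)
    (fun c hc => (hn c hc).1)
  have hnear : ∀ c ∈ S, ∀ t < n c, lb (f^[t] c) ∈ G ∧ |(lb (f^[t] c)).1 - x.1| ≤ M ∧
      |(lb (f^[t] c)).2 - x.2| ≤ M := by
    intro c hc t ht
    refine ⟨(hn c hc).1 t ht, ?_⟩
    have h1 := (hn c hc).2.2 t ht
    unfold FarC at h1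
    push Not at h1
    have h2 := hlb (f^[t] c)
    have h3 := abs_lt.1 h1.1
    have h4 := abs_lt.1 h1.2
    have h5 := abs_le.1 h2.1
    have h6 := abs_le.1 h2.2
    constructor <;> rw [abs_le] <;> constructor <;> omega
  rcases hT with hT | hT
  · left
    refine hopen (n := n) ?_ ?_ hinj
    · intro i hi
      have h1 := hSx i hi
      have h2 := (hn i hi).2.1
      unfold FarC at h2
      unfold Nr Fr vx
      rw [abs_le, abs_le] at h1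
      rw [le_abs, le_abs] at h2
      simp only [abs_le, le_abs]
      constructor
      · omega
      · omega
    · intro i hi t ht h
      obtain ⟨h1, h2, h3⟩ := hnear i hi t ht
      rcases mem_union.1 h with h4 | h4
      · exact h4
      · exact absurd h4 (hT _ h1 h2 h3)
  · right
    refine hdual (n := n) ?_ ?_ hinj
    · intro i hi
      have h1 := hSx i hi
      have h2 := (hn i hi).2.1
      unfold FarC at h2
      unfold Nr Fr fi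
      rw [abs_le, abs_le] at h1
      rw [le_abs, le_abs] at h2
      simp only [abs_le, le_abs]
      constructor
      · omega
      · omega
    · intro i hi t ht h
      obtain ⟨h1, h2, h3⟩ := hnear i hi t ht
      rcases hT _ h1 h2 h3 with h4 | h4
      · exact h4
      · exact absurd (mem_union_right _ h4) h

/-- **tail of the number of strands crossing an annulus of ratio `4 ^ k`** -/
theorem kap_tail_k : ∃ δ : ℝ, 0 < δ ∧ δ < 1 ∧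
    ∀ (F : Finset (ℤ × ℤ) → ℤ × ℤ → ℤ × ℤ) (lb lb' : ℤ × ℤ → ℤ × ℤ), Stp F lb lb' →
    ∀ (E W : Finset (ℤ × ℤ)) (G : Set (ℤ × ℤ)), (∀ e ∈ E, (e.1 + e.2) % 2 = 1) →
    ∀ (k : ℕ) (x : ℤ × ℤ) (r M : ℤ), 0 ≤ r → 4 ^ k * (r + 2) + r + 8 ≤ M → OneType E W G x M →
    ∀ Wd : Finset (ℤ × ℤ), (∀ c ∈ Wd, |c.1 - x.1| ≤ r ∧ |c.2 - x.2| ≤ r) → ∀ n : ℕ,
    PrP (fun _ => 1 / 2) E (fun ω => n ≤ (kapG (F (ω ∪ W)) lb lb' G Wd M).card) ≤
      2 * ((1 - δ) ^ k) ^ n := by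
  classical
  obtain ⟨δ, h0, h1, h⟩ := k_arms_dual
  refine ⟨δ, h0, h1, ?_⟩
  intro F lb lb' hF E W G hE k x r M hr hM hT Wd hWd n
  have hq : Pb (fun _ : ℤ × ℤ => (1 : ℝ) / 2) := fun _ => by norm_num
  have h2 := h E hE (x.1 / 2, x.2 / 2) (r / 2 + 1) (by omega) k n
  rw [pow_mul] at h2
  have h3 : PrP (fun _ => 1 / 2) E (fun ω => n ≤ (kapG (F (ω ∪ W)) lb lb' G Wd M).card) ≤
      PrP (fun _ => 1 / 2) E (fun ω =>
        Arms n (Arm1 (x.1 / 2, x.2 / 2) (r / 2 + 1) (4 ^ k * (r / 2 + 1))) ω ∨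
        Arms n (Arm1 (x.1 / 2, x.2 / 2) (r / 2 + 1) (4 ^ k * (r / 2 + 1))) (du E ω)) := by
    refine PrP_mono hq fun ω _ hn => ?_
    have h4 := kap_arms_k (f := F (ω ∪ W)) (hF.inj _) (hF.hl _) hF.hlb (hF.hopen W ω)
      (hF.hdual E W ω) hr hM hT (S := kapG (F (ω ∪ W)) lb lb' G Wd M)
      (fun c hc => hWd c (mem_filter.1 hc).1) (fun c hc => (mem_filter.1 hc).2)
    exact h4.imp (Arms_le hn) (Arms_le hn)
  refine h3.trans ((PrP_or_le hq E _ _).trans ?_)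
  rw [PrP_half, PrP_half]
  linarith [h2.1, h2.2]

/-- exponential moment from a geometric tail -/
theorem exp_of_tail {α : Type*} [DecidableEq α] {q : α → ℝ} (hq : Pb q) (E : Finset α)
    (N : Finset α → ℕ) {W ρ : ℝ} (hW : 1 ≤ W) (hρ0 : 0 ≤ ρ) (hρ : W * ρ ≤ 1 / 2)
    (h : ∀ n, PrP q E (fun ω => n ≤ N ω) ≤ 2 * ρ ^ n) : Ex q E (fun ω => W ^ N ω) ≤ 4 := by
  obtain ⟨m, hm⟩ : ∃ m, ∀ ω, ω ⊆ E → N ω ≤ m :=
    ⟨E.powerset.sup N, fun ω hω => Finset.le_sup (mem_powerset.2 hω)⟩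
  have h1 : ∀ ω, ω ⊆ E → W ^ N ω ≤ ∑ n ∈ range (m + 1), W ^ n * ind (n ≤ N ω) := by
    intro ω hω
    have h2 : N ω ∈ range (m + 1) := mem_range.2 (Nat.lt_succ_of_le (hm ω hω))
    refine le_trans ?_ (single_le_sum (f := fun n => W ^ n * ind (n ≤ N ω))
      (fun n _ => mul_nonneg (by positivity) (ind_nonneg _)) h2)
    simp only [le_refl]
    rw [ind_true trivial, mul_one]
  refine (Ex_mono hq h1).trans ?_
  rw [Ex_sum]
  have h3 : ∀ n ∈ range (m + 1), Ex q E (fun ω => W ^ n * ind (n ≤ N ω)) ≤ 2 * (1 / 2) ^ n := by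
    intro n _
    rw [Ex_smul]
    have h4 := h n
    unfold PrP at h4
    have h5 : W ^ n * (2 * ρ ^ n) = 2 * (W * ρ) ^ n := by rw [mul_pow]; ring
    have h6 : (W * ρ) ^ n ≤ (1 / 2) ^ n := pow_le_pow_left₀ (by positivity) hρ n
    have h7 : W ^ n * Ex q E (fun ω => ind (n ≤ N ω)) ≤ W ^ n * (2 * ρ ^ n) :=
      mul_le_mul_of_nonneg_left h4 (by positivity)
    linarith
  refine (sum_le_sum h3).trans ?_
  rw [← mul_sum]
  have h8 : ∑ n ∈ range (m + 1), (1 / 2 : ℝ) ^ n ≤ 2 := by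
    have h9 := geom_sum_eq (x := (1 / 2 : ℝ)) (by norm_num) (m + 1)
    rw [h9]
    have : (0 : ℝ) ≤ (1 / 2) ^ (m + 1) := by positivity
    rw [div_le_iff_of_neg (by norm_num)]
    linarith
  linarith

/-- **exponential moments of the number of strands crossing an annulus of large ratio** -/
theorem kap_exp (W : ℝ) (hW : 1 ≤ W) : ∃ Λ : ℤ, 1 ≤ Λ ∧
    ∀ (F : Finset (ℤ × ℤ) → ℤ × ℤ → ℤ × ℤ) (lb lb' : ℤ × ℤ → ℤ × ℤ), Stp F lb lb' →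
    ∀ (E V : Finset (ℤ × ℤ)) (G : Set (ℤ × ℤ)), (∀ e ∈ E, (e.1 + e.2) % 2 = 1) →
    ∀ (x : ℤ × ℤ) (r M : ℤ), 1 ≤ r → Λ * r ≤ M → OneType E V G x M →
    ∀ Wd : Finset (ℤ × ℤ), (∀ c ∈ Wd, |c.1 - x.1| ≤ r ∧ |c.2 - x.2| ≤ r) →
    Ex (fun _ => 1 / 2) E (fun ω => W ^ (kapG (F (ω ∪ V)) lb lb' G Wd M).card) ≤ 4 := by
  obtain ⟨δ, h0, h1, h⟩ := kap_tail_k
  obtain ⟨k, hk⟩ := exists_pow_lt_of_lt_one (show (0 : ℝ) < 1 / (2 * W) by positivity)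
    (show 1 - δ < 1 by linarith)
  have h40 : (0 : ℤ) ≤ 4 ^ k := by positivity
  refine ⟨3 * 4 ^ k + 9, by linarith, ?_⟩
  intro F lb lb' hF E V G hE x r M hr hM hT Wd hWd
  refine exp_of_tail (fun _ => by norm_num) E _ hW (ρ := (1 - δ) ^ k) (by
    have : 0 ≤ 1 - δ := by linarith
    positivity) ?_ (h F lb lb' hF E V G hE k x r M (by omega) ?_ hT Wd hWd)
  · have h2 : W * (1 - δ) ^ k ≤ W * (1 / (2 * W)) := mul_le_mul_of_nonneg_left hk.le (by linarith)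
    refine h2.trans (le_of_eq ?_)
    field_simp
  · have h4 : (0 : ℤ) ≤ 4 ^ k := by positivity
    nlinarith

end Pool.Agent.Q1.M6b.Gd
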