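import Mathlib
import Pool.Agent.H75.TwoArm.Strand

set_option autoImplicit false
open Finset

/-! # Index (mod 2) of closed strands, nested closed strands

A finite set `O` of corners which is a union of closed strands (`Inv w O`) has an index `ixv O v` at the
vertices and `ixf O f` at the faces (mod 2), zero far away, which changes exactly across the corners of
`O`. Two disjoint such sets cannot both surround a vertex and lie outside one another. -/

namespace Pool.Agent.Q1.M6b.Nest

open Pool.Agent.H75.Perc Pool.Agent.H75.TwoArm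

/-- indicator of `O` -/
def A (O : Finset (ℤ × ℤ)) (c : ℤ × ℤ) : ZMod 2 := if c ∈ O then 1 else 0

/-- number (mod 2) of corners of `O` on the antidiagonal ray which starts at `c` -/
def S (O : Finset (ℤ × ℤ)) (c : ℤ × ℤ) : ZMod 2 :=
  ((O.filter (fun d => d.1 + d.2 = c.1 + c.2 ∧ d.1 ≤ c.1)).card : ZMod 2)

lemma two0 (a : ZMod 2) : a + a = 0 := CharTwo.add_self_eq_zero a

lemma S_step (O : Finset (ℤ × ℤ)) (c : ℤ × ℤ) : S O c = A O c + S O (c.1 - 1, c.2 + 1) := by
  unfold S A
  have h1 : O.filter (fun d => d.1 + d.2 = c.1 + c.2 ∧ d.1 ≤ c.1) =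
      O.filter (fun d => d = c) ∪
        O.filter (fun d => d.1 + d.2 = (c.1 - 1) + (c.2 + 1) ∧ d.1 ≤ c.1 - 1) := by
    ext d
    simp only [mem_filter, mem_union, Prod.ext_iff]
    constructor
    · rintro ⟨h, h2, h3⟩
      by_cases h4 : d.1 = c.1
      · left; exact ⟨h, h4, by omega⟩
      · right; exact ⟨h, by omega, by omega⟩
    · rintro (⟨h, h2, h3⟩ | ⟨h, h2, h3⟩)
      · exact ⟨h, by omega, by omega⟩
      · exact ⟨h, by omega, by omega⟩
  rw [h1, card_union_of_disjoint]
  · rw [filter_eq' O c]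
    by_cases h : c ∈ O
    · rw [if_pos h, if_pos h]; push_cast [card_singleton]; rfl
    · rw [if_neg h, if_neg h]; push_cast [card_empty]; rfl
  · rw [disjoint_left]
    intro d h2 h3
    have h4 := (mem_filter.1 h2).2
    have h5 := (mem_filter.1 h3).2.2
    rw [h4] at h5
    omega

lemma S_far {O : Finset (ℤ × ℤ)} {M : ℤ} (h : ∀ d ∈ O, M < d.1) {c : ℤ × ℤ} (hc : c.1 ≤ M) :
    S O c = 0 := by
  unfold S
  rw [filter_eq_empty_iff.2]
  · simp
  · intro d hd h1
    have := h d hd
    omega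

lemma exists_lb (O : Finset (ℤ × ℤ)) : ∃ M : ℤ, ∀ d ∈ O, M < d.1 := by
  refine ⟨-((O.sup fun d => d.1.natAbs : ℕ) : ℤ) - 1, fun d hd => ?_⟩
  have h1 : d.1.natAbs ≤ O.sup fun d => d.1.natAbs := Finset.le_sup (f := fun d => d.1.natAbs) hd
  omega

/-- even number of corners at every label -/
def Tile0 (O : Finset (ℤ × ℤ)) : Prop := ∀ x y : ℤ, (x + y) % 2 = 1 →
  A O (x, y) + A O (x + 1, y) + A O (x, y + 1) + A O (x + 1, y + 1) = 0

lemma S_tile {O : Finset (ℤ × ℤ)} (h : Tile0 O) {x y : ℤ} (hxy : (x + y) % 2 = 1) :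
    A O (x + 1, y) + S O (x, y) + S O (x + 1, y + 1) = 0 := by
  obtain ⟨M, hM⟩ := exists_lb O
  have key : ∀ n : ℕ, A O (x + 1, y) + S O (x, y) + S O (x + 1, y + 1) =
      A O (x + 1 - n, y + n) + S O (x - n, y + n) + S O (x + 1 - n, y + 1 + n) := by
    intro n
    induction n with
    | zero => simp
    | succ n ih =>
      rw [ih, S_step O (x - n, y + n), S_step O (x + 1 - n, y + 1 + n)]
      have h1 := h (x - n) (y + n) (by omega)
      have e1 : (x - n + 1 : ℤ) = x + 1 - n := by ring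
      have e2 : (y + n + 1 : ℤ) = y + 1 + n := by ring
      have e3 : (x + 1 - (n + 1 : ℕ) : ℤ) = x - n := by push_cast; ring
      have e4 : (y + (n + 1 : ℕ) : ℤ) = y + 1 + n := by push_cast; ring
      have e5 : (x - (n + 1 : ℕ) : ℤ) = x - n - 1 := by push_cast; ring
      have e6 : (y + 1 + (n + 1 : ℕ) : ℤ) = y + 1 + n + 1 := by push_cast; ring
      have e7 : (x + 1 - n - 1 : ℤ) = x - n := by ring
      rw [e1, e2] at h1
      simp only [e3, e4, e5, e6, e7, e2]
      generalize A O (x + 1 - n, y + n) = a at h1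
      generalize A O (x - n, y + n) = b at h1
      generalize A O (x - n, y + 1 + n) = c at h1
      generalize A O (x + 1 - n, y + 1 + n) = d at h1
      generalize S O (x - n - 1, y + 1 + n) = s
      generalize S O (x - n, y + 1 + n + 1) = t
      revert h1
      clear * -
      revert a b c d s t
      decide
  obtain ⟨n, hn⟩ : ∃ n : ℕ, x + 1 - n ≤ M := ⟨(x + 1 - M).toNat, by omega⟩
  rw [key n, S_far hM (by simp only; omega), S_far hM (by simp only; omega)]
  have h1 : A O (x + 1 - n, y + n) = 0 := by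
    unfold A
    rw [if_neg]
    intro h2
    have := hM _ h2
    simp only at this
    omega
  rw [h1]; rfl

/-- index of a vertex -/
def ixv (O : Finset (ℤ × ℤ)) (v : ℤ × ℤ) : ZMod 2 := S O (2 * v.1, 2 * v.2 + 1)

/-- index of a face -/
def ixf (O : Finset (ℤ × ℤ)) (f : ℤ × ℤ) : ZMod 2 := S O (2 * f.1 - 1, 2 * f.2)

lemma par_cases (x : ℤ) : (∃ a, x = 2 * a) ∨ (∃ a, x = 2 * a + 1) := by
  rcases Int.even_or_odd' x with ⟨a, h | h⟩
  · exact Or.inl ⟨a, h⟩
  · exact Or.inr ⟨a, h⟩

/-- **the index changes exactly across the corners of `O`** -/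
theorem ix_corner {O : Finset (ℤ × ℤ)} (h : Tile0 O) (c : ℤ × ℤ) :
    ixv O (vx c) + ixf O (fi c) = A O c := by
  obtain ⟨x, y⟩ := c
  unfold ixv ixf vx fi
  rcases par_cases x with ⟨a, rfl⟩ | ⟨a, rfl⟩ <;> rcases par_cases y with ⟨b, rfl⟩ | ⟨b, rfl⟩
  · have e1 : (2 * a / 2 : ℤ) = a := by omega
    have e2 : (2 * b / 2 : ℤ) = b := by omega
    have e3 : ((2 * a + 1) / 2 : ℤ) = a := by omega
    have e4 : ((2 * b + 1) / 2 : ℤ) = b := by omega
    simp only [e1, e2, e3, e4]
    have h1 := S_tile h (x := 2 * a - 1) (y := 2 * b) (by omega)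
    have e5 : (2 * a - 1 + 1 : ℤ) = 2 * a := by ring
    rw [e5] at h1
    revert h1
    generalize A O (2 * a, 2 * b) = p
    generalize S O (2 * a - 1, 2 * b) = q
    generalize S O (2 * a, 2 * b + 1) = r
    revert p q r
    decide
  · have e1 : (2 * a / 2 : ℤ) = a := by omega
    have e2 : ((2 * b + 1) / 2 : ℤ) = b := by omega
    have e3 : ((2 * a + 1) / 2 : ℤ) = a := by omega
    have e4 : ((2 * b + 1 + 1) / 2 : ℤ) = b + 1 := by omega
    simp only [e1, e2, e3, e4]
    have h1 := S_step O (2 * a, 2 * b + 1)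
    have e5 : (2 * (b + 1) : ℤ) = 2 * b + 1 + 1 := by ring
    simp only at h1
    rw [h1, e5]
    generalize A O (2 * a, 2 * b + 1) = p
    generalize S O (2 * a - 1, 2 * b + 1 + 1) = q
    revert p q
    decide
  · have e1 : ((2 * a + 1) / 2 : ℤ) = a := by omega
    have e2 : (2 * b / 2 : ℤ) = b := by omega
    have e3 : ((2 * a + 1 + 1) / 2 : ℤ) = a + 1 := by omega
    have e4 : ((2 * b + 1) / 2 : ℤ) = b := by omega
    simp only [e1, e2, e3, e4]
    have h1 := S_step O (2 * a + 1, 2 * b)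
    have e5 : (2 * (a + 1) - 1 : ℤ) = 2 * a + 1 := by ring
    have e6 : (2 * a + 1 - 1 : ℤ) = 2 * a := by ring
    simp only [e6] at h1
    rw [e5, h1]
    generalize A O (2 * a + 1, 2 * b) = p
    generalize S O (2 * a, 2 * b + 1) = q
    revert p q
    decide
  · have e1 : ((2 * a + 1) / 2 : ℤ) = a := by omega
    have e2 : ((2 * b + 1) / 2 : ℤ) = b := by omega
    have e3 : ((2 * a + 1 + 1) / 2 : ℤ) = a + 1 := by omega
    have e4 : ((2 * b + 1 + 1) / 2 : ℤ) = b + 1 := by omega
    simp only [e1, e2, e3, e4]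
    have h1 := S_tile h (x := 2 * a) (y := 2 * b + 1) (by omega)
    have e5 : (2 * (a + 1) - 1 : ℤ) = 2 * a + 1 := by ring
    have e6 : (2 * (b + 1) : ℤ) = 2 * b + 1 + 1 := by ring
    rw [e5, e6]
    revert h1
    generalize A O (2 * a + 1, 2 * b + 1) = p
    generalize S O (2 * a, 2 * b + 1) = q
    generalize S O (2 * a + 1, 2 * b + 1 + 1) = r
    revert p q r
    decide

/-- `O` is a union of closed strands of the configuration `w` -/
def Inv (w O : Finset (ℤ × ℤ)) : Prop := ∀ c, nx w c ∈ O ↔ c ∈ O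

lemma Inv.A_nx {w O : Finset (ℤ × ℤ)} (h : Inv w O) (c : ℤ × ℤ) : A O (nx w c) = A O c := by
  unfold A
  by_cases h1 : c ∈ O
  · rw [if_pos h1, if_pos ((h c).2 h1)]
  · rw [if_neg h1, if_neg (fun h2 => h1 ((h c).1 h2))]

lemma Inv.tile {w O : Finset (ℤ × ℤ)} (h : Inv w O) : Tile0 O := by
  intro x y hxy
  rcases par_cases x with ⟨a, rfl⟩ | ⟨a, rfl⟩
  · obtain ⟨b, rfl⟩ : ∃ b, y = 2 * b + 1 := ⟨y / 2, by omega⟩
    have l1 : lab (2 * a, 2 * b + 1 + 1) = (2 * a, 2 * b + 1) := by
      unfold lab; rw [if_pos (by simp only; omega), if_pos (by simp only; omega)]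
      simp
    have l2 : lab (2 * a + 1, 2 * b + 1) = (2 * a, 2 * b + 1) := by
      unfold lab; rw [if_neg (by simp only; omega), if_neg (by simp only; omega)]
      simp
    have h1 := h.A_nx (2 * a, 2 * b + 1 + 1)
    have h2 := h.A_nx (2 * a + 1, 2 * b + 1)
    unfold nx at h1 h2
    rw [l1] at h1
    rw [l2] at h2
    by_cases hw : (2 * a, 2 * b + 1) ∈ w
    · rw [if_pos hw] at h1 h2
      have n1 : nxO (2 * a, 2 * b + 1 + 1) = (2 * a, 2 * b + 1) := by
        unfold nxO; rw [if_pos (by simp only; omega), if_pos (by simp only; omega)]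
        simp
      have n2 : nxO (2 * a + 1, 2 * b + 1) = (2 * a + 1, 2 * b + 1 + 1) := by
        unfold nxO; rw [if_neg (by simp only; omega), if_neg (by simp only; omega)]
      rw [n1] at h1
      rw [n2] at h2
      rw [h1, h2]
      generalize A O (2 * a, 2 * b + 1 + 1) = p
      generalize A O (2 * a + 1, 2 * b + 1) = q
      revert p q
      decide
    · rw [if_neg hw] at h1 h2
      have n1 : nxC (2 * a, 2 * b + 1 + 1) = (2 * a + 1, 2 * b + 1 + 1) := by
        unfold nxC; rw [if_pos (by simp only; omega), if_pos (by simp only; omega)]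
      have n2 : nxC (2 * a + 1, 2 * b + 1) = (2 * a, 2 * b + 1) := by
        unfold nxC; rw [if_neg (by simp only; omega), if_neg (by simp only; omega)]
        simp
      rw [n1] at h1
      rw [n2] at h2
      rw [h1, h2]
      generalize A O (2 * a, 2 * b + 1 + 1) = p
      generalize A O (2 * a + 1, 2 * b + 1) = q
      revert p q
      decide
  · obtain ⟨b, rfl⟩ : ∃ b, y = 2 * b := ⟨y / 2, by omega⟩
    have l1 : lab (2 * a + 1, 2 * b) = (2 * a + 1, 2 * b) := by
      unfold lab; rw [if_pos (by simp only; omega), if_neg (by simp only; omega)]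
    have l2 : lab (2 * a + 1 + 1, 2 * b + 1) = (2 * a + 1, 2 * b) := by
      unfold lab; rw [if_neg (by simp only; omega), if_pos (by simp only; omega)]
      simp
    have h1 := h.A_nx (2 * a + 1, 2 * b)
    have h2 := h.A_nx (2 * a + 1 + 1, 2 * b + 1)
    unfold nx at h1 h2
    rw [l1] at h1
    rw [l2] at h2
    by_cases hw : (2 * a + 1, 2 * b) ∈ w
    · rw [if_pos hw] at h1 h2
      have n1 : nxO (2 * a + 1, 2 * b) = (2 * a + 1 + 1, 2 * b) := by
        unfold nxO; rw [if_pos (by simp only; omega), if_neg (by simp only; omega)]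
      have n2 : nxO (2 * a + 1 + 1, 2 * b + 1) = (2 * a + 1, 2 * b + 1) := by
        unfold nxO; rw [if_neg (by simp only; omega), if_pos (by simp only; omega)]
        simp
      rw [n1] at h1
      rw [n2] at h2
      rw [h1, h2]
      generalize A O (2 * a + 1, 2 * b) = p
      generalize A O (2 * a + 1 + 1, 2 * b + 1) = q
      revert p q
      decide
    · rw [if_neg hw] at h1 h2
      have n1 : nxC (2 * a + 1, 2 * b) = (2 * a + 1, 2 * b + 1) := by
        unfold nxC; rw [if_pos (by simp only; omega), if_neg (by simp only; omega)]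
      have n2 : nxC (2 * a + 1 + 1, 2 * b + 1) = (2 * a + 1 + 1, 2 * b) := by
        unfold nxC; rw [if_neg (by simp only; omega), if_pos (by simp only; omega)]
        simp
      rw [n1] at h1
      rw [n2] at h2
      rw [h1, h2]
      generalize A O (2 * a + 1, 2 * b) = p
      generalize A O (2 * a + 1 + 1, 2 * b + 1) = q
      revert p q
      decide

/-- the index is constant along every strand (left side) -/
lemma Inv.ixv_nx {w O : Finset (ℤ × ℤ)} (h : Inv w O) (c : ℤ × ℤ) :
    ixv O (vx (nx w c)) = ixv O (vx c) := by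
  by_cases hl : lab c ∈ w
  · have e : nx w c = nxO c := if_pos hl
    have h1 := ix_corner h.tile c
    have h2 := ix_corner h.tile (nx w c)
    rw [h.A_nx, e, StrandAux.fi_nxO] at h2
    rw [e]
    rw [← h1] at h2
    exact add_right_cancel h2
  · have e : nx w c = nxC c := if_neg hl
    rw [e, StrandAux.vx_nxC]

/-- the index is constant along every strand (right side) -/
lemma Inv.ixf_nx {w O : Finset (ℤ × ℤ)} (h : Inv w O) (c : ℤ × ℤ) :
    ixf O (fi (nx w c)) = ixf O (fi c) := by
  have h1 := ix_corner h.tile c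
  have h2 := ix_corner h.tile (nx w c)
  rw [h.A_nx, h.ixv_nx, ← h1] at h2
  exact add_left_cancel h2

lemma Inv.ixv_iter {w O : Finset (ℤ × ℤ)} (h : Inv w O) (c : ℤ × ℤ) (i : ℕ) :
    ixv O (vx ((nx w)^[i] c)) = ixv O (vx c) := by
  induction i with
  | zero => rfl
  | succ i ih => rw [Function.iterate_succ_apply', h.ixv_nx, ih]

/-- **Nested closed strands.** -/
theorem nest {w O O' : Finset (ℤ × ℤ)} (hd : Disjoint O O') {v : ℤ × ℤ} (h1 : ixv O v = 1)
    (h2 : ixv O' v = 1) (hO : ∀ c ∈ O, ixv O' (vx c) = 0) (hO' : ∀ c ∈ O', ixv O (vx c) = 0)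
    (_hI : Inv w O) (_hI' : Inv w O') : False := by
  classical
  set q : ℕ → ℤ × ℤ := fun k => (2 * v.1 - k, 2 * v.2 + 1 + k) with hq
  have hq0 : q 0 = (2 * v.1, 2 * v.2 + 1) := by simp [hq]
  have hstep : ∀ (X : Finset (ℤ × ℤ)) (k : ℕ), S X (q k) = A X (q k) + S X (q (k + 1)) := by
    intro X k
    rw [S_step X (q k)]
    congr 2
    simp only [hq, Prod.mk.injEq]
    push_cast
    constructor <;> ring
  have hvx : ∀ (X : Finset (ℤ × ℤ)) (k : ℕ), A X (q k) = 0 →
      ixv X (vx (q k)) = S X (q k) := by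
    intro X k hA
    unfold ixv vx
    rcases Nat.even_or_odd' k with ⟨j, hj | hj⟩
    · congr 1
      simp only [hq, Prod.mk.injEq]
      constructor <;> omega
    · rw [hstep X k, hA, zero_add]
      congr 1
      simp only [hq, Prod.mk.injEq]
      constructor <;> omega
  obtain ⟨M, hM⟩ := exists_lb O
  have hex : ∃ k : ℕ, ¬ (S O (q k) = 1 ∧ S O' (q k) = 1) := by
    refine ⟨(2 * v.1 - M).toNat, ?_⟩
    rintro ⟨h3, -⟩
    rw [S_far hM (by simp only [hq]; omega)] at h3
    exact zero_ne_one h3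
  have hk := Nat.find_spec hex
  obtain ⟨k, hk1⟩ : ∃ k, Nat.find hex = k + 1 := by
    rcases Nat.eq_zero_or_pos (Nat.find hex) with h0 | h0
    · exfalso
      rw [h0, hq0] at hk
      exact hk ⟨h1, h2⟩
    · exact ⟨Nat.find hex - 1, by omega⟩
  have hk2 : S O (q k) = 1 ∧ S O' (q k) = 1 := by
    have := Nat.find_min hex (show k < Nat.find hex by omega)
    exact not_not.1 this
  rw [hk1] at hk
  have s1 := hstep O k
  have s2 := hstep O' k
  by_cases c1 : q k ∈ O
  · have c2 : q k ∉ O' := fun h => disjoint_left.1 hd c1 h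
    have a2 : A O' (q k) = 0 := if_neg c2
    have := hO _ c1
    rw [hvx O' k a2, hk2.2] at this
    exact one_ne_zero this
  · have a1 : A O (q k) = 0 := if_neg c1
    by_cases c2 : q k ∈ O'
    · have := hO' _ c2
      rw [hvx O k a1, hk2.1] at this
      exact one_ne_zero this
    · have a2 : A O' (q k) = 0 := if_neg c2
      apply hk
      rw [a1, zero_add] at s1
      rw [a2, zero_add] at s2
      exact ⟨s1.symm.trans hk2.1, s2.symm.trans hk2.2⟩

end Pool.Agent.Q1.M6b.Nest
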