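import Mathlib
import Pool.Agent.Q1.M6b.Nest
import Pool.Agent.H19.Q1.LoopBox

set_option autoImplicit false
open Finset

/-! # The number of closed strands around a vertex

All closed strands around the vertex `v`: those with all labels in `E` (`around`), a set `X` of
exceptional strands, and at most one more, if any two of the others which use a label outside `E` lie
outside one another. -/

namespace Pool.Agent.Q1.M6b.Nest

open Pool.Agent.H75.Perc Pool.Agent.H75.TwoArm Pool.Agent.H19.Q1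

/-- the closed strands around the vertex `v` -/
def Lp (w : Finset (ℤ × ℤ)) (v : ℤ × ℤ) : Set (Set (ℤ × ℤ)) :=
  {O | (∃ c, O = Set.range (fun i : ℕ => (nx w)^[i] c)) ∧ O.Finite ∧
    Odd {k : ℤ | k < 0 ∧ (2 * v.1 + k + 1, 2 * v.2 - k) ∈ O}.ncard}

lemma around_eq (w : Finset (ℤ × ℤ)) (E : Set (ℤ × ℤ)) (v : ℤ × ℤ) :
    around w E v 0 = {O | O ∈ Lp w v ∧ ∀ c ∈ O, lab c ∈ E} := by
  ext O
  unfold around Lp
  simp only [Set.mem_ofPred_eq]
  constructor
  · rintro ⟨h1, h2, h3, h4⟩; exact ⟨⟨h1, h2, h4⟩, h3⟩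
  · rintro ⟨⟨h1, h2, h4⟩, h3⟩; exact ⟨h1, h2, h3, h4⟩

lemma exists_period {w : Finset (ℤ × ℤ)} {c : ℤ × ℤ}
    (hf : (Set.range (fun i : ℕ => (nx w)^[i] c)).Finite) : ∃ p : ℕ, 0 < p ∧ (nx w)^[p] c = c := by
  have hni : ¬ Function.Injective (fun i : ℕ => (nx w)^[i] c) := fun h =>
    Set.infinite_range_of_injective h hf
  have hex : ∃ i j : ℕ, i ≠ j ∧ (nx w)^[i] c = (nx w)^[j] c := by
    by_contra h
    push Not at h
    exact hni fun i j hij => by
      by_contra hne
      exact h i j hne hij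
  obtain ⟨i, j, hij, he⟩ := hex
  rcases lt_or_gt_of_ne hij with h | h
  · refine ⟨j - i, by omega, ?_⟩
    have e1 : j = i + (j - i) := by omega
    rw [e1, Function.iterate_add_apply] at he
    exact ((nx_injective w).iterate i he).symm
  · refine ⟨i - j, by omega, ?_⟩
    have e1 : i = j + (i - j) := by omega
    rw [e1, Function.iterate_add_apply] at he
    exact (nx_injective w).iterate j he

lemma orbit_of_mem {w : Finset (ℤ × ℤ)} {O : Set (ℤ × ℤ)} {c : ℤ × ℤ}
    (hO : O = Set.range (fun i : ℕ => (nx w)^[i] c)) (hf : O.Finite) {d : ℤ × ℤ} (hd : d ∈ O) :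
    O = Set.range (fun i : ℕ => (nx w)^[i] d) := by
  obtain ⟨i, hi⟩ : ∃ i : ℕ, (nx w)^[i] c = d := by rw [hO] at hd; exact hd
  obtain ⟨p, hp, hpc⟩ := exists_period (by rw [← hO]; exact hf)
  have hmul : ∀ m : ℕ, (nx w)^[m * p] c = c := by
    intro m
    induction m with
    | zero => simp
    | succ m ih => rw [Nat.succ_mul, Function.iterate_add_apply, hpc, ih]
  rw [hO]
  ext x
  constructor
  · rintro ⟨j, rfl⟩
    refine ⟨j + i * p - i, ?_⟩
    have h1 : i ≤ j + i * p := by nlinarith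
    simp only
    rw [← hi, ← Function.iterate_add_apply, Nat.sub_add_cancel h1, Function.iterate_add_apply, hmul]
  · rintro ⟨j, rfl⟩
    refine ⟨j + i, ?_⟩
    simp only
    rw [Function.iterate_add_apply, hi]

lemma inv_of_orbit {w : Finset (ℤ × ℤ)} {O : Set (ℤ × ℤ)} {c : ℤ × ℤ}
    (hO : O = Set.range (fun i : ℕ => (nx w)^[i] c)) (hf : O.Finite) : Inv w hf.toFinset := by
  intro d
  rw [Set.Finite.mem_toFinset, Set.Finite.mem_toFinset]
  constructor
  · intro h
    have h1 := orbit_of_mem hO hf h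
    obtain ⟨p, hp, hpc⟩ := exists_period (c := nx w d) (by rw [← h1]; exact hf)
    rw [← Function.iterate_succ_apply, Function.iterate_succ_apply'] at hpc
    have h2 := nx_injective w hpc
    rw [h1]
    refine ⟨p - 1, ?_⟩
    simp only
    rw [← Function.iterate_succ_apply, Nat.succ_eq_add_one, Nat.sub_add_cancel hp]
    exact h2
  · intro h
    rw [orbit_of_mem hO hf h]
    exact ⟨1, rfl⟩

lemma odd_iff_ixv {O : Set (ℤ × ℤ)} (hf : O.Finite) (v : ℤ × ℤ) :
    Odd {k : ℤ | k < 0 ∧ (2 * v.1 + k + 1, 2 * v.2 - k) ∈ O}.ncard ↔ ixv hf.toFinset v = 1 := by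
  classical
  unfold ixv S
  have h1 : {k : ℤ | k < 0 ∧ (2 * v.1 + k + 1, 2 * v.2 - k) ∈ O}.ncard =
      (hf.toFinset.filter (fun d => d.1 + d.2 = 2 * v.1 + (2 * v.2 + 1) ∧ d.1 ≤ 2 * v.1)).card := by
    rw [← Set.ncard_coe_finset]
    refine Set.ncard_congr (fun k _ => (2 * v.1 + k + 1, 2 * v.2 - k)) ?_ ?_ ?_
    · rintro k ⟨hk, hO⟩
      rw [mem_coe, mem_filter, Set.Finite.mem_toFinset]
      exact ⟨hO, by simp only; ring, by simp only; omega⟩
    · intro a b _ _ hab
      simp only [Prod.mk.injEq] at hab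
      omega
    · intro d hd
      rw [mem_coe, mem_filter, Set.Finite.mem_toFinset] at hd
      obtain ⟨h2, h3, h4⟩ := hd
      refine ⟨d.1 - 2 * v.1 - 1, ⟨by omega, ?_⟩, ?_⟩
      · have : ((2 * v.1 + (d.1 - 2 * v.1 - 1) + 1, 2 * v.2 - (d.1 - 2 * v.1 - 1)) : ℤ × ℤ) = d := by
          refine Prod.ext ?_ ?_
          · simp only; ring
          · simp only; omega
        rw [this]; exact h2
      · refine Prod.ext ?_ ?_
        · simp only; ring
        · simp only; omega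
  rw [h1]
  simp only
  constructor
  · intro h
    obtain ⟨m, hm⟩ := h
    rw [hm]
    push_cast
    have : (2 : ZMod 2) = 0 := rfl
    rw [this, zero_mul, zero_add]
  · intro h
    rw [← Nat.not_even_iff_odd]
    intro he
    rw [(ZMod.natCast_eq_zero_iff_even).2 he] at h
    exact zero_ne_one h

/-- two closed strands are equal or disjoint -/
lemma disj_of_ne {w : Finset (ℤ × ℤ)} {O O' : Set (ℤ × ℤ)}
    (hO : ∃ c, O = Set.range (fun i : ℕ => (nx w)^[i] c))
    (hO' : ∃ c, O' = Set.range (fun i : ℕ => (nx w)^[i] c)) (hf : O.Finite) (hf' : O'.Finite)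
    (hne : O ≠ O') : Disjoint hf.toFinset hf'.toFinset := by
  obtain ⟨c, hc⟩ := hO
  obtain ⟨c', hc'⟩ := hO'
  rw [disjoint_left]
  intro d h1 h2
  rw [Set.Finite.mem_toFinset] at h1 h2
  exact hne ((orbit_of_mem hc hf h1).trans (orbit_of_mem hc' hf' h2).symm)

/-- **The number of closed strands around `v`.** -/
theorem Lp_le (w : Finset (ℤ × ℤ)) (E : Set (ℤ × ℤ)) (v : ℤ × ℤ) (X : Set (Set (ℤ × ℤ)))
    (hX : X.Finite) (ha : (around w E v 0).Finite)
    (hZ : ∀ O O', O ∈ Lp w v → O ∉ X → O' ∉ X → O ≠ O' → ∀ hO' : O' ∈ Lp w v, ∀ c ∈ O, lab c ∉ E →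
      ixv hO'.2.1.toFinset (vx c) = 0) :
    (Lp w v).Finite ∧ (Lp w v).ncard ≤ (around w E v 0).ncard + X.ncard + 1 := by
  classical
  set B : Set (Set (ℤ × ℤ)) := {O | O ∈ Lp w v ∧ O ∉ X ∧ ∃ c ∈ O, lab c ∉ E} with hB
  have hBs : B.Subsingleton := by
    rintro O ⟨h1, h2, c, hc, hcE⟩ O' ⟨h1', h2', c', hc', hcE'⟩
    by_contra hne
    have e1 := hZ O O' h1 h2 h2' hne h1' c hc hcE
    have e2 := hZ O' O h1' h2' h2 (Ne.symm hne) h1 c' hc' hcE'
    obtain ⟨a, haO⟩ := h1.1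
    obtain ⟨a', haO'⟩ := h1'.1
    have i1 := inv_of_orbit haO h1.2.1
    have i2 := inv_of_orbit haO' h1'.2.1
    refine nest (w := w) (disj_of_ne h1.1 h1'.1 h1.2.1 h1'.2.1 hne)
      ((odd_iff_ixv h1.2.1 v).1 h1.2.2) ((odd_iff_ixv h1'.2.1 v).1 h1'.2.2) ?_ ?_ i1 i2
    · intro d hd
      rw [Set.Finite.mem_toFinset, orbit_of_mem haO h1.2.1 hc] at hd
      obtain ⟨i, rfl⟩ := hd
      simp only
      rw [i2.ixv_iter, e1]
    · intro d hd
      rw [Set.Finite.mem_toFinset, orbit_of_mem haO' h1'.2.1 hc'] at hd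
      obtain ⟨i, rfl⟩ := hd
      simp only
      rw [i1.ixv_iter, e2]
  have hBf : B.Finite := hBs.finite
  have hsub : Lp w v ⊆ around w E v 0 ∪ X ∪ B := by
    intro O hO
    by_cases h1 : ∀ c ∈ O, lab c ∈ E
    · left; left; rw [around_eq]; exact ⟨hO, h1⟩
    · by_cases h2 : O ∈ X
      · left; right; exact h2
      · right
        push Not at h1
        exact ⟨hO, h2, h1⟩
  have hfin : (around w E v 0 ∪ X ∪ B).Finite := (ha.union hX).union hBf
  refine ⟨hfin.subset hsub, ?_⟩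
  calc (Lp w v).ncard ≤ (around w E v 0 ∪ X ∪ B).ncard := Set.ncard_le_ncard hsub hfin
    _ ≤ (around w E v 0 ∪ X).ncard + B.ncard := Set.ncard_union_le _ _
    _ ≤ (around w E v 0).ncard + X.ncard + B.ncard :=
        Nat.add_le_add_right (Set.ncard_union_le _ _) _
    _ ≤ _ := by
      refine Nat.add_le_add_left ?_ _
      rw [Set.ncard_le_one hBf]
      exact fun a ha b hb => hBs ha hb

end Pool.Agent.Q1.M6b.Nest
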