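import Mathlib
import Pool.Agent.Q1.M6b.Nest2
import Pool.Agent.H43.Q1.Base
import Pool.Agent.H39.Q1.Cut

set_option autoImplicit false
open Finset

/-! # The index of closed strands: clusters, outside of a box -/

namespace Pool.Agent.Q1.M6b.Nest

open Pool.Agent.H75.Perc Pool.Agent.H75.TwoArm Pool.Agent.H19.Q1 Pool.Agent.H43.Q1
open Pool.Agent.Q1 Pool.Agent.H39.Q1

/-- the index is constant on the open clusters -/
theorem Inv.ixv_co {w O : Finset (ℤ × ℤ)} (h : Inv w O) {u v : ℤ × ℤ} (hc : Co w u v) :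
    ixv O v = ixv O u := by
  induction hc with
  | refl => rfl
  | @tail b c _ hbc ih =>
    rw [← ih]
    obtain ⟨d, h1, h2, h3⟩ := exists_vx (v := b) (v' := c) (e := b + c) hbc.1 rfl
    have h4 : plab d ∈ w := by rw [h2]; exact hbc.2
    have h5 := h.ixv_nx (pv w d)
    rw [nx_pv, pv_open h4, vx_pvO, h1, h3] at h5
    exact h5.symm

/-- the index is constant on the closed clusters -/
theorem Inv.ixf_dco {w O : Finset (ℤ × ℤ)} (h : Inv w O) {f g : ℤ × ℤ} (hc : DCo w f g) :
    ixf O g = ixf O f := by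
  refine DCo.ind (P := fun x => ixf O x = ixf O f) hc rfl ?_
  intro x y hx h1 h2
  rw [← hx]
  obtain ⟨d, e1, e2, e3⟩ := exists_face (f := x) (f' := y) (e := x + y - (1, 1)) h1
    (by simp)
  have h4 : plab d ∉ w := by rw [e2]; exact h2
  have h5 := h.ixf_nx (pv w d)
  rw [nx_pv, pv_closed h4, fi_pvC, e1, e3] at h5
  exact h5.symm

/-- across a corner which is not in `O` the index does not change -/
lemma ix_across {O : Finset (ℤ × ℤ)} (h : Tile0 O) {c : ℤ × ℤ} (hc : c ∉ O) :
    ixv O (vx c) = ixf O (fi c) := by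
  have h1 := ix_corner h c
  unfold A at h1
  rw [if_neg hc] at h1
  revert h1
  generalize ixv O (vx c) = a
  generalize ixf O (fi c) = b
  revert a b
  decide

lemma S_diag {O : Finset (ℤ × ℤ)} (h : Tile0 O) {x y : ℤ} (hxy : (x + y) % 2 = 1)
    (hA : (x + 1, y) ∉ O) : S O (x, y) = S O (x + 1, y + 1) := by
  have h1 := S_tile h hxy
  unfold A at h1
  rw [if_neg hA, zero_add] at h1
  revert h1
  generalize S O (x, y) = a
  generalize S O (x + 1, y + 1) = b
  revert a b
  decide

lemma S_line {O : Finset (ℤ × ℤ)} {c : ℤ × ℤ} (h : ∀ d ∈ O, d.1 + d.2 ≠ c.1 + c.2) : S O c = 0 := by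
  unfold S
  rw [filter_eq_empty_iff.2]
  · simp
  · intro d hd h1
    exact h d hd h1.1

/-- **outside of a box which contains `O` the index is zero** -/
theorem S_out {O : Finset (ℤ × ℤ)} (h : Tile0 O) {a b p q : ℤ}
    (hO : ∀ d ∈ O, a ≤ d.1 ∧ d.1 ≤ b ∧ p ≤ d.2 ∧ d.2 ≤ q) {c : ℤ × ℤ} (hc : (c.1 + c.2) % 2 = 1)
    (hout : c.1 < a ∨ b < c.1 ∨ c.2 < p ∨ q < c.2) : S O c = 0 := by
  obtain ⟨x, y⟩ := c
  simp only at hc hout
  rcases hout with h1 | h1 | h1 | h1
  · exact S_far (M := a - 1) (fun d hd => by have := hO d hd; omega) (by simp only; omega)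
  · -- to the right of the box : move up
    have key : ∀ n : ℕ, S O (x, y) = S O (x + n, y + n) := by
      intro n
      induction n with
      | zero => simp
      | succ n ih =>
        rw [ih, S_diag h (x := x + n) (y := y + n) (by omega) (fun h2 => by
          have := (hO _ h2).2.1
          simp only at this
          omega)]
        congr 2
        · push_cast; ring
        · push_cast; ring
    obtain ⟨n, hn⟩ : ∃ n : ℕ, b + q < x + n + (y + n) := ⟨(b + q - x - y + 1).toNat, by omega⟩
    rw [key n]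
    refine S_line fun d hd => ?_
    have := hO d hd
    simp only
    omega
  · -- below the box : move down
    have key : ∀ n : ℕ, S O (x, y) = S O (x - n, y - n) := by
      intro n
      induction n with
      | zero => simp
      | succ n ih =>
        have h3 := S_diag h (x := x - n - 1) (y := y - n - 1) (by omega) (fun h2 => by
          have := (hO _ h2).2.2.1
          simp only at this
          omega)
        have e1 : (x - n - 1 + 1 : ℤ) = x - n := by ring
        have e2 : (y - n - 1 + 1 : ℤ) = y - n := by ring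
        rw [e1, e2] at h3
        rw [ih, ← h3]
        congr 2
        · push_cast; ring
        · push_cast; ring
    obtain ⟨n, hn⟩ : ∃ n : ℕ, x - n + (y - n) < a + p := ⟨(x + y - a - p + 1).toNat, by omega⟩
    rw [key n]
    refine S_line fun d hd => ?_
    have := hO d hd
    simp only
    omega
  · unfold S
    rw [filter_eq_empty_iff.2]
    · simp
    · intro d hd h2
      have := hO d hd
      simp only at h2
      omega

theorem ixv_out {O : Finset (ℤ × ℤ)} (h : Tile0 O) {a b p q : ℤ}
    (hO : ∀ d ∈ O, a ≤ d.1 ∧ d.1 ≤ b ∧ p ≤ d.2 ∧ d.2 ≤ q) {v : ℤ × ℤ}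
    (hout : 2 * v.1 < a ∨ b < 2 * v.1 ∨ 2 * v.2 + 1 < p ∨ q < 2 * v.2 + 1) : ixv O v = 0 :=
  S_out h hO (by simp only; omega) (by simpa using hout)

end Pool.Agent.Q1.M6b.Nest
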