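import Mathlib
import Pool.Agent.Q1.M6b.Nest3
import Pool.Agent.Q1.M6b.KExp

set_option autoImplicit false
open Finset

/-! # The number of closed strands around a vertex, with exceptional boxes

`Gt` : gate corners (one on every strand of the outside), `Bl i` : labels of small boxes with arbitrary
fixed labels, `G i` : labels around the box `i`, `Kv`, `Kf` : vertices and faces of the outside. -/

namespace Pool.Agent.Q1.M6b.Nest

open Pool.Agent.H75.Perc Pool.Agent.H75.TwoArm Pool.Agent.H19.Q1 Pool.Agent.H43.Q1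
open Pool.Agent.Q1 Pool.Agent.H39.Q1 Pool.Agent.H34.Q1

lemma nx_near (w : Finset (ℤ × ℤ)) (c : ℤ × ℤ) :
    |(nx w c).1 - c.1| ≤ 1 ∧ |(nx w c).2 - c.2| ≤ 1 := by
  unfold nx nxO nxC
  split_ifs <;> simp

/-- the orbit of a corner -/
def orb (w : Finset (ℤ × ℤ)) (c : ℤ × ℤ) : Set (ℤ × ℤ) := Set.range (fun i : ℕ => (nx w)^[i] c)

/-- geometry of one exceptional box -/
structure BoxGeo (w : Finset (ℤ × ℤ)) (v : ℤ × ℤ) (Gt : Finset (ℤ × ℤ)) (Bl G : Set (ℤ × ℤ))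
    (x : ℤ × ℤ) (r M : ℤ) : Prop where
  r0 : 0 ≤ r
  M0 : 0 ≤ M
  disj : Disjoint Bl G
  lab : ∀ O ∈ Lp w v, (∀ g ∈ Gt, g ∉ O) → ∀ c ∈ O,
    |c.1 - x.1| ≤ M + r + 1 → |c.2 - x.2| ≤ M + r + 1 → lab c ∈ G ∨ lab c ∈ Bl
  near : ∀ c, Pool.Agent.H75.Perc.lab c ∈ Bl → |c.1 - x.1| ≤ r ∧ |c.2 - x.2| ≤ r
  far : M + r + 1 < |2 * v.1 - x.1| ∨ M + r + 1 < |2 * v.2 + 1 - x.2|

open Classical in
lemma exists_start {w : Finset (ℤ × ℤ)} {v : ℤ × ℤ} {Gt : Finset (ℤ × ℤ)} {Bl G : Set (ℤ × ℤ)}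
    {x : ℤ × ℤ} {r M : ℤ} (hB : BoxGeo w v Gt Bl G x r M) {O : Set (ℤ × ℤ)} (hO : O ∈ Lp w v)
    (hg : ∀ g ∈ Gt, g ∉ O) {c0 : ℤ × ℤ} (hc0 : c0 ∈ O) (hl : lab c0 ∈ Bl) :
    ∃ c ∈ O, Kst (nx w) lab plab G M c ∧ |c.1 - x.1| ≤ r + 1 ∧ |c.2 - x.2| ≤ r + 1 := by
  obtain ⟨a, haO⟩ := hO.1
  have hfin := hO.2.1
  have hinv := inv_of_orbit haO hfin
  have h1 := (odd_iff_ixv hfin v).1 hO.2.2
  have horb := orbit_of_mem haO hfin hc0
  -- a far corner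
  have hex : ∃ d ∈ O, M + r + 1 < |d.1 - x.1| ∨ M + r + 1 < |d.2 - x.2| := by
    by_contra hcon
    push Not at hcon
    have h2 : ixv hfin.toFinset v = 0 := by
      refine ixv_out hinv.tile (a := x.1 - (M + r + 1)) (b := x.1 + (M + r + 1))
        (p := x.2 - (M + r + 1)) (q := x.2 + (M + r + 1)) ?_ ?_
      · intro d hd
        rw [Set.Finite.mem_toFinset] at hd
        have h3 := hcon d hd
        rw [abs_le, abs_le] at h3
        omega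
      · have h3 := hB.far
        rw [lt_abs, lt_abs] at h3
        omega
    rw [h2] at h1
    exact zero_ne_one h1
  have hexn : ∃ n : ℕ, M + r + 1 < |((nx w)^[n] c0).1 - x.1| ∨
      M + r + 1 < |((nx w)^[n] c0).2 - x.2| := by
    obtain ⟨d, hd, hd'⟩ := hex
    rw [horb] at hd
    obtain ⟨n, rfl⟩ := hd
    exact ⟨n, hd'⟩
  set n := Nat.find hexn with hn
  have hn1 := Nat.find_spec hexn
  rw [← hn] at hn1
  have hn2 : ∀ t < n, |((nx w)^[t] c0).1 - x.1| ≤ M + r + 1 ∧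
      |((nx w)^[t] c0).2 - x.2| ≤ M + r + 1 := by
    intro t ht
    have := Nat.find_min hexn ht
    push Not at this
    exact this
  have hmem : ∀ t, (nx w)^[t] c0 ∈ O := fun t => by rw [horb]; exact ⟨t, rfl⟩
  have hn0 : 0 < n := by
    by_contra h
    have h0 : n = 0 := by omega
    rw [h0] at hn1
    have h3 := hB.near c0 hl
    have := hB.M0
    simp only [Function.iterate_zero, id] at hn1
    omega
  -- last visit of the box before `n`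
  set Tn := (range n).filter (fun t => lab ((nx w)^[t] c0) ∈ Bl) with hTn
  have hT0 : (0 : ℕ) ∈ Tn := mem_filter.2 ⟨mem_range.2 hn0, by simpa using hl⟩
  set t := Tn.max' ⟨0, hT0⟩ with ht
  have htm : t ∈ Tn := Tn.max'_mem _
  obtain ⟨ht1, ht2⟩ := mem_filter.1 htm
  rw [mem_range] at ht1
  have hlast : ∀ s, t < s → s < n → lab ((nx w)^[s] c0) ∉ Bl := by
    intro s hs hsn hb
    have := Tn.le_max' s (mem_filter.2 ⟨mem_range.2 hsn, hb⟩)
    omega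
  have hnr := hB.near _ ht2
  have hstep := nx_near w ((nx w)^[t] c0)
  have hcx : |((nx w)^[t + 1] c0).1 - x.1| ≤ r + 1 ∧ |((nx w)^[t + 1] c0).2 - x.2| ≤ r + 1 := by
    rw [Function.iterate_succ_apply']
    rw [abs_le, abs_le] at hnr hstep ⊢
    omega
  refine ⟨(nx w)^[t + 1] c0, hmem _, ⟨?_, n - (t + 1), ?_, ?_⟩, hcx.1, hcx.2⟩
  · rw [Function.iterate_succ_apply', plab_nx]
    exact Set.disjoint_left.1 hB.disj ht2
  · intro s hs
    rw [← Function.iterate_add_apply]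
    have h3 := hn2 (s + (t + 1)) (by omega)
    rcases hB.lab O hO hg _ (hmem (s + (t + 1))) h3.1 h3.2 with h4 | h4
    · exact h4
    · exact absurd h4 (hlast _ (by omega) (by omega))
  · rw [← Function.iterate_add_apply, show n - (t + 1) + (t + 1) = n by omega]
    unfold FarC
    rw [le_abs, le_abs]
    rw [lt_abs, lt_abs] at hn1
    rw [abs_le, abs_le] at hcx
    omega

open Classical in
/-- **The number of closed strands around `v`.** -/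
theorem count_loops {w : Finset (ℤ × ℤ)} {E : Set (ℤ × ℤ)} {v : ℤ × ℤ} {Gt : Finset (ℤ × ℤ)}
    {m : ℕ} {Bl G : Fin m → Set (ℤ × ℤ)} {x : Fin m → ℤ × ℤ} {r M : Fin m → ℤ}
    {Wd : Fin m → Finset (ℤ × ℤ)} {Kv Kf : Set (ℤ × ℤ)} (ha : (around w E v 0).Finite)
    (hK : ∀ (O : Set (ℤ × ℤ)) (hO : O ∈ Lp w v), (∀ g ∈ Gt, g ∉ O) →
      (∀ u ∈ Kv, ixv hO.2.1.toFinset u = 0) ∧ ∀ f ∈ Kf, ixf hO.2.1.toFinset f = 0)
    (hW : ∀ O ∈ Lp w v, (∀ g ∈ Gt, g ∉ O) → ∀ c ∈ O, lab c ∉ E →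
      (∀ i, lab c ∉ Bl i) → vx c ∈ Kv ∨ fi c ∈ Kf)
    (hB : ∀ i, BoxGeo w v Gt (Bl i) (G i) (x i) (r i) (M i))
    (hWd : ∀ i c, |c.1 - (x i).1| ≤ r i + 1 → |c.2 - (x i).2| ≤ r i + 1 → c ∈ Wd i) :
    (Lp w v).Finite ∧ (Lp w v).ncard ≤ (around w E v 0).ncard +
      (Gt.card + ∑ i, (kapG (nx w) lab plab (G i) (Wd i) (M i)).card) + 1 := by
  set Kp : Finset (ℤ × ℤ) := univ.biUnion fun i => kapG (nx w) lab plab (G i) (Wd i) (M i) with hKp
  set X : Set (Set (ℤ × ℤ)) := orb w '' ((Gt ∪ Kp : Finset (ℤ × ℤ)) : Set (ℤ × ℤ)) with hX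
  have hXf : X.Finite := (Finset.finite_toSet _).image _
  have hXc : X.ncard ≤ Gt.card + ∑ i, (kapG (nx w) lab plab (G i) (Wd i) (M i)).card := by
    calc X.ncard ≤ ((Gt ∪ Kp : Finset (ℤ × ℤ)) : Set (ℤ × ℤ)).ncard :=
          Set.ncard_image_le (Finset.finite_toSet _)
      _ = (Gt ∪ Kp).card := Set.ncard_coe_finset _
      _ ≤ Gt.card + Kp.card := card_union_le _ _
      _ ≤ _ := Nat.add_le_add_left card_biUnion_le _
  have hgate : ∀ O ∈ Lp w v, O ∉ X → ∀ g ∈ Gt, g ∉ O := by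
    intro O hO hOX g hg hgO
    obtain ⟨a, haO⟩ := hO.1
    refine hOX ⟨g, ?_, (orbit_of_mem haO hO.2.1 hgO).symm⟩
    rw [mem_coe]
    exact mem_union_left _ hg
  have hball : ∀ O ∈ Lp w v, O ∉ X → ∀ c ∈ O, ∀ i, lab c ∉ Bl i := by
    intro O hO hOX c hc i hl
    obtain ⟨c1, h1, h2, h3, h4⟩ := exists_start (hB i) hO (hgate O hO hOX) hc hl
    obtain ⟨a, haO⟩ := hO.1
    refine hOX ⟨c1, ?_, (orbit_of_mem haO hO.2.1 h1).symm⟩
    rw [mem_coe]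
    refine mem_union_right _ (mem_biUnion.2 ⟨i, mem_univ _, mem_filter.2 ⟨hWd i c1 h3 h4, h2⟩⟩)
  obtain ⟨h1, h2⟩ := Lp_le w E v X hXf ha (by
    intro O O' hO hOX hOX' hne hO' c hc hcE
    obtain ⟨a, haO⟩ := hO.1
    obtain ⟨a', haO'⟩ := hO'.1
    have i1 := inv_of_orbit haO hO.2.1
    have i2 := inv_of_orbit haO' hO'.2.1
    have g1 : ∀ g ∈ Gt, g ∉ hO.2.1.toFinset := fun g hg h =>
      hgate O hO hOX g hg ((Set.Finite.mem_toFinset _).1 h)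
    have g2 : ∀ g ∈ Gt, g ∉ hO'.2.1.toFinset := fun g hg h =>
      hgate O' hO' hOX' g hg ((Set.Finite.mem_toFinset _).1 h)
    have v1 := (odd_iff_ixv hO.2.1 v).1 hO.2.2
    have v2 := (odd_iff_ixv hO'.2.1 v).1 hO'.2.2
    have k2 := hK O' hO' (hgate O' hO' hOX')
    have hcF : c ∈ hO.2.1.toFinset := (Set.Finite.mem_toFinset _).2 hc
    have hcF' : c ∉ hO'.2.1.toFinset :=
      disjoint_left.1 (disj_of_ne hO.1 hO'.1 hO.2.1 hO'.2.1 hne) hcF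
    rcases hW O hO (hgate O hO hOX) c hc hcE (hball O hO hOX c hc) with h3 | h3
    · exact k2.1 _ h3
    · rw [ix_across i2.tile hcF']; exact k2.2 _ h3)
  exact ⟨h1, h2.trans (Nat.add_le_add_right (Nat.add_le_add_left hXc _) 1)⟩

end Pool.Agent.Q1.M6b.Nest
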