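import Mathlib
import Pool.Agent.Q1.M6b.Nest4

set_option autoImplicit false
open Finset

/-! # The moment of `2 ^ N`, `N` = number of closed strands around a vertex -/

namespace Pool.Agent.Q1.M6b.Nest

open Pool.Agent.H75.Perc Pool.Agent.H75.TwoArm Pool.Agent.H19.Q1 Pool.Agent.H99.NC

lemma Ex_half_eq {α : Type*} [DecidableEq α] (E : Finset α) (f : Finset α → ℝ) :
    Ex (fun _ => (1 / 2 : ℝ)) E f = ∑ ω ∈ E.powerset, (1 / 2 : ℝ) ^ E.card * f ω := by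
  unfold Ex
  refine sum_congr rfl fun ω hω => ?_
  rw [mem_powerset] at hω
  unfold wt
  rw [prod_const, prod_const]
  have h1 : (1 : ℝ) - 1 / 2 = 1 / 2 := by norm_num
  rw [h1, ← pow_add, card_sdiff_of_subset hω, Nat.add_sub_cancel' (card_le_card hω)]

/-- the closed strands with all labels in `E` do not see the fixed open labels -/
lemma around_union {ω V : Finset (ℤ × ℤ)} {E : Set (ℤ × ℤ)} (hV : ∀ e ∈ V, e ∉ E) (v : ℤ × ℤ)
    (g : ℤ) : around (ω ∪ V) E v g = around ω E v g := by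
  have key : ∀ (w w' : Finset (ℤ × ℤ)), (∀ e ∈ E, e ∈ w ↔ e ∈ w') → around w E v g ⊆
      around w' E v g := by
    rintro w w' hw O ⟨⟨c, hc⟩, h1, h2, h3⟩
    have hnx : ∀ i : ℕ, (nx w')^[i] c = (nx w)^[i] c := by
      intro i
      induction i with
      | zero => rfl
      | succ i ih =>
        rw [Function.iterate_succ_apply', Function.iterate_succ_apply', ih]
        have h4 : lab ((nx w)^[i] c) ∈ E := h2 _ (by rw [hc]; exact ⟨i, rfl⟩)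
        generalize (nx w)^[i] c = d at h4
        unfold nx
        by_cases h5 : lab d ∈ w
        · rw [if_pos ((hw _ h4).1 h5), if_pos h5]
        · rw [if_neg (fun h => h5 ((hw _ h4).2 h)), if_neg h5]
    refine ⟨⟨c, ?_⟩, h1, h2, h3⟩
    rw [hc]
    exact congrArg Set.range (funext fun i => (hnx i).symm)
  have h6 : ∀ e ∈ E, e ∈ ω ∪ V ↔ e ∈ ω := by
    intro e he
    rw [mem_union]
    exact ⟨fun h => h.resolve_right fun h' => hV e h' he, Or.inl⟩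
  exact Set.Subset.antisymm (key _ _ h6) (key _ _ fun e he => (h6 e he).symm)

lemma pow_sum_le (l : ℕ) (κ : Fin l → ℕ) :
    (16 : ℝ) ^ (∑ i, κ i) ≤ 1 + ∑ i, ((16 : ℝ) ^ l) ^ κ i := by
  rcases Nat.eq_zero_or_pos l with rfl | hl
  · simp
  · have hne : (univ : Finset (Fin l)).Nonempty := ⟨⟨0, hl⟩, mem_univ _⟩
    obtain ⟨i0, -, hi0⟩ := exists_max_image univ κ hne
    have h1 : ∑ i, κ i ≤ l * κ i0 := by
      refine (sum_le_sum (g := fun _ => κ i0) fun i hi => hi0 i hi).trans (le_of_eq ?_)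
      rw [sum_const, card_univ, Fintype.card_fin, smul_eq_mul]
    have h2 : (16 : ℝ) ^ (∑ i, κ i) ≤ ((16 : ℝ) ^ l) ^ κ i0 := by
      rw [← pow_mul]; exact pow_le_pow_right₀ (by norm_num) h1
    have h3 : ((16 : ℝ) ^ l) ^ κ i0 ≤ ∑ i, ((16 : ℝ) ^ l) ^ κ i :=
      single_le_sum (f := fun i => ((16 : ℝ) ^ l) ^ κ i) (fun i _ => by positivity) (mem_univ i0)
    linarith

/-- **The second moment of `2 ^ N`.** -/
theorem N_moment (l c1 : ℕ) : ∃ C : ℝ, 0 < C ∧ ∀ (R : ℕ) (E : Finset (ℤ × ℤ)) (o : ℤ) (v : ℤ × ℤ),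
    (∀ e ∈ E, (e.1 + e.2) % 2 = 1) → (∀ e ∈ E, 2 * o ≤ e.1 ∧ e.1 ≤ 2 * o + 2 * R + 1) →
    ∀ (N : Finset (ℤ × ℤ) → ℕ) (κ : Fin l → Finset (ℤ × ℤ) → ℕ),
    (∀ ω, ω ⊆ E → N ω ≤ (around ω E v 0).ncard + c1 + ∑ i, κ i ω) →
    (∀ i, Ex (fun _ => (1 / 2 : ℝ)) E (fun ω => ((16 : ℝ) ^ l) ^ κ i ω) ≤ 4) →
    Ex (fun _ => (1 / 2 : ℝ)) E (fun ω => (4 : ℝ) ^ N ω) ≤ C * ((R : ℝ) + 1) ^ (25 / 32 : ℝ) := by
  obtain ⟨C0, hC0, h0⟩ := around_moment
  refine ⟨4 ^ c1 * (C0 ^ (15 : ℝ) + (1 + 4 * l)), by positivity, ?_⟩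
  intro R E o v hodd hbox N κ hN hκ
  have hq : Pb (fun _ : ℤ × ℤ => (1 / 2 : ℝ)) := fun _ => by norm_num
  set T : ℝ := ((R : ℝ) + 1) ^ (25 / 32 : ℝ) with hT
  have hR1 : (1 : ℝ) ≤ (R : ℝ) + 1 := by
    have : (0 : ℝ) ≤ R := Nat.cast_nonneg R
    linarith
  have hT1 : 1 ≤ T := Real.one_le_rpow hR1 (by norm_num)
  have hT0 : 0 < T := by linarith
  have hA := h0 R 16 (by norm_num) E o hodd hbox v 0
  rw [← Ex_half_eq] at hA
  have hTT : ((R : ℝ) + 1) ^ (5 / 48 * (16 - 1) : ℝ) = T * T := by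
    rw [hT, ← Real.rpow_add (by linarith)]
    norm_num
  rw [hTT] at hA
  have h15 : C0 ^ ((16 : ℝ) - 1) = C0 ^ (15 : ℝ) := by norm_num
  rw [h15] at hA
  have hG : Ex (fun _ => (1 / 2 : ℝ)) E (fun ω => (16 : ℝ) ^ (∑ i, κ i ω)) ≤ 1 + 4 * l := by
    refine (Ex_mono hq fun ω _ => pow_sum_le l (fun i => κ i ω)).trans ?_
    rw [Ex_add, Ex_const, Ex_sum]
    have : ∑ i : Fin l, Ex (fun _ => (1 / 2 : ℝ)) E (fun ω => ((16 : ℝ) ^ l) ^ κ i ω) ≤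
        ∑ _i : Fin l, (4 : ℝ) := sum_le_sum fun i _ => hκ i
    rw [sum_const, card_univ, Fintype.card_fin, nsmul_eq_mul] at this
    linarith
  have hpt : ∀ ω, ω ⊆ E → (4 : ℝ) ^ N ω ≤ 4 ^ c1 *
      (T⁻¹ * (16 : ℝ) ^ (around ω E v 0).ncard + T * (16 : ℝ) ^ (∑ i, κ i ω)) := by
    intro ω hω
    set a := (around ω E v 0).ncard
    set s := ∑ i, κ i ω
    have h1 : (4 : ℝ) ^ N ω ≤ 4 ^ (a + c1 + s) := pow_le_pow_right₀ (by norm_num) (hN ω hω)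
    refine h1.trans ?_
    have h2 : (4 : ℝ) ^ (a + c1 + s) = 4 ^ c1 * (4 ^ a * 4 ^ s) := by rw [pow_add, pow_add]; ring
    rw [h2]
    refine mul_le_mul_of_nonneg_left ?_ (by positivity)
    have h3 : (16 : ℝ) ^ a = (4 ^ a) ^ 2 := by rw [← pow_mul, mul_comm, pow_mul]; norm_num
    have h4 : (16 : ℝ) ^ s = (4 ^ s) ^ 2 := by rw [← pow_mul, mul_comm, pow_mul]; norm_num
    rw [h3, h4]
    set p : ℝ := 4 ^ a
    set q : ℝ := 4 ^ s
    have hp : 0 < p := by positivity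
    have hqq : 0 < q := by positivity
    have h5 : 0 ≤ T⁻¹ * (p - T * q) ^ 2 := by positivity
    have h6 : T⁻¹ * (p - T * q) ^ 2 = T⁻¹ * p ^ 2 - 2 * (p * q) + T * q ^ 2 := by
      field_simp
      ring
    nlinarith [mul_pos hp hqq]
  refine (Ex_mono hq hpt).trans ?_
  rw [Ex_smul, Ex_add, Ex_smul, Ex_smul]
  have h7 : T⁻¹ * Ex (fun _ => (1 / 2 : ℝ)) E (fun ω => (16 : ℝ) ^ (around ω E v 0).ncard) ≤
      C0 ^ (15 : ℝ) * T := by
    refine (mul_le_mul_of_nonneg_left hA (by positivity)).trans (le_of_eq ?_)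
    field_simp
  have h8 : T * Ex (fun _ => (1 / 2 : ℝ)) E (fun ω => (16 : ℝ) ^ (∑ i, κ i ω)) ≤ T * (1 + 4 * l) :=
    mul_le_mul_of_nonneg_left hG hT0.le
  have h9 : (0 : ℝ) < 4 ^ c1 := by positivity
  nlinarith

end Pool.Agent.Q1.M6b.Nest
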