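import Mathlib
import Pool.Agent.Q1.M6b.Taylor

set_option autoImplicit false
open Finset Metric Filter Topology

/-! # Taylor coefficients of the amplitudes of the rows: one function -/

namespace Pool.Agent.Q1.M6b.Tay

/-- `V` has an expansion in functions `mn n` of `z R ^ (-2/3)` which vanish of order `deg n`, with
coefficients of size at most `C R ^ (2/3 deg n + s)`, for the orders `≤ m`; at most `c` terms of order
`≤ m`. -/
structure TExp (V : ℂ → ℂ) (R ρ s : ℝ) (m c : ℕ) (B C : ℝ) (Idx : Type*) where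
  /-- the indices -/
  I : Finset Idx
  /-- the orders -/
  deg : Idx → ℕ
  /-- the functions -/
  mn : Idx → ℂ → ℂ
  /-- the coefficients -/
  H : Idx → ℂ
  eq : ∀ᶠ z in 𝓝 (0 : ℂ), V z =
      (R ^ (-(2 / 3) : ℝ) : ℝ) * ∑ n ∈ I, mn n (z * (R ^ (-(2 / 3) : ℝ) : ℝ)) * H n
  diff : ∀ n ∈ I, DifferentiableOn ℂ (mn n) (ball 0 ρ)
  bd : ∀ n ∈ I, ∃ B', ∀ z ∈ ball (0 : ℂ) ρ, ‖mn n z‖ ≤ B' * ‖z‖ ^ deg n
  card : (I.filter (fun n => deg n ≤ m)).card ≤ c
  bd1 : ∀ n ∈ I, deg n ≤ m → ∀ z ∈ ball (0 : ℂ) ρ, ‖mn n z‖ ≤ B * ‖z‖ ^ deg n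
  bd2 : ∀ n ∈ I, deg n ≤ m → ‖H n‖ ≤ C * R ^ ((2 / 3 : ℝ) * deg n + s)

/-- the bound of one Taylor coefficient -/
theorem taylor_one {V : ℂ → ℂ} {R ρ s : ℝ} {m c : ℕ} {B C : ℝ} {Idx : Type*}
    (T : TExp V R ρ s m c B C Idx) (hB : 0 ≤ B) (hC : 0 ≤ C) (hR : 1 ≤ R)
    (he3 : R ^ (-(2 / 3) : ℝ) < ρ / 2) :
    ‖iteratedDeriv m V 0‖ ≤ m.factorial * (c * (B * 2 ^ m * C) * R ^ (s - 2 / 3)) := by
  classical
  obtain ⟨I, deg, mn, H, h5, hd, hbd, hcard, hb1, hb2⟩ := T
  have hRp : 0 < R := by linarith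
  set e : ℝ := R ^ (-(2 / 3) : ℝ) with he
  have he0 : 0 < e := Real.rpow_pos_of_pos hRp _
  have hball : ∀ z ∈ ball (0 : ℂ) 2, z * (e : ℂ) ∈ ball (0 : ℂ) ρ := by
    intro z hz
    rw [mem_ball_zero_iff] at hz ⊢
    rw [norm_mul, Complex.norm_real, Real.norm_eq_abs, abs_of_pos he0]
    calc ‖z‖ * e ≤ 2 * e := mul_le_mul_of_nonneg_right hz.le he0.le
      _ < ρ := by linarith
  have hnorm : ∀ (z : ℂ), ‖z * (e : ℂ)‖ = ‖z‖ * e := by
    intro z
    rw [norm_mul, Complex.norm_real, Real.norm_eq_abs, abs_of_pos he0]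
  choose! B' hB' using hbd
  have hterm : ∀ n ∈ I, ∀ z ∈ ball (0 : ℂ) 2, ‖mn n (z * (e : ℂ)) * H n‖ ≤
      |B' n| * (‖z‖ ^ deg n * e ^ deg n) * ‖H n‖ := by
    intro n hn z hz
    rw [norm_mul]
    refine mul_le_mul_of_nonneg_right ?_ (norm_nonneg _)
    refine (hB' n hn _ (hball z hz)).trans ?_
    rw [hnorm, mul_pow]
    exact mul_le_mul_of_nonneg_right (le_abs_self _) (by positivity)
  have hdiff : ∀ T : Finset Idx, T ⊆ I → DifferentiableOn ℂ
      (fun z => (e : ℂ) * ∑ n ∈ T, mn n (z * (e : ℂ)) * H n) (ball 0 2) := by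
    intro T hT
    refine (DifferentiableOn.fun_sum fun n hn => ?_).const_mul _
    refine DifferentiableOn.mul_const ?_ _
    exact (hd n (hT hn)).comp ((differentiable_id.mul_const _).differentiableOn) fun z hz =>
      hball z hz
  set I1 := I.filter (fun n => deg n ≤ m) with hI1
  set I2 := I.filter (fun n => ¬ deg n ≤ m) with hI2
  have key := taylor_bound (V := V) (m := m) (C := c * (B * 2 ^ m * C) * R ^ (s - 2 / 3))
    (D := e * ∑ n ∈ I2, |B' n| * (2 ^ (deg n - (m + 1)) * e ^ deg n) * ‖H n‖)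
    (P := fun z => (e : ℂ) * ∑ n ∈ I1, mn n (z * (e : ℂ)) * H n)
    (Q := fun z => (e : ℂ) * ∑ n ∈ I2, mn n (z * (e : ℂ)) * H n) ?_ (hdiff I1 (filter_subset _ _)) ?_
    (hdiff I2 (filter_subset _ _)) ?_
  · exact key
  · filter_upwards [h5] with z hz
    rw [hz, ← mul_add, sum_filter_add_sum_filter_not]
  · intro z hz
    rw [norm_mul, Complex.norm_real, Real.norm_eq_abs, abs_of_pos he0]
    have hz2 : ‖z‖ ≤ 2 := (mem_ball_zero_iff.1 hz).le
    have a1 : ‖∑ n ∈ I1, mn n (z * (e : ℂ)) * H n‖ ≤ c * (B * 2 ^ m * C) * R ^ s := by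
      calc ‖∑ n ∈ I1, mn n (z * (e : ℂ)) * H n‖ ≤ ∑ n ∈ I1, ‖mn n (z * (e : ℂ)) * H n‖ :=
            norm_sum_le _ _
        _ ≤ ∑ n ∈ I1, B * 2 ^ m * C * R ^ s := by
            refine sum_le_sum fun n hn => ?_
            obtain ⟨hn1, hn2⟩ := mem_filter.1 hn
            have b0 : ‖mn n (z * (e : ℂ))‖ ≤ B * (2 ^ m * e ^ deg n) := by
              refine (hb1 n hn1 hn2 _ (hball z hz)).trans (mul_le_mul_of_nonneg_left ?_ hB)
              rw [hnorm, mul_pow]
              refine mul_le_mul_of_nonneg_right ?_ (by positivity)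
              exact (pow_le_pow_left₀ (norm_nonneg _) hz2 _).trans
                (pow_le_pow_right₀ (by norm_num) hn2)
            have b1 : ‖H n‖ ≤ C * (R ^ ((2 / 3 : ℝ) * deg n) * R ^ s) := by
              rw [← Real.rpow_add hRp]
              exact hb2 n hn1 hn2
            have b2 : e ^ deg n * R ^ ((2 / 3 : ℝ) * deg n) = 1 := by
              rw [he, ← Real.rpow_natCast, ← Real.rpow_mul hRp.le, ← Real.rpow_add hRp]
              have : -(2 / 3 : ℝ) * (deg n : ℝ) + 2 / 3 * (deg n : ℝ) = 0 := by ring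
              rw [this, Real.rpow_zero]
            rw [norm_mul]
            calc ‖mn n (z * (e : ℂ))‖ * ‖H n‖
                ≤ (B * (2 ^ m * e ^ deg n)) * (C * (R ^ ((2 / 3 : ℝ) * deg n) * R ^ s)) :=
                  mul_le_mul b0 b1 (norm_nonneg _) (by positivity)
              _ = B * 2 ^ m * C * R ^ s * (e ^ deg n * R ^ ((2 / 3 : ℝ) * deg n)) := by ring
              _ = _ := by rw [b2, mul_one]
        _ = (I1.card : ℝ) * (B * 2 ^ m * C * R ^ s) := by rw [sum_const, nsmul_eq_mul]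
        _ ≤ (c : ℝ) * (B * 2 ^ m * C * R ^ s) := by
            refine mul_le_mul_of_nonneg_right ?_ (by positivity)
            exact_mod_cast hcard
        _ = _ := by ring
    calc e * ‖∑ n ∈ I1, mn n (z * (e : ℂ)) * H n‖
        ≤ e * (c * (B * 2 ^ m * C) * R ^ s) := mul_le_mul_of_nonneg_left a1 he0.le
      _ = c * (B * 2 ^ m * C) * (e * R ^ s) := by ring
      _ = _ := by
          rw [he, ← Real.rpow_add hRp]
          congr 2
          ring
  · intro z hz
    rw [norm_mul, Complex.norm_real, Real.norm_eq_abs, abs_of_pos he0]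
    have hz2 : ‖z‖ ≤ 2 := (mem_ball_zero_iff.1 hz).le
    rw [mul_assoc e]
    refine mul_le_mul_of_nonneg_left ?_ he0.le
    rw [sum_mul]
    refine (norm_sum_le _ _).trans (sum_le_sum fun n hn => ?_)
    obtain ⟨hn1, hn'⟩ := mem_filter.1 hn
    refine (hterm n hn1 z hz).trans ?_
    have b4 : ‖z‖ ^ deg n ≤ 2 ^ (deg n - (m + 1)) * ‖z‖ ^ (m + 1) := by
      have b5 : deg n = (deg n - (m + 1)) + (m + 1) := by omega
      conv_lhs => rw [b5, pow_add]
      exact mul_le_mul_of_nonneg_right (pow_le_pow_left₀ (norm_nonneg _) hz2 _) (by positivity)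
    calc |B' n| * (‖z‖ ^ deg n * e ^ deg n) * ‖H n‖
        ≤ |B' n| * (2 ^ (deg n - (m + 1)) * ‖z‖ ^ (m + 1) * e ^ deg n) * ‖H n‖ := by
          refine mul_le_mul_of_nonneg_right ?_ (norm_nonneg _)
          exact mul_le_mul_of_nonneg_left (mul_le_mul_of_nonneg_right b4 (by positivity))
            (abs_nonneg _)
      _ = _ := by ring

/-- the difference of two expansions -/
def TExp.sub {V V' : ℂ → ℂ} {R ρ s : ℝ} {m c c' : ℕ} {B C : ℝ} {Idx Idx' : Type*}
    (T : TExp V R ρ s m c B C Idx) (T' : TExp V' R ρ s m c' B C Idx') :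
    TExp (fun z => V z - V' z) R ρ s m (c + c') B C (Idx ⊕ Idx') where
  I := T.I.disjSum T'.I
  deg := Sum.elim T.deg T'.deg
  mn := Sum.elim T.mn T'.mn
  H := Sum.elim T.H (fun n => -T'.H n)
  eq := by
    filter_upwards [T.eq, T'.eq] with z h1 h2
    rw [h1, h2, sum_disjSum, mul_add]
    simp only [Sum.elim_inl, Sum.elim_inr, mul_neg, sum_neg_distrib]
    ring
  diff := by
    rintro (n | n) hn
    · exact T.diff n (by simpa using hn)
    · exact T'.diff n (by simpa using hn)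
  bd := by
    rintro (n | n) hn
    · exact T.bd n (by simpa using hn)
    · exact T'.bd n (by simpa using hn)
  card := by
    classical
    have e1 : (T.I.disjSum T'.I).filter (fun n => Sum.elim T.deg T'.deg n ≤ m) =
        (T.I.filter (fun n => T.deg n ≤ m)).disjSum (T'.I.filter (fun n => T'.deg n ≤ m)) := by
      ext (n | n) <;> simp
    rw [e1, card_disjSum]
    exact Nat.add_le_add T.card T'.card
  bd1 := by
    rintro (n | n) hn h
    · exact T.bd1 n (by simpa using hn) h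
    · exact T'.bd1 n (by simpa using hn) h
  bd2 := by
    rintro (n | n) hn h
    · exact T.bd2 n (by simpa using hn) h
    · simp only [Sum.elim_inr, norm_neg]
      exact T'.bd2 n (by simpa using hn) h

end Pool.Agent.Q1.M6b.Tay
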