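import Mathlib
import Pool.Agent.Q1.M6b.Taylor2
import Pool.Agent.H76.Sp.RowK

set_option autoImplicit false
open Finset Metric Filter Topology

/-! # The Taylor coefficients of the increments of a row -/

namespace Pool.Agent.Q1.M6b.Tay

open Pool.Agent.H75.Perc hiding AR VV
open Pool.Agent.H75.TwoArm hiding EF
open Pool.Agent.H99.NC
open Pool.Agent.Q1 Pool.Agent.H33.Q1
open Pool.Agent.H81.G1 Pool.Agent.Q1.M6b.Gd Pool.Agent.H76.R45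
open Pool.Agent.H30.Mid Pool.Agent.H76.Sp

variable {K : Type*} [Fintype K] [DecidableEq K]

/-- the order of a coefficient -/
def rdeg (n : ℕ × (K → ℕ) × Finset (ℤ × ℤ)) : ℕ := n.1 + ∑ k, n.2.1 k

/-- **An expansion in couplings** as a function of `z`, `t = z R ^ (-2/3)`. -/
theorem texp_abs {G : ℂ → ℂ} {C : Finset (ℤ × ℤ)} {Nm Nl : ℕ} {q : ℂ → ℤ × ℤ → ℂ} {ka rr : ℂ → ℂ}
    {lam : K → ℂ → ℂ} {Hc : ℕ → (K → ℕ) → Finset (ℤ × ℤ) → ℂ} {ρ : ℝ} (hρ : 0 < ρ)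
    (hG : ∀ t ∈ ball (0 : ℂ) ρ, G t =
      ∑ m ∈ range Nm, ∑ l ∈ IL K Nl, ∑ s ∈ C.powerset,
        ka t ^ m * (∏ k, lam k t ^ l k) * ((∏ e ∈ s, q t e) * ∏ e ∈ C \ s, (1 - q t e)) * Hc m l s)
    {b : ℝ} (hb1 : 1 ≤ b) (nr : ∀ t ∈ ball (0 : ℂ) ρ, ‖rr t‖ ≤ b)
    (nka : ∀ t ∈ ball (0 : ℂ) ρ, ‖ka t‖ ≤ b * ‖t‖)
    (nlam : ∀ k, ∀ t ∈ ball (0 : ℂ) ρ, ‖lam k t‖ ≤ b * ‖t‖)
    (nq : ∀ e ∈ C, ∀ t ∈ ball (0 : ℂ) ρ, ‖q t e‖ ≤ b ∧ ‖1 - q t e‖ ≤ b)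
    (dr : DifferentiableOn ℂ rr (ball 0 ρ)) (dka : DifferentiableOn ℂ ka (ball 0 ρ))
    (dlam : ∀ k, DifferentiableOn ℂ (lam k) (ball 0 ρ))
    (dq : ∀ e ∈ C, DifferentiableOn ℂ (fun t => q t e) (ball 0 ρ))
    {g : ℂ} (hg : ‖g‖ ≤ 1) {m c : ℕ} (hC : C.card ≤ c) {R s Cs : ℝ}
    (hH : ∀ (m' : ℕ) (l : K → ℕ), m' + ∑ k, l k ≤ m → ∀ σ, σ ⊆ C →
      ‖Hc m' l σ‖ ≤ Cs * R ^ ((2 / 3 : ℝ) * ((m' + ∑ k, l k : ℕ) : ℝ) + s)) :
    Nonempty (TExp (fun z : ℂ => ((R ^ (-(2 / 3) : ℝ) : ℝ) : ℂ) *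
      (rr (z * ((R ^ (-(2 / 3) : ℝ) : ℝ) : ℂ)) *
        (g * G (z * ((R ^ (-(2 / 3) : ℝ) : ℝ) : ℂ))))) R ρ s m
      ((m + 1) * (m + 1) ^ Fintype.card K * 2 ^ c) (b ^ (1 + m + c)) Cs
      (ℕ × (K → ℕ) × Finset (ℤ × ℤ))) := by
  classical
  have hb0 : 0 ≤ b := by linarith
  have bound : ∀ s ∈ C.powerset, ∀ t ∈ ball (0 : ℂ) ρ, ∀ (m' : ℕ) (l : K → ℕ),
      ‖rr t * (ka t ^ m' * (∏ k, lam k t ^ l k) *
        ((∏ e ∈ s, q t e) * ∏ e ∈ C \ s, (1 - q t e)))‖ ≤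
      b ^ (1 + (m' + ∑ k, l k) + c) * ‖t‖ ^ (m' + ∑ k, l k) := by
    intro s hs t ht m' l
    have hsC := mem_powerset.1 hs
    rw [norm_mul, norm_mul, norm_mul, norm_mul, norm_pow, norm_prod, norm_prod, norm_prod]
    have e1 : ‖ka t‖ ^ m' ≤ (b * ‖t‖) ^ m' := pow_le_pow_left₀ (norm_nonneg _) (nka t ht) _
    have e2 : ∏ k, ‖lam k t ^ l k‖ ≤ (b * ‖t‖) ^ (∑ k, l k) := by
      rw [← prod_pow_eq_pow_sum]
      refine Finset.prod_le_prod (fun k _ => norm_nonneg _) fun k _ => ?_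
      rw [norm_pow]
      exact pow_le_pow_left₀ (norm_nonneg _) (nlam k t ht) _
    have e3 : ∏ e ∈ s, ‖q t e‖ ≤ b ^ s.card := by
      refine (Finset.prod_le_prod (fun e _ => norm_nonneg _) fun e he => (nq e (hsC he) t ht).1).trans ?_
      rw [prod_const]
    have e4 : ∏ e ∈ C \ s, ‖1 - q t e‖ ≤ b ^ (C \ s).card := by
      refine (Finset.prod_le_prod (fun e _ => norm_nonneg _) fun e he =>
        (nq e (Finset.mem_sdiff.1 he).1 t ht).2).trans ?_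
      rw [prod_const]
    have e5 : (∏ e ∈ s, ‖q t e‖) * ∏ e ∈ C \ s, ‖1 - q t e‖ ≤ b ^ c := by
      refine (mul_le_mul e3 e4 (prod_nonneg fun e _ => norm_nonneg _) (by positivity)).trans ?_
      rw [← pow_add]
      refine pow_le_pow_right₀ hb1 ?_
      have := card_sdiff_add_card_eq_card hsC
      omega
    calc ‖rr t‖ * (‖ka t‖ ^ m' * (∏ k, ‖lam k t ^ l k‖) *
          ((∏ e ∈ s, ‖q t e‖) * ∏ e ∈ C \ s, ‖1 - q t e‖))
        ≤ b * ((b * ‖t‖) ^ m' * (b * ‖t‖) ^ (∑ k, l k) * b ^ c) := by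
          refine mul_le_mul (nr t ht) ?_ (by positivity) hb0
          refine mul_le_mul ?_ e5 (by positivity) (by positivity)
          exact mul_le_mul e1 e2 (by positivity) (by positivity)
      _ = _ := by
          rw [mul_pow, mul_pow, pow_add, pow_add, pow_add, pow_add]
          ring
  refine ⟨{
    I := range Nm ×ˢ (IL K Nl ×ˢ C.powerset)
    deg := rdeg
    mn := fun n t => rr t * (ka t ^ n.1 * (∏ k, lam k t ^ n.2.1 k) *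
        ((∏ e ∈ n.2.2, q t e) * ∏ e ∈ C \ n.2.2, (1 - q t e)))
    H := fun n => g * Hc n.1 n.2.1 n.2.2
    eq := ?_
    diff := ?_
    bd := ?_
    card := ?_
    bd1 := ?_
    bd2 := ?_ }⟩
  · have hcont : Tendsto (fun z : ℂ => z * ((R ^ (-(2 / 3) : ℝ) : ℝ) : ℂ)) (𝓝 0) (𝓝 0) := by
      have h0 : Continuous (fun z : ℂ => z * ((R ^ (-(2 / 3) : ℝ) : ℝ) : ℂ)) :=
        continuous_id.mul continuous_const
      have := h0.tendsto (0 : ℂ)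
      simpa using this
    filter_upwards [hcont.eventually (ball_mem_nhds _ hρ)] with z hz
    congr 1
    rw [hG _ hz, sum_product,
      mul_sum, mul_sum]
    refine sum_congr rfl fun m' _ => ?_
    rw [sum_product, mul_sum, mul_sum]
    refine sum_congr rfl fun l _ => ?_
    rw [mul_sum, mul_sum]
    refine sum_congr rfl fun s _ => ?_
    ring
  · rintro ⟨m', l, s⟩ hn
    have hs : s ⊆ C := by
      simp only [mem_product, mem_powerset] at hn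
      exact hn.2.2
    simp only
    refine dr.fun_mul (DifferentiableOn.fun_mul (DifferentiableOn.fun_mul (dka.fun_pow _) ?_) ?_)
    · exact DifferentiableOn.fun_finsetProd fun k _ => (dlam k).fun_pow _
    · refine DifferentiableOn.fun_mul ?_ ?_
      · exact DifferentiableOn.fun_finsetProd fun e he => dq e (hs he)
      · exact DifferentiableOn.fun_finsetProd fun e he => (dq e (Finset.mem_sdiff.1 he).1).const_sub 1
  · rintro ⟨m', l, s⟩ hn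
    simp only [mem_product] at hn
    exact ⟨_, fun z hz => bound s hn.2.2 z hz m' l⟩
  · have hsub : (range Nm ×ˢ (IL K Nl ×ˢ C.powerset)).filter
        (fun n => rdeg n ≤ m) ⊆ range (m + 1) ×ˢ (IL K (m + 1) ×ˢ C.powerset) := by
      rintro ⟨m', l, s⟩ hn
      simp only [mem_filter, mem_product, rdeg] at hn
      simp only [mem_product, mem_range, mem_IL]
      refine ⟨by omega, fun k => ?_, hn.1.2.2⟩
      have h1 : l k ≤ ∑ k, l k := single_le_sum (fun _ _ => Nat.zero_le _) (mem_univ k)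
      omega
    refine (card_le_card hsub).trans ?_
    rw [card_product, card_product, card_range, card_powerset]
    have h2 : (IL K (m + 1)).card = (m + 1) ^ Fintype.card K := by
      unfold IL
      rw [Fintype.card_piFinset, prod_const, card_range, card_univ]
    rw [h2, ← mul_assoc]
    exact Nat.mul_le_mul_left _ (Nat.pow_le_pow_right (by norm_num) hC)
  · rintro ⟨m', l, s⟩ hn hm z hz
    simp only [mem_product] at hn
    refine (bound s hn.2.2 z hz m' l).trans ?_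
    unfold rdeg at hm ⊢
    simp only at hm ⊢
    refine mul_le_mul_of_nonneg_right ?_ (by positivity)
    exact pow_le_pow_right₀ hb1 (by omega)
  · rintro ⟨m', l, s⟩ hn hm
    simp only [mem_product, mem_powerset] at hn
    have h1 := hH m' l hm s hn.2.2
    simp only
    rw [norm_mul]
    calc ‖g‖ * ‖Hc m' l s‖ ≤ 1 * ‖Hc m' l s‖ :=
          mul_le_mul_of_nonneg_right hg (norm_nonneg _)
      _ = ‖Hc m' l s‖ := one_mul _
      _ ≤ _ := h1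

/-- **The expansion of the increments of a row** as a function of `z`, `t = z R ^ (-2/3)`. -/
theorem texp_row {N : ℕ} {X : Env} {x0 y0 : ℤ} (hrow : HasRow X N x0 y0)
    {C A Bk : Finset (ℤ × ℤ)} {kd : ℤ × ℤ → K} (hE : X.E \ RS N x0 y0 = C ∪ (A ∪ Bk))
    (hd1 : Disjoint C (A ∪ Bk)) (hd2 : Disjoint A Bk) {q : ℂ → ℤ × ℤ → ℂ} {ka rr : ℂ → ℂ}
    {lam : K → ℂ → ℂ} {ρ : ℝ} (hρ : 0 < ρ)
    (ha : ∀ t ∈ ball (0 : ℂ) ρ, ∀ c, wA (rl (N := N) x0 y0) (rp x0 y0) (q t) c = zt ^ (4 : ℤ) + ka t)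
    (hb : ∀ t ∈ ball (0 : ℂ) ρ, ∀ c, wB (rl (N := N) x0 y0) (rp x0 y0) (q t) c = zt ^ (-4 : ℤ) - ka t)
    (hT : ∀ t ∈ ball (0 : ℂ) ρ, ∀ e ∈ A, q t e = lam (kd e) t)
    (hB : ∀ t ∈ ball (0 : ℂ) ρ, ∀ e ∈ Bk, q t e = 1 / 2)
    {b : ℝ} (hb1 : 1 ≤ b) (nr : ∀ t ∈ ball (0 : ℂ) ρ, ‖rr t‖ ≤ b)
    (nka : ∀ t ∈ ball (0 : ℂ) ρ, ‖ka t‖ ≤ b * ‖t‖)
    (nlam : ∀ k, ∀ t ∈ ball (0 : ℂ) ρ, ‖lam k t‖ ≤ b * ‖t‖)
    (nq : ∀ e ∈ C, ∀ t ∈ ball (0 : ℂ) ρ, ‖q t e‖ ≤ b ∧ ‖1 - q t e‖ ≤ b)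
    (dr : DifferentiableOn ℂ rr (ball 0 ρ)) (dka : DifferentiableOn ℂ ka (ball 0 ρ))
    (dlam : ∀ k, DifferentiableOn ℂ (lam k) (ball 0 ρ))
    (dq : ∀ e ∈ C, DifferentiableOn ℂ (fun t => q t e) (ball 0 ρ))
    (y : Fin N × Dir) {g : ℂ} (hg : ‖g‖ ≤ 1) {m c : ℕ} (hC : C.card ≤ c) {R s Cs : ℝ}
    (hH : ∀ (m' : ℕ) (l : K → ℕ), m' + ∑ k, l k ≤ m → ∀ σ, σ ⊆ C →
      ‖HK X x0 y0 y A kd Bk m' l σ‖ ≤ Cs * R ^ ((2 / 3 : ℝ) * ((m' + ∑ k, l k : ℕ) : ℝ) + s)) :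
    Nonempty (TExp (fun z : ℂ => ((R ^ (-(2 / 3) : ℝ) : ℝ) : ℂ) *
      (rr (z * ((R ^ (-(2 / 3) : ℝ) : ℝ) : ℂ)) *
        (g * X.incW (q (z * ((R ^ (-(2 / 3) : ℝ) : ℝ) : ℂ))) (rcr x0 y0 y)))) R ρ s m
      ((m + 1) * (m + 1) ^ Fintype.card K * 2 ^ c) (b ^ (1 + m + c)) Cs
      (ℕ × (K → ℕ) × Finset (ℤ × ℤ))) :=
  texp_abs (G := fun t => X.incW (q t) (rcr x0 y0 y)) (Nm := N + 1) (Nl := A.card + 1)
    (Hc := HK X x0 y0 y A kd Bk) hρ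
    (fun t ht => incW_expandK (lam := fun k => lam k t) hrow (ha t ht) (hb t ht) hE hd1 hd2 (hT t ht)
      (hB t ht) y) hb1 nr nka nlam nq dr dka dlam dq hg hC hH

end Pool.Agent.Q1.M6b.Tay
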