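import Mathlib
import Pool.Agent.Q1.M6b.WtsW
import Pool.Agent.H42.Sp.TieEnv
import Pool.Agent.H42.Sp.TieVal

set_option autoImplicit false
open Finset Metric

/-! # The weights of the tied forms of the windows as functions of `t` -/

namespace Pool.Agent.Q1.M6b.ABW

open Pool.Agent.Q1 Pool.Agent.H74.R45 Pool.Agent.H40.R45 Pool.Agent.H64.Q1
open Pool.Agent.H33.Q1 Pool.Agent.H13.Q1
open Pool.Agent.H46.Sp (Win)
open Pool.Agent.H46.Sp.Win (wal)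
open Pool.Agent.H42.Sp (Ix CP kt rt qTp)

section diff

variable {S : Set ℂ} {a b c : ℂ → ℂ}

lemma wal_diff' {w : ℂ → ℂ} (hw : DifferentiableOn ℂ w S) (x y : ℤ) :
    DifferentiableOn ℂ (fun z => wal x y (w z)) S := by
  unfold wal
  split_ifs
  · exact hw
  · exact hw.const_sub 1

lemma qJ_diff (D : Win) (j : ℤ) (ha : DifferentiableOn ℂ a S) (hb : DifferentiableOn ℂ b S)
    (hc : DifferentiableOn ℂ c S) (e : ℤ × ℤ) :
    DifferentiableOn ℂ (fun z => D.qJ j (a z) (b z) (c z) e) S := by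
  unfold Pool.Agent.H46.Sp.Win.qJ
  split_ifs
  · exact wal_diff' (hb.const_sub 1) _ _
  · exact wal_diff' (hc.const_sub 1) _ _
  · exact wal_diff' (hc.const_sub 1) _ _
  · exact wal_diff' (hb.const_sub 1) _ _
  · exact wal_diff' ha _ _
  · exact wal_diff' (((ha.const_sub 1).fun_mul hb).const_sub 1) _ _
  · exact wal_diff' ha _ _
  · exact wal_diff' ((hc.const_sub 1).fun_mul ha) _ _
  · exact wal_diff' ha _ _
  · exact differentiableOn_const _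
  · exact wal_diff' (ha.fun_mul (hc.const_sub 1)) _ _
  · exact wal_diff' ha _ _
  · exact wal_diff' ((hb.fun_mul (ha.const_sub 1)).const_sub 1) _ _
  · exact wal_diff' ha _ _
  · exact differentiableOn_const _

lemma mg_diff (o : Bool) {x y : ℂ → ℂ} (hx : DifferentiableOn ℂ x S)
    (hy : DifferentiableOn ℂ y S) : DifferentiableOn ℂ (fun z => mg o (x z) (y z)) S := by
  unfold mg
  split_ifs
  · exact hx.fun_mul hy
  · exact ((hx.const_sub 1).fun_mul (hy.const_sub 1)).const_sub 1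

lemma qTp_diff (D : Win) (j : ℤ) (P : Finset Ix) (ha : DifferentiableOn ℂ a S)
    (hb : DifferentiableOn ℂ b S) (hc : DifferentiableOn ℂ c S) (e : ℤ × ℤ) :
    DifferentiableOn ℂ (fun z => qTp D j P (a z) (b z) (c z) e) S := by
  unfold qTp
  split_ifs
  · exact mg_diff _ (qJ_diff D j ha hb hc _) (qJ_diff D j ha hb hc _)
  · exact qJ_diff D j ha hb hc _

end diff

section norm

variable {a b c w x y : ℂ}

lemma n_sub1 {B : ℝ} (h : ‖w‖ ≤ B) : ‖1 - w‖ ≤ 1 + B :=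
  (norm_sub_le _ _).trans (by rw [norm_one]; linarith)

lemma n_mul {B B' : ℝ} (h : ‖x‖ ≤ B) (h' : ‖y‖ ≤ B') (hB : 0 ≤ B) : ‖x * y‖ ≤ B * B' := by
  rw [norm_mul]
  exact mul_le_mul h h' (norm_nonneg _) hB

lemma n_wal {B : ℝ} (h : ‖w‖ ≤ B) (i k : ℤ) : ‖wal i k w‖ ≤ 1 + B := by
  unfold wal
  split_ifs
  · linarith
  · exact n_sub1 h

lemma norm_qJ (D : Win) (j : ℤ) (ha : ‖a‖ ≤ 4) (hb : ‖b‖ ≤ 4) (hc : ‖c‖ ≤ 4) (e : ℤ × ℤ) :
    ‖D.qJ j a b c e‖ ≤ 22 := by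
  have h1 : ∀ {w : ℂ}, ‖w‖ ≤ 4 → ‖1 - w‖ ≤ 5 := fun h => (n_sub1 h).trans (by norm_num)
  have h2 : ∀ {w : ℂ} (i k : ℤ), ‖w‖ ≤ 21 → ‖wal i k w‖ ≤ 22 := fun i k h =>
    (n_wal h i k).trans (by norm_num)
  have h3 : ∀ {x y : ℂ}, ‖x‖ ≤ 5 → ‖y‖ ≤ 4 → ‖x * y‖ ≤ 20 := fun h h' =>
    (n_mul h h' (by norm_num)).trans (by norm_num)
  have h3' : ∀ {x y : ℂ}, ‖x‖ ≤ 4 → ‖y‖ ≤ 5 → ‖x * y‖ ≤ 20 := fun h h' =>
    (n_mul h h' (by norm_num)).trans (by norm_num)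
  have h4 : ∀ {w : ℂ}, ‖w‖ ≤ 20 → ‖1 - w‖ ≤ 21 := fun h => (n_sub1 h).trans (by norm_num)
  unfold Pool.Agent.H46.Sp.Win.qJ
  split_ifs
  · exact h2 _ _ ((h1 hb).trans (by norm_num))
  · exact h2 _ _ ((h1 hc).trans (by norm_num))
  · exact h2 _ _ ((h1 hc).trans (by norm_num))
  · exact h2 _ _ ((h1 hb).trans (by norm_num))
  · exact h2 _ _ (ha.trans (by norm_num))
  · exact h2 _ _ (h4 (h3 (h1 ha) hb))
  · exact h2 _ _ (ha.trans (by norm_num))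
  · exact h2 _ _ ((h3 (h1 hc) ha).trans (by norm_num))
  · exact h2 _ _ (ha.trans (by norm_num))
  · norm_num
  · exact h2 _ _ ((h3' ha (h1 hc)).trans (by norm_num))
  · exact h2 _ _ (ha.trans (by norm_num))
  · exact h2 _ _ (h4 (h3' hb (h1 ha)))
  · exact h2 _ _ (ha.trans (by norm_num))
  · norm_num

lemma norm_qTp (D : Win) (j : ℤ) (P : Finset Ix) (ha : ‖a‖ ≤ 4) (hb : ‖b‖ ≤ 4) (hc : ‖c‖ ≤ 4)
    (e : ℤ × ℤ) : ‖qTp D j P a b c e‖ ≤ 599 := by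
  unfold qTp
  split_ifs
  · unfold mg
    split_ifs
    · exact (n_mul (norm_qJ D j ha hb hc _) (norm_qJ D j ha hb hc _) (by norm_num)).trans
        (by norm_num)
    · refine (n_sub1 (n_mul (n_sub1 (norm_qJ D j ha hb hc _)) (n_sub1 (norm_qJ D j ha hb hc _))
        (by norm_num))).trans (by norm_num)
  · exact (norm_qJ D j ha hb hc _).trans (by norm_num)

end norm

/-- the weights of the tied form -/
noncomputable def qW (D : Win) (j : ℤ) (P : Finset Ix) (t : ℂ) (e : ℤ × ℤ) : ℂ :=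
  qTp D j P (aT t) (bT t) (cT t) e

theorem qW_diff (D : Win) (j : ℤ) (P : Finset Ix) (e : ℤ × ℤ) :
    DifferentiableOn ℂ (fun t => qW D j P t e) (ball 0 (1 / 2)) :=
  qTp_diff D j P aT_diff bT_diff cT_diff e

theorem norm_qW (D : Win) (j : ℤ) (P : Finset Ix) (e : ℤ × ℤ) {t : ℂ}
    (ht : t ∈ ball (0 : ℂ) (1 / 2)) : ‖qW D j P t e‖ ≤ 600 ∧ ‖1 - qW D j P t e‖ ≤ 600 := by
  have h := norm_qTp D j P ((norm_aT ht).trans (by norm_num : (3 : ℝ) ≤ 4)) (norm_bT ht)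
    (norm_cT ht) e
  exact ⟨h.trans (by norm_num), (n_sub1 h).trans (by norm_num)⟩

end Pool.Agent.Q1.M6b.ABW
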