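import Mathlib
import Pool.Agent.Q1.M6b.TayWq
import Pool.Agent.Q1.M6b.TayRow

set_option autoImplicit false
open Finset Metric Filter Topology

/-! # Windows: the Taylor coefficients from the expansions with bounds -/

namespace Pool.Agent.Q1.M6b.ABW

open Pool.Agent.Q1 Pool.Agent.H74.R45 Pool.Agent.H40.R45 Pool.Agent.H64.Q1
open Pool.Agent.H33.Q1 Pool.Agent.H76.Sp
open Pool.Agent.H46.Sp (Win)
open Pool.Agent.H74.Win (FW)
open Pool.Agent.H42.Sp (Ix)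

/-- **The expansion of the increment at `p`, with the bounds of its coefficients.** -/
def ExpAt {K : Type} [Fintype K] [DecidableEq K] (lam : K → ℂ → ℂ) (m c : ℕ) (Cs R : ℝ) {D : Win}
    (O : Pool.Agent.H46.Sp.Out D) (p : ℤ × ℤ) : Prop :=
  ∃ (C : Finset (ℤ × ℤ)) (P : Finset Ix) (Nm Nl : ℕ) (Hc : ℕ → (K → ℕ) → Finset (ℤ × ℤ) → ℂ),
    C.card ≤ c ∧
    (∀ t ∈ ball (0 : ℂ) (1 / 2), FW O (aT t) (bT t) (cT t) p.2 (ve (p.1, p.2 - 1)) =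
      ∑ m' ∈ range Nm, ∑ l ∈ IL K Nl, ∑ s ∈ C.powerset,
        kapT t ^ m' * (∏ k, lam k t ^ l k) *
          ((∏ e ∈ s, qW D p.2 P t e) * ∏ e ∈ C \ s, (1 - qW D p.2 P t e)) * Hc m' l s) ∧
    ∀ (m' : ℕ) (l : K → ℕ), m' + ∑ k, l k ≤ m → ∀ σ, σ ⊆ C →
      ‖Hc m' l σ‖ ≤ Cs * R ^ ((2 / 3 : ℝ) * ((m' + ∑ k, l k : ℕ) : ℝ) + 2 / 5)

/-- **The expansions** of the increments in the good rows, with bounds. -/
def ExpW {K : Type} [Fintype K] [DecidableEq K] (lam : K → ℂ → ℂ) : Prop :=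
  ∀ η : ℝ, 0 < η → ∀ n : ℕ, ∀ η' : ℝ, 0 < η' → ∀ m : ℕ, ∃ (c : ℕ) (Cs : ℝ) (R0 : ℕ), 0 ≤ Cs ∧
    ∀ R : ℕ, R0 ≤ R → ∀ (D : Win) (O : Pool.Agent.H46.Sp.Out D), SzW η n R O → ∀ p : ℤ × ℤ,
      InnW D (η * R) p → GoodW D (η' * R) p.2 → ExpAt lam m c Cs (R : ℝ) O p

lemma norm_sgW (n : ℤ) : ‖sg n‖ = 1 := by
  unfold sg
  split_ifs <;> simp

/-- **The Taylor coefficients tend to zero**, from the expansions. -/
theorem TayW_of_exp {K : Type} [Fintype K] [DecidableEq K] {lam : K → ℂ → ℂ}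
    (nlam : ∀ k, ∀ t ∈ ball (0 : ℂ) (1 / 2), ‖lam k t‖ ≤ 600 * ‖t‖)
    (dlam : ∀ k, DifferentiableOn ℂ (lam k) (ball 0 (1 / 2))) (h : ExpW lam) : TayW := by
  intro η hη n η' hη' m ε hε
  obtain ⟨c, Cs, R1, hCs, hE⟩ := h η hη n η' hη' m
  have hcast : Tendsto (fun R : ℕ => (R : ℝ)) atTop atTop := tendsto_natCast_atTop_atTop
  set A : ℝ := m.factorial * ((((m + 1) * (m + 1) ^ Fintype.card K * 2 ^ c : ℕ) : ℝ) *
    ((600 : ℝ) ^ (1 + m + c) * 2 ^ m * Cs)) with hA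
  have h1 : Tendsto (fun R : ℕ => A * (R : ℝ) ^ ((2 / 5 : ℝ) - 2 / 3)) atTop (𝓝 0) := by
    have e1 : ((2 / 5 : ℝ) - 2 / 3) = -(4 / 15) := by norm_num
    rw [e1]
    have := ((tendsto_rpow_neg_atTop (show (0 : ℝ) < 4 / 15 by norm_num)).comp hcast).const_mul A
    simpa using this
  have h2 : ∀ᶠ R : ℕ in atTop, (R : ℝ) ^ (-(2 / 3) : ℝ) < (1 / 2) / 2 :=
    ((tendsto_rpow_neg_atTop (show (0 : ℝ) < 2 / 3 by norm_num)).comp hcast).eventually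
      (gt_mem_nhds (by norm_num))
  obtain ⟨R0, hR0⟩ := eventually_atTop.1 (((h1.eventually (gt_mem_nhds hε)).and h2).and
    ((eventually_ge_atTop R1).and (eventually_ge_atTop 1)))
  refine ⟨R0, ?_⟩
  intro R hR D O hO p hp hg
  obtain ⟨⟨a1, a2⟩, a3, a4⟩ := hR0 R hR
  obtain ⟨C, P, Nm, Nl, Hc, hC, hex, hH⟩ := hE R a3 D O hO p hp hg
  have hR1 : (1 : ℝ) ≤ R := by exact_mod_cast a4
  obtain ⟨T⟩ := Pool.Agent.Q1.M6b.Tay.texp_abs (G := fun t => FW O (aT t) (bT t) (cT t) p.2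
      (ve (p.1, p.2 - 1))) (C := C) (Nm := Nm) (Nl := Nl) (q := qW D p.2 P) (ka := kapT) (rr := rT)
    (lam := lam) (Hc := Hc) (ρ := 1 / 2) (by norm_num) hex (b := 600) (by norm_num)
    (fun t ht => by
      unfold rT
      rw [norm_mul, norm_w6_inv, mul_one]
      have := mem_ball_zero_iff.1 ht
      linarith)
    (fun t ht => (norm_kapT ht).trans (by have := norm_nonneg t; linarith)) nlam
    (fun e _ t ht => norm_qW D p.2 P e ht) rT_diff kapT_diff dlam (fun e _ => qW_diff D p.2 P e)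
    (g := sg (p.1 + p.2)) (norm_sgW _).le (m := m) (c := c) hC (R := R) (s := 2 / 5) (Cs := Cs) hH
  have key := Pool.Agent.Q1.M6b.Tay.taylor_one T (by positivity) hCs hR1 a2
  refine (le_of_eq_of_le ?_ key).trans ?_
  · rfl
  · have e2 : (m.factorial : ℝ) * ((((m + 1) * (m + 1) ^ Fintype.card K * 2 ^ c : ℕ) : ℝ) *
        ((600 : ℝ) ^ (1 + m + c) * 2 ^ m * Cs) * (R : ℝ) ^ ((2 / 5 : ℝ) - 2 / 3)) =
        A * (R : ℝ) ^ ((2 / 5 : ℝ) - 2 / 3) := by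
      rw [hA]; ring
    rw [e2]
    exact a1.le

end Pool.Agent.Q1.M6b.ABW
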