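import Mathlib
import Pool.Agent.H76.Sp.WinX
import Pool.Agent.H76.Sp.RowT
import Pool.Agent.H46.Sp.WInst

set_option autoImplicit false
open Finset

/-! # The exact expansion of the increments of a row of a window, system of runs

`CS` : the random labels which are not in the row, not in `P-`, `P+` and not ties of the runs. `FW_sys` : the
expansion over the cut ties of the runs. -/

namespace Pool.Agent.Q1.M6b.ABW

open Pool.Agent.H75.Perc hiding AR VV
open Pool.Agent.H75.TwoArm hiding EF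
open Pool.Agent.H99.NC
open Pool.Agent.Q1 Pool.Agent.H33.Q1 Pool.Agent.H69.Q1
open Pool.Agent.H81.G1 Pool.Agent.Q1.M6b.Gd Pool.Agent.H76.R45
open Pool.Agent.H30.Mid Pool.Agent.H30.Sp
open Pool.Agent.H13.R45 Pool.Agent.H13.Q1
open Pool.Agent.H46.Sp
open Pool.Agent.H46.Sp.Win (GJ NRw til_kt)
open Pool.Agent.H46.G1
open Pool.Agent.H42.Sp (Sd Ix CP kt rt CPs ETp WTp OTp XTp qTp wk mem_CPs)
open Pool.Agent.H74.R45 (ve he exists_lt)
open Pool.Agent.H76.Sp

variable {D : Win} {j x : ℤ} {N : ℕ} {P : Finset Ix} {a b c κ : ℂ} {G : Finset ℤ}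

open Classical in
/-- the caps outside of the row -/
noncomputable def PR (D : Win) (j : ℤ) : Finset Ix := (CPs D j).filter (NRow j)

lemma mem_PR (h0 : 0 ≤ j) (h1 : j ≤ D.h) {k : Ix} : k ∈ PR D j ↔ CP D j k ∧ NRow j k := by
  classical
  unfold PR
  rw [mem_filter, mem_CPs h0 h1]

/-- the other random labels -/
noncomputable def CS (D : Win) (j : ℤ) (N : ℕ) (G : Finset ℤ) (P : Finset Ix) : Finset (ℤ × ℤ) :=
  ETp D j P \ (RS N (D.m (j - 1)) (j - 1) ∪ ((D.wsys j G).Ti ∪ (BLw D j ∅ ∪ BUw D j ∅)))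

section sets

variable (hG : D.Lev j G) (h0 : 0 < j) (h1 : j < D.h) (hP : ∀ k ∈ P, CP D j k)
  (hr : ∀ k ∈ P, NRow j k) (hPr : ∀ k, CP D j k → NRw j k → k ∈ P)
  (hN : (N : ℤ) = D.M (j - 1) - D.m (j - 1))

include hG h0 h1 hPr

/-- the ties of the runs are kept tiles of caps -/
lemma ti_cap {e : ℤ × ℤ} (he : e ∈ (D.wsys j G).Ti) : ∃ z ∈ Wp (D.wsys j G).N,
    (D.wsys j G).tie z = e ∧ ∃ k ∈ P, lt (kt k) = e ∧
      ((k.2.1 + k.2.2) % 2 = 1 ↔ (D.wsys j G).c z.1 = true) := by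
  obtain ⟨z, hz, rfl⟩ := TSys.mem_Ti.1 he
  obtain ⟨k, k1, k2, k3, -⟩ := til_kt hG h0 h1 hz
  exact ⟨z, hz, rfl, k, hPr k k1.1 k1.2, by rw [k2]; rfl, k3⟩

lemma ti_sub : (D.wsys j G).Ti ⊆ tA P := by
  intro e he
  obtain ⟨z, -, -, k, hk, h2, -⟩ := ti_cap hG h0 h1 hPr he
  exact mem_image.2 ⟨k, hk, h2⟩

include hP hr

lemma ti_disj : Disjoint (D.wsys j G).Ti (BLw D j ∅ ∪ BUw D j ∅) :=
  (disj_A h0 h1 hP hr).mono_left (ti_sub hG h0 h1 hPr)

omit hG hPr hP hr h0 h1 in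
lemma cs_disj : Disjoint (CS D j N G P) ((D.wsys j G).Ti ∪ (BLw D j ∅ ∪ BUw D j ∅)) := by
  rw [disjoint_left]
  intro e he h
  exact (mem_sdiff.1 he).2 (mem_union_right _ h)

include hN

/-- **The random labels outside of the row.** -/
lemma E_sys (O : Out D) : ETp D j P \ RS N (D.m (j - 1)) (j - 1) =
    CS D j N G P ∪ ((D.wsys j G).Ti ∪ (BLw D j ∅ ∪ BUw D j ∅)) := by
  have e1 := E_win O h0 h1 hP hr hN
  have hsub : (D.wsys j G).Ti ∪ (BLw D j ∅ ∪ BUw D j ∅) ⊆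
      ETp D j P \ RS N (D.m (j - 1)) (j - 1) := by
    rw [e1]
    exact union_subset (((ti_sub hG h0 h1 hPr).trans subset_union_left).trans subset_union_right)
      (subset_union_right.trans subset_union_right)
  ext e
  unfold CS
  rw [mem_sdiff, mem_union (s := _ \ _), mem_sdiff, mem_union (s := RS N _ _)]
  constructor
  · rintro ⟨g1, g2⟩
    by_cases g3 : e ∈ (D.wsys j G).Ti ∪ (BLw D j ∅ ∪ BUw D j ∅)
    · exact Or.inr g3
    · exact Or.inl ⟨g1, fun h => h.elim g2 g3⟩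
  · rintro (⟨g1, g2⟩ | g3)
    · exact ⟨g1, fun h => g2 (Or.inl h)⟩
    · exact mem_sdiff.1 (hsub g3)

end sets

variable [Nonempty {g : ℤ // g ∈ G}]

open Classical in
/-- **The exact expansion over the cut ties of the runs.** -/
theorem incW_sys (O : Out D) (hG : D.Lev j G) {E W : Finset (ℤ × ℤ)} {L0 : ℤ}
    (hO : (D.wsys j G).Ok E W L0) (h0 : 0 < j) (h1 : j < D.h) (hP : ∀ k ∈ P, CP D j k)
    (hr : ∀ k ∈ P, NRow j k) (hPr : ∀ k, CP D j k → NRw j k → k ∈ P)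
    (hN : (N : ℤ) = D.M (j - 1) - D.m (j - 1)) (ha : a = zt ^ (4 : ℤ) + κ) (y : Fin N × Dir)
    {M L : ℕ} (hM : N ≤ M) (hL : (D.wsys j G).Ti.card ≤ L) :
    (XTp O j h0.le h1.le P hP).incW (qTp D j P a b c) (rcr (D.m (j - 1)) (j - 1) y) =
      ∑ m ∈ range (M + 1), ∑ l ∈ IL (Fin 3) (L + 1), ∑ s ∈ (CS D j N G P).powerset,
        κ ^ m * (∏ k, lw (w3 a b c k) ^ l k) * ((∏ e ∈ s, qTp D j P a b c e) *
          ∏ e ∈ CS D j N G P \ s, (1 - qTp D j P a b c e)) *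
          HT (XTp O j h0.le h1.le P hP) (D.m (j - 1)) (j - 1) y (D.wsys j G).Ti (kdw D j)
            (BLw D j ∅ ∪ BUw D j ∅) (D.wsys j G).st m l s := by
  have hw := wenv_XTp O h0 h1 hP hr
  have hq := qrow_Tp a b c h0 h1 hP hr
  have hrow : HasRow (XTp O j h0.le h1.le P hP) N (D.m (j - 1)) (j - 1) := by
    intro e he
    obtain ⟨i, rfl⟩ := mem_RS.1 he
    have hi := i.2
    exact hw.row _ (by omega) (by omega)
  have hF : ∀ e ∈ (D.wsys j G).Ti, (e ∈ tF P ↔ (D.wsys j G).c ((D.wsys j G).idx e).1 = false) := by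
    intro e he
    obtain ⟨z, hz, hze, k, hk, h2, h3⟩ := ti_cap hG h0 h1 hPr he
    have e4 : (D.wsys j G).idx e = z := by rw [← hze]; exact hO.idx_tie hz
    rw [e4]
    have key : ∀ k' ∈ P, lt (kt k') = e → k' = k := by
      intro k' hk' h4
      exact Pool.Agent.H42.Sp.kt_inj h0.le h1.le (hP k' hk') (hP k hk) (lt_inj (h4.trans h2.symm))
    have hev : ev k.2 = true ↔ (D.wsys j G).c z.1 = false := by
      rw [ev_true (x := k.2.1) (y := k.2.2)]
      constructor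
      · intro h5
        by_contra h6
        rw [Bool.not_eq_false] at h6
        have := h3.2 h6
        omega
      · intro h5
        by_contra h6
        rw [h3.1 (by omega)] at h5
        exact absurd h5 (by simp)
    rw [← hev]
    unfold tF
    rw [mem_image]
    constructor
    · rintro ⟨k', hk', h5⟩
      obtain ⟨h6, h7⟩ := mem_filter.1 hk'
      rw [key k' h6 h5] at h7
      exact h7
    · intro h5
      exact ⟨k, mem_filter.2 ⟨hk, h5⟩, h2⟩
  refine incW_expandT (lam := fun k => lw (w3 a b c k)) hrow (fun i => ?_) (fun i => ?_)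
    (E_sys hG h0 h1 hP hr hPr hN O) (filter_subset _ _)
    (fun T hT => st_symm (D.wsys j G) hT) cs_disj (ti_disj hG h0 h1 hP hr hPr)
    (fun e he hn => q_tA h0.le h1.le hP (ti_sub hG h0 h1 hPr he) fun h => hn ?_)
    (fun e he => q_tF h0.le h1.le hP ?_)
    (fun e he => hq.half he) y hM hL
  · rw [hq.wA hN, ha]
  · rw [hq.wB hN, ha]
    linear_combination -(zt_sum)
  · exact mem_filter.2 ⟨he, (hF e he).1 h⟩
  · obtain ⟨h2, h3⟩ := mem_filter.1 he
    exact (hF e h2).2 h3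

/-- **The exact expansion of the increments `FW` on the row**, over the cut ties of the runs. -/
theorem FW_sys (O : Out D) (hG : D.Lev j G) {E W : Finset (ℤ × ℤ)} {L0 : ℤ}
    (hO : (D.wsys j G).Ok E W L0) (h0 : 0 < j) (h1 : j < D.h) (hP : ∀ k ∈ P, CP D j k)
    (hr : ∀ k ∈ P, NRow j k) (hPr : ∀ k, CP D j k → NRw j k → k ∈ P)
    (hN : (N : ℤ) = D.M (j - 1) - D.m (j - 1)) (ha : a = zt ^ (4 : ℤ) + κ) {y : Fin N × Dir}
    (x0 : D.m (j - 1) ≤ x) (x1 : x ≤ D.M (j - 1))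
    (hy : rcr (D.m (j - 1)) (j - 1) y = ve (x, j - 1)) {M L : ℕ} (hM : N ≤ M)
    (hL : (D.wsys j G).Ti.card ≤ L) :
    Pool.Agent.H74.Win.FW O a b c j (ve (x, j - 1)) =
      ∑ m ∈ range (M + 1), ∑ l ∈ IL (Fin 3) (L + 1), ∑ s ∈ (CS D j N G P).powerset,
        κ ^ m * (∏ k, lw (w3 a b c k) ^ l k) * ((∏ e ∈ s, qTp D j P a b c e) *
          ∏ e ∈ CS D j N G P \ s, (1 - qTp D j P a b c e)) *
          HT (XTp O j h0.le h1.le P hP) (D.m (j - 1)) (j - 1) y (D.wsys j G).Ti (kdw D j)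
            (BLw D j ∅ ∪ BUw D j ∅) (D.wsys j G).st m l s := by
  rw [Pool.Agent.H74.Win.FW_eq h0.le, ← Pool.Agent.H42.Sp.XJ_tied_ve (h1 := h1.le) (hP := hP)
    (fun s => row_cap h0 h1 hP hr x0 x1 (Or.inl rfl) s)
    (fun s => row_cap h0 h1 hP hr x0 x1 (Or.inr (by ring)) s), ← hy]
  exact incW_sys O hG hO h0 h1 hP hr hPr hN ha y hM hL

end Pool.Agent.Q1.M6b.ABW
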