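import Mathlib
import Pool.Agent.Q1.M6b.TayWof
import Pool.Agent.Q1.M6b.WSysX
import Pool.Agent.Q1.M6b.AB
import Pool.Agent.H46.Sp.WCnt

set_option autoImplicit false
open Finset Metric

/-! # Windows: the bounds of the coefficients of the expansions

`FBWs` : the frozen bound for the rows of the windows. `ExpW_of` : the expansions of the increments with
bounds. -/

namespace Pool.Agent.Q1.M6b.ABW

open Pool.Agent.H75.Perc hiding AR VV
open Pool.Agent.H75.TwoArm hiding EF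
open Pool.Agent.H99.NC
open Pool.Agent.Q1 Pool.Agent.H33.Q1 Pool.Agent.H69.Q1
open Pool.Agent.H40.R45
open Pool.Agent.H81.G1 Pool.Agent.Q1.M6b.Gd Pool.Agent.H76.R45
open Pool.Agent.H30.Mid Pool.Agent.H30.Sp
open Pool.Agent.H13.R45 Pool.Agent.H13.Q1
open Pool.Agent.H46.Sp
open Pool.Agent.H46.Sp.Win (GJ NRw til_kt)
open Pool.Agent.H46.G1
open Pool.Agent.H42.Sp (Sd Ix CP kt rt CPs ETp WTp OTp XTp qTp wk mem_CPs)
open Pool.Agent.H74.R45 (ve he exists_lt)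
open Pool.Agent.H74.Win (FW)
open Pool.Agent.H76.Sp
open Pool.Agent.Q1.M6b (cr)
open Pool.Agent.Q1.M6b.Gl

/-! ### The couplings -/

/-- the couplings of the three kinds -/
noncomputable def lamW (k : Fin 3) (t : ℂ) : ℂ := Pool.Agent.H76.Sp.lw (w3 (aT t) (bT t) (cT t) k)

lemma lamW0 : lamW 0 = laT := by
  funext t; unfold lamW w3 Pool.Agent.H76.Sp.lw laT; simp

lemma lamW1 : lamW 1 = lamT := by
  funext t; unfold lamW w3 Pool.Agent.H76.Sp.lw lamT; simp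

lemma lamW2 : lamW 2 = lcT := by
  funext t; unfold lamW w3 Pool.Agent.H76.Sp.lw lcT; simp

theorem norm_lamW (k : Fin 3) (t : ℂ) (ht : t ∈ ball (0 : ℂ) (1 / 2)) : ‖lamW k t‖ ≤ 600 * ‖t‖ := by
  have h : ∀ x : ℂ, ‖x‖ ≤ 16 * ‖t‖ → ‖x‖ ≤ 600 * ‖t‖ := fun x hx => hx.trans (by
    have := norm_nonneg t; linarith)
  fin_cases k
  · exact h _ (by rw [show (⟨0, by decide⟩ : Fin 3) = 0 from rfl, lamW0]; exact norm_laT ht)
  · exact h _ (by rw [show (⟨1, by decide⟩ : Fin 3) = 1 from rfl, lamW1]; exact norm_lamT ht)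
  · exact h _ (by rw [show (⟨2, by decide⟩ : Fin 3) = 2 from rfl, lamW2]; exact norm_lcT ht)

theorem lamW_diff (k : Fin 3) : DifferentiableOn ℂ (lamW k) (ball 0 (1 / 2)) := by
  fin_cases k
  · rw [show (⟨0, by decide⟩ : Fin 3) = 0 from rfl, lamW0]; exact laT_diff
  · rw [show (⟨1, by decide⟩ : Fin 3) = 1 from rfl, lamW1]; exact lamT_diff
  · rw [show (⟨2, by decide⟩ : Fin 3) = 2 from rfl, lamW2]; exact lcT_diff

/-! ### The statements -/

/-- **The frozen bound** for the rows of the windows. -/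
def FBWs : Prop :=
  ∀ m l f A : ℕ, ∃ (K : ℤ) (C : ℝ), 20 ≤ K ∧ 0 ≤ C ∧ ∀ (R : ℕ) (D : Win)
    (O : Pool.Agent.H46.Sp.Out D) (j r L L2 : ℤ) (N k : ℕ) (F : Finset ℤ), 1 ≤ R →
    ∀ (h0 : 0 < j) (h1 : j < D.h), (N : ℤ) = D.M (j - 1) - D.m (j - 1) → Few D F → F.card ≤ f →
    Flat D j r → D.Fat L2 → L ≤ r → 2 * L + 2 ≤ L2 → D.h ≤ A * R →
    D.b D.yQ - D.a (D.yP - 1) ≤ A * R → (R : ℤ) ≤ A * L → (6 : ℤ) ≤ L → 1 ≤ k → k + 1 ≤ N →
    (∀ a, ((D.wsys j (D.GJ j)).N a : ℤ) < K * L) ∧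
    ∀ (hP : ∀ k ∈ PR D j, CP D j k) (y : Fin N × Dir),
      H81.G1.inc (rp (D.m (j - 1)) (j - 1)) y = true →
      rcr (D.m (j - 1)) (j - 1) y = ve (D.m (j - 1) + (k : ℤ), j - 1) →
      ∀ σ, σ ⊆ CS D j N (D.GJ j) (PR D j) → ∀ v ∈ powersetCard l (D.wsys j (D.GJ j)).Ti,
      ∀ T, T ⊆ v → ∀ ξ, ξ ⊆ v.biUnion ((D.wsys j (D.GJ j)).Bt K v) →
      ‖∑ s ∈ powersetCard m (Finset.Ico (-(k : ℤ)) ((N : ℤ) - k)), Ec (fun _ => (1 / 2 : ℂ))
        (gE (BLw D j ∅ \ v.biUnion ((D.wsys j (D.GJ j)).Bt K v))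
          (BUw D j ∅ \ v.biUnion ((D.wsys j (D.GJ j)).Bt K v)) (1, -1))
        (Amp ((XTp O j h0.le h1.le (PR D j) hP).freeze
          ((BLw D j ∅ \ v.biUnion ((D.wsys j (D.GJ j)).Bt K v)) ∪
            (BUw D j ∅ \ v.biUnion ((D.wsys j (D.GJ j)).Bt K v)) ∪
            RS N (D.m (j - 1)) (j - 1)) (ξ ∪ (D.wsys j (D.GJ j)).st T ∪ σ))
          (D.m (j - 1)) (j - 1) y (zt ^ (4 : ℤ)) (zt ^ (-4 : ℤ))
          (BLw D j ∅ \ v.biUnion ((D.wsys j (D.GJ j)).Bt K v))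
          (BUw D j ∅ \ v.biUnion ((D.wsys j (D.GJ j)).Bt K v)) k s)‖ ≤
        C * (R : ℝ) ^ ((2 / 3 : ℝ) * m + 2 / 5)

/-! ### The ends of the row -/

/-- the incoming end of the row at the mark -/
lemma exists_endW {N k : ℕ} {x0 y0 : ℤ} (hk : 1 ≤ k) (hkN : k + 1 ≤ N) :
    ∃ y : Fin N × Dir, H81.G1.inc (rp x0 y0) y = true ∧ rcr x0 y0 y = ve (x0 + (k : ℤ), y0) := by
  rcases Int.emod_two_eq_zero_or_one (x0 + (k : ℤ) + y0) with h | h
  · refine ⟨(⟨k - 1, by omega⟩, .E), ?_, ?_⟩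
    · have h3 : rp x0 y0 (⟨k - 1, by omega⟩ : Fin N) = true := by
        rw [rp_true]; simp only; omega
      unfold H81.G1.inc
      rw [h3]
      rfl
    · rw [rcr_E]
      congr 1
      refine Prod.ext ?_ rfl
      simp only
      omega
  · refine ⟨(⟨k, by omega⟩, .W), ?_, ?_⟩
    · have h3 : rp x0 y0 (⟨k, by omega⟩ : Fin N) = true := by
        rw [rp_true]; simp only; omega
      unfold H81.G1.inc
      rw [h3]
      rfl
    · rw [rcr_W]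

/-! ### Constants -/

lemma cr_sqW {x : ℝ} (hx : 0 ≤ x) : cr x ^ 2 = x ^ (2 / 3 : ℝ) := by
  unfold cr
  rw [← Real.rpow_natCast, ← Real.rpow_mul hx]
  norm_num

/-- the bound of a coefficient -/
lemma ht_const {R : ℝ} (hR : 1 ≤ R) {m l n cκ Mx A : ℕ} {C0 K C : ℝ} (hC0 : 0 ≤ C0) (hK : 0 ≤ K)
    (hC : 0 ≤ C) (hMx : ((Mx + 1 : ℕ) : ℝ) ≤ A * R) (hc : cκ ≤ n) :
    2 ^ l * (C * R ^ ((2 / 3 : ℝ) * m + 2 / 5)) * ((C0 * K) ^ l *
      ((((l : ℝ) + 1) * 6 ^ l) ^ cκ * (cr ((Mx + 1 : ℕ) : ℝ) ^ 2) ^ l)) ≤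
    2 ^ l * C * (C0 * K) ^ l * (((l : ℝ) + 1) * 6 ^ l) ^ n * ((A : ℝ) ^ (2 / 3 : ℝ)) ^ l *
      R ^ ((2 / 3 : ℝ) * ((m + l : ℕ) : ℝ) + 2 / 5) := by
  have hR0 : 0 < R := by linarith
  have e1 : cr ((Mx + 1 : ℕ) : ℝ) ^ 2 ≤ (A : ℝ) ^ (2 / 3 : ℝ) * R ^ (2 / 3 : ℝ) := by
    rw [cr_sqW (by positivity), ← Real.mul_rpow (by positivity) hR0.le]
    exact Real.rpow_le_rpow (by positivity) hMx (by norm_num)
  have e2 : (cr ((Mx + 1 : ℕ) : ℝ) ^ 2) ^ l ≤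
      ((A : ℝ) ^ (2 / 3 : ℝ)) ^ l * (R ^ (2 / 3 : ℝ)) ^ l := by
    rw [← mul_pow]
    exact pow_le_pow_left₀ (by positivity) e1 l
  have e3 : (((l : ℝ) + 1) * 6 ^ l) ^ cκ ≤ (((l : ℝ) + 1) * 6 ^ l) ^ n := by
    refine pow_le_pow_right₀ ?_ hc
    have h1 : (1 : ℝ) ≤ (l : ℝ) + 1 := by have : (0 : ℝ) ≤ l := Nat.cast_nonneg l; linarith
    have h2 : (1 : ℝ) ≤ 6 ^ l := one_le_pow₀ (by norm_num)
    nlinarith
  have e4 : R ^ ((2 / 3 : ℝ) * ((m + l : ℕ) : ℝ) + 2 / 5) =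
      R ^ ((2 / 3 : ℝ) * m + 2 / 5) * (R ^ (2 / 3 : ℝ)) ^ l := by
    rw [← Real.rpow_natCast (R ^ (2 / 3 : ℝ)) l, ← Real.rpow_mul hR0.le, ← Real.rpow_add hR0]
    congr 1
    push_cast
    ring
  rw [e4]
  calc 2 ^ l * (C * R ^ ((2 / 3 : ℝ) * m + 2 / 5)) * ((C0 * K) ^ l *
        ((((l : ℝ) + 1) * 6 ^ l) ^ cκ * (cr ((Mx + 1 : ℕ) : ℝ) ^ 2) ^ l))
      ≤ 2 ^ l * (C * R ^ ((2 / 3 : ℝ) * m + 2 / 5)) * ((C0 * K) ^ l *
        ((((l : ℝ) + 1) * 6 ^ l) ^ n * (((A : ℝ) ^ (2 / 3 : ℝ)) ^ l * (R ^ (2 / 3 : ℝ)) ^ l))) := by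
        refine mul_le_mul_of_nonneg_left ?_ (by positivity)
        refine mul_le_mul_of_nonneg_left ?_ (by positivity)
        exact mul_le_mul e3 e2 (by positivity) (by positivity)
    _ = _ := by ring

/-! ### The expansions with bounds -/

/-- **The expansions of the increments, with the bounds of the coefficients.** -/
theorem ExpW_of (hFB : FBWs) : ExpW lamW := by
  classical
  obtain ⟨C0, hC0, HB⟩ := HT_bound'
  intro η hη n η' hη' m
  set δ : ℝ := min η' (η / 4) with hδ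
  have hδ0 : 0 < δ := lt_min hη' (by positivity)
  obtain ⟨A, hA⟩ := exists_nat_ge (1 / η + 1 / δ + 1)
  have h1η : 0 < 1 / η := by positivity
  have h1δ : 0 < 1 / δ := by positivity
  choose Kf Cf hK20 hCf hfb using fun q : ℕ × ℕ => hFB q.1 q.2 n A
  set Cst : ℕ × ℕ → ℝ := fun q => 2 ^ q.2 * Cf q * (C0 * (Kf q : ℝ)) ^ q.2 *
    (((q.2 : ℝ) + 1) * 6 ^ q.2) ^ (4 * (n + 3)) * (((A + 1 : ℕ) : ℝ) ^ (2 / 3 : ℝ)) ^ q.2 with hCst
  have hKr : ∀ q, (0 : ℝ) ≤ Kf q := fun q => by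
    have := hK20 q
    exact_mod_cast (by omega : (0 : ℤ) ≤ Kf q)
  have hCst0 : ∀ q, 0 ≤ Cst q := fun q => by
    have h1 := hKr q
    have h2 := hCf q
    rw [hCst]
    positivity
  refine ⟨3844 * (n + 3), ∑ q ∈ range (m + 1) ×ˢ range (m + 1), Cst q, ⌈6 / η⌉₊ + 6 * A + 1,
    sum_nonneg fun q _ => hCst0 q, ?_⟩
  intro R hR D O hO p hp hg
  have hR1 : 1 ≤ R := by omega
  have hRr : (1 : ℝ) ≤ R := by exact_mod_cast hR1
  have hR6 : 6 ≤ η * R := by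
    have h1 : 6 / η ≤ (R : ℝ) := (Nat.le_ceil _).trans (by exact_mod_cast (by omega : ⌈6 / η⌉₊ ≤ R))
    rw [div_le_iff₀ hη] at h1
    linarith
  obtain ⟨r, hr1, hfl⟩ := hg
  obtain ⟨F, hFc, hF⟩ := hO.few
  obtain ⟨L2, hL2, hfat⟩ := hO.fat
  obtain ⟨x, j⟩ := p
  simp only at hfl
  have h0 : 0 < j := by have := hfl.r2; have := hfl.lo; omega
  have h1 : j < D.h := by have := hfl.r2; have := hfl.hi; omega
  -- the mark
  have e1 := hp (x - 1) (j - 1) (by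
      push_cast; rw [show (x : ℝ) - 1 - x = -1 by ring]; simp; linarith) (by
      push_cast; rw [show (j : ℝ) - 1 - j = -1 by ring]; simp; linarith)
  have e2 := hp (x + 1) (j - 1) (by
      push_cast; rw [show (x : ℝ) + 1 - x = 1 by ring]; simp; linarith) (by
      push_cast; rw [show (j : ℝ) - 1 - j = -1 by ring]; simp; linarith)
  have k1 := Pool.Agent.H46.Sp.Win.m_le_a (D := D) (y := j - 1) (by omega)
  have k2 := Pool.Agent.H46.Sp.Win.b_le_M (D := D) (y := j - 1) (by omega)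
  obtain ⟨N, hN⟩ : ∃ N : ℕ, (N : ℤ) = D.M (j - 1) - D.m (j - 1) :=
    ⟨(D.M (j - 1) - D.m (j - 1)).toNat, Int.toNat_of_nonneg (by omega)⟩
  obtain ⟨k, hk⟩ : ∃ k : ℕ, (k : ℤ) = x - D.m (j - 1) :=
    ⟨(x - D.m (j - 1)).toNat, Int.toNat_of_nonneg (by omega)⟩
  have hk1 : 1 ≤ k := by omega
  have hkN : k + 1 ≤ N := by omega
  have hxk : x = D.m (j - 1) + (k : ℤ) := by omega
  -- the size of the boxes
  set L : ℤ := min r ((L2 - 2) / 2) with hL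
  have hLr : L ≤ r := min_le_left _ _
  have hLL : 2 * L + 2 ≤ L2 := by
    have := min_le_right r ((L2 - 2) / 2)
    omega
  have hδL : δ * R ≤ L := by
    rcases min_choice r ((L2 - 2) / 2) with h | h
    · rw [hL, h]
      exact (mul_le_mul_of_nonneg_right (min_le_left _ _) (by positivity)).trans hr1
    · rw [hL, h]
      have h3 : (L2 : ℝ) - 3 ≤ 2 * (((L2 - 2) / 2 : ℤ) : ℝ) := by
        have : L2 - 3 ≤ 2 * ((L2 - 2) / 2) := by omega
        exact_mod_cast this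
      have h4 : δ * R ≤ η / 4 * R := mul_le_mul_of_nonneg_right (min_le_right _ _) (by positivity)
      linarith
  have hAδ : 1 ≤ A * δ := by
    have h3 : 1 / δ ≤ A := by linarith
    rw [div_le_iff₀ hδ0] at h3
    exact h3
  have hAη : 1 ≤ A * η := by
    have h3 : 1 / η ≤ A := by linarith
    rw [div_le_iff₀ hη] at h3
    exact h3
  have hRL : (R : ℤ) ≤ A * L := by
    have h3 : (R : ℝ) ≤ A * L := by
      calc (R : ℝ) = 1 * R := (one_mul _).symm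
        _ ≤ (A * δ) * R := mul_le_mul_of_nonneg_right hAδ (by positivity)
        _ = A * (δ * R) := by ring
        _ ≤ A * L := mul_le_mul_of_nonneg_left hδL (by positivity)
    exact_mod_cast h3
  have hL6 : 6 ≤ L := by
    by_contra hcon
    have h3 : (A : ℤ) * L ≤ A * 6 := mul_le_mul_of_nonneg_left (by omega) (by positivity)
    omega
  have hL1 : -1 ≤ L := by omega
  have hRη : (R : ℝ) / η ≤ A * R := by
    rw [div_le_iff₀ hη]
    nlinarith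
  have hh : D.h ≤ A * R := by
    have h3 := hO.h2.trans hRη
    exact_mod_cast h3
  have hw : D.b D.yQ - D.a (D.yP - 1) ≤ A * R := by
    have h3 := hO.w2.trans hRη
    exact_mod_cast h3
  -- the system
  have hG := Pool.Agent.H46.Sp.Win.lev_GJ (D := D) h0.le h1.le
  have hP : ∀ k ∈ PR D j, CP D j k := fun k hk => ((mem_PR h0.le h1.le).1 hk).1
  have hrr : ∀ k ∈ PR D j, NRow j k := fun k hk => ((mem_PR h0.le h1.le).1 hk).2
  have hPr : ∀ k, CP D j k → NRw j k → k ∈ PR D j := fun k h2 h3 =>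
    (mem_PR h0.le h1.le).2 ⟨h2, h3⟩
  have hOk := Pool.Agent.H46.Sp.Win.wsys_ok O hG hfat hLL h0 h1 hP hPr
  have hgd := Pool.Agent.H46.Sp.Win.gd_GJ hfl
  have hgd2 : ∀ g ∈ D.GJ j, g ≠ j → j + 2 ≤ g ∨ g + 2 ≤ j := fun g h2 h3 => by
    have := hgd g h2 h3
    have := hfl.r2
    omega
  obtain ⟨y, hy, hyc⟩ := exists_endW (N := N) (k := k) (x0 := D.m (j - 1)) (y0 := j - 1) hk1 hkN
  have hwe := wenv_XTp O h0 h1 hP hrr
  have hrow : HasRow (XTp O j h0.le h1.le (PR D j) hP) N (D.m (j - 1)) (j - 1) := by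
    intro e he
    obtain ⟨i, rfl⟩ := mem_RS.1 he
    have hi := i.2
    exact hwe.row _ (by omega) (by omega)
  have hMx : ∀ a, (D.wsys j (D.GJ j)).N a ≤ A * R := by
    intro a
    have h3 := Pool.Agent.H46.Sp.Win.wsys_N hG h0 h1 hh hw a
    have h4 : ((D.wsys j (D.GJ j)).N a : ℤ) ≤ ((A * R : ℕ) : ℤ) := by push_cast; omega
    exact_mod_cast h4
  refine ⟨CS D j N (D.GJ j) (PR D j), PR D j, N + 1, (D.wsys j (D.GJ j)).Ti.card + 1,
    HT (XTp O j h0.le h1.le (PR D j) hP) (D.m (j - 1)) (j - 1) y (D.wsys j (D.GJ j)).Ti (kdw D j)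
      (BLw D j ∅ ∪ BUw D j ∅) (D.wsys j (D.GJ j)).st,
    (Pool.Agent.H46.Sp.Win.left_card hG h0 h1 hOk hL1 hN).trans ?_, ?_, ?_⟩
  · have := Pool.Agent.H46.Sp.Win.GJ_card (j := j) hF
    exact Nat.mul_le_mul_left _ (by omega)
  · intro t _
    refine FW_sys (κ := kapT t) O hG hOk h0 h1 hP hrr hPr hN ?_ (by omega) (by omega)
      (by rw [hyc, hxk]) le_rfl le_rfl
    unfold kapT
    have h3 : (zt ^ (4 : ℤ) : ℂ) = w6 := by
      rw [w6_zt, ← zpow_natCast]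
      norm_num
    rw [h3]
    ring
  · intro m' l hml σ hσ
    set ls : ℕ := ∑ k, l k with hls
    obtain ⟨hKL, hfr⟩ := hfb (m', ls) R D O j r L L2 N k F hR1 h0 h1 hN hF hFc hfl hfat hLr hLL hh hw
      hRL hL6 hk1 hkN
    have key := HB (D.wsys j (D.GJ j)) (kdw D j) (X := XTp O j h0.le h1.le (PR D j) hP)
      (W := WTp D j (PR D j) O.Wo) (EL := BLw D j ∅) (EU := BUw D j ∅)
      (C := CS D j N (D.GJ j) (PR D j)) (K := Kf (m', ls)) (L := L) (Mx := A * R)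
      Env.planeLike_plane (Pool.Agent.H42.Sp.disj_ETWTp O h0.le _) hOk (hK20 _) hKL hMx hrow
      (E_sys hG h0 h1 hP hrr hPr hN O) cs_disj (ti_disj hG h0 h1 hP hrr hPr) disj_LUw disj_LUw'
      (fun a u t hu hrg => Pool.Agent.H46.Sp.Win.rg_bulk hG hfat hLL h0 h1 hu hrg)
      (Pool.Agent.H46.Sp.Win.away_root hG hfat hLL h0 h1 fun x y h => hwe.root x y h) y
      (Pool.Agent.H46.Sp.Win.away_row hG h0 h1 hgd2 y) m' l σ hσ k
      (Cf (m', ls) * (R : ℝ) ^ ((2 / 3 : ℝ) * m' + 2 / 5))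
      (mul_nonneg (hCf _) (by positivity))
      (fun v hv T hT ξ hξ => hfr hP y hy hyc σ hσ v hv T hT ξ hξ)
    refine key.trans ((ht_const (A := A + 1) (n := 4 * (n + 3)) hRr (by linarith) (hKr _) (hCf _) ?_
      ?_).trans (mul_le_mul_of_nonneg_right ?_ (by positivity)))
    · push_cast
      nlinarith
    · rw [Pool.Agent.H46.Sp.Win.ru_card]
      have := Pool.Agent.H46.Sp.Win.GJ_card (j := j) hF
      omega
    · refine single_le_sum (f := Cst) (fun q _ => hCst0 q) (a := (m', ls)) ?_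
      rw [mem_product, mem_range, mem_range]
      simp only
      omega

/-- **The Taylor coefficients of the increments in the good rows tend to zero.** -/
theorem TayW_of (hFB : FBWs) : TayW :=
  TayW_of_exp norm_lamW lamW_diff (ExpW_of hFB)

end Pool.Agent.Q1.M6b.ABW
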