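import Mathlib
import Pool.Agent.Q1.M6b.ABdef
import Pool.Agent.Q1.M6b.Asm3

set_option autoImplicit false
open Finset

/-! # Chapter B (R45): the bounds of the coefficients -/

namespace Pool.Agent.Q1.M6b.AB

open Pool.Agent.H75.Perc hiding AR VV
open Pool.Agent.H75.TwoArm hiding EF
open Pool.Agent.H99.NC
open Pool.Agent.Q1 Pool.Agent.H74.R45 Pool.Agent.H40.R45 Pool.Agent.H95.R45 Pool.Agent.H81.G1
open Pool.Agent.H30.Mid Pool.Agent.H46.G1 Pool.Agent.H13.R45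
open Pool.Agent.Q1.M6e (OFar Inn inc2)
open Pool.Agent.H33.Q1
open Pool.Agent.Q1.M6b.Gd Pool.Agent.Q1.M6b.Gl

/-- the two corner tiles of the line -/
def CN (h j : ℤ) : Finset (ℤ × ℤ) := {lt (-1, j), lt (-1, h - 1)}

/-- **the bound of the coefficients** of `κ ^ m λ ^ l` -/
def HB45 : Prop :=
  ∀ η : ℝ, 0 < η → ∀ m l : ℕ, ∃ D : ℝ, ∃ R0 : ℕ, ∀ R : ℕ, R0 ≤ R → ∀ (w h : ℤ) (O : Out w h),
    Sc η R O → ∀ p : ℤ × ℤ, Inn w h (η * R) p → ∀ (h0 : 0 ≤ p.2) (h1 : p.2 ≤ h) (j2 : p.2 % 2 = 0)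
    (N : ℕ), (N : ℤ) = w → ∀ y : Fin N × Dir, H81.G1.inc (rp 0 (p.2 - 1)) y = true →
    rcr 0 (p.2 - 1) y = ve (p.1, p.2 - 1) → ∀ σ, σ ⊆ CN h p.2 →
    ‖HH O h0 h1 j2 y m l σ‖ ≤ D * (R : ℝ) ^ ((2 / 3 : ℝ) * (m + l) + 2 / 5)

/-- **the bound of the sums over the coupons** in the frozen environments -/
def FB45 : Prop :=
  ∀ η : ℝ, 0 < η → ∀ m l : ℕ, ∃ K : ℤ, 4 ≤ K ∧ ∃ D : ℝ, 0 ≤ D ∧ ∃ R0 : ℕ, ∀ R : ℕ, R0 ≤ R →
    ∀ (w h : ℤ) (O : Out w h), Sc η R O → h ≤ K * w ∧ ∀ p : ℤ × ℤ, Inn w h (η * R) p →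
    ∀ (h0 : 0 ≤ p.2) (h1 : p.2 ≤ h) (j2 : p.2 % 2 = 0)
    (N : ℕ), (N : ℤ) = w → ∀ y : Fin N × Dir, H81.G1.inc (rp 0 (p.2 - 1)) y = true →
    rcr 0 (p.2 - 1) y = ve (p.1, p.2 - 1) → ∀ v ∈ powersetCard l (Ti w h p.2),
    ∀ t, t ⊆ v.biUnion (Bt K h p.2 v) ∪ v ∪ CN h p.2 →
      ‖∑ s ∈ powersetCard m (Finset.Ico (-p.1) ((N : ℤ) - p.1)), Ec (fun _ => (1 / 2 : ℂ))
        (gE (BL w p.2 (v.biUnion (Bt K h p.2 v))) (H30.Mid.BU w h p.2 (v.biUnion (Bt K h p.2 v))) (1, -1))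
        (Amp (XF O h0 h1 j2 N (v.biUnion (Bt K h p.2 v)) t) 0 (p.2 - 1) y (zt ^ (4 : ℤ))
          (zt ^ (-4 : ℤ)) (BL w p.2 (v.biUnion (Bt K h p.2 v)))
          (H30.Mid.BU w h p.2 (v.biUnion (Bt K h p.2 v))) p.1 s)‖ ≤
        D * (R : ℝ) ^ ((2 / 3 : ℝ) * m + 2 / 5)

lemma CN_sub {w h j : ℤ} {N : ℕ} (O : Out w h) (h0 : 0 ≤ j) (h1 : j ≤ h) (j2 : j % 2 = 0)
    (hN : (N : ℤ) = w) (g0 : 0 < j) (g1 : j < h) : CN h j ⊆ ET w h j ∧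
    ∀ e ∈ CN h j, e ∉ Ti w h j ∧ e ∉ EF N w h j ∅ := by
  have hw := O.hw
  have w2 := O.w2
  have h2 := O.h2
  constructor
  · intro e he
    unfold CN at he
    rw [mem_insert, mem_singleton] at he
    rcases he with rfl | rfl
    · rw [Pool.Agent.H13.R45.mem_ET (by omega) w2 h2 h0 h1 j2, mem_EJ]
      omega
    · rw [Pool.Agent.H13.R45.mem_ET (by omega) w2 h2 h0 h1 j2, mem_EJ]
      omega
  · intro e he
    unfold CN at he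
    rw [mem_insert, mem_singleton] at he
    unfold EF
    rcases he with rfl | rfl
    · rw [mem_Ti_L (by omega), ← lbt_lt, mem_union, mem_union, Pool.Agent.H30.Mid.mem_BL, Pool.Agent.H30.Mid.mem_BU,
        mem_RSx hN]
      omega
    · rw [mem_Ti_L (by omega), ← lbt_lt, mem_union, mem_union, Pool.Agent.H30.Mid.mem_BL, Pool.Agent.H30.Mid.mem_BU,
        mem_RSx hN]
      omega

/-- the coefficients from the frozen bound -/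
theorem HB45_of (hF : FB45) : HB45 := by
  obtain ⟨C, hC, hHH⟩ := HH_bound
  intro η hη m l
  obtain ⟨K, hK, D, hD, R0, hR0⟩ := hF η hη m l
  set A : ℝ := 1 / η + 1 with hA
  have hA0 : 0 < A := by positivity
  refine ⟨2 ^ l * D * ((C * K) ^ l * (((l + 1) * 6 ^ l) ^ 2 * (cr A ^ 2) ^ l)), max R0 1, ?_⟩
  intro R hR w h O hO p hp h0 h1 j2 N hN y hy hyc σ hσ
  have hR1 : 1 ≤ R := (le_max_right _ _).trans hR
  have hRr : (1 : ℝ) ≤ R := by exact_mod_cast hR1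
  have hRp : (0 : ℝ) < R := by linarith
  obtain ⟨hKw, hfr⟩ := hR0 R ((le_max_left _ _).trans hR) w h O hO
  have hpos : 0 < η * R := by positivity
  obtain ⟨p1, p2, p3, p4⟩ := hp
  have g0 : 0 < p.2 := by
    have : (0 : ℝ) < (p.2 : ℝ) := by linarith
    exact_mod_cast this
  have g1 : p.2 < h := by
    have : (p.2 : ℝ) < (h : ℝ) := by linarith
    exact_mod_cast this
  obtain ⟨c1, c2⟩ := CN_sub O h0 h1 j2 hN g0 g1
  have hvx : vx (rcr 0 (p.2 - 1) y) = vx (ve (p.1, p.2 - 1)) := by rw [hyc]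
  have hY : p.2 - 1 ≤ (vx (rcr 0 (p.2 - 1) y)).2 - (vx (rcr 0 (p.2 - 1) y)).1 ∧
      (vx (rcr 0 (p.2 - 1) y)).2 - (vx (rcr 0 (p.2 - 1) y)).1 ≤ p.2 := by
    rw [hvx]
    unfold vx ve
    simp only
    omega
  have key := hHH O h0 h1 j2 y m l (K := K) (k := p.1) (σ := σ)
    (M := D * (R : ℝ) ^ ((2 / 3 : ℝ) * m + 2 / 5)) hN g0 g1 hK hKw (hσ.trans c1)
    (fun e he => c2 e (hσ he)) hY.1 hY.2 (by positivity)
    (fun v hv t ht => hfr p ⟨p1, p2, p3, p4⟩ h0 h1 j2 N hN y hy hyc v hv t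
      (ht.trans (union_subset_union_right hσ)))
  refine key.trans ?_
  have hh1 : (0 : ℝ) ≤ (h : ℝ) + 1 := by
    have : (0 : ℝ) ≤ (h : ℝ) := by exact_mod_cast (by omega : (0 : ℤ) ≤ h)
    linarith
  have hhA : (h : ℝ) + 1 ≤ A * R := by
    have := hO.h2
    rw [hA, add_mul, one_mul, one_div, inv_mul_eq_div]
    linarith
  have e3 : cr ((h : ℝ) + 1) ^ 2 ≤ cr A ^ 2 * (R : ℝ) ^ (2 / 3 : ℝ) := by
    have h3 : cr ((h : ℝ) + 1) ≤ cr A * cr R := by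
      rw [← cr_mul hA0.le hRp.le]; exact cr_mono hh1 hhA
    calc cr ((h : ℝ) + 1) ^ 2 ≤ (cr A * cr R) ^ 2 := pow_le_pow_left₀ (cr_nonneg hh1) h3 2
      _ = cr A ^ 2 * cr R ^ 2 := mul_pow _ _ _
      _ = _ := by
        congr 1
        unfold cr
        rw [← Real.rpow_natCast, ← Real.rpow_mul hRp.le]
        norm_num
  have e4 : (cr ((h : ℝ) + 1) ^ 2) ^ l ≤ (cr A ^ 2) ^ l * (R : ℝ) ^ ((2 / 3 : ℝ) * l) := by
    calc (cr ((h : ℝ) + 1) ^ 2) ^ l ≤ (cr A ^ 2 * (R : ℝ) ^ (2 / 3 : ℝ)) ^ l :=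
          pow_le_pow_left₀ (sq_nonneg _) e3 l
      _ = (cr A ^ 2) ^ l * ((R : ℝ) ^ (2 / 3 : ℝ)) ^ l := mul_pow _ _ _
      _ = _ := by
        rw [← Real.rpow_natCast ((R : ℝ) ^ (2 / 3 : ℝ)) l, ← Real.rpow_mul hRp.le]
  have hKR : (0 : ℝ) ≤ K := by exact_mod_cast (by omega : (0 : ℤ) ≤ K)
  have hCK : 0 ≤ (C * K) ^ l := pow_nonneg (mul_nonneg (by linarith) hKR) l
  calc 2 ^ l * (D * (R : ℝ) ^ ((2 / 3 : ℝ) * m + 2 / 5)) *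
        ((C * K) ^ l * (((l + 1) * 6 ^ l) ^ 2 * (cr ((h : ℝ) + 1) ^ 2) ^ l))
      ≤ 2 ^ l * (D * (R : ℝ) ^ ((2 / 3 : ℝ) * m + 2 / 5)) *
        ((C * K) ^ l * (((l + 1) * 6 ^ l) ^ 2 *
          ((cr A ^ 2) ^ l * (R : ℝ) ^ ((2 / 3 : ℝ) * l)))) := by
        refine mul_le_mul_of_nonneg_left (mul_le_mul_of_nonneg_left
          (mul_le_mul_of_nonneg_left e4 (by positivity)) hCK) (by positivity)
    _ = (2 ^ l * D * ((C * K) ^ l * (((l + 1) * 6 ^ l) ^ 2 * (cr A ^ 2) ^ l))) *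
        ((R : ℝ) ^ ((2 / 3 : ℝ) * m + 2 / 5) * (R : ℝ) ^ ((2 / 3 : ℝ) * l)) := by ring
    _ = _ := by
      rw [← Real.rpow_add hRp]
      congr 2
      ring

end Pool.Agent.Q1.M6b.AB
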