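import Mathlib
import Pool.Agent.Q1.M6b.HBdef
import Pool.Agent.Q1.M6b.Asm2
import Pool.Agent.H81.G1.LpFin
import Pool.Agent.H81.G1.Fin3
import Pool.Agent.H53.G1.BH

set_option autoImplicit false
open Finset

/-! # Chapter B (R45): the bound of the sums over the coupons in the frozen environments -/

namespace Pool.Agent.Q1.M6b.AB

open Pool.Agent.H75.Perc hiding AR VV
open Pool.Agent.H75.TwoArm hiding EF
open Pool.Agent.H99.NC
open Pool.Agent.Q1 Pool.Agent.H74.R45 Pool.Agent.H40.R45 Pool.Agent.H95.R45 Pool.Agent.H81.G1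
open Pool.Agent.H30.Mid Pool.Agent.H46.G1 Pool.Agent.H13.R45
open Pool.Agent.Q1.M6e (OFar Inn inc2)
open Pool.Agent.H33.Q1
open Pool.Agent.Q1.M6b.Gd Pool.Agent.Q1.M6b.Gl

section

variable {w h j K : ℤ} {N : ℕ} {A : Finset (ℤ × ℤ)}

/-- the boxes are separated from the row -/
lemma sep_BA (hw : 2 ≤ w) (w2 : w % 2 = 0) (h2 : h % 2 = 0) (j2 : j % 2 = 0) (hA : A ⊆ Ti w h j)
    (hK : 4 ≤ K) (hN : (N : ℤ) = w) : Pool.Agent.H30.Mid.Sep (BA K h j A) N 0 (j - 1) ∧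
      Pool.Agent.H30.Mid.Sep (BA K h j A) N 0 j := by
  constructor <;> intro x y hm <;> rw [lbt_lt] at hm <;> unfold BA at hm <;>
    rw [mem_biUnion] at hm <;> obtain ⟨e, he, hm⟩ := hm <;>
    have h3 := Bt_sep hw w2 h2 j2 hA hK he hm
  · rcases h3 with h3 | h3
    · left; have := h3.1; rw [sub_zero]; exact this
    · right; have := h3.1; rw [zero_add, hN]; exact this
  · rcases h3 with h3 | h3
    · left; have := h3.2; rw [sub_zero]; exact this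
    · right; have := h3.2; rw [zero_add, hN]; exact this

/-- the boxes do not meet the ties -/
lemma ti_BA (hw : 2 ≤ w) (w2 : w % 2 = 0) (h2 : h % 2 = 0) (j2 : j % 2 = 0) (hA : A ⊆ Ti w h j)
    (hK : 4 ≤ K) (hj0 : 0 ≤ j) (hj1 : j ≤ h) (hKw : h ≤ K * w) {e : ℤ × ℤ} (he : e ∈ Ti w h j) :
    e ∉ BA K h j A := by
  intro hm
  unfold BA at hm
  rw [mem_biUnion] at hm
  obtain ⟨e', he', hm⟩ := hm
  have h3 := Bt_sub hw w2 h2 j2 hA hK hj0 hj1 hKw he' hm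
  rw [mem_union] at h3
  rcases Ti_cases he with ⟨y, rfl, -⟩ | ⟨y, rfl, -⟩
  · rw [lt_mem_RT, lt_mem_RT] at h3
    omega
  · rw [lt_mem_RT, lt_mem_RT] at h3
    omega

/-- the end of the row at the mark -/
lemma mark_end {k : ℕ} {y : Fin N × Dir} (hyc : rcr 0 (j - 1) y = ve ((k : ℤ), j - 1)) :
    ∃ k0 : Fin N, (y = (k0, .W) ∨ y = (k0, .E)) ∧ Pool.Agent.Q1.M6b.Strand.pos y = k := by
  obtain ⟨c, d⟩ := y
  cases d with
  | N => rw [rcr_N] at hyc; exact absurd hyc.symm (ve_ne_he _ _)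
  | S => rw [rcr_S] at hyc; exact absurd hyc.symm (ve_ne_he _ _)
  | W =>
    rw [rcr_W] at hyc
    have h1 := congrArg Prod.fst (ve_inj hyc)
    simp only at h1
    refine ⟨c, Or.inl rfl, ?_⟩
    simp only [Pool.Agent.Q1.M6b.Strand.pos]
    omega
  | E =>
    rw [rcr_E] at hyc
    have h1 := congrArg Prod.fst (ve_inj hyc)
    simp only at h1
    refine ⟨c, Or.inr rfl, ?_⟩
    simp only [Pool.Agent.Q1.M6b.Strand.pos]
    omega

end

/-- the root is far from the rectangle -/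
lemma rootFar {w h : ℤ} {O : Out w h} (R : RootOut O) : RootFar O := by
  intro x y e hh
  refine R.far ?_
  rw [e, lbt_lt, lt_mem_RT]
  omega

/-- **The frozen bound.** -/
theorem FB45_holds (hAP : AP Pool.Agent.Q1.M6c.PlaneK) : FB45 := by
  obtain ⟨b, hb, C, hC, hg1⟩ := g1_final hAP
  intro η hη m l
  obtain ⟨A, hA1, hAη, hAη2⟩ : ∃ A : ℕ, 1 ≤ A ∧ 1 / η ≤ (A : ℝ) ∧ 1 / η ^ 2 ≤ (A : ℝ) := by
    refine ⟨max 1 (max ⌈1 / η⌉₊ ⌈1 / η ^ 2⌉₊), le_max_left _ _, ?_, ?_⟩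
    · refine (Nat.le_ceil _).trans ?_
      exact_mod_cast (le_max_left _ _).trans (le_max_right _ _)
    · refine (Nat.le_ceil _).trans ?_
      exact_mod_cast (le_max_right _ _).trans (le_max_right _ _)
  have hA1r : (1 : ℝ) ≤ A := by exact_mod_cast hA1
  obtain ⟨K, Cb, hK4, hAK, hCb, hbh0⟩ := Pool.Agent.H53.G1.bh l A
  have hbh := hbh0 K le_rfl
  obtain ⟨Cx, hCx, hgx⟩ := gX_root m A (1 / 160) (by norm_num)
  have hA6 : (7 : ℤ) ≤ (A : ℤ) + 6 := by omega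
  obtain ⟨D, hD⟩ := hg1 m (((A : ℤ) + 6) * (4 * b + 8) + 8 * b + 33) ((A : ℤ) + 6) ((A : ℝ) + 1)
    (C ^ (2 * m) * 4 * Cb * 2) (Cx * (A : ℝ) ^ (1 / 160 : ℝ)) (by positivity) (by positivity)
    (by omega) (by nlinarith)
  refine ⟨K, hK4, max D 0, le_max_right _ _, ⌈2 / η⌉₊ + 1, ?_⟩
  intro R hR w h O hO
  have hR1 : 1 ≤ R := by omega
  have hRr : (1 : ℝ) ≤ R := by exact_mod_cast hR1
  have hRp : (0 : ℝ) < R := by linarith
  have hηR : 2 ≤ η * R := by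
    have h3 : (2 / η : ℝ) ≤ R := (Nat.le_ceil _).trans (by exact_mod_cast (by omega : ⌈2 / η⌉₊ ≤ R))
    rw [div_le_iff₀ hη] at h3
    linarith
  have hwA : (w : ℝ) ≤ A * R := by
    refine hO.w2.trans ?_
    rw [div_eq_mul_one_div, mul_comm]
    exact mul_le_mul_of_nonneg_right hAη hRp.le
  have hhA : (h : ℝ) ≤ A * R := by
    refine hO.h2.trans ?_
    rw [div_eq_mul_one_div, mul_comm]
    exact mul_le_mul_of_nonneg_right hAη hRp.le
  have hRA : (R : ℝ) / η ≤ A * (η * R) := by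
    have h3 : 1 / η ^ 2 * (η * R) ≤ A * (η * R) := mul_le_mul_of_nonneg_right hAη2 (by positivity)
    refine le_trans (le_of_eq ?_) h3
    field_simp
  have hhw : (h : ℝ) ≤ A * w := by
    refine hO.h2.trans (hRA.trans ?_)
    exact mul_le_mul_of_nonneg_left hO.w1 (by linarith)
  have hwA' : w ≤ A * R := by exact_mod_cast hwA
  have hhA' : h ≤ A * R := by exact_mod_cast hhA
  have hhw' : h ≤ A * w := by exact_mod_cast hhw
  have hw0 : 2 ≤ w := O.hw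
  have hKw : h ≤ K * w := hhw'.trans (mul_le_mul_of_nonneg_right hAK (by omega))
  refine ⟨hKw, ?_⟩
  rintro ⟨px, j⟩ ⟨q1, q2, q3, q4⟩ h0 h1 j2 N hN y hy hyc v hv t ht
  simp only at q1 q2 q3 q4 h0 h1 j2 hy hyc hv ht ⊢
  have w2 := O.w2
  have h2 := O.h2
  have hpx : 0 < px := by
    have : (0 : ℝ) < (px : ℝ) := by linarith
    exact_mod_cast this
  obtain ⟨k, rfl⟩ : ∃ k : ℕ, px = k := ⟨px.toNat, by omega⟩
  have hj2 : 2 ≤ j := by
    have : (2 : ℝ) ≤ (j : ℝ) := by linarith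
    exact_mod_cast this
  have hj3 : 2 ≤ h - j := by
    have : (2 : ℝ) ≤ ((h - j : ℤ) : ℝ) := by push_cast; linarith
    exact_mod_cast this
  have hkN : k + 1 ≤ N := by
    have : ((k : ℤ) : ℝ) + 2 ≤ (w : ℝ) := by linarith
    have h4 : (k : ℤ) + 2 ≤ w := by exact_mod_cast this
    omega
  have hk1 : 1 ≤ k := by omega
  have g0 : 0 < j := by omega
  have g1 : j < h := by omega
  obtain ⟨hvT, hvc⟩ := mem_powersetCard.1 hv
  obtain ⟨k0, hyk, hpos⟩ := mark_end hyc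
  obtain ⟨R0, hR0⟩ : ∃ R0 : ℕ, (R0 : ℤ) = min j (h - j) := ⟨(min j (h - j)).toNat, by omega⟩
  have hR02 : 2 ≤ R0 := by omega
  have hR0j : (R0 : ℤ) ≤ j := by omega
  have hR0h : (R0 : ℤ) ≤ h - j := by omega
  have hR0η : η * R ≤ (R0 : ℝ) := by
    have e1 : ((R0 : ℤ) : ℝ) = min (j : ℝ) ((h - j : ℤ) : ℝ) := by
      rw [hR0]; push_cast; rfl
    have e2 : (R0 : ℝ) = ((R0 : ℤ) : ℝ) := by push_cast; rfl
    rw [e2, e1, le_min_iff]
    exact ⟨q3, by push_cast; linarith⟩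
  have hNR0 : N ≤ A * R0 := by
    have e1 : (N : ℝ) ≤ A * R0 := by
      have e2 : (N : ℝ) = ((N : ℤ) : ℝ) := by push_cast; rfl
      rw [e2, hN]
      exact hO.w2.trans (hRA.trans (mul_le_mul_of_nonneg_left hR0η (by linarith)))
    exact_mod_cast e1
  have hwR0 : w ≤ A * R0 := by rw [← hN]; exact_mod_cast hNR0
  have hya : w < ((A : ℤ) + 6) * (j + 1) := by nlinarith
  have hyb : w < ((A : ℤ) + 6) * (h - j + 1) := by nlinarith
  obtain ⟨hB, hB'⟩ := sep_BA (K := K) hw0 w2 h2 j2 hvT hK4 hN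
  have hgeo := rowGeo_XF (B := BA K h j v) hN hk1 hkN (by omega : (6 : ℤ) ≤ (A : ℤ) + 6) hya hyb hB hB'
  have htT : t ∩ Ti w h j ⊆ v := by
    intro e he
    rw [mem_inter] at he
    have h3 := ht he.1
    rw [mem_union, mem_union] at h3
    rcases h3 with (h3 | h3) | h3
    · exact absurd h3 (ti_BA hw0 w2 h2 j2 hvT hK4 h0 h1 hKw he.2)
    · exact h3
    · exact absurd he.2 ((CN_sub O h0 h1 j2 hN g0 g1).2 e h3).1
  have key := hD (gE (BL w j (BA K h j v)) (Pool.Agent.H30.Mid.BU w h j (BA K h j v)) (1, -1)) true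
    (j - 1) ((k : ℤ) - (j - 1) + 1) k (N - k) N R hgeo (by omega) (by omega) hRr
    (by
      push_cast
      have e2 : (N : ℝ) = ((N : ℤ) : ℝ) := by push_cast; rfl
      rw [e2, hN]
      nlinarith)
    (fun ω => C ^ m * 2 ^ ((Pool.Agent.Q1.M6b.Nest.Lp (ω ∪ WGl w h j (WF O h0 h1 j2 N (BA K h j v) t)
      (Pool.Agent.H30.Mid.BU w h j (BA K h j v))) (vx (sm true (j - 1) ((k : ℤ) - (j - 1) + 1)))).ncard + 1))
    (fun ω => gX O h0 h1 j2 N (BA K h j v) t m R0 ω)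
    (fun ω _ => by positivity) (fun ω _ => gX_nonneg O h0 h1 j2 m R0 ω) ?_ ?_
    (fun s ω => Amp (XF O h0 h1 j2 N (BA K h j v) t) 0 (j - 1) y (zt ^ (4 : ℤ)) (zt ^ (-4 : ℤ))
      (BL w j (BA K h j v)) (Pool.Agent.H30.Mid.BU w h j (BA K h j v)) k s ω) ?_
  · have e1 : ((N : ℤ) - (k : ℤ)) = ((N - k : ℕ) : ℤ) := by omega
    rw [e1]
    refine key.trans ?_
    exact mul_le_mul_of_nonneg_right (le_max_left _ _) (by positivity)
  · have h5 := hbh R N w h j O h0 h1 j2 v t k hN g0 g1 hwA' hhA' hhw' hvT hvc.le htT (by omega)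
      (by omega)
    have e4 : ((R : ℝ) + 1) ^ (25 / 32 : ℝ) ≤ 2 * (R : ℝ) ^ (25 / 32 : ℝ) := by
      calc ((R : ℝ) + 1) ^ (25 / 32 : ℝ) ≤ (2 * (R : ℝ)) ^ (25 / 32 : ℝ) :=
            Real.rpow_le_rpow (by positivity) (by linarith) (by norm_num)
        _ = (2 : ℝ) ^ (25 / 32 : ℝ) * (R : ℝ) ^ (25 / 32 : ℝ) := Real.mul_rpow (by norm_num) hRp.le
        _ ≤ (2 : ℝ) ^ (1 : ℝ) * (R : ℝ) ^ (25 / 32 : ℝ) :=
            mul_le_mul_of_nonneg_right (Real.rpow_le_rpow_of_exponent_le (by norm_num) (by norm_num))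
              (by positivity)
        _ = _ := by rw [Real.rpow_one]
    rw [show (fun ω : Finset (ℤ × ℤ) => (C ^ m * 2 ^ ((Pool.Agent.Q1.M6b.Nest.Lp (ω ∪ WGl w h j (WF O h0 h1 j2 N (BA K h j v) t)
      (Pool.Agent.H30.Mid.BU w h j (BA K h j v))) (vx (sm true (j - 1) ((k : ℤ) - (j - 1) + 1)))).ncard
        + 1)) ^ 2) = fun ω => (C ^ (2 * m) * 4) * (4 : ℝ) ^ (Pool.Agent.Q1.M6b.Nest.Lp (ω ∪ WGl w h j
        (WF O h0 h1 j2 N (BA K h j v) t) (Pool.Agent.H30.Mid.BU w h j (BA K h j v)))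
        (vx (sm true (j - 1) ((k : ℤ) - (j - 1) + 1)))).ncard from by
      funext ω
      generalize (Pool.Agent.Q1.M6b.Nest.Lp (ω ∪ WGl w h j (WF O h0 h1 j2 N (BA K h j v) t)
      (Pool.Agent.H30.Mid.BU w h j (BA K h j v))) (vx (sm true (j - 1) ((k : ℤ) - (j - 1) + 1)))).ncard = n
      rw [mul_pow, ← pow_mul, ← pow_mul, show (4 : ℝ) = 2 ^ 2 by norm_num, ← pow_mul]
      ring, Ex_smul]
    calc C ^ (2 * m) * 4 * _ ≤ C ^ (2 * m) * 4 * (Cb * ((R : ℝ) + 1) ^ (25 / 32 : ℝ)) :=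
          mul_le_mul_of_nonneg_left h5 (by positivity)
      _ ≤ C ^ (2 * m) * 4 * (Cb * (2 * (R : ℝ) ^ (25 / 32 : ℝ))) :=
          mul_le_mul_of_nonneg_left (mul_le_mul_of_nonneg_left e4 hCb.le) (by positivity)
      _ = _ := by ring
  · have h5 := hgx N w h j O h0 h1 j2 (BA K h j v) t R0 ((A : ℝ) * R) hR02 (by
      refine le_trans ?_ hhA
      exact_mod_cast (by omega : (R0 : ℤ) ≤ h)) hNR0
    rw [Real.mul_rpow (by positivity) hRp.le, ← mul_assoc] at h5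
    exact h5
  · intro S p' hp' k₁ hk₁ k₂ hk₂ L hL y' hy' ω hω hS
    obtain ⟨A', hh, hA', hn⟩ := data_XF' O h0 h1 j2 hN g0 g1 (rootFar hO.root) hB hB' hb
      (by omega : (6 : ℤ) ≤ (A : ℤ) + 6) hya hyb (by nlinarith) hk1 hkN hy hyk hpos hR02 hR0j hR0h
      hk₁ hk₂ hL hy' hω hS
    refine ⟨A', hh, hA', ?_⟩
    rw [mem_antidiagonal.1 hp'] at hn
    calc ‖A'‖ * C ^ m ≤ _ * C ^ m := mul_le_mul_of_nonneg_right hn (by positivity)
      _ = _ := by ring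

end Pool.Agent.Q1.M6b.AB
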