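import Mathlib
import Pool.Agent.Q1.M6b.AB
import Pool.Agent.H64.R45.Same

set_option autoImplicit false
open Finset

/-! # Chapter B (R45): the comparison of the environments -/

namespace Pool.Agent.Q1.M6b.AB

open Pool.Agent.Q1 Pool.Agent.H74.R45 Pool.Agent.H40.R45 Pool.Agent.H95.R45

/-- chapter A: the increments off the moved line -/
theorem same45 : Same45 := by
  intro w h O R u hu
  refine Pool.Agent.H64.R45.same_wa O R (sin_ne ?_)
  have h1 : (2 * u).im = 2 * u.im := by simp
  rw [h1]
  intro h2
  linarith

end Pool.Agent.Q1.M6b.AB
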