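import Mathlib
import Pool.Agent.Q1.M6b.HBdef

set_option autoImplicit false
open Finset

/-! # Chapter B (R45): the Taylor coefficients tend to zero -/

namespace Pool.Agent.Q1.M6b.AB

open Pool.Agent.H75.Perc hiding AR VV
open Pool.Agent.H75.TwoArm hiding EF
open Pool.Agent.H99.NC
open Pool.Agent.Q1 Pool.Agent.H74.R45 Pool.Agent.H40.R45 Pool.Agent.H95.R45 Pool.Agent.H81.G1
open Pool.Agent.H30.Mid Pool.Agent.H46.G1 Pool.Agent.H13.R45
open Pool.Agent.Q1.M6e (OFar Inn inc2)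
open Pool.Agent.H33.Q1
open Pool.Agent.Q1.M6b.Gd Pool.Agent.Q1.M6b.Gl

/-- **the exact expansion** in the couplings (helper76) -/
def Exp45 : Prop :=
  ∀ (w h : ℤ) (O : Out w h), RootOut O → ∀ p : ℤ × ℤ, 0 < p.1 → p.1 < w → 0 < p.2 → p.2 < h →
    ∀ (h0 : 0 ≤ p.2) (h1 : p.2 ≤ h) (j2 : p.2 % 2 = 0) (N : ℕ), (N : ℤ) = w →
    ∀ y : Fin N × Dir, H81.G1.inc (rp 0 (p.2 - 1)) y = true →
    rcr 0 (p.2 - 1) y = ve (p.1, p.2 - 1) →
    ∃ (I : Finset Idx) (Hn : Idx → ℂ), Expd O p.2 p.1 I Hn ∧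
      ∀ n, Hn n = 0 ∨ ∃ σ, σ ⊆ CN h p.2 ∧ Hn n = HH O h0 h1 j2 y n.1 n.2.1 σ

/-- the incoming end of the row at the position `x` -/
lemma exists_end {w j x : ℤ} {N : ℕ} (hN : (N : ℤ) = w) (j2 : j % 2 = 0) (h0 : 0 < x) (h1 : x < w) :
    ∃ y : Fin N × Dir, H81.G1.inc (rp 0 (j - 1)) y = true ∧ rcr 0 (j - 1) y = ve (x, j - 1) := by
  rcases Int.emod_two_eq_zero_or_one x with hx | hx
  · refine ⟨(⟨x.toNat, by omega⟩, .W), ?_, ?_⟩
    · have h3 : rp 0 (j - 1) (⟨x.toNat, by omega⟩ : Fin N) = true := by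
        rw [rp_true]; simp only; omega
      unfold H81.G1.inc
      rw [h3]
      rfl
    · rw [rcr_W]
      congr 1
      refine Prod.ext ?_ rfl
      simp only
      omega
  · refine ⟨(⟨(x - 1).toNat, by omega⟩, .E), ?_, ?_⟩
    · have h3 : rp 0 (j - 1) (⟨(x - 1).toNat, by omega⟩ : Fin N) = true := by
        rw [rp_true]; simp only; omega
      unfold H81.G1.inc
      rw [h3]
      rfl
    · rw [rcr_E]
      congr 1
      refine Prod.ext ?_ rfl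
      simp only
      omega

lemma norm_sg (n : ℤ) : ‖Pool.Agent.H74.R45.sg n‖ = 1 := by
  unfold Pool.Agent.H74.R45.sg
  split_ifs <;> simp

/-- extension by zero -/
lemma Expd.zero {w h : ℤ} {O : Out w h} {j x : ℤ} {I I' : Finset Idx} {Hn : Idx → ℂ}
    (H : Expd O j x I Hn) (hI : I ⊆ I') : Expd O j x I' (fun n => if n ∈ I then Hn n else 0) := by
  have h1 : Expd O j x I (fun n => if n ∈ I then Hn n else 0) := by
    intro t
    rw [H t]
    exact sum_congr rfl fun n hn => by simp only [if_pos hn]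
  exact h1.mono hI fun n _ hn => if_neg hn

/-- **The Taylor coefficients tend to zero.** -/
theorem Tay45_of (hE : Exp45) (hH : HB45) : Tay45 := by
  classical
  intro η hη m ε hε
  choose D R0 hD using fun n : ℕ × ℕ => hH η hη n.1 n.2
  set ι : Type := (Σ wh : ℤ × ℤ, Out wh.1 wh.2) × (ℤ × ℤ) × (ℤ × ℤ) with hι
  set S : ℕ → Set ι := fun R => {v | 1 ≤ R ∧ Sc η R v.1.2 ∧ v.2.1.2 % 2 = 0 ∧ v.2.2.2 % 2 = 0 ∧
    Inn v.1.1.1 v.1.1.2 (η * R) v.2.1 ∧ Inn v.1.1.1 v.1.1.2 (η * R) v.2.2} with hS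
  have one : ∀ (R : ℕ) (w h : ℤ) (O : Out w h) (p : ℤ × ℤ), 1 ≤ R → Sc η R O → p.2 % 2 = 0 →
      Inn w h (η * R) p → ∃ (I : Finset Idx) (Hn : Idx → ℂ), Expd O p.2 p.1 I Hn ∧
        ∀ n : Idx, R0 (n.1, n.2.1) ≤ R →
          ‖Hn n‖ ≤ |D (n.1, n.2.1)| * (R : ℝ) ^ ((2 / 3 : ℝ) * (deg n) + 2 / 5) := by
    intro R w h O p hR hO hp2 hp
    have hRr : (1 : ℝ) ≤ R := by exact_mod_cast hR
    have hpos : 0 < η * R := by positivity
    obtain ⟨p1, p2, p3, p4⟩ := id hp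
    have a1 : 0 < p.1 := by
      have : (0 : ℝ) < (p.1 : ℝ) := by linarith
      exact_mod_cast this
    have a2 : p.1 < w := by
      have : (p.1 : ℝ) < (w : ℝ) := by linarith
      exact_mod_cast this
    have a3 : 0 < p.2 := by
      have : (0 : ℝ) < (p.2 : ℝ) := by linarith
      exact_mod_cast this
    have a4 : p.2 < h := by
      have : (p.2 : ℝ) < (h : ℝ) := by linarith
      exact_mod_cast this
    have hN : ((w.toNat : ℕ) : ℤ) = w := by omega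
    obtain ⟨y, hy, hyc⟩ := exists_end hN hp2 a1 a2
    obtain ⟨I, Hn, h3, h4⟩ := hE w h O hO.root p a1 a2 a3 a4 a3.le a4.le hp2 _ hN y hy hyc
    refine ⟨I, Hn, h3, fun n hn => ?_⟩
    rcases h4 n with h5 | ⟨σ, hσ, h5⟩
    · rw [h5, norm_zero]; positivity
    · rw [h5]
      refine (hD (n.1, n.2.1) R hn w h O hO p hp a3.le a4.le hp2 _ hN y hy hyc σ hσ).trans ?_
      have e : (2 / 3 : ℝ) * ((n.1 : ℝ) + (n.2.1 : ℝ)) + 2 / 5 = (2 / 3 : ℝ) * (deg n) + 2 / 5 := by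
        unfold deg; push_cast; ring
      rw [show (2 / 3 : ℝ) * (((n.1, n.2.1) : ℕ × ℕ).1 + ((n.1, n.2.1) : ℕ × ℕ).2) + 2 / 5 =
        (2 / 3 : ℝ) * (deg n) + 2 / 5 from e]
      exact mul_le_mul_of_nonneg_right (le_abs_self _) (by positivity)
  have two : ∀ (R : ℕ) (v : ι), v ∈ S R → ∃ (I : Finset Idx) (Hn : Idx → ℂ),
      (∀ z : ℂ, VV v.1.2 (R : ℝ) v.2.1.2 v.2.1.1 v.2.2.2 v.2.2.1 z = ((R : ℝ) ^ (-(2 / 3) : ℝ) : ℝ) *
        ∑ n ∈ I, mn n (z * ((R : ℝ) ^ (-(2 / 3) : ℝ) : ℝ)) * Hn n) ∧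
      ∀ n : Idx, R0 (n.1, n.2.1) ≤ R →
        ‖Hn n‖ ≤ (2 * |D (n.1, n.2.1)|) * (R : ℝ) ^ ((2 / 3 : ℝ) * (deg n) + 2 / 5) := by
    rintro R ⟨⟨⟨w, h⟩, O⟩, p, q⟩ ⟨hR, hO, hp2, hq2, hp, hq⟩
    simp only at hO hp2 hq2 hp hq ⊢
    obtain ⟨I, Hn, h1, h2⟩ := one R w h O p hR hO hp2 hp
    obtain ⟨I', Hn', h1', h2'⟩ := one R w h O q hR hO hq2 hq
    refine ⟨I ∪ I', fun n => Pool.Agent.H74.R45.sg p.1 * (if n ∈ I then Hn n else 0) -
      Pool.Agent.H74.R45.sg q.1 * (if n ∈ I' then Hn' n else 0), ?_, ?_⟩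
    · intro z
      exact VV_expand (Expd.zero h1 subset_union_left) (Expd.zero h1' subset_union_right) z
    · intro n hn
      have hb : 0 ≤ |D (n.1, n.2.1)| * (R : ℝ) ^ ((2 / 3 : ℝ) * (deg n) + 2 / 5) := by positivity
      have b1 : ‖(if n ∈ I then Hn n else 0)‖ ≤
          |D (n.1, n.2.1)| * (R : ℝ) ^ ((2 / 3 : ℝ) * (deg n) + 2 / 5) := by
        split_ifs
        · exact h2 n hn
        · rw [norm_zero]; exact hb
      have b2 : ‖(if n ∈ I' then Hn' n else 0)‖ ≤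
          |D (n.1, n.2.1)| * (R : ℝ) ^ ((2 / 3 : ℝ) * (deg n) + 2 / 5) := by
        split_ifs
        · exact h2' n hn
        · rw [norm_zero]; exact hb
      refine (norm_sub_le _ _).trans ?_
      rw [norm_mul, norm_mul, norm_sg, norm_sg, one_mul, one_mul]
      linarith
  choose! I Hn hexp hbd using two
  have key := Pool.Agent.Q1.M6b.Tay.taylor_zero (deg := deg) deg_fin (mn := mn) (ρ := 1 / 2) (by norm_num) (B := BB)
    mn_diff (fun n z hz => mn_le n hz) (ι := ι) (R := fun R : ℕ => (R : ℝ)) tendsto_natCast_atTop_atTop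
    (S := S) (s := 2 / 5) (by norm_num) (I := I) (H := Hn)
    (by
      intro n
      refine ⟨2 * |D (n.1, n.2.1)|, ?_⟩
      filter_upwards [Filter.eventually_ge_atTop (R0 (n.1, n.2.1))] with R hR v hv
      exact hbd R v hv n hR)
    (V := fun R v z => VV v.1.2 (R : ℝ) v.2.1.2 v.2.1.1 v.2.2.2 v.2.2.1 z)
    (by
      refine Filter.Eventually.of_forall fun R v hv => Filter.Eventually.of_forall fun z => ?_
      exact hexp R v hv z) m ε hε
  rw [Filter.eventually_atTop] at key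
  obtain ⟨R1, hR1⟩ := key
  refine ⟨max R1 1, ?_⟩
  intro R hR w h O hO p q hp2 hq2 hp hq
  exact hR1 R ((le_max_left _ _).trans hR) ⟨⟨⟨w, h⟩, O⟩, p, q⟩
    ⟨(le_max_right _ _).trans hR, hO, hp2, hq2, hp, hq⟩

end Pool.Agent.Q1.M6b.AB
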