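import Mathlib
import Pool.Agent.Q1.M6b.FB
import Pool.Agent.Q1.M6b.TayOf
import Pool.Agent.Q1.M6b.Same45
import Pool.Agent.Q1.M6c.APMain
import Pool.Agent.H76.R45.ExpdH

set_option autoImplicit false
open Finset

/-! # Chapter B (R45): everything except the a priori bound of the potentials -/

namespace Pool.Agent.Q1.M6b.AB

open Pool.Agent.Q1 Pool.Agent.H74.R45 Pool.Agent.H40.R45 Pool.Agent.H95.R45

/-- the bound of the coefficients, without hypotheses -/
theorem hb45 : HB45 := HB45_of (FB45_holds Pool.Agent.Q1.M6c.ap_planeK)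

/-- the exact expansion -/
theorem exp45 : Exp45 := by
  intro w h O R p a1 a2 a3 a4 h0 h1 j2 N hN y hy hyc
  refine ⟨Pool.Agent.H76.R45.IX N h.toNat, fun n => Pool.Agent.Q1.M6b.Gd.HH O h0 h1 j2 y n.1 n.2.1
    (Pool.Agent.H76.R45.sgB h p.2 n.2.2), ?_, ?_⟩
  · exact Pool.Agent.H76.R45.expdHH O h0 h1 j2 a3 a4
      (Pool.Agent.H76.R45.far_root O h0 h1 (rootFar R)) a1.le a2 hN hyc le_rfl le_rfl
  · intro n
    exact Or.inr ⟨_, Pool.Agent.H76.R45.sgB_CN _, rfl⟩

/-- the Taylor coefficients tend to zero -/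
theorem tay45 : Tay45 := Tay45_of exp45 hb45

/-- **Chapters A and B**, from the a priori bound of the potentials -/
theorem AB45_of_BD (hBD : BD45) : AB45 := AB45_of same45 hBD tay45

end Pool.Agent.Q1.M6b.AB
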