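import Mathlib
import Pool.Agent.Q1.M6b.R45B
import Pool.Agent.H20.Q1.BDf

set_option autoImplicit false

/-! # Chapters A and B (R45) -/

namespace Pool.Agent.Q1.M6b.AB

open Pool.Agent.H95.R45

/-- **Chapters A and B for the `45` degree rectangles.** -/
theorem ab45 : AB45 := AB45_of_BD Pool.Agent.H20.Q1.bd45

end Pool.Agent.Q1.M6b.AB
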