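import Pool.Agent.H81.G1.Net

set_option autoImplicit false
open Finset

/-! Cancellation of the exchange vertices in the vertex sum of a row (helper81's `Net`).

An inner arc is a wire which joins the upper ends of two columns `x < y` of a row, such that all tiles
from `x` to `y` are over-tiles, and such that the upper ends of the columns between are joined among
themselves. The arrow configurations with an exchange (row arrows in, column arrows out) at a foot of an
inner arc cancel in pairs: exchange at `x` against exchange at `y`. -/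

namespace Pool.Agent.Q1.M6b.ExN

open Pool.Agent.H81.G1

lemma zt_add (m n : ℤ) : zt ^ (m + n) = zt ^ m * zt ^ n := zpow_add₀ zt_ne m n

/-- the weight of the exchange vertex, `√3` -/
noncomputable def sq3 : ℂ := zt ^ 2 + (zt ^ 2)⁻¹

lemma out_out : zt ^ 4 * zt ^ 2 + (zt ^ 4)⁻¹ * (zt ^ 2)⁻¹ = 0 := by
  have h := zt_twelve
  have h2 := zt_ne
  field_simp
  linear_combination h

lemma in_in : zt ^ 4 * (zt ^ 2)⁻¹ + (zt ^ 4)⁻¹ * zt ^ 2 = zt ^ 2 + (zt ^ 2)⁻¹ := by
  have h2 := zt_ne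
  field_simp

/-- the vertex weights of an over-tile -/
lemma vert_over (w n e s : ℤˣ) : vert (zt ^ (4 : ℤ)) (zt ^ (-4 : ℤ)) w n e s =
    if e = -w ∧ s = -n then zt ^ (-(4 * ((w * n : ℤˣ) : ℤ)))
    else if w = -1 ∧ e = -1 ∧ n = 1 ∧ s = 1 then sq3 else 0 := by
  have h1 := out_out
  have h2 := in_in
  unfold vert sq3
  rcases Int.units_eq_one_or w with rfl | rfl <;> rcases Int.units_eq_one_or n with rfl | rfl <;>
    rcases Int.units_eq_one_or e with rfl | rfl <;> rcases Int.units_eq_one_or s with rfl | rfl <;>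
    simp [show (1 : ℤˣ) ≠ -1 by decide, show (-1 : ℤˣ) ≠ 1 by decide]
  · exact h1
  · exact h2

/-- weight of the wires at an end -/
noncomputable def ge {N : ℕ} (X : Net (Fin N)) (o : Fin N × Dir → ℤˣ) (p : Fin N × Dir) : ℂ :=
  if o p = 1 then zt ^ (-X.t p) else 1

/-- the factor of a column -/
noncomputable def F {N : ℕ} (X : Net (Fin N)) (a b : Fin N → ℂ) (o : Fin N × Dir → ℤˣ) (c : Fin N) : ℂ :=
  vert (a c) (b c) (o (c, .W)) (o (c, .N)) (o (c, .E)) (o (c, .S)) *
    (ge X o (c, .W) * ge X o (c, .N) * ge X o (c, .E) * ge X o (c, .S))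

variable {N : ℕ} {X : Net (Fin N)} {a b : Fin N → ℂ}

lemma wt_eq (X : Net (Fin N)) (a b : Fin N → ℂ) (o : Fin N × Dir → ℤˣ) :
    X.wt a b o = ∏ c, F X a b o c := by
  unfold Net.wt F
  rw [prod_mul_distrib]
  congr 1
  rw [← univ_product_univ, prod_product]
  refine prod_congr rfl fun c _ => ?_
  have : (univ : Finset Dir) = {.W, .N, .E, .S} := rfl
  rw [this]
  rw [prod_insert (by decide), prod_insert (by decide), prod_insert (by decide), prod_singleton]
  unfold ge
  ring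

/-- is the end special (root or mark wire)? -/
def Sp (X : Net (Fin N)) (p : Fin N × Dir) : Prop :=
  p = X.x0 ∨ p = X.π X.x0 ∨ p = X.y0 ∨ p = X.π X.y0

/-- an inner arc of a row -/
structure Inner (X : Net (Fin N)) (a b : Fin N → ℂ) (x y : Fin N) : Prop where
  lt : x < y
  arc : X.π (x, .N) = (y, .N)
  ovr : ∀ c, x ≤ c → c ≤ y → a c = zt ^ (4 : ℤ) ∧ b c = zt ^ (-4 : ℤ)
  row : ∀ c c' : Fin N, x ≤ c → c' ≤ y → (c' : ℕ) = c + 1 → X.π (c, .E) = (c', .W)
  nsE : ∀ c, x ≤ c → c < y → ¬ Sp X (c, .E)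
  nsN : ∀ c, x ≤ c → c ≤ y → ¬ Sp X (c, .N)
  nest : ∀ z, x < z → z < y → ∃ z', x < z' ∧ z' < y ∧ z' ≠ z ∧ X.π (z, .N) = (z', .N)
  turn : X.t (x, .N) = ∑ c ∈ Finset.Ico x y, X.t (c, .E) - 2

section
variable (hinv : ∀ p, X.π (X.π p) = p)
include hinv

lemma Sp_pi {p : Fin N × Dir} (h : Sp X (X.π p)) : Sp X p := by
  unfold Sp at *
  rcases h with h | h | h | h
  · right; left; rw [← h, hinv]
  · left; have := congrArg X.π h; rwa [hinv, hinv] at this
  · right; right; right; rw [← h, hinv]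
  · right; right; left; have := congrArg X.π h; rwa [hinv, hinv] at this

end

lemma cons_of {o : Fin N × Dir → ℤˣ} (h : X.Cons o) {p : Fin N × Dir} (hp : ¬ Sp X p) :
    o (X.π p) = -o p := by
  unfold Sp at hp
  push Not at hp
  exact h.2.2.2.2 p hp.1 hp.2.1 hp.2.2.1 hp.2.2.2

/-- the ends whose arrows are reversed -/
def Tg (x y : Fin N) (p : Fin N × Dir) : Prop :=
  p = (x, .N) ∨ p = (y, .N) ∨ (p.2 = .E ∧ x ≤ p.1 ∧ p.1 < y) ∨ (p.2 = .W ∧ x < p.1 ∧ p.1 ≤ y)

instance (x y : Fin N) (p : Fin N × Dir) : Decidable (Tg x y p) := by unfold Tg; infer_instance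

/-- reversal of the arc and of the row between its feet -/
def tog (x y : Fin N) (o : Fin N × Dir → ℤˣ) : Fin N × Dir → ℤˣ := fun p =>
  if Tg x y p then -o p else o p

lemma tog_tog (x y : Fin N) (o : Fin N × Dir → ℤˣ) : tog x y (tog x y o) = o := by
  funext p
  unfold tog
  split_ifs <;> simp

lemma tog_of {x y : Fin N} {o : Fin N × Dir → ℤˣ} {p : Fin N × Dir} (h : Tg x y p) :
    tog x y o p = -o p := if_pos h

lemma tog_not {x y : Fin N} {o : Fin N × Dir → ℤˣ} {p : Fin N × Dir} (h : ¬ Tg x y p) :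
    tog x y o p = o p := if_neg h

section
variable {x y : Fin N} (hI : Inner X a b x y) (hinv : ∀ p, X.π (X.π p) = p)
include hI hinv

lemma Tg_pi {p : Fin N × Dir} (h : Tg x y p) : Tg x y (X.π p) := by
  rcases h with rfl | rfl | ⟨h1, h2, h3⟩ | ⟨h1, h2, h3⟩
  · rw [hI.arc]; exact Or.inr (Or.inl rfl)
  · rw [← hI.arc, hinv]; exact Or.inl rfl
  · obtain ⟨c, d⟩ := p
    simp only at h1 h2 h3
    subst h1
    have h4 : (c : ℕ) < y := h3
    have h5 : (c : ℕ) + 1 < N := by have := y.2; omega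
    rw [hI.row c ⟨c + 1, h5⟩ h2 (Fin.le_def.2 (by simp; omega)) rfl]
    exact Or.inr (Or.inr (Or.inr ⟨rfl, Fin.lt_def.2 (by have := Fin.le_def.1 h2; simp; omega),
      Fin.le_def.2 (by simp; omega)⟩))
  · obtain ⟨c, d⟩ := p
    simp only at h1 h2 h3
    subst h1
    have h4 : (x : ℕ) < c := h2
    have h5 : (c : ℕ) - 1 < N := by have := c.2; omega
    have h6 := hI.row ⟨c - 1, h5⟩ c (Fin.le_def.2 (by simp; omega)) h3 (by simp; omega)
    rw [← h6, hinv]
    exact Or.inr (Or.inr (Or.inl ⟨rfl, Fin.le_def.2 (by simp; omega),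
      Fin.lt_def.2 (by have := Fin.le_def.1 h3; simp; omega)⟩))

lemma Tg_ns {p : Fin N × Dir} (h : Tg x y p) : ¬ Sp X p := by
  rcases h with rfl | rfl | ⟨h1, h2, h3⟩ | ⟨h1, h2, h3⟩
  · exact hI.nsN x le_rfl hI.lt.le
  · exact hI.nsN y hI.lt.le le_rfl
  · obtain ⟨c, d⟩ := p
    simp only at h1 h2 h3
    subst h1
    exact hI.nsE c h2 h3
  · obtain ⟨c, d⟩ := p
    simp only at h1 h2 h3
    subst h1
    have h4 : (x : ℕ) < c := h2
    have h5 : (c : ℕ) - 1 < N := by have := c.2; omega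
    have h6 := hI.row ⟨c - 1, h5⟩ c (Fin.le_def.2 (by simp; omega)) h3 (by simp; omega)
    intro hs
    have h7 : Sp X (X.π (c, .W)) := by
      have hh : (c, Dir.W) = X.π (X.π (c, .W)) := (hinv _).symm
      rw [hh] at hs
      exact Sp_pi hinv hs
    rw [← h6, hinv] at h7
    exact hI.nsE _ (Fin.le_def.2 (by simp; omega))
      (Fin.lt_def.2 (by have := Fin.le_def.1 h3; simp; omega)) h7

lemma cons_tog {o : Fin N × Dir → ℤˣ} (h : X.Cons o) : X.Cons (tog x y o) := by
  have ns : ∀ p, Sp X p → tog x y o p = o p := fun p hp =>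
    tog_not fun ht => Tg_ns hI hinv ht hp
  obtain ⟨h1, h2, h3, h4, h5⟩ := h
  refine ⟨?_, ?_, ?_, ?_, fun p k1 k2 k3 k4 => ?_⟩
  · rw [ns _ (Or.inl rfl)]; exact h1
  · rw [ns _ (Or.inr (Or.inl rfl))]; exact h2
  · rw [ns _ (Or.inr (Or.inr (Or.inl rfl)))]; exact h3
  · rw [ns _ (Or.inr (Or.inr (Or.inr rfl)))]; exact h4
  · have h6 := h5 p k1 k2 k3 k4
    by_cases ht : Tg x y p
    · rw [tog_of ht, tog_of (Tg_pi hI hinv ht), h6]
    · have ht' : ¬ Tg x y (X.π p) := fun hh => ht (by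
        have := Tg_pi hI hinv hh; rwa [hinv] at this)
      rw [tog_not ht, tog_not ht', h6]

end

/-- exchange at the left foot -/
structure P1 (x y : Fin N) (o : Fin N × Dir → ℤˣ) : Prop where
  oE : ∀ c, x ≤ c → c < y → o (c, .E) = -1
  oW : ∀ c, x < c → c ≤ y → o (c, .W) = 1
  xW : o (x, .W) = -1
  xN : o (x, .N) = 1
  xS : o (x, .S) = 1
  yN : o (y, .N) = -1
  yS : o (y, .S) = 1
  yE : o (y, .E) = -1
  st : ∀ z, x < z → z < y → o (z, .S) = -o (z, .N)

/-- exchange at the right foot -/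
structure P2 (x y : Fin N) (o : Fin N × Dir → ℤˣ) : Prop where
  oE : ∀ c, x ≤ c → c < y → o (c, .E) = 1
  oW : ∀ c, x < c → c ≤ y → o (c, .W) = -1
  xW : o (x, .W) = -1
  xN : o (x, .N) = -1
  xS : o (x, .S) = 1
  yN : o (y, .N) = 1
  yS : o (y, .S) = 1
  yE : o (y, .E) = -1
  st : ∀ z, x < z → z < y → o (z, .S) = -o (z, .N)

section
variable {x y : Fin N}

lemma nT_xW : ¬ Tg x y (x, .W) := by
  rintro (h | h | h | h)
  · simp at h
  · simp at h
  · exact absurd h.1 (by simp)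
  · exact lt_irrefl _ h.2.1

lemma nT_yE : ¬ Tg x y (y, .E) := by
  rintro (h | h | h | h)
  · simp at h
  · simp at h
  · exact lt_irrefl _ h.2.2
  · exact absurd h.1 (by simp)

lemma nT_S (c : Fin N) : ¬ Tg x y (c, .S) := by
  rintro (h | h | h | h)
  · simp at h
  · simp at h
  · exact absurd h.1 (by simp)
  · exact absurd h.1 (by simp)

lemma nT_N {c : Fin N} (h1 : c ≠ x) (h2 : c ≠ y) : ¬ Tg x y (c, .N) := by
  rintro (h | h | h | h)
  · simp at h; exact h1 h
  · simp at h; exact h2 h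
  · exact absurd h.1 (by simp)
  · exact absurd h.1 (by simp)

lemma T_E {c : Fin N} (h1 : x ≤ c) (h2 : c < y) : Tg x y (c, .E) := Or.inr (Or.inr (Or.inl ⟨rfl, h1, h2⟩))

lemma T_W {c : Fin N} (h1 : x < c) (h2 : c ≤ y) : Tg x y (c, .W) := Or.inr (Or.inr (Or.inr ⟨rfl, h1, h2⟩))

lemma nT_E {c : Fin N} (h : ¬ (x ≤ c ∧ c < y)) : ¬ Tg x y (c, .E) := by
  rintro (h' | h' | h' | h')
  · simp at h'
  · simp at h'
  · exact h h'.2
  · exact absurd h'.1 (by simp)

lemma nT_W {c : Fin N} (h : ¬ (x < c ∧ c ≤ y)) : ¬ Tg x y (c, .W) := by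
  rintro (h' | h' | h' | h')
  · simp at h'
  · simp at h'
  · exact absurd h'.1 (by simp)
  · exact h h'.2

lemma P1.tog {o : Fin N × Dir → ℤˣ} (h : P1 x y o) : P2 x y (tog x y o) where
  oE c h1 h2 := by rw [tog_of (T_E h1 h2), h.oE c h1 h2]; simp
  oW c h1 h2 := by rw [tog_of (T_W h1 h2), h.oW c h1 h2]
  xW := by rw [tog_not nT_xW, h.xW]
  xN := by rw [tog_of (Or.inl rfl), h.xN]
  xS := by rw [tog_not (nT_S _), h.xS]
  yN := by rw [tog_of (Or.inr (Or.inl rfl)), h.yN]; simp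
  yS := by rw [tog_not (nT_S _), h.yS]
  yE := by rw [tog_not nT_yE, h.yE]
  st z h1 h2 := by rw [tog_not (nT_S _), tog_not (nT_N h1.ne' h2.ne), h.st z h1 h2]

lemma P2.tog {o : Fin N × Dir → ℤˣ} (h : P2 x y o) : P1 x y (tog x y o) where
  oE c h1 h2 := by rw [tog_of (T_E h1 h2), h.oE c h1 h2]
  oW c h1 h2 := by rw [tog_of (T_W h1 h2), h.oW c h1 h2]; simp
  xW := by rw [tog_not nT_xW, h.xW]
  xN := by rw [tog_of (Or.inl rfl), h.xN]; simp
  xS := by rw [tog_not (nT_S _), h.xS]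
  yN := by rw [tog_of (Or.inr (Or.inl rfl)), h.yN]
  yS := by rw [tog_not (nT_S _), h.yS]
  yE := by rw [tog_not nT_yE, h.yE]
  st z h1 h2 := by rw [tog_not (nT_S _), tog_not (nT_N h1.ne' h2.ne), h.st z h1 h2]

lemma ge_eq {o o' : Fin N × Dir → ℤˣ} {p : Fin N × Dir} (h : o p = o' p) : ge X o p = ge X o' p := by
  unfold ge; rw [h]

/-- the sum of the turnings of the row between the feet, seen from the west ends -/
lemma turnW (hI : Inner X a b x y) (ht : ∀ p, X.t (X.π p) = -X.t p) :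
    ∑ c ∈ Finset.Ioc x y, X.t (c, .W) = -∑ c ∈ Finset.Ico x y, X.t (c, .E) := by
  rw [← sum_neg_distrib]
  symm
  have hy := y.2
  refine sum_bij (fun c hc => (⟨c.val + 1, by
    have := Fin.lt_def.1 (Finset.mem_Ico.1 hc).2; omega⟩ : Fin N)) ?_ ?_ ?_ ?_
  · intro c hc
    obtain ⟨h1, h2⟩ := Finset.mem_Ico.1 hc
    rw [Finset.mem_Ioc]
    exact ⟨Fin.lt_def.2 (by have := Fin.le_def.1 h1; simp; omega),
      Fin.le_def.2 (by have := Fin.lt_def.1 h2; simp; omega)⟩
  · intro c _ c' _ h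
    have := congrArg Fin.val h
    simp only at this
    exact Fin.ext (by omega)
  · intro c hc
    obtain ⟨h1, h2⟩ := Finset.mem_Ioc.1 hc
    have h1' := Fin.lt_def.1 h1
    have h2' := Fin.le_def.1 h2
    refine ⟨⟨c.val - 1, by omega⟩, Finset.mem_Ico.2 ⟨Fin.le_def.2 (by simp; omega),
      Fin.lt_def.2 (by simp; omega)⟩, Fin.ext (by simp; omega)⟩
  · intro c hc
    obtain ⟨h1, h2⟩ := Finset.mem_Ico.1 hc
    have h3 := hI.row c ⟨c.val + 1, by have := Fin.lt_def.1 h2; omega⟩ h1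
      (Fin.le_def.2 (by have := Fin.lt_def.1 h2; simp; omega)) rfl
    rw [← ht, h3]

lemma sum_zt {ι : Type*} (s : Finset ι) (f : ι → ℤ) : ∏ i ∈ s, zt ^ f i = zt ^ ∑ i ∈ s, f i := by
  classical
  induction s using Finset.induction_on with
  | empty => simp
  | insert i s hi ih => rw [prod_insert hi, sum_insert hi, zt_add, ih]

/-- **the ratio of the weights is `-1`** -/
lemma wt_tog (hI : Inner X a b x y) (hinv : ∀ p, X.π (X.π p) = p) (ht : ∀ p, X.t (X.π p) = -X.t p)
    {o : Fin N × Dir → ℤˣ} (h : P1 x y o)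
    (hz : ∀ z z', x < z → z < y → X.π (z, .N) = (z', .N) → o (z', .N) = -o (z, .N)) :
    X.wt a b (tog x y o) = -X.wt a b o := by
  classical
  have h' := h.tog
  set o' := tog x y o with ho'
  have hxy := hI.lt
  rw [wt_eq, wt_eq]
  -- splitting
  have hsplit : ∀ f : Fin N → ℂ, ∏ c, f c =
      (∏ c ∈ Finset.univ \ Finset.Icc x y, f c) * (f x * (f y * ∏ c ∈ Finset.Ioo x y, f c)) := by
    intro f
    rw [← Finset.prod_sdiff (Finset.subset_univ (Finset.Icc x y))]
    congr 1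
    rw [← Finset.Ioc_insert_left hxy.le, Finset.prod_insert (by simp),
      ← Finset.Ioo_insert_right hxy, Finset.prod_insert (by simp)]
  rw [hsplit (F X a b o'), hsplit (F X a b o)]
  -- outside
  have eo : ∀ c ∈ Finset.univ \ Finset.Icc x y, F X a b o' c = F X a b o c := by
    intro c hc
    rw [Finset.mem_sdiff, Finset.mem_Icc, not_and_or, not_le, not_le] at hc
    have n1 : ¬ (x ≤ c ∧ c < y) := by
      rintro ⟨h1, h2⟩
      rcases hc.2 with h | h
      · exact absurd h (not_lt.2 h1)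
      · exact absurd h (not_lt.2 h2.le)
    have n2 : ¬ (x < c ∧ c ≤ y) := by
      rintro ⟨h1, h2⟩
      rcases hc.2 with h | h
      · exact absurd h (not_lt.2 h1.le)
      · exact absurd h (not_lt.2 h2)
    have n3 : c ≠ x := by rintro rfl; rcases hc.2 with h | h; exacts [lt_irrefl _ h, absurd h (not_lt.2 hxy.le)]
    have n4 : c ≠ y := by rintro rfl; rcases hc.2 with h | h; exacts [absurd h (not_lt.2 hxy.le), lt_irrefl _ h]
    have e1 : o' (c, .W) = o (c, .W) := tog_not (nT_W n2)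
    have e2 : o' (c, .N) = o (c, .N) := tog_not (nT_N n3 n4)
    have e3 : o' (c, .E) = o (c, .E) := tog_not (nT_E n1)
    have e4 : o' (c, .S) = o (c, .S) := tog_not (nT_S c)
    unfold F
    rw [ge_eq e1, ge_eq e2, ge_eq e3, ge_eq e4, e1, e2, e3, e4]
  rw [prod_congr rfl eo]
  -- the feet
  have ax := hI.ovr x le_rfl hxy.le
  have ay := hI.ovr y hxy.le le_rfl
  have gS : ∀ c, ge X o' (c, .S) = ge X o (c, .S) := fun c => ge_eq (tog_not (nT_S c))
  have gxW : ge X o' (x, .W) = ge X o (x, .W) := ge_eq (tog_not nT_xW)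
  have gyE : ge X o' (y, .E) = ge X o (y, .E) := ge_eq (tog_not nT_yE)
  have g1 : ∀ {o : Fin N × Dir → ℤˣ} {p : Fin N × Dir}, o p = 1 → ge X o p = zt ^ (-X.t p) :=
    fun h => if_pos h
  have g0 : ∀ {o : Fin N × Dir → ℤˣ} {p : Fin N × Dir}, o p = -1 → ge X o p = 1 :=
    fun h => if_neg (by rw [h]; decide)
  have tyN : X.t (y, .N) = -X.t (x, .N) := by rw [← hI.arc, ht]
  have fx : F X a b o x = sq3 * (ge X o (x, .W) * zt ^ (-X.t (x, .N)) * ge X o (x, .S)) := by
    unfold F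
    rw [ax.1, ax.2, h.xW, h.xN, h.oE x le_rfl hxy, h.xS, vert_over, if_neg (by decide),
      if_pos (by decide), g1 h.xN, g0 (h.oE x le_rfl hxy)]
    ring
  have fx' : F X a b o' x = zt ^ (-4 : ℤ) * (ge X o (x, .W) * zt ^ (-X.t (x, .E)) * ge X o (x, .S)) := by
    unfold F
    rw [ax.1, ax.2, h'.xW, h'.xN, h'.oE x le_rfl hxy, h'.xS, vert_over, if_pos (by decide),
      g0 h'.xN, g1 (h'.oE x le_rfl hxy), gxW, gS]
    have e : (-(4 * (((-1 : ℤˣ) * (-1 : ℤˣ) : ℤˣ) : ℤ))) = -4 := by norm_num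
    rw [e]
    ring
  have fy : F X a b o y = zt ^ (4 : ℤ) * (zt ^ (-X.t (y, .W)) * ge X o (y, .E) * ge X o (y, .S)) := by
    unfold F
    rw [ay.1, ay.2, h.oW y hxy le_rfl, h.yN, h.yE, h.yS, vert_over, if_pos (by decide),
      g0 h.yN, g1 (h.oW y hxy le_rfl)]
    have e : (-(4 * (((1 : ℤˣ) * (-1 : ℤˣ) : ℤˣ) : ℤ))) = 4 := by norm_num
    rw [e]
    ring
  have fy' : F X a b o' y = sq3 * (zt ^ (X.t (x, .N)) * ge X o (y, .E) * ge X o (y, .S)) := by
    unfold F
    rw [ay.1, ay.2, h'.oW y hxy le_rfl, h'.yN, h'.yE, h'.yS, vert_over, if_neg (by decide),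
      if_pos (by decide), g1 h'.yN, g0 (h'.oW y hxy le_rfl), gyE, gS, tyN, neg_neg]
    ring
  -- the columns between
  have hinvol : ∀ k : ℤ, ∏ z ∈ Finset.Ioo x y, zt ^ (k * ((o (z, .N) : ℤˣ) : ℤ)) = 1 := by
    intro k
    choose! g hg1 hg2 hg3 hg4 using fun z => fun h1 h2 => hI.nest z h1 h2
    refine Finset.prod_involution (fun z _ => g z) ?_ ?_ ?_ ?_
    · intro z hzm
      obtain ⟨h1, h2⟩ := Finset.mem_Ioo.1 hzm
      rw [hz z (g z) h1 h2 (hg4 z h1 h2), ← zt_add]
      simp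
    · intro z hzm _ heq
      obtain ⟨h1, h2⟩ := Finset.mem_Ioo.1 hzm
      exact hg3 z h1 h2 heq
    · intro z hzm
      obtain ⟨h1, h2⟩ := Finset.mem_Ioo.1 hzm
      exact Finset.mem_Ioo.2 ⟨hg1 z h1 h2, hg2 z h1 h2⟩
    · intro z hzm
      obtain ⟨h1, h2⟩ := Finset.mem_Ioo.1 hzm
      have k1 := hg4 z h1 h2
      have k2 := hg4 (g z) (hg1 z h1 h2) (hg2 z h1 h2)
      rw [← k1, hinv] at k2
      exact (congrArg Prod.fst k2).symm
  have fz : ∏ z ∈ Finset.Ioo x y, F X a b o z =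
      (∏ z ∈ Finset.Ioo x y, zt ^ (-X.t (z, .W))) *
        ∏ z ∈ Finset.Ioo x y, (ge X o (z, .N) * ge X o (z, .S)) := by
    rw [← one_mul (∏ z ∈ Finset.Ioo x y, zt ^ (-X.t (z, .W))), ← hinvol (-4), ← prod_mul_distrib,
      ← prod_mul_distrib]
    refine prod_congr rfl fun z hzm => ?_
    obtain ⟨h1, h2⟩ := Finset.mem_Ioo.1 hzm
    unfold F
    rw [(hI.ovr z h1.le h2.le).1, (hI.ovr z h1.le h2.le).2, vert_over, h.oW z h1 h2.le,
      h.oE z h1.le h2, h.st z h1 h2, if_pos ⟨rfl, rfl⟩, g1 (h.oW z h1 h2.le), g0 (h.oE z h1.le h2)]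
    have e : (-(4 * (((1 : ℤˣ) * o (z, .N) : ℤˣ) : ℤ))) = -4 * ((o (z, .N) : ℤˣ) : ℤ) := by
      push_cast; ring
    rw [e]
    ring
  have fz' : ∏ z ∈ Finset.Ioo x y, F X a b o' z =
      (∏ z ∈ Finset.Ioo x y, zt ^ (-X.t (z, .E))) *
        ∏ z ∈ Finset.Ioo x y, (ge X o (z, .N) * ge X o (z, .S)) := by
    rw [← one_mul (∏ z ∈ Finset.Ioo x y, zt ^ (-X.t (z, .E))), ← hinvol 4, ← prod_mul_distrib,
      ← prod_mul_distrib]
    refine prod_congr rfl fun z hzm => ?_
    obtain ⟨h1, h2⟩ := Finset.mem_Ioo.1 hzm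
    have eN : o' (z, .N) = o (z, .N) := tog_not (nT_N h1.ne' h2.ne)
    unfold F
    rw [(hI.ovr z h1.le h2.le).1, (hI.ovr z h1.le h2.le).2, vert_over, h'.oW z h1 h2.le,
      h'.oE z h1.le h2, h'.st z h1 h2, if_pos ⟨by simp, rfl⟩, g0 (h'.oW z h1 h2.le),
      g1 (h'.oE z h1.le h2), ge_eq eN, gS, eN]
    have e : (-(4 * (((-1 : ℤˣ) * o (z, .N) : ℤˣ) : ℤ))) = 4 * ((o (z, .N) : ℤˣ) : ℤ) := by
      push_cast; ring
    rw [e]
    ring
  rw [fx, fx', fy, fy', fz, fz', sum_zt, sum_zt]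
  -- the exponents
  have tW := turnW hI ht
  have s1 : ∑ c ∈ Finset.Ioc x y, X.t (c, .W) = X.t (y, .W) + ∑ z ∈ Finset.Ioo x y, X.t (z, .W) := by
    rw [← Finset.Ioo_insert_right hxy, sum_insert (by simp)]
  have s2 : ∑ c ∈ Finset.Ico x y, X.t (c, .E) = X.t (x, .E) + ∑ z ∈ Finset.Ioo x y, X.t (z, .E) := by
    rw [← Finset.Ioo_insert_left hxy, sum_insert (by simp)]
  have s3 := hI.turn
  set C := ∏ z ∈ Finset.Ioo x y, (ge X o (z, .N) * ge X o (z, .S))
  set Q := ∏ c ∈ Finset.univ \ Finset.Icc x y, F X a b o c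
  rw [sum_neg_distrib, sum_neg_distrib]
  have key : zt ^ (-4 : ℤ) * zt ^ (-X.t (x, .E)) * zt ^ (X.t (x, .N)) *
      zt ^ (-∑ z ∈ Finset.Ioo x y, X.t (z, .E)) =
      -(zt ^ (-X.t (x, .N)) * zt ^ (4 : ℤ) * zt ^ (-X.t (y, .W)) *
        zt ^ (-∑ z ∈ Finset.Ioo x y, X.t (z, .W))) := by
    rw [← zt_add, ← zt_add, ← zt_add, ← zt_add, ← zt_add, ← zt_add]
    have e : -X.t (x, .N) + 4 + -X.t (y, .W) + -∑ z ∈ Finset.Ioo x y, X.t (z, .W) =
        12 + (-4 + -X.t (x, .E) + X.t (x, .N) + -∑ z ∈ Finset.Ioo x y, X.t (z, .E)) := by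
      linarith
    have h12 : zt ^ (12 : ℤ) = -1 := by exact_mod_cast zt_twelve
    rw [e, zt_add 12, h12]; ring
  calc Q * (zt ^ (-4 : ℤ) * (ge X o (x, .W) * zt ^ (-X.t (x, .E)) * ge X o (x, .S)) *
      (sq3 * (zt ^ (X.t (x, .N)) * ge X o (y, .E) * ge X o (y, .S)) *
        (zt ^ (-∑ z ∈ Finset.Ioo x y, X.t (z, .E)) * C))) =
      (zt ^ (-4 : ℤ) * zt ^ (-X.t (x, .E)) * zt ^ (X.t (x, .N)) *
        zt ^ (-∑ z ∈ Finset.Ioo x y, X.t (z, .E))) *
      (Q * ge X o (x, .W) * ge X o (x, .S) * sq3 * ge X o (y, .E) * ge X o (y, .S) * C) := by ring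
    _ = _ := by rw [key]; ring

/-! ### the structure of the configurations of nonzero weight -/

/-- exchange (or its opposite) at a column -/
def ex (o : Fin N × Dir → ℤˣ) (c : Fin N) : Prop := o (c, .S) = o (c, .N)

instance (o : Fin N × Dir → ℤˣ) (c : Fin N) : Decidable (ex o c) := by unfold ex; infer_instance

lemma vert_ne {o : Fin N × Dir → ℤˣ} (h : X.wt a b o ≠ 0) (c : Fin N) :
    vert (a c) (b c) (o (c, .W)) (o (c, .N)) (o (c, .E)) (o (c, .S)) ≠ 0 := by
  intro h0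
  apply h
  unfold Net.wt
  rw [Finset.prod_eq_zero (Finset.mem_univ c) h0, zero_mul]

lemma ne_self_neg (u : ℤˣ) : ¬ u = -u := by
  rcases Int.units_eq_one_or u with rfl | rfl <;> decide

/-- row arrow to the west on the west side: to the west on the east side, no exchange -/
lemma over_w {w n e s : ℤˣ} (h : vert (zt ^ (4 : ℤ)) (zt ^ (-4 : ℤ)) w n e s ≠ 0) (hw : w = 1) :
    e = -1 ∧ s = -n := by
  rw [vert_over] at h
  split_ifs at h with h1 h2
  · exact ⟨by rw [h1.1, hw], h1.2⟩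
  · exact absurd (hw.symm.trans h2.1) (by decide)
  · exact absurd rfl h

/-- row arrow to the east on the east side -/
lemma over_e {w n e s : ℤˣ} (h : vert (zt ^ (4 : ℤ)) (zt ^ (-4 : ℤ)) w n e s ≠ 0) (he : e = 1) :
    w = -1 ∧ s = -n := by
  rw [vert_over] at h
  split_ifs at h with h1 h2
  · refine ⟨?_, h1.2⟩
    have := h1.1
    rw [he] at this
    rw [← neg_neg w, ← this]
  · exact absurd (he.symm.trans h2.2.1) (by decide)
  · exact absurd rfl h

lemma over_ex {w n e s : ℤˣ} (h : vert (zt ^ (4 : ℤ)) (zt ^ (-4 : ℤ)) w n e s ≠ 0) (hs : s = n) :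
    w = -1 ∧ e = -1 ∧ n = 1 ∧ s = 1 := by
  rw [vert_over] at h
  split_ifs at h with h1 h2
  · exact absurd (hs.symm.trans h1.2) (ne_self_neg n)
  · exact h2
  · exact absurd rfl h

/-- the arrows at the two ends of the wire between two columns -/
lemma row_arrow {o : Fin N × Dir → ℤˣ} (hc : X.Cons o) (hI : Inner X a b x y) {c c' : Fin N}
    (h1 : x ≤ c) (h2 : c' ≤ y) (h3 : (c' : ℕ) = c + 1) : o (c', .W) = -o (c, .E) := by
  have h4 := cons_of hc (hI.nsE c h1 (Fin.lt_def.2 (by have := Fin.le_def.1 h2; omega)))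
  rwa [hI.row c c' h1 h2 h3] at h4

lemma p1_of {o : Fin N × Dir → ℤˣ} (hc : X.Cons o) (h : X.wt a b o ≠ 0) (hI : Inner X a b x y)
    (hex : ex o x) : P1 x y o := by
  have hxy := hI.lt
  have vx := vert_ne h x
  rw [(hI.ovr x le_rfl hxy.le).1, (hI.ovr x le_rfl hxy.le).2] at vx
  obtain ⟨a1, a2, a3, a4⟩ := over_ex vx hex
  have stepW : ∀ j : ℕ, ∀ hj : j < N, x.val < j → j ≤ y.val → o (⟨j, hj⟩, .W) = 1 := by
    intro j
    induction j with
    | zero => intro _ h1 _; omega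
    | succ j ih =>
      intro hj h1 h2
      have hjN : j < N := by omega
      have hx0 : x ≤ (⟨j, hjN⟩ : Fin N) := Fin.le_def.2 (by simp; omega)
      have r := row_arrow hc hI (c := ⟨j, hjN⟩) (c' := ⟨j + 1, hj⟩) hx0
        (Fin.le_def.2 (by simp; omega)) rfl
      rw [r]
      rcases Nat.lt_or_ge x.val j with h3 | h3
      · have h4 := ih hjN h3 (by omega)
        have v := vert_ne h ⟨j, hjN⟩
        rw [(hI.ovr _ hx0 (Fin.le_def.2 (by simp; omega))).1,
          (hI.ovr _ hx0 (Fin.le_def.2 (by simp; omega))).2] at v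
        rw [(over_w v h4).1]; simp
      · have h5 : (⟨j, hjN⟩ : Fin N) = x := Fin.ext (by simp; omega)
        rw [h5, a2]; simp
  have hW : ∀ c, x < c → c ≤ y → o (c, .W) = 1 := fun c h1 h2 =>
    stepW c.val c.2 (Fin.lt_def.1 h1) (Fin.le_def.1 h2)
  have hst : ∀ c, x < c → c ≤ y → o (c, .E) = -1 ∧ o (c, .S) = -o (c, .N) := by
    intro c h1 h2
    have v := vert_ne h c
    rw [(hI.ovr c h1.le h2).1, (hI.ovr c h1.le h2).2] at v
    exact over_w v (hW c h1 h2)
  have hyN : o (y, .N) = -1 := by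
    have := cons_of hc (hI.nsN x le_rfl hxy.le)
    rw [hI.arc, a3] at this
    exact this
  refine ⟨fun c h1 h2 => ?_, hW, a1, a3, a4, hyN, by rw [(hst y hxy le_rfl).2, hyN]; simp,
    (hst y hxy le_rfl).1, fun z h1 h2 => (hst z h1 h2.le).2⟩
  rcases h1.eq_or_lt with h3 | h3
  · rw [← h3]; exact a2
  · exact (hst c h3 h2.le).1

lemma p2_of {o : Fin N × Dir → ℤˣ} (hc : X.Cons o) (h : X.wt a b o ≠ 0) (hI : Inner X a b x y)
    (hinv : ∀ p, X.π (X.π p) = p) (hex : ex o y) : P2 x y o := by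
  have hxy := hI.lt
  have vy := vert_ne h y
  rw [(hI.ovr y hxy.le le_rfl).1, (hI.ovr y hxy.le le_rfl).2] at vy
  obtain ⟨a1, a2, a3, a4⟩ := over_ex vy hex
  have stepE : ∀ t : ℕ, ∀ j : ℕ, ∀ hj : j < N, x.val ≤ j → j + t + 1 = y.val →
      o (⟨j, hj⟩, .E) = 1 := by
    intro t
    induction t with
    | zero =>
      intro j hj h1 h2
      have r := row_arrow hc hI (c := ⟨j, hj⟩) (c' := y) (Fin.le_def.2 (by simpa using h1)) le_rfl
        (by simp; omega)
      rw [a1] at r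
      rw [← neg_neg (o (⟨j, hj⟩, .E)), ← r]; simp
    | succ t ih =>
      intro j hj h1 h2
      have hjN : j + 1 < N := by omega
      have h3 := ih (j + 1) hjN (by omega) (by omega)
      have hx0 : x ≤ (⟨j + 1, hjN⟩ : Fin N) := Fin.le_def.2 (by simp; omega)
      have hy0 : (⟨j + 1, hjN⟩ : Fin N) ≤ y := Fin.le_def.2 (by simp; omega)
      have v := vert_ne h ⟨j + 1, hjN⟩
      rw [(hI.ovr _ hx0 hy0).1, (hI.ovr _ hx0 hy0).2] at v
      have h4 := (over_e v h3).1
      have r := row_arrow hc hI (c := ⟨j, hj⟩) (c' := ⟨j + 1, hjN⟩) (Fin.le_def.2 (by simpa using h1))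
        hy0 rfl
      rw [h4] at r
      rw [← neg_neg (o (⟨j, hj⟩, .E)), ← r]; simp
  have hE : ∀ c, x ≤ c → c < y → o (c, .E) = 1 := fun c h1 h2 =>
    stepE (y.val - c.val - 1) c.val c.2 (Fin.le_def.1 h1) (by have := Fin.lt_def.1 h2; omega)
  have hst : ∀ c, x ≤ c → c < y → o (c, .W) = -1 ∧ o (c, .S) = -o (c, .N) := by
    intro c h1 h2
    have v := vert_ne h c
    rw [(hI.ovr c h1 h2.le).1, (hI.ovr c h1 h2.le).2] at v
    exact over_e v (hE c h1 h2)
  have hxN : o (x, .N) = -1 := by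
    have := cons_of hc (hI.nsN y hxy.le le_rfl)
    rw [← hI.arc, hinv, hI.arc, a3] at this
    exact this
  refine ⟨hE, fun c h1 h2 => ?_, (hst x le_rfl hxy).1, hxN, by rw [(hst x le_rfl hxy).2, hxN]; simp,
    a3, a4, a2, fun z h1 h2 => (hst z h1.le h2).2⟩
  rcases h2.eq_or_lt with h3 | h3
  · rw [h3]; exact a1
  · exact (hst c h1.le h3).1

lemma wt_tog' (hI : Inner X a b x y) (hinv : ∀ p, X.π (X.π p) = p) (ht : ∀ p, X.t (X.π p) = -X.t p)
    {o : Fin N × Dir → ℤˣ} (hc : X.Cons o) (h : X.wt a b o ≠ 0) (hex : ex o x ∨ ex o y) :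
    X.wt a b (tog x y o) = -X.wt a b o ∧ (ex (tog x y o) x ∨ ex (tog x y o) y) := by
  have hbet : ∀ z z', x < z → z < y → X.π (z, .N) = (z', .N) → o (z', .N) = -o (z, .N) := by
    intro z z' h1 h2 h3
    have := cons_of hc (hI.nsN z h1.le h2.le)
    rwa [h3] at this
  rcases hex with hex | hex
  · have h1 := p1_of hc h hI hex
    have h2 := h1.tog
    refine ⟨wt_tog hI hinv ht h1 hbet, Or.inr ?_⟩
    unfold ex
    rw [h2.yN, h2.yS]
  · have h2 := p2_of hc h hI hinv hex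
    have h1 := h2.tog
    refine ⟨?_, Or.inl ?_⟩
    · have h3 := wt_tog hI hinv ht h1 (fun z z' k1 k2 k3 => ?_)
      · rw [tog_tog] at h3
        rw [h3]; ring
      · obtain ⟨z'', m1, m2, _, m3⟩ := hI.nest z k1 k2
        have : z'' = z' := by
          have := m3.symm.trans k3
          exact congrArg Prod.fst this
        subst this
        rw [tog_not (nT_N m1.ne' m2.ne), tog_not (nT_N k1.ne' k2.ne)]
        exact hbet z z'' k1 k2 k3
    · unfold ex
      rw [h1.xN, h1.xS]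

end

open Classical in
/-- **Cancellation of the exchange vertices at the feet of the inner arcs.** -/
theorem V_eq (X : Net (Fin N)) (a b : Fin N → ℂ) (hinv : ∀ p, X.π (X.π p) = p)
    (ht : ∀ p, X.t (X.π p) = -X.t p) (L : Finset (Fin N × Fin N))
    (hL : ∀ p ∈ L, Inner X a b p.1 p.2) :
    X.V a b = ∑ o : Fin N × Dir → ℤˣ with X.Cons o ∧ (∀ p ∈ L, ¬ ex o p.1 ∧ ¬ ex o p.2),
      X.wt a b o := by
  have e0 : X.V a b = ∑ o : Fin N × Dir → ℤˣ with X.Cons o, X.wt a b o := by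
    unfold Net.V
    rw [Finset.sum_filter]
  rw [e0]
  have main : ∀ P : Finset (Fin N × Fin N), P ⊆ L →
      ∑ o : Fin N × Dir → ℤˣ with X.Cons o, X.wt a b o =
      ∑ o : Fin N × Dir → ℤˣ with X.Cons o ∧ (∀ p ∈ P, ¬ ex o p.1 ∧ ¬ ex o p.2), X.wt a b o := by
    intro P
    induction P using Finset.induction_on with
    | empty => intro _; simp
    | insert q P hqP ih =>
      intro hP
      have hq : q ∈ L := hP (Finset.mem_insert_self _ _)
      have hPL : P ⊆ L := fun z hz => hP (Finset.mem_insert_of_mem hz)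
      rw [ih hPL]
      obtain ⟨x, y⟩ := q
      have hI : Inner X a b x y := hL _ hq
      set G : (Fin N × Dir → ℤˣ) → Prop := fun o => X.Cons o ∧ ∀ p ∈ P, ¬ ex o p.1 ∧ ¬ ex o p.2
        with hG
      set B : (Fin N × Dir → ℤˣ) → Prop := fun o => ex o x ∨ ex o y with hB
      rw [← Finset.sum_filter_add_sum_filter_not (s := Finset.univ.filter G) (p := B)]
      have e2 : ((Finset.univ : Finset (Fin N × Dir → ℤˣ)).filter G).filter (fun o => ¬ B o) =
          (Finset.univ : Finset (Fin N × Dir → ℤˣ)).filter (fun o => X.Cons o ∧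
            ∀ p ∈ insert (x, y) P, ¬ ex o p.1 ∧ ¬ ex o p.2) := by
        ext o
        simp only [Finset.mem_filter, Finset.mem_univ, true_and, hG, hB, Finset.forall_mem_insert,
          not_or]
        tauto
      rw [e2]
      have e1 : ∑ o ∈ ((Finset.univ : Finset (Fin N × Dir → ℤˣ)).filter G).filter B, X.wt a b o = 0 := by
        rw [← Finset.sum_filter_ne_zero]
        refine Finset.sum_involution (fun o _ => tog x y o) ?_ ?_ ?_ ?_
        · intro o ho
          simp only [Finset.mem_filter, Finset.mem_univ, true_and, hG, hB] at ho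
          rw [(wt_tog' hI hinv ht ho.1.1.1 ho.2 ho.1.2).1]; ring
        · intro o ho hne heq
          simp only [Finset.mem_filter, Finset.mem_univ, true_and, hG, hB] at ho
          have h1 := (wt_tog' hI hinv ht ho.1.1.1 ho.2 ho.1.2).1
          rw [heq] at h1
          have : X.wt a b o = 0 := by
            have h2 : (2 : ℂ) * X.wt a b o = 0 := by linear_combination h1
            simpa using h2
          exact hne this
        · intro o ho
          simp only [Finset.mem_filter, Finset.mem_univ, true_and, hG, hB] at ho ⊢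
          obtain ⟨h1, h2⟩ := wt_tog' hI hinv ht ho.1.1.1 ho.2 ho.1.2
          refine ⟨⟨⟨cons_tog hI hinv ho.1.1.1, fun p hp => ?_⟩, h2⟩, ?_⟩
          · have hJ := hL _ (hPL hp)
            have hne : p ≠ (x, y) := fun h => hqP (h ▸ hp)
            have m0 : p.1 ≠ x := by
              intro h
              have h3 := hJ.arc
              rw [h, hI.arc] at h3
              exact hne (Prod.ext h (congrArg Prod.fst h3).symm)
            have m1 : p.1 ≠ y := by
              intro h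
              have h3 := hJ.arc
              rw [h, ← hI.arc, hinv] at h3
              have h4 : x = p.2 := congrArg Prod.fst h3
              have h5 := hJ.lt
              rw [h, ← h4] at h5
              exact absurd h5 (not_lt.2 hI.lt.le)
            have m2 : p.2 ≠ x := by
              intro h
              have h3 := hJ.arc
              rw [h] at h3
              have h4 := congrArg X.π h3
              rw [hinv, hI.arc] at h4
              exact m1 (congrArg Prod.fst h4)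
            have m3 : p.2 ≠ y := by
              intro h
              have h3 := hJ.arc
              rw [h, ← hI.arc] at h3
              have h4 := congrArg X.π h3
              rw [hinv, hinv] at h4
              exact m0 (congrArg Prod.fst h4)
            have h3 := ho.1.1.2 p hp
            unfold ex at h3 ⊢
            rw [tog_not (nT_S _), tog_not (nT_S _), tog_not (nT_N m0 m1), tog_not (nT_N m2 m3)]
            exact h3
          · rw [h1]; exact neg_ne_zero.2 ho.2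
        · intro o _
          exact tog_tog _ _ _
      rw [e1, zero_add]
  exact main L (Finset.Subset.refl _)

end Pool.Agent.Q1.M6b.ExN
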