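import Mathlib
import Pool.Agent.Q1.M6b.WtsW
import Pool.Agent.Q1.M6b.ABabs
import Pool.Agent.Q1.M6b.AB

set_option autoImplicit false
open Finset Filter Topology Metric

/-! # Chapters A and B for windows: good rows, from the Taylor coefficients and the local bound -/

namespace Pool.Agent.Q1.M6b.ABW

open Pool.Agent.H75.Perc Pool.Agent.H75.TwoArm
open Pool.Agent.Q1 Pool.Agent.H74.R45 Pool.Agent.H40.R45 Pool.Agent.H64.Q1
open Pool.Agent.H33.Q1
open Pool.Agent.H46.Sp (Win)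
open Pool.Agent.H74.Win (FW PotL PotU SameW potentialW_wa exists_potL exists_potU)
open Pool.Agent.Q1.M6b.AB (Ec_diff sin_ne exists_rap ab_abs)

lemma wal_diff {D : Set ℂ} {w : ℂ → ℂ} (hw : DifferentiableOn ℂ w D) (x y : ℤ) :
    DifferentiableOn ℂ (fun z => Pool.Agent.H46.Sp.Win.wal x y (w z)) D := by
  unfold Pool.Agent.H46.Sp.Win.wal
  split_ifs
  · exact hw
  · exact hw.const_sub 1

lemma FW_diff {D : Win} (O : Pool.Agent.H46.Sp.Out D) {a b c : ℂ → ℂ} {S : Set ℂ}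
    (ha : DifferentiableOn ℂ a S) (hb : DifferentiableOn ℂ b S) (hc : DifferentiableOn ℂ c S)
    (j : ℤ) (e : ℤ × ℤ) : DifferentiableOn ℂ (fun z => FW O (a z) (b z) (c z) j e) S := by
  unfold FW
  by_cases H : 0 ≤ j
  · simp only [dif_pos H]
    unfold Env.incW
    refine Ec_diff (q := fun e z => D.qJ j (a z) (b z) (c z) e) (fun e => ?_) _ _
    unfold Pool.Agent.H46.Sp.Win.qJ
    split_ifs
    · exact wal_diff (hb.const_sub 1) _ _
    · exact wal_diff (hc.const_sub 1) _ _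
    · exact wal_diff (hc.const_sub 1) _ _
    · exact wal_diff (hb.const_sub 1) _ _
    · exact wal_diff ha _ _
    · exact wal_diff (((ha.const_sub 1).fun_mul hb).const_sub 1) _ _
    · exact wal_diff ha _ _
    · exact wal_diff ((hc.const_sub 1).fun_mul ha) _ _
    · exact wal_diff ha _ _
    · exact differentiableOn_const _
    · exact wal_diff (ha.fun_mul (hc.const_sub 1)) _ _
    · exact wal_diff ha _ _
    · exact wal_diff ((hb.fun_mul (ha.const_sub 1)).const_sub 1) _ _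
    · exact wal_diff ha _ _
    · exact differentiableOn_const _
  · simp only [dif_neg H]; exact differentiableOn_const _

/-- the increment at `p`, as a function of `t` -/
noncomputable def F1 {D : Win} (O : Pool.Agent.H46.Sp.Out D) (p : ℤ × ℤ) (t : ℂ) : ℂ :=
  rT t * (sg (p.1 + p.2) * FW O (aT t) (bT t) (cT t) p.2 (ve (p.1, p.2 - 1)))

lemma F1_diff {D : Win} (O : Pool.Agent.H46.Sp.Out D) (p : ℤ × ℤ) :
    DifferentiableOn ℂ (F1 O p) (ball 0 (1 / 2)) :=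
  rT_diff.fun_mul ((FW_diff O aT_diff bT_diff cT_diff _ _).const_mul _)

lemma F1_zero {D : Win} (O : Pool.Agent.H46.Sp.Out D) (p : ℤ × ℤ) : F1 O p 0 = 0 := by
  unfold F1 rT
  ring

lemma sinsW {u : ℂ} (h : 1 ≤ u.im) : Complex.sin ((u + Real.pi) / 3) ≠ 0 ∧
    Complex.sin ((u + Real.pi / 2 + Real.pi) / 3) ≠ 0 ∧
    Complex.sin ((u - Real.pi / 2 + Real.pi) / 3) ≠ 0 := by
  have h3 : ((Real.pi : ℂ) / 2).im = 0 := by
    rw [Complex.div_ofNat_im]; simp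
  have h1 : ((u + Real.pi) / 3).im = u.im / 3 := by
    simp [Complex.div_ofNat_im]
  have h2 : ((u + Real.pi / 2 + Real.pi) / 3).im = u.im / 3 := by
    rw [Complex.div_ofNat_im, Complex.add_im, Complex.add_im, h3]
    simp
  have h4 : ((u - Real.pi / 2 + Real.pi) / 3).im = u.im / 3 := by
    rw [Complex.div_ofNat_im, Complex.add_im, Complex.sub_im, h3]
    simp
  exact ⟨sin_ne (by rw [h1]; linarith), sin_ne (by rw [h2]; linarith),
    sin_ne (by rw [h4]; linarith)⟩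

/-- an inner point lies in its row -/
lemma InnW.row {D : Win} {d : ℝ} (hd : 1 ≤ d) {p : ℤ × ℤ} (h : InnW D d p) :
    0 ≤ p.2 ∧ p.2 ≤ D.h ∧ D.m (p.2 - 1) ≤ p.1 ∧ p.1 ≤ D.M (p.2 - 1) := by
  have h1 := h p.1 p.2 (by simp; linarith) (by simp; linarith)
  have h2 := h p.1 (p.2 - 1) (by simp; linarith) (by
    push_cast
    rw [show (p.2 : ℝ) - 1 - p.2 = -1 by ring]
    simpa using hd)
  obtain ⟨a1, a2, a3, a4⟩ := h1
  obtain ⟨b1, b2, b3, b4⟩ := h2
  have k1 := Pool.Agent.H46.Sp.Win.m_le_a (D := D) b1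
  have k2 := Pool.Agent.H46.Sp.Win.b_le_M (D := D) b1
  exact ⟨a1, a2.le, by omega, by omega⟩

/-- the difference of the increments through the potentials -/
lemma F1_sub {D : Win} {O : Pool.Agent.H46.Sp.Out D} {u : ℂ} (hu : 1 ≤ u.im)
    (hS : SameW O (wa u) (wa (u + Real.pi / 2)) (wa (u - Real.pi / 2))) {Hl Hu : ℤ → ℤ → ℂ}
    (hl : PotT O false (wa u) (wa (u + Real.pi / 2)) (wa (u - Real.pi / 2)) Hl)
    (hh : PotT O true (wa u) (wa (u + Real.pi / 2)) (wa (u - Real.pi / 2)) Hu)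
    {t : ℂ} (ht : t = Complex.exp (2 * Complex.I * u / 3)) {p q : ℤ × ℤ}
    (hp : 0 ≤ p.2 ∧ p.2 ≤ D.h ∧ D.m (p.2 - 1) ≤ p.1 ∧ p.1 ≤ D.M (p.2 - 1))
    (hq : 0 ≤ q.2 ∧ q.2 ≤ D.h ∧ D.m (q.2 - 1) ≤ q.1 ∧ q.1 ≤ D.M (q.2 - 1)) :
    F1 O p t - F1 O q t = (Hl p.1 p.2 - Hu p.1 (p.2 - 1)) - (Hl q.1 q.2 - Hu q.1 (q.2 - 1)) := by
  obtain ⟨s1, s2, s3⟩ := sinsW hu
  obtain ⟨C, hC⟩ := potentialW_wa (O := O) u s1 hS (Hl := Hl) (Hu := Hu)
    (by unfold PotT at hl; simpa using hl) (by unfold PotT at hh; simpa using hh)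
  have e1 := hC p.2 p.1 hp.1 hp.2.1 hp.2.2.1 hp.2.2.2
  have e2 := hC q.2 q.1 hq.1 hq.2.1 hq.2.2.1 hq.2.2.2
  rw [wa_aT u s1, wa_bT u s2, wa_cT u s3, ← ht] at e1 e2
  have e3 := rT_mul u
  rw [← ht] at e3
  unfold F1
  rw [e1, e2]
  linear_combination ((Hl p.1 p.2 - Hu p.1 (p.2 - 1)) - (Hl q.1 q.2 - Hu q.1 (q.2 - 1))) * e3

lemma Lnk.left {D : Win} {d : ℝ} {p q : ℤ × ℤ} (h : Lnk D d p q) : InnW D d p := by
  intro x y hx hy
  rw [abs_le] at hx hy
  have h1 := min_le_left (p.1 : ℝ) q.1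
  have h2 := le_max_left (p.1 : ℝ) q.1
  have h3 := min_le_left (p.2 : ℝ) q.2
  have h4 := le_max_left (p.2 : ℝ) q.2
  exact h x y (by linarith) (by linarith) (by linarith) (by linarith)

lemma Lnk.symm {D : Win} {d : ℝ} {p q : ℤ × ℤ} (h : Lnk D d p q) : Lnk D d q p := by
  intro x y h1 h2 h3 h4
  rw [min_comm] at h1 h3
  rw [max_comm] at h2 h4
  exact h x y h1 h2 h3 h4

lemma Lnk.right {D : Win} {d : ℝ} {p q : ℤ × ℤ} (h : Lnk D d p q) : InnW D d q := h.symm.left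

/-- points of the window are at distance at most its size -/
lemma InnW.size {D : Win} {d : ℝ} (hd : 0 ≤ d) {p : ℤ × ℤ} (h : InnW D d p) :
    0 ≤ p.2 ∧ p.2 < D.h ∧ D.a (D.yP - 1) ≤ p.1 ∧ p.1 < D.b D.yQ := by
  obtain ⟨a1, a2, a3, a4⟩ := h p.1 p.2 (by simpa using hd) (by simpa using hd)
  have k1 := Pool.Agent.H46.Sp.Win.a_min (D := D) a1 a2
  have k2 := Pool.Agent.H46.Sp.Win.b_max (D := D) a1 a2
  exact ⟨a1, a2, by omega, by omega⟩

/-- the distance of two points of the window -/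
lemma dist_size {η : ℝ} (hη : 0 < η) {n R : ℕ} {D : Win} {O : Pool.Agent.H46.Sp.Out D}
    (hs : SzW η n R O) {d : ℝ} (hd : 0 ≤ d) {p q : ℤ × ℤ} (hp : InnW D d p) (hq : InnW D d q) :
    |(p.1 : ℝ) - q.1| + |(p.2 : ℝ) - q.2| ≤ 2 / η * R := by
  obtain ⟨a1, a2, a3, a4⟩ := hp.size hd
  obtain ⟨b1, b2, b3, b4⟩ := hq.size hd
  have w2 := hs.w2
  have h2 := hs.h2
  have e1 : |(p.1 : ℝ) - q.1| ≤ ((D.b D.yQ - D.a (D.yP - 1) : ℤ) : ℝ) := by
    rw [abs_le]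
    constructor
    · have : -(D.b D.yQ - D.a (D.yP - 1)) ≤ p.1 - q.1 := by omega
      exact_mod_cast this
    · have : p.1 - q.1 ≤ D.b D.yQ - D.a (D.yP - 1) := by omega
      exact_mod_cast this
  have e2 : |(p.2 : ℝ) - q.2| ≤ (D.h : ℝ) := by
    rw [abs_le]
    constructor
    · have : -D.h ≤ p.2 - q.2 := by omega
      exact_mod_cast this
    · have : p.2 - q.2 ≤ D.h := by omega
      exact_mod_cast this
  have e3 : 2 / η * (R : ℝ) = R / η + R / η := by ring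
  rw [e3]
  linarith

/-- bound along a chain -/
lemma chain_bd {D : Win} {d : ℝ} {n : ℕ} {p q : ℤ × ℤ} (h : Ch D d n p q) {f : ℤ × ℤ → ℂ} {B : ℝ}
    (hf : ∀ x y : ℤ × ℤ, Lnk D d x y → ‖f x - f y‖ ≤ B) : ‖f p - f q‖ ≤ (n + 1) * B := by
  obtain ⟨z, h0, hn, hi⟩ := h
  have key : ∀ k ≤ n + 1, ‖f (z 0) - f (z k)‖ ≤ k * B := by
    intro k
    induction k with
    | zero => intro _; simp
    | succ k ih =>
      intro hk
      have e1 := ih (by omega)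
      have e2 := hf (z k) (z (k + 1)) (hi k (by omega))
      calc ‖f (z 0) - f (z (k + 1))‖ = ‖(f (z 0) - f (z k)) + (f (z k) - f (z (k + 1)))‖ := by
            congr 1; ring
        _ ≤ k * B + B := (norm_add_le _ _).trans (add_le_add e1 e2)
        _ = _ := by push_cast; ring
  have := key (n + 1) le_rfl
  rw [h0, hn] at this
  push_cast at this
  exact this

lemma Ch.left {D : Win} {d : ℝ} {n : ℕ} {p q : ℤ × ℤ} (h : Ch D d n p q) : InnW D d p := by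
  obtain ⟨z, h0, -, hi⟩ := h
  rw [← h0]; exact (hi 0 (Nat.zero_le _)).left

lemma Ch.right {D : Win} {d : ℝ} {n : ℕ} {p q : ℤ × ℤ} (h : Ch D d n p q) : InnW D d q := by
  obtain ⟨z, -, hn, hi⟩ := h
  rw [← hn]; exact (hi n le_rfl).right

/-- **Chapters A and B for windows, good rows.** -/
theorem ABG_of {S : ℕ → Set (Σ D : Win, Pool.Agent.H46.Sp.Out D)} {η : ℝ} (hη : 0 < η) {n0 : ℕ}
    (hsz : ∀ R v, v ∈ S R → SzW η n0 R v.2) (hS : SameC S) (hL : LBW S η) (hT : TayW) :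
    ABG S η := by
  intro n η' hη' ρ hρ ε hε
  set ι : Type := (Σ D : Win, Pool.Agent.H46.Sp.Out D) × (ℤ × ℤ) × (ℤ × ℤ) with hι
  set S' : ℕ → Set ι := fun R => {v | v.1 ∈ S R ∧ GoodW v.1.1 (η' * R) v.2.1.2 ∧
    GoodW v.1.1 (η' * R) v.2.2.2 ∧ Ch v.1.1 (η * R) n v.2.1 v.2.2} with hS'
  set F : ℕ → ι → ℂ → ℂ := fun _ v t => F1 v.1.2 v.2.1 t - F1 v.1.2 v.2.2 t with hF
  have hcast : Tendsto (fun R : ℕ => (R : ℝ)) atTop atTop := tendsto_natCast_atTop_atTop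
  have hηR : ∀ᶠ R : ℕ in atTop, 1 ≤ η * R := by
    have h1 := hcast.const_mul_atTop hη
    exact h1.eventually (eventually_ge_atTop 1)
  have hd : ∀ R v, v ∈ S' R → DifferentiableOn ℂ (F R v) (ball 0 (1 / 2)) :=
    fun R v _ => (F1_diff _ _).fun_sub (F1_diff _ _)
  have hb : ∀ Z : ℝ, 0 < Z → ∃ M : ℝ, ∀ᶠ R : ℕ in atTop, ∀ v ∈ S' R, ∀ z : ℂ, ‖z‖ ≤ Z →
      ‖F R v (z * (((R : ℝ) ^ (-(2 / 3) : ℝ) : ℝ) : ℂ))‖ ≤ M * (R : ℝ) ^ (2 / 3 : ℝ) := by
    intro Z hZ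
    obtain ⟨M, RB, hM⟩ := hL Z
    refine ⟨2 * ((n + 1) * (|M| * (2 / η) ^ (2 / 3 : ℝ))), ?_⟩
    have h2R : ∀ᶠ R : ℕ in atTop, 1 ≤ 2 / η * (R : ℝ) :=
      (hcast.const_mul_atTop (show 0 < 2 / η by positivity)).eventually (eventually_ge_atTop 1)
    have he0 : Tendsto (fun R : ℕ => (R : ℝ) ^ (-(2 / 3) : ℝ)) atTop (𝓝 0) :=
      (tendsto_rpow_neg_atTop (show (0 : ℝ) < 2 / 3 by norm_num)).comp hcast
    have hsm : ∀ᶠ R : ℕ in atTop, (R : ℝ) ^ (-(2 / 3) : ℝ) * Z < 1 / 4 := by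
      have h1 := he0.mul_const Z
      rw [zero_mul] at h1
      exact h1.eventually (gt_mem_nhds (by norm_num))
    filter_upwards [hsm, hηR, eventually_ge_atTop RB, eventually_gt_atTop 0, h2R] with R h1 h2 h3 h4
      h2R v hv z hz
    obtain ⟨⟨D, O⟩, p, q⟩ := v
    obtain ⟨hv1, hgp, hgq, hch⟩ := hv
    simp only at hv1 hgp hgq hch
    show ‖F1 O p _ - F1 O q _‖ ≤ _
    have hR0 : (0 : ℝ) < R := by exact_mod_cast h4
    set e : ℝ := (R : ℝ) ^ (-(2 / 3) : ℝ) with he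
    have hep : 0 < e := Real.rpow_pos_of_pos hR0 _
    have htn : ‖z * (e : ℂ)‖ < 1 / 4 := by
      rw [norm_mul, Complex.norm_real, Real.norm_eq_abs, abs_of_pos hep]
      nlinarith
    by_cases ht0 : z * (e : ℂ) = 0
    · rw [ht0, F1_zero, F1_zero, sub_zero, norm_zero]
      positivity
    obtain ⟨u, hu, htu⟩ := exists_rap ht0 htn
    obtain ⟨s1, s2, s3⟩ := sinsW hu
    obtain ⟨Hl, hHl⟩ := exists_potL O (wa u) (wa (u + Real.pi / 2)) (wa (u - Real.pi / 2))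
    obtain ⟨Hu, hHu⟩ := exists_potU O (wa u) (wa (u + Real.pi / 2)) (wa (u - Real.pi / 2))
    have pl : PotT O false (wa u) (wa (u + Real.pi / 2)) (wa (u - Real.pi / 2)) Hl := by
      unfold PotT; simpa using hHl
    have pu : PotT O true (wa u) (wa (u + Real.pi / 2)) (wa (u - Real.pi / 2)) Hu := by
      unfold PotT; simpa using hHu
    rw [F1_sub hu (hS R _ hv1 u hu) pl pu htu (hch.left.row h2) (hch.right.row h2)]
    have ea : wa u = aT (z * (e : ℂ)) := by rw [wa_aT u s1, ← htu]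
    have eb : wa (u + Real.pi / 2) = bT (z * (e : ℂ)) := by rw [wa_bT u s2, ← htu]
    have ec : wa (u - Real.pi / 2) = cT (z * (e : ℂ)) := by rw [wa_cT u s3, ← htu]
    rw [ea, eb, ec] at pl pu
    have step : ∀ (top : Bool) (H : ℤ → ℤ → ℂ), PotT O top (aT (z * (e : ℂ))) (bT (z * (e : ℂ)))
        (cT (z * (e : ℂ))) H → ‖H p.1 (p.2 - shT top) - H q.1 (q.2 - shT top)‖ ≤
          (n + 1) * (|M| * (2 / η) ^ (2 / 3 : ℝ)) * (R : ℝ) ^ (2 / 3 : ℝ) := by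
      intro top H hH
      have b1 := chain_bd hch (f := fun x => H x.1 (x.2 - shT top))
        (B := |M| * (2 / η * R) ^ (2 / 3 : ℝ)) (fun x y hxy => by
          refine (hM R h3 _ hv1 top z hz H (by rw [← he]; exact hH) x y hxy).trans ?_
          refine mul_le_mul (le_abs_self M) ?_ (by positivity) (abs_nonneg _)
          refine Real.rpow_le_rpow (by positivity) ?_ (by norm_num)
          exact max_le h2R (dist_size hη (hsz R _ hv1) (by linarith) hxy.left hxy.right))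
      refine b1.trans (le_of_eq ?_)
      rw [Real.mul_rpow (by positivity) hR0.le]
      ring
    have b1 := step false Hl pl
    have b2 := step true Hu pu
    unfold shT at b1 b2
    simp only [Bool.false_eq_true, if_false, if_true, sub_zero] at b1 b2
    calc ‖(Hl p.1 p.2 - Hu p.1 (p.2 - 1)) - (Hl q.1 q.2 - Hu q.1 (q.2 - 1))‖
        = ‖(Hl p.1 p.2 - Hl q.1 q.2) - (Hu p.1 (p.2 - 1) - Hu q.1 (q.2 - 1))‖ := by
          congr 1; ring
      _ ≤ _ := (norm_sub_le _ _).trans (add_le_add b1 b2)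
      _ = _ := by ring
  have ht : ∀ m : ℕ, ∀ ε : ℝ, 0 < ε → ∀ᶠ R : ℕ in atTop, ∀ v ∈ S' R,
      ‖iteratedDeriv m (fun z : ℂ => (((R : ℝ) ^ (-(2 / 3) : ℝ) : ℝ) : ℂ) *
        F R v (z * (((R : ℝ) ^ (-(2 / 3) : ℝ) : ℝ) : ℂ))) 0‖ ≤ ε := by
    intro m ε1 hε1
    obtain ⟨R1, hR1⟩ := hT η hη n0 η' hη' m (ε1 / 2) (by positivity)
    filter_upwards [eventually_ge_atTop R1, eventually_gt_atTop 0] with R hR hR0 v hv
    obtain ⟨⟨D, O⟩, p, q⟩ := v
    obtain ⟨hv1, hgp, hgq, hch⟩ := hv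
    simp only at hv1 hgp hgq hch
    have hRp : (0 : ℝ) < R := by exact_mod_cast hR0
    have e1 := hR1 R hR D O (hsz R _ hv1) p hch.left hgp
    have e2 := hR1 R hR D O (hsz R _ hv1) q hch.right hgq
    have han : ∀ p : ℤ × ℤ, ContDiffAt ℂ m (V1 O (R : ℝ) p) 0 := by
      intro p
      set e : ℝ := (R : ℝ) ^ (-(2 / 3) : ℝ) with he
      have hep : 0 < e := Real.rpow_pos_of_pos hRp _
      have h1 : DifferentiableOn ℂ (V1 O (R : ℝ) p) (ball 0 (1 / (2 * e))) := by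
        unfold V1
        rw [← he]
        refine DifferentiableOn.const_mul ?_ _
        refine (F1_diff O p).comp ((differentiable_id.mul_const _).differentiableOn) fun z hz => ?_
        rw [mem_ball_zero_iff] at hz ⊢
        rw [norm_mul, Complex.norm_real, Real.norm_eq_abs, abs_of_pos hep]
        rw [lt_div_iff₀ (by positivity)] at hz
        linarith
      exact (h1.analyticAt (isOpen_ball.mem_nhds (mem_ball_self (by positivity)))).contDiffAt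
    have e3 : (fun z : ℂ => (((R : ℝ) ^ (-(2 / 3) : ℝ) : ℝ) : ℂ) *
        F R ⟨⟨D, O⟩, p, q⟩ (z * (((R : ℝ) ^ (-(2 / 3) : ℝ) : ℝ) : ℂ))) =
        fun z => V1 O (R : ℝ) p z - V1 O (R : ℝ) q z := by
      funext z
      rw [hF]
      unfold V1 F1
      simp only
      ring
    rw [e3, iteratedDeriv_fun_sub (han p) (han q)]
    refine (norm_sub_le _ _).trans ?_
    linarith
  obtain ⟨R0, hR0⟩ := eventually_atTop.1 ((ab_abs hd hb ht hρ hε).and hηR)
  refine ⟨R0, ?_⟩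
  intro R hR v hv u hu Hl Hu hl hh p q hgp hgq hch
  obtain ⟨h1, h2⟩ := hR0 R hR
  obtain ⟨h3, h4⟩ := h1 ⟨v, p, q⟩ ⟨hv, hgp, hgq, hch⟩ u hu
  have e1 := F1_sub h3 (hS R v hv u h3) hl hh rfl (hch.left.row h2) (hch.right.row h2)
  have h5 : ‖F1 v.2 p (Complex.exp (2 * Complex.I * u / 3)) -
      F1 v.2 q (Complex.exp (2 * Complex.I * u / 3))‖ ≤ ε * (R : ℝ) ^ (2 / 3 : ℝ) := h4
  rwa [e1] at h5

end Pool.Agent.Q1.M6b.ABW
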