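import Mathlib
import Pool.Agent.Q1.M6b.ABW

set_option autoImplicit false
open Finset Filter Topology Metric

/-! # Chapters A and B for windows: all rows -/

namespace Pool.Agent.Q1.M6b.ABW

open Pool.Agent.Q1 Pool.Agent.H74.R45 Pool.Agent.H40.R45 Pool.Agent.H64.Q1
open Pool.Agent.H46.Sp (Win)
open Pool.Agent.H30.Sp (Few)
open Pool.Agent.Q1.M6b.AB (rap_small)

/-- **Chapters A and B for a class of windows.** -/
def ABA (S : ℕ → Set (Σ D : Win, Pool.Agent.H46.Sp.Out D)) (η : ℝ) : Prop :=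
  ∀ (n : ℕ) (ρ : ℝ), 0 < ρ → ∀ ε : ℝ, 0 < ε → ∃ R0 : ℕ, ∀ R : ℕ, R0 ≤ R →
    ∀ v ∈ S R, ∀ u : ℂ, |u.im - Real.log ⌊ρ * R⌋₊| ≤ 1 → ∀ Hl Hu : ℤ → ℤ → ℂ,
    PotT v.2 false (wa u) (wa (u + Real.pi / 2)) (wa (u - Real.pi / 2)) Hl →
    PotT v.2 true (wa u) (wa (u + Real.pi / 2)) (wa (u - Real.pi / 2)) Hu →
    ∀ p q : ℤ × ℤ, Ch v.1 (η * R) n p q →
      ‖(Hl p.1 p.2 - Hu p.1 (p.2 - 1)) - (Hl q.1 q.2 - Hu q.1 (q.2 - 1))‖ ≤
        ε * (R : ℝ) ^ (2 / 3 : ℝ)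

/-- the boundary is flat away from `F` -/
lemma few_up {D : Win} {F : Finset ℤ} (hF : Few D F) {j : ℤ} : ∀ k : ℕ, 0 ≤ j → j + k < D.h →
    (∀ y, j < y → y ≤ j + k → y ∉ F) → D.a (j + k) = D.a j ∧ D.b (j + k) = D.b j := by
  intro k
  induction k with
  | zero => intro _ _ _; simp
  | succ k ih =>
    intro h0 h1 h2
    push_cast at h1 h2 ⊢
    obtain ⟨e1, e2⟩ := ih h0 (by omega) fun y h3 h4 => h2 y h3 (by omega)
    obtain ⟨e3, e4⟩ := hF (j + (k + 1)) (by omega) h1 (h2 _ (by omega) le_rfl)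
    rw [show j + ((k : ℤ) + 1) - 1 = j + k by ring] at e3 e4
    exact ⟨e3.trans e1, e4.trans e2⟩

/-- **good rows are dense** -/
lemma good_near {n R : ℕ} {D : Win} {F : Finset ℤ} (hF : Few D F) (hn : F.card ≤ n) {η δ : ℝ}
    (hδη : δ ≤ η / 2) (hR : 2 ≤ δ / (8 * (n + 1)) * R) {p : ℤ × ℤ}
    (hp : InnW D (η * R) p) : ∃ j : ℤ, |(j : ℝ) - p.2| ≤ δ * R ∧
      GoodW D (δ / (8 * (n + 1)) * R) j := by
  set η' : ℝ := δ / (8 * (n + 1)) with hη'
  have hn1 : (0 : ℝ) < 8 * (n + 1) := by positivity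
  have hδ' : δ = η' * (8 * (n + 1)) := by rw [hη']; field_simp
  have hR0 : (0 : ℝ) ≤ R := Nat.cast_nonneg R
  have hη'0 : 0 < η' := by
    by_contra h
    have : η' * R ≤ 0 := mul_nonpos_of_nonpos_of_nonneg (not_lt.1 h) hR0
    linarith
  set r : ℤ := ⌈η' * R⌉ with hr
  have hr1 : η' * R ≤ r := Int.le_ceil _
  have hr2 : (r : ℝ) ≤ 2 * (η' * R) := by
    have := Int.ceil_lt_add_one (η' * (R : ℝ))
    rw [← hr] at this
    linarith
  have hr0 : 2 ≤ r := by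
    have : (2 : ℝ) ≤ (r : ℝ) := hR.trans hr1
    exact_mod_cast this
  have hδR : δ * R = η' * R * (8 * (n + 1)) := by rw [hδ']; ring
  have hnn : (0 : ℝ) ≤ n := Nat.cast_nonneg n
  -- a candidate
  obtain ⟨i, hi, hfree⟩ : ∃ i ∈ range (n + 1), ∀ f ∈ F, ¬ |f - (p.2 + i * (2 * r))| < r := by
    by_contra hcon
    push Not at hcon
    choose! g hg1 hg2 using hcon
    obtain ⟨i, hi, i', hi', hne, he⟩ := exists_ne_map_eq_of_card_lt_of_maps_to
      (s := range (n + 1)) (t := F) (by rw [card_range]; omega) (f := g) (fun i hi => hg1 i hi)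
    have h1 := hg2 i hi
    have h2 := hg2 i' hi'
    rw [he] at h1
    rw [abs_lt] at h1 h2
    rcases lt_or_gt_of_ne hne with h3 | h3
    · have h4 : ((i : ℤ) + 1) * (2 * r) ≤ i' * (2 * r) :=
        mul_le_mul_of_nonneg_right (by omega) (by omega)
      have h5 : ((i : ℤ) + 1) * (2 * r) = i * (2 * r) + 2 * r := by ring
      omega
    · have h4 : ((i' : ℤ) + 1) * (2 * r) ≤ i * (2 * r) :=
        mul_le_mul_of_nonneg_right (by omega) (by omega)
      have h5 : ((i' : ℤ) + 1) * (2 * r) = i' * (2 * r) + 2 * r := by ring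
      omega
  rw [mem_range] at hi
  have hin : (i : ℝ) ≤ n := by exact_mod_cast (by omega : i ≤ n)
  set j : ℤ := p.2 + i * (2 * r) with hj
  have hjp : (j : ℝ) - p.2 = i * (2 * r) := by rw [hj]; push_cast; ring
  have hrr : (0 : ℝ) ≤ r := by exact_mod_cast (by omega : (0 : ℤ) ≤ r)
  have hup : (i : ℝ) * (2 * r) ≤ n * (4 * (η' * R)) := by
    calc (i : ℝ) * (2 * r) ≤ n * (2 * r) := mul_le_mul_of_nonneg_right hin (by positivity)
      _ ≤ n * (4 * (η' * R)) := mul_le_mul_of_nonneg_left (by linarith) hnn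
  have hηR : δ * R ≤ η * R / 2 := by
    have := mul_le_mul_of_nonneg_right hδη hR0
    linarith
  have hη'R : 0 ≤ η' * R := by positivity
  have hnη : 0 ≤ n * (η' * R) := by positivity
  -- the range of the rows
  have hlo : ∀ y : ℤ, |(y : ℝ) - p.2| ≤ η * R → 0 ≤ y ∧ y < D.h := by
    intro y hy
    have h1 := hp p.1 y (by simpa using (by nlinarith : (0 : ℝ) ≤ η * R)) hy
    exact ⟨h1.1, h1.2.1⟩
  have hj1 := hlo (j - r) (by
    push_cast
    rw [show (j : ℝ) - r - p.2 = (j - p.2) - r by ring, hjp, abs_le]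
    constructor
    · have : (0 : ℝ) ≤ i * (2 * r) := by positivity
      nlinarith
    · nlinarith)
  have hj2 := hlo (j + r - 1) (by
    push_cast
    rw [show (j : ℝ) + r - 1 - p.2 = (j - p.2) + r - 1 by ring, hjp, abs_le]
    constructor
    · have : (0 : ℝ) ≤ i * (2 * r) := by positivity
      nlinarith
    · nlinarith)
  refine ⟨j, ?_, r, hr1, hr0, by omega, by omega, ?_⟩
  · rw [hjp, abs_of_nonneg (by positivity)]
    nlinarith
  · intro y hy1 hy2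
    have hnF : ∀ z : ℤ, j - r < z → z < j + r → z ∉ F := by
      intro z h1 h2 hz
      refine hfree z hz ?_
      rw [abs_lt]
      constructor <;> omega
    rcases le_total j y with h | h
    · have := few_up hF (j := j) (y - j).toNat (by omega) (by omega)
        (fun z h1 h2 => hnF z (by omega) (by omega))
      rwa [Int.toNat_of_nonneg (by omega), show j + (y - j) = y by ring] at this
    · have := few_up hF (j := y) (j - y).toNat (by omega) (by omega)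
        (fun z h1 h2 => hnF z (by omega) (by omega))
      rw [Int.toNat_of_nonneg (by omega), show y + (j - y) = j by ring] at this
      exact ⟨this.1.symm, this.2.symm⟩

lemma Lnk.mono {D : Win} {d d' : ℝ} (h : d' ≤ d) {p q : ℤ × ℤ} (H : Lnk D d p q) : Lnk D d' p q :=
  fun x y h1 h2 h3 h4 => H x y (by linarith) (by linarith) (by linarith) (by linarith)

/-- a vertical link at an inner point -/
lemma lnk_vert {D : Win} {d : ℝ} {p : ℤ × ℤ} (h : InnW D d p) {j : ℤ}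
    (hj : |(j : ℝ) - p.2| ≤ d / 2) : Lnk D (d / 2) p (p.1, j) := by
  have hd : 0 ≤ d := by have := abs_nonneg ((j : ℝ) - p.2); linarith
  rw [abs_le] at hj
  intro x y h1 h2 h3 h4
  simp only [min_self, max_self] at h1 h2 h3 h4
  have m1 : (p.2 : ℝ) - d / 2 ≤ min (p.2 : ℝ) j := le_min (by linarith) (by linarith)
  have m2 : max (p.2 : ℝ) j ≤ p.2 + d / 2 := max_le (by linarith) (by linarith)
  refine h x y ?_ ?_
  · rw [abs_le]; constructor <;> linarith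
  · rw [abs_le]; constructor <;> linarith

/-- longer chains -/
lemma Ch.ext {D : Win} {d : ℝ} {n : ℕ} {p q p' q' : ℤ × ℤ} (h : Ch D d n p q) (hp : Lnk D d p' p)
    (hq : Lnk D d q q') : Ch D d (n + 2) p' q' := by
  obtain ⟨z, h0, hn, hi⟩ := h
  refine ⟨fun k => if k = 0 then p' else if k ≤ n + 2 then z (k - 1) else q', by simp, by simp, ?_⟩
  intro i hi'
  rcases Nat.eq_zero_or_pos i with rfl | h1
  · simp only [if_true]
    rw [if_neg (by omega), if_pos (by omega)]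
    simpa [h0] using hp
  · simp only
    rw [if_neg (by omega), if_pos (by omega), if_neg (by omega)]
    by_cases h2 : i + 1 ≤ n + 2
    · rw [if_pos h2]
      have := hi (i - 1) (by omega)
      rw [show i - 1 + 1 = i by omega] at this
      rw [show i + 1 - 1 = i by omega]
      exact this
    · rw [if_neg h2]
      have e1 : i - 1 = n + 1 := by omega
      rw [e1, hn]
      exact hq

/-- **Chapters A and B for windows, all rows.** -/
theorem ABA_of {S : ℕ → Set (Σ D : Win, Pool.Agent.H46.Sp.Out D)} {η : ℝ} (hη : 0 < η) {n0 : ℕ}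
    (hsz : ∀ R v, v ∈ S R → SzW η n0 R v.2) (hG : ABG S (η / 2)) (hL : LBW S (η / 2)) :
    ABA S η := by
  intro n ρ hρ ε hε
  obtain ⟨M, RB, hM⟩ := hL ((2 / ρ) ^ (2 / 3 : ℝ) * Real.exp 1)
  set δ : ℝ := min (η / 2) ((ε / (8 * (|M| + 1))) ^ (3 / 2 : ℝ)) with hδ
  have hM1 : 0 < 8 * (|M| + 1) := by positivity
  have hδ0 : 0 < δ := lt_min (by positivity) (by positivity)
  have hδη : δ ≤ η / 2 := min_le_left _ _
  have hδε : |M| * δ ^ (2 / 3 : ℝ) ≤ ε / 8 := by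
    have h1 : δ ^ (2 / 3 : ℝ) ≤ ε / (8 * (|M| + 1)) := by
      calc δ ^ (2 / 3 : ℝ) ≤ ((ε / (8 * (|M| + 1))) ^ (3 / 2 : ℝ)) ^ (2 / 3 : ℝ) :=
            Real.rpow_le_rpow hδ0.le (min_le_right _ _) (by norm_num)
        _ = _ := by
            rw [← Real.rpow_mul (by positivity)]
            norm_num
    calc |M| * δ ^ (2 / 3 : ℝ) ≤ (|M| + 1) * (ε / (8 * (|M| + 1))) :=
          mul_le_mul (by linarith) h1 (by positivity) (by positivity)
      _ = ε / 8 := by field_simp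
  obtain ⟨R1, hR1⟩ := hG (n + 2) (δ / (8 * (n0 + 1))) (by positivity) ρ hρ (ε / 2) (by positivity)
  have hcast : Tendsto (fun R : ℕ => (R : ℝ)) atTop atTop := tendsto_natCast_atTop_atTop
  have hb1 : ∀ᶠ R : ℕ in atTop, 2 ≤ δ / (8 * (n0 + 1)) * (R : ℝ) :=
    (hcast.const_mul_atTop (by positivity)).eventually (eventually_ge_atTop 2)
  have hb2 : ∀ᶠ R : ℕ in atTop, 1 ≤ δ * (R : ℝ) :=
    (hcast.const_mul_atTop hδ0).eventually (eventually_ge_atTop 1)
  obtain ⟨R0, hR0⟩ := eventually_atTop.1 (((rap_small hρ).and (hb1.and hb2)).and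
    ((eventually_ge_atTop R1).and ((eventually_ge_atTop RB).and (eventually_gt_atTop 0))))
  refine ⟨R0, ?_⟩
  intro R hR v hv u hu Hl Hu hl hh p q hch
  obtain ⟨⟨c1, c2, c3⟩, c4, c5, c6⟩ := hR0 R hR
  obtain ⟨hu1, z, hz, hze⟩ := c1 u hu
  have hRp : (0 : ℝ) < R := by exact_mod_cast c6
  obtain ⟨F, hF1, hF2⟩ := (hsz R v hv).few
  obtain ⟨jp, hjp, hgp⟩ := good_near hF2 hF1 hδη c2 hch.left
  obtain ⟨jq, hjq, hgq⟩ := good_near hF2 hF1 hδη c2 hch.right
  have hηR : δ * R ≤ η * R / 2 := by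
    have := mul_le_mul_of_nonneg_right hδη hRp.le
    linarith
  have lp := lnk_vert hch.left (hjp.trans hηR)
  have lq := lnk_vert hch.right (hjq.trans hηR)
  have e2 : η / 2 * (R : ℝ) = η * R / 2 := by ring
  have hch2 : Ch v.1 (η / 2 * R) n p q := by
    obtain ⟨z, h0, hn, hi⟩ := hch
    exact ⟨z, h0, hn, fun i hi' => (hi i hi').mono (by rw [e2]; nlinarith [mul_pos hη hRp])⟩
  have key := hR1 R c4 v hv u hu Hl Hu hl hh (p.1, jp) (q.1, jq) hgp hgq
    (hch2.ext (by rw [e2]; exact lp.symm) (by rw [e2]; exact lq))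
  -- the weights
  obtain ⟨s1, s2, s3⟩ := sinsW hu1
  have ea : wa u = aT (z * (((R : ℝ) ^ (-(2 / 3) : ℝ) : ℝ) : ℂ)) := by rw [wa_aT u s1, hze]
  have eb : wa (u + Real.pi / 2) = bT (z * (((R : ℝ) ^ (-(2 / 3) : ℝ) : ℝ) : ℂ)) := by
    rw [wa_bT u s2, hze]
  have ec : wa (u - Real.pi / 2) = cT (z * (((R : ℝ) ^ (-(2 / 3) : ℝ) : ℝ) : ℂ)) := by
    rw [wa_cT u s3, hze]
  rw [ea, eb, ec] at hl hh
  have step : ∀ (top : Bool) (H : ℤ → ℤ → ℂ), PotT v.2 top
      (aT (z * (((R : ℝ) ^ (-(2 / 3) : ℝ) : ℝ) : ℂ))) (bT (z * (((R : ℝ) ^ (-(2 / 3) : ℝ) : ℝ) : ℂ)))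
      (cT (z * (((R : ℝ) ^ (-(2 / 3) : ℝ) : ℝ) : ℂ))) H → ∀ (x : ℤ × ℤ) (j : ℤ),
      Lnk v.1 (η / 2 * R) x (x.1, j) → |(j : ℝ) - x.2| ≤ δ * R →
      ‖H x.1 (x.2 - shT top) - H x.1 (j - shT top)‖ ≤ ε / 8 * (R : ℝ) ^ (2 / 3 : ℝ) := by
    intro top H hH x j hl hj
    refine (hM R c5 v hv top z hz H hH x (x.1, j) hl).trans ?_
    have h5 : max (1 : ℝ) (|(x.1 : ℝ) - ((x.1, j) : ℤ × ℤ).1| + |(x.2 : ℝ) - ((x.1, j) : ℤ × ℤ).2|) ≤
        δ * R := by
      simp only [sub_self, abs_zero, zero_add]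
      exact max_le c3 (by rwa [abs_sub_comm])
    calc M * (max 1 (|(x.1 : ℝ) - ((x.1, j) : ℤ × ℤ).1| +
          |(x.2 : ℝ) - ((x.1, j) : ℤ × ℤ).2|)) ^ (2 / 3 : ℝ)
        ≤ |M| * (δ * R) ^ (2 / 3 : ℝ) :=
          mul_le_mul (le_abs_self M) (Real.rpow_le_rpow (by positivity) h5 (by norm_num))
            (by positivity) (abs_nonneg _)
      _ = |M| * δ ^ (2 / 3 : ℝ) * (R : ℝ) ^ (2 / 3 : ℝ) := by
          rw [Real.mul_rpow hδ0.le hRp.le]; ring
      _ ≤ _ := mul_le_mul_of_nonneg_right hδε (by positivity)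
  have a1 := step false Hl hl p jp (by rw [e2]; exact lp) hjp
  have a2 := step true Hu hh p jp (by rw [e2]; exact lp) hjp
  have a3 := step false Hl hl q jq (by rw [e2]; exact lq) hjq
  have a4 := step true Hu hh q jq (by rw [e2]; exact lq) hjq
  unfold shT at a1 a2 a3 a4
  simp only [Bool.false_eq_true, if_false, if_true, sub_zero] at a1 a2 a3 a4
  simp only at key
  have e5 : (Hl p.1 p.2 - Hu p.1 (p.2 - 1)) - (Hl q.1 q.2 - Hu q.1 (q.2 - 1)) =
      ((Hl p.1 jp - Hu p.1 (jp - 1)) - (Hl q.1 jq - Hu q.1 (jq - 1))) +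
      ((Hl p.1 p.2 - Hl p.1 jp) - (Hu p.1 (p.2 - 1) - Hu p.1 (jp - 1))) -
      ((Hl q.1 q.2 - Hl q.1 jq) - (Hu q.1 (q.2 - 1) - Hu q.1 (jq - 1))) := by ring
  rw [e5]
  refine (norm_sub_le _ _).trans ?_
  have b1 := norm_add_le ((Hl p.1 jp - Hu p.1 (jp - 1)) - (Hl q.1 jq - Hu q.1 (jq - 1)))
    ((Hl p.1 p.2 - Hl p.1 jp) - (Hu p.1 (p.2 - 1) - Hu p.1 (jp - 1)))
  have b2 := norm_sub_le (Hl p.1 p.2 - Hl p.1 jp) (Hu p.1 (p.2 - 1) - Hu p.1 (jp - 1))
  have b3 := norm_sub_le (Hl q.1 q.2 - Hl q.1 jq) (Hu q.1 (q.2 - 1) - Hu q.1 (jq - 1))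
  linarith

end Pool.Agent.Q1.M6b.ABW
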