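import Mathlib
import Pool.Agent.Q1.M6b.TayWhb
import Pool.Agent.Q1.M6b.ABWall
import Pool.Agent.H69.Sp.FBwin

set_option autoImplicit false

/-! # Chapters A and B for windows: final form -/

namespace Pool.Agent.Q1.M6b.ABW

open Pool.Agent.H46.Sp (Win)

/-- a smaller scale -/
lemma SzW.mono {η η' : ℝ} {n R : ℕ} {D : Win} {O : Pool.Agent.H46.Sp.Out D} (h : SzW η n R O)
    (h0 : 0 < η') (h1 : η' ≤ η) : SzW η' n R O where
  few := h.few
  h2 := h.h2.trans (div_le_div_of_nonneg_left (Nat.cast_nonneg R) h0 h1)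
  w2 := h.w2.trans (div_le_div_of_nonneg_left (Nat.cast_nonneg R) h0 h1)
  fat := by
    obtain ⟨L, hL, hf⟩ := h.fat
    exact ⟨L, (mul_le_mul_of_nonneg_right h1 (Nat.cast_nonneg R)).trans hL, hf⟩

/-- **Chapters A and B for a class of windows**, from the frozen bound. -/
theorem aba_of_fb (hFB : FBWs) {S : ℕ → Set (Σ D : Win, Pool.Agent.H46.Sp.Out D)} {η : ℝ}
    (hη : 0 < η) {n0 : ℕ} (hsz : ∀ R v, v ∈ S R → SzW η n0 R v.2) (hS : SameC S)
    (hL : LBW S (η / 2)) : ABA S η :=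
  ABA_of hη hsz (ABG_of (n0 := n0) (by positivity)
    (fun R v hv => (hsz R v hv).mono (by positivity) (by linarith)) hS hL (TayW_of hFB)) hL

/-- The frozen bound for the rows of the windows. -/
theorem fbws : FBWs := fun m l f A => fbws_of m l f A

/-- Chapter B for windows. -/
theorem tayW : TayW := TayW_of fbws

/-- **Chapters A and B for a class of windows.** -/
theorem aba_of {S : ℕ → Set (Σ D : Win, Pool.Agent.H46.Sp.Out D)} {η : ℝ}
    (hη : 0 < η) {n0 : ℕ} (hsz : ∀ R v, v ∈ S R → SzW η n0 R v.2) (hS : SameC S)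
    (hL : LBW S (η / 2)) : ABA S η :=
  aba_of_fb fbws hη hsz hS hL

end Pool.Agent.Q1.M6b.ABW
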