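import Mathlib
import Pool.Agent.Q1.M6b.Wall2
import Pool.Agent.H46.G1.WSum

set_option autoImplicit false
open Finset

/-! # The sum over the ties

For every set `v` of `l` wall points a family of boxes with the events `P1`; the frozen sums are at most
`M`; then the whole sum is at most `C ^ l M N ^ (2 l / 3)`. -/

namespace Pool.Agent.Q1.M6b.Gd

open Pool.Agent.H75.Perc Pool.Agent.H99.NC Pool.Agent.H81.NC Pool.Agent.H81.NC.ProbB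
open Pool.Agent.H46.G1 Pool.Agent.Q1.M6b

/-- **The sum over the ties.** -/
theorem ties_sum {κ : Type*} [Fintype κ] [DecidableEq κ] {Bk : Finset (ℤ × ℤ)} {l : ℕ}
    {N : κ → ℕ} {Mx : ℕ} (hN : ∀ a, N a ≤ Mx)
    {B : Finset (κ × ℤ) → κ × ℤ → Finset (ℤ × ℤ)}
    {P1 : Finset (κ × ℤ) → κ × ℤ → Finset (ℤ × ℤ) → Prop}
    {G : Finset (κ × ℤ) → Finset (ℤ × ℤ) → ℂ} {M C1 : ℝ} (hM0 : 0 ≤ M) (hC1 : 0 ≤ C1)
    (hB : ∀ v ∈ powersetCard l (Wp N), ∀ x ∈ v, B v x ⊆ Bk)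
    (hd : ∀ v ∈ powersetCard l (Wp N), ∀ x ∈ v, ∀ y ∈ v, x ≠ y → Disjoint (B v x) (B v y))
    (hP : ∀ v ∈ powersetCard l (Wp N), ∀ x ∈ v,
      PrP (fun _ => (1 / 2 : ℝ)) (B v x) (P1 v x) ≤ C1 * (cr (gw N v x : ℝ))⁻¹)
    (h0 : ∀ v ∈ powersetCard l (Wp N), ∀ x ∈ v, ∀ T, T ⊆ v → x ∉ T → ∀ ω, ω ⊆ Bk →
      ¬ P1 v x (ω ∩ B v x) → G T ω = G (insert x T) ω)
    (h1 : ∀ v ∈ powersetCard l (Wp N), ∀ ξ, ξ ⊆ v.biUnion (B v) → (∀ x ∈ v, P1 v x (ξ ∩ B v x)) →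
      ∀ T, T ⊆ v → ‖Ec (fun _ => (1 / 2 : ℂ)) (Bk \ v.biUnion (B v)) (fun ω => G T (ξ ∪ ω))‖ ≤ M) :
    ‖∑ v ∈ powersetCard l (Wp N), alt v (fun T => Ec (fun _ => (1 / 2 : ℂ)) Bk (G T))‖ ≤
      (2 * C1) ^ l * ((l + 1) * 6 ^ l) ^ Fintype.card κ *
        (cr ((Mx + 1 : ℕ) : ℝ) ^ 2) ^ l * M := by
  have key : ∀ v ∈ powersetCard l (Wp N),
      ‖alt v (fun T => Ec (fun _ => (1 / 2 : ℂ)) Bk (G T))‖ ≤
        (2 * C1) ^ l * M * ∏ x ∈ v, (cr (gw N v x : ℝ))⁻¹ := by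
    intro v hv
    have hcard := (mem_powersetCard.1 hv).2
    have h2 := wall_bound (B := B v) (P1 := P1 v) (G := G) (M := M) (hB v hv) (hd v hv)
      (h0 v hv) (h1 v hv)
    refine h2.trans ?_
    have h3 : ∏ x ∈ v, PrP (fun _ => (1 / 2 : ℝ)) (B v x) (P1 v x) ≤
        ∏ x ∈ v, (C1 * (cr (gw N v x : ℝ))⁻¹) := by
      refine prod_le_prod (fun x _ => ?_) fun x hx => hP v hv x hx
      exact PrP_nonneg (Pb.const (by norm_num) (by norm_num)) _ _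
    rw [prod_mul_distrib, prod_const, hcard] at h3
    calc (∏ x ∈ v, PrP (fun _ => (1 / 2 : ℝ)) (B v x) (P1 v x)) * (2 ^ v.card * M)
        ≤ (C1 ^ l * ∏ x ∈ v, (cr (gw N v x : ℝ))⁻¹) * (2 ^ v.card * M) :=
          mul_le_mul_of_nonneg_right h3 (by positivity)
      _ = _ := by rw [hcard, mul_pow]; ring
  refine (norm_sum_le _ _).trans ((sum_le_sum key).trans ?_)
  rw [← mul_sum]
  have h4 := wall_sum l hN
  have h5 : 0 ≤ (2 * C1) ^ l * M := by positivity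
  refine (mul_le_mul_of_nonneg_left h4 h5).trans (le_of_eq ?_)
  ring

end Pool.Agent.Q1.M6b.Gd
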