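import Pool.Agent.Q1.M6b.ExN

set_option autoImplicit false
open Finset

/-! Number of arrow configurations of a row with few special columns.

An end is anchored if following wires and passing straight through columns leads to a special column, to
the root or to the mark. The arrows on the anchored ends are determined by the exchange columns and the
arrows at the special columns. -/

namespace Pool.Agent.Q1.M6b.ExN

open Pool.Agent.H81.G1

variable {N : ℕ} {X : Net (Fin N)} {a b : Fin N → ℂ}

/-- the opposite end of the same tile -/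
def opp : Fin N × Dir → Fin N × Dir
  | (c, .W) => (c, .E)
  | (c, .E) => (c, .W)
  | (c, .N) => (c, .S)
  | (c, .S) => (c, .N)

lemma opp_opp (p : Fin N × Dir) : opp (opp p) = p := by
  obtain ⟨c, d⟩ := p
  cases d <;> rfl

lemma opp_fst (p : Fin N × Dir) : (opp p).1 = p.1 := by
  obtain ⟨c, d⟩ := p
  cases d <;> rfl

/-- anchored ends -/
inductive Anch (X : Net (Fin N)) (sp : Finset (Fin N)) : Fin N × Dir → Prop
  | col (p) : p.1 ∈ sp → Anch X sp p
  | spc (p) : Sp X p → Anch X sp p
  | wire (p) : Anch X sp (X.π p) → Anch X sp p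
  | opp (p) : Anch X sp (opp p) → Anch X sp p

/-- straight or exchange at every column outside `sp` -/
structure Adm (X : Net (Fin N)) (sp : Finset (Fin N)) (o : Fin N × Dir → ℤˣ) : Prop where
  cons : X.Cons o
  pl : ∀ c, c ∉ sp → (o (c, .E) = -o (c, .W) ∧ o (c, .S) = -o (c, .N)) ∨
    (o (c, .W) = -1 ∧ o (c, .E) = -1 ∧ o (c, .N) = 1 ∧ o (c, .S) = 1)

lemma neg_flip {u v : ℤˣ} (h : u = -v) : v = -u := by rw [h, neg_neg]

lemma Adm.straight {sp : Finset (Fin N)} {o : Fin N × Dir → ℤˣ} (h : Adm X sp o) {p : Fin N × Dir}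
    (hp : p.1 ∉ sp) (hex : ¬ ex o p.1) : o (opp p) = -o p := by
  have h1 : o (p.1, .E) = -o (p.1, .W) ∧ o (p.1, .S) = -o (p.1, .N) := by
    rcases h.pl p.1 hp with h2 | ⟨_, _, h3, h4⟩
    · exact h2
    · exfalso; apply hex; unfold ex; rw [h3, h4]
  obtain ⟨c, d⟩ := p
  cases d
  · exact h1.1
  · exact h1.2
  · exact neg_flip h1.1
  · exact neg_flip h1.2

/-- the arrows of an exchange column -/
def exArrow : Dir → ℤˣ
  | .W => -1
  | .E => -1
  | .N => 1
  | .S => 1

lemma Adm.exch {sp : Finset (Fin N)} {o : Fin N × Dir → ℤˣ} (h : Adm X sp o) {p : Fin N × Dir}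
    (hp : p.1 ∉ sp) (hex : ex o p.1) : o p = exArrow p.2 := by
  have h1 : o (p.1, .W) = -1 ∧ o (p.1, .E) = -1 ∧ o (p.1, .N) = 1 ∧ o (p.1, .S) = 1 := by
    rcases h.pl p.1 hp with h2 | h2
    · exfalso
      unfold ex at hex
      exact ne_self_neg _ (hex.symm.trans h2.2)
    · exact h2
  obtain ⟨c, d⟩ := p
  cases d
  · exact h1.1
  · exact h1.2.2.1
  · exact h1.2.1
  · exact h1.2.2.2

/-- the arrows on the anchored ends are determined -/
theorem det {sp : Finset (Fin N)} {o o' : Fin N × Dir → ℤˣ} (h : Adm X sp o) (h' : Adm X sp o')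
    (hex : ∀ c, c ∉ sp → (ex o c ↔ ex o' c)) (hs : ∀ p : Fin N × Dir, p.1 ∈ sp → o p = o' p)
    {p : Fin N × Dir} (hp : Anch X sp p) : o p = o' p := by
  have special : ∀ p, Sp X p → o p = o' p := by
    intro p hp
    rcases hp with rfl | rfl | rfl | rfl
    · rw [h.cons.1, h'.cons.1]
    · rw [h.cons.2.1, h'.cons.2.1]
    · rw [h.cons.2.2.1, h'.cons.2.2.1]
    · rw [h.cons.2.2.2.1, h'.cons.2.2.2.1]
  induction hp with
  | col p hp => exact hs p hp
  | spc p hp => exact special p hp
  | wire p _ ih =>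
    by_cases hsp : Sp X p
    · exact special p hsp
    · have e1 := cons_of h.cons hsp
      have e2 := cons_of h'.cons hsp
      rw [neg_flip e1, neg_flip e2, ih]
  | opp p _ ih =>
    by_cases hc : p.1 ∈ sp
    · exact hs p hc
    · by_cases he : ex o p.1
      · rw [h.exch hc he, h'.exch hc ((hex p.1 hc).1 he)]
      · have he' : ¬ ex o' p.1 := fun hh => he ((hex p.1 hc).2 hh)
        rw [neg_flip (h.straight hc he), neg_flip (h'.straight hc he'), ih]

open Classical in
/-- **Number of configurations.** `Ex k` are the possible exchange columns of the `k`-th interval. -/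
theorem card_le {sp : Finset (Fin N)} {K : ℕ} (Ex : Fin K → Finset (Fin N)) (n : Fin N × Dir → ℤˣ)
    (S : Finset (Fin N × Dir → ℤˣ)) (hS : ∀ o ∈ S, Adm X sp o)
    (hn : ∀ o ∈ S, ∀ p, ¬ Anch X sp p → o p = n p)
    (hex : ∀ o ∈ S, ∀ c, c ∉ sp → ex o c → ∃ k, c ∈ Ex k)
    (hone : ∀ o ∈ S, ∀ k, ∀ c ∈ Ex k, ∀ c' ∈ Ex k, ex o c → ex o c' → c = c') :
    S.card ≤ 2 ^ (4 * sp.card) * ∏ k, (1 + (Ex k).card) := by
  set T : Finset (Fin N × Dir) := sp ×ˢ (univ : Finset Dir) with hT
  set δ : (Fin N × Dir → ℤˣ) → Finset (Fin N × Dir) × (Fin K → Option (Fin N)) := fun o =>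
    (T.filter (fun p => o p = 1),
      fun k => if h : ∃ c ∈ Ex k, ex o c then some h.choose else none) with hδ
  set Y : Finset (Finset (Fin N × Dir) × (Fin K → Option (Fin N))) :=
    T.powerset ×ˢ Fintype.piFinset (fun k => Finset.insertNone (Ex k)) with hY
  have hcard : Y.card = 2 ^ (4 * sp.card) * ∏ k, (1 + (Ex k).card) := by
    rw [hY, card_product, card_powerset, hT, card_product, Fintype.card_piFinset]
    have h4 : (univ : Finset Dir).card = 4 := rfl
    rw [h4, mul_comm sp.card 4]
    congr 1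
    refine prod_congr rfl fun k _ => ?_
    rw [Finset.card_insertNone, add_comm]
  rw [← hcard]
  refine card_le_card_of_injOn δ ?_ ?_
  · intro o _
    rw [hY]
    simp only [coe_product, Set.mem_prod, mem_coe, mem_powerset, Fintype.mem_piFinset, hδ]
    refine ⟨filter_subset _ _, fun k => ?_⟩
    by_cases h : ∃ c ∈ Ex k, ex o c
    · rw [dif_pos h]
      exact Finset.some_mem_insertNone.2 h.choose_spec.1
    · rw [dif_neg h]
      exact Finset.none_mem_insertNone
  · intro o ho o' ho' heq
    have h1 : T.filter (fun p => o p = 1) = T.filter (fun p => o' p = 1) := congrArg Prod.fst heq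
    have h2 : ∀ k, (if h : ∃ c ∈ Ex k, ex o c then some h.choose else none) =
        (if h : ∃ c ∈ Ex k, ex o' c then some h.choose else none) :=
      fun k => congrFun (congrArg Prod.snd heq) k
    have hs : ∀ p : Fin N × Dir, p.1 ∈ sp → o p = o' p := by
      intro p hp
      have hpT : p ∈ T := by rw [hT, mem_product]; exact ⟨hp, mem_univ _⟩
      have h3 := Finset.ext_iff.1 h1 p
      simp only [mem_filter, hpT, true_and] at h3
      rcases Int.units_eq_one_or (o p) with h4 | h4 <;> rcases Int.units_eq_one_or (o' p) with h5 | h5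
      · rw [h4, h5]
      · exfalso
        rw [h3.1 h4] at h5
        exact absurd h5 (by decide)
      · exfalso
        rw [h3.2 h5] at h4
        exact absurd h4 (by decide)
      · rw [h4, h5]
    have key : ∀ o ∈ S, ∀ o' ∈ S, (∀ k, (if h : ∃ c ∈ Ex k, ex o c then some h.choose else none) =
        (if h : ∃ c ∈ Ex k, ex o' c then some h.choose else none)) → ∀ c, c ∉ sp → ex o c → ex o' c := by
      intro o ho o' ho' h2 c hc he
      obtain ⟨k, hk⟩ := hex o ho c hc he
      have h : ∃ c ∈ Ex k, ex o c := ⟨c, hk, he⟩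
      have h3 := h2 k
      rw [dif_pos h] at h3
      have e1 : h.choose = c := hone o ho k _ h.choose_spec.1 c hk h.choose_spec.2 he
      by_cases h' : ∃ c ∈ Ex k, ex o' c
      · rw [dif_pos h'] at h3
        have e2 := Option.some_injective _ h3
        rw [e1] at e2
        rw [e2]
        exact h'.choose_spec.2
      · rw [dif_neg h'] at h3
        exact absurd h3 (by simp)
    have hexx : ∀ c, c ∉ sp → (ex o c ↔ ex o' c) := fun c hc =>
      ⟨key o ho o' ho' h2 c hc, key o' ho' o ho (fun k => (h2 k).symm) c hc⟩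
    funext p
    by_cases hp : Anch X sp p
    · exact det (hS o ho) (hS o' ho') hexx hs hp
    · rw [hn o ho p hp, hn o' ho' p hp]

/-! ### at most one exchange per interval -/

/-- two exchanges need a special column or the mark between them -/
lemma one_ex {sp : Finset (Fin N)} {o : Fin N × Dir → ℤˣ} (h : Adm X sp o) {c c' : Fin N}
    (hlt : c < c') (hpl : ∀ z, c ≤ z → z ≤ c' → z ∉ sp)
    (hw : ∀ z z' : Fin N, c ≤ z → z' ≤ c' → (z' : ℕ) = z + 1 → X.π (z, .E) = (z', .W) ∧ ¬ Sp X (z, .E))
    (h1 : ex o c) (h2 : ex o c') : False := by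
  have e0 : o (c, .E) = -1 := h.exch (p := (c, .E)) (hpl c le_rfl hlt.le) h1
  have step : ∀ j : ℕ, ∀ hj : j < N, c.val < j → j ≤ c'.val → o (⟨j, hj⟩, .W) = 1 := by
    intro j
    induction j with
    | zero => intro _ h1 _; omega
    | succ j ih =>
      intro hj k1 k2
      have hjN : j < N := by omega
      have hc0 : c ≤ (⟨j, hjN⟩ : Fin N) := Fin.le_def.2 (by simp; omega)
      have hc1 : (⟨j, hjN⟩ : Fin N) ≤ c' := Fin.le_def.2 (by simp; omega)
      obtain ⟨w1, w2⟩ := hw ⟨j, hjN⟩ ⟨j + 1, hj⟩ hc0 (Fin.le_def.2 (by simp; omega)) rfl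
      have r := cons_of h.cons w2
      rw [w1] at r
      rw [r]
      rcases Nat.lt_or_ge c.val j with h3 | h3
      · have h4 := ih hjN h3 (by omega)
        rcases h.pl ⟨j, hjN⟩ (hpl _ hc0 hc1) with h5 | h5
        · rw [h5.1, h4]; simp
        · rw [h5.2.1]; simp
      · have h5 : (⟨j, hjN⟩ : Fin N) = c := Fin.ext (by simp; omega)
        rw [h5, e0]; simp
  have e1 : o (c', .W) = 1 := step c'.val c'.2 (Fin.lt_def.1 hlt) le_rfl
  have e2 : o (c', .W) = -1 := h.exch (p := (c', .W)) (hpl c' hlt.le le_rfl) h2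
  rw [e1] at e2
  exact absurd e2 (by decide)

/-! ### the row ends are anchored -/

/-- all row ends are anchored if one of them is -/
lemma row_anch {sp : Finset (Fin N)} (hinv : ∀ p, X.π (X.π p) = p) (hrow : X.IsRow) {c : Fin N}
    (hc : Anch X sp (c, .W) ∨ Anch X sp (c, .E)) (z : Fin N) :
    Anch X sp (z, .W) ∧ Anch X sp (z, .E) := by
  have both : ∀ z : Fin N, Anch X sp (z, .W) ∨ Anch X sp (z, .E) →
      Anch X sp (z, .W) ∧ Anch X sp (z, .E) := by
    intro z h
    rcases h with h | h
    · exact ⟨h, Anch.opp (z, .E) h⟩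
    · exact ⟨Anch.opp (z, .W) h, h⟩
  have up : ∀ t : ℕ, ∀ ht : c.val + t < N, Anch X sp (⟨c.val + t, ht⟩, .W) ∧
      Anch X sp (⟨c.val + t, ht⟩, .E) := by
    intro t
    induction t with
    | zero => intro _; exact both c hc
    | succ t ih =>
      intro ht
      have h1 := ih (by omega)
      have h2 := hrow ⟨c.val + t, by omega⟩ ⟨c.val + (t + 1), ht⟩ (by simp; omega)
      refine both _ (Or.inl (Anch.wire _ ?_))
      rw [← h2, hinv]
      exact h1.2
  have down : ∀ t : ℕ, ∀ z : Fin N, z.val + t = c.val → Anch X sp (z, .W) ∧ Anch X sp (z, .E) := by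
    intro t
    induction t with
    | zero =>
      intro z hz
      have : z = c := Fin.ext (by omega)
      rw [this]; exact both c hc
    | succ t ih =>
      intro z hz
      have hzN : z.val + 1 < N := by have := c.2; omega
      have h1 := ih ⟨z.val + 1, hzN⟩ (by simp; omega)
      have h2 := hrow z ⟨z.val + 1, hzN⟩ rfl
      refine both _ (Or.inr (Anch.wire _ ?_))
      rw [h2]
      exact h1.1
  rcases Nat.lt_or_ge z.val c.val with h | h
  · exact down (c.val - z.val) z (by omega)
  · have := up (z.val - c.val) (by have := z.2; omega)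
    have e : (⟨c.val + (z.val - c.val), by have := z.2; omega⟩ : Fin N) = z := Fin.ext (by simp; omega)
    rwa [e] at this

end Pool.Agent.Q1.M6b.ExN
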