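import Mathlib

set_option autoImplicit false
open Finset

/-! Cancellation of the exchange vertices of an over-line in the vertex (arrow) form.

Sites `c : Fin N` of a row; edges `k : Fin (N + 1)` (edge `c.castSucc` on the left, `c.succ` on the right of
the site `c`). Arrows: `r k` on the row (`1` = east), `u c`, `d c` on the upper / lower end of the site `c`
(`1` = up). At a plain site the vertex weight is `ov a s`: straight configurations weigh `a ^ (± 1)`, the
exchange (row arrows in, vertical arrows out) weighs `s`. The other sites are arbitrary. Inner arcs join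
`x` and `U x`, `x < U x`, above the row, with plain sites only between them. Then the configurations with
an exchange at the foot of an inner arc cancel in pairs. -/

namespace Pool.Agent.Q1.M6b.Exch

/-- vertex weight of an over-crossing: west, east, up, down arrows -/
noncomputable def ov (a s : ℂ) (w e u d : ℤˣ) : ℂ :=
  if w = e ∧ u = d then a ^ ((w * u : ℤˣ) : ℤ)
  else if w = 1 ∧ e = -1 ∧ u = 1 ∧ d = -1 then s else 0

lemma ov_west {a s : ℂ} {e u d : ℤˣ} (h : ov a s (-1) e u d ≠ 0) : e = -1 ∧ u = d := by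
  unfold ov at h
  split_ifs at h with h1 h2
  · exact ⟨h1.1.symm, h1.2⟩
  · exact absurd h2.1 (by decide)
  · exact absurd rfl h

lemma ov_east {a s : ℂ} {w u d : ℤˣ} (h : ov a s w 1 u d ≠ 0) : w = 1 ∧ u = d := by
  unfold ov at h
  split_ifs at h with h1 h2
  · exact ⟨h1.1, h1.2⟩
  · exact absurd h2.2.1 (by decide)
  · exact absurd rfl h

lemma ov_exch {a s : ℂ} {w e u d : ℤˣ} (h : ov a s w e u d ≠ 0) (hud : u ≠ d) :
    w = 1 ∧ e = -1 ∧ u = 1 ∧ d = -1 := by
  unfold ov at h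
  split_ifs at h with h1 h2
  · exact absurd h1.2 hud
  · exact h2
  · exact absurd rfl h

variable {N : ℕ}

/-- configurations of arrows: row, upper ends, lower ends -/
abbrev Cf (N : ℕ) := (Fin (N + 1) → ℤˣ) × (Fin N → ℤˣ) × (Fin N → ℤˣ)

/-- data of a row in vertex form -/
structure Row (N : ℕ) where
  /-- vertex weights -/
  V : Fin N → ℤˣ → ℤˣ → ℤˣ → ℤˣ → ℂ
  /-- weights of the edges of the row (bends) -/
  eta : Fin (N + 1) → ℂ
  /-- plain sites -/
  plain : Finset (Fin N)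
  a : ℂ
  s : ℂ
  /-- the upper matching -/
  U : Fin N → Fin N
  /-- left feet of the inner arcs -/
  L : Finset (Fin N)
  /-- weights of the inner arcs -/
  zeta : Fin N → ℂ
  /-- everything else -/
  Out : (Fin N → ℤˣ) → (Fin N → ℤˣ) → ℤˣ → ℤˣ → ℂ
  hV : ∀ c ∈ plain, V c = ov a s
  heta : ∀ k, eta k ≠ 0
  ha : a ≠ 0
  hzeta : ∀ x ∈ L, zeta x ≠ 0
  hlt : ∀ x ∈ L, x < U x
  hinv : ∀ x ∈ L, U (U x) = x
  hpl : ∀ x ∈ L, ∀ c, x ≤ c → c ≤ U x → c ∈ plain
  hnest : ∀ x ∈ L, ∀ z, x < z → z < U x → z ∈ L ∨ U z ∈ L ∧ U (U z) = z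
  hin : ∀ x ∈ L, ∀ z, x < z → z < U x → x < U z ∧ U z < U x
  hrat : ∀ x ∈ L, a ^ 2 * zeta x ^ 2 = -∏ k ∈ Finset.Ioc x.castSucc (U x).castSucc, eta k ^ 2
  hOut : ∀ u u' d p q, (∀ c, c ∉ L → (∀ x ∈ L, U x ≠ c) → u c = u' c) → Out u d p q = Out u' d p q

namespace Row

variable (X : Row N)

/-- product of the vertex weights -/
noncomputable def vw (ω : Cf N) : ℂ :=
  ∏ c : Fin N, X.V c (ω.1 c.castSucc) (ω.1 c.succ) (ω.2.1 c) (ω.2.2 c)

/-- product of the weights of the edges of the row -/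
noncomputable def ew (ω : Cf N) : ℂ := ∏ k : Fin (N + 1), X.eta k ^ ((ω.1 k : ℤˣ) : ℤ)

/-- product of the weights of the inner arcs -/
noncomputable def aw (ω : Cf N) : ℂ :=
  ∏ x ∈ X.L, if ω.2.1 (X.U x) = -ω.2.1 x then X.zeta x ^ ((ω.2.1 x : ℤˣ) : ℤ) else 0

/-- the weight of a configuration -/
noncomputable def wt (ω : Cf N) : ℂ :=
  X.vw ω * X.ew ω * X.aw ω * X.Out ω.2.1 ω.2.2 (ω.1 0) (ω.1 (Fin.last N))

/-- reversal of the arrows between the sites `x < y` and of the upper arrows at `x`, `y` -/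
def tog (x y : Fin N) (ω : Cf N) : Cf N :=
  (fun k => if x.castSucc < k ∧ k ≤ y.castSucc then -ω.1 k else ω.1 k,
    fun c => if c = x ∨ c = y then -ω.2.1 c else ω.2.1 c, ω.2.2)

lemma tog_tog (x y : Fin N) (ω : Cf N) : tog x y (tog x y ω) = ω := by
  unfold tog
  refine Prod.ext ?_ (Prod.ext ?_ rfl)
  · funext k
    simp only
    split_ifs <;> simp
  · funext c
    simp only
    split_ifs <;> simp

/-- exchange at the left foot `x` -/
structure P1 (x y : Fin N) (ω : Cf N) : Prop where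
  mid : ∀ k, x.castSucc < k → k ≤ y.castSucc → ω.1 k = -1
  rx : ω.1 x.castSucc = 1
  ry : ω.1 y.succ = -1
  ux : ω.2.1 x = 1
  dx : ω.2.2 x = -1
  uy : ω.2.1 y = -1
  dy : ω.2.2 y = -1
  st : ∀ z, x < z → z < y → ω.2.1 z = ω.2.2 z

/-- exchange at the right foot `y` -/
structure P2 (x y : Fin N) (ω : Cf N) : Prop where
  mid : ∀ k, x.castSucc < k → k ≤ y.castSucc → ω.1 k = 1
  rx : ω.1 x.castSucc = 1
  ry : ω.1 y.succ = -1
  ux : ω.2.1 x = -1
  dx : ω.2.2 x = -1
  uy : ω.2.1 y = 1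
  dy : ω.2.2 y = -1
  st : ∀ z, x < z → z < y → ω.2.1 z = ω.2.2 z

lemma P1.tog {x y : Fin N} {ω : Cf N} (h : P1 x y ω) : P2 x y (tog x y ω) where
  mid k h1 h2 := by
    simp only [Row.tog, if_pos (And.intro h1 h2)]
    rw [h.mid k h1 h2]; simp
  rx := by simp only [Row.tog, lt_irrefl, false_and, if_false]; exact h.rx
  ry := by
    have : ¬ (x.castSucc < y.succ ∧ y.succ ≤ y.castSucc) := fun hh =>
      absurd hh.2 (not_le.2 (Fin.castSucc_lt_succ))
    simp only [Row.tog, if_neg this]; exact h.ry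
  ux := by simp only [Row.tog, true_or, if_true]; rw [h.ux]
  dx := h.dx
  uy := by simp only [Row.tog, or_true, if_true]; rw [h.uy]; simp
  dy := h.dy
  st z h1 h2 := by
    simp only [Row.tog, h1.ne', h2.ne, or_self, if_false]
    exact h.st z h1 h2

lemma P2.tog {x y : Fin N} {ω : Cf N} (h : P2 x y ω) : P1 x y (tog x y ω) where
  mid k h1 h2 := by
    simp only [Row.tog, if_pos (And.intro h1 h2)]
    rw [h.mid k h1 h2]
  rx := by simp only [Row.tog, lt_irrefl, false_and, if_false]; exact h.rx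
  ry := by
    have : ¬ (x.castSucc < y.succ ∧ y.succ ≤ y.castSucc) := fun hh =>
      absurd hh.2 (not_le.2 (Fin.castSucc_lt_succ))
    simp only [Row.tog, if_neg this]; exact h.ry
  ux := by simp only [Row.tog, true_or, if_true]; rw [h.ux]; simp
  dx := h.dx
  uy := by simp only [Row.tog, or_true, if_true]; rw [h.uy]
  dy := h.dy
  st z h1 h2 := by
    simp only [Row.tog, h1.ne', h2.ne, or_self, if_false]
    exact h.st z h1 h2

variable {X}

/-- the product of the vertex weights -/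
lemma vw_tog {x : Fin N} (hx : x ∈ X.L) {ω : Cf N} (h : P1 x (X.U x) ω)
    (hz : ∀ z, x < z → z < X.U x → ω.2.1 (X.U z) = -ω.2.1 z) :
    X.vw (tog x (X.U x) ω) * X.a ^ 2 = X.vw ω := by
  classical
  set y := X.U x with hy
  have hxy : x < y := X.hlt x hx
  have hpx : X.V x = ov X.a X.s := X.hV _ (X.hpl x hx x le_rfl hxy.le)
  have hpy : X.V y = ov X.a X.s := X.hV _ (X.hpl x hx y hxy.le le_rfl)
  have hpz : ∀ z, x < z → z < y → X.V z = ov X.a X.s := fun z h1 h2 =>
    X.hV _ (X.hpl x hx z h1.le h2.le)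
  have h' := h.tog
  set ω' := tog x y ω with hω'
  -- the sites between
  have e0 : ∏ z ∈ Finset.Ioo x y, X.a ^ ((ω.2.1 z : ℤˣ) : ℤ) = 1 := by
    refine Finset.prod_involution (fun z _ => X.U z) ?_ ?_ ?_ ?_
    · intro z hzm
      obtain ⟨h1, h2⟩ := Finset.mem_Ioo.1 hzm
      rw [hz z h1 h2, ← zpow_add₀ X.ha]
      simp
    · intro z hzm _ heq
      obtain ⟨h1, h2⟩ := Finset.mem_Ioo.1 hzm
      rcases X.hnest x hx z h1 h2 with h3 | ⟨h3, h4⟩
      · exact absurd (X.hlt z h3) (by rw [heq]; exact lt_irrefl z)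
      · rw [heq] at h3
        exact absurd (X.hlt z h3) (by rw [heq]; exact lt_irrefl z)
    · intro z hzm
      obtain ⟨h1, h2⟩ := Finset.mem_Ioo.1 hzm
      exact Finset.mem_Ioo.2 (X.hin x hx z h1 h2)
    · intro z hzm
      obtain ⟨h1, h2⟩ := Finset.mem_Ioo.1 hzm
      rcases X.hnest x hx z h1 h2 with h3 | ⟨_, h4⟩
      · exact X.hinv z h3
      · exact h4
  have e0' : ∏ z ∈ Finset.Ioo x y, X.a ^ (-((ω.2.1 z : ℤˣ) : ℤ)) = 1 := by
    have : ∀ z, X.a ^ (-((ω.2.1 z : ℤˣ) : ℤ)) = (X.a ^ ((ω.2.1 z : ℤˣ) : ℤ))⁻¹ := fun z => zpow_neg _ _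
    simp only [this]
    rw [Finset.prod_inv_distrib, e0, inv_one]
  -- splitting
  have hsplit : ∀ f : Fin N → ℂ, ∏ c, f c =
      (∏ c ∈ Finset.univ \ Finset.Icc x y, f c) * (f x * (f y * ∏ c ∈ Finset.Ioo x y, f c)) := by
    intro f
    rw [← Finset.prod_sdiff (Finset.subset_univ (Finset.Icc x y))]
    congr 1
    rw [← Finset.Ioc_insert_left hxy.le, Finset.prod_insert (by simp),
      ← Finset.Ioo_insert_right hxy, Finset.prod_insert (by simp)]
  unfold vw
  rw [hsplit, hsplit (fun c => X.V c (ω.1 c.castSucc) (ω.1 c.succ) (ω.2.1 c) (ω.2.2 c))]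
  -- outside
  have eo : ∀ c ∈ Finset.univ \ Finset.Icc x y,
      X.V c (ω'.1 c.castSucc) (ω'.1 c.succ) (ω'.2.1 c) (ω'.2.2 c) =
      X.V c (ω.1 c.castSucc) (ω.1 c.succ) (ω.2.1 c) (ω.2.2 c) := by
    intro c hc
    rw [Finset.mem_sdiff, Finset.mem_Icc, not_and_or, not_le, not_le] at hc
    have hne : ¬ (c = x ∨ c = y) := by
      rintro (rfl | rfl)
      · rcases hc.2 with h | h
        · exact lt_irrefl _ h
        · exact absurd h (not_lt.2 hxy.le)
      · rcases hc.2 with h | h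
        · exact absurd h (not_lt.2 hxy.le)
        · exact lt_irrefl _ h
    have k1 : ¬ (x.castSucc < c.castSucc ∧ c.castSucc ≤ y.castSucc) := by
      rintro ⟨h1, h2⟩
      rw [Fin.castSucc_lt_castSucc_iff] at h1
      rw [Fin.castSucc_le_castSucc_iff] at h2
      rcases hc.2 with h | h
      · exact absurd h (not_lt.2 h1.le)
      · exact absurd h (not_lt.2 h2)
    have k2 : ¬ (x.castSucc < c.succ ∧ c.succ ≤ y.castSucc) := by
      rintro ⟨h1, h2⟩
      rw [Fin.castSucc_lt_succ_iff] at h1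
      rw [Fin.succ_le_castSucc_iff] at h2
      rcases hc.2 with h | h
      · exact absurd h (not_lt.2 h1)
      · exact absurd h (not_lt.2 h2.le)
    simp only [hω', Row.tog, if_neg k1, if_neg k2, if_neg hne]
  rw [Finset.prod_congr rfl eo]
  -- the site x
  have hmx : ω.1 x.succ = -1 := h.mid _ Fin.castSucc_lt_succ
    (by rw [Fin.succ_le_castSucc_iff]; exact hxy)
  have hmx' : ω'.1 x.succ = 1 := h'.mid _ Fin.castSucc_lt_succ
    (by rw [Fin.succ_le_castSucc_iff]; exact hxy)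
  have hmy : ω.1 y.castSucc = -1 := h.mid _ (by rw [Fin.castSucc_lt_castSucc_iff]; exact hxy) le_rfl
  have hmy' : ω'.1 y.castSucc = 1 := h'.mid _ (by rw [Fin.castSucc_lt_castSucc_iff]; exact hxy) le_rfl
  have vx : X.V x (ω.1 x.castSucc) (ω.1 x.succ) (ω.2.1 x) (ω.2.2 x) = X.s := by
    rw [hpx, h.rx, hmx, h.ux, h.dx]
    unfold ov
    rw [if_neg (by decide), if_pos (by decide)]
  have vx' : X.V x (ω'.1 x.castSucc) (ω'.1 x.succ) (ω'.2.1 x) (ω'.2.2 x) = X.a⁻¹ := by
    rw [hpx, h'.rx, hmx', h'.ux, h'.dx]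
    unfold ov
    rw [if_pos (by decide)]
    simp
  have vy : X.V y (ω.1 y.castSucc) (ω.1 y.succ) (ω.2.1 y) (ω.2.2 y) = X.a := by
    rw [hpy, h.ry, hmy, h.uy, h.dy]
    unfold ov
    rw [if_pos (by decide)]
    simp
  have vy' : X.V y (ω'.1 y.castSucc) (ω'.1 y.succ) (ω'.2.1 y) (ω'.2.2 y) = X.s := by
    rw [hpy, h'.ry, hmy', h'.uy, h'.dy]
    unfold ov
    rw [if_neg (by decide), if_pos (by decide)]
  have vz : ∏ c ∈ Finset.Ioo x y, X.V c (ω.1 c.castSucc) (ω.1 c.succ) (ω.2.1 c) (ω.2.2 c) = 1 := by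
    rw [← e0']
    refine Finset.prod_congr rfl fun z hzm => ?_
    obtain ⟨h1, h2⟩ := Finset.mem_Ioo.1 hzm
    rw [hpz z h1 h2, h.mid z.castSucc (by rw [Fin.castSucc_lt_castSucc_iff]; exact h1)
      (by rw [Fin.castSucc_le_castSucc_iff]; exact h2.le), h.mid z.succ
      (by rw [Fin.castSucc_lt_succ_iff]; exact h1.le) (by rw [Fin.succ_le_castSucc_iff]; exact h2),
      ← h.st z h1 h2]
    unfold ov
    rw [if_pos ⟨rfl, rfl⟩]
    congr 1
    push_cast
    ring
  have vz' : ∏ c ∈ Finset.Ioo x y, X.V c (ω'.1 c.castSucc) (ω'.1 c.succ) (ω'.2.1 c) (ω'.2.2 c) = 1 := by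
    rw [← e0]
    refine Finset.prod_congr rfl fun z hzm => ?_
    obtain ⟨h1, h2⟩ := Finset.mem_Ioo.1 hzm
    have hu : ω'.2.1 z = ω.2.1 z := by
      simp only [hω', Row.tog, h1.ne', h2.ne, or_self, if_false]
    rw [hpz z h1 h2, h'.mid z.castSucc (by rw [Fin.castSucc_lt_castSucc_iff]; exact h1)
      (by rw [Fin.castSucc_le_castSucc_iff]; exact h2.le), h'.mid z.succ
      (by rw [Fin.castSucc_lt_succ_iff]; exact h1.le) (by rw [Fin.succ_le_castSucc_iff]; exact h2),
      ← h'.st z h1 h2, hu]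
    unfold ov
    rw [if_pos ⟨rfl, rfl⟩]
    congr 1
    push_cast
    ring
  rw [vx, vx', vy, vy', vz, vz']
  have := X.ha
  field_simp

/-- the product of the edge weights -/
lemma ew_tog {x : Fin N} {ω : Cf N} (h : P1 x (X.U x) ω) :
    X.ew (tog x (X.U x) ω) =
      X.ew ω * ∏ k ∈ Finset.Ioc x.castSucc (X.U x).castSucc, X.eta k ^ 2 := by
  classical
  set y := X.U x with hy
  have h' := h.tog
  set ω' := tog x y ω with hω'
  unfold ew
  rw [← Finset.prod_sdiff (Finset.subset_univ (Finset.Ioc x.castSucc y.castSucc)),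
    ← Finset.prod_sdiff (Finset.subset_univ (Finset.Ioc x.castSucc y.castSucc)), mul_assoc,
    ← Finset.prod_mul_distrib]
  congr 1
  · refine Finset.prod_congr rfl fun k hk => ?_
    rw [Finset.mem_sdiff, Finset.mem_Ioc] at hk
    simp only [hω', Row.tog, if_neg hk.2]
  · refine Finset.prod_congr rfl fun k hk => ?_
    obtain ⟨h1, h2⟩ := Finset.mem_Ioc.1 hk
    rw [h.mid k h1 h2, h'.mid k h1 h2]
    have := X.heta k
    simp only [Units.val_one, zpow_one, Units.val_neg, zpow_neg]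
    field_simp

/-- the product of the arc weights -/
lemma aw_tog {x : Fin N} (hx : x ∈ X.L) {ω : Cf N} (h : P1 x (X.U x) ω) :
    X.aw (tog x (X.U x) ω) * X.zeta x ^ 2 = X.aw ω := by
  classical
  set y := X.U x with hy
  have hxy : x < y := X.hlt x hx
  have h' := h.tog
  set ω' := tog x y ω with hω'
  unfold aw
  rw [← Finset.mul_prod_erase X.L _ hx, ← Finset.mul_prod_erase X.L
    (fun x => if ω.2.1 (X.U x) = -ω.2.1 x then X.zeta x ^ ((ω.2.1 x : ℤˣ) : ℤ) else 0) hx]
  have e1 : ∏ z ∈ X.L.erase x, (if ω'.2.1 (X.U z) = -ω'.2.1 z then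
      X.zeta z ^ ((ω'.2.1 z : ℤˣ) : ℤ) else 0) =
      ∏ z ∈ X.L.erase x, (if ω.2.1 (X.U z) = -ω.2.1 z then
      X.zeta z ^ ((ω.2.1 z : ℤˣ) : ℤ) else 0) := by
    refine Finset.prod_congr rfl fun z hz => ?_
    obtain ⟨hzx, hzL⟩ := Finset.mem_erase.1 hz
    have n1 : z ≠ y := by
      intro hzy
      have h1 := X.hlt z hzL
      rw [hzy, hy, X.hinv x hx] at h1
      exact absurd h1 (not_lt.2 hxy.le)
    have n2 : X.U z ≠ x := by
      intro hzy
      have h1 := X.hinv z hzL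
      rw [hzy] at h1
      exact n1 h1.symm
    have n3 : X.U z ≠ y := by
      intro hzy
      have h1 := X.hinv z hzL
      rw [hzy, hy, X.hinv x hx] at h1
      exact hzx h1.symm
    have u1 : ω'.2.1 z = ω.2.1 z := by
      simp only [hω', Row.tog, hzx, n1, or_self, if_false]
    have u2 : ω'.2.1 (X.U z) = ω.2.1 (X.U z) := by
      simp only [hω', Row.tog, n2, n3, or_self, if_false]
    rw [u1, u2]
  rw [e1, ← hy, h.ux, h.uy, h'.ux, h'.uy]
  have := X.hzeta x hx
  rw [if_pos (by decide), if_pos (by decide)]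
  simp only [Units.val_one, zpow_one, Units.val_neg, zpow_neg]
  field_simp

lemma out_tog {x : Fin N} (hx : x ∈ X.L) (ω : Cf N) :
    X.Out (tog x (X.U x) ω).2.1 (tog x (X.U x) ω).2.2 ((tog x (X.U x) ω).1 0)
      ((tog x (X.U x) ω).1 (Fin.last N)) = X.Out ω.2.1 ω.2.2 (ω.1 0) (ω.1 (Fin.last N)) := by
  set y := X.U x with hy
  have k1 : ¬ (x.castSucc < (0 : Fin (N + 1)) ∧ (0 : Fin (N + 1)) ≤ y.castSucc) :=
    fun h => absurd h.1 (Fin.not_lt_zero _)
  have k2 : ¬ (x.castSucc < Fin.last N ∧ Fin.last N ≤ y.castSucc) :=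
    fun h => absurd h.2 (not_le.2 (Fin.castSucc_lt_last y))
  have e1 : (tog x y ω).1 0 = ω.1 0 := by simp only [Row.tog, if_neg k1]
  have e2 : (tog x y ω).1 (Fin.last N) = ω.1 (Fin.last N) := by simp only [Row.tog, if_neg k2]
  have e3 : (tog x y ω).2.2 = ω.2.2 := rfl
  rw [e1, e2, e3]
  refine X.hOut _ _ _ _ _ fun c h1 h2 => ?_
  have n1 : c ≠ x := fun h => h1 (h ▸ hx)
  have n2 : c ≠ y := fun h => h2 x hx h.symm
  simp only [Row.tog, n1, n2, or_self, if_false]

/-- **the ratio of the weights is `-1`** -/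
lemma wt_tog {x : Fin N} (hx : x ∈ X.L) {ω : Cf N} (h : P1 x (X.U x) ω)
    (hz : ∀ z, x < z → z < X.U x → ω.2.1 (X.U z) = -ω.2.1 z) :
    X.wt (tog x (X.U x) ω) = -X.wt ω := by
  unfold wt
  rw [out_tog hx]
  have e1 := vw_tog hx h hz
  have e2 := ew_tog h
  have e3 := aw_tog hx h
  have e4 := X.hrat x hx
  set Q := ∏ k ∈ Finset.Ioc x.castSucc (X.U x).castSucc, X.eta k ^ 2 with hQ
  have hQ0 : Q ≠ 0 := Finset.prod_ne_zero_iff.2 fun k _ => pow_ne_zero 2 (X.heta k)
  rw [← e1, ← e3, e2]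
  set v := X.vw (tog x (X.U x) ω)
  set t := X.aw (tog x (X.U x) ω)
  set o := X.Out ω.2.1 ω.2.2 (ω.1 0) (ω.1 (Fin.last N))
  have : v * X.a ^ 2 * X.ew ω * (t * X.zeta x ^ 2) * o = (X.a ^ 2 * X.zeta x ^ 2) * (v * X.ew ω * t * o) := by
    ring
  rw [this, e4]
  ring

/-! ### the structure of the configurations of nonzero weight -/

lemma vw_ne {ω : Cf N} (h : X.wt ω ≠ 0) (c : Fin N) :
    X.V c (ω.1 c.castSucc) (ω.1 c.succ) (ω.2.1 c) (ω.2.2 c) ≠ 0 := by
  unfold wt at h
  have h1 : X.vw ω ≠ 0 := by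
    intro h0; apply h; rw [h0]; ring
  unfold vw at h1
  exact Finset.prod_ne_zero_iff.1 h1 c (Finset.mem_univ _)

lemma arc_of {ω : Cf N} (h : X.wt ω ≠ 0) {x : Fin N} (hx : x ∈ X.L) :
    ω.2.1 (X.U x) = -ω.2.1 x := by
  by_contra hcon
  apply h
  unfold wt aw
  rw [Finset.prod_eq_zero hx (if_neg hcon)]
  ring

lemma arc_bet {ω : Cf N} (h : X.wt ω ≠ 0) {x : Fin N} (hx : x ∈ X.L) {z : Fin N} (h1 : x < z)
    (h2 : z < X.U x) : ω.2.1 (X.U z) = -ω.2.1 z := by
  rcases X.hnest x hx z h1 h2 with h3 | ⟨h3, h4⟩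
  · exact arc_of h h3
  · have := arc_of h h3
    rw [h4] at this
    rw [this]; simp

/-- exchange at the left foot -/
lemma p1_of {ω : Cf N} (h : X.wt ω ≠ 0) {x : Fin N} (hx : x ∈ X.L) (hex : ω.2.1 x ≠ ω.2.2 x) :
    P1 x (X.U x) ω := by
  set y := X.U x with hy
  have hxy : x < y := X.hlt x hx
  have pl := X.hpl x hx
  have vx := vw_ne h x
  rw [X.hV x (pl x le_rfl hxy.le)] at vx
  obtain ⟨a1, a2, a3, a4⟩ := ov_exch vx hex
  have step : ∀ j : ℕ, ∀ hj : j < N + 1, x.val < j → j ≤ y.val → ω.1 ⟨j, hj⟩ = -1 := by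
    intro j
    induction j with
    | zero => intro _ h1 _; omega
    | succ j ih =>
      intro hj h1 h2
      rcases Nat.lt_or_ge x.val j with h3 | h3
      · have h4 := ih (by omega) h3 (by omega)
        have hjN : j < N := by omega
        have v := vw_ne h ⟨j, hjN⟩
        rw [X.hV _ (pl ⟨j, hjN⟩ (Fin.le_def.2 (by simpa using h3.le)) (Fin.le_def.2 (by simp; omega)))] at v
        have e1 : (⟨j, hjN⟩ : Fin N).castSucc = ⟨j, by omega⟩ := rfl
        have e2 : (⟨j, hjN⟩ : Fin N).succ = ⟨j + 1, hj⟩ := rfl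
        rw [e1, e2, h4] at v
        exact (ov_west v).1
      · have h5 : j = x.val := by omega
        subst h5
        exact a2
  have ymid : ω.1 y.castSucc = -1 := step y.val (by omega) (Fin.lt_def.1 hxy) le_rfl
  have vy := vw_ne h y
  rw [X.hV y (pl y hxy.le le_rfl), ymid] at vy
  have vy2 := ov_west vy
  have uy : ω.2.1 y = -1 := by rw [hy, arc_of h hx, a3]
  refine ⟨fun k h1 h2 => ?_, a1, vy2.1, a3, a4, uy, by rw [← vy2.2, uy], fun z h1 h2 => ?_⟩
  · have := step k.val k.2 (Fin.lt_def.1 h1) (Fin.le_def.1 h2)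
    exact this
  · have v := vw_ne h z
    have e1 : ω.1 z.castSucc = -1 := step z.val (by omega) (Fin.lt_def.1 h1)
      (Fin.le_def.1 h2.le)
    rw [X.hV z (pl z h1.le h2.le), e1] at v
    exact (ov_west v).2

/-- exchange at the right foot -/
lemma p2_of {ω : Cf N} (h : X.wt ω ≠ 0) {x : Fin N} (hx : x ∈ X.L)
    (hex : ω.2.1 (X.U x) ≠ ω.2.2 (X.U x)) : P2 x (X.U x) ω := by
  set y := X.U x with hy
  have hxy : x < y := X.hlt x hx
  have pl := X.hpl x hx
  have vy := vw_ne h y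
  rw [X.hV y (pl y hxy.le le_rfl)] at vy
  obtain ⟨a1, a2, a3, a4⟩ := ov_exch vy hex
  have step : ∀ t : ℕ, ∀ j : ℕ, ∀ hj : j < N + 1, x.val ≤ j → j + t = y.val → ω.1 ⟨j, hj⟩ = 1 := by
    intro t
    induction t with
    | zero =>
      intro j hj h1 h2
      have : j = y.val := by omega
      subst this
      exact a1
    | succ t ih =>
      intro j hj h1 h2
      have hjN : j < N := by omega
      have h3 := ih (j + 1) (by omega) (by omega) (by omega)
      have v := vw_ne h ⟨j, hjN⟩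
      rw [X.hV _ (pl ⟨j, hjN⟩ (Fin.le_def.2 (by simpa using h1)) (Fin.le_def.2 (by simp; omega)))] at v
      have e2 : (⟨j, hjN⟩ : Fin N).succ = ⟨j + 1, by omega⟩ := rfl
      rw [e2, h3] at v
      exact (ov_east v).1
  have r1 : ∀ j : ℕ, ∀ hj : j < N + 1, x.val ≤ j → j ≤ y.val → ω.1 ⟨j, hj⟩ = 1 :=
    fun j hj h1 h2 => step (y.val - j) j hj h1 (by omega)
  have r2 : ∀ z : Fin N, x ≤ z → z < y → ω.2.1 z = ω.2.2 z := by
    intro z h1 h2
    have v := vw_ne h z
    have e1 : ω.1 z.succ = 1 := r1 (z.val + 1) (by omega) (by have := Fin.le_def.1 h1; omega)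
      (Fin.lt_def.1 h2)
    rw [X.hV z (pl z h1 h2.le), e1] at v
    exact (ov_east v).2
  have ux : ω.2.1 x = -1 := by
    have := arc_of h hx
    rw [← hy, a3] at this
    have h2 := congrArg (fun t => -t) this
    simpa using h2.symm
  exact ⟨fun k h1 h2 => r1 k.val k.2 (Fin.lt_def.1 h1).le (Fin.le_def.1 h2),
    r1 x.val (by omega) le_rfl (Fin.le_def.1 hxy.le), a2, ux, by rw [← r2 x le_rfl hxy, ux], a3, a4,
    fun z h1 h2 => r2 z h1.le h2⟩

lemma wt_tog' {ω : Cf N} (h : X.wt ω ≠ 0) {x : Fin N} (hx : x ∈ X.L)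
    (hex : ω.2.1 x ≠ ω.2.2 x ∨ ω.2.1 (X.U x) ≠ ω.2.2 (X.U x)) :
    X.wt (tog x (X.U x) ω) = -X.wt ω ∧
      ((tog x (X.U x) ω).2.1 x ≠ (tog x (X.U x) ω).2.2 x ∨
        (tog x (X.U x) ω).2.1 (X.U x) ≠ (tog x (X.U x) ω).2.2 (X.U x)) := by
  have hbet := fun z h1 h2 => arc_bet h hx (z := z) h1 h2
  rcases hex with hex | hex
  · have h1 := p1_of h hx hex
    have h2 := h1.tog
    refine ⟨wt_tog hx h1 hbet, Or.inr ?_⟩
    rw [h2.uy, h2.dy]; decide
  · have h2 := p2_of h hx hex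
    have h1 := h2.tog
    refine ⟨?_, Or.inl ?_⟩
    · have h3 := wt_tog hx h1 (fun z k1 k2 => ?_)
      · rw [tog_tog] at h3
        rw [h3]; ring
      · have n1 : z ≠ x := k1.ne'
        have n2 : z ≠ X.U x := k2.ne
        obtain ⟨m1, m2⟩ := X.hin x hx z k1 k2
        simp only [Row.tog, n1, n2, m1.ne', m2.ne, or_self, if_false]
        exact hbet z k1 k2
    · rw [h1.ux, h1.dx]; decide

open Classical in
/-- **Cancellation of the exchange vertices at the feet of the inner arcs.** -/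
theorem sum_wt_eq (X : Row N) :
    ∑ ω : Cf N, X.wt ω =
      ∑ ω : Cf N with (∀ x ∈ X.L, ω.2.1 x = ω.2.2 x ∧ ω.2.1 (X.U x) = ω.2.2 (X.U x)), X.wt ω := by
  have main : ∀ P : Finset (Fin N), P ⊆ X.L → ∑ ω : Cf N, X.wt ω =
      ∑ ω : Cf N with (∀ x ∈ P, ω.2.1 x = ω.2.2 x ∧ ω.2.1 (X.U x) = ω.2.2 (X.U x)), X.wt ω := by
    intro P
    induction P using Finset.induction_on with
    | empty => intro _; simp
    | insert x P hxP ih =>
      intro hP
      have hx : x ∈ X.L := hP (Finset.mem_insert_self _ _)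
      have hPL : P ⊆ X.L := fun z hz => hP (Finset.mem_insert_of_mem hz)
      rw [ih hPL]
      set G : Cf N → Prop := fun ω => ∀ x ∈ P, ω.2.1 x = ω.2.2 x ∧ ω.2.1 (X.U x) = ω.2.2 (X.U x)
        with hG
      set B : Cf N → Prop := fun ω => ω.2.1 x ≠ ω.2.2 x ∨ ω.2.1 (X.U x) ≠ ω.2.2 (X.U x) with hB
      rw [← Finset.sum_filter_add_sum_filter_not (s := Finset.univ.filter G) (p := B)]
      have e2 : ((Finset.univ : Finset (Cf N)).filter G).filter (fun ω => ¬ B ω) =
          (Finset.univ : Finset (Cf N)).filter (fun ω => ∀ z ∈ insert x P,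
            ω.2.1 z = ω.2.2 z ∧ ω.2.1 (X.U z) = ω.2.2 (X.U z)) := by
        ext ω
        simp only [Finset.mem_filter, Finset.mem_univ, true_and, hG, hB, Finset.forall_mem_insert,
          not_or, not_not, ne_eq]
        tauto
      rw [e2]
      have e1 : ∑ ω ∈ ((Finset.univ : Finset (Cf N)).filter G).filter B, X.wt ω = 0 := by
        have e3 : ∑ ω ∈ ((Finset.univ : Finset (Cf N)).filter G).filter B, X.wt ω =
            ∑ ω ∈ (((Finset.univ : Finset (Cf N)).filter G).filter B).filter (fun ω => X.wt ω ≠ 0),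
              X.wt ω := (Finset.sum_filter_ne_zero _).symm
        rw [e3]
        refine Finset.sum_involution (fun ω _ => tog x (X.U x) ω) ?_ ?_ ?_ ?_
        · intro ω hω
          simp only [Finset.mem_filter, Finset.mem_univ, true_and] at hω
          rw [(wt_tog' hω.2 hx hω.1.2).1]; ring
        · intro ω hω hne heq
          simp only [Finset.mem_filter, Finset.mem_univ, true_and] at hω
          have h1 := (wt_tog' hω.2 hx hω.1.2).1
          rw [heq] at h1
          have : X.wt ω = 0 := by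
            have h2 : (2 : ℂ) * X.wt ω = 0 := by linear_combination h1
            simpa using h2
          exact hne this
        · intro ω hω
          simp only [Finset.mem_filter, Finset.mem_univ, true_and] at hω ⊢
          obtain ⟨h1, h2⟩ := wt_tog' hω.2 hx hω.1.2
          refine ⟨⟨?_, h2⟩, ?_⟩
          · intro z hz
            have hzL := hPL hz
            have n0 : z ≠ x := fun h => hxP (h ▸ hz)
            have n1 : z ≠ X.U x := by
              intro hzy
              have h1 := X.hlt z hzL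
              rw [hzy, X.hinv x hx] at h1
              exact absurd h1 (not_lt.2 (X.hlt x hx).le)
            have n2 : X.U z ≠ x := by
              intro hzy
              have h1 := X.hinv z hzL
              rw [hzy] at h1
              exact n1 h1.symm
            have n3 : X.U z ≠ X.U x := by
              intro hzy
              have h1 := X.hinv z hzL
              rw [hzy, X.hinv x hx] at h1
              exact n0 h1.symm
            simp only [Row.tog, n0, n1, n2, n3, or_self, if_false]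
            exact hω.1.1 z hz
          · rw [h1]; exact neg_ne_zero.2 hω.2
        · intro ω _
          exact tog_tog _ _ _
      rw [e1, zero_add]
  exact main X.L (Finset.Subset.refl _)

end Row

end Pool.Agent.Q1.M6b.Exch
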