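import Mathlib

set_option autoImplicit false
open Finset

/-! Hoelder's inequality for three functions and the moments of a maximum, for finite weighted sums. -/

namespace Pool.Agent.Q1.M6b

variable {ι : Type*}

/-- Hoelder with three factors -/
theorem holder3 (s : Finset ι) {μ f g h : ι → ℝ} (hμ : ∀ i ∈ s, 0 ≤ μ i) (hf : ∀ i ∈ s, 0 ≤ f i)
    (hg : ∀ i ∈ s, 0 ≤ g i) (hh : ∀ i ∈ s, 0 ≤ h i) {a b c : ℝ} (ha : 0 < a) (hb : 0 < b)
    (hc : 0 < c) (habc : a + b + c = 1) :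
    ∑ i ∈ s, μ i * (f i ^ a * g i ^ b * h i ^ c) ≤
      (∑ i ∈ s, μ i * f i) ^ a * (∑ i ∈ s, μ i * g i) ^ b * (∑ i ∈ s, μ i * h i) ^ c := by
  classical
  set F := ∑ i ∈ s, μ i * f i with hF
  set G := ∑ i ∈ s, μ i * g i with hG
  set H := ∑ i ∈ s, μ i * h i with hH
  have hF0 : 0 ≤ F := sum_nonneg fun i hi => mul_nonneg (hμ i hi) (hf i hi)
  have hG0 : 0 ≤ G := sum_nonneg fun i hi => mul_nonneg (hμ i hi) (hg i hi)
  have hH0 : 0 ≤ H := sum_nonneg fun i hi => mul_nonneg (hμ i hi) (hh i hi)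
  have hR : 0 ≤ F ^ a * G ^ b * H ^ c := by positivity
  have van : ∀ {k : ι → ℝ} {e : ℝ}, 0 < e → (∀ i ∈ s, 0 ≤ k i) → ∑ i ∈ s, μ i * k i = 0 →
      ∀ i ∈ s, μ i = 0 ∨ k i ^ e = 0 := by
    intro k e he hk h0 i hi
    have := (sum_eq_zero_iff_of_nonneg fun i hi => mul_nonneg (hμ i hi) (hk i hi)).1 h0 i hi
    rcases mul_eq_zero.1 this with h1 | h1
    · exact Or.inl h1
    · right; rw [h1]; exact Real.zero_rpow he.ne'
  rcases hF0.eq_or_lt with h1 | h1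
  · refine le_trans (le_of_eq ?_) hR
    refine sum_eq_zero fun i hi => ?_
    rcases van ha hf h1.symm i hi with h | h <;> rw [h] <;> ring
  rcases hG0.eq_or_lt with h2 | h2
  · refine le_trans (le_of_eq ?_) hR
    refine sum_eq_zero fun i hi => ?_
    rcases van hb hg h2.symm i hi with h | h <;> rw [h] <;> ring
  rcases hH0.eq_or_lt with h3 | h3
  · refine le_trans (le_of_eq ?_) hR
    refine sum_eq_zero fun i hi => ?_
    rcases van hc hh h3.symm i hi with h | h <;> rw [h] <;> ring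
  have key : ∀ i ∈ s, μ i * (f i ^ a * g i ^ b * h i ^ c) ≤
      (F ^ a * G ^ b * H ^ c) * (a * (μ i * f i / F) + b * (μ i * g i / G) + c * (μ i * h i / H)) := by
    intro i hi
    have am := Real.geom_mean_le_arith_mean3_weighted ha.le hb.le hc.le
      (div_nonneg (hf i hi) h1.le) (div_nonneg (hg i hi) h2.le) (div_nonneg (hh i hi) h3.le) habc
    rw [Real.div_rpow (hf i hi) h1.le, Real.div_rpow (hg i hi) h2.le, Real.div_rpow (hh i hi) h3.le] at am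
    have p1 : 0 < F ^ a := Real.rpow_pos_of_pos h1 _
    have p2 : 0 < G ^ b := Real.rpow_pos_of_pos h2 _
    have p3 : 0 < H ^ c := Real.rpow_pos_of_pos h3 _
    have e1 : f i ^ a / F ^ a * (g i ^ b / G ^ b) * (h i ^ c / H ^ c) =
        (f i ^ a * g i ^ b * h i ^ c) / (F ^ a * G ^ b * H ^ c) := by field_simp
    rw [e1, div_le_iff₀ (by positivity)] at am
    calc μ i * (f i ^ a * g i ^ b * h i ^ c) ≤
        μ i * ((a * (f i / F) + b * (g i / G) + c * (h i / H)) * (F ^ a * G ^ b * H ^ c)) :=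
          mul_le_mul_of_nonneg_left am (hμ i hi)
      _ = _ := by ring
  refine (sum_le_sum key).trans (le_of_eq ?_)
  rw [← mul_sum, sum_add_distrib, sum_add_distrib, ← mul_sum, ← mul_sum, ← mul_sum,
    ← sum_div, ← sum_div, ← sum_div, ← hF, ← hG, ← hH, div_self h1.ne', div_self h2.ne',
    div_self h3.ne']
  rw [mul_one, mul_one, mul_one, habc, mul_one]

/-- the form with exponents `p, q, r` and an indicator -/
theorem holder_ind (s : Finset ι) {μ X Y : ι → ℝ} (hμ : ∀ i ∈ s, 0 ≤ μ i) (hX : ∀ i ∈ s, 0 ≤ X i)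
    (hY : ∀ i ∈ s, 0 ≤ Y i) (A : ι → Prop) [DecidablePred A] {p q r : ℝ} (hp : 0 < p) (hq : 0 < q)
    (hr : 0 < r) (hpqr : p⁻¹ + q⁻¹ + r⁻¹ = 1) :
    ∑ i ∈ s.filter A, μ i * (X i * Y i) ≤
      (∑ i ∈ s, μ i * X i ^ p) ^ p⁻¹ * (∑ i ∈ s, μ i * Y i ^ q) ^ q⁻¹ *
        (∑ i ∈ s.filter A, μ i) ^ r⁻¹ := by
  classical
  have h := holder3 s (μ := μ) (f := fun i => X i ^ p) (g := fun i => Y i ^ q)
    (h := fun i => if A i then (1 : ℝ) else 0) hμ (fun i hi => Real.rpow_nonneg (hX i hi) _)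
    (fun i hi => Real.rpow_nonneg (hY i hi) _) (fun i _ => by split_ifs <;> norm_num)
    (inv_pos.2 hp) (inv_pos.2 hq) (inv_pos.2 hr) hpqr
  have e1 : ∑ i ∈ s, μ i * (if A i then (1 : ℝ) else 0) = ∑ i ∈ s.filter A, μ i := by
    rw [sum_filter]
    refine sum_congr rfl fun i _ => ?_
    split_ifs <;> simp
  rw [e1] at h
  refine le_trans (le_of_eq ?_) h
  rw [sum_filter]
  refine sum_congr rfl fun i hi => ?_
  have e2 : (X i ^ p) ^ p⁻¹ = X i := by
    rw [← Real.rpow_mul (hX i hi), mul_inv_cancel₀ hp.ne', Real.rpow_one]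
  have e3 : (Y i ^ q) ^ q⁻¹ = Y i := by
    rw [← Real.rpow_mul (hY i hi), mul_inv_cancel₀ hq.ne', Real.rpow_one]
  simp only [e2, e3]
  split_ifs with hA
  · simp
  · rw [Real.zero_rpow (inv_pos.2 hr).ne']; ring

/-- moments of a maximum of finitely many functions with all moments -/
theorem sup_moment {W : Type*} (s : Finset ι) (T : Finset W) {μ : ι → ℝ} (hμ : ∀ i ∈ s, 0 ≤ μ i)
    (hμ1 : ∑ i ∈ s, μ i ≤ 1) {κ : W → ι → ℝ} (hκ : ∀ w ∈ T, ∀ i ∈ s, 0 ≤ κ w i) {KK : ι → ℝ}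
    (hKK0 : ∀ i ∈ s, 0 ≤ KK i) {M : ℝ} (hM : 0 < M)
    (hKK : ∀ i ∈ s, KK i ≤ M ∨ ∃ w ∈ T, KK i ≤ κ w i) (p q : ℕ) {B : ℝ}
    (hB : ∀ w ∈ T, ∑ i ∈ s, μ i * κ w i ^ (p + q) ≤ B) :
    ∑ i ∈ s, μ i * KK i ^ p ≤ M ^ p + T.card * B / M ^ q := by
  classical
  have key : ∀ i ∈ s, μ i * KK i ^ p ≤ μ i * M ^ p + ∑ w ∈ T, μ i * κ w i ^ (p + q) / M ^ q := by
    intro i hi
    have n1 : 0 ≤ ∑ w ∈ T, μ i * κ w i ^ (p + q) / M ^ q :=
      sum_nonneg fun w hw => div_nonneg (mul_nonneg (hμ i hi) (pow_nonneg (hκ w hw i hi) _)) (by positivity)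
    by_cases h : KK i ≤ M
    · have : μ i * KK i ^ p ≤ μ i * M ^ p :=
        mul_le_mul_of_nonneg_left (pow_le_pow_left₀ (hKK0 i hi) h p) (hμ i hi)
      linarith
    · obtain ⟨w, hw, hle⟩ := (hKK i hi).resolve_left h
      push Not at h
      have h1 : KK i ^ p * M ^ q ≤ κ w i ^ (p + q) := by
        rw [pow_add]
        exact mul_le_mul (pow_le_pow_left₀ (hKK0 i hi) hle p)
          (pow_le_pow_left₀ hM.le (h.le.trans hle) q) (by positivity) (pow_nonneg (hκ w hw i hi) _)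
      have h2 : μ i * KK i ^ p ≤ μ i * κ w i ^ (p + q) / M ^ q := by
        rw [le_div_iff₀ (by positivity), mul_assoc]
        exact mul_le_mul_of_nonneg_left h1 (hμ i hi)
      have h3 : μ i * κ w i ^ (p + q) / M ^ q ≤ ∑ w ∈ T, μ i * κ w i ^ (p + q) / M ^ q :=
        single_le_sum (f := fun w => μ i * κ w i ^ (p + q) / M ^ q)
          (fun w hw => div_nonneg (mul_nonneg (hμ i hi) (pow_nonneg (hκ w hw i hi) _)) (by positivity)) hw
      have h4 : 0 ≤ μ i * M ^ p := mul_nonneg (hμ i hi) (by positivity)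
      linarith
  calc ∑ i ∈ s, μ i * KK i ^ p ≤ ∑ i ∈ s, (μ i * M ^ p + ∑ w ∈ T, μ i * κ w i ^ (p + q) / M ^ q) :=
        sum_le_sum key
    _ = (∑ i ∈ s, μ i) * M ^ p + ∑ w ∈ T, (∑ i ∈ s, μ i * κ w i ^ (p + q)) / M ^ q := by
        rw [sum_add_distrib, ← sum_mul, sum_comm]
        congr 1
        refine sum_congr rfl fun w _ => ?_
        rw [sum_div]
    _ ≤ 1 * M ^ p + ∑ w ∈ T, B / M ^ q := by
        gcongr with w hw
        exact hB w hw
    _ = _ := by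
        rw [sum_const, nsmul_eq_mul, one_mul, mul_div_assoc]

end Pool.Agent.Q1.M6b
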