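import Pool.Agent.Q1.M6b.PB

set_option autoImplicit false
open Finset

/-! Pointwise bound of the vertex sum of one row network, blocks WITH A SIDE.

Inner arcs above the row (`Inner`) may be used in some blocks and inner arcs below the row (`InnerS`) in
other blocks: the exchanges at the feet of both kinds of arcs cancel (`V_eqS`). The bound is the same as
in `PB`, with `cov`: every anchored plain column is a foot of an arc of one of the two families or a
possible exchange column. -/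

namespace Pool.Agent.Q1.M6b.PBS

open Pool.Agent.H81.G1 Pool.Agent.Q1.M6b.ExN Pool.Agent.Q1.M6b.Strand Pool.Agent.Q1.M6b.PB

variable {N : ℕ} {X : Net (Fin N)} {a b : Fin N → ℂ} {sp : Finset (Fin N)}

/-! ### Mirror image -/

/-- exchange of the upper and the lower end -/
def fl : Fin N × Dir → Fin N × Dir
  | (c, .W) => (c, .W)
  | (c, .E) => (c, .E)
  | (c, .N) => (c, .S)
  | (c, .S) => (c, .N)

lemma fl_fl (p : Fin N × Dir) : fl (fl p) = p := by
  obtain ⟨c, d⟩ := p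
  cases d <;> rfl

lemma fl_inj {p q : Fin N × Dir} (h : fl p = fl q) : p = q := by
  rw [← fl_fl p, h, fl_fl]

lemma fl_eq {p q : Fin N × Dir} : fl p = q ↔ p = fl q :=
  ⟨fun h => by rw [← h, fl_fl], fun h => by rw [h, fl_fl]⟩

/-- the mirror image of a network (exchange of above and below) -/
def mir (X : Net (Fin N)) : Net (Fin N) where
  π := fun p => fl (X.π (fl p))
  t := fun p => -X.t (fl p)
  x0 := fl X.x0
  y0 := fl X.y0

lemma mir_pi (p : Fin N × Dir) : (mir X).π (fl p) = fl (X.π p) := by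
  show fl (X.π (fl (fl p))) = _
  rw [fl_fl]

lemma mir_inv (hinv : ∀ p, X.π (X.π p) = p) (p : Fin N × Dir) : (mir X).π ((mir X).π p) = p := by
  show fl (X.π (fl (fl (X.π (fl p))))) = p
  rw [fl_fl, hinv, fl_fl]

lemma mir_neg (ht : ∀ p, X.t (X.π p) = -X.t p) (p : Fin N × Dir) :
    (mir X).t ((mir X).π p) = -(mir X).t p := by
  show -X.t (fl (fl (X.π (fl p)))) = - -X.t (fl p)
  rw [fl_fl, ht]

/-- mirror image of the arrows -/
def ofl (o : Fin N × Dir → ℤˣ) : Fin N × Dir → ℤˣ := fun p => o (fl p)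

lemma ofl_ofl (o : Fin N × Dir → ℤˣ) : ofl (ofl o) = o := by
  funext p
  unfold ofl
  rw [fl_fl]

lemma mir_cons {o : Fin N × Dir → ℤˣ} (h : X.Cons o) : (mir X).Cons (ofl o) := by
  obtain ⟨h1, h2, h3, h4, h5⟩ := h
  refine ⟨?_, ?_, ?_, ?_, fun p k1 k2 k3 k4 => ?_⟩
  · show o (fl (fl X.x0)) = -1
    rw [fl_fl]; exact h1
  · show o (fl (fl (X.π (fl (fl X.x0))))) = -1
    rw [fl_fl, fl_fl]; exact h2
  · show o (fl (fl X.y0)) = 1
    rw [fl_fl]; exact h3
  · show o (fl (fl (X.π (fl (fl X.y0))))) = 1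
    rw [fl_fl, fl_fl]; exact h4
  · show o (fl (fl (X.π (fl p)))) = -o (fl p)
    rw [fl_fl]
    refine h5 (fl p) (fun h => k1 ?_) (fun h => k2 ?_) (fun h => k3 ?_) (fun h => k4 ?_)
    · exact fl_eq.1 h
    · show p = fl (X.π (fl (fl X.x0)))
      rw [fl_fl]; exact fl_eq.1 h
    · exact fl_eq.1 h
    · show p = fl (X.π (fl (fl X.y0)))
      rw [fl_fl]; exact fl_eq.1 h

lemma mir_mir (X : Net (Fin N)) : mir (mir X) = X := by
  obtain ⟨π, t, x0, y0⟩ := X
  unfold mir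
  simp only [fl_fl, neg_neg]

lemma cons_mir {o : Fin N × Dir → ℤˣ} (h : (mir X).Cons (ofl o)) : X.Cons o := by
  have := mir_cons h
  rwa [mir_mir, ofl_ofl] at this

lemma conj_zt (k : ℤ) : (starRingEnd ℂ) (zt ^ k) = zt ^ (-k) := by
  have h1 : zt * (starRingEnd ℂ) zt = 1 := by
    rw [Complex.mul_conj, Complex.normSq_eq_norm_sq, zt_norm]; norm_num
  have h2 : (starRingEnd ℂ) zt = zt⁻¹ := by
    have h0 := zt_ne
    field_simp
    linear_combination h1
  rw [map_zpow₀, h2, inv_zpow, zpow_neg]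

/-- the mirror images of the weights -/
noncomputable def wc (a : Fin N → ℂ) : Fin N → ℂ := fun c => (starRingEnd ℂ) (a c)

lemma conj_vert (a b : ℂ) (w n e s : ℤˣ) : (starRingEnd ℂ) (vert a b w n e s) =
    vert ((starRingEnd ℂ) b) ((starRingEnd ℂ) a) w s e n := by
  unfold vert
  rw [map_add, add_comm, apply_ite (starRingEnd ℂ), apply_ite (starRingEnd ℂ), map_zero,
    map_mul, map_mul, conj_zt, conj_zt, neg_sub, neg_sub]

lemma prod_fl (f : Fin N × Dir → ℂ) : ∏ p, f (fl p) = ∏ p, f p :=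
  Fintype.prod_bijective fl ⟨fun _ _ h => fl_inj h, fun p => ⟨fl p, fl_fl p⟩⟩ _ _ (fun _ => rfl)

/-- the weight of the mirror image -/
lemma wt_mir (X : Net (Fin N)) (a b : Fin N → ℂ) (o : Fin N × Dir → ℤˣ) :
    (mir X).wt (wc b) (wc a) (ofl o) = (starRingEnd ℂ) (X.wt a b o) := by
  unfold Net.wt
  rw [map_mul, map_prod, map_prod]
  congr 1
  · refine prod_congr rfl fun c _ => ?_
    rw [conj_vert]
    rfl
  · rw [← prod_fl]
    refine prod_congr rfl fun p _ => ?_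
    show (if o (fl (fl p)) = 1 then zt ^ (- -X.t (fl (fl p))) else 1) = _
    rw [fl_fl, neg_neg, apply_ite (starRingEnd ℂ), conj_zt, neg_neg, map_one]

/-! ### Inner arcs below the row -/

/-- an inner arc below the row -/
structure InnerS (X : Net (Fin N)) (a b : Fin N → ℂ) (x y : Fin N) : Prop where
  lt : x < y
  arc : X.π (x, .S) = (y, .S)
  ovr : ∀ c, x ≤ c → c ≤ y → a c = zt ^ (4 : ℤ) ∧ b c = zt ^ (-4 : ℤ)
  row : ∀ c c' : Fin N, x ≤ c → c' ≤ y → (c' : ℕ) = c + 1 → X.π (c, .E) = (c', .W)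
  nsE : ∀ c, x ≤ c → c < y → ¬ Sp X (c, .E)
  nsS : ∀ c, x ≤ c → c ≤ y → ¬ Sp X (c, .S)
  nest : ∀ z, x < z → z < y → ∃ z', x < z' ∧ z' < y ∧ z' ≠ z ∧ X.π (z, .S) = (z', .S)
  turn : X.t (x, .S) = ∑ c ∈ Finset.Ico x y, X.t (c, .E) + 2

lemma sp_mir {p : Fin N × Dir} : Sp (mir X) p ↔ Sp X (fl p) := by
  unfold Sp
  show p = fl X.x0 ∨ p = fl (X.π (fl (fl X.x0))) ∨ p = fl X.y0 ∨ p = fl (X.π (fl (fl X.y0))) ↔ _
  rw [fl_fl, fl_fl, fl_eq, fl_eq, fl_eq, fl_eq]

/-- an inner arc below the row is an inner arc of the mirror image -/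
lemma InnerS.mir {x y : Fin N} (h : InnerS X a b x y) : Inner (PBS.mir X) (wc b) (wc a) x y where
  lt := h.lt
  arc := by
    show fl (X.π (x, .S)) = (y, .N)
    rw [h.arc]; rfl
  ovr c h1 h2 := by
    obtain ⟨h3, h4⟩ := h.ovr c h1 h2
    unfold wc
    rw [h3, h4, conj_zt, conj_zt]
    exact ⟨rfl, rfl⟩
  row c c' h1 h2 h3 := by
    show fl (X.π (c, .E)) = (c', .W)
    rw [h.row c c' h1 h2 h3]; rfl
  nsE c h1 h2 h3 := h.nsE c h1 h2 (sp_mir.1 h3)
  nsN c h1 h2 h3 := h.nsS c h1 h2 (sp_mir.1 h3)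
  nest z h1 h2 := by
    obtain ⟨z', h3, h4, h5, h6⟩ := h.nest z h1 h2
    refine ⟨z', h3, h4, h5, ?_⟩
    show fl (X.π (z, .S)) = (z', .N)
    rw [h6]; rfl
  turn := by
    show -X.t (x, .S) = ∑ c ∈ Finset.Ico x y, -X.t (c, .E) - 2
    rw [h.turn, sum_neg_distrib]; ring

lemma ex_ofl {o : Fin N × Dir → ℤˣ} {c : Fin N} : ex (ofl o) c ↔ ex o c := by
  show o (c, .N) = o (c, .S) ↔ o (c, .S) = o (c, .N)
  exact eq_comm

/-- reversal of the arc below the row and of the row between its feet -/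
def togS (x y : Fin N) (o : Fin N × Dir → ℤˣ) : Fin N × Dir → ℤˣ := ofl (tog x y (ofl o))

lemma togS_togS (x y : Fin N) (o : Fin N × Dir → ℤˣ) : togS x y (togS x y o) = o := by
  unfold togS
  rw [ofl_ofl, tog_tog, ofl_ofl]

lemma ex_tog {x y : Fin N} {o : Fin N × Dir → ℤˣ} {c : Fin N} (h1 : c ≠ x) (h2 : c ≠ y) :
    ex (tog x y o) c ↔ ex o c := by
  unfold ex
  rw [tog_not (nT_S _), tog_not (nT_N h1 h2)]

lemma ex_togS {x y : Fin N} {o : Fin N × Dir → ℤˣ} {c : Fin N} (h1 : c ≠ x) (h2 : c ≠ y) :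
    ex (togS x y o) c ↔ ex o c := by
  unfold togS
  rw [ex_ofl, ex_tog h1 h2, ex_ofl]

/-! ### Cancellation -/

/-- an involution which reverses the sign of the weight of the configurations with an exchange at `x` or
`y` -/
structure Flip (X : Net (Fin N)) (a b : Fin N → ℂ) (x y : Fin N)
    (T : (Fin N × Dir → ℤˣ) → (Fin N × Dir → ℤˣ)) : Prop where
  inv : ∀ o, T (T o) = o
  cons : ∀ o, X.Cons o → X.Cons (T o)
  wt : ∀ o, X.Cons o → X.wt a b o ≠ 0 → (ex o x ∨ ex o y) →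
    X.wt a b (T o) = -X.wt a b o ∧ (ex (T o) x ∨ ex (T o) y)
  out : ∀ o c, c ≠ x → c ≠ y → (ex (T o) c ↔ ex o c)

lemma flip_N (hinv : ∀ p, X.π (X.π p) = p) (ht : ∀ p, X.t (X.π p) = -X.t p) {x y : Fin N}
    (h : Inner X a b x y) : Flip X a b x y (tog x y) where
  inv o := tog_tog x y o
  cons _ ho := cons_tog h hinv ho
  wt _ ho hw hex := wt_tog' h hinv ht ho hw hex
  out _ _ h1 h2 := ex_tog h1 h2

lemma flip_S (hinv : ∀ p, X.π (X.π p) = p) (ht : ∀ p, X.t (X.π p) = -X.t p) {x y : Fin N}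
    (h : InnerS X a b x y) : Flip X a b x y (togS x y) where
  inv o := togS_togS x y o
  cons o ho := by
    apply cons_mir
    unfold togS
    rw [ofl_ofl]
    exact cons_tog h.mir (mir_inv hinv) (mir_cons ho)
  wt o ho hw hex := by
    have h1 : (PBS.mir X).wt (wc b) (wc a) (ofl o) ≠ 0 := by
      rw [wt_mir]
      intro h0
      apply hw
      have := congrArg (starRingEnd ℂ) h0
      rwa [Complex.conj_conj, map_zero] at this
    have h2 := wt_tog' h.mir (mir_inv hinv) (mir_neg ht) (mir_cons ho) h1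
      (by rw [ex_ofl, ex_ofl]; exact hex)
    constructor
    · have h3 := wt_mir X a b (togS x y o)
      unfold togS at h3 ⊢
      rw [ofl_ofl, h2.1, wt_mir, ← map_neg] at h3
      exact ((starRingEnd ℂ).injective h3).symm
    · unfold togS
      rw [ex_ofl, ex_ofl]
      exact h2.2
  out o c h1 h2 := ex_togS h1 h2

open Classical in
/-- one cancellation -/
lemma flip_sum {x y : Fin N} {T : (Fin N × Dir → ℤˣ) → (Fin N × Dir → ℤˣ)} (h : Flip X a b x y T)
    (F : Finset (Fin N)) (hx : x ∉ F) (hy : y ∉ F) :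
    ∑ o : Fin N × Dir → ℤˣ with X.Cons o ∧ (∀ c ∈ F, ¬ ex o c), X.wt a b o =
    ∑ o : Fin N × Dir → ℤˣ with X.Cons o ∧ (∀ c ∈ insert x (insert y F), ¬ ex o c), X.wt a b o := by
  set G : (Fin N × Dir → ℤˣ) → Prop := fun o => X.Cons o ∧ ∀ c ∈ F, ¬ ex o c with hG
  set B : (Fin N × Dir → ℤˣ) → Prop := fun o => ex o x ∨ ex o y with hB
  rw [← Finset.sum_filter_add_sum_filter_not (s := Finset.univ.filter G) (p := B)]
  have e2 : ((Finset.univ : Finset (Fin N × Dir → ℤˣ)).filter G).filter (fun o => ¬ B o) =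
      (Finset.univ : Finset (Fin N × Dir → ℤˣ)).filter (fun o => X.Cons o ∧
        ∀ c ∈ insert x (insert y F), ¬ ex o c) := by
    ext o
    simp only [Finset.mem_filter, Finset.mem_univ, true_and, hG, hB, Finset.forall_mem_insert,
      not_or]
    tauto
  rw [e2]
  have e1 : ∑ o ∈ ((Finset.univ : Finset (Fin N × Dir → ℤˣ)).filter G).filter B, X.wt a b o = 0 := by
    rw [← Finset.sum_filter_ne_zero]
    refine Finset.sum_involution (fun o _ => T o) ?_ ?_ ?_ ?_
    · intro o ho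
      simp only [Finset.mem_filter, Finset.mem_univ, true_and, hG, hB] at ho
      rw [(h.wt o ho.1.1.1 ho.2 ho.1.2).1]; ring
    · intro o ho _ heq
      simp only [Finset.mem_filter, Finset.mem_univ, true_and, hG, hB] at ho
      have h1 := (h.wt o ho.1.1.1 ho.2 ho.1.2).1
      rw [heq] at h1
      have : X.wt a b o = 0 := by
        have h2 : (2 : ℂ) * X.wt a b o = 0 := by linear_combination h1
        simpa using h2
      exact ho.2 this
    · intro o ho
      simp only [Finset.mem_filter, Finset.mem_univ, true_and, hG, hB] at ho ⊢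
      obtain ⟨h1, h2⟩ := h.wt o ho.1.1.1 ho.2 ho.1.2
      refine ⟨⟨⟨h.cons o ho.1.1.1, fun c hc => ?_⟩, h2⟩, ?_⟩
      · rw [h.out o c (fun hh => hx (hh ▸ hc)) (fun hh => hy (hh ▸ hc))]
        exact ho.1.1.2 c hc
      · rw [h1]; exact neg_ne_zero.2 ho.2
    · intro o _
      exact h.inv o
  rw [e1, zero_add]

/-- the feet of a family of arcs -/
def feet (L : Finset (Fin N × Fin N)) : Finset (Fin N) := L.image Prod.fst ∪ L.image Prod.snd

lemma mem_feet {L : Finset (Fin N × Fin N)} {c : Fin N} :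
    c ∈ feet L ↔ ∃ p ∈ L, c = p.1 ∨ c = p.2 := by
  unfold feet
  rw [mem_union, mem_image, mem_image]
  constructor
  · rintro (⟨p, hp, rfl⟩ | ⟨p, hp, rfl⟩)
    · exact ⟨p, hp, Or.inl rfl⟩
    · exact ⟨p, hp, Or.inr rfl⟩
  · rintro ⟨p, hp, h | h⟩
    · exact Or.inl ⟨p, hp, h.symm⟩
    · exact Or.inr ⟨p, hp, h.symm⟩

lemma feet_insert (q : Fin N × Fin N) (L : Finset (Fin N × Fin N)) :
    feet (insert q L) = insert q.1 (insert q.2 (feet L)) := by
  ext c
  rw [mem_feet]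
  simp only [mem_insert, exists_eq_or_imp, mem_feet, or_assoc]

open Classical in
/-- **Cancellation of the exchange vertices at the feet of the inner arcs above and below the row.** -/
theorem V_eqS (X : Net (Fin N)) (a b : Fin N → ℂ) (hinv : ∀ p, X.π (X.π p) = p)
    (ht : ∀ p, X.t (X.π p) = -X.t p) (L L' : Finset (Fin N × Fin N))
    (hL : ∀ p ∈ L, Inner X a b p.1 p.2) (hL' : ∀ p ∈ L', InnerS X a b p.1 p.2)
    (hd : Disjoint (feet L) (feet L')) :
    X.V a b = ∑ o : Fin N × Dir → ℤˣ with X.Cons o ∧ (∀ c ∈ feet L ∪ feet L', ¬ ex o c),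
      X.wt a b o := by
  have e0 : X.V a b = ∑ o : Fin N × Dir → ℤˣ with X.Cons o ∧ (∀ c ∈ (∅ : Finset (Fin N)), ¬ ex o c),
      X.wt a b o := by
    unfold Net.V
    rw [← Finset.sum_filter]
    refine Finset.sum_congr ?_ fun _ _ => rfl
    ext o; simp
  have nn : ∀ (p q : Fin N × Fin N) (d : Dir), X.π (p.1, d) = (p.2, d) → X.π (q.1, d) = (q.2, d) →
      p.1 < p.2 → q.1 < q.2 → p ≠ q → q.1 ≠ p.1 ∧ q.1 ≠ p.2 ∧ q.2 ≠ p.1 ∧ q.2 ≠ p.2 := by
    intro p q d h1 h2 l1 l2 hne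
    have h3 : X.π (p.2, d) = (p.1, d) := by rw [← h1, hinv]
    have h4 : X.π (q.2, d) = (q.1, d) := by rw [← h2, hinv]
    refine ⟨fun h => ?_, fun h => ?_, fun h => ?_, fun h => ?_⟩
    · rw [h, h1] at h2
      exact hne (Prod.ext h.symm (congrArg Prod.fst h2))
    · rw [h, h3] at h2
      have := congrArg Prod.fst h2
      simp only at this
      rw [h, ← this] at l2
      exact absurd l1 (not_lt.2 l2.le)
    · rw [h, h1] at h4
      have := congrArg Prod.fst h4
      simp only at this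
      rw [h, ← this] at l2
      exact absurd l1 (not_lt.2 l2.le)
    · rw [h, h3] at h4
      exact hne (Prod.ext (congrArg (fun z : Fin N × Dir => z.1) h4) h.symm)
  -- a foot of another arc
  have fr : ∀ (d : Dir) (P : Finset (Fin N × Fin N)) (q : Fin N × Fin N),
      (∀ p ∈ P, X.π (p.1, d) = (p.2, d) ∧ p.1 < p.2) → X.π (q.1, d) = (q.2, d) → q.1 < q.2 → q ∉ P →
      q.1 ∉ feet P ∧ q.2 ∉ feet P := by
    intro d P q hP h1 h2 hq
    have key : ∀ p ∈ P, q.1 ≠ p.1 ∧ q.1 ≠ p.2 ∧ q.2 ≠ p.1 ∧ q.2 ≠ p.2 := fun p hp =>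
      nn p q d (hP p hp).1 h1 (hP p hp).2 h2 (fun h => hq (h ▸ hp))
    constructor
    · intro hf
      obtain ⟨p, hp, h | h⟩ := mem_feet.1 hf
      · exact (key p hp).1 h
      · exact (key p hp).2.1 h
    · intro hf
      obtain ⟨p, hp, h | h⟩ := mem_feet.1 hf
      · exact (key p hp).2.2.1 h
      · exact (key p hp).2.2.2 h
  have s1 : ∀ P : Finset (Fin N × Fin N), P ⊆ L →
      X.V a b = ∑ o : Fin N × Dir → ℤˣ with X.Cons o ∧ (∀ c ∈ feet P, ¬ ex o c), X.wt a b o := by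
    intro P
    induction P using Finset.induction_on with
    | empty => intro _; exact e0
    | insert q P hqP ih =>
      intro hP
      have hq : q ∈ L := hP (Finset.mem_insert_self _ _)
      have hPL : P ⊆ L := fun z hz => hP (Finset.mem_insert_of_mem hz)
      have hf := fr .N P q (fun p hp => ⟨(hL p (hPL hp)).arc, (hL p (hPL hp)).lt⟩) (hL q hq).arc
        (hL q hq).lt hqP
      rw [ih hPL, flip_sum (flip_N hinv ht (hL q hq)) (feet P) hf.1 hf.2, feet_insert]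
  have s2 : ∀ P : Finset (Fin N × Fin N), P ⊆ L' →
      X.V a b = ∑ o : Fin N × Dir → ℤˣ with X.Cons o ∧ (∀ c ∈ feet L ∪ feet P, ¬ ex o c),
        X.wt a b o := by
    intro P
    induction P using Finset.induction_on with
    | empty =>
      intro _
      have : feet L ∪ feet (∅ : Finset (Fin N × Fin N)) = feet L := by
        ext c; rw [mem_union, mem_feet (L := ∅)]; simp
      rw [this]
      exact s1 L (Finset.Subset.refl _)
    | insert q P hqP ih =>
      intro hP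
      have hq : q ∈ L' := hP (Finset.mem_insert_self _ _)
      have hPL : P ⊆ L' := fun z hz => hP (Finset.mem_insert_of_mem hz)
      have hf := fr .S P q (fun p hp => ⟨(hL' p (hPL hp)).arc, (hL' p (hPL hp)).lt⟩) (hL' q hq).arc
        (hL' q hq).lt hqP
      have g1 : q.1 ∉ feet L := fun h => disjoint_left.1 hd h (mem_feet.2 ⟨q, hq, Or.inl rfl⟩)
      have g2 : q.2 ∉ feet L := fun h => disjoint_left.1 hd h (mem_feet.2 ⟨q, hq, Or.inr rfl⟩)
      rw [ih hPL, flip_sum (flip_S hinv ht (hL' q hq)) (feet L ∪ feet P)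
        (by rw [mem_union]; tauto) (by rw [mem_union]; tauto), feet_insert]
      have : insert q.1 (insert q.2 (feet L ∪ feet P)) = feet L ∪ insert q.1 (insert q.2 (feet P)) := by
        ext c; simp only [mem_insert, mem_union]; tauto
      rw [this]
  exact s2 L' (Finset.Subset.refl _)

/-! ### The bound -/

/-- the hypotheses on a row network, general form: `F` = columns without exchange -/
structure RowF (X : Net (Fin N)) (sp : Finset (Fin N)) (a b : Fin N → ℂ)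
    (F : Finset (Fin N)) {m : ℕ} (Ex : Fin m → Finset (Fin N)) : Prop where
  ov : ∀ c, c ∉ sp → a c = zt ^ (4 : ℤ) ∧ b c = zt ^ (-4 : ℤ)
  anc : ∀ z : Fin N, Anch X sp (z, .W) ∧ Anch X sp (z, .E)
  cov : ∀ c, c ∉ sp → Anch X sp (c, .N) → c ∈ F ∨ ∃ k, c ∈ Ex k
  gap : ∀ k, ∀ c ∈ Ex k, ∀ c' ∈ Ex k, c < c' → (∀ z, c ≤ z → z ≤ c' → z ∉ sp) ∧
    ∀ z z' : Fin N, c ≤ z → z' ≤ c' → (z' : ℕ) = z + 1 →
      X.π (z, .E) = (z', .W) ∧ ¬ Sp X (z, .E)

variable {F : Finset (Fin N)} {m : ℕ} {Ex : Fin m → Finset (Fin N)}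

lemma RowF.one (h : RowF X sp a b F Ex) {o : Fin N × Dir → ℤˣ} (ho : Adm X sp o) (k : Fin m)
    {c c' : Fin N} (hc : c ∈ Ex k) (hc' : c' ∈ Ex k) (h1 : ex o c) (h2 : ex o c') : c = c' := by
  rcases lt_trichotomy c c' with h3 | h3 | h3
  · exact (one_ex ho h3 (h.gap k c hc c' hc' h3).1 (h.gap k c hc c' hc' h3).2 h1 h2).elim
  · exact h3
  · exact (one_ex ho h3 (h.gap k c' hc' c hc h3).1 (h.gap k c' hc' c hc h3).2 h2 h1).elim

open Classical in
/-- **Pointwise bound of the vertex sum of a row, general form.** -/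
theorem V_boundF (hinv : ∀ x, X.π (X.π x) = x) (hne : ∀ x, X.π x ≠ x)
    (htn : ∀ x, X.t (X.π x) = -X.t x) (h : RowF X sp a b F Ex)
    (hV : X.V a b = ∑ o : Fin N × Dir → ℤˣ with X.Cons o ∧ (∀ c ∈ F, ¬ ex o c), X.wt a b o)
    {U D : Fin N → Fin N} {θ : Fin N → ℤ} (hP : Planar X (Kn X sp) U D θ) {M : ℝ} (hM0 : 0 ≤ M)
    (hM : ∀ c ∈ sp, ∀ w n e s, ‖vert (a c) (b c) w n e s‖ ≤ M) :
    ‖X.V a b‖ ≤ 2 ^ Ne X (Kn X sp) * M ^ sp.card * 2 ^ (4 * sp.card) * 2 ^ m *
      ∏ k, (1 + ((Ex k).card : ℝ)) := by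
  set K := Kn X sp with hKdef
  have hK : Str X K := Kn_str h.anc
  have hKsp : ∀ c ∈ K, c ∉ sp := fun c hc => Kn_sp hc
  have hn := hP.ori hinv hne hK
  have hovK : ∀ c ∈ K, a c = zt ^ (4 : ℤ) ∧ b c = zt ^ (-4 : ℤ) := fun c hc => h.ov c (hKsp c hc)
  -- the configurations
  set A : Finset (Fin N × Dir → ℤˣ) := univ.filter (fun o =>
    X.Cons o ∧ (∀ c ∈ F, ¬ ex o c) ∧ X.wt a b o ≠ 0) with hA
  have mA : ∀ o, o ∈ A ↔ X.Cons o ∧ (∀ c ∈ F, ¬ ex o c) ∧ X.wt a b o ≠ 0 := by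
    intro o; simp [hA]
  have eV : X.V a b = ∑ o ∈ A, X.wt a b o := by
    rw [hV, ← Finset.sum_filter_ne_zero, Finset.filter_filter]
    refine Finset.sum_congr ?_ fun _ _ => rfl
    ext o
    simp only [mem_filter, mem_univ, true_and, mA]
    tauto
  -- facts about a configuration of nonzero weight
  have plain : ∀ o, X.Cons o → X.wt a b o ≠ 0 → ∀ c, c ∉ sp →
      (o (c, .E) = -o (c, .W) ∧ o (c, .S) = -o (c, .N)) ∨
      (o (c, .W) = -1 ∧ o (c, .E) = -1 ∧ o (c, .N) = 1 ∧ o (c, .S) = 1) := by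
    intro o _ hw c hc
    have hv := vert_ne hw c
    rw [(h.ov c hc).1, (h.ov c hc).2] at hv
    rcases Strand.vert_over hv with h1 | h1
    · exact Or.inl h1
    · exact Or.inr ⟨h1.2.2.1, h1.2.2.2, h1.1, h1.2.1⟩
  have strK : ∀ o, X.Cons o → X.wt a b o ≠ 0 → ∀ c ∈ K, o (c, .E) = -o (c, .W) ∧
      o (c, .S) = -o (c, .N) := by
    intro o ho hw
    refine noflip hinv hne hK ho fun i hi => ?_
    have hv := vert_ne hw i
    rwa [(hovK i hi).1, (hovK i hi).2] at hv
  -- the representatives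
  set rep : (Fin N × Dir → ℤˣ) → Fin N × Dir → ℤˣ := fun o x => if x ∈ VE K then alt K x else o x
    with hrep
  have rep_in : ∀ o x, x ∈ VE K → rep o x = alt K x := fun o x hx => if_pos hx
  have rep_out : ∀ o x, x ∉ VE K → rep o x = o x := fun o x hx => if_neg hx
  have hrow : ∀ c : Fin N, (c, Dir.W) ∉ VE K ∧ (c, Dir.E) ∉ VE K := by
    intro c; constructor <;> (rw [mem_VE]; simp)
  have repAdm : ∀ o ∈ A, Adm X sp (rep o) := by
    intro o ho
    obtain ⟨hc, _, hw⟩ := (mA o).1 ho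
    refine ⟨?_, ?_⟩
    · have q0 : X.x0 ∉ VE K := hK.x0
      have q1 : X.π X.x0 ∉ VE K := hK.x1 hinv
      have q2 : X.y0 ∉ VE K := hK.y0
      have q3 : X.π X.y0 ∉ VE K := hK.y1 hinv
      refine ⟨?_, ?_, ?_, ?_, fun x h1 h2 h3 h4 => ?_⟩
      · rw [rep_out _ _ q0]; exact hc.1
      · rw [rep_out _ _ q1]; exact hc.2.1
      · rw [rep_out _ _ q2]; exact hc.2.2.1
      · rw [rep_out _ _ q3]; exact hc.2.2.2.1
      · by_cases hx : x ∈ VE K
        · rw [rep_in _ _ hx, rep_in _ _ (hK.mem x hx), hn.wire x hx]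
        · rw [rep_out _ _ hx, rep_out _ _ (by rwa [hK.mem_iff hinv]), hc.2.2.2.2 x h1 h2 h3 h4]
    · intro c hcs
      by_cases hcK : c ∈ K
      · left
        have vN : (c, Dir.N) ∈ VE K := by rw [mem_VE]; exact ⟨hcK, Or.inl rfl⟩
        have vS : (c, Dir.S) ∈ VE K := by rw [mem_VE]; exact ⟨hcK, Or.inr rfl⟩
        rw [rep_out _ _ (hrow c).1, rep_out _ _ (hrow c).2, rep_in _ _ vN, rep_in _ _ vS,
          hn.vert c hcK]
        exact ⟨(strK o hc hw c hcK).1, rfl⟩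
      · have vN : (c, Dir.N) ∉ VE K := by rw [mem_VE]; tauto
        have vS : (c, Dir.S) ∉ VE K := by rw [mem_VE]; tauto
        rw [rep_out _ _ (hrow c).1, rep_out _ _ (hrow c).2, rep_out _ _ vN, rep_out _ _ vS]
        exact plain o hc hw c hcs
  have repEx : ∀ o ∈ A, ∀ c, (ex (rep o) c ↔ (c ∉ K ∧ ex o c)) := by
    intro o ho c
    obtain ⟨hc, _, hw⟩ := (mA o).1 ho
    by_cases hcK : c ∈ K
    · have vN : (c, Dir.N) ∈ VE K := by rw [mem_VE]; exact ⟨hcK, Or.inl rfl⟩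
      have vS : (c, Dir.S) ∈ VE K := by rw [mem_VE]; exact ⟨hcK, Or.inr rfl⟩
      constructor
      · intro he
        unfold ex at he
        rw [rep_in _ _ vN, rep_in _ _ vS, hn.vert c hcK] at he
        exact absurd he.symm (ne_self_neg _)
      · exact fun he => absurd hcK he.1
    · have vN : (c, Dir.N) ∉ VE K := by rw [mem_VE]; tauto
      have vS : (c, Dir.S) ∉ VE K := by rw [mem_VE]; tauto
      unfold ex
      rw [rep_out _ _ vN, rep_out _ _ vS]
      exact ⟨fun he => ⟨hcK, he⟩, fun he => he.2⟩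
  set S := A.image rep with hS
  -- number of classes
  have inEx : ∀ o ∈ A, ∀ c, c ∉ sp → c ∉ K → ex o c → ∃ k, c ∈ Ex k := by
    intro o ho c hcs hcK he
    have hN : Anch X sp (c, .N) := by
      by_contra hh; exact hcK (mem_Kn.2 hh)
    rcases h.cov c hcs hN with hF | hk
    · exact absurd he (((mA o).1 ho).2.1 c hF)
    · exact hk
  have hcard : S.card ≤ 2 ^ (4 * sp.card) * ∏ k, (1 + (Ex k).card) := by
    refine card_le (X := X) (sp := sp) Ex (alt K) S ?_ ?_ ?_ ?_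
    · intro o ho
      obtain ⟨o', ho', rfl⟩ := mem_image.1 ho
      exact repAdm o' ho'
    · intro o ho p hp
      obtain ⟨o', ho', rfl⟩ := mem_image.1 ho
      exact rep_in _ _ ((mem_VE_Kn h.anc p).2 hp)
    · intro o ho c hcs he
      obtain ⟨o', ho', rfl⟩ := mem_image.1 ho
      have h1 := (repEx o' ho' c).1 he
      exact inEx o' ho' c hcs h1.1 h1.2
    · intro o ho k c hc c' hc' h1 h2
      obtain ⟨o', ho', rfl⟩ := mem_image.1 ho
      exact h.one (repAdm o' ho') k hc hc' h1 h2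
  -- number of exchanges of a configuration
  have hexc : ∀ o ∈ A, (univ.filter (fun c => c ∉ sp ∧ c ∉ K ∧ ex o c)).card ≤ m := by
    intro o ho
    have hm : (Finset.univ : Finset (Fin m)).card = m := by simp
    rw [← hm]
    refine Finset.card_le_card_of_forall_subsingleton (fun c k => c ∈ Ex k) ?_ ?_
    · intro c hc
      have hc1 := (mem_filter.1 hc).2
      obtain ⟨k, hk⟩ := inEx o ho c hc1.1 hc1.2.1 hc1.2.2
      exact ⟨k, mem_univ _, hk⟩
    · rintro k _ c ⟨hc, hck⟩ c' ⟨hc', hck'⟩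
      have hc1 := (mem_filter.1 hc).2
      have hc2 := (mem_filter.1 hc').2
      exact h.one (repAdm o ho) k hck hck' ((repEx o ho c).2 hc1.2) ((repEx o ho c').2 hc2.2)
  -- the sum over a class
  have hclass : ∀ s ∈ S, ‖∑ o ∈ A with rep o = s, X.wt a b o‖ ≤
      2 ^ Ne X K * (M ^ sp.card * 2 ^ m) := by
    intro s hs
    obtain ⟨o₀, ho₀, rfl⟩ := mem_image.1 hs
    obtain ⟨hc₀, hL₀, hw₀⟩ := (mA o₀).1 ho₀
    have e1 : ∑ o ∈ A with rep o = rep o₀, X.wt a b o = ∑ o : Fin N × Dir → ℤˣ,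
        if X.Cons o ∧ ∀ x, x ∉ VE K → o x = o₀ x then X.wt a b o else 0 := by
      rw [← Finset.sum_filter, ← Finset.sum_filter_ne_zero (s := univ.filter _)]
      refine Finset.sum_congr ?_ fun _ _ => rfl
      ext o
      simp only [mem_filter, mem_univ, true_and, mA]
      constructor
      · rintro ⟨⟨h1, h2, h3⟩, h4⟩
        refine ⟨⟨h1, fun x hx => ?_⟩, h3⟩
        have := congrFun h4 x
        rwa [rep_out _ _ hx, rep_out _ _ hx] at this
      · rintro ⟨⟨h1, h2⟩, h3⟩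
        have hexo : ∀ c, ¬ ex o₀ c → ¬ ex o c := by
          intro c hne' he
          by_cases hcK : c ∈ K
          · have := (strK o h1 h3 c hcK).2
            unfold ex at he
            exact ne_self_neg _ (he.symm.trans this)
          · apply hne'
            unfold ex at he ⊢
            have vN : (c, Dir.N) ∉ VE K := by rw [mem_VE]; tauto
            have vS : (c, Dir.S) ∉ VE K := by rw [mem_VE]; tauto
            rw [← h2 _ vN, ← h2 _ vS]
            exact he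
        refine ⟨⟨h1, fun c hc => hexo _ (hL₀ c hc), h3⟩, ?_⟩
        funext x
        by_cases hx : x ∈ VE K
        · rw [rep_in _ _ hx, rep_in _ _ hx]
        · rw [rep_out _ _ hx, rep_out _ _ hx, h2 x hx]
    rw [e1]
    refine (hP.class_sum hinv hne htn hK hovK o₀).trans ?_
    refine mul_le_mul_of_nonneg_left ?_ (by positivity)
    refine (wtR_norm hM h.ov hKsp o₀).trans ?_
    refine mul_le_mul_of_nonneg_left ?_ (by positivity)
    exact pow_le_pow_right₀ (by norm_num) (hexc o₀ ho₀)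
  have hsum : ∑ o ∈ A, X.wt a b o = ∑ s ∈ S, ∑ o ∈ A with rep o = s, X.wt a b o :=
    (Finset.sum_fiberwise_of_maps_to (fun o ho => mem_image_of_mem rep ho) _).symm
  rw [eV, hsum]
  calc ‖∑ s ∈ S, ∑ o ∈ A with rep o = s, X.wt a b o‖
      ≤ ∑ s ∈ S, ‖∑ o ∈ A with rep o = s, X.wt a b o‖ := norm_sum_le _ _
    _ ≤ ∑ _s ∈ S, 2 ^ Ne X K * (M ^ sp.card * 2 ^ m) := Finset.sum_le_sum hclass
    _ = (S.card : ℝ) * (2 ^ Ne X K * (M ^ sp.card * 2 ^ m)) := by rw [sum_const, nsmul_eq_mul]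
    _ ≤ ((2 ^ (4 * sp.card) * ∏ k, (1 + (Ex k).card) : ℕ) : ℝ) *
        (2 ^ Ne X K * (M ^ sp.card * 2 ^ m)) := by
      refine mul_le_mul_of_nonneg_right ?_ (by positivity)
      exact_mod_cast hcard
    _ = _ := by push_cast; ring

/-- **The state sum of a row with coupons `(1, -1)` at the columns of `sp` and over-tiles elsewhere,
blocks with a side.** `L` = arcs above the row, `L'` = arcs below the row. -/
theorem Z_boundS {p : Fin N → Bool} (hX : X.Good p) (hrow : X.IsRow) {T0 : ℤ}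
    (h0 : ∀ s, X.KT s X.x0 (X.ln s X.x0) = T0) {L L' : Finset (Fin N × Fin N)}
    (hL : ∀ p ∈ L, Inner X a b p.1 p.2) (hL' : ∀ p ∈ L', InnerS X a b p.1 p.2)
    (hd : Disjoint (feet L) (feet L')) (h : RowF X sp a b (feet L ∪ feet L') Ex)
    {U D : Fin N → Fin N} {θ : Fin N → ℤ} (hP : Planar X (Kn X sp) U D θ)
    (hcp : ∀ c ∈ sp, a c = 1 ∧ b c = -1) :
    ‖X.Z a b‖ ≤ 2 ^ Ne X (Kn X sp) * 2 ^ (5 * sp.card + m) * ∏ k, (1 + ((Ex k).card : ℝ)) := by
  classical
  have h1 := congrArg norm (vertex_eq' hX (row_connected hrow hX.inv) a b T0 h0)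
  rw [norm_mul, norm_mul, norm_zpow_zt, norm_zpow_zt, one_mul, one_mul] at h1
  rw [h1]
  refine (V_boundF hX.inv hX.ne hX.t_neg h
    (V_eqS X a b hX.inv hX.t_neg L L' hL hL' hd) hP (M := 2) (by norm_num) ?_).trans
    (le_of_eq ?_)
  · intro c hc w n e s
    rw [(hcp c hc).1, (hcp c hc).2]
    exact coupon_norm w n e s
  · have e : (2 : ℝ) ^ (5 * sp.card + m) = 2 ^ sp.card * 2 ^ (4 * sp.card) * 2 ^ m := by
      rw [← pow_add, ← pow_add]
      congr 1
      ring
    rw [e]; ring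

end Pool.Agent.Q1.M6b.PBS
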