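import Pool.Agent.Q1.M6b.Pos

set_option autoImplicit false
open Finset

/-! Stopping intervals. A window is divided into `b`-adic subintervals; a subinterval which is `k` levels
smaller than the window is used with probability at most `q ^ (k - 1)`. If `b ^ (1/3) q ≤ 1/2` then the
smaller intervals cost only a factor `3 b ^ (1/3)` per window. -/

namespace Pool.Agent.Q1.M6b

variable {m : ℕ}

/-- the `b`-adic subintervals (level, number) of an interval -/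
noncomputable def sub (b : ℤ) (k : ℕ × ℤ) : Finset (ℕ × ℤ) :=
  (Finset.range (k.1 + 1)).biUnion fun l =>
    (Finset.Ico (b ^ (k.1 - l) * k.2) (b ^ (k.1 - l) * (k.2 + 1))).image fun y => (l, y)

lemma mem_sub {b : ℤ} {k p : ℕ × ℤ} :
    p ∈ sub b k ↔ p.1 ≤ k.1 ∧ b ^ (k.1 - p.1) * k.2 ≤ p.2 ∧ p.2 < b ^ (k.1 - p.1) * (k.2 + 1) := by
  unfold sub
  simp only [mem_biUnion, Finset.mem_range, mem_image, Finset.mem_Ico]
  constructor
  · rintro ⟨l, hl, y, ⟨h1, h2⟩, rfl⟩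
    exact ⟨by simpa using Nat.le_of_lt_succ hl, h1, h2⟩
  · rintro ⟨h0, h1, h2⟩
    exact ⟨p.1, by omega, p.2, ⟨h1, h2⟩, rfl⟩

/-- a subinterval is a subset -/
lemma dy_sub {b : ℤ} (hb : 2 ≤ b) {k p : ℕ × ℤ} (h : p ∈ sub b k) :
    dy b p.1 p.2 ⊆ dy b k.1 k.2 := by
  obtain ⟨h0, h1, h2⟩ := mem_sub.1 h
  have e : b ^ k.1 = b ^ p.1 * b ^ (k.1 - p.1) := by rw [← pow_add]; congr 1; omega
  have hp : (0 : ℤ) < b ^ p.1 := by positivity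
  intro x hx
  unfold dy at *
  rw [Finset.mem_Ico] at *
  constructor
  · calc b ^ k.1 * k.2 = b ^ p.1 * (b ^ (k.1 - p.1) * k.2) := by rw [e]; ring
      _ ≤ b ^ p.1 * p.2 := mul_le_mul_of_nonneg_left h1 hp.le
      _ ≤ x := hx.1
  · calc x < b ^ p.1 * p.2 + b ^ p.1 := hx.2
      _ = b ^ p.1 * (p.2 + 1) := by ring
      _ ≤ b ^ p.1 * (b ^ (k.1 - p.1) * (k.2 + 1)) := mul_le_mul_of_nonneg_left (by omega) hp.le
      _ = b ^ k.1 * k.2 + b ^ k.1 := by rw [e]; ring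

/-- the interval of level `l` around a point of a window is one of the subintervals -/
lemma mem_sub_div {b : ℤ} (hb : 2 ≤ b) {k : ℕ × ℤ} {x : ℤ} (hx : x ∈ dy b k.1 k.2) {l : ℕ}
    (hl : l ≤ k.1) : (l, x / b ^ l) ∈ sub b k := by
  rw [mem_sub]
  have e : b ^ k.1 = b ^ l * b ^ (k.1 - l) := by rw [← pow_add]; congr 1; omega
  have hp : (0 : ℤ) < b ^ l := by positivity
  unfold dy at hx
  rw [Finset.mem_Ico] at hx
  refine ⟨hl, ?_, ?_⟩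
  · rw [Int.le_ediv_iff_mul_le hp]
    calc b ^ (k.1 - l) * k.2 * b ^ l = b ^ k.1 * k.2 := by rw [e]; ring
      _ ≤ x := hx.1
  · apply Int.ediv_lt_of_lt_mul hp
    calc x < b ^ k.1 * k.2 + b ^ k.1 := hx.2
      _ = b ^ (k.1 - l) * (k.2 + 1) * b ^ l := by rw [e]; ring

/-- the weight of the subintervals of a window -/
lemma sub_sum {b : ℤ} (hb : 2 ≤ b) {q : ℝ} (hq : 0 ≤ q) (hbq : cr (b : ℝ) * q ≤ 1 / 2)
    (k : ℕ × ℤ) :
    ∑ p ∈ sub b k, cr ((b : ℝ) ^ p.1) ^ 2 * q ^ (k.1 - p.1 - 1) ≤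
      3 * cr (b : ℝ) * cr ((b : ℝ) ^ k.1) ^ 2 := by
  classical
  have hbR : (2 : ℝ) ≤ (b : ℝ) := by exact_mod_cast hb
  have hb0 : (0 : ℝ) < (b : ℝ) := by linarith
  set c := cr (b : ℝ) with hc
  have hc1 : 1 ≤ c := by rw [hc, ← cr_one]; exact cr_mono (by norm_num) (by linarith)
  have hc0 : 0 < c := by linarith
  have hcc : c ^ 3 = (b : ℝ) := cr_cube hb0.le
  have hcp : ∀ n : ℕ, cr ((b : ℝ) ^ n) = c ^ n := by
    intro n
    induction n with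
    | zero => simp [cr_one]
    | succ n ih => rw [pow_succ, cr_mul (by positivity) hb0.le, ih, pow_succ]
  unfold sub
  rw [sum_biUnion]
  · have e1 : ∀ l ∈ Finset.range (k.1 + 1), ∑ p ∈ (Finset.Ico (b ^ (k.1 - l) * k.2)
        (b ^ (k.1 - l) * (k.2 + 1))).image (fun y => (l, y)),
        cr ((b : ℝ) ^ p.1) ^ 2 * q ^ (k.1 - p.1 - 1) =
        (c ^ 3) ^ (k.1 - l) * ((c ^ l) ^ 2 * q ^ (k.1 - l - 1)) := by
      intro l _
      rw [sum_image (fun a _ a' _ h => by simpa using h)]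
      simp only
      rw [sum_const, Int.card_Ico, nsmul_eq_mul, hcp]
      congr 1
      have : b ^ (k.1 - l) * (k.2 + 1) - b ^ (k.1 - l) * k.2 = b ^ (k.1 - l) := by ring
      rw [this, hcc]
      have h2 : (((b ^ (k.1 - l)).toNat : ℕ) : ℤ) = b ^ (k.1 - l) := Int.toNat_of_nonneg (by positivity)
      have h3 : (((b ^ (k.1 - l)).toNat : ℕ) : ℝ) = (((b ^ (k.1 - l)).toNat : ℕ) : ℤ) := by push_cast; rfl
      rw [h3, h2]
      push_cast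
      ring
    rw [sum_congr rfl e1, ← Finset.sum_range_reflect]
    have e2 : ∀ t ∈ Finset.range (k.1 + 1),
        (c ^ 3) ^ (k.1 - (k.1 + 1 - 1 - t)) * ((c ^ (k.1 + 1 - 1 - t)) ^ 2 *
          q ^ (k.1 - (k.1 + 1 - 1 - t) - 1)) = (c ^ k.1) ^ 2 * (c ^ t * q ^ (t - 1)) := by
      intro t ht
      have ht' : t ≤ k.1 := by simpa using Nat.le_of_lt_succ (Finset.mem_range.1 ht)
      have h1 : k.1 - (k.1 + 1 - 1 - t) = t := by omega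
      have h2 : k.1 + 1 - 1 - t = k.1 - t := by omega
      rw [h1, h2]
      have h3 : c ^ k.1 = c ^ (k.1 - t) * c ^ t := by rw [← pow_add]; congr 1; omega
      rw [h3]
      ring
    rw [sum_congr rfl e2, ← mul_sum]
    -- the geometric series
    have e3 : ∀ n : ℕ, ∑ t ∈ Finset.range (n + 1), c ^ t * q ^ (t - 1) ≤
        1 + c * (2 - 2 * (1 / 2) ^ n) := by
      intro n
      induction n with
      | zero => simp
      | succ n ih =>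
        rw [Finset.sum_range_succ]
        have h1 : c ^ (n + 1) * q ^ (n + 1 - 1) = c * (c * q) ^ n := by
          rw [Nat.add_sub_cancel, mul_pow, pow_succ]; ring
        have h2 : (c * q) ^ n ≤ (1 / 2) ^ n := pow_le_pow_left₀ (by positivity) hbq n
        rw [h1]
        have h3 : c * (c * q) ^ n ≤ c * (1 / 2) ^ n := mul_le_mul_of_nonneg_left h2 hc0.le
        have h4 : ((1 : ℝ) / 2) ^ (n + 1) = (1 / 2) ^ n / 2 := by rw [pow_succ]; ring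
        rw [h4]
        linarith
    have e4 := e3 k.1
    have h5 : (0 : ℝ) ≤ (1 / 2) ^ k.1 := by positivity
    have e5 : ∑ t ∈ Finset.range (k.1 + 1), c ^ t * q ^ (t - 1) ≤ 3 * c := by
      nlinarith
    rw [hcp]
    calc (c ^ k.1) ^ 2 * ∑ t ∈ Finset.range (k.1 + 1), c ^ t * q ^ (t - 1) ≤
        (c ^ k.1) ^ 2 * (3 * c) := mul_le_mul_of_nonneg_left e5 (by positivity)
      _ = _ := by ring
  · intro l _ l' _ hne
    rw [Function.onFun, disjoint_left]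
    intro p hp hp'
    obtain ⟨y, _, rfl⟩ := mem_image.1 hp
    obtain ⟨y', _, h⟩ := mem_image.1 hp'
    exact hne (congrArg Prod.fst h).symm

/-- the tuples of subintervals of a cell -/
noncomputable def subs (b : ℤ) (k : Fin m → ℕ × ℤ) : Finset (Fin m → ℕ × ℤ) :=
  Fintype.piFinset fun i => sub b (k i)

/-- the weight of a tuple of subintervals of a cell -/
noncomputable def swt (b : ℤ) (q : ℝ) (k p : Fin m → ℕ × ℤ) : ℝ :=
  ∏ i, (cr ((b : ℝ) ^ (p i).1) ^ 2 * q ^ ((k i).1 - (p i).1 - 1))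

lemma swt_nonneg {b : ℤ} {q : ℝ} (hq : 0 ≤ q) (k p : Fin m → ℕ × ℤ) : 0 ≤ swt b q k p :=
  prod_nonneg fun i _ => by positivity

lemma subs_sum {b : ℤ} (hb : 2 ≤ b) {q : ℝ} (hq : 0 ≤ q) (hbq : cr (b : ℝ) * q ≤ 1 / 2)
    (k : Fin m → ℕ × ℤ) : ∑ p ∈ subs b k, swt b q k p ≤ (3 * cr (b : ℝ)) ^ m * wt b k := by
  classical
  unfold subs swt wt
  rw [← Finset.prod_univ_sum (fun i => sub b (k i))
    (fun i p => cr ((b : ℝ) ^ p.1) ^ 2 * q ^ ((k i).1 - p.1 - 1))]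
  calc ∏ i, ∑ p ∈ sub b (k i), cr ((b : ℝ) ^ p.1) ^ 2 * q ^ ((k i).1 - p.1 - 1) ≤
      ∏ i, (3 * cr (b : ℝ) * cr ((b : ℝ) ^ (k i).1) ^ 2) :=
        prod_le_prod (fun i _ => sum_nonneg fun p _ => by positivity)
          fun i _ => sub_sum hb hq hbq (k i)
    _ = _ := by
        rw [prod_mul_distrib, prod_const, card_univ, Fintype.card_fin]

/-- **Sum over all sets of `m` columns, with stopping intervals.** `g k₁ k₂ p₁ p₂` is the contribution of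
the tuples of stopping intervals `p₁`, `p₂` of the cells `k₁`, `k₂` (left and right of the marked
point). -/
theorem sum_stop {m : ℕ} {b K : ℤ} (hb : 2 ≤ b) (hK : 1 ≤ K) {N₁ N₂ N S : ℕ}
    (h₁ : N₁ ≤ N) (h₂ : N₂ ≤ N)
    (hS : ((N + 1 : ℕ) : ℝ) ≤ (K + 1) * b * (b : ℝ) ^ S) {T q : ℝ} (hT : 0 ≤ T) (hq : 0 ≤ q)
    (hbq : cr (b : ℝ) * q ≤ 1 / 2) (f : Finset ℤ → ℂ)
    (g : ∀ p : ℕ × ℕ, (Fin p.1 → ℕ × ℤ) → (Fin p.2 → ℕ × ℤ) → (Fin p.1 → ℕ × ℤ) →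
      (Fin p.2 → ℕ × ℤ) → ℂ)
    (hf : ∀ p ∈ antidiagonal m, ∀ k₁ ∈ cells b K S p.1 N₁, ∀ k₂ ∈ cells b K S p.2 N₂,
      ∑ j₁ ∈ cell b k₁, ∑ j₂ ∈ cell b k₂, f (cols j₁ j₂) =
        ∑ p₁ ∈ subs b k₁, ∑ p₂ ∈ subs b k₂, g p k₁ k₂ p₁ p₂)
    (hg : ∀ p ∈ antidiagonal m, ∀ k₁ ∈ cells b K S p.1 N₁, ∀ k₂ ∈ cells b K S p.2 N₂,
      ∀ p₁ ∈ subs b k₁, ∀ p₂ ∈ subs b k₂,
        ‖g p k₁ k₂ p₁ p₂‖ ≤ T * (swt b q k₁ p₁ * swt b q k₂ p₂)) :
    ‖∑ s ∈ powersetCard m (Finset.Ico (-(N₁ : ℤ)) N₂), f s‖ ≤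
      (m + 1) * (T * (3 * cr (b : ℝ) * Cc b K * cr ((N + 1 : ℕ) : ℝ) ^ 2) ^ m) := by
  classical
  have hbR : (2 : ℝ) ≤ (b : ℝ) := by exact_mod_cast hb
  have hc0 : 0 ≤ cr (b : ℝ) := cr_nonneg (by linarith)
  have h := sum_sets (m := m) hb hK h₁ h₂ hS (T := T * (3 * cr (b : ℝ)) ^ m) (by positivity) f ?_
  · refine h.trans (le_of_eq ?_)
    rw [mul_assoc T, ← mul_pow]
    congr 3
    ring
  · intro p hp k₁ hk₁ k₂ hk₂
    have hpm : p.1 + p.2 = m := HasAntidiagonal.mem_antidiagonal.1 hp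
    rw [hf p hp k₁ hk₁ k₂ hk₂]
    have s1 := subs_sum (m := p.1) hb hq hbq k₁
    have s2 := subs_sum (m := p.2) hb hq hbq k₂
    have n1 : 0 ≤ ∑ p₁ ∈ subs b k₁, swt b q k₁ p₁ := sum_nonneg fun p _ => swt_nonneg hq _ _
    have n2 : 0 ≤ ∑ p₂ ∈ subs b k₂, swt b q k₂ p₂ := sum_nonneg fun p _ => swt_nonneg hq _ _
    calc ‖∑ p₁ ∈ subs b k₁, ∑ p₂ ∈ subs b k₂, g p k₁ k₂ p₁ p₂‖
        ≤ ∑ p₁ ∈ subs b k₁, ∑ p₂ ∈ subs b k₂, T * (swt b q k₁ p₁ * swt b q k₂ p₂) :=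
          (norm_sum_le _ _).trans (sum_le_sum fun p₁ hp₁ => (norm_sum_le _ _).trans
            (sum_le_sum fun p₂ hp₂ => hg p hp k₁ hk₁ k₂ hk₂ p₁ hp₁ p₂ hp₂))
      _ = T * ((∑ p₁ ∈ subs b k₁, swt b q k₁ p₁) * ∑ p₂ ∈ subs b k₂, swt b q k₂ p₂) := by
          rw [sum_mul_sum, mul_sum]
          refine sum_congr rfl fun k₁ _ => ?_
          rw [mul_sum]
      _ ≤ T * (((3 * cr (b : ℝ)) ^ p.1 * wt b k₁) * ((3 * cr (b : ℝ)) ^ p.2 * wt b k₂)) := by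
          refine mul_le_mul_of_nonneg_left ?_ hT
          exact mul_le_mul s1 s2 n2 (n1.trans s1)
      _ = T * (3 * cr (b : ℝ)) ^ m * (wt b k₁ * wt b k₂) := by
          rw [← hpm, pow_add]; ring

lemma cr_sq {x : ℝ} (hx : 0 ≤ x) : cr x ^ 2 = x ^ (2 / 3 : ℝ) := by
  unfold cr
  rw [← Real.rpow_natCast, ← Real.rpow_mul hx]
  norm_num

/-- the constant of `sum_stop` as a power -/
lemma const_le {b K : ℤ} (hb : 2 ≤ b) (hK : 1 ≤ K) {N : ℕ} (hN : 1 ≤ N) :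
    3 * cr (b : ℝ) * Cc b K * cr ((N + 1 : ℕ) : ℝ) ^ 2 ≤
      36 * cr ((K : ℝ) + 1) * (b : ℝ) ^ (2 / 3 : ℝ) * (N : ℝ) ^ (2 / 3 : ℝ) := by
  have hbR : (2 : ℝ) ≤ (b : ℝ) := by exact_mod_cast hb
  have hKR : (1 : ℝ) ≤ (K : ℝ) := by exact_mod_cast hK
  have hNR : (1 : ℝ) ≤ (N : ℝ) := by exact_mod_cast hN
  have hb0 : (0 : ℝ) ≤ (b : ℝ) := by linarith
  rw [← cr_sq hb0, ← cr_sq (by linarith : (0 : ℝ) ≤ (N : ℝ))]
  have h1 : cr ((N + 1 : ℕ) : ℝ) ≤ cr 2 * cr (N : ℝ) := by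
    rw [← cr_mul (by norm_num) (by linarith)]
    refine cr_mono (by positivity) ?_
    push_cast; linarith
  have h2 : cr 2 ^ 2 ≤ 2 := by
    have h3 : cr 2 ^ 3 = 2 := cr_cube (by norm_num)
    have h4 : 1 ≤ cr 2 := by rw [← cr_one]; exact cr_mono (by norm_num) (by norm_num)
    nlinarith [sq_nonneg (cr 2)]
  have h5 : 0 ≤ cr ((N + 1 : ℕ) : ℝ) := cr_nonneg (by positivity)
  have h6 : cr ((N + 1 : ℕ) : ℝ) ^ 2 ≤ 2 * cr (N : ℝ) ^ 2 := by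
    calc cr ((N + 1 : ℕ) : ℝ) ^ 2 ≤ (cr 2 * cr (N : ℝ)) ^ 2 := pow_le_pow_left₀ h5 h1 2
      _ = cr 2 ^ 2 * cr (N : ℝ) ^ 2 := by ring
      _ ≤ 2 * cr (N : ℝ) ^ 2 := mul_le_mul_of_nonneg_right h2 (by positivity)
  unfold Cc
  rw [cr_mul (by linarith) hb0]
  have h7 : 0 ≤ cr ((K : ℝ) + 1) := cr_nonneg (by linarith)
  have h8 : 0 ≤ cr (b : ℝ) := cr_nonneg hb0
  calc 3 * cr (b : ℝ) * (cr ((K : ℝ) + 1) * cr (b : ℝ) * 6) * cr ((N + 1 : ℕ) : ℝ) ^ 2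
      ≤ 3 * cr (b : ℝ) * (cr ((K : ℝ) + 1) * cr (b : ℝ) * 6) * (2 * cr (N : ℝ) ^ 2) :=
        mul_le_mul_of_nonneg_left h6 (by positivity)
    _ = _ := by ring

end Pool.Agent.Q1.M6b
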